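import Pool.Agent.MP_9207e0_ag.e3.SpecC

/-! Module CLS: Heegner points and ideal classes. -/

set_option linter.unusedSectionVars false
set_option linter.unusedVariables false

namespace Pool.Agent.MP_9207e0_ag.e3

open UpperHalfPlane Complex Filter Asymptotics Matrix Pool.Agent.MP_9207e0_ag.hg
open NumberField IsDedekindDomain
open scoped Real MatrixGroups Manifold Classical Kronecker nonZeroDivisors

namespace Clsn

variable {O : Type} [CommRing O] [IsDomain O] {k : O →+* ℂ}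

/-- The ideal has a basis with ratio `τ`. -/
def Bas (k : O →+* ℂ) (I : Ideal O) (τ : ℍ) : Prop :=
  ∃ w1 w2 : O, w2 ≠ 0 ∧ k w1 = τ * k w2 ∧ ∀ x, x ∈ I ↔ ∃ a b : ℤ, x = a * w1 + b * w2

lemma lin_zero {τ : ℍ} {p q : ℤ} (h : (p : ℂ) * τ + q = 0) : p = 0 ∧ q = 0 := by
  have h1 := congrArg Complex.im h
  simp only [add_im, mul_im, intCast_re, intCast_im, coe_im, coe_re, zero_mul, add_zero,
    zero_im] at h1
  have hp : p = 0 := by exact_mod_cast (mul_eq_zero.mp h1).resolve_right τ.im_pos.ne'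
  rw [hp] at h
  exact ⟨hp, by exact_mod_cast (by simpa using h : (q : ℂ) = 0)⟩

lemma Bas.smul (hk : Function.Injective k) {I : Ideal O} {τ : ℍ} (h : Bas k I τ) (g : SL2) :
    Bas k I (g • τ) := by
  obtain ⟨w1, w2, h0, h1, h2⟩ := h
  have hd := det_SL g
  rw [Matrix.det_fin_two] at hd
  have hd' : (((g : M2) 0 0 : ℤ) : O) * ((g : M2) 1 1 : ℤ) -
      ((g : M2) 0 1 : ℤ) * ((g : M2) 1 0 : ℤ) = 1 := by exact_mod_cast congrArg (Int.cast : ℤ → O) hd
  have hm := (mob_eq_iff (det_SL_pos g) τ (g • τ)).mp (mob_SL g τ)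
  refine ⟨((g : M2) 0 0 : ℤ) * w1 + ((g : M2) 0 1 : ℤ) * w2,
    ((g : M2) 1 0 : ℤ) * w1 + ((g : M2) 1 1 : ℤ) * w2, fun e => ?_, ?_, fun x => ?_⟩
  · have e' := congrArg k e
    simp only [map_add, map_mul, map_intCast, map_zero, h1] at e'
    have : ((((g : M2) 1 0 : ℤ) : ℂ) * τ + ((g : M2) 1 1 : ℤ)) * k w2 = 0 := by
      linear_combination e'
    rcases mul_eq_zero.mp this with h | h
    · exact den_ne (det_SL_pos g) τ h
    · exact h0 (hk (by rw [h, map_zero]))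
  · simp only [map_add, map_mul, map_intCast, h1]
    linear_combination (k w2) * hm
  · rw [h2]
    constructor
    · rintro ⟨a, b, rfl⟩
      refine ⟨a * (g : M2) 1 1 - b * (g : M2) 1 0, b * (g : M2) 0 0 - a * (g : M2) 0 1, ?_⟩
      push_cast
      linear_combination (-((a : O) * w1 + (b : O) * w2)) * hd'
    · rintro ⟨a, b, rfl⟩
      refine ⟨a * (g : M2) 0 0 + b * (g : M2) 1 0, a * (g : M2) 0 1 + b * (g : M2) 1 1, ?_⟩
      push_cast
      ring

lemma Bas.mul {I : Ideal O} {τ : ℍ} (h : Bas k I τ) {y : O} (hy : y ≠ 0) :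
    Bas k (Ideal.span {y} * I) τ := by
  obtain ⟨w1, w2, h0, h1, h2⟩ := h
  refine ⟨y * w1, y * w2, mul_ne_zero hy h0, by rw [map_mul, map_mul, h1]; ring, fun x => ?_⟩
  rw [Ideal.mem_span_singleton_mul]
  constructor
  · rintro ⟨z, hz, rfl⟩
    obtain ⟨a, b, rfl⟩ := (h2 z).mp hz
    exact ⟨a, b, by ring⟩
  · rintro ⟨a, b, rfl⟩
    exact ⟨a * w1 + b * w2, (h2 _).mpr ⟨a, b, rfl⟩, by ring⟩

lemma Bas.same (hk : Function.Injective k) {I J : Ideal O} {τ : ℍ} (h : Bas k I τ)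
    (h' : Bas k J τ) :
    ∃ x y : O, x ≠ 0 ∧ y ≠ 0 ∧ Ideal.span {x} * I = Ideal.span {y} * J := by
  obtain ⟨w1, w2, h0, h1, h2⟩ := h
  obtain ⟨u1, u2, g0, g1, g2⟩ := h'
  have e : u2 * w1 = w2 * u1 := hk (by rw [map_mul, map_mul, h1, g1]; ring)
  refine ⟨u2, w2, g0, h0, Ideal.ext fun x => ?_⟩
  rw [Ideal.mem_span_singleton_mul, Ideal.mem_span_singleton_mul]
  constructor
  · rintro ⟨z, hz, rfl⟩
    obtain ⟨a, b, rfl⟩ := (h2 z).mp hz
    exact ⟨a * u1 + b * u2, (g2 _).mpr ⟨a, b, rfl⟩, by linear_combination (-(a : O)) * e⟩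
  · rintro ⟨z, hz, rfl⟩
    obtain ⟨a, b, rfl⟩ := (g2 z).mp hz
    exact ⟨a * w1 + b * w2, (h2 _).mpr ⟨a, b, rfl⟩, by linear_combination (a : O) * e⟩

lemma Bas.rel (hk : Function.Injective k) {I : Ideal O} {τ σ : ℍ} (h : Bas k I τ)
    (h' : Bas k I σ) : ∃ g : SL2, g • τ = σ := by
  obtain ⟨w1, w2, h0, h1, h2⟩ := h
  obtain ⟨u1, u2, g0, g1, g2⟩ := h'
  have hw : k w2 ≠ 0 := fun h => h0 (hk (by rw [h, map_zero]))
  obtain ⟨a, b, e1⟩ := (h2 u1).mp ((g2 u1).mpr ⟨1, 0, by simp⟩)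
  obtain ⟨c, d, e2⟩ := (h2 u2).mp ((g2 u2).mpr ⟨0, 1, by simp⟩)
  obtain ⟨a', b', f1⟩ := (g2 w1).mp ((h2 w1).mpr ⟨1, 0, by simp⟩)
  obtain ⟨c', d', f2⟩ := (g2 w2).mp ((h2 w2).mpr ⟨0, 1, by simp⟩)
  have e1' := congrArg k e1
  have e2' := congrArg k e2
  have f1' := congrArg k f1
  have f2' := congrArg k f2
  simp only [map_add, map_mul, map_intCast] at e1' e2' f1' f2'
  rw [e1', e2', h1] at f1' f2' g1
  have r1 := lin_zero (τ := τ) (p := a' * a + b' * c - 1) (q := a' * b + b' * d)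
    (mul_right_cancel₀ hw (by push_cast; linear_combination -f1'))
  have r2 := lin_zero (τ := τ) (p := c' * a + d' * c) (q := c' * b + d' * d - 1)
    (mul_right_cancel₀ hw (by push_cast; linear_combination -f2'))
  have hm : (a : ℂ) * τ + b = σ * ((c : ℂ) * τ + d) :=
    mul_right_cancel₀ hw (by linear_combination g1)
  have hu : (a * d - b * c) * (a' * d' - b' * c') = 1 := by
    linear_combination (c' * b + d' * d) * r1.1 + r2.2 - (c' * a + d' * c) * r1.2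
  have hre := congrArg Complex.re hm
  have him := congrArg Complex.im hm
  simp only [add_im, mul_im, add_re, mul_re, intCast_re, intCast_im, coe_im, coe_re, zero_mul,
    add_zero, sub_zero] at hre him
  have hp : (0 : ℝ) ≤ ((a : ℝ) * d - b * c) * τ.im := by
    have : ((a : ℝ) * d - b * c) * τ.im = σ.im * ((c * τ.re + d) ^ 2 + (c * τ.im) ^ 2) := by
      linear_combination ((c : ℝ) * τ.re + d) * him - ((c : ℝ) * τ.im) * hre
    rw [this]
    exact mul_nonneg σ.im_pos.le (by positivity)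
  have hp' : 0 ≤ a * d - b * c := by
    exact_mod_cast nonneg_of_mul_nonneg_left hp τ.im_pos
  have hd : (!![a, b; c, d] : M2).det = 1 := by
    rw [Matrix.det_fin_two_of]
    exact Int.eq_one_of_mul_eq_one_right hp' hu
  refine ⟨⟨!![a, b; c, d], hd⟩, ?_⟩
  rw [← mob_SL, mob_eq_iff (det_SL_pos _)]
  simpa using hm

lemma of_form {lam : O} {t m : ℤ} (he : lam ^ 2 - t * lam + m = 0)
    (hb : ∀ z : O, ∃ a b : ℤ, z = a + b * lam) {W : M2} {τ : ℍ} (ht : W.trace = t)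
    (hd : W.det = m) (h0 : ((W 1 0 : ℤ) : O) ≠ 0) (hz : (W 1 0 : ℂ) * τ + W 1 1 = k lam) :
    ∃ I : Ideal O, I ≠ 0 ∧ Bas k I τ := by
  rw [Matrix.trace_fin_two] at ht
  rw [Matrix.det_fin_two] at hd
  rw [← ht, ← hd] at he
  push_cast at he
  refine ⟨Ideal.span {lam - (W 1 1 : ℤ), ((W 1 0 : ℤ) : O)}, fun h => h0 ?_, lam - (W 1 1 : ℤ),
    ((W 1 0 : ℤ) : O), h0, ?_, fun x => ?_⟩
  · have : ((W 1 0 : ℤ) : O) ∈ Ideal.span {lam - (W 1 1 : ℤ), ((W 1 0 : ℤ) : O)} :=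
      Ideal.subset_span (by simp)
    rw [h] at this
    exact this
  · rw [map_sub, map_intCast, map_intCast, ← hz]
    ring
  · rw [Ideal.mem_span_pair]
    constructor
    · rintro ⟨u, v, rfl⟩
      obtain ⟨a, b, rfl⟩ := hb u
      obtain ⟨c, d, rfl⟩ := hb v
      refine ⟨a + b * W 0 0 + d * W 1 0, c + b * W 0 1 + d * W 1 1, ?_⟩
      push_cast
      linear_combination (b : O) * he
    · rintro ⟨a, b, rfl⟩
      exact ⟨a, b, rfl⟩

lemma to_form (hk : Function.Injective k) {lam : O} {t m : ℤ} (he : lam ^ 2 - t * lam + m = 0)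
    (hi : (k lam).im ≠ 0) {I : Ideal O} {τ : ℍ} (h : Bas k I τ) :
    ∃ W : M2, W.det = m ∧ (W 0 0 : ℂ) * τ + W 0 1 = τ * ((W 1 0 : ℂ) * τ + W 1 1) ∧
      (W 1 0 : ℂ) * τ + W 1 1 = k lam := by
  obtain ⟨w1, w2, h0, h1, h2⟩ := h
  have hw : k w2 ≠ 0 := fun h => h0 (hk (by rw [h, map_zero]))
  obtain ⟨a, b, e1⟩ := (h2 _).mp (I.mul_mem_left lam ((h2 w1).mpr ⟨1, 0, by simp⟩))
  obtain ⟨c, d, e2⟩ := (h2 _).mp (I.mul_mem_left lam ((h2 w2).mpr ⟨0, 1, by simp⟩))
  have e1' := congrArg k e1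
  have e2' := congrArg k e2
  have he' := congrArg k he
  simp only [map_add, map_sub, map_pow, map_mul, map_intCast, map_zero, h1] at e1' e2' he'
  have f1 : k lam * τ = a * τ + b := mul_right_cancel₀ hw (by linear_combination e1')
  have f2 : k lam = c * τ + d := mul_right_cancel₀ hw (by linear_combination e2')
  have f3 : ((a + d - t : ℤ) : ℂ) * k lam = ((a * d - b * c - m : ℤ) : ℂ) := by
    push_cast
    linear_combination he' - (k lam - a) * f2 - (c : ℂ) * f1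
  have f4 := congrArg Complex.im f3
  simp only [mul_im, intCast_re, intCast_im, zero_mul, add_zero] at f4
  have f5 : a + d - t = 0 := by exact_mod_cast (mul_eq_zero.mp f4).resolve_right hi
  rw [f5] at f3
  have f6 : a * d - b * c - m = 0 := by
    exact_mod_cast (by simpa using f3.symm : ((a * d - b * c - m : ℤ) : ℂ) = 0)
  refine ⟨!![a, b; c, d], by rw [Matrix.det_fin_two_of]; omega, ?_, ?_⟩
  · simp only [Matrix.of_apply, Matrix.cons_val', Matrix.cons_val_zero, Matrix.cons_val_one,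
      Matrix.cons_val_fin_one]
    rw [← f2, ← f1]
    ring
  · simpa using f2.symm

lemma exists_bas {lam : O} (hb : ∀ z : O, ∃ a b : ℤ, z = a + b * lam) (hi : (k lam).im ≠ 0)
    {I : Ideal O} {N : ℤ} (hN : N ≠ 0) (hI : (N : O) ∈ I) : ∃ τ, Bas k I τ := by
  let H0 : AddSubgroup ℤ := I.toAddSubgroup.comap (Int.castAddHom O)
  let H1 : AddSubgroup ℤ :=
    { carrier := {q | ∃ p : ℤ, (p : O) + q * lam ∈ I}
      add_mem' := by
        rintro q q' ⟨p, hp⟩ ⟨p', hp'⟩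
        refine ⟨p + p', ?_⟩
        have := I.add_mem hp hp'
        push_cast
        rwa [show (p : O) + p' + (q + q') * lam = p + q * lam + (p' + q' * lam) by ring]
      zero_mem' := ⟨0, by simp⟩
      neg_mem' := by
        rintro q ⟨p, hp⟩
        refine ⟨-p, ?_⟩
        have := I.neg_mem hp
        push_cast
        rwa [show -(p : O) + -q * lam = -(p + q * lam) by ring] }
  obtain ⟨a, ha⟩ := Int.subgroup_cyclic H0
  obtain ⟨c, hc⟩ := Int.subgroup_cyclic H1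
  have m0 : ∀ p : ℤ, (p : O) ∈ I ↔ ∃ j : ℤ, j * a = p := fun p => by
    have : p ∈ H0 ↔ ∃ j : ℤ, j • a = p := by rw [ha, AddSubgroup.mem_closure_singleton]
    exact this
  have m1 : ∀ q : ℤ, (∃ p : ℤ, (p : O) + q * lam ∈ I) ↔ ∃ j : ℤ, j * c = q := fun q => by
    have : q ∈ H1 ↔ ∃ j : ℤ, j • c = q := by rw [hc, AddSubgroup.mem_closure_singleton]
    exact this
  have ha0 : a ≠ 0 := by
    rintro rfl
    obtain ⟨j, hj⟩ := (m0 N).mp hI
    exact hN (by simpa using hj.symm)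
  have hc0 : c ≠ 0 := by
    rintro rfl
    obtain ⟨j, hj⟩ := (m1 N).mp ⟨0, by simpa using I.mul_mem_right lam hI⟩
    exact hN (by simpa using hj.symm)
  obtain ⟨b, hbc⟩ := (m1 c).mpr ⟨1, one_mul c⟩
  have haI : (a : O) ∈ I := (m0 a).mpr ⟨1, one_mul a⟩
  have haC : (a : ℂ) ≠ 0 := by exact_mod_cast ha0
  have haO : (a : O) ≠ 0 := fun h => haC (by rw [← map_intCast k, h, map_zero])
  have key : ∀ x, x ∈ I ↔ ∃ p q : ℤ, x = p * ((b : O) + c * lam) + q * (a : O) := fun x => by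
    constructor
    · intro hx
      obtain ⟨p, q, rfl⟩ := hb x
      obtain ⟨j, rfl⟩ := (m1 q).mp ⟨p, hx⟩
      have h1 := I.sub_mem hx (I.mul_mem_left (j : O) hbc)
      have h2 : ((p - j * b : ℤ) : O) ∈ I := by
        push_cast at h1 ⊢
        rwa [show (p : O) - j * b = p + j * c * lam - j * (b + c * lam) by ring]
      obtain ⟨i, hi⟩ := (m0 _).mp h2
      have h3 := congrArg (Int.cast : ℤ → O) hi
      push_cast at h3 ⊢
      exact ⟨j, i, by linear_combination -h3⟩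
    · rintro ⟨p, q, rfl⟩
      exact I.add_mem (I.mul_mem_left _ hbc) (I.mul_mem_left _ haI)
  have him : (k ((b : O) + c * lam) / a).im ≠ 0 := by
    rw [map_add, map_mul, map_intCast, map_intCast, ← Complex.ofReal_intCast a, Complex.div_ofReal_im]
    simp only [add_im, mul_im, intCast_re, intCast_im, zero_mul, add_zero, zero_add]
    exact div_ne_zero (mul_ne_zero (by exact_mod_cast hc0) hi) (by exact_mod_cast ha0)
  rcases lt_or_gt_of_ne him with h | h
  · refine ⟨⟨-(k ((b : O) + c * lam) / a), by rw [Complex.neg_im]; linarith⟩,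
      -((b : O) + c * lam), a, haO, ?_, fun x => ?_⟩
    · show k (-((b : O) + c * lam)) = -(k ((b : O) + c * lam) / a) * k (a : O)
      rw [map_neg, map_intCast k a, neg_mul, div_mul_cancel₀ _ haC]
    · rw [key]
      constructor
      · rintro ⟨p, q, rfl⟩
        exact ⟨-p, q, by push_cast; ring⟩
      · rintro ⟨p, q, rfl⟩
        exact ⟨-p, q, by push_cast; ring⟩
  · refine ⟨⟨k ((b : O) + c * lam) / a, h⟩, (b : O) + c * lam, a, haO, ?_, key⟩
    show k ((b : O) + c * lam) = k ((b : O) + c * lam) / a * k (a : O)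
    rw [map_intCast k a, div_mul_cancel₀ _ haC]

end Clsn

open Clsn in
theorem clsn (hH : HB) (hK : OK) : ClsStmt := by
  intro n m t e K _ _ lam κ R hQ he hR
  let k : 𝓞 K →+* ℂ := κ.comp (algebraMap (𝓞 K) K)
  have hk : Function.Injective k := κ.injective.comp (IsFractionRing.injective (𝓞 K) K)
  have he' : 0 < (e : ℝ) * (k lam).im := he
  have hi : (k lam).im ≠ 0 := hK.im hQ κ
  have hz : (k lam) ^ 2 - t * k lam + m = 0 := by
    have := congrArg k hQ.eq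
    simpa only [map_add, map_sub, map_pow, map_mul, map_intCast, map_zero] using this
  have hA : ∀ τ ∈ R, ∃ I : (Ideal (𝓞 K))⁰, Bas k (I : Ideal (𝓞 K)) τ := by
    intro τ hτ
    obtain ⟨W, hW, -⟩ := hR.1 τ hτ
    have h0 : W 1 0 ≠ 0 := fun h => by
      have := hW.2.2.2
      rw [h, mul_zero] at this
      exact lt_irrefl _ this
    obtain ⟨I, hI, hB⟩ := of_form (k := k) hQ.eq hQ.basis hW.1 hW.2.1 (by exact_mod_cast h0)
      (hH.eig _ hQ.dat hW hz he')
    exact ⟨⟨I, mem_nonZeroDivisors_of_ne_zero hI⟩, hB⟩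
  choose Iτ hI using hA
  show R.card = (Finset.univ : Finset (ClassGroup (𝓞 K))).card
  refine Finset.card_bij (fun τ hτ => ClassGroup.mk0 (Iτ τ hτ)) (fun _ _ => Finset.mem_univ _)
    (fun τ hτ σ hσ h => ?_) (fun c _ => ?_)
  · obtain ⟨x, y, hx, hy, hxy⟩ := ClassGroup.mk0_eq_mk0_iff.mp h
    have h1 := (hI τ hτ).mul hx
    rw [hxy] at h1
    obtain ⟨g, rfl⟩ := h1.rel hk ((hI σ hσ).mul hy)
    exact (hR.2 τ (hR.1 τ hτ)).unique ⟨hτ, hH.equiv.refl τ⟩
      ⟨hσ, g, hH.lemI g hQ.dat (hR.1 τ hτ) (hR.1 _ hσ), rfl⟩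
  · obtain ⟨I, rfl⟩ := ClassGroup.mk0_surjective c
    have hI0 : (I : Ideal (𝓞 K)) ≠ ⊥ := nonZeroDivisors.coe_ne_zero I
    obtain ⟨τ, hτ⟩ := exists_bas (k := k) hQ.basis hi (I := (I : Ideal (𝓞 K)))
      (N := (Ideal.absNorm (I : Ideal (𝓞 K)) : ℤ))
      (by exact_mod_cast fun h => hI0 (Ideal.absNorm_eq_zero_iff.mp h))
      (by exact_mod_cast Ideal.absNorm_mem _)
    obtain ⟨W, hd, h1, h2⟩ := to_form hk hQ.eq hi hτ
    have hW := hH.of_eig (k lam) hQ.dat hz he' hd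
      ((mob_eq_iff (by rw [hd]; exact hH.pos hQ.dat) τ τ).mpr h1) h2
    obtain ⟨g, γ, hg⟩ := hH.lift hQ.dat hW
    have hS : HS m t e (g • τ) := by
      refine ⟨_, hg, ?_, ?_⟩
      · simpa [dg, Matrix.mul_apply] using hQ.dat.dvd.mul_left _
      · simpa [dg, Matrix.mul_apply] using hQ.dat.dvd.mul_left _
    obtain ⟨ρ, ⟨hρ, g', -, rfl⟩, -⟩ := hR.2 _ hS
    refine ⟨_, hρ, ClassGroup.mk0_eq_mk0_iff.mpr ?_⟩
    obtain ⟨x, y, hx, hy, hxy⟩ := (hI _ hρ).same hk ((hτ.smul hk g).smul hk g')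
    exact ⟨x, y, hx, hy, hxy⟩

end Pool.Agent.MP_9207e0_ag.e3
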