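import Pool.Agent.MP_9207e0_ag.e3.SpecC

/-! Row CUBE: elements of a number field all of whose orders are divisible by three. -/

set_option linter.unusedSectionVars false
set_option linter.unusedVariables false

namespace Pool.Agent.MP_9207e0_ag.e3

open NumberField IsDedekindDomain
open scoped Classical nonZeroDivisors

namespace Cube

variable {K : Type} [Field K] [NumberField K]

theorem lg_mul (v : HeightOneSpectrum (𝓞 K)) {x y : K} (hx : x ≠ 0) (hy : y ≠ 0) :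
    lg v (x * y) = lg v x + lg v y := by
  unfold lg
  rw [map_mul, WithZero.log_mul ((Valuation.ne_zero_iff _).2 hx) ((Valuation.ne_zero_iff _).2 hy)]

theorem lg_pow (v : HeightOneSpectrum (𝓞 K)) (x : K) (k : ℕ) : lg v (x ^ k) = k * lg v x := by
  unfold lg
  rw [map_pow, WithZero.log_pow, nsmul_eq_mul]

theorem lg_inv (v : HeightOneSpectrum (𝓞 K)) (x : K) : lg v x⁻¹ = -lg v x := by
  unfold lg
  rw [map_inv₀, WithZero.log_inv]

theorem lg_not_mem (v : HeightOneSpectrum (𝓞 K)) (x : 𝓞 K) (h : x ∉ v.asIdeal) :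
    lg v (x : K) = 0 := by
  unfold lg
  have : v.valuation K (x : K) = 1 := (v.valuation_eq_one_iff_notMem (K := K)).2 h
  rw [this, WithZero.log_one]

theorem lg_unit (v : HeightOneSpectrum (𝓞 K)) (u : (𝓞 K)ˣ) : lg v ((u : 𝓞 K) : K) = 0 :=
  lg_not_mem v _ fun h => v.isPrime.ne_top (Ideal.eq_top_of_isUnit_mem _ h u.isUnit)

theorem lg_count (v : HeightOneSpectrum (𝓞 K)) {r : 𝓞 K} (hr : r ≠ 0) :
    lg v (r : K) =
      -((Associates.mk v.asIdeal).count (Associates.mk (Ideal.span {r})).factors : ℤ) := by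
  unfold lg
  have : v.valuation K (r : K) = v.intValuation r := v.valuation_of_algebraMap r
  rw [this, v.intValuation_if_neg hr, WithZero.log_exp]

theorem principal (h : ¬3 ∣ classNumber K) {I : Ideal (𝓞 K)} (hI : I ≠ 0)
    (h3 : (I ^ 3).IsPrincipal) : I.IsPrincipal := by
  have hI' : I ∈ (Ideal (𝓞 K))⁰ := mem_nonZeroDivisors_of_ne_zero hI
  have e3 : ClassGroup.mk0 ⟨I, hI'⟩ ^ 3 = 1 := by
    rw [← map_pow]
    exact (ClassGroup.mk0_eq_one_iff (pow_mem hI' 3)).2 h3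
  have d1 : orderOf (ClassGroup.mk0 ⟨I, hI'⟩) ∣ 3 := orderOf_dvd_of_pow_eq_one e3
  have d2 : orderOf (ClassGroup.mk0 ⟨I, hI'⟩) ∣ classNumber K := orderOf_dvd_card
  rcases (Nat.dvd_prime Nat.prime_three).1 d1 with e | e
  · exact (ClassGroup.mk0_eq_one_iff hI').1 (orderOf_eq_one_iff.1 e)
  · exact absurd (e ▸ d2) h

theorem val_int (h : ¬3 ∣ classNumber K) {r : 𝓞 K} (hr : r ≠ 0)
    (h3 : ∀ v : HeightOneSpectrum (𝓞 K), 3 ∣ lg v (r : K)) :
    ∃ c : 𝓞 K, c ≠ 0 ∧ ∀ v : HeightOneSpectrum (𝓞 K), lg v (r : K) = 3 * lg v (c : K) := by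
  have hs : (Ideal.span {r} : Ideal (𝓞 K)) ≠ 0 := Ideal.span_singleton_eq_bot.not.2 hr
  obtain ⟨b, hb⟩ := Associates.is_pow_of_dvd_count (Associates.mk_ne_zero.2 hs) (k := 3) (by
    intro p hp
    obtain ⟨P, rfl⟩ := Associates.mk_surjective p
    have hP : Prime P := (Associates.irreducible_mk.1 hp).prime
    have := h3 (HeightOneSpectrum.ofPrime hP)
    rw [lg_count _ hr, dvd_neg] at this
    exact_mod_cast this)
  obtain ⟨I, rfl⟩ := Associates.mk_surjective b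
  rw [← Associates.mk_pow, Associates.mk_eq_mk_iff_associated, associated_iff_eq] at hb
  have hI : I ≠ 0 := by
    rintro rfl
    exact hs (by rw [hb]; simp)
  obtain ⟨c, hc⟩ := principal h hI (hb ▸ ⟨⟨r, rfl⟩⟩)
  have hc' : I = Ideal.span {c} := hc
  have hc0 : c ≠ 0 := by
    rintro rfl
    exact hI (by rw [hc']; simp)
  rw [hc', Ideal.span_singleton_pow, Ideal.span_singleton_eq_span_singleton] at hb
  obtain ⟨u, hu⟩ := hb.symm
  refine ⟨c, hc0, fun v => ?_⟩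
  have e : (r : K) = (c : K) ^ 3 * ((u : 𝓞 K) : K) := by
    rw [← hu]
    push_cast
    rfl
  have n1 : (c : K) ≠ 0 := RingOfIntegers.coe_ne_zero_iff.2 hc0
  have n2 : ((u : 𝓞 K) : K) ≠ 0 := RingOfIntegers.coe_ne_zero_iff.2 u.ne_zero
  rw [e, lg_mul v (pow_ne_zero 3 n1) n2, lg_pow, lg_unit, add_zero]
  rfl

theorem val (β : K) (h : ¬3 ∣ classNumber K) (hβ : β ≠ 0)
    (h3 : ∀ v : HeightOneSpectrum (𝓞 K), 3 ∣ lg v β) :
    ∃ c : K, c ≠ 0 ∧ ∀ v : HeightOneSpectrum (𝓞 K), lg v β = 3 * lg v c := by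
  obtain ⟨a, b, hb, e⟩ := IsFractionRing.div_surjective (A := 𝓞 K) β
  have hb0 : b ≠ 0 := nonZeroDivisors.ne_zero hb
  have nb : (b : K) ≠ 0 := RingOfIntegers.coe_ne_zero_iff.2 hb0
  have e' : (a : K) / (b : K) = β := e
  have e2 : ((a * b ^ 2 : 𝓞 K) : K) = β * (b : K) ^ 3 := by
    rw [← e']
    push_cast
    field_simp
  have hr : (a * b ^ 2 : 𝓞 K) ≠ 0 := by
    rw [← RingOfIntegers.coe_ne_zero_iff]
    have : ((a * b ^ 2 : 𝓞 K) : K) ≠ 0 := by
      rw [e2]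
      exact mul_ne_zero hβ (pow_ne_zero 3 nb)
    exact this
  have e3 : ∀ v : HeightOneSpectrum (𝓞 K),
      lg v ((a * b ^ 2 : 𝓞 K) : K) = lg v β + 3 * lg v (b : K) := by
    intro v
    rw [e2, lg_mul v hβ (pow_ne_zero 3 nb), lg_pow]
    rfl
  obtain ⟨c, hc0, hc⟩ := val_int h hr fun v => by
    rw [e3]
    exact dvd_add (h3 v) (dvd_mul_right 3 _)
  have nc : (c : K) ≠ 0 := RingOfIntegers.coe_ne_zero_iff.2 hc0
  refine ⟨(c : K) * (b : K)⁻¹, mul_ne_zero nc (inv_ne_zero nb), fun v => ?_⟩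
  have := hc v
  rw [e3] at this
  rw [lg_mul v nc (inv_ne_zero nb), lg_inv]
  omega

theorem val_one {β : K} (hβ : β ≠ 0) {v : HeightOneSpectrum (𝓞 K)} (h : lg v β = 0) :
    v.valuation K β = 1 := by
  have := WithZero.exp_log ((Valuation.ne_zero_iff (v.valuation K)).2 hβ)
  unfold lg at h
  rw [h, WithZero.exp_zero] at this
  exact this.symm

theorem unit (β : K) (hβ : β ≠ 0) (h : ∀ v : HeightOneSpectrum (𝓞 K), lg v β = 0) :
    ∃ u : (𝓞 K)ˣ, β = ((u : 𝓞 K) : K) := by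
  obtain ⟨a, ha⟩ := HeightOneSpectrum.mem_integers_of_valuation_le_one (R := 𝓞 K) K β
    fun v => (val_one hβ (h v)).le
  obtain ⟨b, hb⟩ := HeightOneSpectrum.mem_integers_of_valuation_le_one (R := 𝓞 K) K β⁻¹
    fun v => (val_one (inv_ne_zero hβ) (by rw [lg_inv, h v, neg_zero])).le
  have e : a * b = 1 := by
    apply IsFractionRing.injective (𝓞 K) K
    rw [map_mul, ha, hb, map_one, mul_inv_cancel₀ hβ]
  exact ⟨Units.mkOfMulEqOne a b e, ha.symm⟩

theorem cub (β : K) (h : ¬3 ∣ classNumber K) (hu : ∀ u : (𝓞 K)ˣ, u = 1 ∨ u = -1) (hβ : β ≠ 0)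
    (h3 : ∀ v : HeightOneSpectrum (𝓞 K), 3 ∣ lg v β) : ∃ c : K, c ^ 3 = β := by
  obtain ⟨c, hc0, hc⟩ := val β h hβ h3
  have n3 : (c ^ 3)⁻¹ ≠ 0 := inv_ne_zero (pow_ne_zero 3 hc0)
  obtain ⟨u, e⟩ := unit (β * (c ^ 3)⁻¹) (mul_ne_zero hβ n3) fun v => by
    rw [lg_mul v hβ n3, lg_inv, lg_pow, hc v]
    simp
  rw [mul_inv_eq_iff_eq_mul₀ (pow_ne_zero 3 hc0)] at e
  rcases hu u with rfl | rfl
  · exact ⟨c, by rw [e]; simp⟩
  · exact ⟨-c, by rw [e]; simp; ring⟩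

end Cube

theorem cube : CUBE where
  mul := fun v _ _ hx hy => Cube.lg_mul v hx hy
  pow := fun v x k => Cube.lg_pow v x k
  of_not_mem := fun v x h => Cube.lg_not_mem v x h
  val := fun β h hβ h3 => Cube.val β h hβ h3
  unit := fun β hβ h => Cube.unit β hβ h
  cube := fun β h hu hβ h3 => Cube.cub β h hu hβ h3

end Pool.Agent.MP_9207e0_ag.e3
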