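import Pool.Agent.MP_9207e0_ag.e3.SpecC

/-! Module DESC1: the descent map to `ZMod 3 × ZMod 3`. -/

set_option linter.unusedSectionVars false
set_option linter.unusedVariables false

namespace Pool.Agent.MP_9207e0_ag.e3

open UpperHalfPlane Complex Filter Asymptotics Matrix Pool.Agent.MP_9207e0_ag.hg
open NumberField IsDedekindDomain
open Pool.Agent.MP_a43263_nt (Pt ptMap ac WW GQ Tr)
open scoped Real MatrixGroups Manifold Classical Kronecker

namespace Desc1

theorem key {K Γ : Type} [Field K] [LinearOrderedCommGroupWithZero Γ] (V : Valuation K Γ)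
    {a1 a3 x y : K} (h1 : V a1 ≤ 1) (h3 : V a3 = 1) (e : y ^ 2 + a1 * x * y + a3 * y = x ^ 3)
    (hy : y ≠ 0) : ∃ c : K, V (y ^ 2) = V (c ^ 3) := by
  have e' : y * (y + a1 * x + a3) = x ^ 3 := by rw [← e]; ring
  have hV : V y * V (y + a1 * x + a3) = V x ^ 3 := by rw [← map_mul, e', map_pow]
  have hy0 : 0 < V y := zero_lt_iff.2 ((Valuation.ne_zero_iff V).2 hy)
  have hax : V (a1 * x) ≤ V x := by
    rw [map_mul]; exact mul_le_of_le_one_left' h1
  rcases lt_trichotomy (V y) 1 with h | h | h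
  · refine ⟨x ^ 2, ?_⟩
    have hx : V x < 1 := by
      by_contra hx
      rw [not_lt] at hx
      have hz : V (y + a1 * x + a3) ≤ V x :=
        V.map_add_le (V.map_add_le (h.le.trans hx) hax) (h3.le.trans hx)
      have hx0 : 0 < V x := lt_of_lt_of_le zero_lt_one hx
      have a : V y * V (y + a1 * x + a3) < V x :=
        calc V y * V (y + a1 * x + a3) ≤ V y * V x := mul_le_mul_right hz _
          _ < 1 * V x := mul_lt_mul_of_pos_right h hx0
          _ = V x := one_mul _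
      rw [hV] at a
      exact absurd a (not_lt.2 (le_self_pow₀ hx (by norm_num)))
    have hz : V (y + a1 * x + a3) = 1 := by
      rw [V.map_add_eq_of_lt_right, h3]
      rw [h3]
      exact V.map_add_lt h (hax.trans_lt hx)
    rw [hz, mul_one] at hV
    rw [map_pow, hV, map_pow, map_pow, ← pow_mul, ← pow_mul]
  · exact ⟨1, by rw [map_pow, h, map_pow, map_one, one_pow, one_pow]⟩
  · refine ⟨x, ?_⟩
    have hx : V x < V y := by
      by_contra hx
      rw [not_lt] at hx
      have hx1 : 1 < V x := h.trans_le hx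
      have hz : V (y + a1 * x + a3) ≤ V x :=
        V.map_add_le (V.map_add_le hx hax) (h3.le.trans hx1.le)
      have a : V y * V (y + a1 * x + a3) ≤ V x ^ 2 := by
        rw [sq]; exact mul_le_mul' hx hz
      rw [hV] at a
      exact absurd a (not_le.2 (pow_lt_pow_right₀ hx1 (by norm_num)))
    have hz : V (y + a1 * x + a3) = V y := by
      rw [add_assoc, V.map_add_eq_of_lt_left]
      exact V.map_add_lt (hax.trans_lt hx) (h3.trans_lt h)
    rw [hz] at hV
    rw [map_pow, map_pow, ← hV, sq]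

theorem cv_ne {a b : ℚ} {p : ℕ} (h : Cv a b p) :
    b ≠ 0 ∧ a ^ 3 - b ≠ 0 ∧ (p = 2 ∨ p = 5) ∧ (∃ k : ℕ, 3 * a = k) ∧ ∃ j : ℕ, b = p ^ j := by
  rcases h with ⟨rfl, rfl, rfl⟩ | ⟨rfl, rfl, rfl⟩
  · exact ⟨by norm_num, by norm_num, .inl rfl, ⟨2, by norm_num⟩, 2, by norm_num⟩
  · exact ⟨by norm_num, by norm_num, .inr rfl, ⟨5, by norm_num⟩, 1, by norm_num⟩

theorem val_nat {K : Type} [Field K] [NumberField K] (u : HeightOneSpectrum (𝓞 K)) (k : ℕ) :
    u.valuation K (k : K) ≤ 1 := by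
  have := u.valuation_le_one (K := K) (k : 𝓞 K)
  simpa using this

theorem val_one {K : Type} [Field K] [NumberField K] (u : HeightOneSpectrum (𝓞 K)) (k : ℕ)
    (h : (k : 𝓞 K) ∉ u.asIdeal) : u.valuation K (k : K) = 1 := by
  have h1 := val_nat u k
  have h2 : ¬u.valuation K (algebraMap (𝓞 K) K (k : 𝓞 K)) < 1 := by
    rw [u.valuation_lt_one_iff_mem]; exact h
  rw [map_natCast, not_lt] at h2
  exact le_antisymm h1 h2

theorem inK_some {a b : ℚ} {K : IntermediateField ℚ Qbar} (x y : K)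
    (h : ((WW a b).baseChange K).toAffine.Nonsingular x y) :
    ((WW a b).baseChange Qbar).toAffine.Nonsingular (x : Qbar) (y : Qbar) ∧
      inK a b K (.some x y h) = pw a b x y := by
  have h' : ((WW a b).baseChange Qbar).toAffine.Nonsingular (x : Qbar) (y : Qbar) :=
    (WeierstrassCurve.Affine.baseChange_nonsingular (W := WW a b)
      (f := (algebraMap K Qbar).toRatAlgHom) (algebraMap K Qbar).injective x y).2 h
  refine ⟨h', ?_⟩
  rw [pw, dif_pos h']
  rfl

theorem ex {a b : ℚ} {p : ℕ} {K : IntermediateField ℚ Qbar} [NumberField K] (hC : CUBE)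
    (hc : Cv a b p) (G : GD a b K) (P : Pt (WW a b) K) :
    ∃ β : K, β ≠ 0 ∧ Gd a b K β (inK a b K P) ∧
      ∀ u : HeightOneSpectrum (𝓞 K), (p : 𝓞 K) ∉ u.asIdeal → 3 ∣ lg u β := by
  obtain ⟨hb, -, -, ⟨k, hk⟩, j, hj⟩ := cv_ne hc
  have hb1 : ∀ u : HeightOneSpectrum (𝓞 K), (p : 𝓞 K) ∉ u.asIdeal →
      u.valuation K (b : K) = 1 := by
    intro u hu
    rw [hj, Rat.cast_pow, Rat.cast_natCast, map_pow, val_one u p hu, one_pow]
  rcases P with _ | ⟨x, y, h⟩
  · refine ⟨1, one_ne_zero, ?_, fun u _ => by simp [lg]⟩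
    have := G.zero 1 K.one_mem one_ne_zero
    rw [one_pow] at this
    change Gd a b K 1 (inK a b K 0)
    rwa [map_zero]
  · obtain ⟨h', e⟩ := inK_some x y h
    have q := (G.ns _ _).1 h'
    rw [e]
    by_cases hy : y = 0
    · have hx : (x : Qbar) = 0 := by
        rw [hy] at q
        simpa using q.symm
      refine ⟨b, by exact_mod_cast hb, ?_, fun u hu => by simp [lg, hb1 u hu]⟩
      have := G.tee
      rw [hx, hy]
      simpa using this
    · refine ⟨y ^ 2, pow_ne_zero _ hy, ?_, fun u hu => ?_⟩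
      · exact G.pt x x.2 y y.2 q (by simpa using hy)
      · have q' : y ^ 2 + (k : K) * x * y + (b : K) * y = x ^ 3 := by
          apply Subtype.ext
          have hk' : (3 : Qbar) * a = k := by exact_mod_cast congrArg (Rat.cast : ℚ → Qbar) hk
          rw [hk'] at q
          simpa using q
        obtain ⟨c, hc⟩ := key (u.valuation K) (val_nat u k) (hb1 u hu) q' hy
        have : lg u (y ^ 2) = lg u (c ^ 3) := by rw [lg, lg, hc]
        rw [this, hC.pow]
        exact Dvd.intro _ rfl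

theorem uniq {a b : ℚ} {K : IntermediateField ℚ Qbar} [NumberField K] (hC : CUBE)
    (G : GD a b K) (P : Pt (WW a b) K) {β β' : K} (h : β ≠ 0) (h' : β' ≠ 0)
    (g : Gd a b K β (inK a b K P)) (g' : Gd a b K β' (inK a b K P))
    (u : HeightOneSpectrum (𝓞 K)) : (lg u β : ZMod 3) = lg u β' := by
  have h0 : (β : Qbar) ≠ 0 := by simpa using h
  have h0' : (β' : Qbar) ≠ 0 := by simpa using h'
  have g3 := G.mul h0 g (G.mul h0 g g')
  have e3 : inK a b K P + (inK a b K P + inK a b K P) = 3 • inK a b K P := by abel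
  rw [e3] at g3
  obtain ⟨γ, hγ, e⟩ := G.cube P (mul_ne_zero h0 (mul_ne_zero h0 h0')) g3
  have e' : (⟨γ, hγ⟩ : K) ^ 3 = β * (β * β') := Subtype.ext (by simpa using e)
  have l := hC.pow u (⟨γ, hγ⟩ : K) 3
  rw [e', hC.mul u h (mul_ne_zero h h'), hC.mul u h h'] at l
  rw [ZMod.intCast_eq_intCast_iff_dvd_sub]
  refine ⟨lg u (⟨γ, hγ⟩ : K) - lg u β, ?_⟩
  push_cast at l ⊢
  linarith

end Desc1

theorem desc1 (hG : GdStmt) (hK : OK) (hC : CUBE) : Desc1Stmt := by
  intro a b p n m t K _ lam v v' hc hq h3 hv hl hv' hl'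
  obtain ⟨hb, hab, hp, -, -⟩ := Desc1.cv_ne hc
  have G := hG a b K hb hab
  choose β hβ0 hβ hβ3 using Desc1.ex hC hc G
  have spec : ∀ P (γ : K), γ ≠ 0 → Gd a b K γ (inK a b K P) →
      (((lg v (β P) : ZMod 3), (lg v' (β P) : ZMod 3)) : ZMod 3 × ZMod 3) =
        ((lg v γ : ZMod 3), (lg v' γ : ZMod 3)) := fun P γ h0 g =>
    Prod.ext (Desc1.uniq hC G P (hβ0 P) h0 (hβ P) g v) (Desc1.uniq hC G P (hβ0 P) h0 (hβ P) g v')
  refine ⟨AddMonoidHom.mk' (fun P => ((lg v (β P) : ZMod 3), (lg v' (β P) : ZMod 3))) ?_,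
    spec, ?_⟩
  · intro P Q
    have g := G.mul (by simpa using hβ0 P) (hβ P) (hβ Q)
    rw [← map_add] at g
    rw [spec (P + Q) (β P * β Q) (mul_ne_zero (hβ0 P) (hβ0 Q)) g,
      hC.mul v (hβ0 P) (hβ0 Q), hC.mul v' (hβ0 P) (hβ0 Q)]
    simp
  · intro P hP
    have h1 : ((lg v (β P) : ℤ) : ZMod 3) = 0 := congrArg Prod.fst hP
    have h2 : ((lg v' (β P) : ℤ) : ZMod 3) = 0 := congrArg Prod.snd hP
    rw [ZMod.intCast_zmod_eq_zero_iff_dvd] at h1 h2
    have all : ∀ u, 3 ∣ lg u (β P) := by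
      intro u
      by_cases hu : (p : 𝓞 K) ∈ u.asIdeal
      · by_cases hlu : lam ∈ u.asIdeal
        · rw [hK.uniq hq p hp u v hu hlu hv hl]
          exact_mod_cast h1
        · have hlu' : t - lam ∈ u.asIdeal := by
            by_contra hn
            exact hlu ((hK.dich hq p hp u hu).2 hn)
          rw [hK.uniq (hK.conj hq) p hp u v' hu hlu' hv' hl']
          exact_mod_cast h2
      · exact hβ3 P u hu
    obtain ⟨c, hc3⟩ := hC.cube (β P) h3 (hK.units hq) (hβ0 P) all
    have c0 : c ≠ 0 := by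
      rintro rfl
      exact hβ0 P (by rw [← hc3]; simp)
    have c0' : (c : Qbar) ≠ 0 := by simpa using c0
    have g := G.mul (by simpa using hβ0 P) (hβ P)
      (G.zero (c : Qbar)⁻¹ (K.inv_mem c.2) (inv_ne_zero c0'))
    have e : ((β P : K) : Qbar) * (c : Qbar)⁻¹ ^ 3 = 1 := by
      rw [← hc3]
      push_cast
      field_simp
    rwa [e, add_zero] at g

end Pool.Agent.MP_9207e0_ag.e3
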