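import Pool.Agent.MP_9207e0_ag.e3.SpecC

/-! The kernel of the descent map consists of multiples of three. -/

set_option linter.unusedSectionVars false
set_option linter.unusedVariables false

namespace Pool.Agent.MP_9207e0_ag.e3

open Pool.Agent.MP_9207e0_ag.hg
open NumberField IsDedekindDomain
open Pool.Agent.MP_a43263_nt (Pt ptMap ac WW GQ Tr ac_mul)
open scoped Classical IntermediateField

namespace Desc2

theorem pw_some {a b : ℚ} {x y : Qbar}
    (h : ((WW a b).baseChange Qbar).toAffine.Nonsingular x y) :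
    pw a b x y = .some x y h := by
  simp only [pw, h, dif_pos]

theorem pw_inj {a b : ℚ} {x y u v : Qbar}
    (h : ((WW a b).baseChange Qbar).toAffine.Nonsingular x y) (e : pw a b x y = pw a b u v) :
    x = u ∧ y = v := by
  rw [pw_some h] at e
  by_cases h' : ((WW a b).baseChange Qbar).toAffine.Nonsingular u v
  · rw [pw_some h'] at e
    exact WeierstrassCurve.Affine.Point.some.inj e
  · simp only [pw, h', dif_neg, not_false_eq_true] at e
    exact absurd e (WeierstrassCurve.Affine.Point.some_ne_zero h)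

/-- A pair of algebraic numbers whose conjugates over `K` are permuted cyclically by one
automorphism of order three generates a cyclic cubic extension. -/
theorem cubic (K : IntermediateField ℚ Qbar) [NumberField K] (x y : Qbar)
    (s : Qbar ≃ₐ[K] Qbar) (hx : s x ∈ K⟮x, y⟯) (hy : s y ∈ K⟮x, y⟯)
    (h1 : ¬(s x = x ∧ s y = y)) (h3 : s (s (s x)) = x ∧ s (s (s y)) = y)
    (hall : ∀ t : Qbar ≃ₐ[K] Qbar, (t x = x ∧ t y = y) ∨ (t x = s x ∧ t y = s y) ∨
      (t x = s (s x) ∧ t y = s (s y))) :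
    ∃ (_ : IsGalois K K⟮x, y⟯) (g : K⟮x, y⟯ ≃ₐ[K] K⟮x, y⟯), Module.finrank K K⟮x, y⟯ = 3 ∧
      ∀ z : K⟮x, y⟯, (g z : Qbar) = s z := by
  have hxm : x ∈ K⟮x, y⟯ := IntermediateField.subset_adjoin _ _ (by simp)
  have hym : y ∈ K⟮x, y⟯ := IntermediateField.subset_adjoin _ _ (by simp)
  have key : ∀ t : Qbar ≃ₐ[K] Qbar, t x ∈ K⟮x, y⟯ → t y ∈ K⟮x, y⟯ →
      (K⟮x, y⟯).map (t : Qbar →ₐ[K] Qbar) ≤ K⟮x, y⟯ := by
    intro t h h'
    rw [IntermediateField.adjoin_map, IntermediateField.adjoin_le_iff]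
    rintro _ ⟨z, hz, rfl⟩
    rcases hz with rfl | rfl
    · exact h
    · exact h'
  have hs : ∀ z ∈ K⟮x, y⟯, s z ∈ K⟮x, y⟯ := fun z hz => key s hx hy ⟨z, hz, rfl⟩
  have : Algebra.IsAlgebraic K Qbar := Algebra.IsAlgebraic.tower_top (K := ℚ) K
  have : IsAlgClosure K Qbar := ⟨inferInstance, inferInstance⟩
  have : Normal K Qbar := inferInstance
  have hN : Normal K K⟮x, y⟯ := by
    rw [IntermediateField.normal_iff_forall_map_le']
    intro t
    rcases hall t with h | h | h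
    · exact key t (h.1.symm ▸ hxm) (h.2.symm ▸ hym)
    · exact key t (h.1.symm ▸ hx) (h.2.symm ▸ hy)
    · exact key t (h.1.symm ▸ hs _ hx) (h.2.symm ▸ hs _ hy)
  have hF : FiniteDimensional K K⟮x, y⟯ :=
    IntermediateField.finiteDimensional_adjoin_pair (Algebra.IsIntegral.isIntegral x)
      (Algebra.IsIntegral.isIntegral y)
  have hG : IsGalois K K⟮x, y⟯ := {}
  let g : K⟮x, y⟯ ≃ₐ[K] K⟮x, y⟯ := s.restrictNormal K⟮x, y⟯
  have hg : ∀ z : K⟮x, y⟯, (g z : Qbar) = s z := fun z =>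
    AlgEquiv.restrictNormal_commutes s K⟮x, y⟯ z
  have ext : ∀ u v : K⟮x, y⟯ ≃ₐ[K] K⟮x, y⟯, (u ⟨x, hxm⟩ : Qbar) = v ⟨x, hxm⟩ →
      (u ⟨y, hym⟩ : Qbar) = v ⟨y, hym⟩ → u = v := by
    intro u v h h'
    apply AlgEquiv.coe_toAlgHom_injective
    apply IntermediateField.adjoin_algHom_ext
    intro z hz
    rcases hz with rfl | rfl
    · exact Subtype.ext h
    · exact Subtype.ext h'
  have g3 : g ^ 3 = 1 := by
    apply ext
    · simp only [pow_succ, pow_zero, one_mul, AlgEquiv.mul_apply, hg, AlgEquiv.one_apply]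
      exact h3.1
    · simp only [pow_succ, pow_zero, one_mul, AlgEquiv.mul_apply, hg, AlgEquiv.one_apply]
      exact h3.2
  have g1 : g ≠ 1 := by
    intro e
    apply h1
    have e1 := hg ⟨x, hxm⟩
    have e2 := hg ⟨y, hym⟩
    rw [e] at e1 e2
    exact ⟨e1.symm, e2.symm⟩
  have : Fact (Nat.Prime 3) := ⟨Nat.prime_three⟩
  have ho : orderOf g = 3 := orderOf_eq_prime g3 g1
  have htop : ∀ u : K⟮x, y⟯ ≃ₐ[K] K⟮x, y⟯, u ∈ Subgroup.zpowers g := by
    intro u
    have hu : ∀ z : K⟮x, y⟯, (u z : Qbar) = (u.liftNormal Qbar) z := fun z =>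
      (AlgEquiv.liftNormal_commutes u Qbar z).symm
    rcases hall (u.liftNormal Qbar) with h | h | h
    · have : u = 1 := ext _ _ ((hu _).trans h.1) ((hu _).trans h.2)
      rw [this]; exact one_mem _
    · have : u = g := ext _ _ ((hu _).trans (h.1.trans (hg ⟨x, hxm⟩).symm))
        ((hu _).trans (h.2.trans (hg ⟨y, hym⟩).symm))
      rw [this]; exact Subgroup.mem_zpowers g
    · have : u = g * g := by
        apply ext
        · rw [hu, AlgEquiv.mul_apply, hg, hg]; exact h.1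
        · rw [hu, AlgEquiv.mul_apply, hg, hg]; exact h.2
      rw [this]; exact mul_mem (Subgroup.mem_zpowers g) (Subgroup.mem_zpowers g)
  refine ⟨hG, g, ?_, hg⟩
  rw [← IsGalois.card_aut_eq_finrank, ← orderOf_eq_card_of_forall_mem_zpowers htop, ho]

end Desc2

open Desc2 in
theorem desc2 : Desc2Stmt := by
  intro a b K _ hG hN P hP
  obtain ⟨R, hR3, hR⟩ := hG.ker hP
  by_cases hfix : ∀ σ, Fx K σ → ac _ σ R = R
  · obtain ⟨Q, hQ⟩ := (hG.desc R).2 hfix
    refine ⟨Q, hG.inj ?_⟩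
    rw [map_nsmul, hQ, hR3]
  exfalso
  push Not at hfix
  obtain ⟨σ0, hσ0, hne⟩ := hfix
  have hT : ∀ σ : GQ, ac _ σ (pw a b 0 0) = pw a b 0 0 := by
    intro σ; rw [hG.ac_pw, map_zero]
  have hT3 : pw a b 0 0 + pw a b 0 0 + pw a b 0 0 = 0 := by
    have := hG.three
    rwa [show (3 : ℕ) = 1 + 1 + 1 from rfl, add_nsmul, add_nsmul, one_nsmul] at this
  have hsub : R - pw a b 0 0 = R + pw a b 0 0 + pw a b 0 0 := by
    rw [sub_eq_iff_eq_add, add_assoc, add_assoc, ← add_assoc (pw a b 0 0), hT3, add_zero]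
  have hTne : R + pw a b 0 0 ≠ R := by
    intro e
    rcases hR σ0 hσ0 with h | h | h
    · exact hne h
    · exact hne (h.trans e)
    · exact hne (by rw [h, hsub, e, e])
  obtain ⟨σ, hσ, hσR⟩ : ∃ σ, Fx K σ ∧ ac _ σ R = R + pw a b 0 0 := by
    rcases hR σ0 hσ0 with h | h | h
    · exact absurd h hne
    · exact ⟨σ0, hσ0, h⟩
    · refine ⟨σ0 * σ0, fun z hz => by rw [AlgEquiv.mul_apply, hσ0 z hz, hσ0 z hz], ?_⟩
      rw [ac_mul, h, map_sub, h, hT, hsub, add_sub_cancel_right]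
  obtain ⟨x, y, hns, rfl⟩ : ∃ x y, ((WW a b).baseChange Qbar).toAffine.Nonsingular x y ∧
      R = pw a b x y := by
    cases R with
    | zero => exact absurd (map_zero _) hne
    | some x y h => exact ⟨x, y, h, (pw_some h).symm⟩
  have heq := (hG.ns x y).1 hns
  have hconj : ∀ τ : GQ, ((WW a b).baseChange Qbar).toAffine.Nonsingular (τ x) (τ y) := by
    intro τ
    rw [hG.ns]
    have := congrArg τ heq
    simpa only [map_add, map_mul, map_pow, map_ratCast, map_ofNat] using this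
  have hx0 : x ≠ 0 := by
    rintro rfl
    apply hne
    have hy : y * (y + b) = 0 := by linear_combination heq
    rw [hG.ac_pw, map_zero]
    rcases mul_eq_zero.1 hy with h | h
    · rw [h, map_zero]
    · rw [eq_neg_of_add_eq_zero_left h, map_neg, map_ratCast]
  have hxy : σ x = -b * y / x ^ 2 ∧ σ y = -b ^ 2 * y / x ^ 3 := by
    apply pw_inj (hconj σ)
    rw [← hG.ac_pw, hσR, hG.addT x y heq hx0]
  have e1 : pw a b (σ x) (σ y) = pw a b x y + pw a b 0 0 := by rw [← hG.ac_pw, hσR]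
  have e2 : pw a b (σ (σ x)) (σ (σ y)) = pw a b x y + pw a b 0 0 + pw a b 0 0 := by
    rw [← hG.ac_pw, e1, map_add, hσR, hT]
  have e3 : pw a b (σ (σ (σ x))) (σ (σ (σ y))) = pw a b x y := by
    rw [← hG.ac_pw, e2, map_add, map_add, hσR, hT, add_assoc, add_assoc,
      ← add_assoc (pw a b 0 0), hT3, add_zero]
  let s : Qbar ≃ₐ[K] Qbar := AlgEquiv.ofRingEquiv (f := σ.toRingEquiv) fun c => hσ c c.2
  have hs : ∀ z, s z = σ z := fun z => rfl
  have hxm : x ∈ K⟮x, y⟯ := IntermediateField.subset_adjoin _ _ (by simp)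
  have hym : y ∈ K⟮x, y⟯ := IntermediateField.subset_adjoin _ _ (by simp)
  have hbm : (b : Qbar) ∈ K⟮x, y⟯ := SubfieldClass.ratCast_mem _ b
  obtain ⟨hGal, g, hrk, hg⟩ := cubic K x y s
    (by rw [hs, hxy.1]; exact div_mem (mul_mem (neg_mem hbm) hym) (pow_mem hxm 2))
    (by rw [hs, hxy.2]; exact div_mem (mul_mem (neg_mem (pow_mem hbm 2)) hym) (pow_mem hxm 3))
    (by
      rintro ⟨h, h'⟩
      rw [hs] at h h'
      rw [h, h'] at e1
      exact hTne e1.symm)
    (by
      have := pw_inj hns e3.symm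
      exact ⟨this.1.symm, this.2.symm⟩)
    (by
      intro t
      have ht : Fx K (t.restrictScalars ℚ) := fun z hz => t.commutes ⟨z, hz⟩
      have hc := hconj (t.restrictScalars ℚ)
      rcases hR _ ht with h | h | h
      · rw [hG.ac_pw] at h
        exact Or.inl (pw_inj hc h)
      · rw [hG.ac_pw, ← e1] at h
        exact Or.inr (Or.inl (pw_inj hc h))
      · rw [hG.ac_pw, hsub, ← e2] at h
        exact Or.inr (Or.inr (pw_inj hc h)))
  have : FiniteDimensional K K⟮x, y⟯ := Module.finite_of_finrank_pos (by omega)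
  have : NumberField K⟮x, y⟯ := NumberField.of_module_finite K K⟮x, y⟯
  refine hN K⟮x, y⟯ hrk g ⟨x, hxm⟩ ⟨y, hym⟩ ?_ ?_ ?_ ?_
  · apply Subtype.ext
    push_cast
    exact heq
  · intro e
    exact hx0 (congrArg Subtype.val e)
  · apply Subtype.ext
    push_cast
    rw [hg, hs, hxy.1]
    field_simp
  · apply Subtype.ext
    push_cast
    rw [hg, hs, hxy.2]
    field_simp

end Pool.Agent.MP_9207e0_ag.e3
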