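import Pool.Agent.MP_9207e0_ag.e3.SpecC

/-! The main statement for an abstract symbol. -/

set_option linter.unusedSectionVars false
set_option linter.unusedVariables false

namespace Pool.Agent.MP_9207e0_ag.e3

open UpperHalfPlane Complex Filter Asymptotics Matrix Pool.Agent.MP_9207e0_ag.hg
open NumberField IsDedekindDomain
open Pool.Agent.MP_a43263_nt (Pt ptMap ac WW GQ Tr)
open scoped Real MatrixGroups Manifold Classical Kronecker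

namespace Eis

lemma kill {A V : Type} [AddCommGroup A] [AddCommGroup V] (tf : TF V) (f : A →+ V) {P : A}
    (h : IsOfFinAddOrder P) : f P = 0 := by
  obtain ⟨k, hk, e⟩ := isOfFinAddOrder_iff_zsmul_eq_zero.1 h
  exact tf k _ hk (by rw [← map_zsmul, e, map_zero])

lemma mult {A V : Type} [AddCommGroup A] [AddCommGroup V] (f : A →+ V)
    (hf : ∀ P, IsOfFinAddOrder P → f P = 0) {P g : A} {k : ℤ} (h : IsOfFinAddOrder (P - k • g)) :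
    f P = k • f g := by
  have := hf _ h
  rwa [map_sub, map_zsmul, sub_eq_zero] at this

lemma last {A A' V : Type} [AddCommGroup A] [AddCommGroup A'] [AddCommGroup V] (tf : TF V)
    (β : A →+ A' →+ V) (ψ : A →+ ZMod 3) (ψ' : A' →+ ZMod 3)
    (h : ∀ P, IsOfFinAddOrder P → ψ P = 0) (h' : ∀ P, IsOfFinAddOrder P → ψ' P = 0) {g : A}
    {g' : A'} (hg : ∀ P, ∃ k : ℤ, IsOfFinAddOrder (P - k • g))
    (hg' : ∀ P, ∃ k : ℤ, IsOfFinAddOrder (P - k • g')) {y y' : A} {z z' : A'}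
    (e : β y z + β y' z' = 0) (hne : ψ y * ψ' z + ψ y' * ψ' z' ≠ 0) (P : A) (Q : A') :
    β P Q = 0 := by
  have key : ∀ {P : A} {Q : A'} {k l : ℤ}, IsOfFinAddOrder (P - k • g) →
      IsOfFinAddOrder (Q - l • g') → β P Q = (k * l) • β g g' := by
    intro P Q k l h1 h2
    have a1 := mult (β.flip Q) (fun P hP => kill tf _ hP) h1
    have a2 := mult (β g) (fun P hP => kill tf _ hP) h2
    rw [AddMonoidHom.flip_apply, AddMonoidHom.flip_apply] at a1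
    rw [a1, a2, mul_smul]
  obtain ⟨k, hk⟩ := hg y
  obtain ⟨k', hk'⟩ := hg y'
  obtain ⟨l, hl⟩ := hg' z
  obtain ⟨l', hl'⟩ := hg' z'
  rw [key hk hl, key hk' hl', ← add_smul] at e
  have h0 : β g g' = 0 := by
    refine tf _ _ (fun h0 => hne ?_) e
    rw [mult ψ h hk, mult ψ h hk', mult ψ' h' hl, mult ψ' h' hl']
    have := congrArg (Int.cast : ℤ → ZMod 3) h0
    push_cast at this
    simp only [zsmul_eq_mul]
    linear_combination (ψ g * ψ' g') * this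
  obtain ⟨a, ha⟩ := hg P
  obtain ⟨b, hb⟩ := hg' Q
  rw [key ha hb, h0, smul_zero]

lemma unit3 {h : ℕ} (h3 : ¬3 ∣ h) :
    ((-4 * (h : ℤ) : ℤ) : ZMod 3) ≠ 0 ∧ ((-2 * (h : ℤ) : ℤ) : ZMod 3) ≠ 0 ∧
      2 * ((-4 * (h : ℤ) : ℤ) : ZMod 3) * (2 * ((-2 * (h : ℤ) : ℤ) : ZMod 3)) +
        -(2 * ((-4 * (h : ℤ) : ℤ) : ZMod 3)) * -(2 * ((-2 * (h : ℤ) : ℤ) : ZMod 3)) ≠ 0 := by
  have : (h : ZMod 3) ≠ 0 := fun e => h3 ((ZMod.natCast_eq_zero_iff h 3).1 e)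
  push_cast
  revert this
  generalize (h : ZMod 3) = x
  revert x
  decide

lemma two_mul_ne (x : ZMod 3) (h : x ≠ 0) : 2 * x ≠ 0 := by
  revert x
  decide

lemma one (hK : OK) (hC : CUBE) (hM : MwStmt) {a b : ℚ} {p n : ℕ} {m t : ℤ}
    {K : IntermediateField ℚ Qbar} [NumberField K] {lam : 𝓞 K} (hv : Cv a b p)
    (hq : QF n m t K lam) (h3 : ¬3 ∣ classNumber K) {P P' : Pt (WW a b) K} {B B' : K} {c : ℤ}
    (hc : (c : ZMod 3) ≠ 0) (n1 : B ≠ 0) (n2 : B' ≠ 0)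
    (g1 : Gd a b K ((B ^ 2 : K) : Qbar) (inK a b K P))
    (g2 : Gd a b K ((B' ^ 2 : K) : Qbar) (inK a b K P'))
    (l1 : ∀ v : HeightOneSpectrum (𝓞 K), (p : 𝓞 K) ∈ v.asIdeal →
      lg v B = if lam ∈ v.asIdeal then c else 0)
    (l2 : ∀ v : HeightOneSpectrum (𝓞 K), (p : 𝓞 K) ∈ v.asIdeal →
      lg v B' = if t - lam ∈ v.asIdeal then c else 0) :
    Module.rank ℤ (Pt (WW a b) K) = 1 ∧ ∃ (ψ : Pt (WW a b) K →+ ZMod 3) (g : Pt (WW a b) K),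
      (∀ P, IsOfFinAddOrder P → ψ P = 0) ∧ (∀ P, ∃ k : ℤ, IsOfFinAddOrder (P - k • g)) ∧
      ψ P = 2 * c ∧ ψ P' = -(2 * c) := by
  have hp : p = 2 ∨ p = 5 := hv.imp (·.2.2) (·.2.2)
  obtain ⟨v, v1, v2⟩ := hK.prime hq p hp
  obtain ⟨u, u1, u2⟩ := hK.prime (hK.conj hq) p hp
  obtain ⟨ψ, p1, p2, p3⟩ := hM a b p n m t K lam v u hv hq h3 v1 v2 u1 u2
  have v3 := (hK.dich hq p hp v v1).1 v2
  have u3 : lam ∉ u.asIdeal := fun h => (hK.dich hq p hp u u1).1 h u2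
  have e1 : ψ P = 2 * c := by
    rw [p1 P _ (pow_ne_zero 2 n1) g1, hC.pow, hC.pow, l1 v v1, l1 u u1, if_pos v2, if_neg u3]
    push_cast
    ring
  have e2 : ψ P' = -(2 * c) := by
    rw [p1 P' _ (pow_ne_zero 2 n2) g2, hC.pow, hC.pow, l2 v v1, l2 u u1, if_pos u2, if_neg v3]
    push_cast
    ring
  obtain ⟨r, g, hg⟩ := p3 ⟨P, by rw [e1]; exact two_mul_ne _ hc⟩
  exact ⟨r, ψ, g, p2, hg, e1, e2⟩

end Eis

theorem eis (hz : ∀ {V : Type} [AddCommGroup V] (s : ℍ → ℍ → V), Law s → RecS s → ZVan s)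
    (hh : HeegStmt) (hL : LawStmt) (hR : RecsStmt) (hP : PT) (hH : HB) (hT : TwoStmt)
    (hr : RingStmt) (hK : OK) (hc : ClsStmt) (hC : CUBE) (hM : MwStmt) (hk : HkStmt) :
    EisStmt := by
  intro n K _ hsq hn hK' h3
  obtain ⟨m, t, lam0, hq0⟩ := hr n K hsq hn hK'
  let ι : Qbar →+* ℂ := (IsAlgClosed.lift : Qbar →ₐ[ℚ] ℂ)
  let κ : K →+* ℂ := ι.comp (algebraMap K Qbar)
  have cj : ∀ x : 𝓞 K, (κ ((t - x : 𝓞 K) : K)).im = -(κ (x : K)).im := fun x => by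
    have : ((t - x : 𝓞 K) : K) = t - (x : K) := by simp
    rw [this, map_sub, map_intCast, sub_im, intCast_im, zero_sub]
  obtain ⟨lam, hq, hpos⟩ : ∃ lam : 𝓞 K, QF n m t K lam ∧ 0 < (κ (lam : K)).im := by
    rcases lt_or_gt_of_ne (hK.im hq0 κ) with h | h
    · exact ⟨t - lam0, hK.conj hq0, by rw [cj]; linarith⟩
    · exact ⟨lam0, hq0, h⟩
  have hq' := hK.conj hq
  have s1 : 0 < ((1 : ℤ) : ℝ) * (κ (lam : K)).im := by simpa using hpos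
  have s2 : 0 < ((-1 : ℤ) : ℝ) * (κ ((t - lam : 𝓞 K) : K)).im := by
    rw [cj]; simpa using hpos
  obtain ⟨R, hR1⟩ := hH.fin 1 hq.dat
  obtain ⟨R', hR2⟩ := hH.fin (-1) hq.dat
  have c1 := hc n m t 1 K lam κ R hq s1 hR1
  have c2 := hc n m t (-1) K _ κ R' hq' s2 hR2
  obtain ⟨⟨y, B, e1, n1, g1, l1⟩, z, C, f1, m1, k1, j1⟩ := hk ι n m t 1 K lam R hq s1 hR1
  obtain ⟨⟨y', B', e2, n2, g2, l2⟩, z', C', f2, m2, k2, j2⟩ := hk ι n m t (-1) K _ R' hq' s2 hR2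
  rw [c1] at l1 j1
  rw [c2] at l2 j2
  obtain ⟨q1, q2, q3⟩ := Eis.unit3 h3
  obtain ⟨r1, ψ, g, a1, a2, a3, a4⟩ := Eis.one hK hC hM (Or.inl ⟨rfl, rfl, rfl⟩) hq h3
    q1 n1 n2 g1 g2 l1 l2
  obtain ⟨r2, ψ', g', b1, b2, b3, b4⟩ := Eis.one hK hC hM (Or.inr ⟨rfl, rfl, rfl⟩) hq h3
    q2 m1 m2 k1 k2 j1 j2
  refine ⟨r1, r2, fun {V} _ β tf hβ => ?_⟩
  have law := hL ι β tf
  obtain ⟨S, S1, S2⟩ := hT n m t 1 R hq.dat hR1
  obtain ⟨S', S1', S2'⟩ := hT n m t (-1) R' hq.dat hR2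
  have key := hh _ law.inv (hz _ law (hR ι β tf hβ)) n m t S S' hsq hq.dat.big hq.dat.disc
    hq.dat.cop S1 S1'
  have i2 : ∀ g : SL2, 10 ∣ (g : M2) 0 1 → 10 ∣ (g : M2) 1 0 → ∀ τ, U2 ι (g • τ) = U2 ι τ :=
    fun g h1 h2 => hP.inv2 ι g (dvd_trans (by norm_num) h1) h2
  have bil : ∀ S : Finset ℍ, ∑ τ ∈ S, ∑ σ ∈ S, β (U1 ι τ) (U2 ι σ) =
      β (∑ τ ∈ S, U1 ι τ) (∑ σ ∈ S, U2 ι σ) := fun S => by
    rw [map_sum β, AddMonoidHom.finsetSum_apply]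
    exact Finset.sum_congr rfl fun τ _ => (map_sum _ _ _).symm
  rw [bil, bil, S2 _ (hP.inv1 ι), S2 _ i2, S2' _ (hP.inv1 ι), S2' _ i2, ← e1, ← e2, ← f1,
    ← f2] at key
  let β0 : Pt (WW (2 / 3) 4) K →+ Pt (WW (5 / 3) 5) K →+ V :=
    (β.compl₂ (inK _ _ K)).comp (inK _ _ K)
  have hβ0 : ∀ P Q, β0 P Q = β (inK _ _ K P) (inK _ _ K Q) := fun _ _ => rfl
  intro P Q
  rw [← hβ0]
  refine Eis.last tf β0 ψ ψ' a1 b1 a2 b2 (y := y) (y' := y') (z := z) (z' := z')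
    (tf 4 _ (by norm_num) ?_) ?_ P Q
  · rw [← key, hβ0, hβ0]
    simp only [map_nsmul, AddMonoidHom.nsmul_apply]
    module
  · rw [a3, a4, b3, b4]
    exact q3

end Pool.Agent.MP_9207e0_ag.e3
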