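import Pool.Agent.MP_9207e0_ag.e3.SpecC

/-! Row GAL: the Galois action on Heegner points. -/

set_option linter.unusedSectionVars false
set_option linter.unusedVariables false

namespace Pool.Agent.MP_9207e0_ag.e3

open UpperHalfPlane Complex Filter Asymptotics Matrix Pool.Agent.MP_9207e0_ag.hg
open NumberField IsDedekindDomain
open Pool.Agent.MP_a43263_nt (Pt ptMap ac WW GQ Tr)
open scoped Real MatrixGroups Manifold Classical Kronecker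

namespace Gal

lemma qv_iota (ι : Qbar →+* ℂ) (x : Qbar) : qv ι (ι x) = x := by
  have h : ∃ y, ι y = ι x := ⟨x, rfl⟩
  rw [qv, dif_pos h]
  exact ι.injective h.choose_spec

lemma rq_dg (hA : QA) {h a : ℕ} {w : ℍ → ℂ} (hh : 0 < h) (ha : 0 < a) (hw : RQ h w) :
    RQ h fun τ => w (mob (dg a 1) τ) := by
  obtain ⟨c, hc, hr⟩ := hw
  obtain ⟨c', hc'⟩ := hA.exists_sub a (ee (((0 : ℤ) : ℂ) / (h * ((1 : ℤ) : ℂ)))) c ha
  refine ⟨c', hA.comp (k := a) (a := a) (b := 0) (d := 1) hh hh (by exact_mod_cast ha) one_pos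
    (by ring) hc hc', fun n => ?_⟩
  by_cases hn : (a : ℤ) ∣ n
  · obtain ⟨k, rfl⟩ := hn
    obtain ⟨q, hq⟩ := hr k
    refine ⟨q, ?_⟩
    rw [hc'.1 k, hq]
    simp [ee]
  · exact ⟨0, by rw [hc'.2 n hn]; simp⟩

lemma inv10 (hm : MODB) {w : ℍ → ℂ} (hw : w ∈ [X1, Y1, X2, Y2]) {τ σ : ℍ} (h : rel0 τ σ) :
    w (mob (dg 10 1) σ) = w (mob (dg 10 1) τ) := by
  obtain ⟨g, ⟨c, hc⟩, rfl⟩ := h
  have hd := det_SL g
  rw [Matrix.det_fin_two, hc] at hd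
  let g' : SL2 := ⟨!![(g : M2) 0 0, 10 * (g : M2) 0 1; 10 * c, (g : M2) 1 1], by
    rw [Matrix.det_fin_two_of]; linear_combination hd⟩
  have h10 : 0 < (dg 10 1).det := by rw [det_dg]; norm_num
  have e : dg 10 1 * (g : M2) = (g' : M2) * dg 10 1 := by
    ext i j
    fin_cases i <;> fin_cases j <;>
      simp [g', dg, Matrix.mul_apply, Fin.sum_univ_two, hc] <;> ring
  rw [← mob_SL, ← mob_mul h10 (det_SL_pos g), e, mob_mul (det_SL_pos g') h10, mob_SL]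
  exact hm.inv w hw g' ⟨_, rfl⟩ ⟨_, rfl⟩ _

lemma exz (ι : Qbar →+* ℂ) {n : ℕ} {m t e : ℤ} (hD : Dat n m t) (he : e ≠ 0)
    (σ : Qbar →+* Qbar) (hσ : ∀ z : Qbar, z ^ 2 = -n → σ z = z) :
    ∃ z : Qbar, σ z = z ∧ ι z ^ 2 - t * ι z + m = 0 ∧ 0 < e * (ι z).im := by
  have key : ∀ r : Qbar, r ^ 2 = -n → σ ((t + r) / 2) = (t + r) / 2 ∧
      ι ((t + r) / 2) ^ 2 - t * ι ((t + r) / 2) + m = 0 ∧
      (ι ((t + r) / 2)).im = (ι r).im / 2 := by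
    intro r hr
    have h1 : ι ((t + r) / 2) = (t + ι r) / 2 := by
      rw [map_div₀, map_add, map_intCast, map_ofNat]
    have h2 : ι r ^ 2 = -n := by rw [← map_pow, hr, map_neg, map_natCast]
    have h3 : (t : ℂ) ^ 2 - 4 * m = -n := by exact_mod_cast hD.disc
    refine ⟨by rw [map_div₀, map_add, map_intCast, map_ofNat, hσ r hr], ?_, ?_⟩
    · rw [h1]; linear_combination h2 / 4 - h3 / 4
    · rw [h1]; simp
  obtain ⟨r, hr⟩ := IsAlgClosed.exists_pow_nat_eq (-(n : Qbar)) (n := 2) two_pos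
  have h2 : ι r ^ 2 = -n := by rw [← map_pow, hr, map_neg, map_natCast]
  have h0 : (ι r).im ≠ 0 := by
    intro h
    have := congrArg Complex.re h2
    simp only [sq, mul_re, h, neg_re, natCast_re] at this
    have h7 : (7 : ℝ) ≤ n := by exact_mod_cast hD.big
    nlinarith [mul_self_nonneg (ι r).re]
  have he' : (e : ℝ) ≠ 0 := by exact_mod_cast he
  rcases lt_or_gt_of_ne (mul_ne_zero he' h0) with h | h
  · obtain ⟨k1, k2, k3⟩ := key (-r) (by rw [neg_sq, hr])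
    refine ⟨_, k1, k2, ?_⟩
    rw [k3, map_neg, neg_im]
    linarith
  · obtain ⟨k1, k2, k3⟩ := key r hr
    refine ⟨_, k1, k2, ?_⟩
    rw [k3]
    linarith

lemma mul_dg (γ : SL2) (m : ℤ) : ((γ : M2) * dg m 1) 0 0 = (γ : M2) 0 0 * m ∧
    ((γ : M2) * dg m 1) 1 0 = (γ : M2) 1 0 * m ∧ ((γ : M2) * dg m 1) 1 1 = (γ : M2) 1 1 := by
  simp [dg, Matrix.mul_apply, Fin.sum_univ_two]

lemma hs_of {n : ℕ} {m t e : ℤ} (hD : Dat n m t) {γ : SL2} {τ : ℍ}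
    (h : HF m t e ((γ : M2) * dg m 1) τ) : HS m t e τ :=
  ⟨_, h, by rw [(mul_dg γ m).1]; exact hD.dvd.mul_left _,
    by rw [(mul_dg γ m).2.1]; exact hD.dvd.mul_left _⟩

lemma step (hA : QA) (hB : QB) (hI : JB) (hm : MODB) (hH : HB) (hW : WT) (hS : SpecStmt)
    (hP : PT) (ι : Qbar →+* ℂ) {n : ℕ} {m t e : ℤ} (hD : Dat n m t) (σ : Qbar →+* Qbar)
    (hσ : ∀ z : Qbar, z ^ 2 = -n → σ z = z) {τ : ℍ} (hτ : HS m t e τ) :
    ∃ τ', HS m t e τ' ∧ ι (σ (qv ι (jf τ))) = jf τ' ∧ ∀ w ∈ [X1, Y1, X2, Y2],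
      ι (σ (qv ι (w (mob (dg 10 1) τ)))) = w (mob (dg 10 1) τ') := by
  have hm0 := hH.pos hD
  obtain ⟨M, rfl⟩ := Int.eq_ofNat_of_zero_le hm0.le
  have hM : 0 < M := by exact_mod_cast hm0
  have h100 : 100 ∣ M := by exact_mod_cast hD.dvd
  have hdM : 0 < (dg M 1).det := by rw [det_dg]; simpa using hM
  have hd10 : 0 < (dg 10 1).det := by rw [det_dg]; norm_num
  obtain ⟨W, hW0, hW1⟩ := hτ
  have he : e ≠ 0 := by
    rintro rfl
    simpa using hW0.2.2.2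
  obtain ⟨g, γ, h1⟩ := hH.lift hD hW0
  have hg : rel0 τ (g • τ) := ⟨g, hH.lemI g hD ⟨W, hW0, hW1⟩ (hs_of hD h1), rfl⟩
  rw [← hB.j_inv g τ]
  suffices h : ∃ τ', HS M t e τ' ∧ ι (σ (qv ι (jf (g • τ)))) = jf τ' ∧ ∀ w ∈ [X1, Y1, X2, Y2],
      ι (σ (qv ι (w (mob (dg 10 1) (g • τ))))) = w (mob (dg 10 1) τ') by
    obtain ⟨τ', a, b, c⟩ := h
    exact ⟨τ', a, b, fun w hw => by rw [← inv10 hm hw hg]; exact c w hw⟩
  generalize g • τ = τ1 at h1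
  obtain ⟨τ', hτ'⟩ := hS ι σ M τ1 hM (hH.alg hD h1)
  obtain ⟨F, hF, hF', hF''⟩ := hW.ex M hM
  have jq : RQ 1 jf := by
    obtain ⟨c, a, b, -⟩ := hB.j_q
    exact ⟨c, a, b⟩
  obtain ⟨a1, b1⟩ := hτ' jf (hB.mod_level (one_dvd M) hB.j_mod) (hB.rq_level hM (one_dvd M) jq)
  obtain ⟨-, b2⟩ := hτ' (fun τ => jf (mob (dg M 1) τ))
    (hB.mod_level (by rw [det_dg]; simp) (hB.mod_mob hdM hB.j_mod))
    (hB.rq_level hM (one_dvd M) (rq_dg hA one_pos hM jq))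
  obtain ⟨a3, b3⟩ := hτ' F hF hF'
  have hfix : γ • mob (dg M 1) τ1 = τ1 := by
    rw [← mob_SL, ← mob_mul (det_SL_pos γ) hdM]; exact h1.2.2.1
  have hj : jf (mob (dg M 1) τ') = jf τ' := by
    rw [← b1, ← b2, ← hB.j_inv γ (mob (dg M 1) τ1), hfix]
  obtain ⟨γ', hγ'⟩ := hI.inj _ _ hj
  obtain ⟨z, z1, z2, z3⟩ := exz ι hD he σ hσ
  have e1 := hH.eig (ι z) hD h1 z2 z3
  rw [(mul_dg γ M).2.1, (mul_dg γ M).2.2] at e1
  push_cast at e1
  have e2 := hF'' γ τ1 hfix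
  rw [e1] at e2
  have e3 : qv ι (jf τ1) * (qv ι (jf τ1) - 1728) = z ^ 2 * qv ι (F τ1) := by
    apply ι.injective
    rw [map_mul, map_sub, map_mul, map_pow, map_ofNat, hP.qv_spec ι _ a1, hP.qv_spec ι _ a3, e2]
  have e4 : qv ι (jf τ1) * (qv ι (jf τ1) - 1728) ≠ 0 := by
    intro h
    apply hW.ne hD h1
    have := congrArg ι h
    rwa [map_mul, map_sub, map_ofNat, hP.qv_spec ι _ a1, map_zero] at this
  have e5 : ι (σ (qv ι (jf τ1) * (qv ι (jf τ1) - 1728))) = jf τ' * (jf τ' - 1728) := by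
    rw [map_mul, map_sub, map_ofNat, map_mul, map_sub, map_ofNat, b1]
  have e6 : jf τ' * (jf τ' - 1728) ≠ 0 := by
    rw [← e5]
    exact (map_ne_zero ι).2 ((map_ne_zero σ).2 e4)
  have e7 : jf τ' * (jf τ' - 1728) = ι z ^ 2 * F τ' := by
    rw [← e5, e3, map_mul, map_pow, z1, map_mul, map_pow, b3]
  have e8 := hF'' γ' τ' hγ'
  have e9 : F τ' ≠ 0 := fun h => e6 (by rw [e7, h, mul_zero])
  have e10 := mul_right_cancel₀ e9 (e8.symm.trans e7)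
  have fin : ∀ δ : SL2, δ • mob (dg M 1) τ' = τ' →
      ((δ : M2) 1 0 : ℂ) * M * τ' + (δ : M2) 1 1 = ι z → HS M t e τ' := by
    intro δ d1 d2
    refine hs_of hD (γ := δ) (hH.of_eig (ι z) hD z2 z3 ?_ ?_ ?_)
    · rw [Matrix.det_mul, det_SL, det_dg]; ring
    · rw [mob_mul (det_SL_pos δ) hdM, mob_SL, d1]
    · rw [(mul_dg δ M).2.1, (mul_dg δ M).2.2]
      push_cast
      exact d2
  refine ⟨τ', ?_, b1, fun w hw => ?_⟩
  · rcases sq_eq_sq_iff_eq_or_eq_neg.1 e10 with h | h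
    · exact fin γ' hγ' h
    · refine fin (-γ') (by rw [ModularGroup.SL_neg_smul, hγ']) ?_
      simp only [Matrix.SpecialLinearGroup.coe_neg, Matrix.neg_apply]
      push_cast
      linear_combination -h
  · have hw' : w ∈ [X1, Y1, X2, Y2, s0] := List.mem_append_left [s0] hw
    obtain ⟨m1, -, m2⟩ := hm.md w hw'
    exact (hτ' (fun τ => w (mob (dg 10 1) τ))
      (hB.mod_level (by rw [det_dg]; exact h100) (hB.mod_mob hd10 m1))
      (hB.rq_level hM ((by norm_num : 10 ∣ 100).trans h100)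
        (rq_dg hA (a := 10) (by norm_num) (by norm_num) m2))).2

end Gal

theorem gal (hA : QA) (hB : QB) (hI : JB) (hm : MODB) (hH : HB) (hW : WT) (hS : SpecStmt)
    (hP : PT) : GalStmt := by
  intro ι n m t e R hD hR σ hσ
  have h : ∀ τ : ℍ, ∃ τ', τ ∈ R → τ' ∈ R ∧ ι (σ (qv ι (jf τ))) = jf τ' ∧
      ∀ w ∈ [X1, Y1, X2, Y2], ι (σ (qv ι (w (mob (dg 10 1) τ)))) = w (mob (dg 10 1) τ') := by
    intro τ
    by_cases hτ : τ ∈ R
    · obtain ⟨τ', a, b, c⟩ := Gal.step hA hB hI hm hH hW hS hP ι hD σ hσ (hR.1 τ hτ)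
      obtain ⟨y, ⟨y1, y2⟩, -⟩ := hR.2 τ' a
      refine ⟨y, fun _ => ⟨y1, ?_, fun w hw => ?_⟩⟩
      · obtain ⟨g, -, rfl⟩ := y2
        rw [hB.j_inv, b]
      · rw [Gal.inv10 hm hw y2, c w hw]
    · exact ⟨τ, fun h => absurd h hτ⟩
  choose f hf using h
  refine ⟨f, (R.finite_toSet.injOn_iff_bijOn_of_mapsTo fun τ hτ => (hf τ hτ).1).1 ?_,
    fun w hw τ hτ => ?_⟩
  · intro a ha b hb hab
    have ha' : HS m t e a := hR.1 a ha
    have hb' : HS m t e b := hR.1 b hb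
    have h1 : qv ι (jf a) = qv ι (jf b) :=
      σ.injective (ι.injective (by rw [(hf a ha).2.1, (hf b hb).2.1, hab]))
    have h2 : jf a = jf b := by
      obtain ⟨W, hW0, -⟩ := ha'
      obtain ⟨W', hW0', -⟩ := hb'
      rw [← hP.qv_spec ι _ (hH.alg hD hW0), h1, hP.qv_spec ι _ (hH.alg hD hW0')]
    obtain ⟨g, rfl⟩ := hI.inj _ _ h2
    exact (hR.2 a ha').unique ⟨ha, hH.equiv.refl a⟩ ⟨hb, g, hH.lemI g hD ha' hb', rfl⟩
  · rw [← (hf τ hτ).2.2 w hw, Gal.qv_iota]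

end Pool.Agent.MP_9207e0_ag.e3
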