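import Pool.Agent.MP_9207e0_ag.e3.SpecC

/-! The descent map over a subfield of the algebraic numbers. -/

set_option linter.unusedSectionVars false
set_option linter.unusedVariables false

namespace Pool.Agent.MP_9207e0_ag.e3

open UpperHalfPlane Complex Filter Asymptotics Matrix Pool.Agent.MP_9207e0_ag.hg
open NumberField IsDedekindDomain
open Pool.Agent.MP_a43263_nt (Pt ptMap ac WW GQ Tr)
open scoped Real MatrixGroups Manifold Classical Kronecker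

namespace GdA

open Pool.Agent.MP_a43263_nt (isW Rep GRep IsW exists_cube exists_w tr_zero pm_pm pm_inj)

variable {a b : ℚ} {K : IntermediateField ℚ Qbar}

theorem pw_eq (hb : b ≠ 0) (hc : a ^ 3 - b ≠ 0) {x y : Qbar}
    (e : y ^ 2 + 3 * a * x * y + b * y = x ^ 3) :
    pw a b x y = .some x y ((isW hb hc Qbar).ns e) := dif_pos _

theorem rep_pw (hb : b ≠ 0) (hc : a ^ 3 - b ≠ 0) {x y : Qbar}
    (e : y ^ 2 + 3 * a * x * y + b * y = x ^ 3) : Rep (pw a b x y) x y 1 := by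
  rw [pw_eq hb hc e]
  exact ⟨by simp, by simp, one_ne_zero⟩

theorem range (hb : b ≠ 0) (hc : a ^ 3 - b ≠ 0) (P : PW a b) :
    (∃ Q, inK a b K Q = P) ↔ ∀ x y h, P = .some x y h → x ∈ K ∧ y ∈ K := by
  constructor
  · rintro ⟨Q, rfl⟩ x y h hQ
    rcases Q with _ | ⟨x', y', h'⟩
    · exact absurd hQ.symm (WeierstrassCurve.Affine.Point.some_ne_zero _)
    · obtain ⟨e1, e2⟩ := WeierstrassCurve.Affine.Point.some.inj hQ
      exact ⟨e1 ▸ x'.2, e2 ▸ y'.2⟩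
  · intro H
    rcases P with _ | ⟨x, y, h⟩
    · exact ⟨0, rfl⟩
    · obtain ⟨hx, hy⟩ := H x y h rfl
      have e := (isW hb hc Qbar).eqn h
      refine ⟨.some ⟨x, hx⟩ ⟨y, hy⟩ ((isW hb hc K).ns ?_), rfl⟩
      apply (algebraMap K Qbar).injective
      simp only [map_add, map_mul, map_pow, map_ofNat, map_ratCast]
      exact e

theorem fixed (x : Qbar) (h : ∀ σ, Fx K σ → σ x = x) : x ∈ K := by
  rw [← InfiniteGalois.fixedField_fixingSubgroup K, IntermediateField.mem_fixedField_iff]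
  intro σ hσ
  exact h σ ((IntermediateField.mem_fixingSubgroup_iff K σ).1 hσ)

theorem ac_inK {σ : GQ} (hσ : Fx K σ) (Q : Pt (WW a b) K) :
    ac _ σ (inK a b K Q) = inK a b K Q := by
  unfold inK
  rw [pm_pm]
  have : (σ : Qbar →+* Qbar).comp (algebraMap K Qbar) = algebraMap K Qbar :=
    RingHom.ext fun x => hσ x x.2
  rw [this]

theorem desc (hb : b ≠ 0) (hc : a ^ 3 - b ≠ 0) (P : PW a b) :
    (∃ Q, inK a b K Q = P) ↔ ∀ σ, Fx K σ → ac _ σ P = P := by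
  constructor
  · rintro ⟨Q, rfl⟩ σ hσ
    exact ac_inK hσ Q
  · intro H
    rw [range hb hc]
    rintro x y h rfl
    exact ⟨fixed x fun σ hσ => (WeierstrassCurve.Affine.Point.some.inj (H σ hσ)).1,
      fixed y fun σ hσ => (WeierstrassCurve.Affine.Point.some.inj (H σ hσ)).2⟩

theorem eqn_map (σ : GQ) (x y : Qbar) :
    σ y ^ 2 + 3 * a * σ x * σ y + b * σ y = σ x ^ 3 ↔ y ^ 2 + 3 * a * x * y + b * y = x ^ 3 := by
  rw [← σ.injective.eq_iff (a := y ^ 2 + 3 * a * x * y + b * y)]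
  simp [map_ofNat]

theorem ac_pw (hb : b ≠ 0) (hc : a ^ 3 - b ≠ 0) (σ : GQ) (x y : Qbar) :
    ac _ σ (pw a b x y) = pw a b (σ x) (σ y) := by
  by_cases e : y ^ 2 + 3 * a * x * y + b * y = x ^ 3
  · rw [pw_eq hb hc e, pw_eq hb hc ((eqn_map σ x y).2 e)]
    rfl
  · have h1 : pw a b x y = 0 := dif_neg fun h => e ((isW hb hc Qbar).eqn h)
    have h2 : pw a b (σ x) (σ y) = 0 :=
      dif_neg fun h => e ((eqn_map σ x y).1 ((isW hb hc Qbar).eqn h))
    rw [h1, h2, map_zero]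

theorem negT (hb : b ≠ 0) (hc : a ^ 3 - b ≠ 0) : -pw a b 0 0 = pw a b 0 (-b) := by
  have h1 := (isW hb hc Qbar).rep_neg (rep_pw hb hc (x := 0) (y := 0) (by simp))
  refine Rep.unique ?_ (rep_pw hb hc (x := 0) (y := -b) (by ring))
  simpa using h1

theorem three (hb : b ≠ 0) (hc : a ^ 3 - b ≠ 0) : 3 • pw a b 0 0 = 0 := by
  have hW := isW hb hc Qbar
  have hb' : (b : Qbar) ≠ 0 := hW.hb
  have h2 : pw a b 0 0 + pw a b 0 0 = -pw a b 0 0 := by
    rw [negT hb hc]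
    refine Rep.unique ?_ (rep_pw hb hc (x := 0) (y := -b) (by ring))
    have hy : (0 : Qbar) ≠ ((WW a b).baseChange Qbar).toAffine.negY 0 0 := by
      rw [WeierstrassCurve.Affine.negY, hW.h1, hW.h3]
      simpa using hb
    rw [pw_eq hb hc (x := 0) (y := 0) (by simp),
      WeierstrassCurve.Affine.Point.add_self_of_Y_ne hy]
    refine ⟨?_, ?_, one_ne_zero⟩
    · rw [WeierstrassCurve.Affine.slope_of_Y_ne rfl hy, WeierstrassCurve.Affine.addX, hW.h2, hW.h4]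
      simp
    · rw [WeierstrassCurve.Affine.slope_of_Y_ne rfl hy, WeierstrassCurve.Affine.addY,
        WeierstrassCurve.Affine.negAddY, WeierstrassCurve.Affine.addX,
        WeierstrassCurve.Affine.negY, hW.h2, hW.h4, hW.h3]
      simp
  rw [show 3 • pw a b 0 0 = pw a b 0 0 + pw a b 0 0 + pw a b 0 0 by abel, h2, neg_add_cancel]

theorem addT (hb : b ≠ 0) (hc : a ^ 3 - b ≠ 0) (x y : Qbar)
    (e : y ^ 2 + 3 * a * x * y + b * y = x ^ 3) (hx : x ≠ 0) :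
    pw a b x y + pw a b 0 0 = pw a b (-b * y / x ^ 2) (-b ^ 2 * y / x ^ 3) := by
  have hW := isW hb hc Qbar
  refine Rep.unique ?_ (rep_pw hb hc (x := -b * y / x ^ 2) (y := -b ^ 2 * y / x ^ 3) ?_)
  · rw [pw_eq hb hc e, pw_eq hb hc (x := 0) (y := 0) (by simp),
      WeierstrassCurve.Affine.Point.add_of_X_ne hx]
    refine ⟨?_, ?_, one_ne_zero⟩
    · rw [WeierstrassCurve.Affine.slope_of_X_ne hx, WeierstrassCurve.Affine.addX, hW.h1, hW.h2]
      simp only [sub_zero]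
      field_simp
      linear_combination -e
    · rw [WeierstrassCurve.Affine.slope_of_X_ne hx, WeierstrassCurve.Affine.addY,
        WeierstrassCurve.Affine.negAddY, WeierstrassCurve.Affine.addX,
        WeierstrassCurve.Affine.negY, hW.h1, hW.h2, hW.h3]
      simp only [sub_zero]
      field_simp
      linear_combination (y + 3 * a * x - b) * e
  · field_simp
    linear_combination y * e

theorem mul {β β' : Qbar} {P P' : PW a b} (hβ : β ≠ 0) (h : Gd a b K β P)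
    (h' : Gd a b K β' P') : Gd a b K (β * β') (P + P') := by
  intro ρ hρ
  obtain ⟨ρ1, h1⟩ := exists_cube β
  have h0 : ρ1 ≠ 0 := by rintro rfl; exact hβ (by simpa using h1.symm)
  obtain ⟨R, hR, hR'⟩ := h ρ1 h1
  obtain ⟨S, hS, hS'⟩ := h' (ρ / ρ1) (by rw [div_pow, hρ, h1]; field_simp)
  refine ⟨R + S, by rw [smul_add, hR, hS], fun σ hσ => ?_⟩
  have := (hR' σ hσ).add (hS' σ hσ)
  have h2 : σ ρ1 ≠ 0 := (map_ne_zero σ).2 h0
  have e1 : ac _ σ (R + S) - (R + S) = ac _ σ R - R + (ac _ σ S - S) := by rw [map_add]; abel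
  have e2 : σ ρ / ρ = σ ρ1 / ρ1 * (σ (ρ / ρ1) / (ρ / ρ1)) := by rw [map_div₀]; field_simp
  rw [e1, e2]
  exact this

theorem of_sol (hb : b ≠ 0) (hc : a ^ 3 - b ≠ 0) {β X Y Z : Qbar} (hβ : β ≠ 0)
    (kβ : β ∈ K) (kX : X ∈ K) (kY : Y ∈ K) (kZ : Z ∈ K)
    (e : β * X ^ 3 + β ^ 2 * Y ^ 3 + b * Z ^ 3 = 3 * a * β * X * Y * Z) (hne : ¬(X = 0 ∧ Y = 0))
    {P : PW a b} (hP : Rep P (-(β * X * Y * Z)) (β ^ 2 * Y ^ 3) (Z ^ 3)) :
    Gd a b K β P := by
  intro ρ hρ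
  have hW := isW hb hc Qbar
  have h0 : ρ ≠ 0 := by rintro rfl; exact hβ (by simpa using hρ.symm)
  obtain ⟨R, hR⟩ := hW.gsurj (g0 := ρ * X) (g1 := ρ ^ 2 * Y) (g2 := Z) (by
    rw [← hρ] at e; linear_combination e) (by simpa [h0] using hne)
  refine ⟨R, (hW.gthree hR).unique ?_, fun σ hσ => ?_⟩
  · have e1 : -(ρ * X * (ρ ^ 2 * Y) * Z) = -(β * X * Y * Z) := by rw [← hρ]; ring
    have e2 : (ρ ^ 2 * Y) ^ 3 = β ^ 2 * Y ^ 3 := by rw [← hρ]; ring
    rw [e1, e2]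
    exact hP
  · refine (hW.tr_sub ?_ hR ?_).2
    · rw [div_pow, ← map_pow, hρ, hσ β kβ, div_self hβ]
    · have h1 : GRep (a : Qbar) b (ac _ σ R) (σ (ρ * X)) (σ (ρ ^ 2 * Y)) (σ Z) :=
        hR.pm (σ : Qbar →+* Qbar)
      have e1 : σ ρ / ρ * (ρ * X) = σ (ρ * X) := by rw [map_mul, hσ X kX]; field_simp
      have e2 : (σ ρ / ρ) ^ 2 * (ρ ^ 2 * Y) = σ (ρ ^ 2 * Y) := by
        rw [map_mul, map_pow, hσ Y kY]; field_simp
      rw [e1, e2]
      rwa [hσ Z kZ] at h1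

theorem pt (hb : b ≠ 0) (hc : a ^ 3 - b ≠ 0) (x : Qbar) (hx : x ∈ K) (y : Qbar) (hy : y ∈ K)
    (e : y ^ 2 + 3 * a * x * y + b * y = x ^ 3) (h0 : y ≠ 0) :
    Gd a b K (y ^ 2) (pw a b x y) := by
  refine of_sol hb hc (X := -x) (Y := 1) (Z := y) (pow_ne_zero _ h0) (pow_mem hy 2) (neg_mem hx)
    (one_mem K) hy (by linear_combination y ^ 2 * e) (by simp) ?_
  have h1 := (rep_pw hb hc e).smul (pow_ne_zero 3 h0)
  have e1 : -(y ^ 2 * -x * 1 * y) = y ^ 3 * x := by ring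
  have e2 : (y ^ 2) ^ 2 * 1 ^ 3 = y ^ 3 * y := by ring
  rw [e1, e2]
  rwa [mul_one] at h1

theorem tee (hb : b ≠ 0) (hc : a ^ 3 - b ≠ 0) : Gd a b K b (pw a b 0 0) := by
  have kb : (b : Qbar) ∈ K := by simp
  refine of_sol hb hc (X := -1) (Y := 0) (Z := 1) (isW hb hc Qbar).hb kb (neg_mem (one_mem K))
    (zero_mem K) (one_mem K) (by ring) (by simp) ?_
  simpa using rep_pw hb hc (x := 0) (y := 0) (by simp)

theorem zero (hb : b ≠ 0) (hc : a ^ 3 - b ≠ 0) (γ : Qbar) (hγ : γ ∈ K) (h0 : γ ≠ 0) :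
    Gd a b K (γ ^ 3) 0 :=
  of_sol hb hc (X := -γ) (Y := 1) (Z := 0) (pow_ne_zero _ h0) (pow_mem hγ 3) (neg_mem hγ)
    (one_mem K) (zero_mem K) (by ring) (by simp) ⟨by simp, by simpa using h0, by simp⟩

theorem cube (hb : b ≠ 0) (hc : a ^ 3 - b ≠ 0) {β : Qbar} (Z : Pt (WW a b) K) (hβ : β ≠ 0)
    (h : Gd a b K β (3 • inK a b K Z)) : ∃ γ ∈ K, γ ^ 3 = β := by
  have hW := isW hb hc Qbar
  obtain ⟨ρ, hρ⟩ := exists_cube β
  have h0 : ρ ≠ 0 := by rintro rfl; exact hβ (by simpa using hρ.symm)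
  obtain ⟨R, hR, hR'⟩ := h ρ hρ
  have hS : 3 • (R - inK a b K Z) = 0 := by rw [smul_sub, hR, sub_self]
  obtain ⟨w, hw⟩ := exists_w (F := Qbar)
  obtain ⟨u, hu, -⟩ := hW.tr_ex hw hS
  have hu0 : u ≠ 0 := by
    rintro rfl
    simpa using hu.1
  refine ⟨ρ / u, fixed _ fun σ hσ => ?_, by rw [div_pow, hu.1, hρ, div_one]⟩
  have h1 : Tr (a : Qbar) b (ac _ σ (R - inK a b K Z)) (σ u) :=
    hu.pm hb hc (σ : Qbar →+* Qbar) hS
  have h2 := hu.add (hR' σ hσ)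
  rw [map_sub, ac_inK hσ] at h1
  rw [show R - inK a b K Z + (ac _ σ R - R) = ac _ σ R - inK a b K Z by abel] at h2
  have := hW.tr_unique h1 h2
  have h3 : σ ρ ≠ 0 := (map_ne_zero σ).2 h0
  rw [map_div₀, this]
  field_simp

theorem of_one (hb : b ≠ 0) (hc : a ^ 3 - b ≠ 0) {β ρ0 : Qbar} (hβ : β ≠ 0) (h0 : ρ0 ^ 3 = β)
    {P R : PW a b} (hR : 3 • R = P)
    (hT : ∀ σ : GQ, Fx K σ → Tr (a : Qbar) b (ac _ σ R - R) (σ ρ0 / ρ0)) : Gd a b K β P := by
  intro ρ hρ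
  have h1 : ρ0 ≠ 0 := by rintro rfl; exact hβ (by simpa using h0.symm)
  obtain ⟨S, hS, hS'⟩ := zero (K := K) hb hc 1 (one_mem K) one_ne_zero (ρ / ρ0)
    (by rw [div_pow, hρ, h0, div_self hβ, one_pow])
  refine ⟨R + S, by rw [smul_add, hR, hS, add_zero], fun σ hσ => ?_⟩
  have := (hT σ hσ).add (hS' σ hσ)
  have h2 : σ ρ0 ≠ 0 := (map_ne_zero σ).2 h1
  have e1 : ac _ σ (R + S) - (R + S) = ac _ σ R - R + (ac _ σ S - S) := by rw [map_add]; abel
  have e2 : σ ρ / ρ = σ ρ0 / ρ0 * (σ (ρ / ρ0) / (ρ / ρ0)) := by rw [map_div₀]; field_simp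
  rw [e1, e2]
  exact this

theorem tr_sum {I : Type} (R : Finset I) (S : I → PW a b) (u : I → Qbar)
    (h : ∀ i ∈ R, Tr (a : Qbar) b (S i) (u i)) :
    Tr (a : Qbar) b (∑ i ∈ R, S i) (∏ i ∈ R, u i) := by
  induction R using Finset.induction_on with
  | empty => simpa using tr_zero
  | insert i R hi ih =>
    rw [Finset.sum_insert hi, Finset.prod_insert hi]
    exact (h i (Finset.mem_insert_self _ _)).add (ih fun j hj => h j (Finset.mem_insert_of_mem hj))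

theorem sum (hb : b ≠ 0) (hc : a ^ 3 - b ≠ 0) {I : Type} (R : Finset I) (x y : I → Qbar)
    (h : ∀ i ∈ R, y i ≠ 0 ∧ y i ^ 2 + 3 * a * x i * y i + b * y i = x i ^ 3)
    (hf : ∀ σ, Fx K σ → ∃ f : I → I, Set.BijOn f R R ∧
      ∀ i ∈ R, σ (x i) = x (f i) ∧ σ (y i) = y (f i)) :
    Gd a b K ((∏ i ∈ R, y i) ^ 2) (∑ i ∈ R, pw a b (x i) (y i)) := by
  have hW := isW hb hc Qbar
  choose ρ hρ using fun i => exists_cube (y i ^ 2)
  have h0 : ∀ i ∈ R, ρ i ≠ 0 := by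
    intro i hi e
    have := hρ i
    rw [e] at this
    exact pow_ne_zero 2 (h i hi).1 (by simpa using this.symm)
  have hex : ∀ i, ∃ T : PW a b, i ∈ R → GRep (a : Qbar) b T (ρ i * -x i) (ρ i ^ 2) (y i) := by
    intro i
    by_cases hi : i ∈ R
    · obtain ⟨T, hT⟩ := hW.gsurj (g0 := ρ i * -x i) (g1 := ρ i ^ 2) (g2 := y i) (by
        linear_combination y i ^ 2 * (h i hi).2 +
          (ρ i ^ 3 + y i ^ 2 - x i ^ 3 + 3 * a * x i * y i) * hρ i)
        (fun e => pow_ne_zero 2 (h0 i hi) e.2)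
      exact ⟨T, fun _ => hT⟩
    · exact ⟨0, fun e => absurd e hi⟩
  choose T hT using hex
  refine of_one hb hc (ρ0 := ∏ i ∈ R, ρ i) (R := ∑ i ∈ R, T i)
    (pow_ne_zero 2 (Finset.prod_ne_zero_iff.2 fun i hi => (h i hi).1)) ?_ ?_ fun σ hσ => ?_
  · rw [← Finset.prod_pow, ← Finset.prod_pow]
    exact Finset.prod_congr rfl fun i _ => hρ i
  · rw [Finset.smul_sum]
    refine Finset.sum_congr rfl fun i hi => (hW.gthree (hT i hi)).unique ?_
    have h1 := (rep_pw hb hc (h i hi).2).smul (pow_ne_zero 3 (h i hi).1)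
    have e1 : -(ρ i * -x i * ρ i ^ 2 * y i) = y i ^ 3 * x i := by
      linear_combination x i * y i * hρ i
    have e2 : (ρ i ^ 2) ^ 3 = y i ^ 3 * y i := by
      linear_combination (ρ i ^ 3 + y i ^ 2) * hρ i
    rw [e1, e2]
    rwa [mul_one] at h1
  · obtain ⟨f, hfb, hf'⟩ := hf σ hσ
    have hm : ∀ i ∈ R, f i ∈ R := fun i hi => hfb.mapsTo hi
    have key := tr_sum R (fun i => ac _ σ (T i) - T (f i)) (fun i => σ (ρ i) / ρ (f i))
      fun i hi => by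
        have g0 := h0 _ (hm i hi)
        refine (hW.tr_sub ?_ (hT _ (hm i hi)) ?_).2
        · rw [div_pow, ← map_pow, hρ, hρ, map_pow, (hf' i hi).2,
            div_self (pow_ne_zero 2 (h _ (hm i hi)).1)]
        · have h1 : GRep (a : Qbar) b (ac _ σ (T i)) (σ (ρ i * -x i)) (σ (ρ i ^ 2)) (σ (y i)) :=
            (hT i hi).pm (σ : Qbar →+* Qbar)
          have e1 : σ (ρ i) / ρ (f i) * (ρ (f i) * -x (f i)) = σ (ρ i * -x i) := by
            rw [map_mul, map_neg, (hf' i hi).1]; field_simp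
          have e2 : (σ (ρ i) / ρ (f i)) ^ 2 * ρ (f i) ^ 2 = σ (ρ i ^ 2) := by
            rw [map_pow]; field_simp
          rw [e1, e2, ← (hf' i hi).2]
          exact h1
    have s1 : ∑ i ∈ R, T (f i) = ∑ i ∈ R, T i :=
      Finset.sum_nbij f hm hfb.injOn hfb.surjOn fun _ _ => rfl
    have s2 : ∏ i ∈ R, ρ (f i) = ∏ i ∈ R, ρ i :=
      Finset.prod_nbij f hm hfb.injOn hfb.surjOn fun _ _ => rfl
    rw [Finset.sum_sub_distrib, Finset.prod_div_distrib, s1, s2, ← map_sum, ← map_prod] at key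
    exact key

theorem tr_one (hb : b ≠ 0) (hc : a ^ 3 - b ≠ 0) {S : PW a b} (h : Tr (a : Qbar) b S 1) :
    S = 0 ∨ S = pw a b 0 0 ∨ S = -pw a b 0 0 := by
  have hW := isW hb hc Qbar
  have hS : 3 • S = 0 := (hW.gthree (hW.grep_of_tr h)).eq_zero_iff.2 (by simp)
  obtain ⟨w, hw⟩ := exists_w (F := Qbar)
  obtain ⟨u, hu, hu'⟩ := hW.tr_ex hw hS
  obtain ⟨v, hv⟩ := hu' (hW.tr_unique hu h)
  rcases hW.tr'_rep hw hv with e | e | e
  · exact .inl (e.eq_zero_iff.2 rfl)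
  · exact .inr (.inl (e.unique (rep_pw hb hc (by simp))))
  · refine .inr (.inr ?_)
    rw [negT hb hc]
    exact e.unique (rep_pw hb hc (by ring))

theorem ker (hb : b ≠ 0) (hc : a ^ 3 - b ≠ 0) {P : PW a b} (h : Gd a b K 1 P) :
    ∃ R : PW a b, 3 • R = P ∧ ∀ σ, Fx K σ →
      ac _ σ R = R ∨ ac _ σ R = R + pw a b 0 0 ∨ ac _ σ R = R - pw a b 0 0 := by
  obtain ⟨R, hR, hR'⟩ := h 1 (one_pow 3)
  refine ⟨R, hR, fun σ hσ => ?_⟩
  have h1 := hR' σ hσ
  rw [map_one, div_one] at h1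
  rcases tr_one hb hc h1 with e | e | e
  · exact .inl (sub_eq_zero.1 e)
  · exact .inr (.inl (by rw [← e]; abel))
  · exact .inr (.inr (by rw [sub_eq_add_neg, ← e]; abel))

theorem tors (hb : b ≠ 0) (hc : a ^ 3 - b ≠ 0) (hK : ∀ w : K, w ^ 2 + w + 1 ≠ 0)
    (S : Pt (WW a b) K) (hS : 3 • S = 0) :
    inK a b K S = 0 ∨ inK a b K S = pw a b 0 0 ∨ inK a b K S = -pw a b 0 0 := by
  have hW := isW hb hc Qbar
  have h3 : 3 • inK a b K S = 0 := by rw [← map_nsmul, hS, map_zero]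
  obtain ⟨w, hw⟩ := exists_w (F := Qbar)
  obtain ⟨u, hu, -⟩ := hW.tr_ex hw h3
  have ku : u ∈ K := fixed _ fun σ hσ => by
    have h1 : Tr (a : Qbar) b (ac _ σ (inK a b K S)) (σ u) := hu.pm hb hc (σ : Qbar →+* Qbar) h3
    rw [ac_inK hσ] at h1
    exact hW.tr_unique h1 hu
  have h1 : u = 1 := by
    have e : (u - 1) * (u ^ 2 + u + 1) = 0 := by linear_combination hu.1
    refine sub_eq_zero.1 ((mul_eq_zero.1 e).resolve_right fun e' => hK ⟨u, ku⟩ ?_)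
    apply (algebraMap K Qbar).injective
    simp only [map_add, map_pow, map_one, map_zero]
    exact e'
  exact tr_one hb hc (h1 ▸ hu)

end GdA

theorem gd : GdStmt := fun a b K hb hc =>
  { ns := fun x y => ⟨(MP_a43263_nt.isW hb hc Qbar).eqn, (MP_a43263_nt.isW hb hc Qbar).ns⟩
    inj := MP_a43263_nt.pm_inj _
    range := GdA.range hb hc
    fixed := GdA.fixed
    desc := GdA.desc hb hc
    ac_pw := GdA.ac_pw hb hc
    three := GdA.three hb hc
    addT := GdA.addT hb hc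
    negT := GdA.negT hb hc
    mul := GdA.mul
    pt := GdA.pt hb hc
    tee := GdA.tee hb hc
    zero := GdA.zero hb hc
    cube := GdA.cube hb hc
    sum := GdA.sum hb hc
    ker := GdA.ker hb hc
    tors := GdA.tors hb hc }

end Pool.Agent.MP_9207e0_ag.e3
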