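import Pool.Agent.MP_9207e0_ag.e3.SpecC

/-! A cyclic cubic extension of a field with units `1, -1` and class number prime to three is
ramified. -/

set_option linter.unusedSectionVars false
set_option linter.unusedVariables false

namespace Pool.Agent.MP_9207e0_ag.e3

open UpperHalfPlane Complex Filter Asymptotics Matrix Pool.Agent.MP_9207e0_ag.hg
open NumberField IsDedekindDomain
open scoped Real MatrixGroups Manifold Classical Kronecker

namespace H94

variable {K L : Type} [Field K] [NumberField K] [Field L] [NumberField L] [Algebra K L]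

theorem lg_under (w : HeightOneSpectrum (𝓞 L))
    (h : ∃ c : K, w.valuation L (algebraMap K L c) = WithZero.exp (-1)) (x : K) :
    lg w (algebraMap K L x) = lg (w.under (𝓞 K)) x := by
  have : w.asIdeal.LiesOver (w.under (𝓞 K)).asIdeal := ⟨rfl⟩
  obtain ⟨c, hc⟩ := h
  have key := fun x : K => HeightOneSpectrum.valuation_liesOver L (w.under (𝓞 K)) w x
  have h1 := congrArg WithZero.log ((key c).trans hc)
  rw [WithZero.log_pow, WithZero.log_exp, nsmul_eq_mul] at h1
  have h2 : ((w.under (𝓞 K)).asIdeal.ramificationIdx' w.asIdeal : ℤ) = 1 :=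
    Int.eq_one_of_mul_eq_one_right (b := -WithZero.log ((w.under (𝓞 K)).valuation K c))
      (Int.natCast_nonneg _) (by rw [mul_neg, h1, neg_neg])
  unfold lg
  rw [← key x, WithZero.log_pow, nsmul_eq_mul, h2, one_mul]

theorem exists_over (v : HeightOneSpectrum (𝓞 K)) :
    ∃ w : HeightOneSpectrum (𝓞 L), w.under (𝓞 K) = v := by
  have := v.isMaximal
  obtain ⟨P, hP, h⟩ := Ideal.exists_maximal_ideal_liesOver_of_isIntegral (S := 𝓞 L) v.asIdeal
  refine ⟨⟨P, hP.isPrime, Ideal.ne_bot_of_liesOver_of_ne_bot v.ne_bot P⟩, ?_⟩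
  exact HeightOneSpectrum.ext h.over.symm

theorem norm_eq [IsGalois K L] (h3 : Module.finrank K L = 3) {σ : L ≃ₐ[K] L}
    (hσ : ∀ τ, τ ∈ Subgroup.zpowers σ) (x : L) :
    algebraMap K L (Algebra.norm K x) = x * σ x * σ (σ x) := by
  have hc : Nat.card (L ≃ₐ[K] L) = 3 := (IsGalois.card_aut_eq_finrank K L).trans h3
  have ho : orderOf σ = 3 := (orderOf_eq_card_of_forall_mem_zpowers hσ).trans hc
  rw [Algebra.norm_eq_prod_automorphisms, ← IsCyclic.image_range_orderOf hσ, Finset.prod_image]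
  · rw [ho]
    simp [Finset.prod_range_succ]
  · rw [Finset.coe_range]
    exact pow_injOn_Iio_orderOf

/-- The element is a unit of the ring of integers. -/
def IsU (x : L) : Prop := ∃ u : (𝓞 L)ˣ, x = ((u : 𝓞 L) : L)

theorem IsU.map {x : L} (h : IsU x) (σ : L ≃ₐ[K] L) : IsU (σ x) := by
  obtain ⟨u, rfl⟩ := h
  exact ⟨Units.map (RingOfIntegers.mapRingHom (σ : L →+* L)).toMonoidHom u, rfl⟩

theorem IsU.neg {x : L} (h : IsU x) : IsU (-x) := by
  obtain ⟨u, rfl⟩ := h
  exact ⟨-u, by simp⟩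

theorem IsU.ne {x : L} (h : IsU x) : x ≠ 0 := by
  obtain ⟨u, rfl⟩ := h
  exact RingOfIntegers.coe_ne_zero_iff.2 u.ne_zero

theorem IsU.lg (hC : CUBE) {x : L} (h : IsU x) (w : HeightOneSpectrum (𝓞 L)) : lg w x = 0 := by
  obtain ⟨u, rfl⟩ := h
  exact hC.of_not_mem w _ fun hu => w.isPrime.ne_top (Ideal.eq_top_of_isUnit_mem _ hu u.isUnit)

theorem not_cubes (h : 3 ≤ Module.finrank ℚ L) :
    ¬∀ u : (𝓞 L)ˣ, ∃ z : (𝓞 L)ˣ, u * z ^ 3 = 1 ∨ u * z ^ 3 = -1 := by
  intro hu
  have h1 := InfinitePlace.card_add_two_mul_card_eq_rank L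
  have h2 := InfinitePlace.card_eq_nrRealPlaces_add_nrComplexPlaces L
  have h3 : 0 < Units.rank L := by
    unfold Units.rank
    omega
  obtain ⟨z, hz⟩ := hu (Units.fundSystem L ⟨0, h3⟩)
  have key : ∀ ζ : Units.torsion L, Units.fundSystem L ⟨0, h3⟩ * z ^ 3 = ζ → False := by
    intro ζ h4
    obtain ⟨⟨ξ, e⟩, h5, -⟩ := Units.exist_unique_eq_mul_prod L z
    obtain ⟨p, -, h6⟩ := Units.exist_unique_eq_mul_prod L (ζ : (𝓞 L)ˣ)
    have a1 := h6 (ζ, 0) (by simp)
    have a2 := h6 (ξ ^ 3, fun i => (Pi.single ⟨0, h3⟩ 1 : Fin (Units.rank L) → ℤ) i + e i * 3) (by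
      dsimp only at h5 ⊢
      rw [← h4, h5]
      simp only [_root_.zpow_add, _root_.zpow_mul, Finset.prod_mul_distrib, mul_pow,
        Subgroup.coe_pow, zpow_ofNat, Finset.prod_pow]
      rw [Finset.prod_eq_single ⟨0, h3⟩ (f := fun i => Units.fundSystem L i ^
        (Pi.single ⟨0, h3⟩ 1 : Fin (Units.rank L) → ℤ) i) (fun i _ hi => by
          rw [Pi.single_eq_of_ne hi, zpow_zero]) (by simp), Pi.single_eq_same, zpow_one,
        mul_left_comm])
    have a3 := congrFun (congrArg Prod.snd (a1.trans a2.symm)) ⟨0, h3⟩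
    simp only [Pi.zero_apply, Pi.single_eq_same] at a3
    omega
  rcases hz with hz | hz
  · exact key 1 hz
  · exact key ⟨-1, neg_one_mem_torsion⟩ hz

end H94

open H94 in
theorem h94 (hC : CUBE) : H94Stmt := by
  intro K L _ _ _ _ _ _ h3 hu hcl
  by_contra hn
  have hw : ∀ w : HeightOneSpectrum (𝓞 L),
      ∃ c : K, w.valuation L (algebraMap K L c) = WithZero.exp (-1) := fun w => by
    by_contra h
    exact hn ⟨w, fun c hc => h ⟨c, hc⟩⟩
  have hl := fun w => lg_under w (hw w)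
  have hc : Nat.card (L ≃ₐ[K] L) = 3 := (IsGalois.card_aut_eq_finrank K L).trans h3
  have : Fact (Nat.Prime 3) := ⟨Nat.prime_three⟩
  have : IsCyclic (L ≃ₐ[K] L) := isCyclic_of_prime_card hc
  obtain ⟨σ, hσ⟩ := IsCyclic.exists_generator (α := L ≃ₐ[K] L)
  have hN := norm_eq h3 hσ
  have s0 : ∀ {y : L}, y ≠ 0 → σ y ≠ 0 := fun h => (map_ne_zero σ).2 h
  have lN : ∀ w {y : L}, y ≠ 0 →
      lg (w.under (𝓞 K)) (Algebra.norm K y) = lg w y + lg w (σ y) + lg w (σ (σ y)) := by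
    intro w y hy
    rw [← hl, hN, hC.mul w (mul_ne_zero hy (s0 hy)) (s0 (s0 hy)), hC.mul w hy (s0 hy)]
  have n0 : ∀ {y : L}, y ≠ 0 → Algebra.norm K y ≠ 0 := fun h => Algebra.norm_ne_zero_iff.2 h
  have A : ∀ x : L, IsU x → Algebra.norm K x = 1 ∨ Algebra.norm K x = -1 := by
    intro x hx
    obtain ⟨u, e⟩ := hC.unit (Algebra.norm K x) (n0 hx.ne) fun v => by
      obtain ⟨w, rfl⟩ := exists_over (L := L) v
      rw [lN w hx.ne, hx.lg hC, (hx.map σ).lg hC, ((hx.map σ).map σ).lg hC]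
      norm_num
    rcases hu u with rfl | rfl
    · exact Or.inl (by simpa using e)
    · exact Or.inr (by simpa using e)
  have B : ∀ x : L, IsU x → Algebra.norm K x = 1 → ∃ ε, IsU ε ∧ x * σ ε = ε := by
    intro x hx h1
    obtain ⟨y, hy⟩ := groupCohomology.exists_div_of_norm_eq_one hσ h1
    have y0 : (y : L) ≠ 0 := y.ne_zero
    have e1 : x * σ y = y := by rw [← hy, div_mul_cancel₀ _ (s0 y0)]
    have e2 : σ x * σ (σ y) = σ y := by rw [← map_mul, e1]
    have l1 : ∀ w, lg (w.under (𝓞 K)) (Algebra.norm K (y : L)) = 3 * lg w (y : L) := fun w => by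
      have a1 := hC.mul w hx.ne (s0 y0)
      have a2 := hC.mul w (hx.map σ).ne (s0 (s0 y0))
      rw [e1, hx.lg hC] at a1
      rw [e2, (hx.map σ).lg hC] at a2
      rw [lN w y0]
      omega
    obtain ⟨c, c0, hc⟩ := hC.val (Algebra.norm K (y : L)) hcl (n0 y0) fun v => by
      obtain ⟨w, rfl⟩ := exists_over (L := L) v
      exact ⟨_, l1 w⟩
    have c1 : algebraMap K L c ≠ 0 := (map_ne_zero _).2 c0
    refine ⟨y / algebraMap K L c, hC.unit _ (div_ne_zero y0 c1) fun w => ?_, ?_⟩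
    · have a1 := hC.mul w (div_ne_zero y0 c1) c1
      have a2 := (l1 w).symm.trans (hc _)
      rw [div_mul_cancel₀ _ c1, hl] at a1
      omega
    · rw [map_div₀, AlgEquiv.commutes, ← mul_div_assoc, e1]
  have C : ∀ x : L, IsU x → ∃ ε, IsU ε ∧ (x * σ ε = ε ∨ x * σ ε = -ε) := by
    intro x hx
    rcases A x hx with h | h
    · obtain ⟨ε, h1, h2⟩ := B x hx h
      exact ⟨ε, h1, Or.inl h2⟩
    · obtain ⟨ε, h1, h2⟩ := B (-x) hx.neg ((algebraMap K L).injective (by
        have := hN x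
        rw [h, map_neg, map_one] at this
        rw [hN, map_neg, map_neg, map_one]
        linear_combination this))
      exact ⟨ε, h1, Or.inr (by linear_combination -h2)⟩
  refine not_cubes (L := L) ?_ fun u => ?_
  · rw [← Module.finrank_mul_finrank ℚ K L, h3]
    have := Module.finrank_pos (R := ℚ) (M := K)
    omega
  · obtain ⟨a, ha, h1⟩ := C _ ⟨u, rfl⟩
    obtain ⟨b, hb, h2⟩ := C a ha
    obtain ⟨z, hz⟩ := hb.map σ
    have h4 : (b * σ b * σ (σ b)) ^ 2 = 1 := by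
      rw [← hN]
      rcases A b hb with h | h <;> rw [h] <;> simp
    have h5 : (((u : 𝓞 L) : L) * σ a) ^ 2 = a ^ 2 := by
      rcases h1 with h | h <;> rw [h]
      ring
    have h6 : (a * σ b) ^ 2 = b ^ 2 := by
      rcases h2 with h | h <;> rw [h]
      ring
    have h7 : (σ a * σ (σ b)) ^ 2 = σ b ^ 2 := by
      have := congrArg σ h6
      rwa [map_pow, map_pow, map_mul] at this
    have h8 : (((u : 𝓞 L) : L) * σ b ^ 3) ^ 2 = 1 := by
      linear_combination (σ b ^ 4 * σ (σ b) ^ 2) * h5 - ((u : 𝓞 L) : L) ^ 2 * σ b ^ 4 * h7 +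
        σ b ^ 2 * σ (σ b) ^ 2 * h6 + h4
    refine ⟨z, ?_⟩
    rw [hz] at h8
    have h9 : (u * z ^ 3) ^ 2 = 1 := by
      refine Units.ext (RingOfIntegers.ext ?_)
      simpa using h8
    have h10 : ((u * z ^ 3 : (𝓞 L)ˣ) : 𝓞 L) ^ 2 = 1 := by
      rw [← Units.val_pow_eq_pow_val, h9, Units.val_one]
    rcases sq_eq_one_iff.1 h10 with h | h
    · exact Or.inl (Units.ext h)
    · exact Or.inr (Units.ext h)

end Pool.Agent.MP_9207e0_ag.e3
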