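import Pool.Agent.MP_9207e0_ag.e3.SpecC

/-! Basic facts on Heegner points of level one hundred. -/

set_option linter.unusedSectionVars false
set_option linter.unusedVariables false

namespace Pool.Agent.MP_9207e0_ag.e3

open UpperHalfPlane Complex Filter Asymptotics Matrix Pool.Agent.MP_9207e0_ag.hg
open scoped Real MatrixGroups Manifold Classical Kronecker

namespace Hb

variable {n : ℕ} {m t e : ℤ} {W W' : M2} {τ σ : ℍ}

lemma pos (h : Dat n m t) : 0 < m := by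
  have h1 := h.disc
  have h2 : (7 : ℤ) ≤ n := by exact_mod_cast h.big
  nlinarith [sq_nonneg t]

lemma fix_real {A : M2} (h : 0 < A.det) (hf : mob A τ = τ) :
    (A 1 1 : ℝ) - A 0 0 = -2 * A 1 0 * τ.re ∧ -(A 0 1 : ℝ) = A 1 0 * (τ.re ^ 2 + τ.im ^ 2) := by
  refine quad_disc ?_
  have := (mob_fix_iff h τ).1 hf
  push_cast
  linear_combination this

lemma disc (h : Dat n m t) (h1 : W.trace = t) (h2 : W.det = m) :
    (W 1 1 - W 0 0) ^ 2 + 4 * W 0 1 * W 1 0 = -n := by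
  rw [Matrix.trace_fin_two] at h1
  rw [Matrix.det_fin_two] at h2
  rw [← h.disc, ← h1, ← h2]
  ring

lemma key (h : Dat n m t) (hW : HF m t e W τ) :
    (W 1 1 : ℝ) - W 0 0 = -2 * W 1 0 * τ.re ∧ -(W 0 1 : ℝ) = W 1 0 * (τ.re ^ 2 + τ.im ^ 2) ∧
      (W 0 0 : ℝ) + W 1 1 = t ∧ 4 * ((W 1 0 : ℝ) * τ.im) ^ 2 = n ∧ (0 : ℝ) < e * W 1 0 := by
  obtain ⟨h1, h2, h3, h4⟩ := hW
  obtain ⟨e1, e2⟩ := fix_real (h2 ▸ pos h) h3
  have e3 : ((W 1 1 : ℝ) - W 0 0) ^ 2 + 4 * W 0 1 * W 1 0 = -n := by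
    exact_mod_cast disc h h1 h2
  rw [Matrix.trace_fin_two] at h1
  refine ⟨e1, e2, by exact_mod_cast h1, ?_, by exact_mod_cast h4⟩
  rw [e1] at e3
  linear_combination -e3 - 4 * (W 1 0 : ℝ) * e2

lemma eq_of_sq {e a b : ℝ} (h : a ^ 2 = b ^ 2) (ha : 0 < e * a) (hb : 0 < e * b) : a = b := by
  rcases sq_eq_sq_iff_eq_or_eq_neg.1 h with h | h
  · exact h
  · rw [h] at ha
    linarith

lemma uniq (h : Dat n m t) (hW : HF m t e W τ) (hW' : HF m t e W' τ) : W = W' := by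
  obtain ⟨a1, a2, a3, a4, a5⟩ := key h hW
  obtain ⟨b1, b2, b3, b4, b5⟩ := key h hW'
  have hy := τ.im_pos
  have c1 : (W 1 0 : ℝ) * τ.im = W' 1 0 * τ.im :=
    eq_of_sq (e := e) (by linarith) (by rw [← mul_assoc]; positivity)
      (by rw [← mul_assoc]; positivity)
  have c2 : (W 1 0 : ℝ) = W' 1 0 := mul_right_cancel₀ hy.ne' c1
  rw [c2] at a1 a2
  have c3 : (W 0 0 : ℝ) = W' 0 0 := by linarith
  have c4 : (W 0 1 : ℝ) = W' 0 1 := by linarith
  have c5 : (W 1 1 : ℝ) = W' 1 1 := by linarith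
  ext i j
  fin_cases i <;> fin_cases j
  · exact_mod_cast c3
  · exact_mod_cast c4
  · exact_mod_cast c2
  · exact_mod_cast c5

lemma coe_inv (g : SL2) : ((g⁻¹ : SL2) : M2) =
    !![(g : M2) 1 1, -(g : M2) 0 1; -(g : M2) 1 0, (g : M2) 0 0] := by
  rw [Matrix.SpecialLinearGroup.coe_inv, Matrix.adjugate_fin_two]

lemma conj10 (g : SL2) (W : M2) : ((g : M2) * W * ((g⁻¹ : SL2) : M2)) 1 0 =
    W 1 0 * (g : M2) 1 1 ^ 2 + (W 0 0 - W 1 1) * (g : M2) 1 0 * (g : M2) 1 1 -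
      W 0 1 * (g : M2) 1 0 ^ 2 := by
  rw [coe_inv]
  simp [Matrix.mul_apply, Fin.sum_univ_two]
  ring

lemma conj00 (g : SL2) (W : M2) : ((g : M2) * W * ((g⁻¹ : SL2) : M2)) 0 0 =
    ((g : M2) 0 0 * W 0 0 + (g : M2) 0 1 * W 1 0) * (g : M2) 1 1 -
      ((g : M2) 0 0 * W 0 1 + (g : M2) 0 1 * W 1 1) * (g : M2) 1 0 := by
  rw [coe_inv]
  simp [Matrix.mul_apply, Fin.sum_univ_two]
  ring

lemma inv_mul_coe (g : SL2) : ((g⁻¹ : SL2) : M2) * (g : M2) = 1 := by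
  rw [← Matrix.SpecialLinearGroup.coe_mul, inv_mul_cancel, Matrix.SpecialLinearGroup.coe_one]

lemma conj (g : SL2) (h : Dat n m t) (hW : HF m t e W τ) :
    HF m t e ((g : M2) * W * ((g⁻¹ : SL2) : M2)) (g • τ) := by
  obtain ⟨a1, a2, a3, a4, a5⟩ := key h hW
  obtain ⟨h1, h2, h3, h4⟩ := hW
  have hp : 0 < W.det := h2 ▸ pos h
  refine ⟨?_, ?_, ?_, ?_⟩
  · rw [Matrix.trace_mul_cycle, inv_mul_coe, Matrix.one_mul, h1]
  · rw [Matrix.det_mul, Matrix.det_mul, det_SL, det_SL, h2, one_mul, mul_one]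
  · rw [mob_mul (by rw [Matrix.det_mul, det_SL, one_mul]; exact hp) (det_SL_pos _),
      mob_mul (det_SL_pos _) hp, mob_SL, mob_SL, inv_smul_smul, h3]
  · have hn := normSq_pos.2 (den_ne (det_SL_pos g) τ)
    rw [normSq_apply] at hn
    simp only [add_re, mul_re, intCast_re, intCast_im, coe_re, coe_im, zero_mul, sub_zero, add_im,
      mul_im, add_zero] at hn
    have h5 := mul_pos a5 hn
    have : (0 : ℝ) < ((e * ((g : M2) * W * ((g⁻¹ : SL2) : M2)) 1 0 : ℤ) : ℝ) := by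
      rw [conj10]
      push_cast
      refine h5.trans_eq ?_
      linear_combination (e : ℝ) * ((g : M2) 1 0 * (g : M2) 1 1) * a1 -
        (e : ℝ) * ((g : M2) 1 0 : ℝ) ^ 2 * a2
    exact_mod_cast this

lemma unit_of_dvd (h : Dat n m t) (h1 : W.trace = t) (h2 : W.det = m) {d : ℤ}
    (a : d ∣ W 1 1 - W 0 0) (b : d ∣ W 0 1) (c : d ∣ W 1 0) : IsUnit d := by
  refine (Int.squarefree_natCast.2 h.sq) d ?_
  rw [← dvd_neg, ← disc h h1 h2, sq, mul_assoc]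
  exact (mul_dvd_mul a a).add ((mul_dvd_mul b c).mul_left 4)

lemma prim (h : Dat n m t) (h1 : W.trace = t) (h2 : W.det = m) : Prim W := fun d hd =>
  unit_of_dvd h h1 h2 ((hd 1 1).sub (hd 0 0)) (hd 0 1) (hd 1 0)

lemma stab (g : SL2) (h : Dat n m t) (hW : HF m t e W τ) (hg : g • τ = τ) : g = 1 ∨ g = -1 := by
  obtain ⟨a1, a2, a3, a4, a5⟩ := key h hW
  obtain ⟨b1, b2⟩ := fix_real (det_SL_pos g) ((mob_SL g τ).trans hg)
  have hd := det_SL g
  rw [Matrix.det_fin_two] at hd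
  have c1 : (g : M2) 1 0 * (W 1 1 - W 0 0) = W 1 0 * ((g : M2) 1 1 - (g : M2) 0 0) := by
    have : ((g : M2) 1 0 : ℝ) * (W 1 1 - W 0 0) = W 1 0 * ((g : M2) 1 1 - (g : M2) 0 0) := by
      rw [a1, b1]; ring
    exact_mod_cast this
  have c2 : (g : M2) 1 0 * W 0 1 = W 1 0 * (g : M2) 0 1 := by
    have : ((g : M2) 1 0 : ℝ) * W 0 1 = W 1 0 * (g : M2) 0 1 := by
      linear_combination -((g : M2) 1 0 : ℝ) * a2 + (W 1 0 : ℝ) * b2
    exact_mod_cast this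
  have c3 : IsCoprime (W 1 0) (Int.gcd (W 1 1 - W 0 0) (W 0 1) : ℤ) :=
    IsRelPrime.isCoprime fun d h1 h2 => unit_of_dvd h hW.1 hW.2.1
      (h2.trans (Int.gcd_dvd_left _ _)) (h2.trans (Int.gcd_dvd_right _ _)) h1
  obtain ⟨k, hk⟩ : W 1 0 ∣ (g : M2) 1 0 := by
    refine c3.dvd_of_dvd_mul_right ?_
    rw [Int.gcd_eq_gcd_ab, mul_add, ← mul_assoc, ← mul_assoc, c1, c2]
    exact ((dvd_mul_right _ _).mul_right _).add ((dvd_mul_right _ _).mul_right _)
  have hd' : ((g : M2) 0 0 : ℝ) * (g : M2) 1 1 - (g : M2) 0 1 * (g : M2) 1 0 = 1 := by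
    exact_mod_cast hd
  have hk' : ((g : M2) 1 0 : ℝ) = W 1 0 * k := by exact_mod_cast hk
  have c4 : ((g : M2) 0 0 + (g : M2) 1 1) ^ 2 + k ^ 2 * n = 4 := by
    have : (((g : M2) 0 0 : ℝ) + (g : M2) 1 1) ^ 2 + k ^ 2 * n = 4 := by
      have f1 : (((g : M2) 1 1 : ℝ) - (g : M2) 0 0) ^ 2 = (-2 * (g : M2) 1 0 * τ.re) ^ 2 := by
        rw [b1]
      have f2 : 4 * (((g : M2) 1 0 : ℝ) * τ.im) ^ 2 = k ^ 2 * n := by
        rw [hk', ← a4]; ring
      linear_combination f1 + 4 * hd' - 4 * ((g : M2) 1 0 : ℝ) * b2 - f2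
    exact_mod_cast this
  have h7 : (7 : ℤ) ≤ n := by exact_mod_cast h.big
  have k0 : k = 0 := by
    by_contra hne
    have : 1 ≤ k ^ 2 := by
      have := sq_pos_of_ne_zero hne
      omega
    nlinarith [sq_nonneg ((g : M2) 0 0 + (g : M2) 1 1)]
  have r0 : (g : M2) 1 0 = 0 := by rw [hk, k0, mul_zero]
  have q0 : (g : M2) 0 1 = 0 := by
    rw [r0] at b2
    have : ((g : M2) 0 1 : ℝ) = 0 := by simpa using b2
    exact_mod_cast this
  rw [r0, mul_zero, sub_zero] at hd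
  rcases Int.eq_one_or_neg_one_of_mul_eq_one' hd with ⟨u, v⟩ | ⟨u, v⟩
  · left
    ext i j
    fin_cases i <;> fin_cases j <;> simp [u, v, r0, q0]
  · right
    ext i j
    fin_cases i <;> fin_cases j <;> simp [u, v, r0, q0]

lemma inv (h : Dat n m t) (hs : HS m t e τ) (hr : rel0 τ σ) : HS m t e σ := by
  obtain ⟨W, hW, a, c⟩ := hs
  obtain ⟨g, r, rfl⟩ := hr
  refine ⟨_, conj g h hW, ?_, ?_⟩
  · rw [conj00]
    exact (((a.mul_left _).add (c.mul_left _)).mul_right _).sub (r.mul_left _)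
  · rw [conj10]
    exact ((c.mul_right _).add ((r.mul_left _).mul_right _)).sub
      ((dvd_pow r two_ne_zero).mul_left _)

lemma lemI (g : SL2) (h : Dat n m t) (hs : HS m t e τ) (hs' : HS m t e (g • τ)) :
    100 ∣ (g : M2) 1 0 := by
  obtain ⟨W, hW, a, c⟩ := hs
  obtain ⟨W', hW', a', c'⟩ := hs'
  have e1 : W' * (g : M2) = (g : M2) * W := by
    rw [uniq h hW' (conj g h hW), Matrix.mul_assoc, inv_mul_coe, Matrix.mul_one]
  have e2 := congrFun (congrFun e1 1) 0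
  simp only [Matrix.mul_apply, Fin.sum_univ_two] at e2
  have e3 := hW'.1
  rw [Matrix.trace_fin_two] at e3
  have e4 : t * (g : M2) 1 0 = (g : M2) 1 0 * W 0 0 + (g : M2) 1 1 * W 1 0 -
      W' 1 0 * (g : M2) 0 0 + W' 0 0 * (g : M2) 1 0 := by
    rw [← e3]
    linear_combination e2
  have c1 : IsCoprime (100 : ℤ) t := by
    have := (h.cop.pow_right (n := 2)).symm
    norm_num at this
    exact this
  refine c1.dvd_of_dvd_mul_left ?_
  rw [e4]
  exact (((a.mul_left _).add (c.mul_left _)).sub (c'.mul_right _)).add (a'.mul_right _)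

lemma root (h : Dat n m t) {z : ℂ} (hz : z ^ 2 - t * z + m = 0) (he : 0 < e * z.im) :
    2 * z.re = t ∧ 4 * z.im ^ 2 = n := by
  have h1 := congrArg Complex.im hz
  have h2 := congrArg Complex.re hz
  simp only [sq, add_im, sub_im, mul_im, intCast_re, intCast_im, zero_mul, add_zero, zero_im,
    add_re, sub_re, mul_re, sub_zero, zero_re] at h1 h2
  have h0 : z.im ≠ 0 := fun h0 => by simp [h0] at he
  have h3 : 2 * z.re = t := by
    apply mul_right_cancel₀ h0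
    linear_combination h1
  have h4 : (t : ℝ) ^ 2 - 4 * m = -n := by exact_mod_cast h.disc
  refine ⟨h3, ?_⟩
  rw [← h3] at h2 h4
  linear_combination -4 * h2 - h4

lemma eig (z : ℂ) (h : Dat n m t) (hW : HF m t e W τ) (hz : z ^ 2 - t * z + m = 0)
    (he : 0 < e * z.im) : (W 1 0 : ℂ) * τ + W 1 1 = z := by
  obtain ⟨a1, a2, a3, a4, a5⟩ := key h hW
  obtain ⟨b1, b2⟩ := root h hz he
  have hy := τ.im_pos
  have c1 : (W 1 0 : ℝ) * τ.im = z.im :=
    eq_of_sq (e := e) (by linarith) (by rw [← mul_assoc]; positivity) he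
  apply Complex.ext
  · simp only [add_re, mul_re, intCast_re, intCast_im, coe_re, coe_im, zero_mul, sub_zero]
    linarith
  · simpa using c1

lemma of_eig (z : ℂ) (h : Dat n m t) (hz : z ^ 2 - t * z + m = 0) (he : 0 < e * z.im)
    (h2 : W.det = m) (h3 : mob W τ = τ) (h4 : (W 1 0 : ℂ) * τ + W 1 1 = z) : HF m t e W τ := by
  obtain ⟨b1, b2⟩ := root h hz he
  obtain ⟨e1, e2⟩ := fix_real (h2 ▸ pos h) h3
  have c1 := congrArg Complex.re h4
  have c2 := congrArg Complex.im h4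
  simp only [add_re, mul_re, intCast_re, intCast_im, coe_re, coe_im, zero_mul, sub_zero, add_im,
    mul_im, add_zero] at c1 c2
  refine ⟨?_, h2, h3, ?_⟩
  · rw [Matrix.trace_fin_two]
    have : (W 0 0 : ℝ) + W 1 1 = t := by linarith
    exact_mod_cast this
  · rw [← c2, ← mul_assoc] at he
    have : (0 : ℝ) < e * W 1 0 := (mul_pos_iff_of_pos_right τ.im_pos).1 he
    exact_mod_cast this

lemma equiv : Equivalence rel0 := by
  refine ⟨fun τ => ⟨1, by simp, one_smul _ _⟩, ?_, ?_⟩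
  · rintro τ _ ⟨g, r, rfl⟩
    refine ⟨g⁻¹, ?_, inv_smul_smul g τ⟩
    rw [coe_inv]
    simpa using r
  · rintro τ _ _ ⟨g, r, rfl⟩ ⟨g', r', rfl⟩
    refine ⟨g' * g, ?_, mul_smul _ _ _⟩
    rw [Matrix.SpecialLinearGroup.coe_mul, Matrix.mul_apply, Fin.sum_univ_two]
    exact (r'.mul_right _).add (r.mul_left _)

lemma quad (h : Dat n m t) (hW : HF m t e W τ) :
    (W 1 0 : ℂ) * (τ : ℂ) ^ 2 + ((W 1 1 - W 0 0 : ℤ) : ℂ) * τ + ((-W 0 1 : ℤ) : ℂ) = 0 := by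
  have := (mob_fix_iff (hW.2.1 ▸ pos h) τ).1 hW.2.2.1
  push_cast
  linear_combination this

end Hb

theorem hb (hC : JC) (hS : OS) (hO : ORB) : HB where
  equiv := Hb.equiv
  pos := Hb.pos
  uniq := Hb.uniq
  conj := Hb.conj
  prim := Hb.prim
  stab := Hb.stab
  lift := by
    intro n m t e W τ h hW
    have hm : ((m.toNat : ℕ) : ℤ) = m := Int.toNat_of_nonneg (Hb.pos h).le
    obtain ⟨g1, g2, e1⟩ := hO.smith m.toNat W (by have := Hb.pos h; omega) (hW.2.1.trans hm.symm)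
      (Hb.prim h hW.1 hW.2.1)
    refine ⟨g1⁻¹, g1⁻¹ * g2, ?_⟩
    have := Hb.conj g1⁻¹ h hW
    rwa [inv_inv, Matrix.mul_assoc, e1, hm, ← Matrix.mul_assoc,
      ← Matrix.SpecialLinearGroup.coe_mul] at this
  inv := Hb.inv
  lemI := Hb.lemI
  eig := Hb.eig
  of_eig := Hb.of_eig
  fin := by
    intro n m t e h
    have h7 := h.big
    obtain ⟨T, hT⟩ := hO.fin_cm 100 (-n) (by norm_num) (by omega)
    refine hS.exists_rep Hb.equiv T.finite_toSet fun τ hτ => ?_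
    obtain ⟨W, hW, -⟩ := id hτ
    obtain ⟨g, hg, hgT⟩ := hT τ _ _ _ (by rw [← Hb.disc h hW.1 hW.2.1]; ring) (Hb.quad h hW)
    have hr : rel0 τ (g • τ) := by
      refine ⟨g, ?_, rfl⟩
      have := (CongruenceSubgroup.Gamma_mem.1 hg).2.2.1
      exact_mod_cast (ZMod.intCast_zmod_eq_zero_iff_dvd _ 100).1 this
    exact ⟨g • τ, hgT, Hb.inv h hτ hr, hr⟩
  alg := by
    intro n m t e W τ h hW
    refine hC.alg_cm _ _ _ τ (fun h0 => ?_) (Hb.quad h hW)
    have := hW.2.2.2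
    rw [h0, mul_zero] at this
    exact lt_irrefl _ this

end Pool.Agent.MP_9207e0_ag.e3
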