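import Pool.Agent.MP_9207e0_ag.e3.SpecC

/-! The Heegner points over the quadratic field and their images under the descent map. -/

set_option linter.unusedSectionVars false
set_option linter.unusedVariables false

namespace Pool.Agent.MP_9207e0_ag.e3

open UpperHalfPlane Complex Filter Asymptotics Matrix Pool.Agent.MP_9207e0_ag.hg
open NumberField IsDedekindDomain
open Pool.Agent.MP_a43263_nt (Pt ptMap ac WW GQ Tr)
open scoped Real MatrixGroups Manifold Classical Kronecker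

theorem hk_desc {a b : ℚ} {K : IntermediateField ℚ Qbar} (G : GD a b K) {I : Type}
    (R : Finset I) (x y : I → Qbar)
    (hpt : ∀ i ∈ R, y i ≠ 0 ∧ y i ^ 2 + 3 * a * x i * y i + b * y i = x i ^ 3)
    (hσ : ∀ σ, Fx K σ → ∃ f : I → I, Set.BijOn f R R ∧
      ∀ i ∈ R, σ (x i) = x (f i) ∧ σ (y i) = y (f i)) :
    ∃ (P : Pt (WW a b) K) (B : K), inK a b K P = ∑ i ∈ R, pw a b (x i) (y i) ∧
      (B : Qbar) = ∏ i ∈ R, y i ∧ B ≠ 0 ∧ Gd a b K ((B ^ 2 : K) : Qbar) (inK a b K P) := by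
  obtain ⟨P, hP⟩ := (G.desc (∑ i ∈ R, pw a b (x i) (y i))).2 fun σ hs => by
    obtain ⟨f, hf, h⟩ := hσ σ hs
    rw [map_sum]
    refine Finset.sum_nbij f (fun i hi => hf.mapsTo hi) hf.injOn hf.surjOn fun i hi => ?_
    rw [G.ac_pw, (h i hi).1, (h i hi).2]
  have hB : ∏ i ∈ R, y i ∈ K := G.fixed _ fun σ hs => by
    obtain ⟨f, hf, h⟩ := hσ σ hs
    rw [map_prod]
    exact Finset.prod_nbij f (fun i hi => hf.mapsTo hi) hf.injOn hf.surjOn fun i hi => (h i hi).2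
  refine ⟨P, ⟨_, hB⟩, hP, rfl, fun h0 => ?_, ?_⟩
  · exact Finset.prod_ne_zero_iff.2 (fun i hi => (hpt i hi).1) (congrArg Subtype.val h0)
  · rw [hP]
    exact G.sum R x y hpt hσ

theorem hk_fix {n : ℕ} {m t : ℤ} {K : IntermediateField ℚ Qbar} [NumberField K] {lam : 𝓞 K}
    (hq : QF n m t K lam) (σ : GQ) (hs : Fx K σ) (z : Qbar) (hz : z ^ 2 = -n) : σ z = z := by
  have e1 : (lam : K) ^ 2 - t * (lam : K) + m = 0 := by
    have := congrArg (algebraMap (𝓞 K) K) hq.eq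
    simpa using this
  have e2 : (t : K) ^ 2 - 4 * m = -n := by exact_mod_cast congrArg (Int.cast : ℤ → K) hq.dat.disc
  have e3 : (2 * (lam : K) - t) ^ 2 = -n := by linear_combination 4 * e1 + e2
  have e4 : (((2 * (lam : K) - t : K) : Qbar)) ^ 2 = -n := by
    have := congrArg (algebraMap K Qbar) e3
    rw [map_pow, map_neg, map_natCast] at this
    exact this
  have h1 := hs _ (2 * (lam : K) - t : K).2
  rcases sq_eq_sq_iff_eq_or_eq_neg.1 (hz.trans e4.symm) with h | h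
  · rw [h]; exact h1
  · rw [h, map_neg, h1]

section lg

variable {K : Type} [Field K] [NumberField K]

theorem hk_lg (hC : CUBE) (v : HeightOneSpectrum (𝓞 K)) (i j : ℕ) :
    lg v ((2 ^ i * 5 ^ j : ℕ) : K) = i * lg v ((2 : ℕ) : K) + j * lg v ((5 : ℕ) : K) := by
  rw [Nat.cast_mul, Nat.cast_pow, Nat.cast_pow,
    hC.mul v (pow_ne_zero _ (by norm_num)) (pow_ne_zero _ (by norm_num)), hC.pow, hC.pow]

theorem hk_not (v : HeightOneSpectrum (𝓞 K)) (h2 : ((2 : ℕ) : 𝓞 K) ∈ v.asIdeal)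
    (h5 : ((5 : ℕ) : 𝓞 K) ∈ v.asIdeal) : False := by
  refine v.isPrime.ne_top ((Ideal.eq_top_iff_one _).2 ?_)
  have := v.asIdeal.sub_mem h5 (v.asIdeal.add_mem h2 h2)
  have e : ((5 : ℕ) : 𝓞 K) - (((2 : ℕ) : 𝓞 K) + ((2 : ℕ) : 𝓞 K)) = 1 := by push_cast; ring
  rwa [e] at this

theorem hk_zero (hC : CUBE) (v : HeightOneSpectrum (𝓞 K)) (p : ℕ) (h : (p : 𝓞 K) ∉ v.asIdeal) :
    lg v (p : K) = 0 := by
  have := hC.of_not_mem v _ h
  rwa [RingOfIntegers.coe_eq_algebraMap, map_natCast] at this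

theorem hk_one (hC : CUBE) (κ : K →+* ℂ) (R : Finset ℍ) (Y p q r s : ℍ → ℂ) (E : ℂ) (hE : E ≠ 0)
    (k : ℕ) (B P Q U V : K) (hB0 : B ≠ 0) (hP0 : P ≠ 0) (hQ0 : Q ≠ 0) (hU0 : U ≠ 0) (hV0 : V ≠ 0)
    (hB : κ B = ∏ τ ∈ R, Y τ) (hP : ∏ τ ∈ R, p τ ^ 24 = κ P ^ 12 * E)
    (hQ : ∏ τ ∈ R, q τ ^ 24 = κ Q ^ 12 * E) (hU : ∏ τ ∈ R, r τ ^ 24 = κ U ^ 12 * E)
    (hV : ∏ τ ∈ R, s τ ^ 24 = κ V ^ 12 * E)
    (h : ∀ τ, (Y τ * (p τ * q τ ^ k)) ^ 2 = (r τ * s τ ^ k) ^ 2) (v : HeightOneSpectrum (𝓞 K)) :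
    2 * lg v B + lg v P + k * lg v Q = lg v U + k * lg v V := by
  have h1 : ∀ τ, Y τ ^ 24 * (p τ ^ 24 * (q τ ^ 24) ^ k) = r τ ^ 24 * (s τ ^ 24) ^ k := fun τ => by
    have := congrArg (fun z => z ^ 12) (h τ)
    simp only [← pow_mul] at this ⊢
    rw [mul_pow, mul_pow, mul_pow, ← pow_mul, ← pow_mul, mul_comm k] at this
    exact this
  have h2 := Finset.prod_congr (s₁ := R) rfl fun τ _ => h1 τ
  rw [Finset.prod_mul_distrib, Finset.prod_mul_distrib, Finset.prod_mul_distrib,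
    Finset.prod_pow R k, Finset.prod_pow R k, Finset.prod_pow R 24 Y, ← hB, hP, hQ, hU, hV] at h2
  have h3 : B ^ 24 * (P ^ 12 * (Q ^ 12) ^ k) = U ^ 12 * (V ^ 12) ^ k := by
    apply κ.injective
    apply mul_right_cancel₀ (mul_ne_zero hE (pow_ne_zero k hE))
    simp only [map_mul, map_pow]
    rw [mul_pow, mul_pow] at h2
    linear_combination h2
  have h4 := congrArg (lg v) h3
  rw [hC.mul v (by positivity) (by positivity), hC.mul v (by positivity) (by positivity),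
    hC.mul v (by positivity) (by positivity)] at h4
  simp only [hC.pow] at h4
  push_cast at h4
  linarith

end lg

theorem hk (h2 : ETA2) (l1 : LC1) (l2 : LC2) (hP : PT) (hH : HB) (hg : GalStmt) (hp : ProdStmt)
    (hG : GdStmt) (hK : OK) (hC : CUBE) : HkStmt := by
  intro ι n m t e K _ lam R hq he hR
  have halg : ∀ τ ∈ R, IsAlgebraic ℚ (jf (mob (dg 10 1) τ)) := fun τ hτ => by
    obtain ⟨W, hW, -⟩ := hR.1 τ hτ
    exact (hP.alg (dg 10 1) τ (by simp [dg])).2 (hH.alg hq.dat hW)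
  have hgal := fun (σ : GQ) (hs : Fx K σ) =>
    hg ι n m t e R hq.dat hR (σ : Qbar →+* Qbar) (hk_fix hq σ hs)
  let κ : K →+* ℂ := ι.comp (algebraMap K Qbar)
  have hpr := hp n m t e K lam κ R hq he hR
  have hE : ∏ τ ∈ R, et τ ^ 24 ≠ 0 := fun h0 => by
    obtain ⟨Λ, -, h, -⟩ := hpr 1 (by norm_num)
    rw [h0, mul_zero] at h
    exact Finset.prod_ne_zero_iff.2 (fun τ _ => pow_ne_zero 24 (h2.ne 1 τ)) h
  constructor
  · have G := hG (2 / 3) 4 K (by norm_num) (by norm_num)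
    obtain ⟨P, B, e1, e2, e3, e4⟩ := hk_desc G R (fun τ => qv ι (X1 (mob (dg 10 1) τ)))
      (fun τ => qv ι (Y1 (mob (dg 10 1) τ)))
      (fun τ hτ => ⟨fun h0 => (l1.ne _).2 (by
          rw [← (hP.spec1 ι _ (halg τ hτ)).2.1, h0, map_zero]),
        (G.ns _ _).1 (hP.spec1 ι _ (halg τ hτ)).2.2⟩)
      (fun σ hs => by
        obtain ⟨f, hf, h⟩ := hgal σ hs
        exact ⟨f, hf, fun τ hτ => ⟨h X1 (by simp) τ hτ, h Y1 (by simp) τ hτ⟩⟩)
    refine ⟨P, B, e1.trans (Finset.sum_congr rfl fun τ hτ => ?_), e3, e4, fun v hv => ?_⟩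
    · rw [U1, if_pos (halg τ hτ)]
    · have hB : κ B = ∏ τ ∈ R, Y1 (mob (dg 10 1) τ) := by
        have : κ B = ι (B : Qbar) := rfl
        rw [this, e2, map_prod]
        exact Finset.prod_congr rfl fun τ hτ => (hP.spec1 ι _ (halg τ hτ)).2.1
      obtain ⟨L5, a0, a1, a2⟩ := hpr 5 (by norm_num)
      obtain ⟨L100, b0, b1, b2⟩ := hpr 100 (by norm_num)
      obtain ⟨L20, c0, c1, c2⟩ := hpr 20 (by norm_num)
      obtain ⟨L25, d0, d1, d2⟩ := hpr 25 (by norm_num)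
      have key := hk_one hC κ R _ _ _ _ _ _ hE 5 B L5 L100 L20 L25 e3 a0 b0 c0 d0 hB a1 b1 c1 d1
        (fun τ => by rw [h2.y1, neg_sq]) v
      have v2 := hK.val hq 2 (Or.inl rfl) v hv
      have v5 := hk_zero hC v 5 (hk_not v hv)
      have w100 : lg v ((100 : ℕ) : K) = _ := hk_lg hC v 2 2
      have w20 : lg v ((20 : ℕ) : K) = _ := hk_lg hC v 2 1
      have w25 : lg v ((25 : ℕ) : K) = _ := hk_lg hC v 0 2
      rw [a2 2 (Or.inl rfl) v hv, b2 2 (Or.inl rfl) v hv, c2 2 (Or.inl rfl) v hv,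
        d2 2 (Or.inl rfl) v hv, w100, w20, w25, v2, v5] at key
      split_ifs at key ⊢ <;> push_cast at key <;> linarith
  · have G := hG (5 / 3) 5 K (by norm_num) (by norm_num)
    obtain ⟨P, B, e1, e2, e3, e4⟩ := hk_desc G R (fun τ => qv ι (X2 (mob (dg 10 1) τ)))
      (fun τ => qv ι (Y2 (mob (dg 10 1) τ)))
      (fun τ hτ => ⟨fun h0 => l2.ne _ (by
          rw [← (hP.spec2 ι _ (halg τ hτ)).2.1, h0, map_zero]),
        (G.ns _ _).1 (hP.spec2 ι _ (halg τ hτ)).2.2⟩)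
      (fun σ hs => by
        obtain ⟨f, hf, h⟩ := hgal σ hs
        exact ⟨f, hf, fun τ hτ => ⟨h X2 (by simp) τ hτ, h Y2 (by simp) τ hτ⟩⟩)
    refine ⟨P, B, e1.trans (Finset.sum_congr rfl fun τ hτ => ?_), e3, e4, fun v hv => ?_⟩
    · rw [U2, if_pos (halg τ hτ)]
    · have hB : κ B = ∏ τ ∈ R, Y2 (mob (dg 10 1) τ) := by
        have : κ B = ι (B : Qbar) := rfl
        rw [this, e2, map_prod]
        exact Finset.prod_congr rfl fun τ hτ => (hP.spec2 ι _ (halg τ hτ)).2.1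
      obtain ⟨L50, a0, a1, a2⟩ := hpr 50 (by norm_num)
      obtain ⟨L100, b0, b1, b2⟩ := hpr 100 (by norm_num)
      obtain ⟨L2, c0, c1, c2⟩ := hpr 2 (by norm_num)
      obtain ⟨L4, d0, d1, d2⟩ := hpr 4 (by norm_num)
      have key := hk_one hC κ R _ _ _ _ _ _ hE 1 B L50 L100 L2 L4 e3 a0 b0 c0 d0 hB a1 b1 c1 d1
        (fun τ => by rw [pow_one, pow_one, h2.y2]) v
      have v5 := hK.val hq 5 (Or.inr rfl) v hv
      have v2 := hk_zero hC v 2 (fun h => hk_not v h hv)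
      have w100 : lg v ((100 : ℕ) : K) = _ := hk_lg hC v 2 2
      have w50 : lg v ((50 : ℕ) : K) = _ := hk_lg hC v 1 2
      have w4 : lg v ((4 : ℕ) : K) = _ := hk_lg hC v 2 0
      rw [a2 5 (Or.inr rfl) v hv, b2 5 (Or.inr rfl) v hv, c2 5 (Or.inr rfl) v hv,
        d2 5 (Or.inr rfl) v hv, w100, w50, w4, v2, v5] at key
      split_ifs at key ⊢ <;> push_cast at key <;> linarith

end Pool.Agent.MP_9207e0_ag.e3
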