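import Pool.Agent.MP_9207e0_ag.e3.SpecC

/-! The symbol on the Weierstrass models, from the symbol on the Legendre models. -/

set_option linter.unusedSectionVars false
set_option linter.unusedVariables false

namespace Pool.Agent.MP_9207e0_ag.e3

open WeierstrassCurve WeierstrassCurve.Affine
open Pool.Agent.MP_a43263_nt (Pt WW IsW isW)

/-- The substitution `X = u^2 x + r`, `Y = u^3 y + u^2 s x + t` leads to the Legendre model. -/
structure KwSb {F : Type} [Field F] (a b l u r s t : F) : Prop where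
  hu : u ≠ 0
  h1 : 3 * a * u = 2 * s
  h2 : 3 * r - s ^ 2 = 1 + l
  h3 : b * u ^ 3 = 2 * t
  h4 : l - 2 * r * (1 + l) + 3 * r ^ 2 = 2 * s * t
  h6 : r * l - r ^ 2 * (1 + l) + r ^ 3 = t ^ 2

section Field

variable {F : Type} [Field F] {a b l u r s t : F} {V : WeierstrassCurve.Affine F}

theorem KwSb.map {E : Type} [Field E] (h : KwSb a b l u r s t) (f : F →+* E) :
    KwSb (f a) (f b) (f l) (f u) (f r) (f s) (f t) where
  hu := (map_ne_zero f).2 h.hu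
  h1 := by simpa only [map_mul, map_ofNat] using congrArg f h.h1
  h2 := by
    simpa only [map_mul, map_ofNat, map_sub, map_add, map_pow, map_one] using congrArg f h.h2
  h3 := by simpa only [map_mul, map_ofNat, map_pow] using congrArg f h.h3
  h4 := by
    simpa only [map_mul, map_ofNat, map_sub, map_add, map_pow, map_one] using congrArg f h.h4
  h6 := by
    simpa only [map_mul, map_ofNat, map_sub, map_add, map_pow, map_one] using congrArg f h.h6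

theorem KwSb.eqn (h : KwSb a b l u r s t) (x y : F) :
    (u ^ 3 * y + u ^ 2 * s * x + t) ^ 2 - fl l (u ^ 2 * x + r) =
      u ^ 6 * (y ^ 2 + 3 * a * x * y + b * y - x ^ 3) := by
  unfold fl
  linear_combination -u ^ 5 * x * y * h.h1 - u ^ 4 * x ^ 2 * h.h2 - u ^ 3 * y * h.h3 -
    u ^ 2 * x * h.h4 - h.h6

theorem kw_eqn (l x y : F) : (legendre l).Equation x y ↔ y ^ 2 = fl l x := by
  rw [equation_iff]
  simp only [legendre, fl]
  constructor <;> intro h <;> linear_combination h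

theorem kw_negY (l x y : F) : (legendre l).negY x y = -y := by
  simp [negY, legendre]

theorem KwSb.ns (h : KwSb a b l u r s t) (hV : IsW V a b) (x y : F) :
    (legendre l).Nonsingular (u ^ 2 * x + r) (u ^ 3 * y + u ^ 2 * s * x + t) ↔
      V.Nonsingular x y := by
  have hu := h.hu
  rw [nonsingular_iff', nonsingular_iff', kw_eqn, ← sub_eq_zero, h.eqn, equation_iff',
    hV.h1, hV.h2, hV.h3, hV.h4, hV.h6, mul_eq_zero_iff_left (pow_ne_zero _ hu), ← not_and_or,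
    ← not_and_or]
  simp only [legendre, zero_mul, add_zero]
  refine and_congr Iff.rfl (not_congr ⟨fun ⟨e1, e2⟩ => ⟨?_, ?_⟩, fun ⟨e1, e2⟩ => ⟨?_, ?_⟩⟩)
  · refine mul_left_cancel₀ (pow_ne_zero 4 hu) ?_
    linear_combination e1 + s * e2 + u ^ 3 * y * h.h1 + 2 * u ^ 2 * x * h.h2 + h.h4
  · refine mul_left_cancel₀ (pow_ne_zero 3 hu) ?_
    linear_combination e2 + u ^ 2 * x * h.h1 + h.h3
  · linear_combination u ^ 4 * e1 - s * u ^ 3 * e2 - (u ^ 3 * y - s * u ^ 2 * x) * h.h1 -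
      2 * u ^ 2 * x * h.h2 + s * h.h3 - h.h4
  · linear_combination u ^ 3 * e2 - u ^ 2 * x * h.h1 - h.h3

theorem KwSb.negY (h : KwSb a b l u r s t) (hV : IsW V a b) (x y : F) :
    (legendre l).negY (u ^ 2 * x + r) (u ^ 3 * y + u ^ 2 * s * x + t) =
      u ^ 3 * V.negY x y + u ^ 2 * s * x + t := by
  rw [kw_negY, Affine.negY, hV.h1, hV.h3]
  linear_combination u ^ 2 * x * h.h1 + h.h3

theorem KwSb.cond (h : KwSb a b l u r s t) (hV : IsW V a b) (x₁ x₂ y₁ y₂ : F) :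
    (u ^ 2 * x₁ + r = u ^ 2 * x₂ + r ∧ u ^ 3 * y₁ + u ^ 2 * s * x₁ + t =
      (legendre l).negY (u ^ 2 * x₂ + r) (u ^ 3 * y₂ + u ^ 2 * s * x₂ + t)) ↔
      x₁ = x₂ ∧ y₁ = V.negY x₂ y₂ := by
  rw [h.negY hV, add_left_inj, mul_right_inj' (pow_ne_zero _ h.hu)]
  refine and_congr_right fun e => ?_
  rw [e, add_left_inj, add_left_inj, mul_right_inj' (pow_ne_zero _ h.hu)]

theorem KwSb.addX (h : KwSb a b l u r s t) (hV : IsW V a b) (x₁ x₂ k : F) :
    (legendre l).addX (u ^ 2 * x₁ + r) (u ^ 2 * x₂ + r) (u * k + s) =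
      u ^ 2 * V.addX x₁ x₂ k + r := by
  simp only [Affine.addX, legendre, hV.h1, hV.h2]
  linear_combination -u * k * h.h1 - h.h2

theorem KwSb.addY (h : KwSb a b l u r s t) (hV : IsW V a b) (x₁ x₂ y₁ k : F) :
    (legendre l).addY (u ^ 2 * x₁ + r) (u ^ 2 * x₂ + r) (u ^ 3 * y₁ + u ^ 2 * s * x₁ + t)
      (u * k + s) = u ^ 3 * V.addY x₁ x₂ y₁ k + u ^ 2 * s * V.addX x₁ x₂ k + t := by
  rw [Affine.addY, Affine.addY, ← h.negY hV, kw_negY, kw_negY, negAddY, negAddY, h.addX hV]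
  ring

variable [DecidableEq F]

theorem KwSb.slope (h : KwSb a b l u r s t) (hV : IsW V a b) {x₁ x₂ y₁ y₂ : F}
    (h₁ : V.Equation x₁ y₁) (h₂ : V.Equation x₂ y₂) (hxy : ¬(x₁ = x₂ ∧ y₁ = V.negY x₂ y₂)) :
    (legendre l).slope (u ^ 2 * x₁ + r) (u ^ 2 * x₂ + r) (u ^ 3 * y₁ + u ^ 2 * s * x₁ + t)
      (u ^ 3 * y₂ + u ^ 2 * s * x₂ + t) = u * V.slope x₁ x₂ y₁ y₂ + s := by
  have hu := h.hu
  by_cases hx : x₁ = x₂
  · subst hx
    have hy : y₁ ≠ V.negY x₁ y₂ := fun e => hxy ⟨rfl, e⟩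
    obtain rfl := Y_eq_of_Y_ne h₁ h₂ rfl hy
    have hy' := fun e => hxy ((h.cond hV x₁ x₁ y₁ y₁).1 ⟨rfl, e⟩)
    rw [slope_of_Y_ne rfl hy, slope_of_Y_ne rfl hy', div_eq_iff (sub_ne_zero.2 hy'), h.negY hV]
    have e := div_mul_cancel₀ (3 * x₁ ^ 2 + 2 * V.a₂ * x₁ + V.a₄ - V.a₁ * y₁) (sub_ne_zero.2 hy)
    generalize (3 * x₁ ^ 2 + 2 * V.a₂ * x₁ + V.a₄ - V.a₁ * y₁) / (y₁ - V.negY x₁ y₁) = k at e ⊢
    simp only [Affine.negY, legendre, hV.h1, hV.h2, hV.h3, hV.h4] at e ⊢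
    linear_combination -u ^ 4 * e + (u ^ 3 * y₁ - s * u ^ 2 * x₁) * h.h1 +
      2 * u ^ 2 * x₁ * h.h2 - s * h.h3 + h.h4
  · have hx' : u ^ 2 * x₁ + r ≠ u ^ 2 * x₂ + r := fun e =>
      hx (mul_left_cancel₀ (pow_ne_zero _ hu) (add_right_cancel e))
    rw [slope_of_X_ne hx, slope_of_X_ne hx', div_eq_iff (sub_ne_zero.2 hx')]
    linear_combination -u ^ 3 * div_mul_cancel₀ (y₁ - y₂) (sub_ne_zero.2 hx)

/-- The substitution on points. -/
def KwSb.fn (h : KwSb a b l u r s t) (hV : IsW V a b) : V.Point → (legendre l).Point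
  | .zero => 0
  | .some x y hxy => .some _ _ ((h.ns hV x y).2 hxy)

/-- The substitution as a homomorphism. -/
def KwSb.hom (h : KwSb a b l u r s t) (hV : IsW V a b) : V.Point →+ (legendre l).Point :=
  AddMonoidHom.mk' (h.fn hV) (by
    rintro (_ | ⟨x₁, y₁, h₁⟩) (_ | ⟨x₂, y₂, h₂⟩)
    any_goals rfl
    by_cases hxy : x₁ = x₂ ∧ y₁ = V.negY x₂ y₂
    · have e := (h.cond hV x₁ x₂ y₁ y₂).2 hxy
      rw [Point.add_of_Y_eq hxy.1 hxy.2]
      exact (Point.add_of_Y_eq e.1 e.2).symm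
    · have e := fun e => hxy ((h.cond hV x₁ x₂ y₁ y₂).1 e)
      rw [Point.add_some hxy]
      refine Eq.trans ?_ (Point.add_some e).symm
      simp only [KwSb.fn, h.slope hV h₁.1 h₂.1 hxy, h.addX hV, h.addY hV])

theorem KwSb.hom_some (h : KwSb a b l u r s t) (hV : IsW V a b) {x y : F}
    (hxy : V.Nonsingular x y) :
    h.hom hV (.some x y hxy) = .some _ _ ((h.ns hV x y).2 hxy) := rfl

end Field

open scoped Classical

theorem kw_ex {a b e1 e2 e3 : Qbar} (hb : b ≠ 0) (hc : a ^ 3 - b ≠ 0)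
    (h : ∀ x : Qbar, 4 * x ^ 3 + (3 * a * x + b) ^ 2 = 4 * (x - e1) * (x - e2) * (x - e3)) :
    (e3 - e1) / (e2 - e1) ≠ 0 ∧ (e3 - e1) / (e2 - e1) ≠ 1 ∧ ∃ u r s t,
      KwSb a b ((e3 - e1) / (e2 - e1)) u r s t ∧ ∀ x, (x - e1) / (e2 - e1) = u ^ 2 * x + r := by
  have k6 : b ^ 2 = -4 * (e1 * e2 * e3) := by linear_combination h 0
  have k2 : 9 * a ^ 2 = -4 * (e1 + e2 + e3) := by
    linear_combination (h 1 + h (-1)) / 2 - h 0
  have k4 : 3 * a * b = 2 * (e1 * e2 + e1 * e3 + e2 * e3) := by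
    linear_combination (h 1 - h (-1)) / 4
  have hd : 16 * ((e2 - e1) * (e3 - e1) * (e3 - e2)) ^ 2 ≠ 0 := by
    have : 27 * b ^ 3 * (a ^ 3 - b) = -(9 * a ^ 2) ^ 2 * ((9 * a ^ 2) * b ^ 2 - (3 * a * b) ^ 2) / 4
        - 8 * (3 * a * b) ^ 3 - 27 * (b ^ 2) ^ 2 + 9 * (9 * a ^ 2) * (3 * a * b) * b ^ 2 := by ring
    rw [k2, k4, k6] at this
    intro e
    exact mul_ne_zero (mul_ne_zero (by norm_num) (pow_ne_zero 3 hb)) hc
      (this.trans (by linear_combination e))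
  have hp : (e2 - e1) * (e3 - e1) * (e3 - e2) ≠ 0 := fun e => hd (by rw [e]; ring)
  have d1 := left_ne_zero_of_mul (left_ne_zero_of_mul hp)
  have d2 := right_ne_zero_of_mul (left_ne_zero_of_mul hp)
  have d3 := right_ne_zero_of_mul hp
  obtain ⟨u, hu⟩ := IsAlgClosed.exists_pow_nat_eq (e2 - e1)⁻¹ two_pos
  have hu' : u ^ 2 * (e2 - e1) = 1 := by rw [hu, inv_mul_cancel₀ d1]
  refine ⟨div_ne_zero d2 d1, fun e => d3 ?_, u, -e1 * u ^ 2, 3 * a * u / 2, b * u ^ 3 / 2, ?_,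
    fun x => by rw [div_eq_mul_inv, ← hu]; ring⟩
  · rw [div_eq_one_iff_eq d1] at e
    linear_combination e
  rw [div_eq_mul_inv, ← hu]
  refine ⟨?_, by ring, ?_, by ring, ?_, ?_⟩
  · rintro rfl
    simp at hu'
  · linear_combination -u ^ 2 / 4 * k2 + hu'
  · linear_combination -u ^ 4 / 2 * k4 - (e3 + e1) * u ^ 2 * hu'
  · linear_combination -u ^ 6 / 4 * k6 + e1 * e3 * u ^ 4 * hu'

theorem kw_pw {a b : ℚ} {l u r s t : Qbar} (h : KwSb (a : Qbar) b l u r s t)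
    (hV : IsW ((WW a b).baseChange Qbar).toAffine (a : Qbar) b) (x y : Qbar) :
    h.hom hV (pw a b x y) = pl l (u ^ 2 * x + r) (u ^ 3 * y + u ^ 2 * s * x + t) := by
  unfold pw pl
  by_cases e : ((WW a b).baseChange Qbar).toAffine.Nonsingular x y
  · rw [dif_pos e, dif_pos ((h.ns hV x y).2 e)]
    rfl
  · rw [dif_neg e, dif_neg fun e' => e ((h.ns hV x y).1 e'), map_zero]

section Curve

variable {F : Type} [Field F] [Algebra Qbar F] {W : ValuationSubring F}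

theorem kw_fl {a b : ℚ} {l u r s t : Qbar} (h : KwSb (a : Qbar) b l u r s t) {x y : F}
    (e : y ^ 2 + 3 * a * x * y + b * y = x ^ 3) :
    (algebraMap Qbar F u ^ 3 * y + algebraMap Qbar F u ^ 2 * algebraMap Qbar F s * x +
      algebraMap Qbar F t) ^ 2 =
      fl (algebraMap Qbar F l) (algebraMap Qbar F u ^ 2 * x + algebraMap Qbar F r) := by
  have := (h.map (algebraMap Qbar F)).eqn x y
  rw [map_ratCast, map_ratCast, e, sub_self, mul_zero] at this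
  exact sub_eq_zero.1 this

theorem kw_spX (hW : IsPlace W) (u r : Qbar) {x : F} {c : Qbar} (hx : Sp W x c) :
    Sp W (algebraMap Qbar F u ^ 2 * x + algebraMap Qbar F r) (u ^ 2 * c + r) :=
  (((Sp.const W u).pow hW 2).mul hW hx).add (Sp.const W r)

theorem kw_spY (hW : IsPlace W) (u s t : Qbar) {x y : F} {c d : Qbar} (hx : Sp W x c)
    (hy : Sp W y d) : Sp W (algebraMap Qbar F u ^ 3 * y + algebraMap Qbar F u ^ 2 *
      algebraMap Qbar F s * x + algebraMap Qbar F t) (u ^ 3 * d + u ^ 2 * s * c + t) :=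
  ((((Sp.const W u).pow hW 3).mul hW hy).add
    ((((Sp.const W u).pow hW 2).mul hW (Sp.const W s)).mul hW hx)).add (Sp.const W t)

theorem kw_mem (hW : IsPlace W) {u : Qbar} (hu : u ≠ 0) (r : Qbar) {x : F}
    (hx : algebraMap Qbar F u ^ 2 * x + algebraMap Qbar F r ∈ W) : x ∈ W := by
  have h0 : algebraMap Qbar F u ≠ 0 := (map_ne_zero _).2 hu
  have := mul_mem (pow_mem (hW.2 u⁻¹) 2) (sub_mem hx (hW.2 r))
  rwa [add_sub_cancel_right, ← mul_assoc, ← mul_pow, map_inv₀, inv_mul_cancel₀ h0, one_pow,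
    one_mul] at this

end Curve

theorem kumw (h : KumlStmt) : KumwStmt := by
  intro a b a' b' hb hc hb' hc' e1 e2 e3 f1 f2 f3 l m he hf hl hm G _ γ hG hγ
  have hV := isW hb hc Qbar
  have hV' := isW hb' hc' Qbar
  obtain ⟨l0, l1, u, r, s, t, hs, hx⟩ := kw_ex hV.hb hV.hc he
  obtain ⟨m0, m1, u', r', s', t', hs', hx'⟩ := kw_ex hV'.hb hV'.hc hf
  rw [← hl] at l0 l1 hs
  rw [← hm] at m0 m1 hs'
  obtain ⟨κ, β, hR, h2, h3⟩ := h l m l0 l1 m0 m1 G γ hG hγ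
  refine ⟨κ, (β.comp (hs.hom hV)).compl₂ (hs'.hom hV'), ?_, ?_, h3⟩
  · intro F _ _ hF x1 y1 x2 y2 g q1 q2 hg S c d c' d' hS hT
    have := hR F hF _ _ _ _ g (kw_fl hs q1) (kw_fl hs' q2) hg S (fun W => u ^ 2 * c W + r)
      (fun W => u ^ 3 * d W + u ^ 2 * s * c W + t) (fun W => u' ^ 2 * c' W + r')
      (fun W => u' ^ 3 * d' W + u' ^ 2 * s' * c' W + t')
      (fun W hW => by
        obtain ⟨p, p1, p2, p3, p4⟩ := hS W hW
        exact ⟨p, kw_spX p _ _ p1, kw_spY p _ _ _ p1 p2, kw_spX p _ _ p3, kw_spY p _ _ _ p3 p4⟩)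
      (fun W p hW ho => by
        rcases hT W p hW ho with e | ⟨z, z1, z2⟩
        · exact Or.inl fun e' => e (kw_mem p hs.hu r e')
        · refine Or.inr ⟨_, kw_spX p u r z1, fun v => ?_⟩
          have := (hs.hom hV).isOfFinAddOrder (z2 ((v - u ^ 2 * s * z - t) / u ^ 3))
          rwa [kw_pw, mul_div_cancel₀ _ (pow_ne_zero 3 hs.hu),
            show v - u ^ 2 * s * z - t + u ^ 2 * s * z + t = v by ring] at this)
    simpa only [AddMonoidHom.compl₂_apply, AddMonoidHom.comp_apply, kw_pw] using this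
  · intro x y z w ρ n n' hρ h0 hβ
    rw [AddMonoidHom.compl₂_apply, AddMonoidHom.comp_apply, hs.hom_some, hs'.hom_some] at hβ
    have k := (hs.ns hV x y).2 n
    have k' := (hs'.ns hV' z w).2 n'
    rw [hx, hx', ← (kw_eqn _ _ _).1 k.1, ← (kw_eqn _ _ _).1 k'.1, ← mul_pow] at hρ
    rw [hx, hx']
    rcases sq_eq_sq_iff_eq_or_eq_neg.1 hρ with e | e
    · rw [e, h2 _ _ _ _ k k' (e ▸ h0), hβ, add_zero]
    · rw [← neg_mul, ← kw_negY l (u ^ 2 * x + r)] at e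
      rw [e, h2 _ _ _ _ ((nonsingular_neg _ _).2 k) k' (e ▸ h0), ← Point.neg_some k, map_neg,
        AddMonoidHom.neg_apply, hβ, neg_zero, add_zero]

end Pool.Agent.MP_9207e0_ag.e3
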