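import Pool.Agent.MP_9207e0_ag.e3.SpecC

/-! From the symbol to zero-cycles on a proper model. -/

set_option linter.unusedSectionVars false
set_option linter.unusedVariables false

namespace Pool.Agent.MP_9207e0_ag.e3

open AlgebraicGeometry CategoryTheory Pool.Agent.MP_9207e0_ag.hg
open Pool.Agent.MP_a43263_nt (Pt ptMap ac WW GQ Tr)
open scoped Classical

theorem cur_eq (F : Type) [Field F] [CharZero F] [Algebra ℚ F] (a b : ℚ) (c d : F)
    (h1 : ((3 * a : ℚ) : F) = c) (h2 : (b : F) = d) :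
    (⟨c, 0, d, 0, 0⟩ : WeierstrassCurve F) = (WW a b).baseChange F := by
  subst h1 h2
  ext <;> simp [WeierstrassCurve.baseChange]

theorem model (hW : KumwStmt) {a b a' b' : ℚ} (hb : b ≠ 0) (hc : a ^ 3 - b ≠ 0) (hb' : b' ≠ 0)
    (hc' : a' ^ 3 - b' ≠ 0) {e1 e2 e3 f1 f2 f3 l m : Qbar}
    (he : ∀ x : Qbar, 4 * x ^ 3 + (3 * a * x + b) ^ 2 = 4 * (x - e1) * (x - e2) * (x - e3))
    (hf : ∀ x : Qbar, 4 * x ^ 3 + (3 * a' * x + b') ^ 2 = 4 * (x - f1) * (x - f2) * (x - f3))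
    (hl : l = (e3 - e1) / (e2 - e1)) (hm : m = (f3 - f1) / (f2 - f1)) {X : Scheme.{0}}
    (s : X ⟶ Spec (CommRingCat.of Qbar)) [IsProper s]
    (j : Spec (CommRingCat.of (KummerRing l m)) ⟶ X)
    (hj : j ≫ s = Spec.map (CommRingCat.ofHom (algebraMap Qbar (KummerRing l m)))) :
    ∃ (V : Type) (_ : AddCommGroup V) (β : PW a b →+ PW a' b' →+ V), TF V ∧ RecW a b a' b' β ∧
      ∀ (x y u w : Qbar) (h : ((WW a b).baseChange Qbar).toAffine.Nonsingular x y)
        (h' : ((WW a' b').baseChange Qbar).toAffine.Nonsingular u w),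
        β (.some x y h) (.some u w h') = 0 → ∀ P Q : KummerRing l m →ₐ[Qbar] Qbar,
          coord P 0 = (x - e1) / (e2 - e1) → coord P 1 = (u - f1) / (f2 - f1) →
          coord Q 0 = coord Q 1 →
          ∃ k : ℤ, k ≠ 0 ∧ k • (Finsupp.single (j (closedPt P)) (1 : ℤ) -
            Finsupp.single (j (closedPt Q)) 1) ∈ AddSubgroup.closure {D | PrincipalCycle s D} := by
  let T := AddCommGroup.torsion (Chow s)
  let pr : Chow s →+ Chow s ⧸ T := QuotientAddGroup.mk' T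
  have hT : ∀ c : Chow s, pr c = 0 ↔ ∃ k : ℤ, k ≠ 0 ∧ k • c = 0 := by
    intro c
    rw [QuotientAddGroup.mk'_apply, QuotientAddGroup.eq_zero_iff, AddCommGroup.mem_torsion,
      isOfFinAddOrder_iff_zsmul_eq_zero]
  have tf : TF (Chow s ⧸ T) := by
    intro k v hk hv
    obtain ⟨c, rfl⟩ := QuotientAddGroup.mk'_surjective T v
    rw [← map_zsmul] at hv
    obtain ⟨l, hl, e⟩ := (hT _).mp hv
    exact (hT _).mpr ⟨l * k, mul_ne_zero hl hk, by rw [mul_smul, e]⟩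
  have hγ : CurveRel l m fun x u r => pr (cl s j x u r) := by
    intro F _ _ hF x u r h e hr hh n V hinj hV hW a b c ha hb hc hc0
    have := congrArg pr (curveRel_cl s j hj F hF x u r h e hr hh n V hinj hV hW a b c ha hb hc hc0)
    simpa only [map_sum, map_zsmul, map_zero] using this
  obtain ⟨κ, β, hβ, h1, h2⟩ := hW a b a' b' hb hc hb' hc' e1 e2 e3 f1 f2 f3 l m he hf hl hm _ _
    tf hγ
  refine ⟨_, inferInstance, β, tf, hβ, fun x y u w h h' h0 P Q p0 p1 q => ?_⟩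
  have e : coord Q 2 ^ 2 = fl l (coord Q 0) * fl m (coord Q 1) := hom_eq1 Q
  have e' : coord P 2 ^ 2 = fl l (coord P 0) * fl m (coord P 1) := hom_eq1 P
  have k1 : pr (cl s j (coord P 0) (coord P 1) (coord P 2)) = κ := by
    rw [p0, p1] at e' ⊢
    exact h1 x y u w _ h h' e' (hom_ne P) h0
  have k2 : pr (cl s j (coord Q 0) (coord Q 1) (coord Q 2)) = κ := by
    rw [q] at e ⊢
    exact h2 _ _ e (hom_ne Q)
  rw [cl_hom] at k1 k2
  obtain ⟨k, hk, k3⟩ := (hT _).mp (by rw [map_sub, k1, k2, sub_self] :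
    pr (QuotientAddGroup.mk (Finsupp.single (j (closedPt P)) (1 : ℤ)) -
      QuotientAddGroup.mk (Finsupp.single (j (closedPt Q)) 1)) = 0)
  refine ⟨k, hk, (QuotientAddGroup.eq_zero_iff _).mp ?_⟩
  rw [QuotientAddGroup.mk_zsmul, QuotientAddGroup.mk_sub, k3]

theorem hull {a b a' b' : ℚ} {K : IntermediateField ℚ Qbar} (hG : GD a b K) (hG' : GD a' b' K)
    {V : Type} [AddCommGroup V] (β : PW a b →+ PW a' b' →+ V) (tf : TF V)
    (h : ∀ P Q, β (inK _ _ K P) (inK _ _ K Q) = 0) {P : PW a b} {Q : PW a' b'} {k l : ℤ}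
    (hk : k ≠ 0) (hl : l ≠ 0) (h1 : ∀ x y g, k • P = .some x y g → x ∈ K ∧ y ∈ K)
    (h2 : ∀ x y g, l • Q = .some x y g → x ∈ K ∧ y ∈ K) : β P Q = 0 := by
  obtain ⟨P', e1⟩ := (hG.range _).2 h1
  obtain ⟨Q', e2⟩ := (hG'.range _).2 h2
  have := h P' Q'
  rw [e1, e2, map_zsmul, map_zsmul, AddMonoidHom.zsmul_apply, smul_smul] at this
  exact tf _ _ (mul_ne_zero hl hk) this

end Pool.Agent.MP_9207e0_ag.e3
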