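import Pool.Agent.MP_9207e0_ag.e3.SpecA

/-! Module B3: elliptic points of order three. -/

set_option linter.unusedSectionVars false
set_option linter.unusedVariables false

namespace Pool.Agent.MP_9207e0_ag.e3

open UpperHalfPlane Complex Filter Asymptotics Matrix Pool.Agent.MP_9207e0_ag.hg
open scoped Real MatrixGroups Manifold Classical Kronecker

namespace B3

lemma red_mul (N : ℕ) (x y : M2) : red N (x * y) = red N x * red N y := by
  ext i k
  simp [red, Matrix.mul_apply]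

lemma tr2 (x : M2) : x.trace = x 0 0 + x 1 1 := by simp [Matrix.trace, Fin.sum_univ_two]

lemma tr_conj (γ : SL2) (x : M2) : ((γ : M2) * x * ((γ⁻¹ : SL2) : M2)).trace = x.trace := by
  rw [Matrix.trace_mul_cycle, ← Matrix.SpecialLinearGroup.coe_mul, inv_mul_cancel]
  simp

lemma tr_conj' (γ g : SL2) : ((γ * g * γ⁻¹ : SL2) : M2).trace = (g : M2).trace := by
  rw [Matrix.SpecialLinearGroup.coe_mul, Matrix.SpecialLinearGroup.coe_mul, tr_conj]

lemma tr_inv (g : SL2) : ((g⁻¹ : SL2) : M2).trace = (g : M2).trace := by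
  rw [tr2, tr2, Matrix.SpecialLinearGroup.coe_inv, Matrix.adjugate_fin_two]
  simp [add_comm]

lemma odd_off {x : M2} (hd : x.det = 1) (ht : Odd x.trace) : Odd (x 0 1) ∧ Odd (x 1 0) := by
  rw [Matrix.det_fin_two] at hd
  rw [tr2] at ht
  have h1 : Even (x 0 0 * x 1 1) := by
    rw [Int.even_mul]
    rcases Int.even_or_odd (x 0 0) with h | h
    · exact Or.inl h
    · right
      rw [Int.odd_add'] at ht
      rcases Int.even_or_odd (x 1 1) with h' | h'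
      · exact h'
      · exact absurd (ht.mp h') (Int.not_even_iff_odd.mpr h)
  have h2 : Odd (x 0 1 * x 1 0) := by
    have : x 0 1 * x 1 0 = x 0 0 * x 1 1 - 1 := by linarith
    rw [this]
    exact h1.sub_odd odd_one
  exact Int.odd_mul.mp h2

lemma gam5 {g : SL2} (hg : g ∈ Gam 5) : 5 ∣ (g : M2) 0 0 - 1 ∧ 5 ∣ (g : M2) 0 1 ∧
    5 ∣ (g : M2) 1 0 ∧ 5 ∣ (g : M2) 1 1 - 1 := by
  rw [CongruenceSubgroup.Gamma_mem] at hg
  obtain ⟨h1, h2, h3, h4⟩ := hg
  refine ⟨?_, ?_, ?_, ?_⟩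
  · exact (ZMod.intCast_zmod_eq_zero_iff_dvd _ 5).mp (by push_cast; rw [h1, sub_self])
  · exact (ZMod.intCast_zmod_eq_zero_iff_dvd _ 5).mp h2
  · exact (ZMod.intCast_zmod_eq_zero_iff_dvd _ 5).mp h3
  · exact (ZMod.intCast_zmod_eq_zero_iff_dvd _ 5).mp (by push_cast; rw [h4, sub_self])

lemma red_eq {N : ℕ} {x y : M2} (h : ∀ i k, (N : ℤ) ∣ x i k - y i k) : red N x = red N y := by
  ext i k
  have := (ZMod.intCast_zmod_eq_zero_iff_dvd _ N).mpr (h i k)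
  push_cast at this
  simpa [red] using sub_eq_zero.mp this

/-- An element of `Γ(5)` of odd trace commutes modulo ten with the matrices of determinant one and
odd trace. -/
lemma comm {g : SL2} (hg : g ∈ Gam 5) (ht : Odd (g : M2).trace) {x : M2} (hd : x.det = 1)
    (hx : Odd x.trace) : red 10 ((g : M2) * x) = red 10 (x * (g : M2)) := by
  obtain ⟨⟨b, hb⟩, ⟨c, hc⟩⟩ := odd_off (det_SL g) ht
  obtain ⟨⟨q, hq⟩, ⟨r, hr⟩⟩ := odd_off hd hx
  obtain ⟨⟨a', ha⟩, ⟨b', hb'⟩, ⟨c', hc'⟩, ⟨d', hd'⟩⟩ := gam5 hg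
  rw [tr2] at ht hx
  obtain ⟨t, ht⟩ := ht
  obtain ⟨u, hu⟩ := hx
  have key : ∀ E : ℤ, 2 ∣ E → 5 ∣ E → ((10 : ℕ) : ℤ) ∣ E := fun E h2 h5 => by omega
  have e0 : (g : M2) 0 0 = 2 * t + 1 - (g : M2) 1 1 := by linarith
  have e1 : x 0 0 = 2 * u + 1 - x 1 1 := by linarith
  have e2 : (g : M2) 0 0 = 5 * a' + 1 := by linarith
  have e3 : (g : M2) 1 1 = 5 * d' + 1 := by linarith
  apply red_eq
  intro i k
  fin_cases i <;> fin_cases k <;>
    simp only [Matrix.mul_apply, Fin.sum_univ_two, Fin.zero_eta, Fin.mk_one, Fin.isValue] <;>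
    apply key
  · exact ⟨2 * b * r + b + r - 2 * q * c - q - c, by rw [hb, hc, hq, hr]; ring⟩
  · exact ⟨b' * x 1 0 - x 0 1 * c', by rw [hb', hc']; ring⟩
  · exact ⟨(2 * q + 1) * (t - (g : M2) 1 1) + (2 * b + 1) * (x 1 1 - u) + q - b, by
      rw [e0, e1, hb, hq]; ring⟩
  · exact ⟨x 0 1 * (a' - d') + b' * (x 1 1 - x 0 0), by rw [e2, e3, hb']; ring⟩
  · exact ⟨(2 * c + 1) * (u - x 1 1) + (2 * r + 1) * ((g : M2) 1 1 - t) + c - r, by
      rw [e0, e1, hc, hr]; ring⟩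
  · exact ⟨c' * (x 0 0 - x 1 1) + x 1 0 * (d' - a'), by rw [e2, e3, hc']; ring⟩
  · exact ⟨2 * q * c + q + c - 2 * b * r - b - r, by rw [hb, hc, hq, hr]; ring⟩
  · exact ⟨x 0 1 * c' - b' * x 1 0, by rw [hb', hc']; ring⟩

lemma red_conj {g : SL2} (hg : g ∈ Gam 5) (ht : Odd (g : M2).trace) {x : M2} (hd : x.det = 1)
    (hx : Odd x.trace) : red 10 ((g : M2) * x * ((g⁻¹ : SL2) : M2)) = red 10 x := by
  rw [red_mul, comm hg ht hd hx, ← red_mul, Matrix.mul_assoc,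
    ← Matrix.SpecialLinearGroup.coe_mul, mul_inv_cancel]
  simp

lemma det_conj (g : SL2) (x : M2) : ((g : M2) * x * ((g⁻¹ : SL2) : M2)).det = x.det := by
  rw [Matrix.det_mul, Matrix.det_mul, det_SL, det_SL, one_mul, mul_one]

lemma fix_conj (g : SL2) {x : M2} {τ : ℍ} (hd : x.det = 1) (hx : Odd x.trace) (h : x ∈ Fix τ) :
    (g : M2) * x * ((g⁻¹ : SL2) : M2) ∈ Fix (g • τ) := by
  have h0 : 0 < x.det := by rw [hd]; exact one_pos
  have h1 : ((g : M2) * x * ((g⁻¹ : SL2) : M2)).det = 1 := by rw [det_conj, hd]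
  refine ⟨?_, ?_⟩
  · intro h2
    have := (odd_off h1 (by rwa [tr_conj])).2
    rw [h2] at this
    exact Int.not_odd_zero this
  · rw [← mob_fix_iff (by rw [h1]; exact one_pos),
      mob_mul (by rw [Matrix.det_mul, det_SL, one_mul]; exact h0) (det_SL_pos _),
      mob_mul (det_SL_pos _) h0, mob_SL, mob_SL, inv_smul_smul, (mob_fix_iff h0 τ).mpr h.2]

lemma odd_of {a : MN 10} (ha : a.trace = 1 ∨ a.trace = -1) {x : M2} (h : red 10 x = a) :
    Odd x.trace := by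
  have h1 : ((x.trace : ℤ) : ZMod 10) = a.trace := by
    rw [← h]
    simp [red, Matrix.trace, Fin.sum_univ_two]
  rw [Int.odd_iff]
  rcases ha with ha | ha
  · have := (ZMod.intCast_zmod_eq_zero_iff_dvd (x.trace - 1) 10).mp
      (by push_cast; rw [h1, ha, sub_self])
    omega
  · have := (ZMod.intCast_zmod_eq_zero_iff_dvd (x.trace + 1) 10).mp
      (by push_cast; rw [h1, ha, neg_add_cancel])
    omega

lemma stab {a : MN 10} (ha : a.trace = 1 ∨ a.trace = -1) {g : SL2} (hg : g ∈ Gam 5)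
    (ht : Odd (g : M2).trace) (p : M2 × ℍ) (hp : p ∈ ESet (· = a)) :
    cact g p ∈ ESet (· = a) := by
  obtain ⟨h1, h2, h3⟩ := hp
  have h4 := odd_of ha h3
  exact ⟨(det_conj g p.1).trans h1, fix_conj g h1 h4 h2, (red_conj hg ht h1 h4).trans h3⟩

lemma conj_smul (γ g : SL2) (τ : ℍ) : γ • g • τ = (γ * g * γ⁻¹) • γ • τ := by
  simp only [mul_smul, inv_smul_smul]

lemma norm_iff (N : ℕ) (g x : SL2) : x ∈ Gam N ↔ g * x * g⁻¹ ∈ Gam N := by
  refine ⟨fun h => (CongruenceSubgroup.Gamma_normal N).conj_mem x h g, fun h => ?_⟩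
  have := (CongruenceSubgroup.Gamma_normal N).conj_mem _ h g⁻¹
  simpa [mul_assoc] using this

/-- The sum over a set that is stable under an element of `Γ(5)` of odd trace dies. -/
lemma core (hF : FS) (hH : SH) {V : Type} [AddCommGroup V] {s : ℍ → ℍ → V} (hs : Law s)
    (γ1 γ2 : SL2) {S : Set (M2 × ℍ)} {g : SL2} (hg : g ∈ Gam 5) (ht : Odd (g : M2).trace)
    (hS : ∀ p, p ∈ S ↔ cact g p ∈ S) :
    Van (relC (Gam 10)) S fun p => s (γ1 • p.2) (γ2 • p.2) := by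
  intro R hR
  have hi : ∀ x ∈ Gam 10, ∀ p ∈ S, s (γ1 • (cact x p).2) (γ2 • (cact x p).2) =
      s (γ1 • p.2) (γ2 • p.2) := by
    intro x hx p _
    change s (γ1 • x • p.2) (γ2 • x • p.2) = _
    rw [conj_smul γ1 x, conj_smul γ2 x]
    exact hs.inv _ ((norm_iff 10 γ1 x).mp hx) _ ((norm_iff 10 γ2 x).mp hx) _ _
  have e1 := hH.shift (Gam 10) S g (fun p => s (γ1 • p.2) (γ2 • p.2)) R (norm_iff 10 g) hS hi hR
  have e2 := hH.shift (Gam 10) S (g * g) (fun p => s (γ1 • p.2) (γ2 • p.2)) R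
    (norm_iff 10 (g * g)) (fun p => by rw [hF.cact_mul, ← hS, ← hS]) hi hR
  apply hs.tf 3 _ (by norm_num)
  have e3 : (3 : ℤ) • ∑ p ∈ R, s (γ1 • p.2) (γ2 • p.2) = ∑ p ∈ R, s (γ1 • p.2) (γ2 • p.2) +
      ∑ p ∈ R, s (γ1 • p.2) (γ2 • p.2) + ∑ p ∈ R, s (γ1 • p.2) (γ2 • p.2) := by abel
  rw [e3]
  nth_rewrite 3 [← e2]
  nth_rewrite 2 [← e1]
  rw [← Finset.sum_add_distrib, ← Finset.sum_add_distrib]
  refine Finset.sum_eq_zero fun p _ => ?_
  have m1 := (norm_iff 5 γ1 g).mp hg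
  have m2 := (norm_iff 5 γ2 g).mp hg
  have t1 : Odd ((γ1 * g * γ1⁻¹ : SL2) : M2).trace := by rwa [tr_conj']
  have t2 : Odd ((γ2 * g * γ2⁻¹ : SL2) : M2).trace := by rwa [tr_conj']
  change s (γ1 • p.2) (γ2 • p.2) + s (γ1 • g • p.2) (γ2 • g • p.2) +
    s (γ1 • (g * g) • p.2) (γ2 • (g * g) • p.2) = 0
  rw [mul_smul g g, conj_smul γ1 g (g • p.2), conj_smul γ2 g (g • p.2), conj_smul γ1 g p.2,
    conj_smul γ2 g p.2, hs.even _ m1 t1, hs.even _ m1 t1, hs.even _ m1 t1]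
  exact hs.tr3 _ m2 t2 _ _

/-- The element of order three modulo two. -/
def g0 : SL2 := ⟨!![26, 5; 5, 1], by simp [Matrix.det_fin_two]⟩

lemma g0_mem : g0 ∈ Gam 5 := by
  rw [CongruenceSubgroup.Gamma_mem]
  simp only [g0]
  decide

lemma g0_odd : Odd (g0 : M2).trace := by
  rw [tr2]
  simp only [g0]
  decide

end B3

theorem b3 (hF : FS) (hH : SH) : B3Stmt := by
  intro V _ s hs γ1 γ2 a ha
  refine B3.core hF hH hs γ1 γ2 B3.g0_mem B3.g0_odd fun p => ⟨B3.stab ha B3.g0_mem B3.g0_odd p,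
    fun h => ?_⟩
  have := B3.stab ha (inv_mem B3.g0_mem) (by rw [B3.tr_inv]; exact B3.g0_odd) _ h
  rwa [← hF.cact_mul, inv_mul_cancel, hF.cact_one] at this

end Pool.Agent.MP_9207e0_ag.e3
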