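import Pool.Agent.MP_9207e0_ag.e3.SpecC
import Pool.Agent.MP_9207e0_ag.e3.B3

/-! Module LAW: the action of `Γ(5)` on the symbol. -/

set_option linter.unusedSectionVars false
set_option linter.unusedVariables false

namespace Pool.Agent.MP_9207e0_ag.e3

open UpperHalfPlane Complex Filter Asymptotics Matrix Pool.Agent.MP_9207e0_ag.hg
open NumberField IsDedekindDomain
open Pool.Agent.MP_a43263_nt (Pt ptMap ac WW GQ Tr)
open scoped Real MatrixGroups Manifold Classical Kronecker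

namespace LawM

/-- The upper triangular generator. -/
def tm : SL2 := ⟨!![1, 5; 0, 1], by simp [Matrix.det_fin_two]⟩

/-- The lower triangular generator. -/
def lm : SL2 := ⟨!![1, 0; 5, 1], by simp [Matrix.det_fin_two]⟩

variable {V : Type} [AddCommGroup V] {φ : ℍ → V}

lemma step (hi : ∀ g : SL2, 10 ∣ (g : M2) 0 1 → 10 ∣ (g : M2) 1 0 → ∀ τ, φ (g • τ) = φ τ)
    (g w : SL2) {a b c d : ℤ} (hw : (w : M2) = !![a, b; c, d])
    (h1 : 10 ∣ (g : M2) 0 1 * a - (g : M2) 0 0 * b) (h2 : 10 ∣ (g : M2) 1 0 * d - (g : M2) 1 1 * c)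
    (τ : ℍ) : φ (g • τ) = φ (w • τ) := by
  have e : ((g * w⁻¹ : SL2) : M2) = (g : M2) * !![d, -b; -c, a] := by
    rw [Matrix.SpecialLinearGroup.coe_mul, Matrix.SpecialLinearGroup.coe_inv, hw,
      Matrix.adjugate_fin_two_of]
  have := hi (g * w⁻¹) ?_ ?_ (w • τ)
  · rwa [mul_smul, inv_smul_smul] at this
  · rw [e, Matrix.mul_apply, Fin.sum_univ_two]
    simpa [sub_eq_neg_add] using h1
  · rw [e, Matrix.mul_apply, Fin.sum_univ_two]
    simpa [sub_eq_add_neg] using h2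

lemma tl : ((tm * lm : SL2) : M2) = !![26, 5; 5, 1] := by
  rw [Matrix.SpecialLinearGroup.coe_mul]
  simp [tm, lm]

lemma lt : ((lm * tm : SL2) : M2) = !![1, 5; 5, 26] := by
  rw [Matrix.SpecialLinearGroup.coe_mul]
  simp [tm, lm]

lemma tlt : ((tm * lm * tm : SL2) : M2) = !![26, 135; 5, 26] := by
  rw [Matrix.SpecialLinearGroup.coe_mul, tl]
  simp [tm]

lemma even (hi : ∀ g : SL2, 10 ∣ (g : M2) 0 1 → 10 ∣ (g : M2) 1 0 → ∀ τ, φ (g • τ) = φ τ)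
    (ht : ∀ τ, φ (tm • τ) = -φ τ) (hl : ∀ τ, φ (lm • τ) = -φ τ) {g : SL2} (hg : g ∈ Gam 5)
    (h : Odd (g : M2).trace) (τ : ℍ) : φ (g • τ) = φ τ := by
  obtain ⟨h1, h2⟩ := B3.odd_off (det_SL g) h
  obtain ⟨h3, h4, h5, h6⟩ := B3.gam5 hg
  rw [B3.tr2] at h
  rw [Int.odd_iff] at h h1 h2
  rcases Int.emod_two_eq_zero_or_one ((g : M2) 0 0) with h0 | h0
  · rw [step hi g _ tl (by omega) (by omega), mul_smul, ht, hl, neg_neg]
  · rw [step hi g _ lt (by omega) (by omega), mul_smul, hl, ht, neg_neg]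

lemma odd (hi : ∀ g : SL2, 10 ∣ (g : M2) 0 1 → 10 ∣ (g : M2) 1 0 → ∀ τ, φ (g • τ) = φ τ)
    (ht : ∀ τ, φ (tm • τ) = -φ τ) (hl : ∀ τ, φ (lm • τ) = -φ τ) {g : SL2} (hg : g ∈ Gam 5)
    (h : Even (g : M2).trace) (h' : ¬(2 ∣ (g : M2) 0 1 ∧ 2 ∣ (g : M2) 1 0)) (τ : ℍ) :
    φ (g • τ) = -φ τ := by
  obtain ⟨h3, h4, h5, h6⟩ := B3.gam5 hg
  have hd := congrArg (· % 2) (det_SL g)
  rw [B3.tr2, Int.even_iff] at h
  simp only [Matrix.det_fin_two] at hd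
  rw [Int.sub_emod, Int.mul_emod, Int.mul_emod ((g : M2) 0 1)] at hd
  rcases Int.emod_two_eq_zero_or_one ((g : M2) 0 0) with h0 | h0 <;>
    rcases Int.emod_two_eq_zero_or_one ((g : M2) 0 1) with h1 | h1 <;>
    rcases Int.emod_two_eq_zero_or_one ((g : M2) 1 0) with h2 | h2 <;>
    rcases Int.emod_two_eq_zero_or_one ((g : M2) 1 1) with h7 | h7 <;>
    rw [h0, h1, h2, h7] at hd <;>
    first
    | omega
    | rw [step hi g tm rfl (by omega) (by omega), ht]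
    | rw [step hi g lm rfl (by omega) (by omega), hl]
    | rw [step hi g _ tlt (by omega) (by omega), mul_smul, mul_smul, ht, hl, ht, neg_neg]

end LawM

theorem law (hP : PT) : LawStmt := by
  intro ι V _ β hV
  have hi : ∀ Q, ∀ g : SL2, 10 ∣ (g : M2) 0 1 → 10 ∣ (g : M2) 1 0 → ∀ τ,
      β (U1 ι (g • τ)) Q = β (U1 ι τ) Q := fun Q g h1 h2 τ => by rw [hP.inv1 ι g h1 h2]
  have ht : ∀ Q τ, β (U1 ι (LawM.tm • τ)) Q = -β (U1 ι τ) Q := fun Q τ => by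
    rw [← mob_SL]
    change β (U1 ι (mob !![1, 5; 0, 1] τ)) Q = _
    rw [hP.up, map_neg, AddMonoidHom.neg_apply]
  have hl : ∀ Q τ, β (U1 ι (LawM.lm • τ)) Q = -β (U1 ι τ) Q := fun Q τ => by
    rw [← mob_SL]
    change β (U1 ι (mob !![1, 0; 5, 1] τ)) Q = _
    have := congrArg (fun P => β P Q) (hP.low ι τ)
    simp only [map_nsmul, map_add, map_zero, AddMonoidHom.nsmul_apply, AddMonoidHom.add_apply,
      AddMonoidHom.zero_apply] at this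
    exact eq_neg_of_add_eq_zero_left (hV 3 _ (by norm_num) (by exact_mod_cast this))
  have g10 : ∀ g ∈ Gam 10, 10 ∣ (g : M2) 0 1 ∧ 10 ∣ (g : M2) 1 0 := fun g hg => by
    rw [CongruenceSubgroup.Gamma_mem] at hg
    exact ⟨(ZMod.intCast_zmod_eq_zero_iff_dvd _ 10).mp hg.2.1,
      (ZMod.intCast_zmod_eq_zero_iff_dvd _ 10).mp hg.2.2.1⟩
  refine ⟨hV, fun g1 h1 g2 h2 τ σ => ?_, fun g hg h τ σ => ?_, fun g hg h h' τ σ => ?_,
    fun g hg h τ σ => ?_, fun g hg h τ σ => ?_, fun ω h1 h2 h3 h4 h5 τ σ => ?_⟩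
  · have := (g10 g2 h2).1
    rw [hP.inv1 ι g1 (g10 g1 h1).1 (g10 g1 h1).2, hP.inv2 ι g2 (by omega) (g10 g2 h2).2]
  · exact LawM.even (φ := fun τ => β (U1 ι τ) (U2 ι σ)) (hi _) (ht _) (hl _) hg h τ
  · exact LawM.odd (φ := fun τ => β (U1 ι τ) (U2 ι σ)) (hi _) (ht _) (hl _) hg h h' τ
  · rw [← map_add, ← map_add, hP.tr3 ι g hg h, map_zero]
  · obtain ⟨-, h4, h5, -⟩ := B3.gam5 hg
    rw [hP.inv2 ι g h4 (by omega)]
  · rw [hP.w2 ι ω h1 h2 h3 h4 h5]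

end Pool.Agent.MP_9207e0_ag.e3
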