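import Pool.Agent.MP_9207e0_ag.e3.SpecC

/-! Module MW: the group of points over the quadratic field. -/

set_option linter.unusedSectionVars false
set_option linter.unusedVariables false

namespace Pool.Agent.MP_9207e0_ag.e3

open NumberField IsDedekindDomain
open Pool.Agent.MP_a43263_nt (Pt ptMap ac WW GQ Tr)
open scoped Classical

theorem mw_lg (hK : OK) (hC : CUBE) {a b : ℚ} {p n : ℕ} {m t : ℤ} {K : Type} [Field K]
    [NumberField K] {lam : 𝓞 K} (hcv : Cv a b p) (hq : QF n m t K lam)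
    (v : HeightOneSpectrum (𝓞 K)) (hv : (p : 𝓞 K) ∈ v.asIdeal) :
    lg v (b : K) = if p = 2 then -2 else -1 := by
  rcases hcv with ⟨-, rfl, rfl⟩ | ⟨-, rfl, rfl⟩
  · have h := hK.val hq 2 (Or.inl rfl) v hv
    have e : ((4 : ℚ) : K) = ((2 : ℕ) : K) ^ 2 := by push_cast; norm_num
    rw [e, hC.pow, h]
    norm_num
  · have h := hK.val hq 5 (Or.inr rfl) v hv
    have e : ((5 : ℚ) : K) = ((5 : ℕ) : K) := by push_cast; norm_num
    rw [e, h]
    norm_num

theorem mw (hG : GdStmt) (hK : OK) (hC : CUBE) (h1 : Desc1Stmt) (h2 : Desc2Stmt) (hU : UnrStmt)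
    (h9 : H94Stmt) (hR : RamStmt) (hk : RankStmt) : MwStmt := by
  intro a b p n m t K _ lam v v' hcv hq hcl hv hl hv' hl'
  have hb : b ≠ 0 := by rcases hcv with ⟨-, rfl, -⟩ | ⟨-, rfl, -⟩ <;> norm_num
  have hc : a ^ 3 - b ≠ 0 := by rcases hcv with ⟨rfl, rfl, -⟩ | ⟨rfl, rfl, -⟩ <;> norm_num
  have G := hG a b K hb hc
  obtain ⟨φ, hφ, hker⟩ := h1 a b p n m t K lam v v' hcv hq hcl hv hl hv' hl'
  have hno : NoCub K (3 * a) b := by
    refine hU K (3 * a) b ?_ (hK.res hq) ?_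
    · rcases hcv with ⟨rfl, rfl, -⟩ | ⟨rfl, rfl, -⟩
      · left; norm_num
      · right; norm_num
    · intro L _ _ _ _ hL
      obtain ⟨w, hw⟩ := h9 K L hL (hK.units hq) hcl
      exact ⟨w, hR K L hL w hw⟩
  have h3 : ∀ P, φ P = 0 → ∃ Z, P = 3 • Z := fun P hP => h2 a b K G hno P (hker P hP)
  obtain ⟨T, hT⟩ : ∃ T, inK a b K T = pw a b 0 0 := by
    refine (G.range _).2 fun x y h e => ?_
    have hns : ((WW a b).baseChange Qbar).toAffine.Nonsingular 0 0 := (G.ns 0 0).2 (by simp)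
    rw [pw, dif_pos hns] at e
    injection e with e1 e2
    subst e1 e2
    exact ⟨K.zero_mem, K.zero_mem⟩
  have hbK : (b : K) ≠ 0 := by exact_mod_cast hb
  have hφT : φ T = ((lg v (b : K) : ZMod 3), (lg v' (b : K) : ZMod 3)) := by
    refine hφ T (b : K) hbK ?_
    rw [hT]
    have e : ((b : K) : Qbar) = (b : Qbar) := by simp
    rw [e]
    exact G.tee
  rw [mw_lg hK hC hcv hq v hv, mw_lg hK hC hcv hq v' hv'] at hφT
  have hT3 : 3 • T = 0 := G.inj (by rw [map_nsmul, hT, G.three, map_zero])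
  have hell : ((WW a b).baseChange K).IsElliptic :=
    ⟨(Pool.Agent.MP_a43263_nt.isW hb hc K).delta.isUnit⟩
  have hfg : AddGroup.FG (Pt (WW a b) K) := by
    refine Pool.Agent.MP_a43263_nt.fg_of_three
      (Set.range fun z : ZMod 3 × ZMod 3 => if h : ∃ P, φ P = z then h.choose else 0)
      (Set.finite_range _) fun Q => ?_
    have hQ : ∃ P, φ P = φ Q := ⟨Q, rfl⟩
    refine ⟨hQ.choose, ⟨φ Q, by simp only [dif_pos hQ]⟩, ?_⟩
    obtain ⟨Z, hZ⟩ := h3 (Q - hQ.choose) (by rw [map_sub, hQ.choose_spec, sub_self])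
    exact ⟨Z, by rw [← hZ]; abel⟩
  have htors : ∀ S : Pt (WW a b) K, 3 • S = 0 → S = 0 ∨ S = T ∨ S = -T := by
    intro S hS
    rcases G.tors (hK.now hq) S hS with h | h | h
    · exact Or.inl (G.inj (by rw [h, map_zero]))
    · exact Or.inr (Or.inl (G.inj (by rw [h, hT])))
    · exact Or.inr (Or.inr (G.inj (by rw [h, map_neg, hT])))
  have hne : φ T ≠ 0 := by
    rw [hφT]
    intro h
    have := congrArg Prod.fst h
    split_ifs at this <;> revert this <;> decide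
  have hfin : IsOfFinAddOrder T := isOfFinAddOrder_iff_nsmul_eq_zero.2 ⟨3, by norm_num, hT3⟩
  obtain ⟨r1, r2⟩ := hk _ φ T hfg h3 htors hne (by rw [hφT]) hfin
  refine ⟨(AddMonoidHom.fst (ZMod 3) (ZMod 3)).comp φ - (AddMonoidHom.snd (ZMod 3) (ZMod 3)).comp φ,
    fun P β hβ hP => ?_,
    fun P hP => ?_, fun ⟨P, hP⟩ => r2 ⟨P, fun h => hP ?_⟩⟩
  · simp [hφ P β hβ hP]
  · simp [r1 P hP]
  · simp [h]

end Pool.Agent.MP_9207e0_ag.e3
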