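import Pool.Agent.MP_9207e0_ag.e3.SpecC

/-! Units and the primes above two and five of the quadratic field. -/

set_option linter.unusedSectionVars false
set_option linter.unusedVariables false

namespace Pool.Agent.MP_9207e0_ag.e3

open NumberField IsDedekindDomain
open scoped Classical

namespace Ok

variable {n : ℕ} {m t : ℤ} {K : Type} [Field K] [NumberField K] {lam : 𝓞 K}

theorem conj (h : QF n m t K lam) : QF n m t K (t - lam) := by
  refine ⟨h.dat, by linear_combination h.eq, fun z => ?_⟩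
  obtain ⟨a, b, rfl⟩ := h.basis z
  exact ⟨a + b * t, -b, by push_cast; ring⟩

theorem four (h : QF n m t K lam) (a b : ℤ) :
    4 * (a ^ 2 + a * b * t + b ^ 2 * m) = (2 * a + b * t) ^ 2 + n * b ^ 2 := by
  linear_combination (-b ^ 2) * h.dat.disc

theorem indep (h : QF n m t K lam) (a b : ℤ) (h0 : (a : 𝓞 K) + b * lam = 0) : a = 0 ∧ b = 0 := by
  have h1 : ((a ^ 2 + a * b * t + b ^ 2 * m : ℤ) : 𝓞 K) = 0 := by
    push_cast
    linear_combination ((a : 𝓞 K) + b * (t - lam)) * h0 + (b : 𝓞 K) ^ 2 * h.eq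
  have h2 : a ^ 2 + a * b * t + b ^ 2 * m = 0 := by exact_mod_cast h1
  have h3 := four h a b
  have hn : (7 : ℤ) ≤ n := by exact_mod_cast h.dat.big
  have hb : b = 0 := by
    by_contra hb
    have : 0 < b ^ 2 := by positivity
    nlinarith [sq_nonneg (2 * a + b * t)]
  subst hb
  exact ⟨by simpa using h2, rfl⟩

theorem im (h : QF n m t K lam) (κ : K →+* ℂ) : (κ (lam : K)).im ≠ 0 := by
  intro h0
  have h1 : κ (lam : K) ^ 2 - t * κ (lam : K) + m = 0 := by
    have := congrArg (fun z : 𝓞 K => κ (algebraMap (𝓞 K) K z)) h.eq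
    simpa using this
  have h2 := congrArg Complex.re h1
  simp only [pow_two, Complex.add_re, Complex.sub_re, Complex.mul_re, h0, Complex.intCast_re,
    Complex.intCast_im, Complex.zero_re] at h2
  have h3 : (t : ℝ) ^ 2 - 4 * m = -n := by exact_mod_cast h.dat.disc
  have hn : (7 : ℝ) ≤ n := by exact_mod_cast h.dat.big
  nlinarith [sq_nonneg (2 * (κ (lam : K)).re - t)]

theorem unit' (h : QF n m t K lam) {x y : 𝓞 K} (hxy : x * y = 1) : x = 1 ∨ x = -1 := by
  obtain ⟨a, b, rfl⟩ := h.basis x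
  obtain ⟨c, d, rfl⟩ := h.basis y
  obtain ⟨e1, e2⟩ := indep h (a * c - b * d * m - 1) (a * d + b * c + b * d * t) (by
    push_cast
    linear_combination hxy - (b : 𝓞 K) * d * h.eq)
  have e3 : (a ^ 2 + a * b * t + b ^ 2 * m) * (c ^ 2 + c * d * t + d ^ 2 * m) = 1 := by
    linear_combination (a * c - b * d * m + 1 + (a * d + b * c + b * d * t) * t) * e1 +
      (t + (a * d + b * c + b * d * t) * m) * e2
  have h3 := four h a b
  have hn : (7 : ℤ) ≤ n := by exact_mod_cast h.dat.big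
  have e4 : a ^ 2 + a * b * t + b ^ 2 * m = 1 :=
    Int.eq_one_of_mul_eq_one_right
      (by nlinarith [sq_nonneg (2 * a + b * t), sq_nonneg b]) e3
  have hb : b = 0 := by
    by_contra hb
    have : 0 < b ^ 2 := by positivity
    nlinarith [sq_nonneg (2 * a + b * t)]
  subst hb
  have e5 : a ^ 2 = 1 := by simpa using e4
  rcases sq_eq_one_iff.1 e5 with h1 | h1 <;> simp [h1]

theorem units (h : QF n m t K lam) (u : (𝓞 K)ˣ) : u = 1 ∨ u = -1 := by
  rcases unit' h u.mul_inv with h1 | h1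
  · exact Or.inl (Units.ext h1)
  · exact Or.inr (Units.ext h1)

theorem now (h : QF n m t K lam) (w : K) : w ^ 2 + w + 1 ≠ 0 := by
  intro hw
  have hi : IsIntegral ℤ w := by
    refine IsIntegral.of_pow (n := 3) (by norm_num) ?_
    rw [show w ^ 3 = 1 by linear_combination (w - 1) * hw]
    exact isIntegral_one
  let x : 𝓞 K := ⟨w, hi⟩
  have hx : x ^ 2 + x + 1 = 0 := by
    apply RingOfIntegers.coe_injective
    rw [map_add, map_add, map_pow, map_one, map_zero]
    exact hw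
  rcases unit' h (x := x) (y := -x - 1) (by linear_combination -hx) with h1 | h1
  · rw [h1] at hx; norm_num at hx
  · rw [h1] at hx; norm_num at hx

theorem exists_hom (h : QF n m t K lam) (q : ℕ) (hq : (q : ℤ) ∣ m) :
    ∃ φ : 𝓞 K →+* ZMod q, φ lam = 0 := by
  choose A B hAB using h.basis
  have key : ∀ (z : 𝓞 K) (a b : ℤ), z = a + b * lam → A z = a := fun z a b hz =>
    sub_eq_zero.1 (indep h (A z - a) (B z - b) (by
      push_cast
      linear_combination hz - hAB z)).1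
  have hm : (m : ZMod q) = 0 := (ZMod.intCast_zmod_eq_zero_iff_dvd m q).2 hq
  refine ⟨{ toFun := fun z => (A z : ZMod q)
            map_one' := by rw [key 1 1 0 (by simp)]; simp
            map_mul' := fun x y => ?_
            map_zero' := by rw [key 0 0 0 (by simp)]; simp
            map_add' := fun x y => ?_ }, ?_⟩
  · rw [key (x * y) (A x * A y - B x * B y * m) (A x * B y + B x * A y + B x * B y * t) (by
      push_cast
      linear_combination y * hAB x + ((A x : 𝓞 K) + B x * lam) * hAB y +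
        (B x : 𝓞 K) * B y * h.eq)]
    push_cast
    rw [hm]; ring
  · rw [key (x + y) (A x + A y) (B x + B y) (by
      push_cast
      linear_combination hAB x + hAB y)]
    push_cast
    rfl
  · show (A lam : ZMod q) = 0
    rw [key lam 0 1 (by simp)]; simp

theorem facts (h : QF n m t K lam) {p : ℕ} (hp : p = 2 ∨ p = 5) :
    p.Prime ∧ ((p ^ 2 : ℕ) : ℤ) ∣ m ∧ (p : ℤ) ∣ m ∧ IsCoprime t p := by
  rcases hp with rfl | rfl
  · exact ⟨by norm_num, dvd_trans (by norm_num) h.dat.dvd, dvd_trans (by norm_num) h.dat.dvd,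
      h.dat.cop.of_isCoprime_of_dvd_right (by norm_num)⟩
  · exact ⟨by norm_num, dvd_trans (by norm_num) h.dat.dvd, dvd_trans (by norm_num) h.dat.dvd,
      h.dat.cop.of_isCoprime_of_dvd_right (by norm_num)⟩

theorem not_cop {p : ℕ} (v : HeightOneSpectrum (𝓞 K)) (hv : (p : 𝓞 K) ∈ v.asIdeal) {a : ℤ}
    (ha : (a : 𝓞 K) ∈ v.asIdeal) : ¬ IsCoprime a p := by
  rintro ⟨x, y, hxy⟩
  refine v.isPrime.ne_top ((Ideal.eq_top_iff_one _).2 ?_)
  have : (1 : 𝓞 K) = x * a + y * p := by exact_mod_cast congrArg (Int.cast : ℤ → 𝓞 K) hxy.symm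
  rw [this]
  exact add_mem (Ideal.mul_mem_left _ _ ha) (Ideal.mul_mem_left _ _ hv)

theorem mem_iff {p : ℕ} (hp : p.Prime) (v : HeightOneSpectrum (𝓞 K))
    (hv : (p : 𝓞 K) ∈ v.asIdeal) (hl : lam ∈ v.asIdeal) (a b : ℤ) :
    (a : 𝓞 K) + b * lam ∈ v.asIdeal ↔ (p : ℤ) ∣ a := by
  rw [Ideal.add_mem_iff_left _ (Ideal.mul_mem_left _ _ hl)]
  constructor
  · intro ha
    by_contra hd
    exact not_cop v hv ha (((Nat.prime_iff_prime_int.1 hp).irreducible.coprime_iff_not_dvd.2 hd).symm)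
  · rintro ⟨c, rfl⟩
    push_cast
    exact Ideal.mul_mem_right _ _ hv

theorem prime (h : QF n m t K lam) (p : ℕ) (hp : p = 2 ∨ p = 5) :
    ∃ v : HeightOneSpectrum (𝓞 K), (p : 𝓞 K) ∈ v.asIdeal ∧ lam ∈ v.asIdeal := by
  obtain ⟨h1, -, h3, -⟩ := facts h hp
  have := Fact.mk h1
  obtain ⟨φ, hφ⟩ := exists_hom h p h3
  have hm : (p : 𝓞 K) ∈ RingHom.ker φ := by simp [RingHom.mem_ker]
  refine ⟨⟨RingHom.ker φ, RingHom.ker_isPrime φ, fun h0 => ?_⟩, hm, hφ⟩
  rw [h0, Ideal.mem_bot] at hm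
  exact h1.ne_zero (by exact_mod_cast hm)

theorem uniq (h : QF n m t K lam) (p : ℕ) (hp : p = 2 ∨ p = 5)
    (v v' : HeightOneSpectrum (𝓞 K)) (h1 : (p : 𝓞 K) ∈ v.asIdeal) (h2 : lam ∈ v.asIdeal)
    (h3 : (p : 𝓞 K) ∈ v'.asIdeal) (h4 : lam ∈ v'.asIdeal) : v = v' := by
  ext z
  obtain ⟨a, b, rfl⟩ := h.basis z
  rw [mem_iff (facts h hp).1 v h1 h2, mem_iff (facts h hp).1 v' h3 h4]

theorem either (h : QF n m t K lam) {p : ℕ} (hp : p = 2 ∨ p = 5) (v : HeightOneSpectrum (𝓞 K))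
    (hv : (p : 𝓞 K) ∈ v.asIdeal) : lam ∈ v.asIdeal ∨ t - lam ∈ v.asIdeal := by
  obtain ⟨c, hc⟩ := (facts h hp).2.2.1
  refine v.isPrime.mem_or_mem ?_
  have e : lam * (t - lam) = p * c := by
    have : (m : 𝓞 K) = p * c := by rw [hc]; push_cast; rfl
    linear_combination this - h.eq
  rw [e]
  exact Ideal.mul_mem_right _ _ hv

theorem dich (h : QF n m t K lam) (p : ℕ) (hp : p = 2 ∨ p = 5) (v : HeightOneSpectrum (𝓞 K))
    (hv : (p : 𝓞 K) ∈ v.asIdeal) : lam ∈ v.asIdeal ↔ t - lam ∉ v.asIdeal := by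
  refine ⟨fun h1 h2 => not_cop v hv ?_ (facts h hp).2.2.2,
    fun h2 => (either h hp v hv).resolve_right h2⟩
  simpa using add_mem h2 h1

theorem val' (h : QF n m t K lam) {p : ℕ} (hp : p = 2 ∨ p = 5) (v : HeightOneSpectrum (𝓞 K))
    (hv : (p : 𝓞 K) ∈ v.asIdeal) (hl : lam ∈ v.asIdeal) : lg v (p : K) = -1 := by
  obtain ⟨h1, h2, -, -⟩ := facts h hp
  obtain ⟨φ, hφ⟩ := exists_hom h (p ^ 2) h2
  have hk : v.asIdeal ^ 2 ≤ RingHom.ker φ := by
    rw [pow_two, Ideal.mul_le]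
    intro x hx y hy
    obtain ⟨a, b, rfl⟩ := h.basis x
    obtain ⟨c, d, rfl⟩ := h.basis y
    obtain ⟨a, rfl⟩ := (mem_iff h1 v hv hl _ _).1 hx
    obtain ⟨c, rfl⟩ := (mem_iff h1 v hv hl _ _).1 hy
    have h0 : (p : ZMod (p ^ 2)) ^ 2 = 0 := by exact_mod_cast ZMod.natCast_self (p ^ 2)
    rw [RingHom.mem_ker]
    simp only [map_mul, map_add, map_intCast, hφ]
    push_cast
    linear_combination (a : ZMod (p ^ 2)) * c * h0
  have hn : (p : 𝓞 K) ∉ v.asIdeal ^ 2 := fun h0 => by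
    have := hk h0
    rw [RingHom.mem_ker, map_natCast, ZMod.natCast_eq_zero_iff] at this
    have h3 := Nat.le_of_dvd h1.pos this
    nlinarith [h1.two_le]
  have hp0 : (p : 𝓞 K) ≠ 0 := by exact_mod_cast h1.ne_zero
  have h0 := v.intValuation_ne_zero _ hp0
  have e : v.valuation K (p : K) = v.intValuation (p : 𝓞 K) := by
    rw [← v.valuation_of_algebraMap (K := K)]
    simp
  rw [← v.intValuation_le_pow_iff_mem, ← WithZero.log_le_iff_le_exp h0] at hn
  rw [← pow_one v.asIdeal, ← v.intValuation_le_pow_iff_mem, ← WithZero.log_le_iff_le_exp h0] at hv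
  rw [lg, e]
  push_cast at hn hv
  omega

theorem val (h : QF n m t K lam) (p : ℕ) (hp : p = 2 ∨ p = 5) (v : HeightOneSpectrum (𝓞 K))
    (hv : (p : 𝓞 K) ∈ v.asIdeal) : lg v (p : K) = -1 :=
  (either h hp v hv).elim (val' h hp v hv) (val' (conj h) hp v hv)

theorem res (h : QF n m t K lam) : Res K := by
  intro p hp v hv c
  rcases either h hp v hv with h1 | h1
  · obtain ⟨a, b, rfl⟩ := h.basis c
    exact ⟨a, by simpa using Ideal.mul_mem_left _ (b : 𝓞 K) h1⟩
  · obtain ⟨a, b, rfl⟩ := (conj h).basis c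
    exact ⟨a, by simpa using Ideal.mul_mem_left _ (b : 𝓞 K) h1⟩

end Ok

theorem ok : OK :=
  ⟨Ok.conj, Ok.indep, Ok.im, Ok.units, Ok.now, Ok.prime, Ok.uniq, Ok.dich, Ok.val, Ok.res⟩

end Pool.Agent.MP_9207e0_ag.e3
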