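import Pool.Agent.MP_9207e0_ag.e3.SpecC

/-! The product of the values of an eta quotient over the Heegner points. -/

set_option linter.unusedSectionVars false
set_option linter.unusedVariables false

namespace Pool.Agent.MP_9207e0_ag.e3

open UpperHalfPlane Complex Filter Asymptotics Matrix Pool.Agent.MP_9207e0_ag.hg
open NumberField IsDedekindDomain
open Pool.Agent.MP_a43263_nt (Pt ptMap ac WW GQ Tr)
open scoped Real MatrixGroups Manifold Classical Kronecker

namespace ProdA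

section Val

variable {K Γ : Type} [Field K] [LinearOrderedCommGroupWithZero Γ] (w : Valuation K Γ)

lemma comb (hz : ∀ k : ℤ, w k ≤ 1) (p q : ℤ) (u u' : K) :
    w (p * u + q * u') ≤ max (w u) (w u') := by
  refine (w.map_add _ _).trans (max_le_max ?_ ?_) <;> rw [map_mul]
  · exact mul_le_of_le_one_left' (hz p)
  · exact mul_le_of_le_one_left' (hz q)

lemma key (hz : ∀ k : ℤ, w k ≤ 1) {a b c e : ℤ} (h : a * e - b * c = 1) {y M x : K}
    (h1 : y = a * x + b) (h2 : M = c * x + e) : max (w y) (w M) = max (w x) 1 := by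
  have h' : (a : K) * e - b * c = 1 := by exact_mod_cast congrArg (Int.cast : ℤ → K) h
  refine le_antisymm (max_le ?_ ?_) (max_le ?_ ?_)
  · have := comb w hz a b x 1
    rwa [mul_one, map_one, ← h1] at this
  · have := comb w hz c e x 1
    rwa [mul_one, map_one, ← h2] at this
  · have := comb w hz e (-b) y M
    rwa [show (e : K) * y + ((-b : ℤ) : K) * M = x by
      rw [h1, h2]; push_cast; linear_combination x * h'] at this
  · have := comb w hz (-c) a y M
    rwa [show ((-c : ℤ) : K) * y + (a : K) * M = 1 by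
      rw [h1, h2]; push_cast; linear_combination h', map_one] at this

end Val

variable {n : ℕ} {m t e : ℤ}

lemma hf_wd (hH : HB) (hD : Dat n m t) {W : M2} {τ : ℍ} (h : HF m t e W τ) {d c : ℤ} (hd : 0 < d)
    (hc : W 1 0 = d * c) : HF m t e !![W 0 0, d * W 0 1; c, W 1 1] (mob (dg d 1) τ) := by
  obtain ⟨h1, h2, h3, h4⟩ := h
  have hm := hH.pos hD
  have e2 : (!![W 0 0, d * W 0 1; c, W 1 1] : M2).det = m := by
    rw [Matrix.det_fin_two, hc] at h2
    rw [Matrix.det_fin_two_of]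
    linear_combination h2
  refine ⟨by rw [← h1]; simp [Matrix.trace_fin_two], e2, ?_, ?_⟩
  · rw [mob_fix_iff (by omega), hc] at h3
    rw [mob_fix_iff (by omega), coe_mob_dg (by omega)]
    simp only [Matrix.of_apply, Matrix.cons_val', Matrix.cons_val_zero, Matrix.cons_val_one,
      Matrix.cons_val_fin_one]
    push_cast at h3 ⊢
    linear_combination (d : ℂ) * h3
  · rw [hc, mul_left_comm] at h4
    simpa using (mul_pos_iff_of_pos_left hd).mp h4

lemma exf (hH : HB) (hD : Dat n m t) {R : Finset ℍ} (hR : IsRep rel0 {τ | HS m t e τ} R)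
    {W : M2} {τ : ℍ} (h : HF m t e W τ) : ∃ σ ∈ R, ∃ γ : SL2, τ = γ • σ := by
  obtain ⟨g, γ, hg⟩ := hH.lift hD h
  obtain ⟨σ, ⟨s1, k, -, s2⟩, -⟩ := hR.2 (g • τ) ⟨_, hg, by
    simpa [dg, Matrix.mul_apply, Fin.sum_univ_two] using hD.dvd.mul_left _, by
    simpa [dg, Matrix.mul_apply, Fin.sum_univ_two] using hD.dvd.mul_left _⟩
  exact ⟨σ, s1, (k * g)⁻¹, by rw [← s2, ← mul_smul k, inv_smul_smul]⟩

lemma inj (hH : HB) (hD : Dat n m t) {d : ℤ} (hd : 0 < d) (hd' : d ∣ 100) {τ τ' : ℍ}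
    (h : HS m t e τ) (h' : HS m t e τ') (g : SL2) (hg : g • mob (dg d 1) τ = mob (dg d 1) τ') :
    rel0 τ τ' := by
  obtain ⟨W, w1, w2, w3⟩ := h
  obtain ⟨W', w1', w2', w3'⟩ := h'
  obtain ⟨c, hc⟩ := hd'.trans w3
  obtain ⟨c', hc'⟩ := hd'.trans w3'
  have a1 := hH.conj g hD (hf_wd hH hD w1 hd hc)
  rw [hg] at a1
  have a2 := hH.uniq hD a1 (hf_wd hH hD w1' hd hc')
  have a3 : (g : M2) * !![W 0 0, d * W 0 1; c, W 1 1] = !![W' 0 0, d * W' 0 1; c', W' 1 1] * g := by
    rw [← a2, Matrix.mul_assoc, ← Matrix.SpecialLinearGroup.coe_mul, inv_mul_cancel,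
      Matrix.SpecialLinearGroup.coe_one, Matrix.mul_one]
  have a4 := congrFun (congrFun a3 0) 1
  simp only [Matrix.mul_apply, Fin.sum_univ_two, Matrix.of_apply, Matrix.cons_val',
    Matrix.cons_val_zero, Matrix.cons_val_one, Matrix.cons_val_fin_one] at a4
  have a5 := w1.1
  rw [Matrix.trace_fin_two] at a5
  obtain ⟨u, hu⟩ := hd'.trans w2
  obtain ⟨u', hu'⟩ := hd'.trans w2'
  have a6 : d ∣ (g : M2) 0 1 * t := ⟨(g : M2) 0 1 * (u + u') + W' 0 1 * (g : M2) 1 1 -
    (g : M2) 0 0 * W 0 1, by rw [← a5]; linear_combination a4 + (g : M2) 0 1 * (hu + hu')⟩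
  have a7 : IsCoprime d t :=
    (IsCoprime.of_isCoprime_of_dvd_right (hD.cop.pow_right (n := 2)) (by simpa using hd')).symm
  obtain ⟨b, hb⟩ := a7.dvd_of_dvd_mul_right a6
  have hdet := det_SL g
  rw [Matrix.det_fin_two, hb] at hdet
  let g' : SL2 := ⟨!![(g : M2) 0 0, b; d * (g : M2) 1 0, (g : M2) 1 1], by
    rw [Matrix.det_fin_two_of]; linear_combination hdet⟩
  have hp : 0 < (dg d 1).det := by rw [det_dg]; omega
  have a8 : dg d 1 * (g' : M2) = g * dg d 1 := by
    ext i k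
    fin_cases i <;> fin_cases k <;> simp [g', dg, Matrix.mul_apply, Fin.sum_univ_two, hb, mul_comm]
  have a9 : g' • τ = τ' := by
    apply mob_injective hp
    rw [← hg, ← mob_SL, ← mob_SL, ← mob_mul hp (det_SL_pos g'), a8, mob_mul (det_SL_pos g) hp]
  exact ⟨g', hH.lemI g' hD ⟨W, w1, w2, w3⟩ (a9 ▸ ⟨W', w1', w2', w3'⟩), a9⟩

variable {K : Type} [Field K] [NumberField K] {lam : 𝓞 K}

lemma int_le (v : HeightOneSpectrum (𝓞 K)) (k : ℤ) : v.valuation K k ≤ 1 := by
  have := v.valuation_le_one (K := K) (k : 𝓞 K)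
  change v.valuation K (algebraMap (𝓞 K) K (k : 𝓞 K)) ≤ 1 at this
  rwa [map_intCast] at this

/-- The Heegner point as an element of the field. -/
lemma exx (hH : HB) (hQ : QF n m t K lam) (κ : K →+* ℂ) (hs : 0 < e * (κ (lam : K)).im) {τ : ℍ}
    (h : HS m t e τ) : ∃ x : K, κ x = τ ∧ ∀ p : ℕ, p = 2 ∨ p = 5 →
      ∀ v : HeightOneSpectrum (𝓞 K), (p : 𝓞 K) ∈ v.asIdeal →
        (lam ∉ v.asIdeal → v.valuation K x ≤ 1) ∧
        (lam ∈ v.asIdeal → ∀ d : ℕ, d ∣ 100 → 1 ≤ v.valuation K (d * x)) := by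
  obtain ⟨W, w1, w2, w3⟩ := h
  have q1 : (lam : K) ^ 2 - t * lam + m = 0 := by
    have := congrArg (algebraMap (𝓞 K) K) hQ.eq
    simpa using this
  have q2 := hH.eig (κ (lam : K)) hQ.dat w1 (by
    have := congrArg κ q1
    simpa using this) hs
  have n0 : W 1 0 ≠ 0 := fun h0 => by have := w1.2.2.2; simp [h0] at this
  have n1 : (W 1 0 : K) ≠ 0 := by exact_mod_cast n0
  have n2 : (W 1 0 : ℂ) ≠ 0 := by exact_mod_cast n0
  have tr := w1.1
  have dt := w1.2.1
  rw [Matrix.trace_fin_two] at tr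
  rw [Matrix.det_fin_two] at dt
  refine ⟨((lam : K) - W 1 1) / W 1 0, ?_, fun p hp v hv => ?_⟩
  · rw [map_div₀, map_sub, map_intCast, map_intCast, ← q2]
    field_simp
    ring
  have p10 : (p : ℤ) ∣ 10 := by rcases hp with rfl | rfl <;> norm_num
  have mem : ∀ k : ℤ, 10 ∣ k → (k : 𝓞 K) ∈ v.asIdeal := fun k hk => by
    obtain ⟨l, rfl⟩ := p10.trans hk
    push_cast
    exact v.asIdeal.mul_mem_right _ hv
  have m0 : ((W 0 0 : ℤ) : 𝓞 K) ∈ v.asIdeal := mem _ ((by norm_num : (10 : ℤ) ∣ 100).trans w2)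
  have unit : ∀ k : ℤ, lam - k ∉ v.asIdeal → v.valuation K ((lam : K) - k) = 1 := fun k hk => by
    have := (v.valuation_eq_one_iff_notMem (K := K)).mpr hk
    rwa [map_sub, map_intCast] at this
  refine ⟨fun hl => ?_, fun hl d hd => ?_⟩
  · have u0 := unit (W 0 0) fun h0 => hl (by simpa using v.asIdeal.add_mem h0 m0)
    have e1 : ((lam : K) - W 1 1) / W 1 0 * (lam - W 0 0) = W 0 1 := by
      have tr' : (W 0 0 : K) + W 1 1 = t := by exact_mod_cast congrArg (Int.cast : ℤ → K) tr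
      have dt' : (W 0 0 : K) * W 1 1 - W 0 1 * W 1 0 = m := by
        exact_mod_cast congrArg (Int.cast : ℤ → K) dt
      field_simp
      linear_combination q1 + dt' - (lam : K) * tr'
    have := int_le v (W 0 1)
    rwa [← e1, map_mul, u0, mul_one] at this
  · have u1 := unit (W 1 1) fun h0 => by
      have h1 : ((t : ℤ) : 𝓞 K) ∈ v.asIdeal := by
        have := v.asIdeal.sub_mem (v.asIdeal.add_mem hl m0) h0
        rw [← tr]
        push_cast
        rwa [show lam + (W 0 0 : ℤ) - (lam - (W 1 1 : ℤ)) = (W 0 0 : ℤ) + (W 1 1 : ℤ) by ring] at this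
      obtain ⟨a, b, hab⟩ := hQ.dat.cop
      refine v.isPrime.ne_top ((Ideal.eq_top_iff_one _).mpr ?_)
      have h2 := v.asIdeal.add_mem (v.asIdeal.mul_mem_left (a : 𝓞 K) h1) (mem (b * 10) (by simp))
      rwa [← Int.cast_mul, ← Int.cast_add, hab, Int.cast_one] at h2
    obtain ⟨c, hc⟩ := (Int.natCast_dvd_natCast.mpr hd).trans w3
    have d0 : (d : K) ≠ 0 := by
      rintro h0
      rw [hc] at n1
      simp [h0] at n1
    have c0 : (c : K) ≠ 0 := by
      rintro h0
      rw [hc] at n1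
      simp [h0] at n1
    have e1 : (d : K) * (((lam : K) - W 1 1) / W 1 0) * c = lam - W 1 1 := by
      rw [hc]
      push_cast
      field_simp
    rw [← e1, map_mul] at u1
    rw [← u1]
    exact mul_le_of_le_one_right' (int_le v c)

lemma lg_prod (hC : CUBE) (v : HeightOneSpectrum (𝓞 K)) {I : Type} (s : Finset I) (f : I → K)
    (hf : ∀ i ∈ s, f i ≠ 0) : lg v (∏ i ∈ s, f i) = ∑ i ∈ s, lg v (f i) := by
  induction s using Finset.induction_on with
  | empty => simp [lg]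
  | insert a s ha ih =>
    have h1 := fun i hi => hf i (Finset.mem_insert_of_mem hi)
    rw [Finset.prod_insert ha, Finset.sum_insert ha,
      hC.mul v (hf a (Finset.mem_insert_self a s)) (Finset.prod_ne_zero_iff.mpr h1), ih h1]

end ProdA

open ProdA in
theorem prod (h2 : ETA2) (hH : HB) (hK : OK) (hC : CUBE) : ProdStmt := by
  intro n m t e K _ _ lam κ R hQ hs hR d hd
  have hD := hQ.dat
  have d0 : 0 < d := Nat.pos_of_dvd_of_pos hd (by norm_num)
  have d1 : (0 : ℤ) < d := by omega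
  have d2 : (d : ℤ) ∣ 100 := Int.natCast_dvd_natCast.mpr hd
  have hS : ∀ τ : R, HS m t e τ := fun τ => hR.1 τ τ.2
  choose x hx hv using fun τ : R => exx hH hQ κ hs (hS τ)
  have ex : ∀ τ : R, ∃ (σ : R) (γ : SL2), mob (dg d 1) τ = γ • (σ : ℍ) := fun τ => by
    obtain ⟨W, w1, w2, w3⟩ := hS τ
    obtain ⟨c, hc⟩ := d2.trans w3
    obtain ⟨σ, s1, γ, s2⟩ := exf hH hD hR (hf_wd hH hD w1 d1 hc)
    exact ⟨⟨σ, s1⟩, γ, s2⟩
  choose f γ hf using ex
  have finj : Function.Injective f := fun τ τ' h => by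
    have h1 := inj hH hD d1 d2 (hS τ) (hS τ') (γ τ' * (γ τ)⁻¹) (by
      rw [hf, hf, mul_smul, inv_smul_smul, h])
    exact Subtype.ext ((hR.2 τ (hS τ)).unique ⟨τ.2, hH.equiv.refl _⟩ ⟨τ'.2, h1⟩)
  have fbij : Function.Bijective f := finj.bijective_of_finite
  set M : R → K := fun τ => (γ τ : M2) 1 0 * x (f τ) + (γ τ : M2) 1 1 with hM
  have hκ : ∀ τ, κ (M τ) = ((γ τ : M2) 1 0 : ℂ) * (f τ : ℍ) + (γ τ : M2) 1 1 := fun τ => by
    simp only [hM, map_add, map_mul, map_intCast, hx]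
  have M0 : ∀ τ, M τ ≠ 0 := fun τ h0 => den_ne (det_SL_pos (γ τ)) (f τ) (by
    rw [← hκ, h0, map_zero])
  have x0 : ∀ τ, x τ ≠ 0 := fun τ h0 => (τ : ℍ).ne_zero (by rw [← hx, h0, map_zero])
  have hy : ∀ τ, d * x τ * M τ = (γ τ : M2) 0 0 * x (f τ) + (γ τ : M2) 0 1 := fun τ => by
    apply κ.injective
    have h1 := (mob_eq_iff (det_SL_pos (γ τ)) (f τ) (mob (dg d 1) τ)).mp (by rw [mob_SL, hf])
    rw [coe_mob_dg (by omega)] at h1
    simp only [map_add, map_mul, map_intCast, map_natCast, hx, hκ, h1]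
    push_cast
    ring
  refine ⟨∏ τ, M τ, Finset.prod_ne_zero_iff.mpr fun τ _ => M0 τ, ?_, fun p hp v hpv => ?_⟩
  · rw [← Finset.prod_coe_sort R, ← Finset.prod_coe_sort R, map_prod, ← Finset.prod_pow,
      ← fbij.prod_comp fun σ : R => et σ ^ 24, ← Finset.prod_mul_distrib]
    exact Finset.prod_congr rfl fun τ _ => by rw [ed, hf, h2.d24, hκ]
  have k1 : ∀ τ, max (v.valuation K (d * x τ) * v.valuation K (M τ)) (v.valuation K (M τ)) =
      max (v.valuation K (x (f τ))) 1 := fun τ => by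
    have hdet := det_SL (γ τ)
    rw [Matrix.det_fin_two] at hdet
    rw [← map_mul]
    exact key _ (int_le v) hdet (hy τ) rfl
  rw [lg_prod hC v _ _ fun τ _ => M0 τ]
  have dK : (d : K) ≠ 0 := by exact_mod_cast d0.ne'
  split_ifs with hl
  · have k2 : ∀ τ, lg v (d : K) + lg v (x τ) + lg v (M τ) = lg v (x (f τ)) := fun τ => by
      have a1 := (hv τ p hp v hpv).2 hl d hd
      have a2 := (hv (f τ) p hp v hpv).2 hl 1 (one_dvd _)
      rw [Nat.cast_one, one_mul] at a2
      have a3 := k1 τ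
      rw [max_eq_left (le_mul_of_one_le_left' a1), max_eq_left a2, ← map_mul] at a3
      rw [← hC.mul v dK (x0 τ), ← hC.mul v (mul_ne_zero dK (x0 τ)) (M0 τ), lg, a3, lg]
    have k3 := Finset.sum_congr (rfl : (Finset.univ : Finset R) = _) fun τ _ => k2 τ
    rw [Finset.sum_add_distrib, Finset.sum_add_distrib, fbij.sum_comp fun σ => lg v (x σ),
      Finset.sum_const, Finset.card_univ, Fintype.card_coe, nsmul_eq_mul] at k3
    linarith
  · refine Finset.sum_eq_zero fun τ _ => ?_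
    have a1 : v.valuation K (d * x τ) ≤ 1 := by
      rw [map_mul]
      exact mul_le_one' (by simpa using int_le v d) ((hv τ p hp v hpv).1 hl)
    have a3 := k1 τ
    rw [max_eq_right (mul_le_of_le_one_left' a1), max_eq_right ((hv (f τ) p hp v hpv).1 hl)] at a3
    rw [lg, a3, WithZero.log_one]

end Pool.Agent.MP_9207e0_ag.e3
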