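import Pool.Agent.MP_9207e0_ag.e3.SpecC

/-! Module PT: the action of the level five group on the points. -/

set_option linter.unusedSectionVars false
set_option linter.unusedVariables false

namespace Pool.Agent.MP_9207e0_ag.e3

open UpperHalfPlane Complex Filter Asymptotics Matrix Pool.Agent.MP_9207e0_ag.hg
open NumberField IsDedekindDomain
open Pool.Agent.MP_a43263_nt (Pt ptMap ac WW GQ Tr IsW isW)
open scoped Real MatrixGroups Manifold Classical Kronecker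

namespace PtA

lemma qv_spec (ι : Qbar →+* ℂ) (z : ℂ) (hz : IsAlgebraic ℚ z) : ι (qv ι z) = z := by
  obtain ⟨p, hp, hz⟩ := hz
  have h : ∃ x, ι x = z := by
    have e : (p.map (algebraMap ℚ Qbar)).map ι = p.map (algebraMap ℚ ℂ) := by
      rw [Polynomial.map_map]
      congr 1
      exact Subsingleton.elim _ _
    refine (IsAlgClosed.splits (p.map (algebraMap ℚ Qbar))).mem_range_of_isRoot
      (Polynomial.map_ne_zero hp) (i := ι) ?_
    rw [e, Polynomial.IsRoot.def, Polynomial.eval_map_algebraMap, hz]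
  rw [qv, dif_pos h]
  exact h.choose_spec

open WeierstrassCurve.Affine in
/-- Three points on a line, counted with multiplicity, sum to zero. -/
lemma line {F : Type} [Field F] [DecidableEq F] {V : WeierstrassCurve.Affine F} {a b : F}
    (hW : IsW V a b) {l c x1 x2 x3 y1 y2 y3 : F} (n1 : V.Nonsingular x1 y1)
    (n2 : V.Nonsingular x2 y2) (n3 : V.Nonsingular x3 y3) (e1 : y1 = l * x1 + c)
    (e2 : y2 = l * x2 + c) (e3 : y3 = l * x3 + c) (v1 : x1 + x2 + x3 = l ^ 2 + 3 * a * l)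
    (v2 : x1 * x2 + x1 * x3 + x2 * x3 = -(2 * l * c + 3 * a * c + b * l)) :
    (Point.some x1 y1 n1 : V.Point) + .some x2 y2 n2 + .some x3 y3 n3 = 0 := by
  have hd : x1 = x2 → 3 * x2 ^ 2 - 3 * a * y2 = l * (y2 - V.negY x2 y2) := by
    rintro rfl
    rw [negY, hW.h1, hW.h3, e2]
    linear_combination 2 * x1 * v1 - v2
  have hy : x1 = x2 → y1 = y2 := fun h => by rw [e1, e2, h]
  have hxy : ¬(x1 = x2 ∧ y1 = V.negY x2 y2) := by
    rintro ⟨h, h'⟩
    have e := hd h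
    rw [hy h] at h'
    rw [← h', sub_self, mul_zero] at e
    rcases ((nonsingular_iff _ _).1 n2).2 with k | k
    · rw [hW.h1, hW.h2, hW.h4] at k
      exact k (by linear_combination -e)
    · exact k h'
  have hs : V.slope x1 x2 y1 y2 = l := by
    by_cases h : x1 = x2
    · have h' : y1 ≠ V.negY x2 y2 := fun h' => hxy ⟨h, h'⟩
      have e := hd h
      rw [slope_of_Y_ne h h', hW.h1, hW.h2, hW.h4]
      rw [hy h] at h' ⊢
      rw [h, div_eq_iff (sub_ne_zero.2 h')]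
      linear_combination e
    · rw [slope_of_X_ne h, div_eq_iff (sub_ne_zero.2 h), e1, e2]
      ring
  have hx : V.addX x1 x2 l = x3 := by
    rw [addX, hW.h1, hW.h2]
    linear_combination -v1
  rw [Point.add_some hxy]
  refine Point.add_of_Y_eq (by rw [hs, hx]) ?_
  rw [hs, addY, negAddY, hx, e1, e3]
  congr 1
  ring

variable {a b : ℚ}

lemma pw_eq {x y : Qbar} (h : ((WW a b).baseChange Qbar).toAffine.Nonsingular x y) :
    pw a b x y = .some x y h := dif_pos h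

lemma neg_pw (hb : b ≠ 0) (hc : a ^ 3 - b ≠ 0) {x y x' y' : Qbar}
    (h : ((WW a b).baseChange Qbar).toAffine.Nonsingular x y) (hx : x' = x)
    (hy : y' = -y - 3 * a * x - b) : pw a b x' y' = -pw a b x y := by
  have e : y' = ((WW a b).baseChange Qbar).toAffine.negY x y := by
    rw [WeierstrassCurve.Affine.negY, (isW hb hc Qbar).h1, (isW hb hc Qbar).h3, hy]
  rw [pw_eq h, WeierstrassCurve.Affine.Point.neg_some, hx, e, pw_eq]

lemma alg (hC : JC) (A : M2) (τ : ℍ) (h : 0 < A.det) :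
    IsAlgebraic ℚ (jf (mob A τ)) ↔ IsAlgebraic ℚ (jf τ) := by
  have hj : IntJ jf := isIntegral_algebraMap (R := Algebra.adjoin ℚ {(jf : ℍ → ℂ)})
    (x := ⟨jf, Algebra.self_mem_adjoin_singleton ℚ _⟩)
  refine ⟨fun h' => ?_, hC.alg_val (hC.intJ_mob h hj)⟩
  have e := hC.alg_val (hC.intJ_mob (det_adj_pos h) hj) h'
  rwa [mob_adj_mob h] at e

lemma spec1 (hC : JC) (hm : MODB) (h1 : LC1) (ι : Qbar →+* ℂ) (τ : ℍ)
    (hτ : IsAlgebraic ℚ (jf τ)) : ι (qv ι (X1 τ)) = X1 τ ∧ ι (qv ι (Y1 τ)) = Y1 τ ∧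
    ((WW (2 / 3) 4).baseChange Qbar).toAffine.Nonsingular (qv ι (X1 τ)) (qv ι (Y1 τ)) := by
  have e1 := qv_spec ι _ (hC.alg_val (hm.md X1 (by simp)).2.1 hτ)
  have e2 := qv_spec ι _ (hC.alg_val (hm.md Y1 (by simp)).2.1 hτ)
  refine ⟨e1, e2, (isW (by norm_num) (by norm_num) Qbar).ns (ι.injective ?_)⟩
  simp only [map_add, map_mul, map_pow, map_ratCast, map_ofNat, e1, e2]
  push_cast
  linear_combination h1.curve τ

lemma spec2 (hC : JC) (hm : MODB) (h2 : LC2) (ι : Qbar →+* ℂ) (τ : ℍ)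
    (hτ : IsAlgebraic ℚ (jf τ)) : ι (qv ι (X2 τ)) = X2 τ ∧ ι (qv ι (Y2 τ)) = Y2 τ ∧
    ((WW (5 / 3) 5).baseChange Qbar).toAffine.Nonsingular (qv ι (X2 τ)) (qv ι (Y2 τ)) := by
  have e1 := qv_spec ι _ (hC.alg_val (hm.md X2 (by simp)).2.1 hτ)
  have e2 := qv_spec ι _ (hC.alg_val (hm.md Y2 (by simp)).2.1 hτ)
  refine ⟨e1, e2, (isW (by norm_num) (by norm_num) Qbar).ns (ι.injective ?_)⟩
  simp only [map_add, map_mul, map_pow, map_ratCast, map_ofNat, e1, e2]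
  push_cast
  linear_combination h2.curve τ

lemma up (hC : JC) (hm : MODB) (h1 : LC1) (ι : Qbar →+* ℂ) (τ : ℍ) :
    U1 ι (mob !![1, 5; 0, 1] τ) = -U1 ι τ := by
  have ha := alg hC !![1, 5; 0, 1] τ (by simp [Matrix.det_fin_two])
  by_cases hτ : IsAlgebraic ℚ (jf τ)
  · obtain ⟨e1, e2, n⟩ := spec1 hC hm h1 ι τ hτ
    obtain ⟨f1, f2, -⟩ := spec1 hC hm h1 ι _ (ha.2 hτ)
    rw [U1, U1, if_pos hτ, if_pos (ha.2 hτ)]
    refine neg_pw (by norm_num) (by norm_num) n (by rw [h1.tx]) (ι.injective ?_)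
    simp only [map_sub, map_neg, map_mul, map_ratCast, map_ofNat, e1, e2, f2]
    push_cast
    linear_combination h1.ty τ
  · rw [U1, U1, if_neg hτ, if_neg (mt ha.1 hτ), neg_zero]

lemma low (hC : JC) (hm : MODB) (h1 : LC1) (hG : GdStmt) (ι : Qbar →+* ℂ) (τ : ℍ) :
    3 • (U1 ι (mob !![1, 0; 5, 1] τ) + U1 ι τ) = (0 : PW (2 / 3) 4) := by
  have ha := alg hC !![1, 0; 5, 1] τ (by simp [Matrix.det_fin_two])
  have hD := hG (2 / 3) 4 ⊥ (by norm_num) (by norm_num)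
  by_cases hτ : IsAlgebraic ℚ (jf τ)
  · obtain ⟨e1, e2, n⟩ := spec1 hC hm h1 ι τ hτ
    obtain ⟨f1, f2, n'⟩ := spec1 hC hm h1 ι _ (ha.2 hτ)
    have h0 := (h1.ne τ).1
    have hx : qv ι (X1 τ) ≠ 0 := fun h => h0 (by rw [← e1, h, map_zero])
    have e := (hD.addT _ _ ((hD.ns _ _).1 n) hx).trans
      (neg_pw (by norm_num) (by norm_num) n' (ι.injective (by
        simp only [map_div₀, map_neg, map_mul, map_pow, map_ratCast, e1, e2, f1]
        push_cast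
        rw [div_eq_iff (pow_ne_zero 2 h0), h1.lx])) (ι.injective (by
        simp only [map_div₀, map_sub, map_neg, map_mul, map_pow, map_ratCast, map_ofNat, e1, e2,
          f1, f2]
        push_cast
        rw [div_eq_iff (pow_ne_zero 3 h0)]
        linear_combination h1.ly τ + 2 * X1 τ * h1.lx τ - 4 * h1.curve τ)))
    rw [U1, U1, if_pos hτ, if_pos (ha.2 hτ), ← neg_eq_iff_eq_neg.2 e, neg_add_rev,
      neg_add_cancel_right, smul_neg, hD.three, neg_zero]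
  · rw [U1, U1, if_neg hτ, if_neg (mt ha.1 hτ), add_zero, smul_zero]

lemma dvd5 {g : SL2} (h : g ∈ Gam 5) : 5 ∣ (g : M2) 0 1 ∧ 5 ∣ (g : M2) 1 0 := by
  obtain ⟨-, e1, e2, -⟩ := CongruenceSubgroup.Gamma_mem.1 h
  exact ⟨(ZMod.intCast_zmod_eq_zero_iff_dvd _ 5).1 e1, (ZMod.intCast_zmod_eq_zero_iff_dvd _ 5).1 e2⟩

lemma perm (h2 : LC2) {g : SL2} (h : g ∈ Gam 5) (ho : Odd (g : M2).trace) (τ : ℍ) :
    (s1 (g • τ) = s2 τ ∧ s1 (g • g • τ) = s3 τ) ∨ (s1 (g • τ) = s3 τ ∧ s1 (g • g • τ) = s2 τ) := by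
  obtain ⟨a1, a2⟩ := dvd5 h
  obtain ⟨b1, b2⟩ := dvd5 (mul_mem h h)
  have hd := g.det_coe
  rw [Matrix.det_fin_two] at hd
  rw [Matrix.trace_fin_two] at ho
  have m1 : ((g * g : SL2) : M2) 1 0 = (g : M2) 1 0 * ((g : M2) 0 0 + (g : M2) 1 1) := by
    simp only [Matrix.SpecialLinearGroup.coe_mul, Matrix.mul_apply, Fin.sum_univ_two]
    ring
  have m2 : ((g * g : SL2) : M2) 1 1 = (g : M2) 1 1 * ((g : M2) 0 0 + (g : M2) 1 1) - 1 := by
    simp only [Matrix.SpecialLinearGroup.coe_mul, Matrix.mul_apply, Fin.sum_univ_two]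
    linear_combination -hd
  have hc : Odd ((g : M2) 1 0) := by
    have e : Odd ((g : M2) 0 1 * (g : M2) 1 0) := by
      rw [show (g : M2) 0 1 * (g : M2) 1 0 = (g : M2) 0 0 * (g : M2) 1 1 - 1 by
        linear_combination -hd]
      refine Even.sub_odd ?_ odd_one
      rw [Int.even_mul]
      rcases Int.even_or_odd ((g : M2) 0 0) with k | k
      · exact Or.inl k
      · exact Or.inr ((Int.odd_add.1 ho).1 k)
    exact (Int.odd_mul.1 e).2
  have nd : ∀ {n : ℤ}, Odd n → ¬2 ∣ n := fun k k' =>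
    Int.not_even_iff_odd.2 k (even_iff_two_dvd.2 k')
  rw [← mul_smul]
  rcases Int.even_or_odd ((g : M2) 1 1) with k | k
  · exact Or.inl ⟨h2.two g a1 a2 k.two_dvd τ, h2.three _ b1 b2 (nd (m1 ▸ hc.mul ho))
      (nd (m2 ▸ (k.mul_right _).sub_odd odd_one)) τ⟩
  · exact Or.inr ⟨h2.three g a1 a2 (nd hc) (nd k) τ,
      h2.two _ b1 b2 (m2 ▸ ((k.mul ho).sub_odd odd_one).two_dvd) τ⟩

lemma tr3 (hB : QB) (hC : JC) (hm : MODB) (h2 : LC2) (ι : Qbar →+* ℂ) (g : SL2) (h : g ∈ Gam 5)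
    (ho : Odd (g : M2).trace) (τ : ℍ) : U2 ι τ + U2 ι (g • τ) + U2 ι (g • g • τ) = 0 := by
  have j1 := hB.j_inv g τ
  have j2 := (hB.j_inv g (g • τ)).trans j1
  by_cases hτ : IsAlgebraic ℚ (jf τ)
  swap
  · rw [U2, U2, U2, j2, j1, if_neg hτ, if_neg hτ, if_neg hτ, add_zero, add_zero]
  obtain ⟨a1, a2, n1⟩ := spec2 hC hm h2 ι τ hτ
  obtain ⟨b1, b2, n2⟩ := spec2 hC hm h2 ι _ (j1 ▸ hτ : IsAlgebraic ℚ (jf (g • τ)))
  obtain ⟨c1, c2, n3⟩ := spec2 hC hm h2 ι _ (j2 ▸ hτ : IsAlgebraic ℚ (jf (g • g • τ)))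
  have e0 := qv_spec ι _ (hC.alg_val (hm.md s0 (by simp)).2.1 hτ)
  have i1 := h2.inv g (dvd5 h).1 (dvd5 h).2 τ
  have i2 := (h2.inv g (dvd5 h).1 (dvd5 h).2 (g • τ)).trans i1
  have q0 := h2.cubic τ 0
  have q1 := h2.cubic τ 1
  have q2 := h2.cubic τ (-1)
  have hp := perm h2 h ho τ
  rw [U2, U2, U2, j2, j1, if_pos hτ, if_pos hτ, if_pos hτ, pw_eq n1, pw_eq n2, pw_eq n3]
  refine line (isW (by norm_num) (by norm_num) Qbar) (l := qv ι (s0 τ)) (c := -qv ι (s0 τ) ^ 2)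
    n1 n2 n3 (ι.injective ?_) (ι.injective ?_) (ι.injective ?_) (ι.injective ?_)
    (ι.injective ?_) <;>
  simp only [map_add, map_neg, map_mul, map_pow, map_ratCast, map_ofNat, e0, a1, a2, b1, b2, c1,
    c2] <;>
  simp only [X2, Y2, i1, i2]
  · ring
  · ring
  · ring
  · push_cast
    rcases hp with ⟨p1, p2⟩ | ⟨p1, p2⟩ <;> rw [p1, p2] <;>
    linear_combination (1 / 2 : ℂ) * q1 + (1 / 2 : ℂ) * q2 - q0
  · push_cast
    rcases hp with ⟨p1, p2⟩ | ⟨p1, p2⟩ <;> rw [p1, p2] <;>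
    linear_combination s0 τ * (q1 + q2 - 2 * q0) - (1 / 2 : ℂ) * q1 + (1 / 2 : ℂ) * q2

end PtA

theorem pt (hB : QB) (hC : JC) (hm : MODB) (h1 : LC1) (h2 : LC2) (hG : GdStmt) : PT where
  qv_spec := PtA.qv_spec
  spec1 := PtA.spec1 hC hm h1
  spec2 := PtA.spec2 hC hm h2
  alg := PtA.alg hC
  inv1 := fun ι g a b τ => by
    rw [U1, U1, hB.j_inv, hm.inv X1 (by simp) g a b, hm.inv Y1 (by simp) g a b]
  inv2 := fun ι g a b τ => by
    have b5 : 5 ∣ (g : M2) 1 0 := Dvd.dvd.trans (by norm_num) b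
    have b2 : 2 ∣ (g : M2) 1 0 := Dvd.dvd.trans (by norm_num) b
    rw [U2, U2, hB.j_inv, X2, Y2, X2, Y2, h2.inv g a b5, h2.one g a b5 b2]
  up := PtA.up hC hm h1
  low := PtA.low hC hm h1 hG
  tr3 := fun ι g h ho τ => PtA.tr3 hB hC hm h2 ι g h ho τ
  w2 := fun ι ω a b c d e τ => by
    obtain ⟨e1, e2⟩ := h2.w ω a b c d e τ
    have ha := PtA.alg hC ω τ (by rw [a]; norm_num)
    rw [U2, U2, X2, Y2, X2, Y2, e1, e2, add_comm (s1 τ), mul_comm (s1 τ), propext ha]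

end Pool.Agent.MP_9207e0_ag.e3
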