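import Pool.Agent.MP_9207e0_ag.e3.SpecC

/-! Module RAM: a prime without uniformiser in the base of a cyclic cubic extension is totally
ramified. -/

namespace Pool.Agent.MP_9207e0_ag.e3

open NumberField IsDedekindDomain IsDedekindDomain.HeightOneSpectrum
open scoped Classical Pointwise

namespace RamA

variable {K L : Type} [Field K] [NumberField K] [Field L] [NumberField L] [Algebra K L]

lemma efg [IsGalois K L] (h3 : Module.finrank K L = 3) (w : HeightOneSpectrum (𝓞 L))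
    (hw : ∀ c : K, w.valuation L (algebraMap K L c) ≠ WithZero.exp (-1)) :
    (w.under (𝓞 K)).asIdeal.ramificationIdx' w.asIdeal = 3 ∧
      (Ideal.primesOver (w.under (𝓞 K)).asIdeal (𝓞 L)).ncard = 1 ∧
      w.asIdeal.inertiaDeg (𝓞 K) = 1 := by
  set v := w.under (𝓞 K) with hv
  have : w.asIdeal.LiesOver v.asIdeal := ⟨rfl⟩
  have := v.isPrime
  have := w.isPrime
  have h := Ideal.ncard_primesOver_mul_ramificationIdxIn_mul_inertiaDegIn v.asIdeal (𝓞 L) Gal(L/K)
  rw [IsGaloisGroup.card_eq_finrank Gal(L/K) K L, h3,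
    Ideal.ramificationIdxIn_eq_ramificationIdx v.asIdeal w.asIdeal Gal(L/K),
    Ideal.inertiaDegIn_eq_inertiaDeg v.asIdeal w.asIdeal Gal(L/K),
    ← Ideal.ramificationIdx'_eq_ramificationIdx v.asIdeal w.asIdeal v.ne_bot] at h
  have he : v.asIdeal.ramificationIdx' w.asIdeal ≠ 1 := fun e => by
    obtain ⟨π, hπ⟩ := v.valuation_exists_uniformizer K
    have h1 := valuation_liesOver L v w π
    rw [e, pow_one, hπ] at h1
    exact hw π h1.symm
  have hd : v.asIdeal.ramificationIdx' w.asIdeal ∣ 3 := h ▸ Dvd.dvd.mul_left (dvd_mul_right _ _) _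
  have e3 := ((Nat.dvd_prime Nat.prime_three).1 hd).resolve_left he
  rw [e3, mul_left_comm] at h
  have h1 := Nat.eq_of_mul_eq_mul_left (by norm_num : 0 < 3) (h.trans (mul_one 3).symm)
  exact ⟨e3, Nat.eq_one_of_mul_eq_one_right h1, Nat.eq_one_of_mul_eq_one_left h1⟩

lemma int_le (w : HeightOneSpectrum (𝓞 L)) (f : 𝓞 L →+* 𝓞 L)
    (hf : ∀ x ∈ w.asIdeal, f x ∈ w.asIdeal) (x : 𝓞 L) :
    w.intValuation (f x) ≤ w.intValuation x := by
  by_cases hx : x = 0
  · rw [hx, map_zero]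
  have h1 := w.intValuation_eq_exp_neg_multiplicity hx
  have h2 := (w.intValuation_le_pow_iff_mem x _).1 h1.le
  rw [h1, w.intValuation_le_pow_iff_mem]
  have h3 : w.asIdeal.map f ≤ w.asIdeal := Ideal.map_le_iff_le_comap.2 hf
  have h4 := Ideal.mem_map_of_mem f h2
  rw [Ideal.map_pow] at h4
  exact Ideal.pow_right_mono h3 _ h4

end RamA

open RamA

theorem ram : RamStmt := by
  intro K L _ _ _ _ _ _ h3 w hw
  obtain ⟨e3, g1, f1⟩ := efg h3 w hw
  set v := w.under (𝓞 K) with hv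
  have : w.asIdeal.LiesOver v.asIdeal := ⟨rfl⟩
  have := v.isMaximal
  have := w.isMaximal
  have hfix : ∀ σ : L ≃ₐ[K] L, σ • w.asIdeal = w.asIdeal := fun σ => by
    obtain ⟨P, hP⟩ := Set.ncard_eq_one.1 g1
    have a1 : σ • w.asIdeal ∈ Ideal.primesOver v.asIdeal (𝓞 L) := ⟨inferInstance, inferInstance⟩
    have a2 : w.asIdeal ∈ Ideal.primesOver v.asIdeal (𝓞 L) := ⟨inferInstance, inferInstance⟩
    rw [hP, Set.mem_singleton_iff] at a1 a2
    exact a1.trans a2.symm
  have hle : ∀ (σ : L ≃ₐ[K] L) (x : 𝓞 L), w.intValuation (σ • x) ≤ w.intValuation x :=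
    fun σ => int_le w (MulSemiringAction.toRingHom _ _ σ) fun x hx =>
      hfix σ ▸ Ideal.smul_mem_pointwise_smul σ x _ hx
  have hint : ∀ (σ : L ≃ₐ[K] L) (x : 𝓞 L),
      w.valuation L (σ (algebraMap _ L x)) = w.valuation L (algebraMap _ L x) := fun σ x => by
    have e : σ (algebraMap _ L x) = algebraMap (𝓞 L) L (σ • x) := rfl
    rw [e, valuation_of_algebraMap, valuation_of_algebraMap]
    refine le_antisymm (hle σ x) ?_
    have := hle σ⁻¹ (σ • x)
    rwa [inv_smul_smul] at this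
  have val : ∀ (σ : L ≃ₐ[K] L) (x : L), w.valuation L (σ x) = w.valuation L x := fun σ x => by
    obtain ⟨a, b, -, rfl⟩ := IsFractionRing.div_surjective (A := 𝓞 L) x
    rw [map_div₀, map_div₀, map_div₀, hint, hint]
  have res : ∀ x : L, w.valuation L x ≤ 1 →
      ∃ c : 𝓞 K, w.valuation L (x - algebraMap K L (c : K)) < 1 := fun x hx => by
    obtain ⟨a, ha⟩ := w.exists_valuation_sub_lt_of_integer hx 1
    rw [Ideal.inertiaDeg_eq_of_isMaximal v.asIdeal] at f1
    let _ := Ideal.Quotient.field v.asIdeal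
    let _ := Ideal.Quotient.field w.asIdeal
    have hb : (⊥ : Subalgebra (𝓞 K ⧸ v.asIdeal) (𝓞 L ⧸ w.asIdeal)) = ⊤ :=
      Subalgebra.bot_eq_top_iff_finrank_eq_one.2 f1
    obtain ⟨c, hc⟩ := Algebra.mem_bot.1
      (hb ▸ Algebra.mem_top : Ideal.Quotient.mk w.asIdeal a ∈
        (⊥ : Subalgebra (𝓞 K ⧸ v.asIdeal) (𝓞 L ⧸ w.asIdeal)))
    obtain ⟨c, rfl⟩ := Ideal.Quotient.mk_surjective c
    have h1 : a - algebraMap (𝓞 K) (𝓞 L) c ∈ w.asIdeal := Ideal.Quotient.eq.1 hc.symm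
    have h2 := (w.valuation_lt_one_iff_mem (K := L) _).2 h1
    refine ⟨c, ?_⟩
    have e : x - algebraMap K L (c : K) =
        algebraMap (𝓞 L) L (a - algebraMap (𝓞 K) (𝓞 L) c) - (algebraMap (𝓞 L) L a - x) := by
      rw [map_sub]
      show _ = _ - algebraMap K L (c : K) - _
      ring
    rw [e]
    exact Valuation.map_sub_lt _ h2 ha
  refine ⟨val, fun σ x hx => ?_, fun c _ => ?_, res⟩
  · obtain ⟨c, hc⟩ := res x hx
    have e : σ x - x = σ (x - algebraMap K L c) - (x - algebraMap K L c) := by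
      rw [map_sub, AlgEquiv.commutes]
      ring
    rw [e]
    exact Valuation.map_sub_lt _ ((val σ _).trans_lt hc) hc
  · have h1 := valuation_liesOver L v w c
    rw [e3] at h1
    rw [lg, ← h1, WithZero.log_pow]
    exact ⟨_, nsmul_eq_mul _ _⟩

end Pool.Agent.MP_9207e0_ag.e3
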