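import Pool.Agent.MP_9207e0_ag.e3.SpecC

/-! The rank of a finitely generated group from a descent map. -/

set_option linter.unusedSectionVars false
set_option linter.unusedVariables false

namespace Pool.Agent.MP_9207e0_ag.e3

namespace Rank

theorem three_z (x : ZMod 3 × ZMod 3) : 3 • x = 0 := by revert x; decide

theorem mult (x t : ZMod 3 × ZMod 3) (ht : t ≠ 0) (h1 : t.1 = t.2) (h2 : x.1 = x.2) :
    x = (0 : ℤ) • t ∨ x = (1 : ℤ) • t ∨ x = (-1 : ℤ) • t := by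
  simp only [zero_smul, one_smul, neg_smul]
  revert x t; decide

theorem mult1 (x t : ZMod 3) (ht : t ≠ 0) : ∃ k : ℤ, x - k • t = 0 := by
  have h : x = 0 ∨ x = t ∨ x = -t := by revert x t; decide
  rcases h with h | h | h
  · exact ⟨0, by simp [h]⟩
  · exact ⟨1, by simp [h]⟩
  · exact ⟨-1, by simp [h]⟩

theorem cancel (m : ℕ) (hm : ¬3 ∣ m) (x : ZMod 3) (h : m • x = 0) : x = 0 := by
  have : Fact (Nat.Prime 3) := ⟨Nat.prime_three⟩
  rw [nsmul_eq_mul, mul_eq_zero, ZMod.natCast_eq_zero_iff] at h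
  exact h.resolve_left hm

theorem mem_tors {A : Type} [AddCommGroup A] (P : A) :
    P ∈ Submodule.torsion ℤ A ↔ IsOfFinAddOrder P := by
  rw [← AddCommGroup.mem_torsion, ← Submodule.torsion_int]; rfl

/-- A free module with a map to `ZMod 3` whose kernel is divisible by `3` has rank at most one. -/
theorem sub {M ι : Type} [AddCommGroup M] (b : Module.Basis ι ℤ M) (ψ : M →ₗ[ℤ] ZMod 3)
    (h : ∀ x, ψ x = 0 → ∃ z, x = (3 : ℤ) • z) : Subsingleton ι := by
  classical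
  have h1 : ∀ (x : M) (i : ι), b.repr x i = 1 → ψ x ≠ 0 := by
    intro x i hx h0
    obtain ⟨z, rfl⟩ := h x h0
    rw [map_smul, Finsupp.smul_apply, smul_eq_mul] at hx
    omega
  refine ⟨fun i j => by_contra fun hij => ?_⟩
  obtain ⟨k, hk⟩ := mult1 (ψ (b i)) (ψ (b j)) (h1 _ j (by simp))
  refine h1 (b i - k • b j) i ?_ (by rw [map_sub, map_smul]; exact hk)
  simp [Ne.symm hij]

end Rank

open Rank in
theorem rank : RankStmt := by
  intro A _ φ T hFG hker h3 hT hTd hTt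
  have h9 : ∀ S : A, 3 • (3 • S) = 0 → 3 • S = 0 := by
    intro S hS
    have h0 : φ (3 • S) = 0 := by rw [map_nsmul, three_z]
    rcases h3 _ hS with h | h | h
    · exact h
    · exact absurd (h ▸ h0) hT
    · rw [h, map_neg, neg_eq_zero] at h0
      exact absurd h0 hT
  have hp : ∀ (a : ℕ) (S : A), 3 ^ a • S = 0 → 3 • S = 0 := by
    intro a
    induction a with
    | zero => intro S hS; rw [pow_zero, one_smul] at hS; rw [hS, smul_zero]
    | succ a ih => intro S hS; rw [pow_succ, mul_smul] at hS; exact h9 S (ih _ hS)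
  let ψ : A →+ ZMod 3 := (AddMonoidHom.fst _ _).comp φ - (AddMonoidHom.snd _ _).comp φ
  have hψ : ∀ P, ψ P = 0 ↔ (φ P).1 = (φ P).2 := fun P => sub_eq_zero
  have htor : ∀ P, IsOfFinAddOrder P → ψ P = 0 := by
    intro P hP
    obtain ⟨N, hN, hNP⟩ := isOfFinAddOrder_iff_nsmul_eq_zero.1 hP
    obtain ⟨a, m, hm, rfl⟩ := Nat.exists_eq_pow_mul_and_not_dvd hN.ne' 3 (by norm_num)
    rw [mul_smul] at hNP
    refine cancel m hm _ ?_
    rw [← map_nsmul]
    have hT0 : ψ T = 0 := (hψ T).2 hTd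
    rcases h3 _ (hp a _ hNP) with h | h | h <;> rw [h]
    · exact map_zero ψ
    · exact hT0
    · rw [map_neg, hT0, neg_zero]
  refine ⟨fun P hP => (hψ P).1 (htor P hP), fun ⟨P0, hP0⟩ => ?_⟩
  have : Module.Finite ℤ A := Module.Finite.iff_addGroup_fg.2 hFG
  let N := Submodule.torsion ℤ A
  let ψ' : (A ⧸ N) →ₗ[ℤ] ZMod 3 :=
    N.liftQ ψ.toIntLinearMap fun P hP => htor P ((mem_tors P).1 hP)
  have hψ' : ∀ P, ψ' (N.mkQ P) = ψ P := fun P => rfl
  have hk : ∀ x, ψ' x = 0 → ∃ z, x = (3 : ℤ) • z := by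
    intro x hx
    obtain ⟨P, rfl⟩ := N.mkQ_surjective x
    have h1 : ∃ k : ℤ, φ P = k • φ T := by
      rcases mult (φ P) (φ T) hT hTd ((hψ P).1 hx) with h | h | h <;> exact ⟨_, h⟩
    obtain ⟨k, h1⟩ := h1
    obtain ⟨Z, hZ⟩ := hker (P - k • T) (by rw [map_sub, map_zsmul, h1, sub_self])
    have h2 : N.mkQ T = 0 := (Submodule.Quotient.mk_eq_zero N).2 ((mem_tors T).2 hTt)
    refine ⟨N.mkQ Z, ?_⟩
    have h4 := congrArg N.mkQ hZ
    rw [map_sub, map_smul, h2, smul_zero, sub_zero, map_nsmul] at h4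
    rw [h4, ← natCast_zsmul]
    rfl
  let b := Module.finBasis ℤ (A ⧸ N)
  have hs := sub b ψ' hk
  have hne : Nonempty (Fin (Module.finrank ℤ (A ⧸ N))) := by
    by_contra h
    rw [not_nonempty_iff] at h
    have h1 : N.mkQ P0 = 0 := by rw [← b.sum_repr (N.mkQ P0)]; exact Fintype.sum_empty _
    exact hP0 ((hψ P0).1 (by rw [← hψ', h1, map_zero]))
  obtain ⟨i⟩ := hne
  have : Unique (Fin (Module.finrank ℤ (A ⧸ N))) := uniqueOfSubsingleton i
  refine ⟨?_, ?_⟩
  · rw [← rank_quotient_eq_of_le_torsion (M' := N) le_rfl, ← b.mk_eq_rank'']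
    exact Cardinal.mk_eq_one _
  · obtain ⟨g, hg⟩ := N.mkQ_surjective (b i)
    refine ⟨g, fun P => ⟨b.repr (N.mkQ P) i, (mem_tors _).1 ?_⟩⟩
    refine (Submodule.Quotient.mk_eq_zero N).1 ?_
    have h1 := b.sum_repr (N.mkQ P)
    rw [Fintype.sum_subsingleton _ i] at h1
    change N.mkQ _ = 0
    rw [map_sub, map_smul, hg, h1, sub_self]

end Pool.Agent.MP_9207e0_ag.e3
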