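import Pool.Agent.MP_9207e0_ag.e3.SpecC
import Pool.Agent.MP_9207e0_ag.hg.Form

/-! Reciprocity on modular curves. -/

set_option linter.unusedSectionVars false
set_option linter.unusedVariables false

namespace Pool.Agent.MP_9207e0_ag.e3

open UpperHalfPlane Complex Filter Asymptotics Matrix Pool.Agent.MP_9207e0_ag.hg
open NumberField IsDedekindDomain
open Pool.Agent.MP_a43263_nt (Pt ptMap ac WW GQ Tr)
open scoped Real MatrixGroups Manifold Classical Kronecker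

namespace Recs

lemma tors (hG : GdStmt) {u : Qbar} (hu : u = 0 ∨ u = -1 ∨ u = 4) (v : Qbar) :
    IsOfFinAddOrder (pw (2 / 3) 4 u v) := by
  have G := hG (2 / 3) 4 ⊥ (by norm_num) (by norm_num)
  have ns : ∀ x y : Qbar, ((WW (2 / 3) 4).baseChange Qbar).toAffine.Nonsingular x y ↔
      y ^ 2 + 2 * x * y + 4 * y = x ^ 3 := fun x y => by
    rw [G.ns]
    push_cast
    constructor <;> intro h <;> linear_combination h
  have ad : ∀ x y : Qbar, y ^ 2 + 2 * x * y + 4 * y = x ^ 3 → x ≠ 0 →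
      pw (2 / 3) 4 x y = pw (2 / 3) 4 (-4 * y / x ^ 2) (-4 ^ 2 * y / x ^ 3) + -pw (2 / 3) 4 0 0 :=
    fun x y e x0 => by
      have := G.addT x y ((G.ns x y).1 ((ns x y).2 e)) x0
      push_cast at this
      rw [← this, add_neg_cancel_right]
  have t0 : IsOfFinAddOrder (pw (2 / 3) 4 0 0) :=
    isOfFinAddOrder_iff_nsmul_eq_zero.2 ⟨3, by norm_num, G.three⟩
  have t1 : IsOfFinAddOrder (pw (2 / 3) 4 (-1) (-1)) := by
    refine isOfFinAddOrder_iff_nsmul_eq_zero.2 ⟨2, by norm_num, ?_⟩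
    have h := (ns (-1) (-1)).2 (by norm_num)
    have W := Pool.Agent.MP_a43263_nt.isW (a := 2 / 3) (b := 4) (by norm_num) (by norm_num) Qbar
    rw [two_nsmul, pw, dif_pos h]
    refine WeierstrassCurve.Affine.Point.add_self_of_Y_eq ?_
    rw [WeierstrassCurve.Affine.negY, W.h1, W.h3]
    norm_num
  have t2 : IsOfFinAddOrder (pw (2 / 3) 4 4 4) := by
    rw [ad 4 4 (by norm_num) (by norm_num), show (-4 * 4 / 4 ^ 2 : Qbar) = -1 by norm_num,
      show (-4 ^ 2 * 4 / 4 ^ 3 : Qbar) = -1 by norm_num]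
    exact t1.add t0.neg
  have t3 : IsOfFinAddOrder (pw (2 / 3) 4 4 (-16)) := by
    rw [ad 4 (-16) (by norm_num) (by norm_num), show (-4 * -16 / 4 ^ 2 : Qbar) = 4 by norm_num,
      show (-4 ^ 2 * -16 / 4 ^ 3 : Qbar) = 4 by norm_num]
    exact t2.add t0.neg
  have t4 : IsOfFinAddOrder (pw (2 / 3) 4 0 (-4)) := by
    have := G.negT
    push_cast at this
    rw [← this]
    exact t0.neg
  by_cases h : ((WW (2 / 3) 4).baseChange Qbar).toAffine.Nonsingular u v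
  swap
  · rw [pw, dif_neg h]
    exact IsOfFinAddOrder.zero
  have e := (ns u v).1 h
  rcases hu with rfl | rfl | rfl
  · rcases mul_eq_zero.1 (show v * (v + 4) = 0 by linear_combination e) with k | k
    · rwa [k]
    · rwa [eq_neg_of_add_eq_zero_left k]
  · rwa [eq_neg_of_add_eq_zero_left
      (pow_eq_zero_iff two_ne_zero |>.1 (show (v + 1) ^ 2 = 0 by linear_combination e))]
  · rcases mul_eq_zero.1 (show (v - 4) * (v + 16) = 0 by linear_combination e) with k | k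
    · rwa [sub_eq_zero.1 k]
    · rwa [eq_neg_of_add_eq_zero_left k]

lemma cusp {F : Type} [Field F] [Algebra Qbar F] {W : ValuationSubring F} (hW : IsPlace W)
    {j x : F} {u : Qbar} (hj : j ∉ W) (hx : Sp W x u)
    (e : j * ((x - 4) ^ 10 * x ^ 2 * (x + 1) ^ 5) = ((x - 4) ^ 5 * x + 256 * (x + 1) ^ 5) ^ 3) :
    u = 0 ∨ u = -1 ∨ u = 4 := by
  by_contra h
  simp only [not_or] at h
  obtain ⟨a, b, c⟩ := h
  have s4 := hx.sub (Sp.ofNat W 4)
  have s1 := hx.add (Sp.one W)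
  have f := ((s4.pow hW 10).mul hW (hx.pow hW 2)).mul hW (s1.pow hW 5)
  have g := (((s4.pow hW 5).mul hW hx).add ((Sp.ofNat W 256).mul hW (s1.pow hW 5))).pow hW 3
  have n : (u - 4) ^ 10 * u ^ 2 * (u + 1) ^ 5 ≠ 0 :=
    mul_ne_zero (mul_ne_zero (pow_ne_zero _ (sub_ne_zero.2 c)) (pow_ne_zero _ a))
      (pow_ne_zero _ fun k => b (eq_neg_of_add_eq_zero_left k))
  have := (g.div hW f n).mem hW
  rw [← e, mul_div_cancel_right₀ _ (f.ne_zero hW n)] at this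
  exact hj this

lemma recAn (hB : QB) (hC : JC) (hM : ModfStmt) (hG : GdStmt) (ι : Qbar →+* ℂ) {V : Type}
    [AddCommGroup V] (β : PW (2 / 3) 4 →+ PW (5 / 3) 5 →+ V) (tf : TF V)
    (hβ : RecW (2 / 3) 4 (5 / 3) 5 β) (N : ℕ) (a x1 y1 x2 y2 : ℍ → ℂ) (hN : 3 ≤ N)
    (hw : ∀ w ∈ [a, x1, y1, x2, y2], w ∈ Mod N ∧ IntJ w) (a0 : a ≠ 0)
    (c1 : ∀ τ, y1 τ ^ 2 + 2 * x1 τ * y1 τ + 4 * y1 τ = x1 τ ^ 3)
    (c2 : ∀ τ, y2 τ ^ 2 + 5 * x2 τ * y2 τ + 5 * y2 τ = x2 τ ^ 3)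
    (jr : ∀ τ, jf τ * ((x1 τ - 4) ^ 10 * x1 τ ^ 2 * (x1 τ + 1) ^ 5) =
      ((x1 τ - 4) ^ 5 * x1 τ + 256 * (x1 τ + 1) ^ 5) ^ 3) :
    Van (relG N) {τ | a τ = 0} fun τ => (ord a τ : ℤ) •
      β (pw _ _ (qv ι (x1 τ)) (qv ι (y1 τ))) (pw _ _ (qv ι (x2 τ)) (qv ι (y2 τ))) := by
  intro R hR
  obtain ⟨F, _, _, A, φ, P, κ, hF, hA, hφ, hκ, hP, hW, hK⟩ := hM ι N hN
  have : CharZero F := charZero_of_injective_algebraMap (algebraMap Qbar F).injective
  let aA : A := ⟨a, (hA _).2 (hw _ (by simp))⟩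
  let X1 : A := ⟨x1, (hA _).2 (hw _ (by simp))⟩
  let Y1 : A := ⟨y1, (hA _).2 (hw _ (by simp))⟩
  let X2 : A := ⟨x2, (hA _).2 (hw _ (by simp))⟩
  let Y2 : A := ⟨y2, (hA _).2 (hw _ (by simp))⟩
  have ij : IntJ jf :=
    isIntegral_algebraMap (R := Algebra.adjoin ℚ {(jf : ℍ → ℂ)})
      (x := ⟨jf, Algebra.self_mem_adjoin_singleton ℚ _⟩)
  let J : A := ⟨jf, (hA _).2 ⟨hB.mod_level (one_dvd N) hB.j_mod, ij⟩⟩
  have a0' : aA ≠ 0 := fun h => a0 (congrArg Subtype.val h)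
  have al : ∀ τ ∈ R, IsAlgebraic ℚ (jf τ) := fun τ hτ =>
    hC.alg_zero (hw a (by simp)).1.1 (hw a (by simp)).2 a0 (hR.1 τ hτ)
  have d1 : φ Y1 ^ 2 + 3 * ((2 / 3 : ℚ) : F) * φ X1 * φ Y1 + ((4 : ℚ) : F) * φ Y1 = φ X1 ^ 3 := by
    have : Y1 ^ 2 + 2 * X1 * Y1 + 4 * Y1 = X1 ^ 3 := Subtype.ext (funext c1)
    have k := congrArg φ this
    simp only [map_mul, map_add, map_pow, map_ofNat] at k
    push_cast
    linear_combination k
  have d2 : φ Y2 ^ 2 + 3 * ((5 / 3 : ℚ) : F) * φ X2 * φ Y2 + ((5 : ℚ) : F) * φ Y2 = φ X2 ^ 3 := by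
    have : Y2 ^ 2 + 5 * X2 * Y2 + 5 * Y2 = X2 ^ 3 := Subtype.ext (funext c2)
    have k := congrArg φ this
    simp only [map_mul, map_add, map_pow, map_ofNat] at k
    push_cast
    linear_combination k
  have d3 : φ J * ((φ X1 - 4) ^ 10 * φ X1 ^ 2 * (φ X1 + 1) ^ 5) =
      ((φ X1 - 4) ^ 5 * φ X1 + 256 * (φ X1 + 1) ^ 5) ^ 3 := by
    have : J * ((X1 - 4) ^ 10 * X1 ^ 2 * (X1 + 1) ^ 5) =
        ((X1 - 4) ^ 5 * X1 + 256 * (X1 + 1) ^ 5) ^ 3 := Subtype.ext (funext jr)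
    simpa only [map_mul, map_add, map_sub, map_pow, map_one, map_ofNat] using congrArg φ this
  have ch : ∀ W : ValuationSubring F, ∃ τ : ℍ, W ∈ R.image P → τ ∈ R ∧ P τ = W := fun W => by
    by_cases h : W ∈ R.image P
    · obtain ⟨τ, h1, h2⟩ := Finset.mem_image.1 h
      exact ⟨τ, fun _ => ⟨h1, h2⟩⟩
    · exact ⟨UpperHalfPlane.I, fun h' => absurd h' h⟩
  choose t ht using ch
  have key := hβ F hF (φ X1) (φ Y1) (φ X2) (φ Y2) (φ aA) d1 d2
    ((map_ne_zero_iff φ hφ).2 a0') (R.image P) (fun W => qv ι (x1 (t W)))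
    (fun W => qv ι (y1 (t W))) (fun W => qv ι (x2 (t W))) (fun W => qv ι (y2 (t W)))
    (fun W hW' => by
      obtain ⟨h1, h2⟩ := ht W hW'
      obtain ⟨p1, p2⟩ := hP _ (al _ h1)
      rw [h2] at p1 p2
      exact ⟨p1, p2 X1, p2 Y1, p2 X2, p2 Y2⟩)
    (fun W pW hW' ho => by
      by_cases hj : φ J ∈ W
      · obtain ⟨τ, aτ, rfl⟩ := hW W pW fun w hw => by
          rwa [show w = J from Subtype.ext hw]
        have := hK aA R τ a0' hR aτ
        rw [Finset.sum_eq_zero fun σ hσ => absurd (Finset.mem_image.2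
          ⟨σ, (Finset.mem_filter.1 hσ).1, (Finset.mem_filter.1 hσ).2⟩) hW', mul_zero] at this
        exact absurd this (mul_ne_zero (by exact_mod_cast hκ.ne') ho)
      · by_cases hx : φ X1 ∈ W
        · obtain ⟨u, hu⟩ := Kum.exists_sp hF pW hx
          exact Or.inr ⟨u, hu, tors hG (cusp pW hj hu d3)⟩
        · exact Or.inl hx)
  refine tf 2 _ two_ne_zero ?_
  rw [← Finset.sum_fiberwise_of_maps_to (s := R) (t := R.image P) (g := P)
    fun τ hτ => Finset.mem_image_of_mem P hτ, ← smul_zero (κ : ℤ), ← key, Finset.smul_sum,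
    Finset.smul_sum]
  refine Finset.sum_congr rfl fun W hW' => ?_
  obtain ⟨h1, h2⟩ := ht W hW'
  have k := hK aA R (t W) a0' hR (al _ h1)
  rw [h2] at k
  rw [smul_smul, k, mul_smul, Finset.sum_smul]
  congr 1
  refine Finset.sum_congr rfl fun τ hτ => ?_
  obtain ⟨m1, m2⟩ := Finset.mem_filter.1 hτ
  obtain ⟨p1, p2⟩ := hP _ (al _ h1)
  obtain ⟨-, q2⟩ := hP _ (al _ m1)
  rw [h2] at p1 p2
  rw [m2] at q2
  have u : ∀ w : A, qv ι (w.1 τ) = qv ι (w.1 (t W)) := fun w => Sp.unique p1 (q2 w) (p2 w)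
  rw [u X1, u Y1, u X2, u Y2]

end Recs

theorem recs (hB : QB) (hC : JC) (hM : ModfStmt) (hm : MODB) (h1 : LC1) (h2 : LC2)
    (hJ : JrelStmt) (hG : GdStmt) (hP : PT) : RecsStmt := by
  intro ι V _ β tf hβ N j a γ B hN hj hd hv ha ia a0 R hR
  have B0 : 0 < B.det := by rw [hd]; exact_mod_cast hj
  have m1 : ∀ w ∈ [X1, Y1, X2, Y2, s0],
      (fun τ => w (γ • τ)) ∈ Mod N ∧ IntJ fun τ => w (γ • τ) := fun w hw =>
    ⟨hB.mod_level ((dvd_mul_right 10 j).trans hv) (comp_SL_mem_Mod (hm.md w hw).1 γ), by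
      simpa only [mob_SL] using hC.intJ_mob (det_SL_pos γ) (hm.md w hw).2.1⟩
  have m2 : ∀ w ∈ [X1, Y1, X2, Y2, s0],
      (fun τ => w (mob B τ)) ∈ Mod N ∧ IntJ fun τ => w (mob B τ) := fun w hw =>
    ⟨hB.mod_level (by rwa [hd, Int.toNat_natCast]) (hB.mod_mob B0 (hm.md w hw).1),
      hC.intJ_mob B0 (hm.md w hw).2.1⟩
  have key := Recs.recAn hB hC hM hG ι β tf hβ N a (fun τ => X1 (γ • τ)) (fun τ => Y1 (γ • τ))
    (fun τ => X2 (mob B τ)) (fun τ => Y2 (mob B τ))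
    (by have := Nat.le_of_dvd hN hv; omega)
    (fun w hw => by
      simp only [List.mem_cons, List.not_mem_nil, or_false] at hw
      rcases hw with rfl | rfl | rfl | rfl | rfl
      · exact ⟨ha, ia⟩
      · exact m1 X1 (by simp)
      · exact m1 Y1 (by simp)
      · exact m2 X2 (by simp)
      · exact m2 Y2 (by simp))
    a0 (fun τ => h1.curve _) (fun τ => h2.curve _)
    (fun τ => by rw [← hB.j_inv γ τ]; exact hJ _) R hR
  rw [← key]
  refine Finset.sum_congr rfl fun τ hτ => ?_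
  have al : IsAlgebraic ℚ (jf τ) := hC.alg_zero ha.1 ia a0 (hR.1 τ hτ)
  show (ord a τ : ℤ) • β (U1 ι (γ • τ)) (U2 ι (mob B τ)) = _
  rw [U1, U2, if_pos (by rwa [hB.j_inv]), if_pos ((hP.alg B τ B0).2 al)]

end Pool.Agent.MP_9207e0_ag.e3
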