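import Pool.Agent.MP_9207e0_ag.e3.SpecC

/-! The ring of integers of the quadratic field. -/

namespace Pool.Agent.MP_9207e0_ag.e3

open NumberField Polynomial

namespace RingQ

theorem tab : ∀ j < 10, ∀ e ∈ [31, 39], ∃ t < 100, t % 2 = 1 ∧ t % 5 ≠ 0 ∧
    (t * t + (40 * j + e)) % 400 = 0 := by
  decide +kernel

theorem exists_t {n : ℕ} (h : n % 40 = 31 ∨ n % 40 = 39) :
    ∃ t m : ℤ, t % 2 = 1 ∧ IsCoprime t 10 ∧ t ^ 2 - 4 * m = -n ∧ 100 ∣ m := by
  obtain ⟨t, -, h1, h2, h3⟩ := tab (n % 400 / 40) (by omega) (n % 40) (by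
    rcases h with h | h <;> simp [h])
  obtain ⟨c, hc⟩ : 400 ∣ t * t + n := by
    generalize t * t = s at h3
    omega
  refine ⟨t, 100 * c, by omega, ?_, ?_, dvd_mul_right _ _⟩
  · have h4 : Nat.Coprime t (2 * 5) := Nat.Coprime.mul_right
      ((Nat.Prime.coprime_iff_not_dvd Nat.prime_two).2 (by omega)).symm
      ((Nat.Prime.coprime_iff_not_dvd Nat.prime_five).2 (by omega)).symm
    exact_mod_cast Nat.isCoprime_iff_coprime.2 h4
  · have h5 : (t : ℤ) * t + n = 400 * c := by exact_mod_cast hc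
    linarith

theorem span {n : ℕ} (hn : 0 < n) {r : Qbar} (hr : r ^ 2 = -n) {z : Qbar}
    (hz : z ∈ IntermediateField.adjoin ℚ {z : Qbar | z ^ 2 = -n}) :
    ∃ u v : ℚ, z = u + v * r := by
  induction hz using IntermediateField.adjoin_induction with
  | mem x hx =>
    rcases sq_eq_sq_iff_eq_or_eq_neg.1 ((show x ^ 2 = -n from hx).trans hr.symm) with h | h
    · exact ⟨0, 1, by simp [h]⟩
    · exact ⟨0, -1, by simp [h]⟩
  | algebraMap x => exact ⟨x, 0, by simp⟩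
  | add x y _ _ hx hy =>
    obtain ⟨u, v, rfl⟩ := hx
    obtain ⟨u', v', rfl⟩ := hy
    exact ⟨u + u', v + v', by push_cast; ring⟩
  | inv x _ hx =>
    obtain ⟨u, v, rfl⟩ := hx
    by_cases h : u ^ 2 + n * v ^ 2 = 0
    · have h0 : (0 : ℚ) < n := by exact_mod_cast hn
      have h1 : v = 0 := by
        by_contra hv
        have : 0 < n * v ^ 2 := by positivity
        nlinarith [sq_nonneg u]
      exact ⟨u⁻¹, 0, by simp [h1]⟩
    · refine ⟨u / (u ^ 2 + n * v ^ 2), -v / (u ^ 2 + n * v ^ 2), inv_eq_of_mul_eq_one_right ?_⟩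
      have h1 : (u : Qbar) ^ 2 + n * (v : Qbar) ^ 2 ≠ 0 := by exact_mod_cast h
      push_cast
      rw [← mul_div_right_comm, ← add_div, ← mul_div_assoc, div_eq_one_iff_eq h1]
      linear_combination (-(v : Qbar) ^ 2) * hr
  | mul x y _ _ hx hy =>
    obtain ⟨u, v, rfl⟩ := hx
    obtain ⟨u', v', rfl⟩ := hy
    exact ⟨u * u' - n * v * v', u * v' + v * u', by
      push_cast; linear_combination ((v : Qbar) * v') * hr⟩

theorem conj_eq {n : ℕ} (hn : 0 < n) {w : ℂ} (hw : w ^ 2 = -n) : starRingEnd ℂ w = -w := by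
  have h0 : (0 : ℝ) < n := by exact_mod_cast hn
  have h1 := congrArg Complex.re hw
  have h2 := congrArg Complex.im hw
  simp only [sq, Complex.mul_re, Complex.mul_im, Complex.neg_re, Complex.neg_im,
    Complex.natCast_re, Complex.natCast_im] at h1 h2
  have h3 : w.re = 0 := by
    by_contra h
    have h4 : w.im = 0 := by
      apply mul_left_cancel₀ h
      linarith
    rw [h4] at h1
    nlinarith [mul_self_nonneg w.re]
  apply Complex.ext <;> simp [h3]

theorem int_of {x : ℚ} (h : IsIntegral ℤ (x : ℂ)) : ∃ a : ℤ, x = a := by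
  have h1 : IsIntegral ℤ x := (isIntegral_algebraMap_iff (algebraMap ℚ ℂ).injective).1 h
  obtain ⟨a, ha⟩ := IsIntegrallyClosed.isIntegral_iff.1 h1
  exact ⟨a, by simpa using ha.symm⟩

theorem int_of_sq {n : ℕ} (hs : Squarefree n) {w : ℚ} {c : ℤ} (h : n * w ^ 2 = c) :
    ∃ b : ℤ, w = b := by
  have h1 : (w.den : ℚ) * w = w.num := Rat.den_mul_eq_num w
  have h2 : (n : ℤ) * w.num ^ 2 = c * (w.den : ℤ) ^ 2 := by
    have : (n : ℚ) * (w.num : ℚ) ^ 2 = c * (w.den : ℚ) ^ 2 := by rw [← h1, ← h]; ring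
    exact_mod_cast this
  have h3 : IsCoprime ((w.den : ℤ) ^ 2) (w.num ^ 2) := (Rat.isCoprime_num_den w).symm.pow
  have h4 : (w.den : ℤ) ^ 2 ∣ n := h3.dvd_of_dvd_mul_right ⟨c, by rw [h2]; ring⟩
  have h5 : w.den * w.den ∣ n := by
    rw [← sq]
    exact_mod_cast h4
  have h6 : w.den = 1 := Nat.isUnit_iff.1 (hs _ h5)
  exact ⟨w.num, by rw [← h1, h6]; simp⟩

theorem half {n : ℕ} (hn : 0 < n) (hs : Squarefree n) (h4 : n % 4 = 3) {w : ℂ}
    (hw : w ^ 2 = -n) {u v : ℚ} (h : IsIntegral ℤ (u + v * w)) :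
    ∃ A B : ℤ, 2 * u = A ∧ 2 * v = B ∧ 2 ∣ A - B := by
  have h1 : IsIntegral ℤ ((u : ℂ) - v * w) := by
    have := h.map (starRingEnd ℂ).toIntAlgHom
    simpa [conj_eq hn hw, sub_eq_add_neg] using this
  obtain ⟨A, hA⟩ := int_of (x := 2 * u) (by
    have := h.add h1
    rwa [show (u + v * w + (u - v * w) : ℂ) = ((2 * u : ℚ) : ℂ) by push_cast; ring] at this)
  obtain ⟨N, hN⟩ := int_of (x := u ^ 2 + n * v ^ 2) (by
    have := h.mul h1
    rwa [show ((u + v * w) * (u - v * w) : ℂ) = ((u ^ 2 + n * v ^ 2 : ℚ) : ℂ) by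
      push_cast; linear_combination (-(v : ℂ) ^ 2) * hw] at this)
  obtain ⟨B, hB⟩ := int_of_sq hs (w := 2 * v) (c := 4 * N - A ^ 2) (by
    push_cast; rw [← hA, ← hN]; ring)
  refine ⟨A, B, hA, hB, ?_⟩
  have h2 : A ^ 2 + n * B ^ 2 = 4 * N := by
    have : (A : ℚ) ^ 2 + n * (B : ℚ) ^ 2 = 4 * N := by rw [← hA, ← hB, ← hN]; ring
    exact_mod_cast this
  obtain ⟨k, hk⟩ : ∃ k : ℤ, (n : ℤ) = 2 * k + 1 := ⟨n / 2, by omega⟩
  rw [hk] at h2
  have h3 : (2 : ℤ) ∣ (A - B) ^ 2 := ⟨2 * N - k * B ^ 2 - A * B, by linear_combination h2⟩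
  exact Int.prime_two.dvd_of_dvd_pow h3

end RingQ

open RingQ in
theorem ringq : RingStmt := by
  intro n K _ hs hn hK
  have h0 : 0 < n := by omega
  obtain ⟨t, m, t1, t2, t3, t4⟩ := exists_t hn
  obtain ⟨r, hr⟩ := IsAlgClosed.exists_pow_nat_eq (-(n : Qbar)) two_pos
  have hm : r ∈ K := hK ▸ IntermediateField.subset_adjoin ℚ _ hr
  let s : K := ⟨r, hm⟩
  have hs2 : s ^ 2 = -n := Subtype.ext (by simpa using hr)
  have t5 : (t : K) ^ 2 - 4 * m = -n := by exact_mod_cast congrArg (Int.cast : ℤ → K) t3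
  have he : (((t : K) + s) / 2) ^ 2 - t * ((t + s) / 2) + m = 0 := by
    linear_combination (1 / 4 : K) * hs2 - (1 / 4 : K) * t5
  have hi : IsIntegral ℤ (((t : K) + s) / 2) := by
    refine ⟨X ^ 2 - C t * X + C m, by monicity!, ?_⟩
    rw [eval₂_add, eval₂_sub, eval₂_mul, eval₂_pow, eval₂_C, eval₂_C, eval₂_X]
    simpa using he
  obtain ⟨lam, hl⟩ : ∃ lam : 𝓞 K, algebraMap (𝓞 K) K lam = ((t : K) + s) / 2 := ⟨⟨_, hi⟩, rfl⟩
  refine ⟨m, t, lam, ⟨hs, by omega, t3, t2, t4⟩, ?_, fun z => ?_⟩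
  · apply RingOfIntegers.coe_injective
    simpa [hl] using he
  · obtain ⟨u, v, hz⟩ := span h0 hr (hK.le (z : K).2)
    have hz' : (z : K) = u + v * s := Subtype.ext (by simpa using hz)
    obtain ⟨φ⟩ : Nonempty (K →+* ℂ) := inferInstance
    have h1 : IsIntegral ℤ ((u : ℂ) + v * φ s) := by
      have := (RingOfIntegers.isIntegral_coe z).map φ.toIntAlgHom
      rw [show algebraMap (𝓞 K) K z = (z : K) from rfl, hz'] at this
      simpa using this
    obtain ⟨A, B, hA, hB, c, hc⟩ := half h0 hs (by omega) (w := φ s)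
      (by rw [← map_pow, hs2]; simp) h1
    obtain ⟨k, hk⟩ : ∃ k : ℤ, t = 2 * k + 1 := ⟨t / 2, by omega⟩
    refine ⟨c - B * k, B, RingOfIntegers.coe_injective ?_⟩
    have a1 : (2 : K) * u = A := by exact_mod_cast congrArg (Rat.cast : ℚ → K) hA
    have a2 : (2 : K) * v = B := by exact_mod_cast congrArg (Rat.cast : ℚ → K) hB
    have a3 : (A : K) - B = 2 * c := by exact_mod_cast congrArg (Int.cast : ℤ → K) hc
    have a4 : (t : K) = 2 * k + 1 := by exact_mod_cast congrArg (Int.cast : ℤ → K) hk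
    have a5 : (z : K) = ((c - B * k : ℤ) : K) + B * ((t + s) / 2) := by
      rw [hz']
      push_cast
      linear_combination (1 / 2 : K) * a1 + (s / 2) * a2 + (1 / 2 : K) * a3 - (B / 2 : K) * a4
    rw [map_add, map_mul, hl, map_intCast, map_intCast]
    exact a5

end Pool.Agent.MP_9207e0_ag.e3
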