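import Pool.Agent.MP_9207e0_ag.e3.SpecC

/-! Module TWO: from level `Γ₀(100)` to level `Γ(10)`. -/

set_option linter.unusedSectionVars false
set_option linter.unusedVariables false

namespace Pool.Agent.MP_9207e0_ag.e3

open UpperHalfPlane Complex Filter Asymptotics Matrix Pool.Agent.MP_9207e0_ag.hg
open scoped Real MatrixGroups Manifold Classical Kronecker

namespace TwoA

theorem ent (g h : SL2) (i j : Fin 2) :
    ((g * h : SL2) : M2) i j = (g : M2) i 0 * (h : M2) 0 j + (g : M2) i 1 * (h : M2) 1 j := by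
  rw [Matrix.SpecialLinearGroup.coe_mul, Matrix.mul_apply, Fin.sum_univ_two]

theorem inv_eq (g : SL2) : ((g⁻¹ : SL2) : M2) =
    !![(g : M2) 1 1, -(g : M2) 0 1; -(g : M2) 1 0, (g : M2) 0 0] := by
  rw [Matrix.SpecialLinearGroup.coe_inv, Matrix.adjugate_fin_two]

/-- Matrices that are diagonal modulo ten. -/
def L : Subgroup SL2 where
  carrier := {g | 10 ∣ (g : M2) 0 1 ∧ 10 ∣ (g : M2) 1 0}
  mul_mem' := fun {g h} hg hh => by
    refine ⟨?_, ?_⟩ <;> rw [ent]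
    · exact dvd_add (hh.1.mul_left _) (hg.1.mul_right _)
    · exact dvd_add (hg.2.mul_right _) (hh.2.mul_left _)
  one_mem' := by constructor <;> simp
  inv_mem' := fun {g} hg => by
    refine ⟨?_, ?_⟩ <;> rw [inv_eq]
    · exact (dvd_neg.2 hg.1 :)
    · exact (dvd_neg.2 hg.2 :)

/-- The first entry modulo ten. -/
def c (g : SL2) : ZMod 10 := ((g : M2) 0 0 : ℤ)

theorem z10 {a : ℤ} : (a : ZMod 10) = 0 ↔ 10 ∣ a := ZMod.intCast_zmod_eq_zero_iff_dvd a 10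

theorem c_mul {g : SL2} (hg : g ∈ L) (h : SL2) : c (g * h) = c g * c h := by
  rw [c, ent, Int.cast_add, Int.cast_mul, Int.cast_mul, z10.2 hg.1, zero_mul, add_zero, c, c]

theorem c_neg (g : SL2) : c (-g) = -c g := by simp [c]

theorem neg_mem {g : SL2} (hg : g ∈ L) : -g ∈ L := ⟨by simpa using hg.1, by simpa using hg.2⟩

theorem c_det {g : SL2} (hg : g ∈ L) : c g * (((g : M2) 1 1 : ℤ) : ZMod 10) = 1 := by
  have h := congrArg (Int.cast : ℤ → ZMod 10) (det_SL g)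
  rwa [Matrix.det_fin_two, Int.cast_sub, Int.cast_mul, Int.cast_mul, z10.2 hg.1, zero_mul,
    sub_zero, Int.cast_one] at h

theorem gam_iff {g : SL2} : g ∈ Gam 10 ↔ g ∈ L ∧ c g = 1 := by
  rw [CongruenceSubgroup.Gamma_mem]
  refine ⟨fun h => ⟨⟨z10.1 h.2.1, z10.1 h.2.2.1⟩, h.1⟩,
    fun h => ⟨h.2, z10.2 h.1.1, z10.2 h.1.2, ?_⟩⟩
  have := c_det h.1
  rwa [h.2, one_mul] at this

/-- The second coset. -/
def d0 : SL2 := ⟨!![3, 10; 20, 67], by simp [Matrix.det_fin_two]⟩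

theorem d0_mem : d0 ∈ L := by constructor <;> simp [d0]

theorem c_d0 : c d0 = 3 := by simp [c, d0]

theorem up {g : SL2} (hg : g ∈ L) (h : c g = 1 ∨ c g = -1) (x : ℍ) : relG 10 x (g • x) := by
  rcases h with h | h
  · exact ⟨g, gam_iff.2 ⟨hg, h⟩, rfl⟩
  · exact ⟨-g, gam_iff.2 ⟨neg_mem hg, by rw [c_neg, h, neg_neg]⟩, ModularGroup.SL_neg_smul g x⟩

theorem four {g : SL2} (hg : g ∈ L) (x : ℍ) : relG 10 x (g • x) ∨ relG 10 x (d0 • g • x) := by
  have h : ∀ a b : ZMod 10, a * b = 1 → (a = 1 ∨ a = -1) ∨ 3 * a = 1 ∨ 3 * a = -1 := by decide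
  refine (h _ _ (c_det hg)).imp (fun h => up hg h x) fun h => ?_
  rw [← mul_smul]
  exact up (L.mul_mem d0_mem hg) (by rwa [c_mul d0_mem, c_d0]) x

/-- Equivalence modulo `L`. -/
def rl (τ σ : ℍ) : Prop := ∃ g ∈ L, g • τ = σ

theorem rl_equiv : Equivalence rl :=
  ⟨fun _ => ⟨1, L.one_mem, one_smul _ _⟩,
    fun ⟨g, h, e⟩ => ⟨g⁻¹, L.inv_mem h, by rw [← e, inv_smul_smul]⟩,
    fun ⟨g, h, e⟩ ⟨g', h', e'⟩ => ⟨g' * g, L.mul_mem h' h, by rw [mul_smul, e, e']⟩⟩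

theorem dpos : 0 < (dg 10 1).det := by rw [det_dg]; norm_num

theorem key {a b c d : ℤ} (h : 0 < (!![a, b; 10 * c, d] : M2).det) (τ : ℍ) :
    mob !![a, 10 * b; c, d] (mob (dg 10 1) τ) = mob (dg 10 1) (mob !![a, b; 10 * c, d] τ) := by
  have h' : 0 < (!![a, 10 * b; c, d] : M2).det := by
    rw [Matrix.det_fin_two_of] at h ⊢
    linarith
  rw [← mob_mul h' dpos, ← mob_mul dpos h]
  congr 1
  simp [dg, mul_comm]

theorem split1 (W : M2) {c : ℤ} (h : W 1 0 = c) : W = !![W 0 0, W 0 1; c, W 1 1] :=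
  h ▸ Matrix.eta_fin_two W

theorem split2 (W : M2) {b : ℤ} (h : W 0 1 = b) : W = !![W 0 0, b; W 1 0, W 1 1] :=
  h ▸ Matrix.eta_fin_two W

variable {n : ℕ} {m t e : ℤ}

theorem to_sg (hH : HB) (h : Dat n m t) {τ : ℍ} (hτ : HS m t e τ) :
    Sg m t e (mob (dg 10 1) τ) := by
  obtain ⟨W, ⟨h1, h2, h3, h4⟩, h5, k, h6⟩ := hτ
  have h7 : W 1 0 = 10 * (10 * k) := by rw [h6]; ring
  have hp : 0 < W.det := h2 ▸ hH.pos h
  rw [h7] at h4
  rw [split1 W h7] at h1 h2 h3 hp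
  refine ⟨!![W 0 0, 10 * W 0 1; 10 * k, W 1 1], ?_, ?_, by rw [key hp, h3],
    ((by norm_num : (10 : ℤ) ∣ 100).trans h5 :), dvd_mul_right 10 (W 0 1), dvd_mul_right 10 k, ?_⟩
  · rwa [Matrix.trace_fin_two_of] at h1 ⊢
  · rw [Matrix.det_fin_two_of] at h2 ⊢
    linarith
  · show 0 < e * (10 * k)
    linarith

theorem of_sg (hH : HB) (h : Dat n m t) {σ : ℍ} (hσ : Sg m t e σ) :
    ∃ τ, HS m t e τ ∧ mob (dg 10 1) τ = σ := by
  obtain ⟨W, h1, h2, h3, h4, ⟨b, h5⟩, h6, h7⟩ := hσ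
  rw [split2 W h5] at h1 h2 h3
  rw [Matrix.trace_fin_two_of] at h1
  rw [Matrix.det_fin_two_of] at h2
  have hd : (!![W 0 0, b; 10 * W 1 0, W 1 1] : M2).det = m := by
    rw [Matrix.det_fin_two_of]
    linarith
  have e1 := mob_mob_adj dpos σ
  refine ⟨_, ⟨!![W 0 0, b; 10 * W 1 0, W 1 1], ⟨by rwa [Matrix.trace_fin_two_of], hd,
    mob_injective dpos (by rw [← key (hd ▸ hH.pos h), e1, h3]), ?_⟩, ?_, ?_⟩, e1⟩
  · show 0 < e * (10 * W 1 0)
    linarith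
  · show 100 ∣ W 0 0
    obtain ⟨a, ha⟩ := h4
    obtain ⟨k, hk⟩ := h6
    have c1 : IsCoprime (10 : ℤ) (W 1 1) := by
      have := h.cop.symm
      rw [← h1, ha, add_comm] at this
      exact this.of_add_mul_left_right
    have c2 : IsCoprime (100 : ℤ) (W 1 1) := by simpa using c1.mul_left c1
    refine c2.dvd_of_dvd_mul_right ?_
    rw [show W 0 0 * W 1 1 = m + 100 * (b * k) by rw [← h2, hk]; ring]
    exact dvd_add h.dvd (dvd_mul_right _ _)
  · exact (mul_dvd_mul_left 10 h6 :)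

theorem rel_iff (τ σ : ℍ) : rel0 τ σ ↔ rl (mob (dg 10 1) τ) (mob (dg 10 1) σ) := by
  constructor
  · rintro ⟨g, ⟨k, h⟩, rfl⟩
    have h7 : (g : M2) 1 0 = 10 * (10 * k) := by rw [h]; ring
    have h1 := det_SL g
    have h2 := mob_SL g τ
    rw [split1 (g : M2) h7] at h1 h2
    refine ⟨⟨!![(g : M2) 0 0, 10 * (g : M2) 0 1; 10 * k, (g : M2) 1 1], ?_⟩,
      ⟨dvd_mul_right 10 ((g : M2) 0 1), dvd_mul_right 10 k⟩, ?_⟩
    · rw [Matrix.det_fin_two_of] at h1 ⊢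
      linarith
    · exact (mob_SL _ _).symm.trans ((key (one_pos.trans_eq h1.symm) τ).trans (congrArg _ h2))
  · rintro ⟨g, ⟨⟨b, h⟩, h'⟩, e⟩
    have h1 := det_SL g
    rw [← mob_SL] at e
    rw [split2 (g : M2) h] at h1 e
    have hd : (!![(g : M2) 0 0, b; 10 * (g : M2) 1 0, (g : M2) 1 1] : M2).det = 1 := by
      rw [Matrix.det_fin_two_of] at h1 ⊢
      linarith
    refine ⟨⟨_, hd⟩, (mul_dvd_mul_left 10 h' :), mob_injective dpos ?_⟩
    exact (congrArg _ (mob_SL ⟨_, hd⟩ τ).symm).trans ((key (one_pos.trans_eq hd.symm) τ).symm.trans e)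

theorem sg_smul (hH : HB) (h : Dat n m t) {g : SL2} (hg : g ∈ L) {τ : ℍ} (hτ : Sg m t e τ) :
    Sg m t e (g • τ) := by
  obtain ⟨W, h1, h2, h3, h4, h5, h6, h7⟩ := hτ
  obtain ⟨k1, k2, k3, k4⟩ := hH.conj g h (⟨h1, h2, h3, h7⟩ : HF m t e W τ)
  have a1 := z10.2 hg.1
  have a2 := z10.2 hg.2
  refine ⟨_, k1, k2, k3, z10.1 ?_, z10.1 ?_, z10.1 ?_, k4⟩ <;> rw [inv_eq] <;>
    simp [Matrix.mul_apply, Fin.sum_univ_two, z10.2 h4, z10.2 h5, z10.2 h6, a1, a2]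

theorem no_fix (hH : HB) (h : Dat n m t) {τ : ℍ} (hτ : Sg m t e τ) {g : SL2} (hg : c g = 3) :
    g • τ ≠ τ := fun e => by
  obtain ⟨W, h1, h2, h3, -, -, -, h7⟩ := hτ
  rcases hH.stab g h (⟨h1, h2, h3, h7⟩ : HF m t _ W τ) e with rfl | rfl
  · exact absurd hg (by decide)
  · exact absurd hg (by decide)

end TwoA

open TwoA in
theorem two (hS : OS) (hH : HB) : TwoStmt := by
  intro n m t e R h hR
  obtain ⟨⟨r1, r2⟩, inj⟩ := hS.transport (S' := {τ | Sg m t e τ}) (mob (dg 10 1)) hH.equiv rl_equiv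
    (fun x hx => to_sg hH h hx) (fun y hy => by
      obtain ⟨τ, h1, h2⟩ := of_sg hH h hy
      exact ⟨τ, h1, h2 ▸ rl_equiv.refl _⟩) (fun x _ x' _ => rel_iff x x') hR
  have uq : ∀ {x y z : ℍ} {g g' : SL2}, Sg m t e x → y ∈ R.image (mob (dg 10 1)) →
      z ∈ R.image (mob (dg 10 1)) → g ∈ L → g' ∈ L → g • x = y → g' • x = z → y = z :=
    fun hx hy hz hg hg' e e' => (r2 _ hx).unique ⟨hy, _, hg, e⟩ ⟨hz, _, hg', e'⟩
  have mix : ∀ {x y z : ℍ} {g g' : SL2}, Sg m t e x → y ∈ R.image (mob (dg 10 1)) →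
      z ∈ R.image (mob (dg 10 1)) → g ∈ Gam 10 → g' ∈ Gam 10 → g • x = y → g' • x ≠ d0 • z := by
    intro x y z g g' hx hy hz hg hg' e e'
    have h1 := uq hx hy hz (gam_iff.1 hg).1 (L.mul_mem (L.inv_mem d0_mem) (gam_iff.1 hg').1) e
      (by rw [mul_smul, e', inv_smul_smul])
    have h2 := gam_iff.1 ((Gam 10).inv_mem hg')
    refine no_fix hH h hx (g := g'⁻¹ * (d0 * g)) ?_ ?_
    · rw [c_mul h2.1, c_mul d0_mem, h2.2, c_d0, (gam_iff.1 hg).2, one_mul, mul_one]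
    · rw [mul_smul, mul_smul, e, h1, ← e', inv_smul_smul]
  refine ⟨R.image (mob (dg 10 1)) ∪ (R.image (mob (dg 10 1))).image (d0 • ·), ⟨fun x hx => ?_,
    fun x hx => existsUnique_of_exists_of_unique ?_ ?_⟩, fun f hf => ?_⟩
  · rcases Finset.mem_union.1 hx with hx | hx
    · exact r1 x hx
    · obtain ⟨y, hy, rfl⟩ := Finset.mem_image.1 hx
      exact sg_smul hH h d0_mem (r1 y hy)
  · obtain ⟨y, hy, g, hg, rfl⟩ := (r2 x hx).exists
    rcases four hg x with k | k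
    · exact ⟨_, Finset.mem_union_left _ hy, k⟩
    · exact ⟨_, Finset.mem_union_right _ (Finset.mem_image_of_mem _ hy), k⟩
  · rintro y z ⟨hy, g, hg, e⟩ ⟨hz, g', hg', e'⟩
    rcases Finset.mem_union.1 hy with hy | hy <;> rcases Finset.mem_union.1 hz with hz | hz
    · exact uq hx hy hz (gam_iff.1 hg).1 (gam_iff.1 hg').1 e e'
    · obtain ⟨z, hz', rfl⟩ := Finset.mem_image.1 hz
      exact absurd e' (mix hx hy hz' hg hg' e)
    · obtain ⟨y, hy', rfl⟩ := Finset.mem_image.1 hy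
      exact absurd e (mix hx hz hy' hg' hg e')
    · obtain ⟨y, hy', rfl⟩ := Finset.mem_image.1 hy
      obtain ⟨z, hz', rfl⟩ := Finset.mem_image.1 hz
      exact congrArg (d0 • ·) (uq hx hy' hz' (L.mul_mem (L.inv_mem d0_mem) (gam_iff.1 hg).1)
        (L.mul_mem (L.inv_mem d0_mem) (gam_iff.1 hg').1) (by rw [mul_smul, e, inv_smul_smul])
        (by rw [mul_smul, e', inv_smul_smul]))
  · rw [Finset.sum_union, Finset.sum_image fun x _ y _ e => MulAction.injective d0 e,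
      Finset.sum_congr rfl fun x _ => hf d0 d0_mem.1 d0_mem.2 x, Finset.sum_image inj, two_smul]
    refine Finset.disjoint_left.2 fun y hy hz => ?_
    obtain ⟨z, hz', e⟩ := Finset.mem_image.1 hz
    exact mix (r1 y hy) hy hz' (Gam 10).one_mem (Gam 10).one_mem (one_smul _ _)
      ((one_smul _ _).trans e.symm)

end Pool.Agent.MP_9207e0_ag.e3
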