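import Pool.Agent.MP_9207e0_ag.e3.SpecC

/-! Module UNR: the extension cut out by a translated point is unramified. -/

namespace Pool.Agent.MP_9207e0_ag.e3

open NumberField IsDedekindDomain
open scoped Classical

namespace UnrA

theorem exists_res {L Γ : Type} [Field L] [LinearOrderedCommGroupWithZero Γ] (v : Valuation L Γ) :
    ∃ (F : Type) (_ : Field F) (r : v.valuationSubring →+* F), ∀ z, r z = 0 ↔ v z < 1 :=
  ⟨_, inferInstance, IsLocalRing.residue _, fun z => by
    rw [IsLocalRing.residue_eq_zero_iff, ValuationSubring.valuation_lt_one_iff,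
      (Valuation.isEquiv_valuation_valuationSubring v).lt_one_iff_lt_one]⟩

theorem good {L Γ : Type} [Field L] [LinearOrderedCommGroupWithZero Γ] (v : Valuation L Γ)
    (a b : ℤ) {x y x' y' : L} (hx : v x' = v x) (hy : v y' = v y)
    (tx : v x ≤ 1 → v (x' - x) < 1) (ty : v y ≤ 1 → v (y' - y) < 1) (hb : ¬v b < 1)
    (hd : ¬v ((a ^ 3 - 27 * b : ℤ) : L) < 1) (e : y ^ 2 + a * x * y + b * y = x ^ 3) (x0 : x ≠ 0)
    (e1 : x' * x ^ 2 = -b * y) (e2 : y' * x ^ 3 = -b ^ 2 * y) : False := by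
  obtain ⟨F, _, r, hr⟩ := exists_res v
  have vb : v b = 1 := le_antisymm (intCast_mem v.valuationSubring b) (not_lt.1 hb)
  have y0 : v y ≠ 0 := fun c => by
    rw [v.zero_iff.1 c] at e
    exact pow_ne_zero 3 x0 (by rw [← e]; ring)
  have k1 := congrArg v e1
  have k2 := congrArg v e2
  simp only [map_mul, map_pow, Valuation.map_neg, hx, hy, vb, one_mul, one_pow] at k1 k2
  have k3 : v x ^ 3 = 1 := mul_left_cancel₀ y0 (by rw [k2, mul_one])
  have vx : v x = 1 := by
    rcases lt_trichotomy (v x) 1 with c | c | c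
    exacts [absurd k3 (pow_lt_one₀ zero_le c (by norm_num)).ne, c,
      absurd k3 (one_lt_pow₀ c (by norm_num)).ne']
  have vy : v y = 1 := by rw [← k1, vx, one_pow, one_mul]
  let X : v.valuationSubring := ⟨x, vx.le⟩
  let Y : v.valuationSubring := ⟨y, vy.le⟩
  let X' : v.valuationSubring := ⟨x', (hx.trans vx).le⟩
  let Y' : v.valuationSubring := ⟨y', (hy.trans vy).le⟩
  have r1 : r X' = r X := by rw [← sub_eq_zero, ← map_sub, hr]; exact tx vx.le
  have r2 : r Y' = r Y := by rw [← sub_eq_zero, ← map_sub, hr]; exact ty vy.le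
  have f := congrArg r (show Y ^ 2 + a * X * Y + b * Y = X ^ 3 from Subtype.ext e)
  have f1 := congrArg r (show X' * X ^ 2 = -b * Y from Subtype.ext e1)
  have f2 := congrArg r (show Y' * X ^ 3 = -b ^ 2 * Y from Subtype.ext e2)
  simp only [map_add, map_mul, map_pow, map_neg, map_intCast, r1, r2] at f f1 f2
  have n1 : r Y ≠ 0 := fun c => ((hr Y).1 c).ne vy
  have n2 : (b : F) ≠ 0 := fun c => hb ((hr b).1 (by rw [map_intCast, c]))
  refine hd ((hr ((a ^ 3 - 27 * b : ℤ) : v.valuationSubring)).1 ?_)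
  rw [map_intCast]
  push_cast
  have g1 : r X ^ 3 = -(b : F) ^ 2 := mul_left_cancel₀ n1 (by rw [f2]; ring)
  have g2 : r Y = b := mul_left_cancel₀ n2 (by linear_combination f1 - g1)
  have g3 : a * r X = -3 * b := mul_left_cancel₀ n2 (by
    rw [g2, g1] at f
    linear_combination f)
  refine mul_left_cancel₀ (pow_ne_zero 2 n2) ?_
  have g4 : (a * r X) ^ 3 = (-3 * b) ^ 3 := by rw [g3]
  linear_combination (a : F) ^ 3 * g1 - g4

theorem cub {p : ℕ} (hp : p = 2 ∨ p = 5) : ∀ a : ZMod p, a ^ 3 - 1 = 0 → a - 1 = 0 := by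
  rcases hp with rfl | rfl <;> decide

theorem one {F : Type} [Field F] {p : ℕ} (hp : p = 2 ∨ p = 5) (h0 : (p : F) = 0) :
    (3 : F) ≠ 0 ∧ ∀ k : ℤ, (k : F) ^ 3 = 1 → (k : F) = 1 := by
  have pp : p.Prime := by rcases hp with rfl | rfl <;> norm_num
  have := Fact.mk pp
  have := (CharP.charP_iff_prime_eq_zero (R := F) pp).2 h0
  refine ⟨fun c => ?_, fun k hk => ?_⟩
  · have := (CharP.cast_eq_zero_iff F p 3).1 (by exact_mod_cast c)
    rcases hp with rfl | rfl <;> omega
  · have h1 : (p : ℤ) ∣ k ^ 3 - 1 := (CharP.intCast_eq_zero_iff F p _).1 (by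
      push_cast
      rw [hk, sub_self])
    have h2 : (p : ℤ) ∣ k - 1 := by
      rw [← ZMod.intCast_zmod_eq_zero_iff_dvd] at h1 ⊢
      push_cast at h1 ⊢
      exact cub hp _ h1
    have := (CharP.intCast_eq_zero_iff F p _).2 h2
    push_cast at this
    exact sub_eq_zero.1 this

theorem bad {K L : Type} [Field K] [NumberField K] [Field L] [NumberField L] [Algebra K L]
    [IsGalois K L] (h3 : Module.finrank K L = 3) (hK : Res K) {w : HeightOneSpectrum (𝓞 L)}
    (hw : Ram K L w) {p : ℕ} (hp : p = 2 ∨ p = 5) : ¬w.valuation L (p : L) < 1 := by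
  intro hv
  have : FiniteDimensional K L := Module.finite_of_finrank_pos (by omega)
  obtain ⟨F, _, r, hr⟩ := exists_res (w.valuation L)
  obtain ⟨π, hπ⟩ := w.valuation_exists_uniformizer L
  have v0 : w.valuation L π ≠ 0 := by rw [hπ]; exact WithZero.exp_ne_zero
  have π0 : π ≠ 0 := fun c => v0 (by rw [c, map_zero])
  obtain ⟨n3, hk⟩ := one hp (show (p : F) = 0 by
    rw [← map_natCast r, hr]
    exact hv)
  have hc : Nat.card (L ≃ₐ[K] L) = 3 := (IsGalois.card_aut_eq_finrank K L).trans h3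
  have vu : ∀ τ : L ≃ₐ[K] L, w.valuation L (τ π / π) = 1 := fun τ => by
    rw [map_div₀, hw.val, div_self v0]
  have low : ∀ z : 𝓞 K, z ∈ (w.under (𝓞 K)).asIdeal ↔
      w.valuation L (algebraMap K L (z : K)) < 1 := fun z =>
    (w.valuation_lt_one_iff_mem (K := L) (algebraMap (𝓞 K) (𝓞 L) z)).symm
  let U : (L ≃ₐ[K] L) → (w.valuation L).valuationSubring := fun τ => ⟨τ π / π, (vu τ).le⟩
  have ru : ∀ τ, r (U τ) = 1 := fun τ => by
    have t3 : τ ^ 3 = 1 := hc ▸ pow_card_eq_one'
    let A : (w.valuation L).valuationSubring := ⟨τ (τ π / π), ((hw.val τ _).trans (vu τ)).le⟩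
    let B : (w.valuation L).valuationSubring :=
      ⟨τ (τ (τ π / π)), ((hw.val τ _).trans ((hw.val τ _).trans (vu τ))).le⟩
    have r1 : r A = r (U τ) := by rw [← sub_eq_zero, ← map_sub, hr]; exact hw.triv τ _ (U τ).2
    have r2 : r B = r A := by rw [← sub_eq_zero, ← map_sub, hr]; exact hw.triv τ _ A.2
    have e : B * A * U τ = 1 := Subtype.ext (by
      have e3 : τ (τ (τ π)) = π := by
        have := congrArg (fun s : L ≃ₐ[K] L => s π) t3
        simpa [pow_succ] using this
      have a1 : τ π ≠ 0 := (map_ne_zero τ).2 π0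
      have a2 : τ (τ π) ≠ 0 := (map_ne_zero τ).2 a1
      change τ (τ (τ π / π)) * τ (τ π / π) * (τ π / π) = 1
      simp only [map_div₀, e3]
      field_simp)
    obtain ⟨c, hc1⟩ := hw.res _ (U τ).2
    obtain ⟨k, hc2⟩ := hK p hp (w.under (𝓞 K)) ((low _).2 (by simpa using hv)) c
    have ek : r (U τ) = k := by
      rw [← sub_eq_zero, ← map_intCast r, ← map_sub, hr]
      have := (w.valuation L).map_add_lt hc1 ((low _).1 hc2)
      simpa [U] using this
    have := congrArg r e
    rw [map_mul, map_mul, r2, r1, ek, map_one] at this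
    rw [ek]
    exact hk k (by rw [← this]; ring)
  have vs : w.valuation L ((∑ τ, U τ : (w.valuation L).valuationSubring) : L) = 1 := by
    refine le_antisymm (∑ τ, U τ).2 (not_lt.1 fun c => n3 ?_)
    have := (hr _).2 c
    rw [map_sum, Finset.sum_congr rfl fun τ _ => ru τ, Finset.sum_const, Finset.card_univ,
      ← Nat.card_eq_fintype_card, hc] at this
    simpa using this
  have et : algebraMap K L (Algebra.trace K L π) =
      π * ((∑ τ, U τ : (w.valuation L).valuationSubring) : L) := by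
    rw [trace_eq_sum_automorphisms, AddSubmonoidClass.coe_finsetSum, Finset.mul_sum]
    exact Finset.sum_congr rfl fun τ _ => (mul_div_cancel₀ _ π0).symm
  have vt : w.valuation L (algebraMap K L (Algebra.trace K L π)) = WithZero.exp (-1) := by
    rw [et, map_mul, vs, mul_one, hπ]
  have := hw.three (Algebra.trace K L π) fun c => by
    rw [c, map_zero, map_zero] at vt
    exact WithZero.exp_ne_zero vt.symm
  rw [lg, vt, WithZero.log_exp] at this
  omega

end UnrA

open UnrA in
theorem unr (_hC : CUBE) : UnrStmt := by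
  intro K _ _ a1 a3 ha hK hR L _ _ _ _ h3 σ x y e x0 e1 e2
  obtain ⟨w, hw⟩ := hR L h3
  have u : ∀ p : ℕ, p = 2 ∨ p = 5 → w.valuation L (p : L) = 1 := fun p hp =>
    le_antisymm (natCast_mem (w.valuation L).valuationSubring p) (not_lt.1 (bad h3 hK hw hp))
  have u2 : w.valuation L 2 = 1 := by exact_mod_cast u 2 (.inl rfl)
  have u5 : w.valuation L 5 = 1 := by exact_mod_cast u 5 (.inr rfl)
  rcases ha with ⟨rfl, rfl⟩ | ⟨rfl, rfl⟩
  · refine good (w.valuation L) 2 4 (hw.val σ x) (hw.val σ y) (hw.triv σ x) (hw.triv σ y) ?_ ?_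
      (by exact_mod_cast e) x0 (by exact_mod_cast e1) (by exact_mod_cast e2)
    · rw [show ((4 : ℤ) : L) = 2 * 2 by norm_num, map_mul, u2, one_mul]
      exact lt_irrefl _
    · rw [show ((2 ^ 3 - 27 * 4 : ℤ) : L) = -(2 * 2 * 5 * 5) by norm_num, Valuation.map_neg,
        map_mul, map_mul, map_mul, u2, u5]
      simp
  · refine good (w.valuation L) 5 5 (hw.val σ x) (hw.val σ y) (hw.triv σ x) (hw.triv σ y) ?_ ?_
      (by exact_mod_cast e) x0 (by exact_mod_cast e1) (by exact_mod_cast e2)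
    · rw [show ((5 : ℤ) : L) = 5 by norm_num, u5]
      exact lt_irrefl _
    · rw [show ((5 ^ 3 - 27 * 5 : ℤ) : L) = -(2 * 5) by norm_num, Valuation.map_neg, map_mul, u2,
        u5]
      simp

end Pool.Agent.MP_9207e0_ag.e3
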