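import Pool.Agent.MP_9207e0_ag.e3.SpecC
import Pool.Agent.MP_9207e0_ag.hg.Form

/-! Module WT: a modular function that sees the eigenvalue. -/

set_option linter.unusedSectionVars false
set_option linter.unusedVariables false

namespace Pool.Agent.MP_9207e0_ag.e3

open UpperHalfPlane Complex Filter Asymptotics Matrix Pool.Agent.MP_9207e0_ag.hg
open scoped Real MatrixGroups Manifold Classical Kronecker

namespace Wt

/-- A form of weight two. -/
noncomputable def g2 (τ : ℍ) : ℂ :=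
  ModularForm.E₄ τ ^ 2 * ModularForm.E₆ τ / ModularForm.discriminant τ

/-- A form of weight minus two. -/
noncomputable def g0 (τ : ℍ) : ℂ :=
  ModularForm.E₄ τ * ModularForm.E₆ τ / ModularForm.discriminant τ

lemma e4_law (γ : SL2) (τ : ℍ) : ModularForm.E₄ (γ • τ) =
    (((γ : M2) 1 0 : ℂ) * τ + (γ : M2) 1 1) ^ 4 * ModularForm.E₄ τ := by
  exact_mod_cast QBaux.law ModularForm.E₄ γ τ

lemma e6_law (γ : SL2) (τ : ℍ) : ModularForm.E₆ (γ • τ) =
    (((γ : M2) 1 0 : ℂ) * τ + (γ : M2) 1 1) ^ 6 * ModularForm.E₆ τ := by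
  exact_mod_cast QBaux.law ModularForm.E₆ γ τ

lemma g2_law (γ : SL2) (τ : ℍ) :
    g2 (γ • τ) = (((γ : M2) 1 0 : ℂ) * τ + (γ : M2) 1 1) ^ 2 * g2 τ := by
  have h := den_ne (det_SL_pos γ) τ
  have h' := ModularForm.discriminant_ne_zero τ
  rw [g2, g2, e4_law, e6_law, QBaux.delta_law]
  field_simp

lemma g0_law (γ : SL2) (τ : ℍ) :
    (((γ : M2) 1 0 : ℂ) * τ + (γ : M2) 1 1) ^ 2 * g0 (γ • τ) = g0 τ := by
  have h := den_ne (det_SL_pos γ) τ
  have h' := ModularForm.discriminant_ne_zero τ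
  rw [g0, g0, e4_law, e6_law, QBaux.delta_law]
  field_simp

lemma j_sub (τ : ℍ) :
    jf τ - 1728 = ModularForm.E₆ τ ^ 2 / ModularForm.discriminant τ := by
  have h' := ModularForm.discriminant_ne_zero τ
  have h := ModularForm.discriminant_eq_E₄_cube_sub_E₆_sq τ
  rw [jf]
  field_simp
  linear_combination (-1728) * h

lemma prod_eq (τ : ℍ) : jf τ * (jf τ - 1728) = g2 τ * g0 τ := by
  rw [j_sub, jf, g2, g0]
  ring

lemma g2_hol : Hol g2 :=
  ((ModularForm.E₄.holo'.pow 2).mul ModularForm.E₆.holo').div QBaux.delta_hol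
    ModularForm.discriminant_ne_zero

lemma g0_hol : Hol g0 :=
  (ModularForm.E₄.holo'.mul ModularForm.E₆.holo').div QBaux.delta_hol
    ModularForm.discriminant_ne_zero

lemma rq (hA : QA) (hB : QB) : RQ 1 g2 ∧ RQ 1 g0 := by
  obtain ⟨K, hK⟩ := hA.ratL
  obtain ⟨c, hc, hc'⟩ := hB.e4_q
  obtain ⟨e, he, he'⟩ := hB.e6_q
  obtain ⟨d, hd, hd', -⟩ := hB.delta_q
  have h0 : (ModularForm.discriminant : ℍ → ℂ) ≠ 0 := fun h =>
    ModularForm.discriminant_ne_zero UpperHalfPlane.I (congrFun h _)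
  rw [← hK] at hc' he' hd'
  refine ⟨⟨_, hA.quot one_pos (hA.mul one_pos (hA.pow 2 one_pos hc) he) hd h0 g2_hol ?_,
    (hK _).mp (div_mem (mul_mem (pow_mem hc' 2) he') hd')⟩,
    ⟨_, hA.quot one_pos (hA.mul one_pos hc he) hd h0 g0_hol ?_,
      (hK _).mp (div_mem (mul_mem hc' he') hd')⟩⟩
  · ext τ
    exact div_mul_cancel₀ _ (ModularForm.discriminant_ne_zero τ)
  · ext τ
    exact div_mul_cancel₀ _ (ModularForm.discriminant_ne_zero τ)

/-- The function. -/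
noncomputable def FF (m : ℕ) (τ : ℍ) : ℂ := g2 (mob (dg m 1) τ) * g0 τ

lemma dg_pos {m : ℕ} (hm : 0 < m) : 0 < (dg m 1).det := by
  rw [det_dg]
  simpa using hm

lemma FF_law {m : ℕ} (hm : 0 < m) {γ γ' : SL2} {B : M2} (hB : 0 < B.det)
    (h : dg m 1 * (γ : M2) = γ' * B) (τ : ℍ) :
    ((B 1 0 : ℂ) * τ + B 1 1) ^ 2 * FF m (γ • τ) = g2 (mob B τ) * g0 τ := by
  have e1 : mob (dg m 1) (γ • τ) = γ' • mob B τ := by
    rw [← mob_SL, ← mob_SL, ← mob_mul (dg_pos hm) (det_SL_pos γ), h,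
      mob_mul (det_SL_pos γ') hB]
  have e2 : (γ : M2) 1 0 = (γ' : M2) 1 0 * B 0 0 + (γ' : M2) 1 1 * B 1 0 := by
    simpa [dg, Matrix.mul_apply, Fin.sum_univ_two] using congrFun (congrFun h 1) 0
  have e3 : (γ : M2) 1 1 = (γ' : M2) 1 0 * B 0 1 + (γ' : M2) 1 1 * B 1 1 := by
    simpa [dg, Matrix.mul_apply, Fin.sum_univ_two] using congrFun (congrFun h 1) 1
  have e4 := den_ne hB τ
  rw [FF, e1, g2_law, ← g0_law γ τ, e2, e3, coe_mob hB]
  push_cast
  field_simp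
  ring

lemma FF_mod (hA : QA) (hB : QB) (hO : ORB) {m : ℕ} (hm : 0 < m) : FF m ∈ Mod m := by
  refine ⟨(g2_hol.comp_mob (dg_pos hm)).mul g0_hol, fun γ hγ τ => ?_, fun γ => ?_⟩
  · obtain ⟨c, hc⟩ := (ZMod.intCast_zmod_eq_zero_iff_dvd _ _).mp
      (CongruenceSubgroup.Gamma_mem.mp hγ).2.2.1
    have hd := det_SL γ
    rw [Matrix.det_fin_two] at hd
    have hc' : (γ : M2) 1 0 = m * c := hc
    have h := FF_law hm (γ := γ)
      (γ' := ⟨!![(γ : M2) 0 0, m * (γ : M2) 0 1; c, (γ : M2) 1 1], by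
        rw [Matrix.det_fin_two_of]
        linear_combination hd + (γ : M2) 0 1 * hc'⟩) (dg_pos hm) (by
        ext i k
        fin_cases i <;> fin_cases k <;>
          simp [dg, Matrix.mul_apply, Fin.sum_univ_two, hc', mul_comm]) τ
    simpa [dg, FF] using h
  · obtain ⟨B, ⟨h1, γ', h2⟩, -⟩ := hO.herm m (dg m 1 * (γ : M2)) hm (by
      rw [Matrix.det_mul, det_dg, det_SL]; ring)
    obtain ⟨b1, b2, b3, b4, b5⟩ := (hO.mem_herm m B).mp h1
    have b6 : 0 < B 1 1 := lt_of_le_of_lt b3 b4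
    have hB' : 0 < B.det := by
      rw [Matrix.det_fin_two, b1, mul_zero, sub_zero]
      exact mul_pos b2 b6
    obtain ⟨⟨c, hc, -⟩, ⟨d, hd, -⟩⟩ := rq hA hB
    obtain ⟨κ, hκ⟩ := hA.expG one_pos hc
    have e : B = !![B 0 0, B 0 1; 0, B 1 1] := by
      rw [← b1]; exact Matrix.eta_fin_two B
    have h3 := hB.gr_upper (b := B 0 1) b2 b6 hκ
    rw [← e] at h3
    have h4 := ExpG.mul ⟨0, gr_const (((B 1 1 : ℂ) ^ 2)⁻¹)⟩
      (ExpG.mul ⟨_, h3⟩ (hA.expG one_pos hd))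
    have h5 : (B 1 1 : ℂ) ≠ 0 := by exact_mod_cast b6.ne'
    refine (congrArg ExpG (funext fun τ => ?_)).mp h4
    have h6 := FF_law hm hB' h2 τ
    rw [b1, Int.cast_zero, zero_mul, zero_add] at h6
    simp only [Pi.mul_apply]
    rw [← h6, inv_mul_cancel_left₀ (pow_ne_zero 2 h5)]

lemma FF_rq (hA : QA) (hB : QB) {m : ℕ} (hm : 0 < m) : RQ m (FF m) := by
  obtain ⟨K, hK⟩ := hA.ratL
  obtain ⟨⟨c, hc, hc'⟩, ⟨d, hd, hd'⟩⟩ := rq hA hB
  obtain ⟨c', h1⟩ := hA.exists_sub m (ee (((0 : ℤ) : ℂ) / (((1 : ℕ) : ℂ) * ((1 : ℤ) : ℂ)))) c hm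
  have h2 := hA.comp (h' := 1) (a := m) one_pos one_pos (by exact_mod_cast hm) one_pos
    (by simp) hc h1
  have h3 : RatL c' := fun n => by
    by_cases h : (m : ℤ) ∣ n
    · obtain ⟨l, rfl⟩ := h
      obtain ⟨r, hr⟩ := hc' l
      exact ⟨r, by rw [h1.1, hr]; simp [ee]⟩
    · exact ⟨0, by rw [h1.2 n h]; simp⟩
  exact hB.rq_level hm (one_dvd m) ⟨_, hA.mul one_pos h2 hd,
    (hK _).mp (mul_mem ((hK _).mpr h3) ((hK _).mpr hd'))⟩

lemma not_ell (hI : JB) (hH : HB) {n m t e W τ} (hD : Dat n m t) (hW : HF m t e W τ) {g : SL2}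
    {σ : ℍ} (hg : g • σ = σ) (h1 : (g : M2) 1 0 = 1) : jf τ ≠ jf σ := by
  intro h
  obtain ⟨γ, rfl⟩ := hI.inj τ σ h
  have h2 := hH.stab g hD (hH.conj γ hD hW) hg
  rcases h2 with rfl | rfl <;> simp at h1

/-- A matrix of order six. -/
def gr : SL2 := ⟨!![1, -1; 1, 0], by simp [Matrix.det_fin_two]⟩

lemma exists_rho : ∃ σ : ℍ, gr • σ = σ := by
  refine ⟨⟨⟨1 / 2, √3 / 2⟩, by positivity⟩, ?_⟩
  rw [← mob_SL, mob_fix_iff (det_SL_pos _)]
  have h : √3 * √3 = 3 := Real.mul_self_sqrt (by norm_num)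
  apply Complex.ext
  · simp [gr, sq]
    linear_combination (-1 / 4 : ℝ) * h
  · simp [gr, sq]
    ring

lemma S_fix : ModularGroup.S • UpperHalfPlane.I = UpperHalfPlane.I := by
  rw [← mob_SL, mob_fix_iff (det_SL_pos _)]
  simp [ModularGroup.S]

end Wt

open Wt in
theorem wt (hA : QA) (hB : QB) (hI : JB) (hO : ORB) (hH : HB) : WT where
  ex := fun m hm => ⟨FF m, FF_mod hA hB hO hm, FF_rq hA hB hm, fun γ τ h => by
    have h1 := g2_law γ (mob (dg m 1) τ)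
    rw [h, coe_mob_dg (by simpa using hm)] at h1
    rw [Wt.prod_eq, h1, FF]
    push_cast
    ring⟩
  ne := fun {n m t e W τ} hD hW => by
    refine mul_ne_zero ?_ (sub_ne_zero.mpr ?_)
    · obtain ⟨σ, hσ⟩ := exists_rho
      have h := not_ell hI hH hD hW hσ rfl
      rwa [jf.eq_def σ, hI.e4_zero gr σ hσ (by simp [gr]), zero_pow three_ne_zero, zero_div] at h
    · have h := not_ell hI hH hD hW S_fix rfl
      have h' := j_sub UpperHalfPlane.I
      rw [hI.e6_zero _ _ S_fix (by simp [ModularGroup.S]), zero_pow two_ne_zero, zero_div,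
        sub_eq_zero] at h'
      rwa [h'] at h

end Pool.Agent.MP_9207e0_ag.e3
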