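import Pool.Agent.MP_9207e0_ag.e3.AllAB
import Pool.Agent.MP_9207e0_ag.e3.Cls
import Pool.Agent.MP_9207e0_ag.e3.Cube
import Pool.Agent.MP_9207e0_ag.e3.Desc1
import Pool.Agent.MP_9207e0_ag.e3.Desc2
import Pool.Agent.MP_9207e0_ag.e3.Eis
import Pool.Agent.MP_9207e0_ag.e3.Gal
import Pool.Agent.MP_9207e0_ag.e3.Gd
import Pool.Agent.MP_9207e0_ag.e3.H94
import Pool.Agent.MP_9207e0_ag.e3.Hb
import Pool.Agent.MP_9207e0_ag.e3.Hk
import Pool.Agent.MP_9207e0_ag.e3.Kuml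
import Pool.Agent.MP_9207e0_ag.e3.Kumw
import Pool.Agent.MP_9207e0_ag.e3.Last
import Pool.Agent.MP_9207e0_ag.e3.Law
import Pool.Agent.MP_9207e0_ag.e3.Mw
import Pool.Agent.MP_9207e0_ag.e3.Ok
import Pool.Agent.MP_9207e0_ag.e3.Prod
import Pool.Agent.MP_9207e0_ag.e3.Pt
import Pool.Agent.MP_9207e0_ag.e3.Ram
import Pool.Agent.MP_9207e0_ag.e3.Rank
import Pool.Agent.MP_9207e0_ag.e3.Recs
import Pool.Agent.MP_9207e0_ag.e3.Ring
import Pool.Agent.MP_9207e0_ag.e3.Spc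
import Pool.Agent.MP_9207e0_ag.e3.Two
import Pool.Agent.MP_9207e0_ag.e3.Unr
import Pool.Agent.MP_9207e0_ag.e3.Wt

/-! All modules put together. -/

namespace Pool.Agent.MP_9207e0_ag.e3

open Pool.Agent.MP_9207e0_ag.hg

theorem c_kumw : KumwStmt := kumw kuml
theorem c_pt : PT := pt all_qb all_jc a_modb a_lc1 a_lc2 gd
theorem c_recs : RecsStmt := recs all_qb all_jc all_modf a_modb a_lc1 a_lc2 a_jrel gd c_pt
theorem c_hb : HB := hb all_jc os orb
theorem c_wt : WT := wt qa all_qb all_jb orb c_hb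
theorem c_spc : SpecStmt := spc qa all_qb all_ja all_jc
theorem c_gal : GalStmt := gal qa all_qb all_jb a_modb c_hb c_wt c_spc c_pt
theorem c_prod : ProdStmt := prod a_eta2 c_hb ok cube
theorem c_mw : MwStmt :=
  mw gd ok cube (desc1 gd ok cube) desc2 (unr cube) (h94 cube) ram rank
theorem c_hk : HkStmt := hk a_eta2 a_lc1 a_lc2 c_pt c_hb c_gal c_prod gd ok cube
theorem c_eis : EisStmt :=
  eis a_zvan a_heeg (law c_pt) c_recs c_pt c_hb (two os c_hb) ringq ok (clsn c_hb ok) cube c_mw c_hk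

end Pool.Agent.MP_9207e0_ag.e3
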