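import Pool.Agent.MP_9207e0_ag.e3.SpecA

/-! Module APP: restriction of the product to the curve of determinant `j`, level ten. -/

set_option linter.unusedSectionVars false
set_option linter.unusedVariables false

namespace Pool.Agent.MP_9207e0_ag.e3

open UpperHalfPlane Complex Filter Asymptotics Matrix Pool.Agent.MP_9207e0_ag.hg
open scoped Real MatrixGroups Manifold Classical Kronecker

namespace App

/-- Triples of coefficients. -/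
abbrev T3 : Type := ℤ × ℤ × ℤ

/-- The discriminant. -/
def dsc (j : ℕ) (q : T3) : ℤ := q.2.2 ^ 2 + 4 * j * q.1 * q.2.1

/-- The root of a form. -/
def Rt (j : ℕ) (q : T3) (τ : ℍ) : Prop :=
  ((j : ℂ) * q.2.1) * (τ : ℂ) ^ 2 + q.2.2 * τ - q.1 = 0

/-- The class. -/
def clq (j : ℕ) (q : T3) : Cls j := cls j q.1 q.2.1 q.2.2

/-- The traceless matrix. -/
def ym (j : ℕ) (q : T3) : M2 := ymat j q.1 q.2.1 q.2.2

/-- The matrix with a trace part. -/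
def xm (j : ℕ) (p : T3 × ℤ) : M2 := xmat j p.1.1 p.1.2.1 p.1.2.2 p.2

variable {j : ℕ}

lemma mem_FSet {D : ℤ} {v : Cls j} {p : M2 × ℍ} :
    p ∈ FSet j D v ↔ ∃ q, p.1 = ym j q ∧ dsc j q = D ∧ clq j q = v ∧ Rt j q p.2 :=
  ⟨fun ⟨b, c, ρ, h⟩ => ⟨(b, c, ρ), h⟩, fun ⟨q, h⟩ => ⟨q.1, q.2.1, q.2.2, h⟩⟩

lemma ym_inj (hj : 0 < j) : Function.Injective (ym j) := by
  rintro ⟨b, c, ρ⟩ ⟨b', c', ρ'⟩ h
  have h1 : 2 * b = 2 * b' := congrFun (congrFun h 0) 1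
  have h2 : 2 * (j : ℤ) * c = 2 * j * c' := congrFun (congrFun h 1) 0
  have h3 : ρ = ρ' := congrFun (congrFun h 1) 1
  have h4 : c = c' := mul_left_cancel₀ (by omega) h2
  have h5 : b = b' := by omega
  rw [h3, h4, h5]

lemma xm_inj (hj : 0 < j) : Function.Injective (xm j) := by
  rintro ⟨⟨b, c, ρ⟩, r⟩ ⟨⟨b', c', ρ'⟩, r'⟩ h
  have h0 : r - ρ = r' - ρ' := congrFun (congrFun h 0) 0
  have h1 : 4 * (j : ℤ) * b = 4 * j * b' := congrFun (congrFun h 0) 1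
  have h2 : c = c' := congrFun (congrFun h 1) 0
  have h3 : r + ρ = r' + ρ' := congrFun (congrFun h 1) 1
  have h4 : b = b' := mul_left_cancel₀ (by omega) h1
  have h5 : r = r' := by omega
  have h6 : ρ = ρ' := by omega
  rw [h2, h4, h5, h6]

lemma Rt.form {q : T3} {τ : ℍ} (h : Rt j q τ) :
    ((j * q.2.1 : ℤ) : ℂ) * (τ : ℂ) ^ 2 + (q.2.2 : ℂ) * τ + ((-q.1 : ℤ) : ℂ) = 0 := by
  unfold Rt at h
  push_cast
  linear_combination h

lemma dsc_eq (q : T3) : q.2.2 ^ 2 - 4 * (j * q.2.1) * -q.1 = dsc j q := by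
  unfold dsc
  ring

lemma fin_q (hO : ORB) (hj : 0 < j) (D : ℤ) (τ : ℍ) : {q | dsc j q = D ∧ Rt j q τ}.Finite := by
  have inj : Function.Injective fun q : T3 => ((j : ℤ) * q.2.1, q.2.2, -q.1) := by
    rintro ⟨b, c, ρ⟩ ⟨b', c', ρ'⟩ h
    simp only [Prod.mk.injEq, neg_inj] at h
    rw [h.2.1, h.2.2, mul_left_cancel₀ (by omega) h.1]
  exact ((hO.fin_form D τ).preimage inj.injOn).subset fun q hq =>
    ⟨(dsc_eq q).trans hq.1, hq.2.form⟩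

lemma exists_F (hO : ORB) (hj : 0 < j) (D₀ : ℤ) : ∃ F : ℍ → Finset T3,
    ∀ τ q, q ∈ F τ ↔ D₀ ≤ dsc j q ∧ dsc j q < 0 ∧ Rt j q τ := by
  refine ⟨fun τ => (Finset.Ico D₀ 0).biUnion fun D => (fin_q hO hj D τ).toFinset, fun τ q => ?_⟩
  simp only [Finset.mem_biUnion, Finset.mem_Ico, Set.Finite.mem_toFinset, Set.mem_ofPred_eq]
  exact ⟨fun ⟨D, h1, h2, h3⟩ => ⟨h2 ▸ h1.1, h2 ▸ h1.2, h3⟩,
    fun h => ⟨_, ⟨h.1, h.2.1⟩, rfl, h.2.2⟩⟩

lemma dsc_neg (hj : 0 < j) {q : T3} {τ : ℍ} (hc : q.2.1 ≠ 0) (h : Rt j q τ) : dsc j q < 0 := by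
  have h1 : (((j * q.2.1 : ℤ) : ℝ) : ℂ) * (τ : ℂ) ^ 2 + ((q.2.2 : ℝ) : ℂ) * τ +
      (((-q.1 : ℤ) : ℝ) : ℂ) = 0 := by
    simpa only [ofReal_intCast] using h.form
  obtain ⟨e1, e2⟩ := quad_disc h1
  have h2 : ((j * q.2.1 : ℤ) : ℝ) ≠ 0 := by
    exact_mod_cast mul_ne_zero (by omega : (j : ℤ) ≠ 0) hc
  have h3 : (dsc j q : ℝ) = -(2 * ((j * q.2.1 : ℤ) : ℝ) * τ.im) ^ 2 := by
    rw [← dsc_eq, Int.cast_sub, Int.cast_pow, Int.cast_mul, Int.cast_mul, e1, e2]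
    push_cast
    ring
  have h4 : 0 < (2 * ((j * q.2.1 : ℤ) : ℝ) * τ.im) ^ 2 := by
    have := τ.im_pos
    positivity
  have h5 : (dsc j q : ℝ) < 0 := by linarith
  exact_mod_cast h5

lemma det_pos (hj : 0 < j) : 0 < (dg (2 * j) 1).det := by
  rw [det_dg]
  omega

lemma fix_iff (hj : 0 < j) (p : T3 × ℤ) (τ : ℍ) :
    xm j p ∈ Fix (mob (dg (2 * j) 1) τ) ↔ dsc j p.1 < 0 ∧ Rt j p.1 τ := by
  have h0 : (j : ℂ) ≠ 0 := by exact_mod_cast hj.ne'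
  have h1 : ((p.1.2.1 : ℤ) : ℂ) * (mob (dg (2 * j) 1) τ : ℂ) ^ 2 +
      (((p.2 + p.1.2.2 : ℤ) : ℂ) - (p.2 - p.1.2.2 : ℤ)) * (mob (dg (2 * j) 1) τ : ℂ) -
        (4 * j * p.1.1 : ℤ) = 0 ↔ Rt j p.1 τ := by
    rw [coe_mob_dg (by omega), Rt]
    push_cast
    constructor
    · intro e
      apply mul_left_cancel₀ (mul_ne_zero (by norm_num : (4 : ℂ) ≠ 0) h0)
      linear_combination e
    · intro e
      linear_combination 4 * j * e
  constructor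
  · intro h
    exact ⟨dsc_neg hj h.1 (h1.1 h.2), h1.1 h.2⟩
  · intro h
    refine ⟨fun e : p.1.2.1 = 0 => ?_, h1.2 h.2⟩
    have := h.1
    rw [dsc, e, mul_zero, add_zero] at this
    exact absurd this (sq_nonneg _).not_gt

lemma det_xm (p : T3 × ℤ) : -(xm j p).det = dsc j p.1 - p.2 ^ 2 := by
  rw [xm, xmat, Matrix.det_fin_two_of, dsc]
  ring

lemma lift {x : M2} {b c ρ r : ℤ} (h : red (40 * j) x = red (40 * j) (xmat j b c ρ r)) :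
    ∃ p, x = xm j p := by
  have H : ∀ i k, ∃ m : ℤ, x i k - xmat j b c ρ r i k = (40 * j : ℕ) * m := fun i k =>
    (ZMod.intCast_eq_intCast_iff_dvd_sub _ _ _).1 (congrFun (congrFun h i) k).symm
  obtain ⟨k1, e1⟩ := H 0 0
  obtain ⟨k2, e2⟩ := H 1 1
  obtain ⟨k3, e3⟩ := H 0 1
  have f1 : xmat j b c ρ r 0 0 = r - ρ := rfl
  have f2 : xmat j b c ρ r 1 1 = r + ρ := rfl
  have f3 : xmat j b c ρ r 0 1 = 4 * j * b := rfl
  rw [f1] at e1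
  rw [f2] at e2
  rw [f3] at e3
  push_cast at e1 e2 e3
  refine ⟨((b + 10 * k3, x 1 0, ρ + 20 * j * (k2 - k1)), r + 20 * j * (k1 + k2)), ?_⟩
  rw [Matrix.eta_fin_two x, xm, xmat]
  simp only [Matrix.of_apply, Matrix.cons_val', Matrix.cons_val_zero, Matrix.cons_val_one,
    Matrix.cons_val_fin_one]
  rw [show x 0 0 = r + 20 * j * (k1 + k2) - (ρ + 20 * j * (k2 - k1)) by linear_combination e1,
    show x 1 1 = r + 20 * j * (k1 + k2) + (ρ + 20 * j * (k2 - k1)) by linear_combination e2,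
    show x 0 1 = 4 * j * (b + 10 * k3) by linear_combination e3]

lemma bound {ι : Type} [Finite ι] (c : ι → LS) : ∃ M : ℤ, ∀ y, ∀ n < -M, (c y).coeff n = 0 := by
  obtain ⟨m, hm⟩ := (Set.finite_range fun y => (c y).order).bddBelow
  refine ⟨-m, fun y n hn => HahnSeries.coeff_eq_zero_of_lt_order ?_⟩
  rw [neg_neg] at hn
  exact hn.trans_le (hm ⟨y, rfl⟩)

/-- The order of the product at a point of the curve. -/
lemma key (hO : ORB) (hj : 0 < j) (c : MN (40 * j) → LS) (C : ℤ → Cls j → ℤ) (D₀ : ℤ)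
    (hs : ∀ x, (∀ b c' ρ r, x ≠ red _ (xmat j b c' ρ r)) → c x = 0)
    (hC : ∀ b c' ρ D : ℤ, ρ ^ 2 + 4 * j * b * c' = D → D < 0 →
      ∑ᶠ r : ℤ, (c (red _ (xmat j b c' ρ r))).coeff (D - r ^ 2) = C D (cls j b c' ρ))
    (hl : ∀ D < D₀, ∀ v, C D v = 0) (τ : ℍ) (F : Finset T3)
    (hF : ∀ q, q ∈ F ↔ D₀ ≤ dsc j q ∧ dsc j q < 0 ∧ Rt j q τ) :
    ∑ᶠ x ∈ Fix (mob (dg (2 * j) 1) τ), (c (red _ x)).coeff (-x.det) =
      ∑ q ∈ F, (C (dsc j q) (clq j q) : ℂ) := by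
  have : NeZero (40 * j) := ⟨by omega⟩
  obtain ⟨M, hM⟩ := bound c
  set h : M2 → ℂ := fun x => (c (red _ x)).coeff (-x.det) with hh
  set P : Set (T3 × ℤ) := {p | dsc j p.1 < 0 ∧ Rt j p.1 τ} with hP
  have e1 : ∑ᶠ x ∈ Fix (mob (dg (2 * j) 1) τ), h x = ∑ᶠ x ∈ xm j '' P, h x := by
    refine finsum_mem_inter_support_eq' h _ _ fun x hx => ⟨fun h1 => ?_, ?_⟩
    · have h2 : ¬∀ b c' ρ r, red (40 * j) x ≠ red _ (xmat j b c' ρ r) := fun h2 =>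
        hx (by rw [hh]; simp only [hs _ h2, HahnSeries.coeff_zero])
      push Not at h2
      obtain ⟨b, c', ρ, r, h2⟩ := h2
      obtain ⟨p, rfl⟩ := lift h2
      exact ⟨p, (fix_iff hj p τ).1 h1, rfl⟩
    · rintro ⟨p, hp, rfl⟩
      exact (fix_iff hj p τ).2 hp
  have fin : (Function.support (P.indicator fun p => h (xm j p))).Finite := by
    refine ((hO.fin_fix (mob (dg (2 * j) 1) τ) M).preimage (xm_inj hj).injOn).subset
      fun p hp => ?_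
    rw [Set.support_indicator] at hp
    exact ⟨(fix_iff hj p τ).2 hp.1, not_lt.1 fun h1 => hp.2 (hM _ _ (neg_lt_neg h1))⟩
  have e2 : ∀ q, ∑ᶠ r, P.indicator (fun p => h (xm j p)) (q, r) =
      (F : Set T3).indicator (fun q => (C (dsc j q) (clq j q) : ℂ)) q := by
    intro q
    by_cases hq : dsc j q < 0 ∧ Rt j q τ
    · have e3 : ∀ r, P.indicator (fun p => h (xm j p)) (q, r) =
          (c (red _ (xmat j q.1 q.2.1 q.2.2 r))).coeff (dsc j q - r ^ 2) := fun r => by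
        rw [Set.indicator_of_mem (show (q, r) ∈ P from hq), hh]
        simp only [det_xm]
        rfl
      rw [finsum_congr e3, hC _ _ _ (dsc j q) rfl hq.1]
      by_cases h0 : D₀ ≤ dsc j q
      · rw [Set.indicator_of_mem (Finset.mem_coe.2 ((hF q).2 ⟨h0, hq⟩))]
        rfl
      · rw [Set.indicator_of_notMem fun h1 => h0 ((hF q).1 h1).1, hl _ (not_le.1 h0),
          Int.cast_zero]
    · rw [Set.indicator_of_notMem fun h1 => hq ((hF q).1 h1).2]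
      exact finsum_eq_zero_of_forall_eq_zero fun r =>
        Set.indicator_of_notMem (show (q, r) ∉ P from hq) _
  rw [e1, finsum_mem_image (xm_inj hj).injOn, finsum_mem_def, finsum_curry _ fin,
    finsum_congr e2, ← finsum_mem_def, finsum_mem_coe_finset]

lemma gam_le {N N' : ℕ} (h : N ∣ N') : Gam N' ≤ Gam N := by
  intro g hg
  rw [CongruenceSubgroup.Gamma_mem] at hg ⊢
  have H : ∀ x y : ℤ, (x : ZMod N') = (y : ℤ) → (x : ZMod N) = (y : ℤ) := fun x y e =>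
    (ZMod.intCast_eq_intCast_iff_dvd_sub _ _ _).2 ((Int.natCast_dvd_natCast.2 h).trans
      ((ZMod.intCast_eq_intCast_iff_dvd_sub _ _ _).1 e))
  obtain ⟨h1, h2, h3, h4⟩ := hg
  exact ⟨by simpa using H _ 1 (by simpa using h1), by simpa using H _ 0 (by simpa using h2),
    by simpa using H _ 0 (by simpa using h3), by simpa using H _ 1 (by simpa using h4)⟩

lemma gam_le_Gj {N : ℕ} (h : 10 * j ∣ N) : Gam N ≤ Gj j := by
  refine le_inf (gam_le ((dvd_mul_right 10 j).trans h)) ((gam_le h).trans fun g hg => ?_)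
  rw [CongruenceSubgroup.Gamma_mem] at hg
  exact CongruenceSubgroup.Gamma0_mem.2 hg.2.2.1

/-- The forms above a set of representatives of points. -/
lemma rep_pairs (hO : ORB) (hF : FS) (hj : 0 < j) {N : ℕ} (hN : 3 ≤ N) (hd : 10 * j ∣ N)
    {T : Set ℍ} {R : Finset ℍ} (hR : IsRep (relG N) T R) {D : ℤ} {v : Cls j}
    (hT : ∀ p ∈ FSet j D v, p.2 ∈ T) {P : Finset (M2 × ℍ)}
    (hP : ∀ p, p ∈ P ↔ p.2 ∈ R ∧ p ∈ FSet j D v) : IsRep (relC (Gam N)) (FSet j D v) P := by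
  refine ⟨fun p hp => ((hP p).1 hp).2, fun p hp => ?_⟩
  obtain ⟨σ, ⟨h1, g, hg, rfl⟩, h2⟩ := hR.2 _ (hT p hp)
  refine ⟨cact g p, ⟨(hP _).2 ⟨h1, hF.fset_inv j D v hj g (gam_le_Gj hd hg) p hp⟩, g, hg, rfl⟩, ?_⟩
  rintro _ ⟨h3, g', hg', rfl⟩
  have h4 : g' • p.2 = g • p.2 := h2 _ ⟨((hP _).1 h3).1, g', hg', rfl⟩
  have h5 : g⁻¹ * g' = 1 := hO.free N _ p.2 hN (mul_mem (inv_mem hg) hg')
    (by rw [mul_smul, h4, inv_smul_smul])
  rw [inv_mul_eq_one.1 h5]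

variable {V : Type} [AddCommGroup V]

lemma sum_pairs (hS : OS) (hO : ORB) (hF : FS) (hj : 0 < j) {N : ℕ} (hd : 10 * j ∣ N) (hN : 0 < N)
    {S : ℍ → V} (hi : ∀ g ∈ Gj j, ∀ τ, S (g • τ) = S τ) {D : ℤ} {v : Cls j}
    {P R : Finset (M2 × ℍ)} (hP : IsRep (relC (Gam N)) (FSet j D v) P)
    (hR : IsRep (relC (Gj j)) (FSet j D v) R) :
    ∑ p ∈ P, S p.2 = (Gam N).relIndex (Gj j) • ∑ p ∈ R, S p.2 := by
  have : NeZero N := ⟨hN.ne'⟩
  obtain ⟨R', h1, h2⟩ := hS.index cact hF.cact_one hF.cact_mul (gam_le_Gj hd)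
    Subgroup.FiniteIndex.index_ne_zero (hF.fset_inv j D v hj)
    (fun g hg p _ e => hO.free 10 g p.2 (by norm_num) hg.1 (congrArg Prod.snd e)) hR
  rw [← h2 (fun p => S p.2) fun g hg p _ => hi g hg p.2]
  refine hS.sum_eq (hF.relC_equiv _) hP h1 ?_
  rintro p - _ - ⟨g, hg, rfl⟩
  exact (hi g (gam_le_Gj hd hg) p.2).symm

lemma sum_ord (hS : OS) {N : ℕ} {T : Set ℍ} {R : Finset ℍ} (hR : IsRep (relG N) T R) {a : ℍ → ℂ}
    (ha : a ∈ Mod N) (hT : {τ | a τ = 0} ⊆ T) {S : ℍ → V}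
    (h : Van (relG N) {τ | a τ = 0} fun τ => (ord a τ : ℤ) • S τ) :
    ∑ τ ∈ R, (ord a τ : ℤ) • S τ = 0 := by
  rw [← h _ (hS.filter hT ?_ hR), Finset.sum_filter_of_ne]
  · intro τ _ h1
    by_contra h2
    rw [ord, (ordE_eq_zero ha.1 τ).2 h2] at h1
    simp at h1
  · rintro τ h1 _ - ⟨g, hg, rfl⟩
    exact (ha.2.1 g hg τ).trans h1

/-- The combinatorial part. -/
lemma comb (hS : OS) (hO : ORB) (hF : FS) (hj : 0 < j) {N : ℕ} (hN : 3 ≤ N) (hd : 10 * j ∣ N)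
    {S : ℍ → V} (hi : ∀ g ∈ Gj j, ∀ τ, S (g • τ) = S τ) {D₀ : ℤ} (hD : D₀ < 0)
    {T : Set ℍ} {R : Finset ℍ} (hR : IsRep (relG N) T R)
    (hT : ∀ q τ, D₀ ≤ dsc j q → dsc j q < 0 → Rt j q τ → τ ∈ T) (F : ℍ → Finset T3)
    (hq : ∀ τ q, q ∈ F τ ↔ D₀ ≤ dsc j q ∧ dsc j q < 0 ∧ Rt j q τ) (C : ℤ → Cls j → ℤ) (κ : ℤ)
    (v₀ : Cls j)
    (hC : ∀ v, C D₀ v = κ * ((if v = v₀ then 1 else 0) + if v = -v₀ then 1 else 0))
    (hV : ∀ D v, D₀ < D → D < 0 → Van (relC (Gj j)) (FSet j D v) fun p => S p.2)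
    {R₀ : Finset (M2 × ℍ)} (h₀ : IsRep (relC (Gj j)) (FSet j D₀ v₀) R₀) :
    ∑ τ ∈ R, ∑ q ∈ F τ, C (dsc j q) (clq j q) • S τ =
      (2 * κ * (Gam N).relIndex (Gj j)) • ∑ p ∈ R₀, S p.2 := by
  have : NeZero (20 * j) := ⟨by omega⟩
  set B : ℤ × Cls j → V := fun w =>
    ∑ z ∈ R.sigma F with (dsc j z.2, clq j z.2) = w, S z.1 with hB
  have e1 : ∑ τ ∈ R, ∑ q ∈ F τ, C (dsc j q) (clq j q) • S τ =
      ∑ w ∈ Finset.Ico D₀ 0 ×ˢ Finset.univ, C w.1 w.2 • B w := by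
    rw [Finset.sum_sigma', ← Finset.sum_fiberwise_of_maps_to (t := Finset.Ico D₀ 0 ×ˢ Finset.univ)
      (g := fun z : (_ : ℍ) × T3 => (dsc j z.2, clq j z.2))]
    · refine Finset.sum_congr rfl fun w _ => ?_
      rw [hB, Finset.smul_sum]
      refine Finset.sum_congr rfl fun z hz => ?_
      rw [← (Finset.mem_filter.1 hz).2]
    · intro z hz
      have := (hq _ _).1 (Finset.mem_sigma.1 hz).2
      exact Finset.mem_product.2 ⟨Finset.mem_Ico.2 ⟨this.1, this.2.1⟩, Finset.mem_univ _⟩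
  have e2 : ∀ D v R₁, D₀ ≤ D → D < 0 → IsRep (relC (Gj j)) (FSet j D v) R₁ →
      B (D, v) = (Gam N).relIndex (Gj j) • ∑ p ∈ R₁, S p.2 := by
    intro D v R₁ h1 h2 h3
    rw [← sum_pairs hS hO hF hj hd (by omega) hi (rep_pairs hO hF hj hN hd hR (P :=
      ((R.sigma F).filter fun z => (dsc j z.2, clq j z.2) = (D, v)).image
        fun z => (ym j z.2, z.1)) ?_ ?_) h3, Finset.sum_image]
    · rintro ⟨τ, q⟩ - ⟨τ', q'⟩ - e
      have e3 : τ = τ' := congrArg Prod.snd e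
      have e4 : q = q' := ym_inj hj (congrArg Prod.fst e)
      rw [e3, e4]
    · intro p hp
      obtain ⟨q, -, f2, -, f4⟩ := mem_FSet.1 hp
      exact hT q _ (f2 ▸ h1) (f2 ▸ h2) f4
    · intro p
      simp only [Finset.mem_image, Finset.mem_filter, Finset.mem_sigma, Prod.mk.injEq, hq]
      constructor
      · rintro ⟨z, ⟨⟨f1, -, -, f2⟩, f3, f4⟩, rfl⟩
        exact ⟨f1, mem_FSet.2 ⟨z.2, rfl, f3, f4, f2⟩⟩
      · rintro ⟨f1, f2⟩
        obtain ⟨q, f3, f4, f5, f6⟩ := mem_FSet.1 f2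
        exact ⟨⟨p.2, q⟩, ⟨⟨f1, f4 ▸ h1, f4 ▸ h2, f6⟩, f4, f5⟩, Prod.ext f3.symm rfl⟩
  have e3 : B (D₀, -v₀) = (Gam N).relIndex (Gj j) • ∑ p ∈ R₀, S p.2 := by
    rw [e2 _ _ _ le_rfl hD (hF.fset_neg j D₀ v₀ R₀ h₀), Finset.sum_image]
    intro p _ p' _ e
    have e4 := congrArg Prod.snd e
    exact Prod.ext (neg_injective (congrArg Prod.fst e)) e4
  rw [e1, Finset.sum_product, Finset.sum_eq_single_of_mem D₀ (Finset.mem_Ico.2 ⟨le_rfl, hD⟩)]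
  · simp only [hC, mul_add, add_smul, mul_ite, mul_one, mul_zero, ite_smul, zero_smul,
      Finset.sum_add_distrib, Finset.sum_ite_eq', Finset.mem_univ, if_true]
    rw [e3, e2 _ _ _ le_rfl hD h₀, ← natCast_zsmul, smul_smul, ← add_smul]
    congr 1
    ring
  · intro D h1 h2
    rw [Finset.mem_Ico] at h1
    refine Finset.sum_eq_zero fun v _ => ?_
    obtain ⟨R₁, h3⟩ := hF.fset_fin j D v hj h1.2
    rw [e2 D v R₁ h1.1 h1.2 h3, hV D v (lt_of_le_of_ne h1.1 h2.symm) h1.2 R₁ h3, smul_zero,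
      smul_zero]

lemma good_mob (hB : QB) (hC : JC) {N N' : ℕ} {w : ℍ → ℂ} {A : M2} {m : ℕ} (hm : 0 < m)
    (hA : A.det = m) (hd : N * m ∣ N') (h1 : w ∈ Mod N) (h2 : IntJ w) :
    (fun τ => w (mob A τ)) ∈ Mod N' ∧ IntJ fun τ => w (mob A τ) := by
  have h3 : 0 < A.det := by omega
  refine ⟨hB.mod_level ?_ (hB.mod_mob h3 h1), hC.intJ_mob h3 h2⟩
  rwa [hA, Int.toNat_natCast]

lemma ne_mob {w : ℍ → ℂ} {A : M2} (hA : 0 < A.det) (h : w ≠ 0) : (fun τ => w (mob A τ)) ≠ 0 :=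
  fun e => h (funext fun τ => by
    simpa only [mob_mob_adj hA, Pi.zero_apply] using congrFun e (mob A.adjugate τ))

end App

open App in
theorem app (hB : QB) (hC : JC) (hS : OS) (hO : ORB) (hF : FS) (hZ : FinZ)
    (hI : InpStmt) (hP : BorStmt) : AppStmt := by
  intro V _ s tf hinv hrec j γ1 γ2 D₀ v₀ hj hD hV R₀ h₀
  rcases R₀.eq_empty_or_nonempty with rfl | ⟨p₀, hp₀⟩
  · exact Finset.sum_empty
  have : NeZero (40 * j) := ⟨by omega⟩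
  obtain ⟨b₀, c₀, ρ₀, -, d1, d2, -⟩ := h₀.1 p₀ hp₀
  obtain ⟨f, c, C, κ, i1, i2, i3, i4, i5, i6, i7, i8⟩ := hI j b₀ c₀ ρ₀ D₀ d1 hD
  rw [d2] at i8
  obtain ⟨N', a, b, hN', am, bm, ai, bi, a0, b0, ho⟩ := hP _ f c i1 i2 i3
  have hj1 : 0 < (dg j 1).det := by
    rw [det_dg]
    omega
  set S : ℍ → V := fun τ => s (γ1 • τ) (γ2 • mob (dg j 1) τ) with hSd
  have hi : ∀ g ∈ Gj j, ∀ τ, S (g • τ) = S τ := by
    intro g hg τ
    obtain ⟨g', hg', e⟩ := hF.gj_conj j hj g hg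
    have e1 : mob (dg j 1) (g • τ) = g' • mob (dg j 1) τ := by
      rw [← mob_SL, ← mob_SL, ← mob_mul hj1 (det_SL_pos g), ← mob_mul (det_SL_pos g') hj1, e]
    have := hinv _ ((CongruenceSubgroup.Gamma_normal 10).conj_mem g hg.1 γ1) _
      ((CongruenceSubgroup.Gamma_normal 10).conj_mem g' hg' γ2) (γ1 • τ) (γ2 • mob (dg j 1) τ)
    simpa only [hSd, e1, mul_smul, inv_smul_smul] using this
  obtain ⟨N, hN⟩ : ∃ N, N = N' * (2 * j) * (10 * j) := ⟨_, rfl⟩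
  have hd : 10 * j ∣ N := hN ▸ dvd_mul_left _ _
  have hN0 : 0 < N := hN ▸ by positivity
  have hN3 : 3 ≤ N := le_trans (by omega) (Nat.le_of_dvd hN0 hd)
  have g3 : ∀ w ∈ Mod N', IntJ w → (fun τ => w (mob (dg (2 * j) 1) τ)) ∈ Mod N ∧
      IntJ fun τ => w (mob (dg (2 * j) 1) τ) := fun w h1 h2 =>
    good_mob hB hC (m := 2 * j) (by omega) (by rw [det_dg]; push_cast; ring)
      (hN ▸ dvd_mul_right _ _) h1 h2
  have rc : ∀ w ∈ Mod N, IntJ w → w ≠ 0 →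
      Van (relG N) {τ | w τ = 0} fun τ => (ord w τ : ℤ) • S τ := by
    intro w h1 h2 h3
    simpa only [hSd, mob_mul (det_SL_pos γ2) hj1, mob_SL] using hrec N j w γ1
      ((γ2 : M2) * dg j 1) hN0 hj (by rw [Matrix.det_mul, det_SL, det_dg]; ring) hd h1 h2 h3
  obtain ⟨a1, a2⟩ := g3 a am ai
  obtain ⟨b1, b2⟩ := g3 b bm bi
  have a3 := ne_mob (det_pos hj) a0
  have b3 := ne_mob (det_pos hj) b0
  obtain ⟨Ra, hRa⟩ := hZ N _ hN0 a1 a3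
  obtain ⟨Rb, hRb⟩ := hZ N _ hN0 b1 b3
  choose! Tc hTc using fun D : ℤ => hO.fin_cm N D hN0
  set T₀ : Finset ℍ := Ra ∪ Rb ∪ (Finset.Ico D₀ 0).biUnion Tc with hT₀
  obtain ⟨R, hRT⟩ := hS.exists_rep (S := {τ | ∃ σ ∈ T₀, relG N τ σ}) (hF.relG_equiv N)
    T₀.finite_toSet fun τ ⟨σ, h1, h2⟩ => ⟨σ, h1, ⟨σ, h1, (hF.relG_equiv N).refl σ⟩, h2⟩
  have sa := sum_ord hS hRT a1 (fun τ h => by
    obtain ⟨σ, h1, -⟩ := hRa.2 τ h
    exact ⟨σ, Finset.mem_union_left _ (Finset.mem_union_left _ h1.1), h1.2⟩) (rc _ a1 a2 a3)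
  have sb := sum_ord hS hRT b1 (fun τ h => by
    obtain ⟨σ, h1, -⟩ := hRb.2 τ h
    exact ⟨σ, Finset.mem_union_left _ (Finset.mem_union_right _ h1.1), h1.2⟩) (rc _ b1 b2 b3)
  obtain ⟨F, hq⟩ := exists_F hO hj D₀
  have main := comb hS hO hF hj hN3 hd hi (by omega) hRT (fun q τ h1 h2 h3 => by
    obtain ⟨g, hg, h4⟩ := hTc _ h2 τ _ _ _ (dsc_eq q) h3.form
    exact ⟨g • τ, Finset.mem_union_right _
      (Finset.mem_biUnion.2 ⟨_, Finset.mem_Ico.2 ⟨h1, h2⟩, h4⟩), g, hg, rfl⟩) F hq C κ v₀ i8 hV h₀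
  have pt : ∀ τ, (ord (fun τ => a (mob (dg (2 * j) 1) τ)) τ : ℤ) -
      ord (fun τ => b (mob (dg (2 * j) 1) τ)) τ = 3 * ∑ q ∈ F τ, C (dsc j q) (clq j q) := by
    intro τ
    have := ho (mob (dg (2 * j) 1) τ)
    rw [key hO hj c C D₀ i4 i5 i6 τ (F τ) (hq τ), ord, ord, ← ordE_comp_mob a (det_pos hj),
      ← ordE_comp_mob b (det_pos hj)] at this
    exact_mod_cast this
  have : NeZero N := ⟨hN0.ne'⟩
  have hm : (Gam N).relIndex (Gj j) ≠ 0 := Subgroup.FiniteIndex.index_ne_zero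
  refine tf (3 * (2 * κ * (Gam N).relIndex (Gj j))) _ (by positivity) ?_
  rw [mul_smul, ← main, ← sub_zero (0 : V)]
  nth_rewrite 1 [← sa]
  rw [← sb, ← Finset.sum_sub_distrib, Finset.smul_sum]
  refine Finset.sum_congr rfl fun τ _ => ?_
  rw [← sub_smul, pt, mul_smul, Finset.sum_smul]

end Pool.Agent.MP_9207e0_ag.e3
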