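import Pool.Agent.MP_9207e0_ag.e3.SpecA

/-! The Heegner divisors of discriminant `-12` on the curve of determinant two whose first
coordinate has discriminant `-3` die. -/

set_option linter.unusedSectionVars false
set_option linter.unusedVariables false

namespace Pool.Agent.MP_9207e0_ag.e3

open UpperHalfPlane Complex Filter Asymptotics Matrix Pool.Agent.MP_9207e0_ag.hg
open scoped Real MatrixGroups Manifold Classical Kronecker

namespace B12a

/-- An element of order three modulo two. -/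
def g0 : SL2 := ⟨!![26, 5; 5, 1], by simp [Matrix.det_fin_two]⟩

/-- The lower unipotent of level ten. -/
def l10 : SL2 := ⟨!![1, 0; 10, 1], by simp [Matrix.det_fin_two]⟩

/-- The lower unipotent of level five. -/
def l5 : SL2 := ⟨!![1, 0; 5, 1], by simp [Matrix.det_fin_two]⟩

lemma g0_coe : (g0 : M2) = !![26, 5; 5, 1] := rfl

lemma l10_coe : (l10 : M2) = !![1, 0; 10, 1] := rfl

lemma l5_coe : (l5 : M2) = !![1, 0; 5, 1] := rfl

lemma g0_mem : g0 ∈ Gam 5 := by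
  rw [CongruenceSubgroup.Gamma_mem]
  refine ⟨?_, ?_, ?_, ?_⟩ <;> decide

lemma l5_mem : l5 ∈ Gam 5 := by
  rw [CongruenceSubgroup.Gamma_mem]
  refine ⟨?_, ?_, ?_, ?_⟩ <;> decide

lemma l10_mem : l10 ∈ Gam 10 := by
  rw [CongruenceSubgroup.Gamma_mem]
  refine ⟨?_, ?_, ?_, ?_⟩ <;> decide

lemma mul_inv_coe (g : SL2) : (g : M2) * ((g⁻¹ : SL2) : M2) = 1 := by
  rw [← Matrix.SpecialLinearGroup.coe_mul, mul_inv_cancel]; rfl

lemma inv_mul_coe (g : SL2) : ((g⁻¹ : SL2) : M2) * (g : M2) = 1 := by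
  rw [← Matrix.SpecialLinearGroup.coe_mul, inv_mul_cancel]; rfl

lemma trace_conj (g : SL2) (x : M2) : ((g : M2) * x * ((g⁻¹ : SL2) : M2)).trace = x.trace := by
  rw [Matrix.trace_mul_comm, ← mul_assoc, inv_mul_coe, one_mul]

lemma conj_mem {N : ℕ} {u : SL2} (hu : u ∈ Gam N) (g : SL2) : g * u * g⁻¹ ∈ Gam N :=
  (CongruenceSubgroup.Gamma_normal N).conj_mem u hu g

lemma conj_iff {N : ℕ} (g x : SL2) : x ∈ Gam N ↔ g * x * g⁻¹ ∈ Gam N := by
  refine ⟨fun h => conj_mem h g, fun h => ?_⟩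
  have := conj_mem h g⁻¹
  simpa [mul_assoc] using this

lemma conj_smul (g u : SL2) (τ : ℍ) : (g * u * g⁻¹) • g • τ = g • u • τ := by
  simp only [mul_smul, inv_smul_smul]

lemma odd_conj (g : SL2) : Odd ((g * g0 * g⁻¹ : SL2) : M2).trace := by
  rw [Matrix.SpecialLinearGroup.coe_mul, Matrix.SpecialLinearGroup.coe_mul, trace_conj, g0_coe]
  simp only [Matrix.trace_fin_two_of]
  decide

/-- Elements that commute modulo ten with all elements of order six. -/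
def Cm (g : SL2) : Prop :=
  ∃ y k l : ℤ, (g : M2) 0 1 = 5 * y ∧ (g : M2) 1 0 = 5 * y + 10 * k ∧
    (g : M2) 0 0 - (g : M2) 1 1 = 5 * y + 10 * l

lemma Cm.inv {g : SL2} (h : Cm g) : Cm g⁻¹ := by
  obtain ⟨y, k, l, h1, h2, h3⟩ := h
  refine ⟨-y, -k, -l, ?_, ?_, ?_⟩ <;>
    simp only [Matrix.SpecialLinearGroup.coe_inv, Matrix.adjugate_fin_two, Matrix.of_apply,
      Matrix.cons_val', Matrix.cons_val_zero, Matrix.cons_val_one, Matrix.cons_val_fin_one] <;>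
    linarith

lemma cm_g0 : Cm g0 := ⟨1, 0, 2, by decide, by decide, by decide⟩

lemma cm_l10 : Cm l10 := ⟨0, 1, 0, by decide, by decide, by decide⟩

lemma Cm.comm {g : SL2} (h : Cm g) {W : M2} (hd : W.det = 1) (ht : W.trace = 1) :
    ∃ Z : M2, (g : M2) * W = W * g + (10 : ℤ) • Z := by
  obtain ⟨y, k, l, h1, h2, h3⟩ := h
  rw [Matrix.det_fin_two] at hd
  rw [Matrix.trace_fin_two] at ht
  have e : W 1 1 = 1 - W 0 0 := by linarith
  have ho : Odd (W 0 1 * W 1 0) := by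
    obtain ⟨m, hm⟩ := Int.even_mul_succ_self (W 0 0 - 1)
    exact ⟨-m - 1, by rw [e] at hd; linear_combination -hd - hm⟩
  obtain ⟨⟨q, hq⟩, ⟨r, hr⟩⟩ := Int.odd_mul.mp ho
  have h4 : (g : M2) 0 0 = (g : M2) 1 1 + (5 * y + 10 * l) := by linarith
  refine ⟨!![y * (r - q) - k * W 0 1, y * (q + 1 - W 0 0) + l * W 0 1;
    y * (W 0 0 - 1 - r) + k * (2 * W 0 0 - 1) - l * W 1 0, y * (q - r) + k * W 0 1], ?_⟩
  ext i j
  fin_cases i <;> fin_cases j <;>
    simp [Matrix.mul_apply, Fin.sum_univ_two, h1, h2, h4, e, hq, hr] <;> ring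

/-- The forms in terms of elements of order six. -/
def TSet (v : Cls 2) : Set (M2 × ℍ) :=
  {p | ∃ W : M2, W.det = 1 ∧ W.trace = 1 ∧ p.1 = (4 : ℤ) • W - (2 : ℤ) • 1 ∧ mob W p.2 = p.2 ∧
    cls 2 (2 * W 0 1) (W 1 0) (2 - 4 * W 0 0) = v}

lemma fset_eq (b c ρ : ℤ) (hc : ¬2 ∣ c) : FSet 2 (-12) (cls 2 b c ρ) = TSet (cls 2 b c ρ) := by
  ext p
  constructor
  · rintro ⟨b', c', ρ', h1, h2, h3, h4⟩
    have h5 : (c' : ZMod 10) = (c : ZMod 10) := congrArg (fun z : Cls 2 => z.2.1) h3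
    have h6 := (ZMod.intCast_eq_intCast_iff_dvd_sub c' c 10).mp h5
    have hc' : Odd c' := by
      rw [← Int.not_even_iff_odd, even_iff_two_dvd]
      push_cast at h6
      omega
    obtain ⟨a, ha⟩ : ∃ a, ρ' = 2 - 4 * a := by
      obtain ⟨k, hk⟩ : ∃ k, ρ' = 4 * k ∨ ρ' = 4 * k + 1 ∨ ρ' = 4 * k + 2 ∨ ρ' = 4 * k + 3 :=
        ⟨ρ' / 4, by omega⟩
      push_cast at h2
      rcases hk with hk | hk | hk | hk
      · rw [hk] at h2; ring_nf at h2; omega
      · rw [hk] at h2; ring_nf at h2; omega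
      · exact ⟨-k, by linarith⟩
      · rw [hk] at h2; ring_nf at h2; omega
    subst ha
    have h7 : b' * c' = 2 * (a - 1 - a ^ 2) := by
      push_cast at h2
      linarith
    obtain ⟨β, hβ⟩ : 2 ∣ b' := by
      have : Even (b' * c') := ⟨a - 1 - a ^ 2, by rw [h7]; ring⟩
      exact even_iff_two_dvd.mp ((Int.even_mul.mp this).resolve_right
        (Int.not_even_iff_odd.mpr hc'))
    subst hβ
    have hd : (!![a, β; c', 1 - a] : M2).det = 1 := by
      rw [Matrix.det_fin_two_of]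
      linarith
    refine ⟨!![a, β; c', 1 - a], hd, by simp, ?_, ?_, ?_⟩
    · rw [h1, ymat]
      ext i j
      simp only [Matrix.sub_apply, Matrix.smul_apply, Matrix.one_apply]
      fin_cases i <;> fin_cases j <;> simp <;> ring
    · rw [mob_fix_iff (by rw [hd]; exact one_pos)]
      push_cast at h4
      simp only [Matrix.of_apply, Matrix.cons_val', Matrix.cons_val_zero, Matrix.cons_val_one,
        Matrix.cons_val_fin_one]
      push_cast
      linear_combination h4 / 2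
    · simpa using h3
  · rintro ⟨W, h1, h2, h3, h4, h5⟩
    rw [mob_fix_iff (by rw [h1]; exact one_pos)] at h4
    rw [Matrix.det_fin_two] at h1
    rw [Matrix.trace_fin_two] at h2
    have e : W 1 1 = 1 - W 0 0 := by linarith
    rw [e] at h1 h4
    refine ⟨2 * W 0 1, W 1 0, 2 - 4 * W 0 0, ?_, ?_, h5, ?_⟩
    · rw [h3, ymat]
      ext i j
      simp only [Matrix.sub_apply, Matrix.smul_apply, Matrix.one_apply]
      fin_cases i <;> fin_cases j <;> simp [e] <;> ring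
    · push_cast
      linear_combination -16 * h1
    · push_cast at h4 ⊢
      linear_combination 2 * h4

lemma tset_stab {g : SL2} (hg : Cm g) {v : Cls 2} {p : M2 × ℍ} (hp : p ∈ TSet v) :
    cact g p ∈ TSet v := by
  obtain ⟨W, h1, h2, h3, h4, h5⟩ := hp
  obtain ⟨Z, hZ⟩ := hg.comm h1 h2
  have hW : 0 < W.det := by rw [h1]; exact one_pos
  have e : (g : M2) * W * ((g⁻¹ : SL2) : M2) = W + (10 : ℤ) • (Z * ((g⁻¹ : SL2) : M2)) := by
    rw [hZ, add_mul, mul_assoc, mul_inv_coe, mul_one, smul_mul_assoc]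
  refine ⟨(g : M2) * W * ((g⁻¹ : SL2) : M2), ?_, ?_, ?_, ?_, ?_⟩
  · rw [Matrix.det_mul, Matrix.det_mul, det_SL, det_SL, h1]; norm_num
  · rw [trace_conj, h2]
  · show (g : M2) * p.1 * ((g⁻¹ : SL2) : M2) = _
    rw [h3, mul_sub, sub_mul, mul_smul_comm, smul_mul_assoc, mul_smul_comm, smul_mul_assoc,
      mul_one, mul_inv_coe]
  · show mob _ (g • p.2) = g • p.2
    rw [mob_mul (by rw [Matrix.det_mul]; exact mul_pos (det_SL_pos g) hW) (det_SL_pos _),
      mob_mul (det_SL_pos g) hW, mob_SL, mob_SL, inv_smul_smul, h4]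
  · rw [← h5, e]
    generalize Z * ((g⁻¹ : SL2) : M2) = Y
    simp only [Matrix.add_apply, Matrix.smul_apply, smul_eq_mul]
    refine Prod.ext ?_ (Prod.ext ?_ ?_)
    · exact (ZMod.intCast_eq_intCast_iff_dvd_sub _ _ 10).mpr ⟨-2 * Y 0 1, by push_cast; ring⟩
    · exact (ZMod.intCast_eq_intCast_iff_dvd_sub _ _ 10).mpr ⟨-Y 1 0, by push_cast; ring⟩
    · exact (ZMod.intCast_eq_intCast_iff_dvd_sub _ _ (20 * 2)).mpr ⟨Y 0 0, by push_cast; ring⟩

lemma tset_iff (hF : FS) {g : SL2} (hg : Cm g) (v : Cls 2) (p : M2 × ℍ) :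
    p ∈ TSet v ↔ cact g p ∈ TSet v := by
  refine ⟨tset_stab hg, fun h => ?_⟩
  have := tset_stab hg.inv h
  rwa [← hF.cact_mul, inv_mul_cancel, hF.cact_one] at this

section Sym

variable {V : Type} [AddCommGroup V] {s : ℍ → ℍ → V}

lemma rows (hL : Law s) {α β : SL2} (h : α * β⁻¹ ∈ Gam 5) (h1 : 2 ∣ (α : M2) 1 0 - (β : M2) 1 0)
    (h2 : 2 ∣ (α : M2) 1 1 - (β : M2) 1 1) (x σ : ℍ) : s x (α • σ) = s x (β • σ) := by
  have e : α • σ = (α * β⁻¹) • β • σ := by rw [mul_smul, inv_smul_smul]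
  rw [e]
  refine hL.inv2 _ h ?_ x _
  obtain ⟨k, hk⟩ := h1
  obtain ⟨l, hl⟩ := h2
  refine ⟨k * (β : M2) 1 1 - l * (β : M2) 1 0, ?_⟩
  simp only [Matrix.SpecialLinearGroup.coe_mul, Matrix.SpecialLinearGroup.coe_inv,
    Matrix.adjugate_fin_two, Matrix.mul_apply, Fin.sum_univ_two, Matrix.of_apply,
    Matrix.cons_val', Matrix.cons_val_zero, Matrix.cons_val_one, Matrix.cons_val_fin_one]
  linear_combination (β : M2) 1 1 * hk - (β : M2) 1 0 * hl

lemma wlem (hL : Law s) {γ : SL2} (h : 2 ∣ (γ : M2) 1 1) :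
    ∃ g : SL2, ∀ x τ, s x (γ • mob (dg 2 1) τ) = s x (g • τ) := by
  obtain ⟨k, hk⟩ := h
  have hd := det_SL γ
  rw [Matrix.det_fin_two, hk] at hd
  let g : SL2 := ⟨!![6 * (γ : M2) 0 0 + 5 * (γ : M2) 1 0, 3 * (γ : M2) 0 1 + 5 * k;
      -10 * (γ : M2) 0 0 - 8 * (γ : M2) 1 0, -5 * (γ : M2) 0 1 - 8 * k], by
    rw [Matrix.det_fin_two_of]; linear_combination hd⟩
  have hw : (!![-8, -5; 10, 6] : M2).det = 2 := by simp [Matrix.det_fin_two]
  have e : (γ : M2) * dg 2 1 = !![-8, -5; 10, 6] * (g : M2) := by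
    ext i j
    fin_cases i <;> fin_cases j <;> simp [g, dg, Matrix.mul_apply, Fin.sum_univ_two, hk] <;> ring
  refine ⟨g, fun x τ => ?_⟩
  rw [← mob_SL, ← mob_mul (det_SL_pos γ) (by rw [det_dg]; norm_num), e,
    mob_mul (by rw [hw]; norm_num) (det_SL_pos g), mob_SL]
  exact hL.w2 _ hw (by decide) (by decide) (by decide) (by decide) x _

lemma tr3' (hL : Law s) (γ : SL2) (x σ : ℍ) :
    s x (γ • σ) + s x (γ • g0 • σ) + s x (γ • g0 • g0 • σ) = 0 := by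
  have := hL.tr3 _ (conj_mem g0_mem γ) (odd_conj γ) x (γ • σ)
  rwa [conj_smul, conj_smul] at this

lemma even' (hL : Law s) (γ : SL2) (x σ : ℍ) : s (γ • g0 • x) σ = s (γ • x) σ := by
  have := hL.even _ (conj_mem g0_mem γ) (odd_conj γ) (γ • x) σ
  rwa [conj_smul] at this

lemma quot_mem (γ : SL2) {u w : SL2} (hu : u ∈ Gam 5) (hw : w ∈ Gam 5) :
    γ * u * (γ * w)⁻¹ ∈ Gam 5 := by
  have := conj_mem (mul_mem hu (inv_mem hw)) γ
  simpa [mul_assoc] using this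

lemma claim (hL : Law s) (γ : SL2) : ∃ (e : ℤ) (g : SL2), ∀ x τ,
    s x (γ • mob (dg 2 1) τ) + s x (γ • l5 • mob (dg 2 1) τ) = e • s x (g • τ) := by
  have a1 : ((γ * l5 : SL2) : M2) 1 0 = (γ : M2) 1 0 + 5 * (γ : M2) 1 1 := by
    simp [l5_coe, Matrix.mul_apply, Fin.sum_univ_two, mul_comm]
  have a2 : ((γ * l5 : SL2) : M2) 1 1 = (γ : M2) 1 1 := by
    simp [l5_coe, Matrix.mul_apply, Fin.sum_univ_two]
  have b1 : ((γ * g0 : SL2) : M2) 1 0 = 26 * (γ : M2) 1 0 + 5 * (γ : M2) 1 1 := by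
    simp [g0_coe, Matrix.mul_apply, Fin.sum_univ_two, mul_comm]
  have b2 : ((γ * g0 : SL2) : M2) 1 1 = 5 * (γ : M2) 1 0 + (γ : M2) 1 1 := by
    simp [g0_coe, Matrix.mul_apply, Fin.sum_univ_two, mul_comm]
  have c1 : ((γ * (g0 * g0) : SL2) : M2) 1 0 = 701 * (γ : M2) 1 0 + 135 * (γ : M2) 1 1 := by
    simp [g0_coe, Matrix.mul_apply, Fin.sum_univ_two, mul_comm]
  have c2 : ((γ * (g0 * g0) : SL2) : M2) 1 1 = 135 * (γ : M2) 1 0 + 26 * (γ : M2) 1 1 := by
    simp [g0_coe, Matrix.mul_apply, Fin.sum_univ_two, mul_comm]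
  by_cases hd : 2 ∣ (γ : M2) 1 1
  · obtain ⟨g, hg⟩ := wlem hL hd
    refine ⟨2, g, fun x τ => ?_⟩
    have h1 := rows hL (α := γ * l5) (β := γ) (conj_mem l5_mem γ) (by rw [a1]; omega)
      (by rw [a2]; omega) x (mob (dg 2 1) τ)
    rw [← mul_smul, h1, hg, two_smul]
  · by_cases hc : 2 ∣ (γ : M2) 1 0
    · obtain ⟨g, hg⟩ := wlem hL (γ := γ * (g0 * g0)) (by rw [c2]; omega)
      refine ⟨-1, g, fun x τ => ?_⟩
      have h1 := rows hL (quot_mem γ l5_mem g0_mem) (by rw [a1, b1]; omega)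
        (by rw [a2, b2]; omega) x (mob (dg 2 1) τ)
      have h2 := tr3' hL γ x (mob (dg 2 1) τ)
      have h3 := hg x τ
      simp only [mul_smul] at h1 h3
      rw [h1, neg_one_smul, ← h3]
      exact eq_neg_of_add_eq_zero_left h2
    · obtain ⟨g, hg⟩ := wlem hL (γ := γ * g0) (by rw [b2]; omega)
      refine ⟨-1, g, fun x τ => ?_⟩
      have h1 := rows hL (quot_mem γ l5_mem (mul_mem g0_mem g0_mem)) (by rw [a1, c1]; omega)
        (by rw [a2, c2]; omega) x (mob (dg 2 1) τ)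
      have h2 := tr3' hL γ x (mob (dg 2 1) τ)
      have h3 := hg x τ
      simp only [mul_smul] at h1 h3
      rw [h1, neg_one_smul, ← h3]
      rw [add_right_comm] at h2
      exact eq_neg_of_add_eq_zero_left h2

lemma inv' (hL : Law s) (γ1 γ2 : SL2) {u w : SL2} (hu : u ∈ Gam 10) (hw : w ∈ Gam 10) (x σ : ℍ) :
    s (γ1 • u • x) (γ2 • w • σ) = s (γ1 • x) (γ2 • σ) := by
  have := hL.inv _ (conj_mem hu γ1) _ (conj_mem hw γ2) (γ1 • x) (γ2 • σ)
  rwa [conj_smul, conj_smul] at this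

end Sym

lemma mob_dg {g g' : SL2} (h : dg 2 1 * (g : M2) = g' * dg 2 1) (τ : ℍ) :
    mob (dg 2 1) (g • τ) = g' • mob (dg 2 1) τ := by
  have hd : 0 < (dg 2 1).det := by rw [det_dg]; norm_num
  rw [← mob_SL, ← mob_mul hd (det_SL_pos g), h, mob_mul (det_SL_pos g') hd, mob_SL]

lemma gam20_le : Gam 20 ≤ Gj 2 := by
  intro g hg
  obtain ⟨h1, h2, h3, h4⟩ := CongruenceSubgroup.Gamma_mem.mp hg
  refine ⟨CongruenceSubgroup.Gamma_mem.mpr ?_, CongruenceSubgroup.Gamma0_mem.mpr h3⟩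
  have k := fun {x y : ZMod 20} (h : x = y) =>
    congrArg (ZMod.castHom (show 10 ∣ 20 by norm_num) (ZMod 10)) h
  have k1 := k h1
  have k2 := k h2
  have k3 := k h3
  have k4 := k h4
  simp only [map_intCast, map_one, map_zero] at k1 k2 k3 k4
  exact ⟨k1, k2, k3, k4⟩

end B12a

open B12a in
theorem b12a (hS : OS) (hO : ORB) (hF : FS) (hH : SH) : B12aStmt := by
  intro V _ s hL γ1 γ2 b c ρ hc R hR
  have hinv : ∀ g ∈ Gj 2, ∀ p : M2 × ℍ,
      s (γ1 • (cact g p).2) (γ2 • mob (dg 2 1) (cact g p).2) =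
        s (γ1 • p.2) (γ2 • mob (dg 2 1) p.2) := by
    intro g hg p
    obtain ⟨g', h1, h2⟩ := hF.gj_conj 2 two_pos g hg
    show s (γ1 • g • p.2) (γ2 • mob (dg 2 1) (g • p.2)) = _
    rw [mob_dg h2, inv' hL γ1 γ2 hg.1 h1]
  have hidx : (Gam 20).relIndex (Gj 2) ≠ 0 := by
    have : (Gam 20).FiniteIndex := inferInstance
    exact Subgroup.FiniteIndex.index_ne_zero
  obtain ⟨R', hR', hsum⟩ := hS.index cact (K := Gam 20) (L := Gj 2) hF.cact_one hF.cact_mul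
    gam20_le hidx (hF.fset_inv 2 _ _ two_pos)
    (fun g hg x _ hx => hO.free 10 g x.2 (by norm_num) hg.1 (congrArg Prod.snd hx)) hR
  have h1 := hsum (fun p => s (γ1 • p.2) (γ2 • mob (dg 2 1) p.2)) fun g hg p _ => hinv g hg p
  rw [fset_eq b c ρ hc] at hR'
  obtain ⟨e, g, hg⟩ := claim hL γ2
  have h2 := hH.shift (Gam 20) _ l10 (fun p => s (γ1 • p.2) (γ2 • mob (dg 2 1) p.2)) R'
    (conj_iff l10) (tset_iff hF cm_l10 _) (fun x hx p _ => hinv x (gam20_le hx) p) hR'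
  have hΨ : ∀ x ∈ Gam 20, ∀ p ∈ TSet (cls 2 b c ρ),
      s (γ1 • (cact x p).2) (g • (cact x p).2) = s (γ1 • p.2) (g • p.2) :=
    fun x hx p _ => inv' hL γ1 g (gam20_le hx).1 (gam20_le hx).1 p.2 p.2
  have h3 := hH.shift (Gam 20) _ g0 (fun p => s (γ1 • p.2) (g • p.2)) R'
    (conj_iff g0) (tset_iff hF cm_g0 _) hΨ hR'
  have h4 := hH.shift (Gam 20) _ (g0 * g0) (fun p => s (γ1 • p.2) (g • p.2)) R'
    (conj_iff _) (fun p => by
      rw [hF.cact_mul, ← tset_iff hF cm_g0, ← tset_iff hF cm_g0]) hΨ hR'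
  have h5 : ∑ p ∈ R', s (γ1 • p.2) (g • p.2) = 0 := by
    refine hL.tf 3 _ (by norm_num) ?_
    have e3 : ∀ z : V, (3 : ℤ) • z = z + z + z := fun z => by module
    rw [e3]
    nth_rewrite 2 [← h3]
    nth_rewrite 2 [← h4]
    rw [← Finset.sum_add_distrib, ← Finset.sum_add_distrib]
    refine Finset.sum_eq_zero fun p _ => ?_
    show s (γ1 • p.2) (g • p.2) + s (γ1 • g0 • p.2) (g • g0 • p.2) +
      s (γ1 • (g0 * g0) • p.2) (g • (g0 * g0) • p.2) = 0
    rw [mul_smul, even' hL, even' hL, even' hL]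
    exact tr3' hL g _ _
  have h6 : ∑ p ∈ R', s (γ1 • p.2) (γ2 • mob (dg 2 1) p.2) = 0 := by
    refine hL.tf 2 _ (by norm_num) ?_
    rw [two_smul]
    nth_rewrite 2 [← h2]
    rw [← Finset.sum_add_distrib, ← smul_zero e, ← h5, Finset.smul_sum]
    refine Finset.sum_congr rfl fun p _ => ?_
    rw [← hg]
    show _ + s (γ1 • l10 • p.2) (γ2 • mob (dg 2 1) (l10 • p.2)) = _
    have e1 : dg 2 1 * (l10 : M2) = l5 * dg 2 1 := by
      rw [l10_coe, l5_coe, dg]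
      decide
    have e2 := inv' hL γ1 γ2 l10_mem (one_mem _) p.2 (l5 • mob (dg 2 1) p.2)
    rw [one_smul] at e2
    rw [mob_dg e1, e2]
  refine hL.tf ((Gam 20).relIndex (Gj 2) : ℕ) _ (by exact_mod_cast hidx) ?_
  rw [natCast_zsmul]
  exact h1.symm.trans h6

end Pool.Agent.MP_9207e0_ag.e3
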