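import Pool.Agent.MP_9207e0_ag.e3.Fs

/-! The Heegner divisors of discriminant `-12` on the curve of determinant two whose second
coordinate has discriminant `-3` die. -/

set_option linter.unusedSectionVars false
set_option linter.unusedVariables false

namespace Pool.Agent.MP_9207e0_ag.e3

open UpperHalfPlane Complex Filter Asymptotics Matrix Pool.Agent.MP_9207e0_ag.hg
open scoped Real MatrixGroups Manifold Classical Kronecker

namespace B12b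

/-- Translations. -/
def tq (q : ℤ) : SL2 := ⟨!![1, q; 0, 1], by simp [Matrix.det_fin_two]⟩

lemma tq_coe (q : ℤ) : (tq q : M2) = !![1, q; 0, 1] := rfl

lemma tq_inv_coe (q : ℤ) : (((tq q)⁻¹ : SL2) : M2) = !![1, -q; 0, 1] := by
  rw [Matrix.SpecialLinearGroup.coe_inv, tq_coe, adjugate_fin_two_of]
  simp

lemma tq_inv (q : ℤ) : (tq q)⁻¹ = tq (-q) := Subtype.ext (tq_inv_coe q)

lemma tq_mem {N : ℕ} {q : ℤ} (h : (N : ℤ) ∣ q) : tq q ∈ Gam N :=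
  Fs.gam_iff.2 ⟨by simp [tq_coe], by simpa [tq_coe] using h, by simp [tq_coe], by simp [tq_coe]⟩

lemma conj_mem {N : ℕ} {u : SL2} (hu : u ∈ Gam N) (g : SL2) : g * u * g⁻¹ ∈ Gam N :=
  (CongruenceSubgroup.Gamma_normal N).conj_mem u hu g

lemma conj_smul (g u : SL2) (τ : ℍ) : (g * u * g⁻¹) • g • τ = g • u • τ := by
  simp only [mul_smul, inv_smul_smul]

lemma norm_mem (q : ℤ) {x : SL2} (hx : x ∈ Gj 2) : tq q * x * (tq q)⁻¹ ∈ Gj 2 := by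
  obtain ⟨h1, h2⟩ := Fs.gj_iff.1 hx
  refine Fs.gj_iff.2 ⟨conj_mem h1 _, ?_⟩
  have e : ((tq q * x * (tq q)⁻¹ : SL2) : M2) 1 0 = (x : M2) 1 0 := by
    rw [Fs.cmul, Fs.cmul, tq_inv_coe, tq_coe]
    simp [Matrix.mul_apply, Fin.sum_univ_two, vecMul, dotProduct]
  rw [e]
  exact h2

lemma norm_iff (q : ℤ) (x : SL2) : x ∈ Gj 2 ↔ tq q * x * (tq q)⁻¹ ∈ Gj 2 := by
  refine ⟨norm_mem q, fun h => ?_⟩
  have k := norm_mem (-q) h
  rw [← tq_inv] at k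
  simpa [mul_assoc] using k

lemma stab (y : ℤ) {b0 c0 ρ0 : ℤ} (hc : 2 ∣ c0) {p : M2 × ℍ}
    (hp : p ∈ FSet 2 (-12) (cls 2 b0 c0 ρ0)) :
    cact (tq (5 * y)) p ∈ FSet 2 (-12) (cls 2 b0 c0 ρ0) := by
  obtain ⟨b, c, ρ, e1, e2, e3, e4⟩ := hp
  have h5 : (c : ZMod 10) = (c0 : ZMod 10) := congrArg (fun z : Cls 2 => z.2.1) e3
  have h6 := (ZMod.intCast_eq_intCast_iff_dvd_sub c c0 10).mp h5
  obtain ⟨c', hc'⟩ : 2 ∣ c := by
    push_cast at h6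
    omega
  obtain ⟨r, hr⟩ : 2 ∣ ρ := by
    obtain ⟨t, rfl | rfl⟩ := Int.even_or_odd' ρ
    · exact ⟨t, rfl⟩
    · have e : (-12 : ℤ) = 4 * (t ^ 2 + t + 2 * (b * c)) + 1 := by rw [← e2]; push_cast; ring
      omega
  have em : (cact (tq (5 * y)) p).1 =
      ymat 2 (b + 5 * y * ρ - 2 * c * (5 * y) ^ 2) c (ρ - 4 * c * (5 * y)) := by
    simp only [cact, e1, tq_inv_coe, tq_coe, ymat, mul_fin_two]
    ext i k
    fin_cases i <;> fin_cases k <;> simp <;> ring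
  refine ⟨_, _, _, em, ?_, ?_, ?_⟩
  · rw [← e2]
    push_cast
    ring
  · rw [← e3]
    refine Fs.cls_eq ⟨-(y * r) + 5 * c * y ^ 2, ?_⟩ ⟨0, by ring⟩ ⟨c' * y, ?_⟩
    · rw [hr]; ring
    · rw [hc']; push_cast; ring
  · rw [← Fs.lin_ymat, ← em]
    rw [← Fs.lin_ymat, ← e1] at e4
    refine ((Fs.lin_SL _ p.2).mul e4).mul ?_
    simpa only [cact, inv_smul_smul] using Fs.lin_SL (tq (5 * y))⁻¹ (tq (5 * y) • p.2)

lemma mob_conj {g g' : SL2} (h : dg ((2 : ℕ) : ℤ) 1 * (g : M2) = g' * dg ((2 : ℕ) : ℤ) 1)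
    (τ : ℍ) : mob (dg ((2 : ℕ) : ℤ) 1) (g • τ) = g' • mob (dg ((2 : ℕ) : ℤ) 1) τ := by
  have d : 0 < (dg ((2 : ℕ) : ℤ) 1).det := by rw [det_dg]; norm_num
  rw [← mob_SL, ← mob_mul d (det_SL_pos g), h, mob_mul (det_SL_pos g') d, mob_SL]

lemma conj_coe (g : SL2) : ((g * tq 5 * g⁻¹ : SL2) : M2) =
    !![1 - 5 * (g : M2) 0 0 * (g : M2) 1 0, 5 * (g : M2) 0 0 ^ 2;
      -5 * (g : M2) 1 0 ^ 2, 1 + 5 * (g : M2) 0 0 * (g : M2) 1 0] := by
  have hd := Fs.det2 g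
  rw [Fs.cmul, Fs.cmul, tq_coe, Matrix.SpecialLinearGroup.coe_inv, adjugate_fin_two]
  ext i k
  fin_cases i <;> fin_cases k <;> simp [Matrix.mul_apply, Fin.sum_univ_two]
  · linear_combination hd
  · ring
  · ring
  · linear_combination hd

lemma not_even (g : SL2) : ¬(2 ∣ ((g * tq 5 * g⁻¹ : SL2) : M2) 0 1 ∧
    2 ∣ ((g * tq 5 * g⁻¹ : SL2) : M2) 1 0) := by
  have hd := Fs.det2 g
  rw [conj_coe]
  simp only [of_apply, cons_val', cons_val_zero, cons_val_one, cons_val_fin_one]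
  rintro ⟨h1, h2⟩
  have k : ∀ a : ℤ, 2 ∣ a ^ 2 → 2 ∣ a := fun a h => Int.prime_two.dvd_of_dvd_pow h
  obtain ⟨u, hu⟩ := k ((g : M2) 0 0) (by omega)
  obtain ⟨w, hw⟩ := k ((g : M2) 1 0) (by omega)
  have e : (1 : ℤ) = 2 * (u * (g : M2) 1 1 - (g : M2) 0 1 * w) := by
    linear_combination -hd + (g : M2) 1 1 * hu - (g : M2) 0 1 * hw
  omega

end B12b

open B12b in
theorem b12b (hF : FS) (hH : SH) : B12bStmt := by
  intro V _ s hL γ1 γ2 b c ρ hc R hR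
  have k := hH.shift (Gj 2) (FSet 2 (-12) (cls 2 b c ρ)) (tq (5 * 1))
    (fun p => s (γ1 • p.2) (γ2 • mob (dg ((2 : ℕ) : ℤ) 1) p.2)) R (norm_iff _)
    (fun p => ⟨stab 1 hc, fun h => by
      have k := stab (-1) hc h
      rwa [← hF.cact_mul, show (5 * -1 : ℤ) = -(5 * 1) by norm_num, ← tq_inv, inv_mul_cancel,
        hF.cact_one] at k⟩)
    (fun x hx p _ => by
      obtain ⟨g', m, e⟩ := hF.gj_conj 2 two_pos x hx
      simp only [cact]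
      rw [mob_conj e, ← conj_smul, ← conj_smul γ2]
      exact hL.inv _ (conj_mem hx.1 _) _ (conj_mem m _) _ _) hR
  have e : ∀ p : M2 × ℍ, s (γ1 • (cact (tq (5 * 1)) p).2)
      (γ2 • mob (dg ((2 : ℕ) : ℤ) 1) (cact (tq (5 * 1)) p).2) =
      -s (γ1 • p.2) (γ2 • mob (dg ((2 : ℕ) : ℤ) 1) p.2) := fun p => by
    have e1 : dg ((2 : ℕ) : ℤ) 1 * (tq 5 : M2) = (tq 10 : SL2) * dg ((2 : ℕ) : ℤ) 1 := by
      rw [tq_coe, tq_coe, dg, mul_fin_two, mul_fin_two]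
      norm_num
    simp only [cact, mul_one]
    rw [mob_conj e1, ← conj_smul, ← conj_smul γ2,
      hL.odd _ (conj_mem (tq_mem (by norm_num)) γ1) ?_ (not_even γ1)]
    · have k := hL.inv 1 (one_mem _) _ (conj_mem (tq_mem (N := 10) (q := 10) (by norm_num)) γ2)
        (γ1 • p.2) (γ2 • mob (dg ((2 : ℕ) : ℤ) 1) p.2)
      rw [one_smul] at k
      rw [k]
    · rw [conj_coe, trace_fin_two_of]
      exact ⟨1, by ring⟩
  simp only [e, Finset.sum_neg_distrib] at k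
  refine hL.tf 2 _ two_ne_zero ?_
  rw [two_smul]
  exact (congrArg (· + _) k.symm).trans (neg_add_cancel _)

end Pool.Agent.MP_9207e0_ag.e3
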