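import Pool.Agent.MP_9207e0_ag.e3.SpecA

/-! The cycles of elliptic points of order four die. -/

set_option linter.unusedSectionVars false
set_option linter.unusedVariables false

namespace Pool.Agent.MP_9207e0_ag.e3

open UpperHalfPlane Complex Filter Asymptotics Matrix Pool.Agent.MP_9207e0_ag.hg
open scoped Real MatrixGroups Manifold Classical Kronecker

namespace B4

lemma red_mul (A B : M2) : red 10 (A * B) = red 10 A * red 10 B :=
  (Int.castRingHom (ZMod 10)).mapMatrix.map_mul A B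

lemma red_one : red 10 1 = 1 := (Int.castRingHom (ZMod 10)).mapMatrix.map_one

lemma red_inv_mul (g : SL2) : red 10 ((g⁻¹ : SL2) : M2) * red 10 (g : M2) = 1 := by
  rw [← red_mul, ← Matrix.SpecialLinearGroup.coe_mul, inv_mul_cancel]
  exact red_one

lemma red_trace (x : M2) : (red 10 x).trace = ((x.trace : ℤ) : ZMod 10) := by
  simp [red, Matrix.trace_fin_two]

lemma red_det (x : M2) : (red 10 x).det = ((x.det : ℤ) : ZMod 10) := by
  simp [red, Matrix.det_fin_two]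

/-- Conjugation of residues. -/
def cj (g : SL2) (a : MN 10) : MN 10 := red 10 (g : M2) * a * red 10 ((g⁻¹ : SL2) : M2)

lemma cj_inj (g : SL2) (x a : MN 10) : x = a ↔ cj g x = cj g a := by
  refine ⟨fun h => by rw [h], fun h => ?_⟩
  have e : ∀ y, red 10 ((g⁻¹ : SL2) : M2) * cj g y * red 10 (g : M2) = y := fun y => by
    rw [cj, ← mul_assoc, ← mul_assoc, red_inv_mul, one_mul, mul_assoc, red_inv_mul, mul_one]
  rw [← e x, h, e]

lemma cj_trace (g : SL2) (a : MN 10) : (cj g a).trace = a.trace := by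
  rw [cj, Matrix.trace_mul_comm, ← mul_assoc, red_inv_mul, one_mul]

/-- The residue of the standard element of order four. -/
def mS : MN 10 := !![0, 9; 1, 0]

/-- A second residue. -/
def mA : MN 10 := !![0, 3; 3, 0]

/-- A third residue. -/
def mC : MN 10 := !![2, 5; 5, 8]

/-- The element that permutes the three residues. -/
def dl : SL2 := ⟨!![13, 6; 2, 1], by simp [Matrix.det_fin_two]⟩

lemma cj_dl (a : MN 10) : cj dl a = !![3, 6; 2, 1] * a * !![1, 4; 8, 3] := by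
  have h1 : red 10 (dl : M2) = !![3, 6; 2, 1] := by decide
  have h2 : ((dl⁻¹ : SL2) : M2) = !![1, -6; -2, 13] := by
    rw [Matrix.SpecialLinearGroup.coe_inv, Matrix.adjugate_fin_two]
    decide
  rw [cj, h1, h2]
  congr 1
  decide

lemma cj_S : cj dl mS = mC := by rw [cj_dl]; decide

lemma cj_A : cj dl mA = mS := by rw [cj_dl]; decide

lemma cj_C : cj dl mC = mA := by rw [cj_dl]; decide

lemma four {a : MN 10} (h0 : a 0 0 = 0) (h1 : a.trace = 0) (h2 : a.det = 1) :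
    a ∈ ({mS, -mS, mA, -mA} : Finset (MN 10)) := by
  rw [Matrix.trace_fin_two, h0, zero_add] at h1
  rw [Matrix.det_fin_two, h0, zero_mul, zero_sub] at h2
  have key : ∀ b c : ZMod 10, -(b * c) = 1 → (!![0, b; c, 0] : MN 10) = mS ∨
      (!![0, b; c, 0] : MN 10) = -mS ∨ (!![0, b; c, 0] : MN 10) = mA ∨
      (!![0, b; c, 0] : MN 10) = -mA := by decide
  have := key _ _ h2
  rw [Matrix.eta_fin_two a, h0, h1]
  simpa only [Finset.mem_insert, Finset.mem_singleton] using this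

lemma trace_zero (hH : SH) {P : MN 10 → Prop} {p : M2 × ℍ} (hp : p ∈ ESet P)
    (h : (red 10 p.1).trace = 0) : p.1.trace = 0 := by
  rw [red_trace] at h
  rcases hH.tr P p hp with e | e | e
  · exact e
  · rw [e] at h; exact absurd h (by decide)
  · rw [e] at h; exact absurd h (by decide)

lemma fd_case {x : M2} {τ : ℍ} (hd : x.det = 1) (ht : x.trace = 0) (hx : x ∈ Fix τ)
    (hτ : τ ∈ ModularGroup.fd) : red 10 x = mS ∨ red 10 x = -mS := by
  obtain ⟨h0, h1⟩ := hx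
  rw [Matrix.det_fin_two] at hd
  rw [Matrix.trace_fin_two] at ht
  have e : x 1 1 = -x 0 0 := by linarith
  obtain ⟨q1, q2⟩ := quad_disc (a := x 1 0) (b := (x 1 1 : ℝ) - x 0 0) (c := -(x 0 1 : ℝ))
    (τ := τ) (by push_cast; linear_combination h1)
  rw [e] at hd q1
  push_cast at q1
  have hdR : (x 0 0 : ℝ) * (-x 0 0) - x 0 1 * x 1 0 = 1 := by exact_mod_cast hd
  have q3 : (x 0 0 : ℝ) = x 1 0 * τ.re := by linarith
  have q4 : (x 1 0 : ℝ) ^ 2 * τ.im ^ 2 = 1 := by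
    rw [q3] at hdR
    linear_combination hdR - (x 1 0 : ℝ) * q2
  have q5 := ModularGroup.three_le_four_mul_im_sq_of_mem_fd hτ
  have q6 : (3 : ℝ) * (x 1 0 : ℝ) ^ 2 ≤ 4 := by nlinarith [sq_nonneg (x 1 0 : ℝ)]
  have q7 : 3 * x 1 0 ^ 2 ≤ 4 := by exact_mod_cast q6
  have q8 : x 1 0 = 1 ∨ x 1 0 = -1 := by
    have u1 : x 1 0 < 2 := by nlinarith
    have u2 : -2 < x 1 0 := by nlinarith
    omega
  have q9 := abs_le.mp hτ.2
  have q10 : x 0 0 = 0 := by
    have u1 : (x 0 0 : ℝ) < 1 := by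
      rcases q8 with h | h <;> rw [q3, h] <;> push_cast <;> linarith [q9.1, q9.2]
    have u2 : (-1 : ℝ) < x 0 0 := by
      rcases q8 with h | h <;> rw [q3, h] <;> push_cast <;> linarith [q9.1, q9.2]
    have u3 : x 0 0 < 1 := by exact_mod_cast u1
    have u4 : -1 < x 0 0 := by exact_mod_cast u2
    omega
  rw [Matrix.eta_fin_two x, e, q10]
  rw [q10] at hd
  rcases q8 with h | h
  · have h' : x 0 1 = -1 := by rw [h] at hd; linarith
    rw [h, h']; left; decide
  · have h' : x 0 1 = 1 := by rw [h] at hd; linarith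
    rw [h, h']; right; decide

section Sym

variable {V : Type} [AddCommGroup V]

/-- The cycle of the elliptic points with residue `a`. -/
noncomputable def zz (hH : SH) (s : ℍ → ℍ → V) (γ1 γ2 : SL2) (a : MN 10) : V :=
  ∑ p ∈ (hH.fin (· = a)).choose, s (γ1 • p.2) (γ2 • p.2)

variable {s : ℍ → ℍ → V}

lemma zz_eq (hH : SH) (hL : Law s) (γ1 γ2 : SL2) {a : MN 10} {R : Finset (M2 × ℍ)}
    (hR : IsRep (relC (Gam 10)) (ESet (· = a)) R) :
    ∑ p ∈ R, s (γ1 • p.2) (γ2 • p.2) = zz hH s γ1 γ2 a :=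
  hH.val s γ1 γ2 _ _ _ hL.inv hR (hH.fin (· = a)).choose_spec

lemma zz_neg (hH : SH) (hL : Law s) (γ1 γ2 : SL2) (a : MN 10) :
    zz hH s γ1 γ2 (-a) = zz hH s γ1 γ2 a := by
  rw [← zz_eq hH hL γ1 γ2 (hH.neg a _ (hH.fin (· = a)).choose_spec), Finset.sum_image]
  · rfl
  · intro p _ q _ h
    exact Prod.ext (neg_injective (Prod.mk.inj h).1) (Prod.mk.inj h).2

lemma move' (hH : SH) (g : SL2) {a : MN 10} {R : Finset (M2 × ℍ)}
    (hR : IsRep (relC (Gam 10)) (ESet (· = a)) R) :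
    IsRep (relC (Gam 10)) (ESet (· = cj g a)) (R.image (cact g)) :=
  hH.move g _ _ R (fun x => cj_inj g x a) hR

lemma zz_move (hF : FS) (hH : SH) (hL : Law s) (γ1 γ2 g : SL2) (a : MN 10) :
    zz hH s γ1 γ2 (cj g a) = zz hH s (γ1 * g) (γ2 * g) a := by
  rw [← zz_eq hH hL γ1 γ2 (move' hH g (hH.fin (· = a)).choose_spec), Finset.sum_image]
  · simp only [zz, mul_smul]
    rfl
  · intro p _ q _ h
    have := congrArg (cact g⁻¹) h
    rwa [← hF.cact_mul, ← hF.cact_mul, inv_mul_cancel, hF.cact_one, hF.cact_one] at this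

lemma rel_SA (hS : OS) (hH : SH) (h3 : B3Stmt) (hL : Law s) (γ1 γ2 : SL2)
    (h0 : EVan s γ1 γ2 fun a => a 0 0 = 0) : zz hH s γ1 γ2 mS + zz hH s γ1 γ2 mA = 0 := by
  obtain ⟨R, hR⟩ := hH.fin fun a => a 0 0 = 0
  have hrep : ∀ a : MN 10, a 0 0 = 0 →
      IsRep (relC (Gam 10)) (ESet (· = a)) (R.filter fun p => red 10 p.1 = a) := by
    intro a ha
    have h1 := hS.filter (r := relC (Gam 10)) (S := ESet fun a => a 0 0 = 0)
      (S' := ESet (· = a)) (fun p hp => ⟨hp.1, hp.2.1, by rw [hp.2.2]; exact ha⟩)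
      (fun x hx y _ h => by
        obtain ⟨g, hg, rfl⟩ := h
        exact hH.inv _ g hg x hx) hR
    have e : (R.filter fun p => red 10 p.1 = a) = R.filter (· ∈ ESet (· = a)) := by
      refine Finset.filter_congr fun p hp => ?_
      exact ⟨fun h => ⟨(hR.1 p hp).1, (hR.1 p hp).2.1, h⟩, fun h => h.2.2⟩
    rw [e]
    exact h1
  have h1 := h0 R hR
  let T : Finset (MN 10) := {mS, -mS, mA, -mA}
  rw [← Finset.sum_fiberwise_of_maps_to (t := T ∪ R.image fun p => red 10 p.1)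
    (g := fun p => red 10 p.1)
    (fun p hp => Finset.mem_union_right _ (Finset.mem_image_of_mem _ hp)),
    ← Finset.sum_subset (s₁ := T) Finset.subset_union_left] at h1
  · rw [Finset.sum_insert (by decide), Finset.sum_insert (by decide),
      Finset.sum_pair (by decide), zz_eq hH hL _ _ (hrep _ (by decide)),
      zz_eq hH hL _ _ (hrep _ (by decide)), zz_eq hH hL _ _ (hrep _ (by decide)),
      zz_eq hH hL _ _ (hrep _ (by decide)), zz_neg hH hL, zz_neg hH hL] at h1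
    refine hL.tf 2 _ (by norm_num) ?_
    rw [← h1]
    module
  · intro a ha hT
    obtain ⟨p, hp, rfl⟩ := Finset.mem_image.mp ((Finset.mem_union.mp ha).resolve_left hT)
    have hp' := hR.1 p hp
    refine h3 s hL γ1 γ2 _ ?_ _ (hrep _ hp'.2.2)
    rw [red_trace]
    rcases hH.tr _ p hp' with e | e | e
    · exact absurd (four hp'.2.2 (by rw [red_trace, e]; rfl) (by rw [red_det, hp'.1]; rfl)) hT
    · left; rw [e]; rfl
    · right; rw [e]; rfl

lemma zz_S (hS : OS) (hF : FS) (hH : SH) (h3 : B3Stmt) (hL : Law s)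
    (h0 : ∀ γ1 γ2, EVan s γ1 γ2 fun a => a 0 0 = 0) (γ1 γ2 : SL2) : zz hH s γ1 γ2 mS = 0 := by
  have h1 := fun γ1 γ2 => rel_SA hS hH h3 hL γ1 γ2 (h0 γ1 γ2)
  have h2 : ∀ γ1 γ2, zz hH s γ1 γ2 mC + zz hH s γ1 γ2 mS = 0 := fun γ1 γ2 => by
    have := h1 (γ1 * dl) (γ2 * dl)
    rwa [← zz_move hF hH hL, ← zz_move hF hH hL, cj_S, cj_A] at this
  have h4 : zz hH s γ1 γ2 mA + zz hH s γ1 γ2 mC = 0 := by
    have := h2 (γ1 * dl) (γ2 * dl)
    rwa [← zz_move hF hH hL, ← zz_move hF hH hL, cj_S, cj_C] at this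
  refine hL.tf 2 _ (by norm_num) ?_
  have e : (2 : ℤ) • zz hH s γ1 γ2 mS = (zz hH s γ1 γ2 mS + zz hH s γ1 γ2 mA) +
      (zz hH s γ1 γ2 mC + zz hH s γ1 γ2 mS) - (zz hH s γ1 γ2 mA + zz hH s γ1 γ2 mC) := by module
  rw [e, h1, h2, h4, add_zero, sub_zero]

end Sym

end B4

open B4 in
theorem b4 (hS : OS) (hF : FS) (hH : SH) (h3 : B3Stmt) : B4Stmt := by
  intro V _ s hL h0 γ1 γ2 a ha R hR
  rcases R.eq_empty_or_nonempty with rfl | ⟨p, hp⟩
  · exact Finset.sum_empty
  obtain ⟨g, hg⟩ := ModularGroup.exists_smul_mem_fd p.2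
  have h1 := (move' hH g hR).1 _ (Finset.mem_image_of_mem _ hp)
  have h2 := fd_case h1.1 (trace_zero hH h1 (by rw [h1.2.2, cj_trace, ha])) h1.2.1 hg
  have h4 := zz_move hF hH hL (γ1 * g⁻¹) (γ2 * g⁻¹) g a
  rw [inv_mul_cancel_right, inv_mul_cancel_right] at h4
  rw [h1.2.2] at h2
  refine (zz_eq hH hL γ1 γ2 hR).trans (h4.symm.trans ?_)
  rcases h2 with h | h
  · rw [h, zz_S hS hF hH h3 hL h0]
  · rw [h, zz_neg hH hL, zz_S hS hF hH h3 hL h0]

end Pool.Agent.MP_9207e0_ag.e3
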