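import Pool.Agent.MP_9207e0_ag.e3.SpecB

/-! Module CUSP: growth of the eta quotients at the cusps. -/

set_option linter.unusedSectionVars false
set_option linter.unusedVariables false

namespace Pool.Agent.MP_9207e0_ag.e3

open UpperHalfPlane Complex Filter Asymptotics Matrix Pool.Agent.MP_9207e0_ag.hg
open scoped Real MatrixGroups Manifold Classical Kronecker

namespace Cusp

/-- Exact exponential order. -/
def Th (κ : ℝ) (f : ℍ → ℝ) : Prop := f =Θ[atImInfty] fun τ => Real.exp (2 * π * κ * τ.im)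

lemma Th.mul {κ κ' : ℝ} {f g : ℍ → ℝ} (hf : Th κ f) (hg : Th κ' g) :
    Th (κ + κ') fun τ => f τ * g τ := by
  have := IsTheta.mul hf hg
  unfold Th
  refine this.trans_eventuallyEq (Eventually.of_forall fun τ => ?_)
  simp only [← Real.exp_add]
  ring_nf

lemma Th.div {κ κ' : ℝ} {f g : ℍ → ℝ} (hf : Th κ f) (hg : Th κ' g) :
    Th (κ - κ') fun τ => f τ / g τ := by
  have := IsTheta.div hf hg
  unfold Th
  refine this.trans_eventuallyEq (Eventually.of_forall fun τ => ?_)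
  simp only [← Real.exp_sub]
  ring_nf

lemma Th.pow {κ : ℝ} {f : ℍ → ℝ} (hf : Th κ f) (n : ℕ) : Th (n * κ) fun τ => f τ ^ n := by
  have := IsTheta.pow hf n
  unfold Th
  refine this.trans_eventuallyEq (Eventually.of_forall fun τ => ?_)
  simp only [← Real.exp_nat_mul]
  ring_nf

lemma Th.gr {κ κ' : ℝ} {f : ℍ → ℝ} {w : ℍ → ℂ} (hf : Th κ f) (h : ∀ τ, ‖w τ‖ = f τ)
    (hk : κ ≤ κ') : Gr κ' w := by
  refine Gr.mono (κ := κ) ?_ hk
  refine IsBigO.of_norm_left ?_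
  simpa only [h] using hf.1

lemma th_of {κ : ℝ} {w : ℍ → ℂ} (h1 : Gr κ w) (h2 : Gr (-κ) fun τ => (w τ)⁻¹)
    (h0 : ∀ τ, w τ ≠ 0) : Th κ fun τ => ‖w τ‖ := by
  refine ⟨IsBigO.norm_left h1, IsBigO.norm_right ?_⟩
  have := IsBigO.inv_rev h2 (Eventually.of_forall fun τ h => absurd (inv_eq_zero.mp h) (h0 τ))
  refine this.congr (fun τ => ?_) fun τ => inv_inv _
  rw [← Real.exp_neg]
  ring_nf

lemma norm_ee (z : ℂ) : ‖ee z‖ = Real.exp (-(2 * π * z.im)) := by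
  rw [ee, Complex.norm_exp]
  congr 1
  simp

lemma gr_ee (k : ℝ) : Gr (-k) fun τ => ee (k * τ) := by
  refine IsBigO.of_bound 1 (Eventually.of_forall fun τ => ?_)
  rw [one_mul, norm_ee, Real.norm_of_nonneg (Real.exp_pos _).le]
  apply le_of_eq
  congr 1
  simp
  ring

lemma ee_add (z w : ℂ) : ee (z + w) = ee z * ee w := by
  rw [ee, ee, ee, mul_add, Complex.exp_add]

lemma ee_zero : ee 0 = 1 := by simp [ee]

lemma ed_one (τ : ℍ) : ed 1 τ = et τ := by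
  have : dg ((1 : ℕ) : ℤ) 1 = 1 := by
    ext i k
    fin_cases i <;> fin_cases k <;> simp [dg]
  rw [ed, this, mob_one]

lemma et_eq (τ : ℍ) : et τ = pe 1 τ * ee ((1 / 24 : ℝ) * τ) := by
  rw [pe, ed_one, mul_assoc, ← ee_add]
  have : -(((1 : ℕ) : ℂ) * τ) / 24 + ((1 / 24 : ℝ) : ℂ) * τ = 0 := by
    push_cast
    ring
  rw [this, ee_zero, mul_one]

lemma gr_et (h0 : QX0) : Gr (-(1 / 24)) et := by
  have := (h0.pe 1 one_pos).1.mul (gr_ee (1 / 24))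
  rw [zero_add] at this
  exact this.congr_left fun τ => (et_eq τ).symm

lemma gr_et_inv (h0 : QX0) : Gr (1 / 24) fun τ => (et τ)⁻¹ := by
  have := (h0.pe_inv 1 one_pos).mul (gr_ee (-(1 / 24)))
  rw [zero_add, neg_neg] at this
  refine this.congr_left fun τ => ?_
  rw [et_eq, mul_inv]
  simp only [Pi.mul_apply, Pi.inv_apply]
  congr 1
  apply eq_inv_of_mul_eq_one_left
  rw [← ee_add, ← ee_zero]
  congr 1
  push_cast
  ring

lemma th_et (hB : QB) (h0 : QX0) {a l e : ℤ} (ha : 0 < a) (he : 0 < e) :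
    Th (-(1 / 24) * a / e) fun τ => ‖et (mob !![a, l; 0, e] τ)‖ := by
  refine th_of (hB.gr_upper ha he (gr_et h0)) ?_ fun τ => hB.et_ne _
  have := hB.gr_upper (b := l) ha he (gr_et_inv h0)
  refine this.mono (le_of_eq ?_)
  ring

/-- The automorphy factor. -/
noncomputable def W (γ : SL2) (τ : ℍ) : ℝ := √‖((γ : M2) 1 0 : ℂ) * τ + (γ : M2) 1 1‖

lemma W_pos (γ : SL2) (τ : ℍ) : 0 < W γ τ :=
  Real.sqrt_pos.mpr (norm_pos_iff.mpr (den_ne (det_SL_pos γ) τ))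

/-- The normalised size of `η(d γ τ)`. -/
noncomputable def v (γ : SL2) (d : ℕ) (τ : ℍ) : ℝ := ‖ed d (γ • τ)‖ / W γ τ

/-- The square of the greatest common divisor. -/
def G (γ : SL2) (d : ℕ) : ℕ := Int.gcd ((γ : M2) 1 0) d ^ 2

lemma gcd_eq {γ γ' : SL2} {d : ℕ} {a : ℤ} (ha : 0 < a) (had : a ∣ d)
    (h1 : d * (γ : M2) 0 0 = (γ' : M2) 0 0 * a) (h2 : (γ : M2) 1 0 = (γ' : M2) 1 0 * a) :
    (Int.gcd ((γ : M2) 1 0) d : ℤ) = a := by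
  have e := det_SL γ'
  rw [Matrix.det_fin_two] at e
  apply Int.dvd_antisymm (by positivity) ha.le
  · have e1 : a = (d * (γ : M2) 0 0) * (γ' : M2) 1 1 - (γ' : M2) 0 1 * (γ : M2) 1 0 := by
      rw [h1, h2]
      linear_combination (-a) * e
    rw [e1]
    exact dvd_sub (((Int.gcd_dvd_right _ _).mul_right _).mul_right _)
      ((Int.gcd_dvd_left _ _).mul_left _)
  · exact Int.dvd_coe_gcd (h2 ▸ dvd_mul_left _ _) had

lemma key (hB : QB) (hO : ORB) (h0 : QX0) (γ : SL2) {d : ℕ} (hd : 0 < d) :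
    Th (-(G γ d : ℝ) / (24 * d)) (v γ d) := by
  have hdz : (0 : ℤ) < d := by exact_mod_cast hd
  have hdet : (dg d 1 * (γ : M2)).det = d := by
    rw [Matrix.det_mul, det_dg, det_SL, mul_one, mul_one]
  obtain ⟨B, ⟨hB1, γ', hγ⟩, -⟩ := hO.herm d _ hd hdet
  obtain ⟨b1, b2, b3, b4, b5⟩ := (hO.mem_herm d B).mp hB1
  obtain ⟨a, l, e, rfl⟩ : ∃ a l e : ℤ, B = !![a, l; 0, e] :=
    ⟨B 0 0, B 0 1, B 1 1, by rw [← b1]; exact Matrix.eta_fin_two B⟩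
  simp only [of_apply, cons_val', cons_val_zero, cons_val_one, cons_val_fin_one] at b2 b3 b4 b5
  have he : 0 < e := lt_of_le_of_lt b3 b4
  have e00 := congrFun (congrFun hγ 0) 0
  have e10 := congrFun (congrFun hγ 1) 0
  have e11 := congrFun (congrFun hγ 1) 1
  simp [dg, Matrix.mul_apply, Fin.sum_univ_two] at e00 e10 e11
  have hg := gcd_eq b2 (Dvd.intro _ b5) e00 e10
  have hBd : 0 < (!![a, l; 0, e] : M2).det := by
    rw [Matrix.det_fin_two]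
    simpa using mul_pos b2 he
  have heR : (0 : ℝ) < e := by exact_mod_cast he
  have hv : ∀ τ, v γ d τ = (√(e : ℝ))⁻¹ * ‖et (mob !![a, l; 0, e] τ)‖ := by
    intro τ
    have f1 : ed d (γ • τ) = et (γ' • mob !![a, l; 0, e] τ) := by
      rw [ed, ← mob_SL, ← mob_mul (by rw [det_dg, mul_one]; exact hdz) (det_SL_pos γ), hγ,
        mob_mul (det_SL_pos γ') hBd, mob_SL]
    have f2 : ((γ' : M2) 1 0 : ℂ) * (mob !![a, l; 0, e] τ : ℍ) + (γ' : M2) 1 1 =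
        (((γ : M2) 1 0 : ℂ) * τ + (γ : M2) 1 1) / e := by
      have : (e : ℂ) ≠ 0 := by exact_mod_cast he.ne'
      rw [coe_mob hBd, e10, e11]
      simp
      field_simp
      ring
    have f3 := hB.et_norm γ' (mob !![a, l; 0, e] τ)
    rw [← f1, f2, norm_div, Complex.norm_intCast, abs_of_pos heR] at f3
    have f4 : ‖ed d (γ • τ)‖ = W γ τ * ((√(e : ℝ))⁻¹ * ‖et (mob !![a, l; 0, e] τ)‖) := by
      have := (W_pos γ τ).le
      rw [← pow_left_inj₀ (norm_nonneg _) (by positivity) two_ne_zero, f3, mul_pow, mul_pow,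
        inv_pow, W, Real.sq_sqrt (norm_nonneg _), Real.sq_sqrt heR.le]
      ring
    rw [v, f4, mul_div_cancel_left₀ _ (W_pos γ τ).ne']
  have hk : -(G γ d : ℝ) / (24 * d) = -(1 / 24) * a / e := by
    have h1 : (G γ d : ℝ) = (a : ℝ) ^ 2 := by
      rw [← hg, G]
      push_cast
      rfl
    have h2 : (d : ℝ) = a * e := by exact_mod_cast b5.symm
    have h3 : (0 : ℝ) < a := by exact_mod_cast b2
    rw [h1, h2]
    field_simp
  rw [hk, funext hv]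
  exact (isTheta_const_mul_left (inv_ne_zero (Real.sqrt_pos.mpr heR).ne')).mpr
    (th_et hB h0 b2 he)

lemma gcd_mod (c : ℤ) : ∃ r : ℕ, r < 100 ∧
    ∀ d : ℕ, d ∣ 100 → Int.gcd c d = Nat.gcd r d ∧ ((d : ℤ) ∣ c ↔ d ∣ r) := by
  refine ⟨(c % 100).toNat, by omega, fun d hd => ?_⟩
  obtain ⟨k, hk⟩ := hd
  have hk' : (100 : ℤ) = d * k := by exact_mod_cast hk
  have e : c = ((c % 100).toNat : ℤ) + d * (k * (c / 100)) := by
    rw [← mul_assoc, ← hk']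
    omega
  generalize (c % 100).toNat = r at e
  generalize (k : ℤ) * (c / 100) = m at e
  subst e
  refine ⟨?_, ?_⟩
  · rw [Int.gcd_add_mul_left_left, Int.gcd_natCast_natCast]
  · rw [dvd_add_left (dvd_mul_right _ _), Int.natCast_dvd_natCast]

lemma ineq (γ : SL2) :
    (¬10 ∣ (γ : M2) 1 0 → 2 * G γ 1 + G γ 10 ≤ G γ 2 + 2 * G γ 5 ∧
      10 * G γ 1 + 2 * G γ 10 ≤ 10 * G γ 2 + 2 * G γ 5 ∧
      5 * G γ 2 + 3 * G γ 10 ≤ 30 * G γ 1 + 2 * G γ 5) ∧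
    (¬20 ∣ (γ : M2) 1 0 → 2 * G γ 2 + G γ 20 ≤ G γ 4 + 2 * G γ 10 ∧
      4 * G γ 1 + G γ 20 ≤ G γ 4 + 4 * G γ 5) ∧
    (¬25 ∣ (γ : M2) 1 0 → G γ 25 ≤ 25 * G γ 1 ∧ G γ 50 ≤ 25 * G γ 2 ∧ G γ 25 ≤ 5 * G γ 5) ∧
    (¬2 ∣ (γ : M2) 1 0 → G γ 1 = 1 ∧ G γ 2 = 1) := by
  obtain ⟨r, hr, h⟩ := gcd_mod ((γ : M2) 1 0)
  have d2 : (2 : ℤ) ∣ (γ : M2) 1 0 ↔ 2 ∣ r := (h 2 (by norm_num)).2
  have d10 : (10 : ℤ) ∣ (γ : M2) 1 0 ↔ 10 ∣ r := (h 10 (by norm_num)).2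
  have d20 : (20 : ℤ) ∣ (γ : M2) 1 0 ↔ 20 ∣ r := (h 20 (by norm_num)).2
  have d25 : (25 : ℤ) ∣ (γ : M2) 1 0 ↔ 25 ∣ r := (h 25 (by norm_num)).2
  rw [d2, d10, d20, d25]
  simp only [G]
  rw [(h 1 (by norm_num)).1, (h 2 (by norm_num)).1, (h 4 (by norm_num)).1, (h 5 (by norm_num)).1,
    (h 10 (by norm_num)).1, (h 20 (by norm_num)).1, (h 25 (by norm_num)).1,
    (h 50 (by norm_num)).1]
  clear h d2 d10 d20 d25
  interval_cases r <;> decide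

lemma ed_dbl (d : ℕ) (hd : 0 < d) (σ : ℍ) : ed d (mob (dg 2 1) σ) = ed (2 * d) σ := by
  have : dg d 1 * dg 2 1 = dg ((2 * d : ℕ) : ℤ) 1 := by
    ext i k
    fin_cases i <;> fin_cases k <;> simp [dg, Matrix.mul_apply, Fin.sum_univ_two, mul_comm]
  rw [ed, ed, ← mob_mul (by rw [det_dg, mul_one]; exact_mod_cast hd) (by rw [det_dg]; norm_num),
    this]

lemma nv (γ : SL2) (d : ℕ) (τ : ℍ) : ‖ed d (γ • τ)‖ = v γ d τ * W γ τ := by
  rw [v, div_mul_cancel₀ _ (W_pos γ τ).ne']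

lemma q15 {x y z t w : ℝ} (hw : w ≠ 0) :
    x * w * (y * w) ^ 5 / (z * w * (t * w) ^ 5) = x * y ^ 5 / (z * t ^ 5) := by
  rw [show x * w * (y * w) ^ 5 = x * y ^ 5 * w ^ 6 by ring,
    show z * w * (t * w) ^ 5 = z * t ^ 5 * w ^ 6 by ring, mul_div_mul_right _ _ (pow_ne_zero _ hw)]

lemma n_hh (γ : SL2) (τ : ℍ) :
    ‖hh (γ • τ)‖ = v γ 2 τ * v γ 5 τ ^ 5 / (v γ 1 τ * v γ 10 τ ^ 5) := by
  simp only [hh, norm_div, norm_mul, norm_pow, nv]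
  exact q15 (W_pos γ τ).ne'

lemma n_x20 (γ : SL2) (τ : ℍ) : ‖hh (mob (dg 2 1) (γ • τ))‖ =
    v γ 4 τ * v γ 10 τ ^ 5 / (v γ 2 τ * v γ 20 τ ^ 5) := by
  rw [hh, ed_dbl 2 (by norm_num), ed_dbl 5 (by norm_num), ed_dbl 1 (by norm_num),
    ed_dbl 10 (by norm_num)]
  simp only [norm_div, norm_mul, norm_pow, nv]
  exact q15 (W_pos γ τ).ne'

lemma n_kk (γ : SL2) (τ : ℍ) :
    ‖kk (γ • τ)‖ = v γ 2 τ ^ 4 * v γ 5 τ ^ 2 / (v γ 1 τ ^ 2 * v γ 10 τ ^ 4) := by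
  simp only [kk, norm_div, norm_mul, norm_pow, nv]
  rw [← mul_div_mul_right (v γ 2 τ ^ 4 * v γ 5 τ ^ 2) _ (pow_ne_zero 6 (W_pos γ τ).ne')]
  congr 1 <;> ring

lemma n_ll (γ : SL2) (τ : ℍ) :
    ‖ll (γ • τ)‖ = v γ 1 τ ^ 3 * v γ 5 τ / (v γ 2 τ * v γ 10 τ ^ 3) := by
  simp only [ll, norm_div, norm_mul, norm_pow, nv]
  rw [← mul_div_mul_right (v γ 1 τ ^ 3 * v γ 5 τ) _ (pow_ne_zero 4 (W_pos γ τ).ne')]
  congr 1 <;> ring

lemma n_ss (γ : SL2) (τ : ℍ) : ‖ss (γ • τ)‖ = v γ 1 τ / v γ 25 τ := by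
  simp only [ss, norm_div, nv]
  exact mul_div_mul_right _ _ (W_pos γ τ).ne'

lemma n_ss2 (γ : SL2) (τ : ℍ) : ‖ss (mob (dg 2 1) (γ • τ))‖ = v γ 2 τ / v γ 50 τ := by
  rw [ss, ed_dbl 1 (by norm_num), ed_dbl 25 (by norm_num)]
  simp only [norm_div, nv]
  exact mul_div_mul_right _ _ (W_pos γ τ).ne'

lemma n_t5 (γ : SL2) (τ : ℍ) : ‖t5 (γ • τ)‖ = (v γ 5 τ / v γ 25 τ) ^ 6 := by
  simp only [t5, norm_div, norm_pow, nv]
  rw [mul_div_mul_right _ _ (W_pos γ τ).ne']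

lemma n_t2 (γ : SL2) (τ : ℍ) : ‖t2 (γ • τ)‖ = (v γ 1 τ / v γ 2 τ) ^ 24 := by
  simp only [t2, norm_div, norm_pow, nv]
  rw [mul_div_mul_right _ _ (W_pos γ τ).ne']

end Cusp

open Cusp in
theorem cusp (hB : QB) (hO : ORB) (h2 : ETA2) (h0 : QX0) : CUSP := by
  have K : ∀ (γ : SL2) (d : ℕ) [NeZero d], Th (-(G γ d : ℝ) / (24 * d)) (v γ d) :=
    fun γ d _ => key hB hO h0 γ (Nat.pos_of_neZero d)
  have Kh := fun γ : SL2 =>
    ((K γ 2).mul ((K γ 5).pow 5)).div ((K γ 1).mul ((K γ 10).pow 5))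
  have Kx := fun γ : SL2 =>
    ((K γ 4).mul ((K γ 10).pow 5)).div ((K γ 2).mul ((K γ 20).pow 5))
  refine ⟨fun γ => ⟨⟨_, (Kh γ).gr (n_hh γ) le_rfl⟩, ⟨_, ((K γ 1).div (K γ 25)).gr (n_ss γ) le_rfl⟩⟩,
    fun γ h => (Kh γ).gr (n_hh γ) ?_,
    fun γ h => ((((K γ 2).pow 4).mul ((K γ 5).pow 2)).div
      (((K γ 1).pow 2).mul ((K γ 10).pow 4))).gr (n_kk γ) ?_,
    fun γ h => ((((K γ 1).pow 3).mul (K γ 5)).div
      ((K γ 2).mul ((K γ 10).pow 3))).gr (n_ll γ) ?_,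
    fun γ h => (Kx γ).gr (n_x20 γ) ?_,
    fun γ h => ((Kh γ).mul (Kx γ)).gr (fun τ => by rw [norm_mul, n_hh, n_x20]) ?_,
    fun γ h => ((K γ 1).div (K γ 25)).gr (n_ss γ) ?_,
    fun γ h => ((K γ 2).div (K γ 50)).gr (n_ss2 γ) ?_,
    fun γ h => (((K γ 5).div (K γ 25)).pow 6).gr (n_t5 γ) ?_,
    fun γ h => (((K γ 1).div (K γ 2)).pow 24).gr (n_t2 γ) ?_⟩
  · have : (2 * G γ 1 + G γ 10 : ℝ) ≤ G γ 2 + 2 * G γ 5 := by exact_mod_cast ((ineq γ).1 h).1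
    push_cast
    linarith
  · have : (10 * G γ 1 + 2 * G γ 10 : ℝ) ≤ 10 * G γ 2 + 2 * G γ 5 := by
      exact_mod_cast ((ineq γ).1 h).2.1
    push_cast
    linarith
  · have : (5 * G γ 2 + 3 * G γ 10 : ℝ) ≤ 30 * G γ 1 + 2 * G γ 5 := by
      exact_mod_cast ((ineq γ).1 h).2.2
    push_cast
    linarith
  · have : (2 * G γ 2 + G γ 20 : ℝ) ≤ G γ 4 + 2 * G γ 10 := by exact_mod_cast ((ineq γ).2.1 h).1
    push_cast
    linarith
  · have : (4 * G γ 1 + G γ 20 : ℝ) ≤ G γ 4 + 4 * G γ 5 := by exact_mod_cast ((ineq γ).2.1 h).2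
    push_cast
    linarith
  · have : (G γ 25 : ℝ) ≤ 25 * G γ 1 := by exact_mod_cast ((ineq γ).2.2.1 h).1
    push_cast
    linarith
  · have : (G γ 50 : ℝ) ≤ 25 * G γ 2 := by exact_mod_cast ((ineq γ).2.2.1 h).2.1
    push_cast
    linarith
  · have : (G γ 25 : ℝ) ≤ 5 * G γ 5 := by exact_mod_cast ((ineq γ).2.2.1 h).2.2
    push_cast
    linarith
  · rw [((ineq γ).2.2.2 h).1, ((ineq γ).2.2.2 h).2]
    norm_num

end Pool.Agent.MP_9207e0_ag.e3
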