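import Pool.Agent.MP_9207e0_ag.e3.SpecB

/-! The modular equation of level two for the generator of the function field of `X₀(10)`. -/

set_option linter.unusedSectionVars false
set_option linter.unusedVariables false

namespace Pool.Agent.MP_9207e0_ag.e3

open UpperHalfPlane Complex Filter Asymptotics Matrix Pool.Agent.MP_9207e0_ag.hg
open scoped Real MatrixGroups Manifold Classical Kronecker

namespace E20

/-- A polynomial in the parameter at infinity. -/
noncomputable def hz : List ℤ → ℍ → ℂ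
  | [], _ => 0
  | c :: l, τ => (c : ℂ) + qq τ * hz l τ

lemma gr_hz (h0 : QX0) (l : List ℤ) : Gr 0 (hz l) := by
  induction l with
  | nil => exact gr_const 0
  | cons c l ih =>
    have h := (h0.q 0).1.mul ih
    rw [add_zero] at h
    exact (gr_const (c : ℂ)).add h

/-- The function at `2 τ`. -/
noncomputable def bb (τ : ℍ) : ℂ := hh (mob (dg 2 1) τ)

/-- The function that vanishes. -/
noncomputable def FF (τ : ℍ) : ℂ :=
  (hh τ * bb τ) ^ 2 - 2 * (hh τ * bb τ * bb τ) - 4 * (hh τ * bb τ) - bb τ ^ 3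

lemma det2 : 0 < (dg 2 1).det := by rw [det_dg]; norm_num

lemma hol_FF (h2 : ETA2) : Hol FF := by
  have ha : Hol hh := h2.hols.1
  have hb : Hol bb := ha.comp_mob det2
  exact ((((ha.mul hb).pow 2).sub (mdifferentiable_const.mul ((ha.mul hb).mul hb))).sub
    (mdifferentiable_const.mul (ha.mul hb))).sub (hb.pow 3)

lemma inv_FF (h2 : ETA2) (hH : H10) (γ : SL2) (h : (20 : ℤ) ∣ (γ : M2) 1 0) (τ : ℍ) :
    FF (γ • τ) = FF τ := by
  obtain ⟨γ', e, -, -, e3, -⟩ := h2.conj 2 γ (by omega)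
  have hb : bb (γ • τ) = bb τ := by
    rw [bb, ← mob_SL, ← mob_mul det2 (det_SL_pos γ), e, mob_mul (det_SL_pos γ') det2, mob_SL,
      hH.inv γ' (by omega), bb]
  rw [FF, hb, hH.inv γ (by omega), FF]

lemma cusp_FF (hC : CUSP) (h0 : QX0) (γ : SL2) (h : ¬(20 : ℤ) ∣ (γ : M2) 1 0) :
    Gr 0 fun τ => FF (γ • τ) := by
  have X := h0.refl 0 (hC.x20 γ h)
  have Y := h0.refl 0 (hC.y20 γ h)
  have h1 := (h0.sub (h0.sub (h0.sub (h0.pow 2 Y) (h0.mul (h0.num 0 2) (h0.mul Y X)))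
    (h0.mul (h0.num 0 4) Y)) (h0.pow 3 X)).1
  refine IsBigO.congr_left h1 fun τ => ?_
  simp [FF, bb]

lemma gr_FF (h0 : QX0) (h1 : QX1) : Gr (-(1 : ℕ)) FF := by
  have A := h1.h
  have B := h0.mono (k := 7) (by norm_num) (h0.dbl h1.h)
  have Q := h0.q 7
  have h3 := h0.sub (h0.sub (h0.sub (h0.pow 2 (h0.mul A B))
    (h0.mul (h0.mul (h0.num 7 2) Q) (h0.mul (h0.mul A B) B)))
    (h0.mul (h0.mul (h0.num 7 4) (h0.pow 3 Q)) (h0.mul A B))) (h0.pow 3 B)
  have e : ∀ τ, qq (mob (dg 2 1) τ) = qq τ ^ 2 := fun τ => h0.q_dg 2 τ two_pos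
  have h4 := h0.trans h3 (h0.of_eq (b := 0) (gr_const 0) (gr_hz h0
    [0, 8, 4, 14, 8, 26, 0, 22, -12, 6, -32, 6, -28, -14, -52,
      -76, -40, 8, 48, 104, 124, -16, -32, -52, -44, 0, 4, 10, 4, 2]) (by
      funext τ
      simp only [Pi.add_apply, Pi.sub_apply, Pi.mul_apply, Pi.pow_apply, Pi.natCast_apply,
        Pi.ofNat_apply, e, hz]
      push_cast
      ring))
  refine h0.shift (k := 6) ?_
  have e2 : qq ^ 6 * FF = ((qq * hh) * fun τ => (qq * hh) (mob (dg 2 1) τ)) ^ 2 -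
      ((2 : ℕ) : ℍ → ℂ) * qq * (((qq * hh) * fun τ => (qq * hh) (mob (dg 2 1) τ)) *
        fun τ => (qq * hh) (mob (dg 2 1) τ)) -
      ((4 : ℕ) : ℍ → ℂ) * qq ^ 3 * ((qq * hh) * fun τ => (qq * hh) (mob (dg 2 1) τ)) -
      (fun τ => (qq * hh) (mob (dg 2 1) τ)) ^ 3 := by
    funext τ
    simp only [Pi.sub_apply, Pi.mul_apply, Pi.pow_apply, Pi.natCast_apply, e, FF, bb]
    push_cast
    ring
  rw [e2]
  exact h4

end E20

open E20 in
theorem e20 (h2 : ETA2) (hC : CUSP) (h0 : QX0) (h1 : QX1) (hS : STURM) (hH : H10) : E20Stmt := by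
  intro τ
  have h := hS.gam0 20 FF _ (by norm_num) (hol_FF h2) (inv_FF h2 hH) (cusp_FF hC h0)
    (by norm_num) (gr_FF h0 h1)
  have h3 : FF τ = 0 := congrFun h τ
  apply mul_left_cancel₀ (h2.nes (mob (dg 2 1) τ)).1
  rw [FF, bb] at h3
  linear_combination h3

end Pool.Agent.MP_9207e0_ag.e3
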