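import Pool.Agent.MP_9207e0_ag.e3.SpecB

/-! Module E50: the modular equation of degree two for the generator of level twenty-five. -/

namespace Pool.Agent.MP_9207e0_ag.e3

open UpperHalfPlane Complex Filter Asymptotics Matrix Pool.Agent.MP_9207e0_ag.hg
open scoped Real MatrixGroups Manifold Classical Kronecker

namespace E50a

/-- The homogenised equation. -/
def Hq {R : Type} [CommRing R] (q a b : R) : R :=
  (a * b) ^ 2 + 5 * (q * a + b) * q * (a * b) + 5 * q ^ 3 * (a * b) - (q * a + b) ^ 3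

/-- `ss (2 τ)`. -/
noncomputable def sd (τ : ℍ) : ℂ := ss (mob (dg 2 1) τ)

lemma cg_Hq (h0 : QX0) {k : ℕ} {q a a' b b' : ℍ → ℂ} (hq : Cg k q q) (ha : Cg k a a')
    (hb : Cg k b b') : Cg k (Hq q a b) (Hq q a' b') := by
  have h5 : Cg k (5 : ℍ → ℂ) 5 := by simpa using h0.num k 5
  have hs := h0.add (h0.mul hq ha) hb
  have hp := h0.mul ha hb
  exact h0.sub (h0.add (h0.add (h0.pow 2 hp) (h0.mul (h0.mul (h0.mul h5 hs) hq) hp))
    (h0.mul (h0.mul h5 (h0.pow 3 hq)) hp)) (h0.pow 3 hs)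

lemma det2 : 0 < (dg 2 1).det := by rw [det_dg]; norm_num

lemma decay (h0 : QX0) (h1 : QX1) : Gr (-1) (Hq 1 ss sd) := by
  have gA : Gr 0 (1 - qq - qq ^ 2 + qq ^ 5) := by
    have := h0.poly (1 - Polynomial.X - Polynomial.X ^ 2 + Polynomial.X ^ 5)
    simpa only [map_add, map_sub, map_pow, Polynomial.aeval_X, map_one] using this
  have gB : Gr 0 (1 - qq ^ 2 - qq ^ 4) := by
    have := h0.poly (1 - Polynomial.X ^ 2 - Polynomial.X ^ 4)
    simpa only [map_add, map_sub, map_pow, Polynomial.aeval_X, map_one] using this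
  have g1 : Gr 0 (1 : ℍ → ℂ) := gr_const 1
  have g2 : Gr 0 (qq ^ 3 + qq ^ 7) := by
    have := h0.poly (Polynomial.X ^ 3 + Polynomial.X ^ 7)
    simpa only [map_add, map_sub, map_pow, Polynomial.aeval_X, map_one] using this
  have g3 : Gr 0 (2 * qq ^ 2 + 3 * qq ^ 3 + qq ^ 8 - 2 - 2 * qq ^ 5 - qq ^ 6) := by
    have := h0.poly (2 * Polynomial.X ^ 2 + 3 * Polynomial.X ^ 3 + Polynomial.X ^ 8 - 2 -
      2 * Polynomial.X ^ 5 - Polynomial.X ^ 6)
    simpa only [map_add, map_sub, map_mul, map_pow, Polynomial.aeval_X, map_ofNat] using this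
  have ha : Cg 7 (qq * ss) (1 - qq - qq ^ 2 + qq ^ 5) :=
    h0.trans (h0.mono (by norm_num) h1.s) (h0.of_eq gA g1 (by ring))
  have hb : Cg 7 (qq ^ 2 * sd) (1 - qq ^ 2 - qq ^ 4) := by
    have h := h0.dbl h1.s
    have hq : ∀ τ, qq (mob (dg 2 1) τ) = qq τ ^ 2 := fun τ => h0.q_dg 2 τ two_pos
    have e1 : (fun τ => (qq * ss) (mob (dg 2 1) τ)) = qq ^ 2 * sd := by
      funext τ
      simp [hq, sd]
    have e2 : (fun τ => (1 - qq - qq ^ 2 + qq ^ 5 + qq ^ 7 : ℍ → ℂ) (mob (dg 2 1) τ)) =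
        1 - qq ^ 2 - qq ^ 4 + qq ^ 7 * (qq ^ 3 + qq ^ 7) := by
      funext τ
      simp only [Pi.add_apply, Pi.sub_apply, Pi.pow_apply, Pi.one_apply, Pi.mul_apply, hq]
      ring
    rw [e1, e2] at h
    exact h0.trans (h0.mono (by norm_num) h) (h0.of_eq gB g2 rfl)
  have h := h0.trans (cg_Hq h0 (h0.q 7) ha hb) (h0.of_eq (b := 0) (gr_const 0) g3 (by
    unfold Hq
    ring))
  have e : Hq qq (qq * ss) (qq ^ 2 * sd) = qq ^ 6 * Hq 1 ss sd := by
    unfold Hq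
    ring
  rw [e] at h
  simpa using h0.shift (k := 6) (l := 1) h

lemma app (τ : ℍ) : Hq 1 ss sd τ = Hq 1 (ss τ) (sd τ) := rfl

lemma hq_swap (a b : ℂ) : Hq 1 a b = Hq 1 b a := by
  unfold Hq
  ring

lemma sd_eq (h5 : S25Stmt) {γ γ' : SL2} {A : M2} (hA : 0 < A.det) (h25 : 25 ∣ (γ' : M2) 1 0)
    (e : dg 2 1 * (γ : M2) = γ' * A) (τ : ℍ) : sd (γ • τ) = ss (mob A τ) := by
  rw [sd, ← mob_SL, ← mob_mul det2 (det_SL_pos γ), e, mob_mul (det_SL_pos γ') hA, mob_SL,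
    h5 γ' h25]

end E50a

open E50a

theorem e50 (hB : QB) (h2 : ETA2) (hC : CUSP) (h0 : QX0) (h1 : QX1) (hS : STURM) (h5 : S25Stmt) :
    E50Stmt := by
  have hd := decay h0 h1
  have hs : Hol ss := h2.hols.2.2.2.1
  have ht : Hol sd := hs.comp_mob det2
  have hc : ∀ c : ℂ, Hol fun _ => c := fun _ => mdifferentiable_const
  have hol : Hol (Hq 1 ss sd) := by
    have a1 : Hol (1 * ss + sd) := ((hc 1).mul hs).add ht
    have a2 : Hol (ss * sd) := hs.mul ht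
    exact (((a2.pow 2).add ((((hc 5).mul a1).mul (hc 1)).mul a2)).add
      (((hc 5).mul ((hc 1).pow 3)).mul a2)).sub (a1.pow 3)
  have key := hS.gam0 50 (Hq 1 ss sd) (-1) (by norm_num) hol (fun γ hγ τ => by
    obtain ⟨γ', e, -, -, e3, -⟩ := h2.conj 2 γ (Dvd.dvd.trans (by norm_num) hγ)
    push_cast at hγ
    rw [app, app, h5 γ (Dvd.dvd.trans (by norm_num) hγ), sd_eq h5 det2 (by omega) e]
    rfl) (fun γ hγ => by
    push_cast at hγ
    by_cases h25 : 25 ∣ (γ : M2) 1 0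
    · obtain ⟨m, hm⟩ : ∃ m : ℤ, (γ : M2) 1 0 = 2 * m + 1 := ⟨(γ : M2) 1 0 / 2, by omega⟩
      have hdet : (γ : M2) 0 0 * (γ : M2) 1 1 - (γ : M2) 0 1 * (γ : M2) 1 0 = 1 := by
        rw [← Matrix.det_fin_two]
        exact det_SL γ
      have hA : 0 < (!![1, (γ : M2) 1 1; 0, 2] : M2).det := by simp [Matrix.det_fin_two]
      let γ' : SL2 := ⟨!![2 * (γ : M2) 0 0, (γ : M2) 0 1 - (γ : M2) 0 0 * (γ : M2) 1 1;
        (γ : M2) 1 0, -((γ : M2) 1 1 * m)], by
          rw [Matrix.det_fin_two_of]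
          linear_combination hdet + (γ : M2) 0 0 * (γ : M2) 1 1 * hm⟩
      let T : SL2 := ⟨!![1, (γ : M2) 1 1; 0, 1], by simp [Matrix.det_fin_two]⟩
      have e : dg 2 1 * (γ : M2) = γ' * !![1, (γ : M2) 1 1; 0, 2] := by
        ext i j
        fin_cases i <;> fin_cases j <;> simp [γ', dg, Matrix.mul_apply, Fin.sum_univ_two]
        · ring
        · linear_combination -(γ : M2) 1 1 * hm
      have e' : dg 2 1 * !![1, (γ : M2) 1 1; 0, 2] = (2 : ℤ) • (T : M2) := by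
        ext i j
        fin_cases i <;> fin_cases j <;> simp [T, dg, Matrix.mul_apply, Fin.sum_univ_two]
      have e2 : ∀ τ, sd (mob !![1, (γ : M2) 1 1; 0, 2] τ) = ss τ := fun τ => by
        rw [sd, ← mob_mul det2 hA, e', mob_smul (det_SL_pos T) two_ne_zero, mob_SL,
          h5 T (by simp [T])]
      have e3 : (fun τ => Hq 1 ss sd (γ • τ)) =
          fun τ => Hq 1 ss sd (mob !![1, (γ : M2) 1 1; 0, 2] τ) := by
        funext τ
        rw [app, app, h5 γ h25, sd_eq h5 hA (γ' := γ') h25 e, e2, hq_swap]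
      rw [e3]
      exact (hB.gr_upper one_pos two_pos hd).mono (by norm_num)
    · exact (cg_Hq h0 (h0.refl 0 (gr_const 1)) (h0.refl 0 (hC.ss γ h25))
        (h0.refl 0 (hC.ss2 γ h25))).1) (by norm_num) hd
  intro τ
  have := congrFun key τ
  rw [app, Hq, sd, Pi.zero_apply] at this
  linear_combination this

end Pool.Agent.MP_9207e0_ag.e3
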