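import Pool.Agent.MP_9207e0_ag.e3.SpecA

/-! The relation between elliptic points. -/

set_option linter.unusedSectionVars false
set_option linter.unusedVariables false

namespace Pool.Agent.MP_9207e0_ag.e3

open UpperHalfPlane Complex Filter Asymptotics Matrix Pool.Agent.MP_9207e0_ag.hg
open scoped Real MatrixGroups Manifold Classical Kronecker

namespace Ell

lemma gam_le {N N' : ℕ} (h : N ∣ N') : Gam N' ≤ Gam N := by
  intro g hg
  rw [CongruenceSubgroup.Gamma_mem] at hg ⊢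
  have H : ∀ x y : ℤ, (x : ZMod N') = (y : ℤ) → (x : ZMod N) = (y : ℤ) := fun x y e =>
    (ZMod.intCast_eq_intCast_iff_dvd_sub _ _ _).2 ((Int.natCast_dvd_natCast.2 h).trans
      ((ZMod.intCast_eq_intCast_iff_dvd_sub _ _ _).1 e))
  obtain ⟨h1, h2, h3, h4⟩ := hg
  exact ⟨by simpa using H _ 1 (by simpa using h1), by simpa using H _ 0 (by simpa using h2),
    by simpa using H _ 0 (by simpa using h3), by simpa using H _ 1 (by simpa using h4)⟩

lemma red_det (x : M2) : (red 10 x).det = ((x.det : ℤ) : ZMod 10) := by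
  simp [red, Matrix.det_fin_two]

lemma exists_F (hO : ORB) (P : MN 10 → Prop) :
    ∃ F : ℍ → Finset M2, ∀ τ x, x ∈ F τ ↔ (x, τ) ∈ ESet P := by
  refine ⟨fun τ => ((hO.fin_fix τ 1).subset (t := {x | (x, τ) ∈ ESet P})
    fun x hx => ⟨hx.2.1, hx.1.le⟩).toFinset, fun τ x => ?_⟩
  rw [Set.Finite.mem_toFinset]
  rfl

lemma key (hO : ORB) (c : MN 10 → LS) (h1 : ∀ x, ∀ n < -1, (c x).coeff n = 0)
    (h2 : ∀ x, (c x).coeff (-1) = if x 0 0 = 0 ∧ x.det = 1 then 10 else 0) (τ : ℍ)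
    (F : Finset M2) (hF : ∀ x, x ∈ F ↔ (x, τ) ∈ ESet fun a => a 0 0 = 0) :
    ∑ᶠ x ∈ Fix τ, (c (red 10 x)).coeff (-x.det) = 10 * (F.card : ℂ) := by
  have e1 : ∀ x ∈ F, (c (red 10 x)).coeff (-x.det) = 10 := by
    intro x hx
    obtain ⟨a1, -, a3⟩ := (hF x).1 hx
    have a1' : x.det = 1 := a1
    rw [a1', h2, if_pos ⟨a3, by rw [red_det, a1']; simp⟩]
  rw [finsum_mem_eq_sum_of_inter_support_eq (t := F), Finset.sum_congr rfl e1, Finset.sum_const,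
    nsmul_eq_mul, mul_comm]
  ext x
  simp only [Set.mem_inter_iff, Function.mem_support, Finset.mem_coe]
  refine and_congr_left fun hx => ⟨fun h => ?_, fun h => ((hF x).1 h).2.1⟩
  have d1 := hO.fix_det τ x h
  have d2 : x.det = 1 := by
    by_contra d3
    exact hx (h1 _ _ (by omega))
  rw [d2, h2] at hx
  refine (hF x).2 ⟨d2, h, ?_⟩
  by_contra d3
  exact hx (if_neg fun d4 => d3 d4.1)

/-- The elliptic elements above a set of representatives of points. -/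
lemma rep_pairs (hO : ORB) (hH : SH) {N : ℕ} (hN : 3 ≤ N) (hd : 10 ∣ N)
    {T : Set ℍ} {R : Finset ℍ} (hR : IsRep (relG N) T R) {Q : MN 10 → Prop}
    (hT : ∀ p ∈ ESet Q, p.2 ∈ T) {P : Finset (M2 × ℍ)}
    (hP : ∀ p, p ∈ P ↔ p.2 ∈ R ∧ p ∈ ESet Q) : IsRep (relC (Gam N)) (ESet Q) P := by
  refine ⟨fun p hp => ((hP p).1 hp).2, fun p hp => ?_⟩
  obtain ⟨σ, ⟨h1, g, hg, rfl⟩, h2⟩ := hR.2 _ (hT p hp)
  refine ⟨cact g p, ⟨(hP _).2 ⟨h1, hH.inv Q g (gam_le hd hg) p hp⟩, g, hg, rfl⟩, ?_⟩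
  rintro _ ⟨h3, g', hg', rfl⟩
  have h4 : g' • p.2 = g • p.2 := h2 _ ⟨((hP _).1 h3).1, g', hg', rfl⟩
  have h5 : g⁻¹ * g' = 1 := hO.free N _ p.2 hN (mul_mem (inv_mem hg) hg')
    (by rw [mul_smul, h4, inv_smul_smul])
  rw [inv_mul_eq_one.1 h5]

variable {V : Type} [AddCommGroup V]

lemma sum_ord (hS : OS) {N : ℕ} {T : Set ℍ} {R : Finset ℍ} (hR : IsRep (relG N) T R) {a : ℍ → ℂ}
    (ha : a ∈ Mod N) (hT : {τ | a τ = 0} ⊆ T) {S : ℍ → V}
    (h : Van (relG N) {τ | a τ = 0} fun τ => (ord a τ : ℤ) • S τ) :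
    ∑ τ ∈ R, (ord a τ : ℤ) • S τ = 0 := by
  rw [← h _ (hS.filter hT ?_ hR), Finset.sum_filter_of_ne]
  · intro τ _ h1
    by_contra h2
    rw [ord, (ordE_eq_zero ha.1 τ).2 h2] at h1
    simp at h1
  · rintro τ h1 _ - ⟨g, hg, rfl⟩
    exact (ha.2.1 g hg τ).trans h1

end Ell

open Ell in
theorem ell (hB : QB) (hS : OS) (hO : ORB) (hF : FS) (hH : SH) (hZ : FinZ) (hP : BorStmt) :
    EllStmt := by
  intro V _ s htf hI hR ⟨f, c, i1, i2, i3, i4⟩ γ1 γ2 R₀ h₀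
  obtain ⟨N', a, b, hN', am, bm, ai, bi, a0, b0, ho⟩ := hP 10 f c i1 i2 fun x n hn => by
    rcases eq_or_lt_of_le (show n ≤ -1 by omega) with rfl | h
    · rw [i4]
      split_ifs
      · exact ⟨10, by norm_num⟩
      · exact ⟨0, by norm_num⟩
    · exact ⟨0, by rw [i3 x n h]; norm_num⟩
  set S : ℍ → V := fun τ => s (γ1 • τ) (γ2 • τ) with hSd
  have hi : ∀ g ∈ Gam 10, ∀ τ, S (g • τ) = S τ := by
    intro g hg τ
    have := hI _ ((CongruenceSubgroup.Gamma_normal 10).conj_mem g hg γ1) _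
      ((CongruenceSubgroup.Gamma_normal 10).conj_mem g hg γ2) (γ1 • τ) (γ2 • τ)
    simpa only [mul_smul, inv_smul_smul] using this
  obtain ⟨N, hN⟩ : ∃ N, N = 10 * N' := ⟨_, rfl⟩
  have hd : 10 ∣ N := hN ▸ dvd_mul_right _ _
  have hN0 : 0 < N := by omega
  have hN3 : 3 ≤ N := by omega
  have : NeZero N := ⟨hN0.ne'⟩
  have rc : ∀ w ∈ Mod N, IntJ w → w ≠ 0 →
      Van (relG N) {τ | w τ = 0} fun τ => (ord w τ : ℤ) • S τ := by
    intro w h1 h2 h3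
    have := hR N 1 w γ1 (γ2 : M2) hN0 one_pos (by rw [det_SL]; rfl) (by simpa using hd) h1 h2 h3
    simpa only [mob_SL] using this
  have a1 : a ∈ Mod N := hB.mod_level (hN ▸ dvd_mul_left _ _) am
  have b1 : b ∈ Mod N := hB.mod_level (hN ▸ dvd_mul_left _ _) bm
  obtain ⟨Ra, hRa⟩ := hZ N _ hN0 a1 a0
  obtain ⟨Rb, hRb⟩ := hZ N _ hN0 b1 b0
  have hm : (Gam N).relIndex (Gam 10) ≠ 0 := Subgroup.FiniteIndex.index_ne_zero
  obtain ⟨R', r1, r2⟩ := hS.index cact hF.cact_one hF.cact_mul (gam_le hd) hm (hH.inv _)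
    (fun g hg p _ e => hO.free 10 g p.2 (by norm_num) hg (congrArg Prod.snd e)) h₀
  set T₀ : Finset ℍ := Ra ∪ Rb ∪ R'.image Prod.snd with hT₀
  obtain ⟨R, hRT⟩ := hS.exists_rep (S := {τ | ∃ σ ∈ T₀, relG N τ σ}) (hF.relG_equiv N)
    T₀.finite_toSet fun τ ⟨σ, h1, h2⟩ => ⟨σ, h1, ⟨σ, h1, (hF.relG_equiv N).refl σ⟩, h2⟩
  have sa := sum_ord hS hRT a1 (fun τ h => by
    obtain ⟨σ, h1, -⟩ := hRa.2 τ h
    exact ⟨σ, Finset.mem_union_left _ (Finset.mem_union_left _ h1.1), h1.2⟩) (rc _ a1 ai a0)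
  have sb := sum_ord hS hRT b1 (fun τ h => by
    obtain ⟨σ, h1, -⟩ := hRb.2 τ h
    exact ⟨σ, Finset.mem_union_left _ (Finset.mem_union_right _ h1.1), h1.2⟩) (rc _ b1 bi b0)
  obtain ⟨F, hq⟩ := exists_F hO fun a => a 0 0 = 0
  have rp : IsRep (relC (Gam N)) (ESet fun a => a 0 0 = 0)
      ((R.sigma F).image fun z => (z.2, z.1)) := by
    refine rep_pairs hO hH hN3 hd hRT (fun p hp => ?_) fun p => ?_
    · obtain ⟨q, ⟨h1, g, hg, rfl⟩, -⟩ := r1.2 p hp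
      exact ⟨g • p.2, Finset.mem_union_right _ (Finset.mem_image.2 ⟨_, h1, rfl⟩), g, hg, rfl⟩
    · simp only [Finset.mem_image, Finset.mem_sigma, hq]
      constructor
      · rintro ⟨z, ⟨f1, f2⟩, rfl⟩
        exact ⟨f1, f2⟩
      · rintro ⟨f1, f2⟩
        exact ⟨⟨p.2, p.1⟩, ⟨f1, f2⟩, rfl⟩
  have main : ∑ τ ∈ R, ((F τ).card : ℤ) • S τ = (Gam N).relIndex (Gam 10) • ∑ p ∈ R₀, S p.2 := by
    rw [← r2 (fun p => S p.2) fun g hg p _ => hi g hg p.2,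
      ← hS.sum_eq (f := fun p => S p.2) (hF.relC_equiv _) rp r1, Finset.sum_image,
      Finset.sum_sigma]
    · refine Finset.sum_congr rfl fun τ _ => ?_
      rw [natCast_zsmul]
      exact (Finset.sum_const _).symm
    · rintro ⟨τ, q⟩ - ⟨τ', q'⟩ - e
      have e3 : τ = τ' := congrArg Prod.snd e
      have e4 : q = q' := congrArg Prod.fst e
      rw [e3, e4]
    · rintro p - _ - ⟨g, hg, rfl⟩
      exact (hi g (gam_le hd hg) p.2).symm
  have pt : ∀ τ, (ord a τ : ℤ) - ord b τ = 30 * ((F τ).card : ℤ) := by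
    intro τ
    have := ho τ
    rw [key hO c i3 i4 τ (F τ) (hq τ), ← mul_assoc, show (3 : ℂ) * 10 = 30 by norm_num] at this
    exact_mod_cast this
  refine htf (30 * ((Gam N).relIndex (Gam 10) : ℤ)) _ (by positivity) ?_
  rw [mul_smul, natCast_zsmul, ← main, ← sub_zero (0 : V)]
  nth_rewrite 1 [← sa]
  rw [← sb, ← Finset.sum_sub_distrib, Finset.smul_sum]
  refine Finset.sum_congr rfl fun τ _ => ?_
  rw [← sub_smul, pt, mul_smul]

end Pool.Agent.MP_9207e0_ag.e3
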