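import Pool.Agent.MP_9207e0_ag.e3.SpecA
import Pool.Agent.MP_9207e0_ag.hg.Proda

/-! Module EMB: the embedding for the Weil representation, level ten. -/

set_option linter.unusedSectionVars false
set_option linter.unusedVariables false

namespace Pool.Agent.MP_9207e0_ag.e3

open UpperHalfPlane Complex Filter Asymptotics Matrix Pool.Agent.MP_9207e0_ag.hg
open scoped Real MatrixGroups Manifold Classical Kronecker

namespace Emb

open Pool.Agent.MP_9207e0_ag.hg.Emb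

section emb

variable (j : ℕ) [NeZero (20 * j)] [NeZero (40 * j)]

/-- Reduction modulo ten. -/
def c10 : ZMod (40 * j) →+* ZMod 10 := ZMod.castHom ⟨4 * j, by ring⟩ (ZMod 10)

/-- Reduction modulo `20 j`. -/
def ck : ZMod (40 * j) →+* ZMod (20 * j) := ZMod.castHom ⟨2, by ring⟩ (ZMod (20 * j))

/-- The map to matrices. -/
def i2 : Z4 (40 * j) →+ MN (40 * j) :=
  AddMonoidHom.mk' (fun z => !![z.2.2.2 - z.2.2.1, ((4 * j : ℕ) : ZMod (40 * j)) * z.1;
    z.2.1, z.2.2.2 + z.2.2.1]) fun x y => by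
    ext a b
    fin_cases a <;> fin_cases b <;> simp <;> ring

/-- The map to classes. -/
def q2 : Z4 (40 * j) →+ Cls j × ZMod (20 * j) :=
  AddMonoidHom.mk' (fun z => ((c10 j z.1, c10 j z.2.1, ck j z.2.2.1), ck j z.2.2.2)) fun x y => by
    simp

lemma i2_apply (b c ρ r : ZMod (40 * j)) :
    i2 j (b, c, ρ, r) = !![r - ρ, ((4 * j : ℕ) : ZMod (40 * j)) * b; c, r + ρ] := rfl

lemma q2_apply (b c ρ r : ZMod (40 * j)) :
    q2 j (b, c, ρ, r) = ((c10 j b, c10 j c, ck j ρ), ck j r) := rfl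

lemma i2_int (b c ρ r : ℤ) : i2 j (b, c, ρ, r) = red _ (xmat j b c ρ r) := by
  rw [i2_apply]
  ext a b
  fin_cases a <;> fin_cases b <;> simp [red, xmat]

lemma q2_int (b c ρ r : ℤ) : q2 j (b, c, ρ, r) = (cls j b c ρ, (r : ZMod (20 * j))) := by
  simp only [q2_apply, map_intCast, cls]

lemma cls_surj (v : Cls j) : ∃ b c ρ : ℤ, v = cls j b c ρ := by
  obtain ⟨b, c, ρ⟩ := v
  obtain ⟨b, rfl⟩ := ZMod.intCast_surjective b
  obtain ⟨c, rfl⟩ := ZMod.intCast_surjective c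
  obtain ⟨ρ, rfl⟩ := ZMod.intCast_surjective ρ
  exact ⟨b, c, ρ, rfl⟩

lemma q2_surj : Function.Surjective (q2 j) := fun ⟨v, r⟩ => by
  obtain ⟨b, c, ρ, rfl⟩ := cls_surj j v
  obtain ⟨r, rfl⟩ := ZMod.intCast_surjective r
  exact ⟨_, q2_int j b c ρ r⟩

lemma ker2 {b c ρ r : ZMod (40 * j)} (h : i2 j (b, c, ρ, r) = 0) :
    c = 0 ∧ ρ = r ∧ ((4 * j : ℕ) : ZMod (40 * j)) * b = 0 ∧ ((2 : ℕ) : ZMod (40 * j)) * r = 0 := by
  rw [i2_apply, mat_zero] at h
  obtain ⟨h1, h2, h3, h4⟩ := h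
  exact ⟨h3, by linear_combination -h1, h2, by push_cast; linear_combination h1 + h4⟩

lemma ker2' (z : Z4 (40 * j)) (h : i2 j z = 0) : q2 j z = 0 := by
  obtain ⟨b, c, ρ, r⟩ := z
  obtain ⟨rfl, rfl, h1, h2⟩ := ker2 j h
  have e1 : c10 j b = 0 := (zero_iff (n := 10) (by ring) _ _).1 h1
  have e2 : ck j ρ = 0 := (zero_iff (n := 20 * j) (by ring) _ _).1 h2
  rw [q2_apply, e1, e2, map_zero]
  rfl

lemma kk_i2 : (kk (i2 j) : ℂ) = 8 * j := by
  rw [kk_eq (i2 j) (Km (40 * j) (4 * j) ×ˢ Km (40 * j) 2) (fun y => (y.1, 0, y.2, y.2))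
    (fun z => (z.1, z.2.2.2)) (fun y hy => ?_) (fun ⟨b, c, ρ, r⟩ hz => ?_) fun _ => rfl,
    Finset.card_product, Nat.cast_mul, card_Km (n := 10) (by ring),
    card_Km (n := 20 * j) (by ring)]
  · push_cast
    ring
  · obtain ⟨h1, h2⟩ := Finset.mem_product.1 hy
    rw [mem_Km] at h1 h2
    rw [i2_apply, mat_zero]
    exact ⟨sub_self _, h1, rfl, by push_cast at h2; linear_combination h2⟩
  · obtain ⟨rfl, rfl, h1, h2⟩ := ker2 j hz
    exact ⟨Finset.mem_product.2 ⟨mem_Km.2 h1, mem_Km.2 h2⟩, rfl⟩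

lemma j_ne : (j : ℂ) ≠ 0 := fun h =>
  NeZero.ne (20 * j) (by rw [Nat.cast_eq_zero.1 h, mul_zero])

lemma kk_q2 : (kk (q2 j) : ℂ) = 64 * j ^ 2 := by
  have h := card_eq (q2 j) (q2_surj j)
  simp only [Fintype.card_prod, ZMod.card] at h
  push_cast at h
  have h0 : (40000 : ℂ) * j ^ 2 ≠ 0 := mul_ne_zero (by norm_num) (pow_ne_zero _ (j_ne j))
  exact mul_left_cancel₀ h0 (by linear_combination -h)

/-- The bicharacter on classes. -/
noncomputable def s0 (x y : Cls j) : ℂ :=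
  ZMod.stdAddChar (-(x.1 * y.2.1 + x.2.1 * y.1)) * ZMod.stdAddChar (-(x.2.2 * y.2.2))

/-- The matrix `S` on classes. -/
noncomputable def S0 : Matrix (Cls j) (Cls j) ℂ :=
  Matrix.of fun x y => (10⁻¹ * (Real.sqrt (20 * j : ℕ) : ℂ)⁻¹) * s0 j x y

/-- The diagonal of the matrix `T` on classes. -/
noncomputable def t0 (x : Cls j) : ℂ := ZMod.stdAddChar (x.1 * x.2.1) * tv (20 * j) 1 x.2.2

lemma even20 : Even (20 * j) := ⟨10 * j, by ring⟩

lemma t0_int (b c ρ : ℤ) : t0 j (cls j b c ρ) =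
    ee (((ρ ^ 2 + 4 * j * b * c : ℤ) : ℂ) / (40 * j) - 1 / 24) := by
  have := j_ne j
  simp only [t0, cls]
  rw [← Int.cast_mul, psi_int, tv_int (even20 j), ← ee_add]
  congr 1
  push_cast
  field_simp
  ring

lemma S0_four (v : Cls j → ℂ) :
    nsq (S0 j *ᵥ v) = nsq v ∧ ∀ a, (S0 j *ᵥ (S0 j *ᵥ v)) a = v (-a) := by
  refine four (s0 j) _ (fun x y w => ?_) (fun x y => ?_) (fun x => by simp [s0])
    (fun ⟨b, c, ρ⟩ h => ?_) (fun x y => ?_) (by simp) ?_ v
  · simp only [s0, Prod.fst_add, Prod.snd_add]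
    rw [mul_mul_mul_comm, ← AddChar.map_add_eq_mul, ← AddChar.map_add_eq_mul]
    congr 2 <;> ring
  · simp only [s0]
    congr 2 <;> ring
  · have h1 := h (0, 1, 0)
    have h2 := h (1, 0, 0)
    have h3 := h (0, 0, 1)
    simp only [s0, zero_mul, one_mul, zero_add, add_zero, neg_zero, AddChar.map_zero_eq_one,
      mul_one, psi_eq_one, neg_eq_zero] at h1 h2 h3
    rw [h1, h2, h3]
    rfl
  · simp only [s0, star_mul', Complex.star_def, ← AddChar.map_neg_eq_conj, Prod.fst_neg,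
      Prod.snd_neg]
    congr 2 <;> ring
  · have := j_ne j
    rw [mul_mul_mul_comm, sqrt_sq]
    simp only [Fintype.card_prod, ZMod.card]
    push_cast
    field_simp

lemma law2S : Pm (i2 j) (q2 j) * (SX (40 * j))ᵀ =
    (S0 j ⊗ₖ Sm (20 * j) (-1))ᵀ * Pm (i2 j) (q2 j) := by
  have hj := j_ne j
  refine lawS (fun x w => ZMod.stdAddChar (bil w x)) (((40 * j : ℕ) : ℂ) ^ 2)⁻¹
    (10⁻¹ * ((20 * j : ℕ) : ℂ)⁻¹) (q2_surj j) (fun x y w => ?_) (fun x w => rfl)
    (fun ⟨b, c, ρ, r⟩ ⟨b', c', ρ', r'⟩ => ?_) (fun w h => ?_) ?_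
    (mul_ne_zero (by norm_num) (inv_ne_zero (Nat.cast_ne_zero.2 (NeZero.ne _))))
  · rw [← AddChar.map_add_eq_mul]
    congr 1
    simp only [bil, Matrix.add_apply]
    ring
  · have e : bil (i2 j (b', c', ρ', r')) (i2 j (b, c, ρ, r)) =
        ((4 * j : ℕ) : ZMod (40 * j)) * (-(b' * c + c' * b)) +
          ((2 : ℕ) : ZMod (40 * j)) * (-(ρ' * ρ)) + ((2 : ℕ) : ZMod (40 * j)) * (r' * r) := by
      simp only [i2_apply, bil, Matrix.of_apply, Matrix.cons_val', Matrix.cons_val_zero,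
        Matrix.cons_val_one, Matrix.cons_val_fin_one]
      push_cast
      ring
    rw [e, AddChar.map_add_eq_mul, AddChar.map_add_eq_mul,
      psi_cast (n := 10) (by ring) ⟨4 * j, by ring⟩, psi_cast (n := 20 * j) (by ring) ⟨2, by ring⟩,
      psi_cast (n := 20 * j) (by ring) ⟨2, by ring⟩]
    simp only [Matrix.transpose_apply, Matrix.kroneckerMap_apply, q2_apply, S0, s0,
      Matrix.of_apply, Sm_eq, ← sqrt_sq, c10, ck, map_neg, map_add, map_mul, Int.cast_neg,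
      Int.cast_one, neg_neg, one_mul]
    ring
  · have h8 : c10 j ((10 : ℕ) : ZMod (40 * j)) = 0 := by rw [map_natCast, ZMod.natCast_self]
    have hk : ck j ((20 * j : ℕ) : ZMod (40 * j)) = 0 := by rw [map_natCast, ZMod.natCast_self]
    have h1 := h (0, (10 : ℕ), 0, 0) (by rw [q2_apply, h8, map_zero, map_zero]; rfl)
    have h2 := h (0, 0, 0, (20 * j : ℕ)) (by rw [q2_apply, hk, map_zero, map_zero]; rfl)
    simp only [i2_apply, psi_eq_one, bil, Matrix.of_apply, Matrix.cons_val', Matrix.cons_val_zero,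
      Matrix.cons_val_one, Matrix.cons_val_fin_one] at h1 h2
    have : NeZero (4 * j) := ⟨fun e => NeZero.ne (20 * j) (by omega)⟩
    obtain ⟨b, hb⟩ := exists_mul (m := 10) (n := 4 * j) (by ring) (a := w 0 1)
      (by linear_combination -h1)
    obtain ⟨r, hr⟩ := exists_mul (m := 20 * j) (n := 2) (by ring) (a := w 0 0 + w 1 1)
      (by linear_combination h2)
    refine ⟨(b, w 1 0, r - w 0 0, r), ?_⟩
    rw [i2_apply, Matrix.eta_fin_two w, mat_eq]
    exact ⟨by simp, by simpa using hb.symm, by simp, by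
      push_cast at hr
      simp only [Matrix.of_apply, Matrix.cons_val', Matrix.cons_val_zero]
      linear_combination -hr⟩
  · rw [kk_q2, kk_i2]
    push_cast
    field_simp
    norm_num

lemma law2T : Pm (i2 j) (q2 j) * (TX (40 * j))ᵀ =
    (Matrix.diagonal (t0 j) ⊗ₖ Tm (20 * j) (-1))ᵀ * Pm (i2 j) (q2 j) := by
  have hj := j_ne j
  rw [TX, Tm, Matrix.diagonal_kronecker_diagonal, Matrix.diagonal_transpose,
    Matrix.diagonal_transpose]
  refine lawT _ _ fun z => ?_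
  obtain ⟨b, c, ρ, r, rfl⟩ := int4 z
  have e : -(i2 j ((b : ZMod (40 * j)), (c : ZMod (40 * j)), (ρ : ZMod (40 * j)),
      (r : ZMod (40 * j)))).det = ((ρ ^ 2 + 4 * j * b * c - r ^ 2 : ℤ) : ZMod (40 * j)) := by
    rw [i2_apply, Matrix.det_fin_two_of]
    push_cast
    ring
  rw [e, psi_int, q2_int]
  change _ = t0 j _ * tv _ (-1) _
  rw [t0_int, tv_int (even20 j), ← ee_add]
  congr 1
  push_cast
  field_simp
  ring

/-- The embedding. -/
noncomputable def EE : (Cls j → ℂ) →ₗ[ℂ] (ZMod (20 * j) → ℂ) →ₗ[ℂ] MN (40 * j) → ℂ :=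
  LinearMap.mk₂ ℂ (fun v ξ => (kk (i2 j) : ℂ)⁻¹ • ((fun u => v u.1 * ξ u.2) ᵥ* Pm (i2 j) (q2 j)))
    (fun v v' ξ => by
      rw [← smul_add, ← Matrix.add_vecMul]
      congr 2
      funext u
      simp [add_mul])
    (fun c v ξ => by
      have e : (fun u : Cls j × ZMod (20 * j) => (c • v) u.1 * ξ u.2) =
          c • fun u => v u.1 * ξ u.2 := by
        funext u
        simp [mul_assoc]
      rw [e, Matrix.smul_vecMul, smul_comm])
    (fun v ξ ξ' => by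
      rw [← smul_add, ← Matrix.add_vecMul]
      congr 2
      funext u
      simp [mul_add])
    (fun c v ξ => by
      have e : (fun u : Cls j × ZMod (20 * j) => v u.1 * (c • ξ) u.2) =
          c • fun u => v u.1 * ξ u.2 := by
        funext u
        simp [mul_left_comm]
      rw [e, Matrix.smul_vecMul, smul_comm])

lemma EE_apply (v : Cls j → ℂ) (ξ : ZMod (20 * j) → ℂ) : EE j v ξ =
    (kk (i2 j) : ℂ)⁻¹ • ((fun u => v u.1 * ξ u.2) ᵥ* Pm (i2 j) (q2 j)) := rfl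

lemma EE_law {X : Matrix (MN (40 * j)) (MN (40 * j)) ℂ} {Y : Matrix (Cls j) (Cls j) ℂ}
    {W : Matrix (ZMod (20 * j)) (ZMod (20 * j)) ℂ}
    (h : Pm (i2 j) (q2 j) * Xᵀ = (Y ⊗ₖ W)ᵀ * Pm (i2 j) (q2 j)) (v : Cls j → ℂ)
    (ξ : ZMod (20 * j) → ℂ) : X *ᵥ EE j v ξ = EE j (Y *ᵥ v) (W *ᵥ ξ) := by
  rw [EE_apply, EE_apply, Matrix.mulVec_smul, ← Matrix.vecMul_transpose, Matrix.vecMul_vecMul, h,
    ← Matrix.vecMul_vecMul, Matrix.vecMul_transpose]
  congr 2
  funext u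
  simp only [Matrix.mulVec, dotProduct, Matrix.kroneckerMap_apply]
  rw [Fintype.sum_prod_type, Finset.sum_mul_sum]
  exact Finset.sum_congr rfl fun a _ => Finset.sum_congr rfl fun b _ => by ring

end emb

end Emb

theorem emb : EmbStmt := by
  intro j _ _
  refine ⟨Emb.EE j, Emb.S0 j, Matrix.diagonal (Emb.t0 j), fun v ξ b c ρ r => ?_,
    fun v ξ x hx => ?_, Emb.EE_law j (Emb.law2S j), Emb.EE_law j (Emb.law2T j),
    fun v => (Emb.S0_four j v).1, fun v => (Emb.S0_four j v).2, fun v b c ρ => ?_⟩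
  · rw [Emb.EE_apply, ← Emb.i2_int, Pi.smul_apply, Emb.vec_val (Emb.ker2' j), Emb.q2_int,
      smul_eq_mul, inv_mul_cancel_left₀ (Emb.kk_ne _)]
  · rw [Emb.EE_apply, Pi.smul_apply, Emb.vec_Pm, Finset.sum_eq_zero, smul_zero]
    intro z _
    obtain ⟨b, c, ρ, r, rfl⟩ := Emb.int4 z
    exact if_neg fun h => hx b c ρ r (h.symm.trans (Emb.i2_int j b c ρ r))
  · rw [Matrix.mulVec_diagonal, Emb.t0_int]

end Pool.Agent.MP_9207e0_ag.e3
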