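import Pool.Agent.MP_9207e0_ag.e3.SpecB

/-! Invariance of the squares of the eta quotients. -/

set_option linter.unusedSectionVars false
set_option linter.unusedVariables false

namespace Pool.Agent.MP_9207e0_ag.e3

open UpperHalfPlane Complex Filter Asymptotics Matrix Pool.Agent.MP_9207e0_ag.hg
open scoped Real MatrixGroups Manifold Classical Kronecker

namespace Eta2

lemma ee_add (a b : ℂ) : ee (a + b) = ee a * ee b := by
  simp only [ee, mul_add, Complex.exp_add]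

lemma ee_int (n : ℤ) : ee n = 1 := by
  rw [ee, mul_comm]
  exact Complex.exp_int_mul_two_pi_mul_I n

lemma ee_pow (a : ℂ) (n : ℕ) : ee a ^ n = ee (n * a) := by
  rw [ee, ee, ← Complex.exp_nat_mul]
  congr 1
  ring

/-- The exponent of the cube root of unity in terms of the entries. -/
def y3 {R : Type} [CommRing R] (a b c e : R) : R := (a + e) * c - b * e * (c ^ 2 - 1)

/-- The exponent of the fourth root of unity in terms of the entries. -/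
def y4 (a b c e : ℤ) : ℤ := if Odd c then c * (a + e + 1) else a * c + b * e - e + 1

/-- The same modulo four. -/
def z4 (a b c e : ZMod 4) : ZMod 4 :=
  if c = 1 ∨ c = 3 then c * (a + e + 1) else a * c + b * e - e + 1

lemma y3_cast (a b c e : ℤ) : ((y3 a b c e : ℤ) : ZMod 3) = y3 (a : ZMod 3) b c e := by
  simp [y3]

lemma y4_cast (a b c e : ℤ) : ((y4 a b c e : ℤ) : ZMod 4) = z4 a b c e := by
  have h : Odd c ↔ ((c : ZMod 4) = 1 ∨ (c : ZMod 4) = 3) := by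
    have h1 : (c : ZMod 4) = 1 ↔ c % 4 = 1 := by
      have := ZMod.intCast_eq_intCast_iff' c 1 4
      simpa using this
    have h3 : (c : ZMod 4) = 3 ↔ c % 4 = 3 := by
      have := ZMod.intCast_eq_intCast_iff' c 3 4
      simpa using this
    rw [h1, h3, Int.odd_iff]
    omega
  unfold y4 z4
  by_cases hc : Odd c
  · rw [if_pos hc, if_pos (h.mp hc)]
    push_cast
    rfl
  · rw [if_neg hc, if_neg fun h' => hc (h.mpr h')]
    push_cast
    rfl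

/-- The root of unity. -/
noncomputable def ch (u v : ℤ) : ℂ := ee (u / 3) * ee (-(v : ℂ) / 4)

lemma ch_mul (u v u' v' : ℤ) : ch u v * ch u' v' = ch (u + u') (v + v') := by
  simp only [ch, ← ee_add]
  congr 1
  push_cast
  ring

lemma ch_pow (u v : ℤ) (n : ℕ) : ch u v ^ n = ch (n * u) (n * v) := by
  simp only [ch, ← ee_add, ee_pow]
  congr 1
  push_cast
  ring

lemma ch_ne (u v : ℤ) : ch u v ≠ 0 := mul_ne_zero (Complex.exp_ne_zero _) (Complex.exp_ne_zero _)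

lemma ch_eq {u v u' v' : ℤ} (h3 : (u : ZMod 3) = u') (h4 : (v : ZMod 4) = v') :
    ch u v = ch u' v' := by
  obtain ⟨k, hk⟩ := (ZMod.intCast_eq_intCast_iff_dvd_sub u u' 3).mp h3
  obtain ⟨l, hl⟩ := (ZMod.intCast_eq_intCast_iff_dvd_sub v v' 4).mp h4
  have e1 : u' = u + 3 * k := by push_cast at hk; omega
  have e2 : v' = v + 4 * l := by push_cast at hl; omega
  have : ch u' v' = ch u v * ee ((k - l : ℤ) : ℂ) := by
    simp only [ch, ← ee_add, e1, e2]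
    congr 1
    push_cast
    ring
  rw [this, ee_int, mul_one]

lemma ch_twelve (u v : ℤ) : ch u v ^ 12 = 1 := by
  have : ch u v ^ 12 = ee ((4 * u - 3 * v : ℤ) : ℂ) := by
    simp only [ch, ← ee_add, ee_pow]
    congr 1
    push_cast
    ring
  rw [this, ee_int]

lemma conj (d : ℤ) (γ : SL2) (c : ℤ) (hc : (γ : M2) 1 0 = d * c) :
    ∃ γ' : SL2, dg d 1 * (γ : M2) = γ' * dg d 1 ∧
    (γ' : M2) 0 0 = (γ : M2) 0 0 ∧ (γ' : M2) 0 1 = d * (γ : M2) 0 1 ∧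
    (γ' : M2) 1 0 = c ∧ (γ' : M2) 1 1 = (γ : M2) 1 1 := by
  have hd := det_SL γ
  rw [Matrix.det_fin_two, hc] at hd
  refine ⟨⟨!![(γ : M2) 0 0, d * (γ : M2) 0 1; c, (γ : M2) 1 1], by
    rw [Matrix.det_fin_two_of]; linear_combination hd⟩, ?_, rfl, rfl, rfl, rfl⟩
  ext i k
  fin_cases i <;> fin_cases k <;> simp [dg, Matrix.mul_apply, Fin.sum_univ_two, hc, mul_comm]

/-- The law of `η(d τ) ^ 2`. -/
lemma law (h1 : Eta1Stmt) (d : ℕ) (hd : 0 < d) (γ : SL2) (c : ℤ) (hc : (γ : M2) 1 0 = d * c)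
    (τ : ℍ) : ed d (γ • τ) ^ 2 =
      ch (y3 ((γ : M2) 0 0) (d * (γ : M2) 0 1) c ((γ : M2) 1 1))
        (y4 ((γ : M2) 0 0) (d * (γ : M2) 0 1) c ((γ : M2) 1 1)) *
      (((γ : M2) 1 0 : ℂ) * τ + (γ : M2) 1 1) * ed d τ ^ 2 := by
  obtain ⟨g, e0, e1, e2, e3, e4⟩ := conj d γ c hc
  have hp : (0 : ℤ) < d * 1 := by omega
  have hp' : 0 < (dg d 1).det := by rwa [det_dg]
  have e : mob (dg d 1) (γ • τ) = g • mob (dg d 1) τ := by
    rw [← mob_SL, ← mob_SL, ← mob_mul hp' (det_SL_pos γ), e0, mob_mul (det_SL_pos g) hp']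
  rw [ed, ed, e, h1, coe_mob_dg hp, x3, x4, e1, e2, e3, e4, hc]
  simp only [ch, y3, y4]
  push_cast
  ring

lemma dgdg {a b c d e f : ℤ} (h1 : 0 < a * b) (h2 : 0 < c * d) (h3 : 0 < e * f)
    (h : a * c * f = e * (b * d)) (τ : ℍ) : mob (dg a b) (mob (dg c d) τ) = mob (dg e f) τ := by
  apply UpperHalfPlane.ext
  have hb : (b : ℂ) ≠ 0 := by exact_mod_cast right_ne_zero_of_mul h1.ne'
  have hd : (d : ℂ) ≠ 0 := by exact_mod_cast right_ne_zero_of_mul h2.ne'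
  have hf : (f : ℂ) ≠ 0 := by exact_mod_cast right_ne_zero_of_mul h3.ne'
  have h' : (a : ℂ) * c * f = e * (b * d) := by exact_mod_cast h
  rw [coe_mob_dg h1, coe_mob_dg h2, coe_mob_dg h3]
  field_simp
  linear_combination (τ : ℂ) * h'

lemma ed_dg (d m : ℕ) (k : ℤ) (hd : 0 < d) (hk : 0 < k) (h : (m : ℤ) = d * k) (τ : ℍ) :
    ed d (mob (dg k 1) τ) = ed m τ := by
  have h1 : (0 : ℤ) < d := by omega
  exact congrArg et (dgdg (by omega) (by omega) (by rw [h]; positivity) (by rw [h]; ring) τ)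

lemma hol_div {a b : ℍ → ℂ} (ha : Hol a) (hb : Hol b) (h : ∀ τ, b τ ≠ 0) : Hol (a / b) := by
  rw [hol_iff] at ha hb ⊢
  intro τ
  exact (ha τ).div (hb τ) (by simpa using h τ)

lemma det_cast (γ : SL2) (N : ℤ) (c : ℤ) (hc : (γ : M2) 1 0 = N * c) :
    (((γ : M2) 0 0 : ℤ) : ZMod 4) * ((γ : M2) 1 1 : ℤ) - ((γ : M2) 0 1 : ℤ) * ((N : ZMod 4) * c) = 1 := by
  have hd := det_SL γ
  rw [Matrix.det_fin_two, hc] at hd
  exact_mod_cast congrArg (Int.cast : ℤ → ZMod 4) hd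

lemma k3 : ∀ a b c e : ZMod 3, 2 * y3 a (2 * b) (5 * c) e + y3 a (5 * b) (2 * c) e =
    y3 a (1 * b) (10 * c) e + 2 * y3 a (10 * b) c e := by unfold y3; decide

lemma h3 : ∀ a b c e : ZMod 3, y3 a (2 * b) (5 * c) e + 5 * y3 a (5 * b) (2 * c) e =
    y3 a (1 * b) (10 * c) e + 5 * y3 a (10 * b) c e := by unfold y3; decide

lemma l3 : ∀ a b c e : ZMod 3, 3 * y3 a (1 * b) (10 * c) e + y3 a (5 * b) (2 * c) e =
    y3 a (2 * b) (5 * c) e + 3 * y3 a (10 * b) c e := by unfold y3; decide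

lemma s3' : ∀ a b c e : ZMod 3, y3 a (1 * b) (25 * c) e = y3 a (25 * b) c e := by
  unfold y3; decide

lemma t3 : ∀ a b c e : ZMod 3, 3 * y3 a (5 * b) (5 * c) e = 3 * y3 a (25 * b) c e := by
  unfold y3; decide

lemma k4 : ∀ a b c e : ZMod 4, a * e - b * (10 * c) = 1 →
    2 * z4 a (2 * b) (5 * c) e + z4 a (5 * b) (2 * c) e =
    z4 a (1 * b) (10 * c) e + 2 * z4 a (10 * b) c e := by unfold z4; decide

lemma h4 : ∀ a b c e : ZMod 4, a * e - b * (10 * c) = 1 →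
    z4 a (2 * b) (5 * c) e + 5 * z4 a (5 * b) (2 * c) e =
    z4 a (1 * b) (10 * c) e + 5 * z4 a (10 * b) c e := by unfold z4; decide

lemma l4 : ∀ a b c e : ZMod 4, a * e - b * (10 * c) = 1 →
    3 * z4 a (1 * b) (10 * c) e + z4 a (5 * b) (2 * c) e =
    z4 a (2 * b) (5 * c) e + 3 * z4 a (10 * b) c e := by unfold z4; decide

lemma s4 : ∀ a b c e : ZMod 4, z4 a (1 * b) (25 * c) e = z4 a (25 * b) c e := by
  unfold z4; decide

lemma t4 : ∀ a b c e : ZMod 4, 3 * z4 a (5 * b) (5 * c) e = 3 * z4 a (25 * b) c e := by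
  unfold z4; decide

lemma alg_k {u1 u2 u5 u10 v1 v2 v5 v10 c1 c2 c5 c10 J : ℂ} (n1 : u1 ≠ 0) (n10 : u10 ≠ 0)
    (m1 : v1 ≠ 0) (m10 : v10 ≠ 0) (A1 : u1 ^ 2 = c1 * J * v1 ^ 2) (A2 : u2 ^ 2 = c2 * J * v2 ^ 2)
    (A5 : u5 ^ 2 = c5 * J * v5 ^ 2) (A10 : u10 ^ 2 = c10 * J * v10 ^ 2)
    (E : c2 ^ 2 * c5 = c1 * c10 ^ 2) :
    u2 ^ 4 * u5 ^ 2 / (u1 ^ 2 * u10 ^ 4) = v2 ^ 4 * v5 ^ 2 / (v1 ^ 2 * v10 ^ 4) := by
  rw [div_eq_div_iff (mul_ne_zero (pow_ne_zero 2 n1) (pow_ne_zero 4 n10))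
    (mul_ne_zero (pow_ne_zero 2 m1) (pow_ne_zero 4 m10)), show u2 ^ 4 = (u2 ^ 2) ^ 2 by ring,
    show u10 ^ 4 = (u10 ^ 2) ^ 2 by ring, A1, A2, A5, A10]
  linear_combination (J ^ 3 * v2 ^ 4 * v5 ^ 2 * v1 ^ 2 * v10 ^ 4) * E

lemma alg_h {u1 u2 u5 u10 v1 v2 v5 v10 c1 c2 c5 c10 J : ℂ} (n1 : u1 ≠ 0) (n10 : u10 ≠ 0)
    (m1 : v1 ≠ 0) (m10 : v10 ≠ 0) (A1 : u1 ^ 2 = c1 * J * v1 ^ 2) (A2 : u2 ^ 2 = c2 * J * v2 ^ 2)
    (A5 : u5 ^ 2 = c5 * J * v5 ^ 2) (A10 : u10 ^ 2 = c10 * J * v10 ^ 2)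
    (E : c2 * c5 ^ 5 = c1 * c10 ^ 5) :
    (u2 * u5 ^ 5 / (u1 * u10 ^ 5)) ^ 2 = (v2 * v5 ^ 5 / (v1 * v10 ^ 5)) ^ 2 := by
  rw [div_pow, div_pow, div_eq_div_iff (pow_ne_zero 2 (mul_ne_zero n1 (pow_ne_zero 5 n10)))
    (pow_ne_zero 2 (mul_ne_zero m1 (pow_ne_zero 5 m10))),
    show (u2 * u5 ^ 5) ^ 2 = u2 ^ 2 * (u5 ^ 2) ^ 5 by ring,
    show (u1 * u10 ^ 5) ^ 2 = u1 ^ 2 * (u10 ^ 2) ^ 5 by ring, A1, A2, A5, A10]
  linear_combination (J ^ 6 * v2 ^ 2 * v5 ^ 10 * v1 ^ 2 * v10 ^ 10) * E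

lemma alg_l {u1 u2 u5 u10 v1 v2 v5 v10 c1 c2 c5 c10 J : ℂ} (n2 : u2 ≠ 0) (n10 : u10 ≠ 0)
    (m2 : v2 ≠ 0) (m10 : v10 ≠ 0) (A1 : u1 ^ 2 = c1 * J * v1 ^ 2) (A2 : u2 ^ 2 = c2 * J * v2 ^ 2)
    (A5 : u5 ^ 2 = c5 * J * v5 ^ 2) (A10 : u10 ^ 2 = c10 * J * v10 ^ 2)
    (E : c1 ^ 3 * c5 = c2 * c10 ^ 3) :
    (u1 ^ 3 * u5 / (u2 * u10 ^ 3)) ^ 2 = (v1 ^ 3 * v5 / (v2 * v10 ^ 3)) ^ 2 := by
  rw [div_pow, div_pow, div_eq_div_iff (pow_ne_zero 2 (mul_ne_zero n2 (pow_ne_zero 3 n10)))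
    (pow_ne_zero 2 (mul_ne_zero m2 (pow_ne_zero 3 m10))),
    show (u1 ^ 3 * u5) ^ 2 = (u1 ^ 2) ^ 3 * u5 ^ 2 by ring,
    show (u2 * u10 ^ 3) ^ 2 = u2 ^ 2 * (u10 ^ 2) ^ 3 by ring, A1, A2, A5, A10]
  linear_combination (J ^ 4 * v1 ^ 6 * v5 ^ 2 * v2 ^ 2 * v10 ^ 6) * E

lemma alg_q {u u' v v' c c' J : ℂ} (n : ℕ) (n1 : u' ≠ 0) (m1 : v' ≠ 0)
    (A : u ^ 2 = c * J * v ^ 2) (A' : u' ^ 2 = c' * J * v' ^ 2) (E : c ^ n = c' ^ n) :
    (u / u') ^ (2 * n) = (v / v') ^ (2 * n) := by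
  rw [div_pow, div_pow, div_eq_div_iff (pow_ne_zero _ n1) (pow_ne_zero _ m1), pow_mul, pow_mul,
    pow_mul, pow_mul, A, A']
  simp only [mul_pow, E]
  ring

end Eta2

open Eta2 in
theorem eta2 (hB : QB) (h1 : Eta1Stmt) : ETA2 := by
  have hol : ∀ d : ℕ, 0 < d → Hol (ed d) := fun d hd =>
    hB.et_hol.comp_mob (by rw [det_dg]; omega)
  have ne : ∀ (d : ℕ) τ, ed d τ ≠ 0 := fun d τ => hB.et_ne _
  have a1 := hol 1 (by norm_num)
  have a2 := hol 2 (by norm_num)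
  have a5 := hol 5 (by norm_num)
  have a10 := hol 10 (by norm_num)
  have a25 := hol 25 (by norm_num)
  refine ⟨hol, ne, ⟨?_, ?_, ?_, ?_, ?_, ?_⟩, fun τ => ?_, fun d γ ⟨c, hc⟩ => ?_,
    fun γ ⟨c, hc⟩ τ => ?_, fun γ ⟨c, hc⟩ τ => ?_, fun γ ⟨c, hc⟩ τ => ?_, fun γ ⟨c, hc⟩ τ => ?_,
    fun γ ⟨c, hc⟩ τ => ?_, fun γ ⟨c, hc⟩ τ => ?_, fun γ τ => ?_, fun τ => ?_, fun τ => ?_⟩
  · exact hol_div (a2.mul (a5.pow 5)) (a1.mul (a10.pow 5)) fun τ =>
      mul_ne_zero (ne 1 τ) (pow_ne_zero 5 (ne 10 τ))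
  · exact hol_div ((a2.pow 4).mul (a5.pow 2)) ((a1.pow 2).mul (a10.pow 4)) fun τ =>
      mul_ne_zero (pow_ne_zero 2 (ne 1 τ)) (pow_ne_zero 4 (ne 10 τ))
  · exact hol_div ((a1.pow 3).mul a5) (a2.mul (a10.pow 3)) fun τ =>
      mul_ne_zero (ne 2 τ) (pow_ne_zero 3 (ne 10 τ))
  · exact hol_div a1 a25 (ne 25)
  · exact (hol_div a5 a25 (ne 25)).pow 6
  · exact (hol_div a1 a2 (ne 2)).pow 24
  · have n1 := ne 1 τ
    have n2 := ne 2 τ
    have n5 := ne 5 τ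
    have n10 := ne 10 τ
    have n25 := ne 25 τ
    exact ⟨div_ne_zero (mul_ne_zero n2 (pow_ne_zero 5 n5)) (mul_ne_zero n1 (pow_ne_zero 5 n10)),
      div_ne_zero (mul_ne_zero (pow_ne_zero 4 n2) (pow_ne_zero 2 n5))
        (mul_ne_zero (pow_ne_zero 2 n1) (pow_ne_zero 4 n10)),
      div_ne_zero (mul_ne_zero (pow_ne_zero 3 n1) n5) (mul_ne_zero n2 (pow_ne_zero 3 n10)),
      div_ne_zero n1 n25, pow_ne_zero 6 (div_ne_zero n5 n25), pow_ne_zero 24 (div_ne_zero n1 n2)⟩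
  · obtain ⟨g, e0, e1, e2, e3, e4⟩ := conj d γ c hc
    exact ⟨g, e0, e1, e2, by rw [e3, hc], e4⟩
  · refine alg_k (ne _ _) (ne _ _) (ne _ _) (ne _ _)
      (law h1 1 (by norm_num) γ (10 * c) (by rw [hc]; push_cast; ring) τ)
      (law h1 2 (by norm_num) γ (5 * c) (by rw [hc]; push_cast; ring) τ)
      (law h1 5 (by norm_num) γ (2 * c) (by rw [hc]; push_cast; ring) τ)
      (law h1 10 (by norm_num) γ (c) (by rw [hc]; push_cast; ring) τ) ?_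
    simp only [ch_pow, ch_mul]
    refine ch_eq ?_ ?_
    · push_cast [y3_cast]
      exact k3 _ _ _ _
    · push_cast [y4_cast]
      exact k4 _ _ _ _ (by exact_mod_cast det_cast γ 10 c hc)
  · refine alg_h (ne _ _) (ne _ _) (ne _ _) (ne _ _)
      (law h1 1 (by norm_num) γ (10 * c) (by rw [hc]; push_cast; ring) τ)
      (law h1 2 (by norm_num) γ (5 * c) (by rw [hc]; push_cast; ring) τ)
      (law h1 5 (by norm_num) γ (2 * c) (by rw [hc]; push_cast; ring) τ)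
      (law h1 10 (by norm_num) γ (c) (by rw [hc]; push_cast; ring) τ) ?_
    simp only [ch_pow, ch_mul]
    refine ch_eq ?_ ?_
    · push_cast [y3_cast]
      exact h3 _ _ _ _
    · push_cast [y4_cast]
      exact h4 _ _ _ _ (by exact_mod_cast det_cast γ 10 c hc)
  · refine alg_l (ne _ _) (ne _ _) (ne _ _) (ne _ _)
      (law h1 1 (by norm_num) γ (10 * c) (by rw [hc]; push_cast; ring) τ)
      (law h1 2 (by norm_num) γ (5 * c) (by rw [hc]; push_cast; ring) τ)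
      (law h1 5 (by norm_num) γ (2 * c) (by rw [hc]; push_cast; ring) τ)
      (law h1 10 (by norm_num) γ (c) (by rw [hc]; push_cast; ring) τ) ?_
    simp only [ch_pow, ch_mul]
    refine ch_eq ?_ ?_
    · push_cast [y3_cast]
      exact l3 _ _ _ _
    · push_cast [y4_cast]
      exact l4 _ _ _ _ (by exact_mod_cast det_cast γ 10 c hc)
  · refine alg_q 1 (ne _ _) (ne _ _) (law h1 1 (by norm_num) γ (25 * c) (by rw [hc]; push_cast; ring) τ)
      (law h1 25 (by norm_num) γ (c) (by rw [hc]; push_cast; ring) τ) ?_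
    rw [pow_one, pow_one]
    refine ch_eq ?_ ?_
    · push_cast [y3_cast]
      exact s3' _ _ _ _
    · push_cast [y4_cast]
      exact s4 _ _ _ _
  · refine alg_q 3 (ne _ _) (ne _ _) (law h1 5 (by norm_num) γ (5 * c) (by rw [hc]; push_cast; ring) τ)
      (law h1 25 (by norm_num) γ (c) (by rw [hc]; push_cast; ring) τ) ?_
    simp only [ch_pow]
    refine ch_eq ?_ ?_
    · push_cast [y3_cast]
      exact t3 _ _ _ _
    · push_cast [y4_cast]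
      exact t4 _ _ _ _
  · refine alg_q 12 (ne _ _) (ne _ _) (law h1 1 (by norm_num) γ (2 * c) (by rw [hc]; push_cast; ring) τ)
      (law h1 2 (by norm_num) γ (c) (by rw [hc]; push_cast; ring) τ) ?_
    rw [ch_twelve, ch_twelve]
  · have := h1 γ τ
    have e := ch_twelve (x3 γ) (x4 γ)
    rw [show et (γ • τ) ^ 24 = (et (γ • τ) ^ 2) ^ 12 by ring, this, mul_pow, mul_pow]
    rw [ch] at e
    rw [e]
    ring
  · have n10 := ne 10 τ
    have n5 := ne 5 τ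
    have n50 := ne 50 τ
    have n100 := ne 100 τ
    rw [Y1, dgdg (e := 5) (f := 1) (by norm_num) (by norm_num) (by norm_num) (by norm_num), hh, hh,
      ed_dg 2 10 5 (by norm_num) (by norm_num) (by norm_num),
      ed_dg 5 25 5 (by norm_num) (by norm_num) (by norm_num),
      ed_dg 1 5 5 (by norm_num) (by norm_num) (by norm_num),
      ed_dg 10 50 5 (by norm_num) (by norm_num) (by norm_num),
      ed_dg 2 20 10 (by norm_num) (by norm_num) (by norm_num),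
      ed_dg 5 50 10 (by norm_num) (by norm_num) (by norm_num),
      ed_dg 1 10 10 (by norm_num) (by norm_num) (by norm_num),
      ed_dg 10 100 10 (by norm_num) (by norm_num) (by norm_num)]
    field_simp
  · have n50 := ne 50 τ
    have n100 := ne 100 τ
    rw [Y2, s0, s1, dgdg (e := 2) (f := 1) (by norm_num) (by norm_num) (by norm_num) (by norm_num),
      dgdg (e := 4) (f := 1) (by norm_num) (by norm_num) (by norm_num) (by norm_num), ss, ss,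
      ed_dg 1 2 2 (by norm_num) (by norm_num) (by norm_num),
      ed_dg 25 50 2 (by norm_num) (by norm_num) (by norm_num),
      ed_dg 1 4 4 (by norm_num) (by norm_num) (by norm_num),
      ed_dg 25 100 4 (by norm_num) (by norm_num) (by norm_num)]
    field_simp

end Pool.Agent.MP_9207e0_ag.e3
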