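import Pool.Agent.MP_9207e0_ag.e3.SpecA

/-! Module FS: elementary facts on forms and pairs of level ten. -/

set_option linter.unusedSectionVars false
set_option linter.unusedVariables false

namespace Pool.Agent.MP_9207e0_ag.e3

open UpperHalfPlane Complex Filter Asymptotics Matrix Pool.Agent.MP_9207e0_ag.hg
open scoped Real MatrixGroups Manifold Classical Kronecker

namespace Fs


/-- An element of the modular group with given entries. -/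
def sl (a b c d : ℤ) (h : a * d - b * c = 1) : SL2 :=
  ⟨!![a, b; c, d], by rw [Matrix.det_fin_two_of]; exact h⟩

lemma coe_sl (a b c d : ℤ) (h : a * d - b * c = 1) : (sl a b c d h : M2) = !![a, b; c, d] := rfl

lemma ext2 {A B : M2} (h0 : A 0 0 = B 0 0) (h1 : A 0 1 = B 0 1) (h2 : A 1 0 = B 1 0)
    (h3 : A 1 1 = B 1 1) : A = B := by
  rw [Matrix.eta_fin_two A, Matrix.eta_fin_two B, h0, h1, h2, h3]

lemma exists_coprime {N a b c d : ℤ} {j : ℕ} (hj : 0 < j) (hd : a * d - b * c = j)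
    (hp : ∀ p : ℤ, p ∣ a → p ∣ b → p ∣ c → p ∣ d → IsUnit p) (hN : IsCoprime N d) :
    ∃ t, IsCoprime (b + N * t * a) (d + N * t * c) := by
  obtain ⟨t, ht⟩ : ∃ t, ∏ p ∈ j.primeFactors.filter fun p : ℕ => ¬((p : ℤ) ∣ b ∧ (p : ℤ) ∣ d),
    ((p : ℕ) : ℤ) = t := ⟨_, rfl⟩
  refine ⟨t, ?_⟩
  refine Int.isCoprime_iff_nat_coprime.2 (Nat.coprime_of_dvd fun p pp h1 h2 => ?_)
  rw [← Int.natCast_dvd] at h1 h2
  have pz : Prime (p : ℤ) := Nat.prime_iff_prime_int.1 pp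
  by_cases h : (p : ℤ) ∣ b ∧ (p : ℤ) ∣ d
  · have n1 : ¬ (p : ℤ) ∣ N := fun e => pz.not_isUnit (hN.isUnit_of_dvd' e h.2)
    have n2 : ¬ (p : ℤ) ∣ t := fun e => by
      rw [← ht] at e
      obtain ⟨q, hq, e⟩ := (pz.dvd_finsetProd_iff _).1 e
      obtain ⟨hq1, hq2⟩ := Finset.mem_filter.1 hq
      obtain rfl := (Nat.prime_dvd_prime_iff_eq pp (Nat.prime_of_mem_primeFactors hq1)).1
        (Int.natCast_dvd_natCast.1 e)
      exact hq2 h
    have n3 : ¬ (p : ℤ) ∣ N * t := fun e => (pz.dvd_or_dvd e).elim n1 n2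
    exact pz.not_isUnit (hp p ((pz.dvd_or_dvd ((dvd_add_right h.1).1 h1)).resolve_left n3) h.1
      ((pz.dvd_or_dvd ((dvd_add_right h.2).1 h2)).resolve_left n3) h.2)
  · have hpj : (p : ℤ) ∣ j := by
      have e : (j : ℤ) = a * (d + N * t * c) - (b + N * t * a) * c := by linear_combination -hd
      rw [e]
      exact (h2.mul_left _).sub (h1.mul_right _)
    have hpt : (p : ℤ) ∣ t := ht ▸ Finset.dvd_prod_of_mem (fun p : ℕ => (p : ℤ))
      (Finset.mem_filter.2 ⟨Nat.mem_primeFactors.2 ⟨pp, Int.natCast_dvd_natCast.1 hpj, hj.ne'⟩, h⟩)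
    exact h ⟨(dvd_add_left ((hpt.mul_left N).mul_right a)).1 h1,
      (dvd_add_left ((hpt.mul_left N).mul_right c)).1 h2⟩

lemma sl_mem {N : ℕ} {a b c d : ℤ} (h : a * d - b * c = 1) (hb : (N : ℤ) ∣ b) (hc : (N : ℤ) ∣ c)
    (hd : (N : ℤ) ∣ d - 1) : sl a b c d h ∈ Gam N := by
  have e1 := (ZMod.intCast_zmod_eq_zero_iff_dvd _ _).2 hb
  have e2 := (ZMod.intCast_zmod_eq_zero_iff_dvd _ _).2 hc
  have e3 := (ZMod.intCast_zmod_eq_zero_iff_dvd _ _).2 hd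
  have e4 := congrArg (Int.cast : ℤ → ZMod N) h
  push_cast at e3 e4
  have e5 : (d : ZMod N) = 1 := sub_eq_zero.1 e3
  rw [e1, e5, mul_one, zero_mul, sub_zero] at e4
  exact CongruenceSubgroup.Gamma_mem.2 ⟨e4, e1, e2, e5⟩

lemma orbit (N j : ℕ) (α : M2) (hj : 0 < j) (hd : α.det = j) (hp : Prim α)
    (hr : red N α = red N (dg j 1)) : ∃ g1 ∈ Gam N, ∃ g2 ∈ Gam N, α * g1 = g2 * dg j 1 := by
  have r1 : (N : ℤ) ∣ α 0 1 := (ZMod.intCast_zmod_eq_zero_iff_dvd _ _).1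
    ((congrFun (congrFun hr 0) 1).trans Int.cast_zero)
  have r2 : (N : ℤ) ∣ α 1 0 := (ZMod.intCast_zmod_eq_zero_iff_dvd _ _).1
    ((congrFun (congrFun hr 1) 0).trans Int.cast_zero)
  have r3 : (N : ℤ) ∣ α 1 1 - 1 := (ZMod.intCast_zmod_eq_zero_iff_dvd _ _).1 (by
    rw [Int.cast_sub]
    exact sub_eq_zero.2 (congrFun (congrFun hr 1) 1))
  rw [Matrix.det_fin_two] at hd
  have hp' : ∀ p : ℤ, p ∣ α 0 0 → p ∣ α 0 1 → p ∣ α 1 0 → p ∣ α 1 1 → IsUnit p :=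
    fun p h0 h1 h2 h3 => hp p fun i k => by fin_cases i <;> fin_cases k <;> assumption
  rw [Matrix.eta_fin_two α]
  generalize α 0 0 = a at *
  generalize α 0 1 = b at *
  generalize α 1 0 = c at *
  generalize α 1 1 = d at *
  obtain ⟨w, hw⟩ := id r3
  obtain ⟨t, ht⟩ := exists_coprime (N := N) hj hd hp' ⟨-w, 1, by linear_combination hw⟩
  have hN : IsCoprime (N : ℤ) (d + N * t * c) := ⟨-w - t * c, 1, by linear_combination hw⟩
  obtain ⟨x, y, hxy⟩ := hN.mul_left ht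
  have n1 : (N : ℤ) ∣ N * t := dvd_mul_right _ _
  have n2 : (N : ℤ) ∣ N * x := dvd_mul_right _ _
  refine ⟨sl (1 - N * t * (y * c + N * x * a)) (N * t) (-(y * c + N * x * a)) 1 (by ring),
    sl_mem _ n1 ((r2.mul_left y).add (n2.mul_right a)).neg_right (by simp),
    sl y (b + N * t * a) (-(N * x)) (d + N * t * c) (by linear_combination hxy),
    sl_mem _ (r1.add (n1.mul_right a)) n2.neg_right
      (by rw [add_sub_right_comm]; exact r3.add (n1.mul_right c)), ?_⟩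
  rw [coe_sl, coe_sl, dg, Matrix.mul_fin_two, Matrix.mul_fin_two]
  refine ext2 ?_ ?_ ?_ ?_
  · change a * (1 - N * t * (y * c + N * x * a)) + b * -(y * c + N * x * a) =
      y * j + (b + N * t * a) * 0
    linear_combination y * hd - a * hxy
  · change a * (N * t) + b * 1 = y * 0 + (b + N * t * a) * 1
    ring
  · change c * (1 - N * t * (y * c + N * x * a)) + d * -(y * c + N * x * a) =
      -(N * x) * j + (d + N * t * c) * 0
    linear_combination (-(N * x)) * hd - c * hxy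
  · change c * (N * t) + d * 1 = -(N * x) * 0 + (d + N * t * c) * 1
    ring

/-! ### Congruence subgroups and the action on pairs -/

theorem cmul (g h : SL2) : ((g * h : SL2) : M2) = (g : M2) * h := rfl

theorem cone : ((1 : SL2) : M2) = 1 := rfl

theorem det2 (g : SL2) : (g : M2) 0 0 * (g : M2) 1 1 - (g : M2) 0 1 * (g : M2) 1 0 = 1 := by
  rw [← Matrix.det_fin_two, det_SL]

theorem cast_one_iff (N : ℕ) (a : ℤ) : (a : ZMod N) = 1 ↔ (N : ℤ) ∣ a - 1 := by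
  rw [← ZMod.intCast_zmod_eq_zero_iff_dvd, Int.cast_sub, Int.cast_one, sub_eq_zero]

theorem gam_iff {N : ℕ} {g : SL2} : g ∈ Gam N ↔ (N : ℤ) ∣ (g : M2) 0 0 - 1 ∧
    (N : ℤ) ∣ (g : M2) 0 1 ∧ (N : ℤ) ∣ (g : M2) 1 0 ∧ (N : ℤ) ∣ (g : M2) 1 1 - 1 := by
  rw [CongruenceSubgroup.Gamma_mem, cast_one_iff, cast_one_iff,
    ZMod.intCast_zmod_eq_zero_iff_dvd, ZMod.intCast_zmod_eq_zero_iff_dvd]

theorem gj_iff {j : ℕ} {g : SL2} : g ∈ Gj j ↔ g ∈ Gam 10 ∧ (10 * j : ℤ) ∣ (g : M2) 1 0 := by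
  rw [Gj, Subgroup.mem_inf, CongruenceSubgroup.Gamma0_mem, ZMod.intCast_zmod_eq_zero_iff_dvd]
  push_cast
  rfl

theorem gam_le (j : ℕ) : Gam (10 * j) ≤ Gj j := fun g hg => by
  obtain ⟨h1, h2, h3, h4⟩ := gam_iff.1 hg
  push_cast at h1 h2 h3 h4
  exact gj_iff.2 ⟨gam_iff.2 ⟨dvd_of_mul_right_dvd h1, dvd_of_mul_right_dvd h2,
    dvd_of_mul_right_dvd h3, dvd_of_mul_right_dvd h4⟩, h3⟩

/-- The Moebius relation in linear form. -/
def Lin (A : M2) (τ σ : ℍ) : Prop := (A 0 0 : ℂ) * τ + A 0 1 = σ * ((A 1 0 : ℂ) * τ + A 1 1)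

theorem Lin.mul {A B : M2} {ρ τ σ : ℍ} (h1 : Lin A τ σ) (h2 : Lin B ρ τ) : Lin (A * B) ρ σ := by
  unfold Lin at *
  simp only [Matrix.mul_apply, Fin.sum_univ_two]
  push_cast
  linear_combination ((A 0 0 : ℂ) - σ * A 1 0) * h2 + ((B 1 0 : ℂ) * ρ + B 1 1) * h1

theorem Lin.adj {A : M2} {τ σ : ℍ} (h : Lin A τ σ) : Lin A.adjugate σ τ := by
  unfold Lin at *
  simp only [Matrix.adjugate_fin_two, of_apply, cons_val', cons_val_zero, cons_val_one,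
    cons_val_fin_one]
  push_cast
  linear_combination -h

theorem lin_SL (g : SL2) (τ : ℍ) : Lin (g : M2) τ (g • τ) :=
  (mob_eq_iff (det_SL_pos g) _ _).1 (mob_SL g τ)

theorem lin_ymat (j : ℕ) (b c ρ : ℤ) (τ : ℍ) :
    Lin (ymat j b c ρ) τ τ ↔ ((j : ℂ) * c) * (τ : ℂ) ^ 2 + ρ * τ - b = 0 := by
  unfold Lin ymat
  simp only [of_apply, cons_val', cons_val_zero, cons_val_one, cons_val_fin_one]
  push_cast
  constructor
  · intro h
    linear_combination (-1 / 2 : ℂ) * h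
  · intro h
    linear_combination (-2 : ℂ) * h

theorem cact_one (p : M2 × ℍ) : cact 1 p = p := by
  simp only [cact, inv_one, cone, mul_one, one_mul, one_smul]

theorem cact_mul (g g' : SL2) (p : M2 × ℍ) : cact (g * g') p = cact g (cact g' p) := by
  simp only [cact, _root_.mul_inv_rev, cmul, mul_assoc, mul_smul]

theorem equiv_act {H X : Type} [Group H] (act : H → X → X) (L : Subgroup H)
    (h1 : ∀ x, act 1 x = x) (h2 : ∀ g g' x, act (g * g') x = act g (act g' x)) :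
    Equivalence fun x y => ∃ g ∈ L, act g x = y := by
  refine ⟨fun x => ⟨1, L.one_mem, h1 x⟩, ?_, ?_⟩
  · rintro x y ⟨g, hg, rfl⟩
    exact ⟨g⁻¹, L.inv_mem hg, by rw [← h2, inv_mul_cancel, h1]⟩
  · rintro x y z ⟨g, hg, rfl⟩ ⟨g', hg', rfl⟩
    exact ⟨g' * g, L.mul_mem hg' hg, h2 _ _ _⟩

theorem relC_equiv (L : Subgroup SL2) : Equivalence (relC L) := equiv_act cact L cact_one cact_mul

theorem relG_equiv (N : ℕ) : Equivalence (relG N) :=
  equiv_act (fun (g : SL2) (τ : ℍ) => g • τ) (Gam N) (one_smul _) mul_smul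

/-- The action of pairs of unimodular matrices. -/
noncomputable def mv (h1 h2 : SL2) (p : M2 × M2 × ℍ) : M2 × M2 × ℍ :=
  ((h2 : M2) * p.1 * ((h1⁻¹ : SL2) : M2), (h2 : M2) * p.2.1 * ((h1⁻¹ : SL2) : M2), h1 • p.2.2)

theorem mv_mul (h1 h2 g1 g2 : SL2) (p : M2 × M2 × ℍ) :
    mv h1 h2 (mv g1 g2 p) = mv (h1 * g1) (h2 * g2) p := by
  simp only [mv, _root_.mul_inv_rev, cmul, mul_assoc, mul_smul]

theorem mv_one (p : M2 × M2 × ℍ) : mv 1 1 p = p := by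
  simp only [mv, inv_one, cone, mul_one, one_mul, one_smul]

theorem mul_eq_iff (x y : M2) (g : SL2) : x * (g : M2) = y ↔ x = y * ((g⁻¹ : SL2) : M2) := by
  constructor
  · rintro rfl
    rw [mul_assoc, ← cmul, mul_inv_cancel, cone, mul_one]
  · rintro rfl
    rw [mul_assoc, ← cmul, inv_mul_cancel, cone, mul_one]

theorem relZ_iff {p q : M2 × M2 × ℍ} :
    relZ p q ↔ ∃ g1 ∈ Gam 10, ∃ g2 ∈ Gam 10, q = mv g1 g2 p := by
  simp only [relZ, mul_eq_iff, mv, Prod.ext_iff]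

theorem relZ_equiv : Equivalence relZ := by
  refine ⟨fun p => relZ_iff.2 ⟨1, one_mem _, 1, one_mem _, (mv_one p).symm⟩, fun h => ?_,
    fun h h' => ?_⟩
  · obtain ⟨g1, m1, g2, m2, rfl⟩ := relZ_iff.1 h
    exact relZ_iff.2 ⟨g1⁻¹, inv_mem m1, g2⁻¹, inv_mem m2, by
      rw [mv_mul, inv_mul_cancel, inv_mul_cancel, mv_one]⟩
  · obtain ⟨g1, m1, g2, m2, rfl⟩ := relZ_iff.1 h
    obtain ⟨k1, n1, k2, n2, rfl⟩ := relZ_iff.1 h'
    exact relZ_iff.2 ⟨_, mul_mem n1 m1, _, mul_mem n2 m2, mv_mul _ _ _ _ _⟩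

theorem det_mv (h1 h2 : SL2) (x : M2) : ((h2 : M2) * x * (h1 : M2)).det = x.det := by
  rw [det_mul, det_mul, det_SL, det_SL, one_mul, mul_one]

theorem mob_mv (h1 h2 : SL2) {x : M2} (hx : 0 < x.det) (τ : ℍ) :
    mob ((h2 : M2) * x * ((h1⁻¹ : SL2) : M2)) (h1 • τ) = h2 • mob x τ := by
  rw [mob_mul (by rwa [det_mul, det_SL, one_mul]) (det_SL_pos _), mob_SL, inv_smul_smul,
    mob_mul (det_SL_pos _) hx, mob_SL]

theorem red_mul (x y : M2) : red 10 (x * y) = red 10 x * red 10 y :=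
  Matrix.map_mul (f := Int.castRingHom (ZMod 10))

theorem red_gam {g : SL2} (h : g ∈ Gam 10) : red 10 (g : M2) = 1 := by
  obtain ⟨h1, h2, h3, h4⟩ := CongruenceSubgroup.Gamma_mem.1 h
  ext i k
  fin_cases i <;> fin_cases k <;> simpa [red]

theorem mv_zset {n r j : ℤ} {a b : MN 10} (hj : 0 < j) (hn : 0 < n) {h1 h2 : SL2}
    (m1 : h1 ∈ Gam 10) (m2 : h2 ∈ Gam 10) {p : M2 × M2 × ℍ} (hp : p ∈ ZSet n r j a b) :
    mv h1 h2 p ∈ ZSet n r j a b := by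
  obtain ⟨e1, e2, e3, e4, e5, e6⟩ := hp
  refine ⟨(det_mv _ _ _).trans e1, (det_mv _ _ _).trans e2, ?_, ?_, ?_, ?_⟩
  · simp only [mv, adjugate_mul_distrib]
    rw [mul_assoc, trace_mul_comm, mul_assoc, mul_assoc, mul_assoc, mul_assoc, mul_adjugate,
      det_SL, one_smul, mul_one, ← mul_assoc (adjugate (h2 : M2)), adjugate_mul, det_SL, one_smul,
      one_mul, e3]
  · simp only [mv, red_mul, e4, red_gam m2, red_gam (inv_mem m1), one_mul, mul_one]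
  · simp only [mv, red_mul, e5, red_gam m2, red_gam (inv_mem m1), one_mul, mul_one]
  · simp only [mv]
    rw [mob_mv _ _ (e1 ▸ hj), mob_mv _ _ (e2 ▸ hn), e6]

theorem cm_of_lin (hO : ORB) {D : ℤ} (hD : D < 0) : ∃ T : Finset ℍ, ∀ (W : M2) (τ : ℍ),
    W.trace ^ 2 - 4 * W.det = D → Lin W τ τ → ∃ g ∈ Gam 10, g • τ ∈ T := by
  obtain ⟨T, hT⟩ := hO.fin_cm 10 D (by norm_num) hD
  refine ⟨T, fun W τ h1 h2 => hT τ (W 1 0) (W 1 1 - W 0 0) (-W 0 1) ?_ ?_⟩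
  · rw [trace_fin_two, det_fin_two] at h1
    linear_combination h1
  · unfold Lin at h2
    push_cast
    linear_combination -h2

theorem zset_fin (hS : OS) (hO : ORB) (n r j : ℤ) (a b : MN 10) (hj : 0 < j) (h : r ^ 2 < 4 * n * j) :
    ∃ R, IsRep relZ (ZSet n r j a b) R := by
  have hn : 0 < n := by nlinarith [sq_nonneg r]
  obtain ⟨T, hT⟩ := cm_of_lin hO (sub_neg.2 h)
  let A : ℤ → ℍ → ℍ → Set M2 := fun k τ σ => {α | α.det = k ∧ mob α τ = σ}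
  have hf : (⋃ τ ∈ (T : Set ℍ), ⋃ σ ∈ (T : Set ℍ), A j τ σ ×ˢ A n τ σ ×ˢ ({τ} : Set ℍ)).Finite :=
    T.finite_toSet.biUnion fun τ _ => T.finite_toSet.biUnion fun σ _ =>
      (hO.fin_hom j τ σ hj).prod ((hO.fin_hom n τ σ hn).prod (Set.finite_singleton τ))
  refine hS.exists_rep relZ_equiv hf fun p hp => ?_
  obtain ⟨e1, e2, e3, -, -, e6⟩ := id hp
  have p1 : 0 < p.1.det := by rwa [e1]
  have p2 : 0 < p.2.1.det := by rwa [e2]
  have l1 : Lin p.1 p.2.2 (mob p.1 p.2.2) := (mob_eq_iff p1 _ _).1 rfl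
  have l2 : Lin p.2.1 p.2.2 (mob p.1 p.2.2) := (mob_eq_iff p2 _ _).1 e6.symm
  have d : p.1.adjugate.det = j := by
    rw [Matrix.det_adjugate, e1]
    simp
  obtain ⟨g1, m1, t1⟩ := hT (p.1.adjugate * p.2.1) _ (by rw [e3, det_mul, d, e2]; ring)
    (l1.adj.mul l2)
  obtain ⟨g2, m2, t2⟩ := hT (p.2.1 * p.1.adjugate) _
    (by rw [trace_mul_comm, e3, det_mul, d, e2]; ring) (l2.mul l1.adj)
  have hq := mv_zset hj hn m1 m2 hp
  have q1 : (mv g1 g2 p).1 ∈ A j (g1 • p.2.2) (g2 • mob p.1 p.2.2) := ⟨hq.1, mob_mv _ _ p1 _⟩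
  have q2 : (mv g1 g2 p).2.1 ∈ A n (g1 • p.2.2) (g2 • mob p.1 p.2.2) :=
    ⟨hq.2.1, (mob_mv _ _ p2 _).trans (by rw [e6])⟩
  exact ⟨mv g1 g2 p, Set.mem_iUnion₂.2 ⟨_, t1, Set.mem_iUnion₂.2 ⟨_, t2, q1, q2, rfl⟩⟩, hq,
    relZ_iff.2 ⟨g1, m1, g2, m2, rfl⟩⟩

/-! ### Forms -/

theorem cls_eq {j : ℕ} {b c ρ b' c' ρ' : ℤ} (h1 : 10 ∣ b - b') (h2 : 10 ∣ c - c')
    (h3 : (20 * j : ℤ) ∣ ρ - ρ') : cls j b' c' ρ' = cls j b c ρ := by
  refine Prod.ext ?_ (Prod.ext ?_ ?_)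
  · exact (ZMod.intCast_eq_intCast_iff_dvd_sub _ _ 10).2 h1
  · exact (ZMod.intCast_eq_intCast_iff_dvd_sub _ _ 10).2 h2
  · exact (ZMod.intCast_eq_intCast_iff_dvd_sub _ _ (20 * j)).2 (by exact_mod_cast h3)

theorem fset_inv (j : ℕ) (D : ℤ) (v : Cls j) (g : SL2) (hg : g ∈ Gj j) (p : M2 × ℍ)
    (hp : p ∈ FSet j D v) : cact g p ∈ FSet j D v := by
  obtain ⟨b, c, ρ, e1, e2, e3, e4⟩ := hp
  obtain ⟨hg8, t, ht⟩ := gj_iff.1 hg
  obtain ⟨⟨u, hu⟩, ⟨w, hw⟩, -, ⟨z, hz⟩⟩ := gam_iff.1 hg8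
  have hd := det2 g
  push_cast at hu hw hz
  obtain ⟨P, hP⟩ : ∃ P, P = (g : M2) 0 0 := ⟨_, rfl⟩
  obtain ⟨S, hS⟩ : ∃ S, S = (g : M2) 1 1 := ⟨_, rfl⟩
  have eg : (g : M2) = !![P, 10 * w; 10 * j * t, S] := by
    rw [hP, hS, ← hw, ← ht]
    exact Matrix.eta_fin_two _
  rw [← hP] at hu hd
  rw [← hS] at hz hd
  rw [hw, ht] at hd
  have em : (cact g p).1 = ymat j (P * (10 * w) * ρ - j * c * (10 * w) ^ 2 + b * P ^ 2)
      (c * S ^ 2 - 10 * t * S * ρ - 10 * b * (10 * j * t) * t)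
      (ρ * (P * S + 10 * w * (10 * j * t)) - 2 * j * c * (10 * w) * S + 2 * b * P * (10 * j * t)) := by
    simp only [cact, e1, Matrix.SpecialLinearGroup.coe_inv, eg, ymat, adjugate_fin_two_of,
      mul_fin_two]
    ext i k
    fin_cases i <;> fin_cases k <;> simp <;> ring
  refine ⟨_, _, _, em, ?_, ?_, ?_⟩
  · rw [← e2]
    linear_combination (ρ ^ 2 + 4 * j * b * c) * (P * S - 10 * w * (10 * j * t) + 1) * hd
  · rw [← e3]
    refine cls_eq ⟨-(P * w * ρ) + j * c * 10 * w ^ 2 - b * u * (P + 1), ?_⟩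
      ⟨-(c * z * (S + 1)) + t * S * ρ + b * (10 * j * t) * t, ?_⟩
      ⟨-(10 * w * t * ρ) + c * w * S - b * P * t, ?_⟩
    · linear_combination (-b * (P + 1)) * hu
    · linear_combination (-c * (S + 1)) * hz
    · linear_combination (-ρ) * hd
  · rw [← lin_ymat, ← em]
    rw [← lin_ymat, ← e1] at e4
    refine ((lin_SL g p.2).mul e4).mul ?_
    simpa only [cact, inv_smul_smul] using lin_SL g⁻¹ (g • p.2)

theorem ymat_form (j : ℕ) (b c ρ : ℤ) : ymat j b c ρ = !![-ρ, -2 * -b; 2 * (j * c), ρ] := by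
  simp [ymat, mul_assoc]

theorem fset_form {j : ℕ} {D : ℤ} {v : Cls j} {p : M2 × ℍ} (hp : p ∈ FSet j D v) :
    ∃ A B C : ℤ, B ^ 2 - 4 * A * C = D ∧ (A : ℂ) * (p.2 : ℂ) ^ 2 + B * p.2 + C = 0 ∧
      p.1 = !![-B, -2 * C; 2 * A, B] := by
  obtain ⟨b, c, ρ, e1, e2, -, e4⟩ := hp
  refine ⟨j * c, ρ, -b, by linear_combination e2, ?_, e1.trans (ymat_form j b c ρ)⟩
  push_cast
  linear_combination e4

theorem fin_pt (hO : ORB) (j : ℕ) (D : ℤ) (v : Cls j) (τ : ℍ) :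
    {p | p ∈ FSet j D v ∧ p.2 = τ}.Finite := by
  refine ((hO.fin_form D τ).image fun q : ℤ × ℤ × ℤ =>
    ((!![-q.2.1, -2 * q.2.2; 2 * q.1, q.2.1] : M2), τ)).subset ?_
  rintro p ⟨hp, rfl⟩
  obtain ⟨A, B, C, h1, h2, h3⟩ := fset_form hp
  exact ⟨(A, B, C), ⟨h1, h2⟩, Prod.ext h3.symm rfl⟩

theorem fset_fin (hS : OS) (hO : ORB) (j : ℕ) (D : ℤ) (v : Cls j) (hj : 0 < j) (hD : D < 0) :
    ∃ R, IsRep (relC (Gj j)) (FSet j D v) R := by
  obtain ⟨T, hT⟩ := hO.fin_cm (10 * j) D (by omega) hD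
  refine hS.exists_rep (relC_equiv _) (T.finite_toSet.biUnion fun τ _ => fin_pt hO j D v τ)
    fun p hp => ?_
  obtain ⟨A, B, C, h1, h2, -⟩ := fset_form hp
  obtain ⟨g, hg, ht⟩ := hT p.2 A B C h1 h2
  have hm := fset_inv j D v g (gam_le j hg) p hp
  exact ⟨cact g p, Set.mem_iUnion₂.2 ⟨g • p.2, ht, hm, rfl⟩, hm, g, gam_le j hg, rfl⟩

theorem gj_conj (j : ℕ) (g : SL2) (hg : g ∈ Gj j) :
    ∃ g' ∈ Gam 10, dg j 1 * (g : M2) = g' * dg j 1 := by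
  obtain ⟨hg8, t, ht⟩ := gj_iff.1 hg
  obtain ⟨h1, h2, -, h4⟩ := gam_iff.1 hg8
  have hd := det2 g
  refine ⟨⟨!![(g : M2) 0 0, j * (g : M2) 0 1; 10 * t, (g : M2) 1 1], ?_⟩,
    gam_iff.2 ⟨h1, h2.mul_left _, ⟨t, rfl⟩, h4⟩, ?_⟩
  · rw [det_fin_two_of]
    linear_combination hd + (g : M2) 0 1 * ht
  · ext i k
    fin_cases i <;> fin_cases k <;> simp [dg, Matrix.mul_apply, Fin.sum_univ_two, ht] <;> ring

theorem gj_of_conj (j : ℕ) (g : SL2) (hg : g ∈ Gam 10) (g' : SL2) (hg' : g' ∈ Gam 10)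
    (e : dg j 1 * (g : M2) = g' * dg j 1) : g ∈ Gj j := by
  refine gj_iff.2 ⟨hg, ?_⟩
  have h := congrFun (congrFun e 1) 0
  simp [dg, Matrix.mul_apply, Fin.sum_univ_two] at h
  rw [h]
  exact mul_dvd_mul_right (gam_iff.1 hg').2.2.1 _

theorem neg_mem_fset {j : ℕ} {D : ℤ} {v : Cls j} {p : M2 × ℍ} (hp : p ∈ FSet j D v) :
    (-p.1, p.2) ∈ FSet j D (-v) := by
  obtain ⟨b, c, ρ, e1, e2, e3, e4⟩ := hp
  refine ⟨-b, -c, -ρ, ?_, by linear_combination e2, ?_, ?_⟩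
  · simp [e1, ymat]
  · simp [← e3, cls]
  · push_cast
    linear_combination -e4

theorem fset_neg (hS : OS) (j : ℕ) (D : ℤ) (v : Cls j) (R : Finset (M2 × ℍ))
    (hR : IsRep (relC (Gj j)) (FSet j D v) R) :
    IsRep (relC (Gj j)) (FSet j D (-v)) (R.image fun p => (-p.1, p.2)) := by
  have h := (hS.transport (fun p : M2 × ℍ => (-p.1, p.2)) (relC_equiv (Gj j)) (relC_equiv (Gj j))
    (S' := FSet j D (-v)) (fun p hp => neg_mem_fset hp)
    (fun q hq => ⟨(-q.1, q.2), by simpa only [neg_neg] using neg_mem_fset hq,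
      by simpa only [neg_neg] using (relC_equiv (Gj j)).refl q⟩)
    (fun p _ q _ => by
      simp only [relC, cact, Prod.ext_iff, Matrix.mul_neg, Matrix.neg_mul, neg_inj]) hR).1
  simpa only [IsRep, Finset.mem_image] using h

end Fs

theorem fs (hS : OS) (hO : ORB) : FS where
  cact_one := Fs.cact_one
  cact_mul := Fs.cact_mul
  relC_equiv := Fs.relC_equiv
  relG_equiv := Fs.relG_equiv
  relZ_equiv := Fs.relZ_equiv
  fset_inv := fun j D v _ => Fs.fset_inv j D v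
  fset_fin := Fs.fset_fin hS hO
  gj_conj := fun j _ => Fs.gj_conj j
  gj_of_conj := fun j _ => Fs.gj_of_conj j
  zset_inv := fun _ _ _ _ _ hj hn _ hp _ h => by
    obtain ⟨g1, m1, g2, m2, rfl⟩ := Fs.relZ_iff.1 h
    exact Fs.mv_zset hj hn m1 m2 hp
  zset_fin := Fs.zset_fin hS hO
  fset_neg := Fs.fset_neg hS
  one_orbit := Fs.orbit 10

end Pool.Agent.MP_9207e0_ag.e3
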