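import Pool.Agent.MP_9207e0_ag.e3.SpecB

/-! The linear relations between the eta quotients of level ten. -/

set_option linter.unusedSectionVars false
set_option linter.unusedVariables false

namespace Pool.Agent.MP_9207e0_ag.e3

open UpperHalfPlane Complex Filter Asymptotics Matrix Pool.Agent.MP_9207e0_ag.hg
open scoped Real MatrixGroups Manifold Classical Kronecker

namespace H10

theorem hol_const (c : ℂ) : Hol fun _ => c := mdifferentiable_const

theorem gr_sub {a b : ℍ → ℂ} (ha : Gr 0 a) (hb : Gr 0 b) : Gr 0 (a - b) := IsBigO.sub ha hb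

theorem gr_sq {a : ℍ → ℂ} (ha : Gr 0 a) : Gr 0 (a ^ 2) := by
  have := ha.mul ha
  rw [add_zero] at this
  rwa [sq]

/-- Two functions with invariant squares and the same first terms are equal. -/
theorem key (h0 : QX0) (hS : STURM) {a b p : ℍ → ℂ} (ha : Hol a) (hb : Hol b)
    (ia : ∀ γ : SL2, 10 ∣ (γ : M2) 1 0 → ∀ τ, a (γ • τ) ^ 2 = a τ ^ 2)
    (ib : ∀ γ : SL2, 10 ∣ (γ : M2) 1 0 → ∀ τ, b (γ • τ) ^ 2 = b τ ^ 2)
    (ca : ∀ γ : SL2, ¬10 ∣ (γ : M2) 1 0 → Gr 0 fun τ => a (γ • τ))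
    (cb : ∀ γ : SL2, ¬10 ∣ (γ : M2) 1 0 → Gr 0 fun τ => b (γ • τ))
    (qa : Cg 3 (qq * a) p) (qb : Cg 3 (qq * b) p) (hp : Cg 1 p fun _ => 1) : a = b := by
  have hF : a ^ 2 - b ^ 2 = 0 := by
    refine hS.gam0 10 _ (-1) (by norm_num) ((ha.pow 2).sub (hb.pow 2)) ?_ ?_ (by norm_num) ?_
    · intro γ hγ τ
      simp only [Pi.sub_apply, Pi.pow_apply]
      rw [ia γ (by exact_mod_cast hγ), ib γ (by exact_mod_cast hγ)]
    · intro γ hγ
      exact gr_sub (gr_sq (ca γ (by exact_mod_cast hγ))) (gr_sq (cb γ (by exact_mod_cast hγ)))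
    · have h1 := h0.sub (h0.pow 2 qa) (h0.pow 2 qb)
      have e1 : (qq * a) ^ 2 - (qq * b) ^ 2 = qq ^ 2 * (a ^ 2 - b ^ 2) := by ring
      rw [e1, sub_self] at h1
      have h2 := h0.shift (k := 2) (l := 1) h1
      simpa using h2
  have hne : a + b ≠ 0 := by
    have h1 := h0.add (h0.trans (h0.mono (by norm_num) qa) hp)
      (h0.trans (h0.mono (by norm_num) qb) hp)
    have e1 : ((fun _ => 1) + fun _ => 1 : ℍ → ℂ) = fun _ => 2 := by
      funext τ
      simp only [Pi.add_apply]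
      norm_num
    rw [e1] at h1
    have h2 := h0.ne 2 (by norm_num) h1
    intro h
    apply h2
    rw [← mul_add, h, mul_zero]
  by_contra hab
  refine Hol.mul_ne_zero (ha.sub hb) (ha.add hb) (sub_ne_zero.2 hab) hne ?_
  rw [← hF]
  ring

theorem lead (h0 : QX0) (c : ℂ) : Cg 1 (1 + (fun _ => c) * qq + qq ^ 2) fun _ => 1 := by
  refine h0.of_eq (r := (fun _ => c) + qq) (gr_const 1) ((gr_const c).add (h0.q 0).1) ?_
  funext τ
  simp only [Pi.add_apply, Pi.mul_apply, Pi.pow_apply, Pi.one_apply]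
  ring

theorem qh (h0 : QX0) (h1 : QX1) : Cg 3 (qq * hh) (1 + qq + qq ^ 2) := by
  refine h0.trans (h0.mono (by norm_num) h1.h) ?_
  have g1 : Gr 0 (1 + qq + qq ^ 2) :=
    ((gr_const 1).add (h0.q 0).1).add (gr_sq (h0.q 0).1)
  have g2 := h0.poly (2 + 2 * Polynomial.X - 2 * Polynomial.X ^ 2 - Polynomial.X ^ 3)
  refine h0.of_eq g1 g2 ?_
  simp only [map_add, map_sub, map_mul, map_pow, Polynomial.aeval_X, map_ofNat]
  ring

end H10

open H10 in
theorem h10 (h2 : ETA2) (hC : CUSP) (h0 : QX0) (h1 : QX1) (hS : STURM) : H10 := by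
  obtain ⟨Hh, Hk, Hl, -⟩ := h2.hols
  have e1 : kk - (fun _ => 1) = hh := by
    refine key h0 hS (p := 1 + (fun _ => 1) * qq + qq ^ 2) (Hk.sub (hol_const 1)) Hh ?_ h2.hh ?_
      hC.hh ?_ ?_ (lead h0 1)
    · intro γ hγ τ
      simp only [Pi.sub_apply]
      rw [h2.kk γ hγ]
    · intro γ hγ
      exact gr_sub (hC.kk γ hγ) (gr_const 1)
    · have h := h0.sub h1.k (h0.q 3)
      have a1 : qq * kk - qq = qq * (kk - fun _ => 1) := by
        funext τ
        simp only [Pi.sub_apply, Pi.mul_apply]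
        ring
      have a2 : 1 + 2 * qq + qq ^ 2 - qq = 1 + (fun _ => 1) * qq + qq ^ 2 := by
        funext τ
        simp only [Pi.sub_apply, Pi.mul_apply, Pi.add_apply, Pi.pow_apply, Pi.ofNat_apply]
        ring
      rwa [a1, a2] at h
    · have a2 : 1 + qq + qq ^ 2 = 1 + (fun _ => 1) * qq + qq ^ 2 := by
        funext τ
        simp only [Pi.mul_apply, Pi.add_apply, Pi.pow_apply, Pi.one_apply]
        ring
      rw [← a2]
      exact qh h0 h1
  have k1 : ∀ τ, kk τ = hh τ + 1 := fun τ => by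
    rw [← e1]
    simp
  have i1 : ∀ γ : SL2, 10 ∣ (γ : M2) 1 0 → ∀ τ, hh (γ • τ) = hh τ := fun γ hγ τ => by
    have := h2.kk γ hγ τ
    rw [k1, k1] at this
    exact add_right_cancel this
  have e2 : ll = hh - (fun _ => 4) := by
    refine key h0 hS (p := 1 + (fun _ => -3) * qq + qq ^ 2) Hl (Hh.sub (hol_const 4)) h2.ll ?_
      hC.ll ?_ ?_ ?_ (lead h0 (-3))
    · intro γ hγ τ
      simp only [Pi.sub_apply]
      rw [i1 γ hγ]
    · intro γ hγ
      exact gr_sub (hC.hh γ hγ) (gr_const 4)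
    · have a2 : 1 - 3 * qq + qq ^ 2 = 1 + (fun _ => -3) * qq + qq ^ 2 := by
        funext τ
        simp only [Pi.sub_apply, Pi.mul_apply, Pi.add_apply, Pi.pow_apply, Pi.ofNat_apply]
        ring
      rw [← a2]
      exact h1.l
    · have h := h0.sub (qh h0 h1) (h0.mul (h0.refl 3 (gr_const 4)) (h0.q 3))
      have a1 : qq * hh - (fun _ => 4) * qq = qq * (hh - fun _ => 4) := by
        funext τ
        simp only [Pi.sub_apply, Pi.mul_apply]
        ring
      have a2 : 1 + qq + qq ^ 2 - (fun _ => 4) * qq = 1 + (fun _ => -3) * qq + qq ^ 2 := by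
        funext τ
        simp only [Pi.sub_apply, Pi.mul_apply, Pi.add_apply, Pi.pow_apply, Pi.one_apply]
        ring
      rwa [a1, a2] at h
  exact ⟨k1, fun τ => by rw [e2]; simp, i1⟩

end Pool.Agent.MP_9207e0_ag.e3
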