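import Pool.Agent.MP_9207e0_ag.e3.SpecA
import Pool.Agent.MP_9207e0_ag.hg.Heeg

/-! Pairs of Heegner points of level ten as special cycles. -/

set_option linter.unusedVariables false

namespace Pool.Agent.MP_9207e0_ag.e3

open UpperHalfPlane Complex Filter Asymptotics Matrix Pool.Agent.MP_9207e0_ag.hg
open scoped Real MatrixGroups Manifold Classical Kronecker

namespace Heeg

open hg.Heeg

/-- The congruence condition. -/
def De (κ : ℤ) (W : M2) : Prop := 10 ∣ W 0 1 ∧ 10 ∣ W 1 0 ∧ 10 ∣ W 0 0 + κ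

variable {κ : ℤ}

lemma uniq {n : ℕ} {m : ℤ} (hm : 4 * m = n + 1) (hn : 0 < n) {W W' : M2} {τ : ℍ}
    (h : XW m W τ) (h' : XW m W' τ) (d : De κ W) (d' : De κ W') : W = W' := by
  rcases lt_or_gt_of_ne (mul_ne_zero (h.ne hm hn) (h'.ne hm hn)) with hs | hs
  · exfalso
    have e := eq_of_same hm hn h h'.flip (by simpa [Matrix.adjugate_fin_two] using hs)
    have e1 : W 0 0 = W' 1 1 := by simpa [Matrix.adjugate_fin_two] using congrFun (congrFun e 0) 0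
    have := h'.tr
    have := d.2.2
    have := d'.2.2
    omega
  · exact eq_of_same hm hn h h' hs

lemma red_mul (A B : M2) : red 10 (A * B) = red 10 A * red 10 B :=
  (Int.castRingHom (ZMod 10)).mapMatrix.map_mul A B

lemma red_neg (A : M2) : red 10 (-A) = -red 10 A := (Int.castRingHom (ZMod 10)).mapMatrix.map_neg A

lemma red_sub (A B : M2) : red 10 (A - B) = red 10 A - red 10 B :=
  (Int.castRingHom (ZMod 10)).mapMatrix.map_sub A B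

lemma red_adj (A : M2) : red 10 A.adjugate = (red 10 A).adjugate :=
  (Int.castRingHom (ZMod 10)).map_adjugate A

lemma red_gam {g : SL2} (h : g ∈ Gam 10) : red 10 (g : M2) = 1 := by
  obtain ⟨h1, h2, h3, h4⟩ := CongruenceSubgroup.Gamma_mem.1 h
  ext i k
  fin_cases i <;> fin_cases k <;> simpa [red]

lemma red_conj {g g' : SL2} (h : g ∈ Gam 10) (h' : g' ∈ Gam 10) (A : M2) :
    red 10 (g * A * (g'⁻¹ : SL2)) = red 10 A := by
  rw [red_mul, red_mul, red_gam h, red_gam (inv_mem h'), one_mul, mul_one]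

lemma dvd_of_red {A B : M2} (h : red 10 A = red 10 B) (i k : Fin 2) : 10 ∣ B i k - A i k :=
  (ZMod.intCast_eq_intCast_iff_dvd_sub _ _ 10).1 (congrFun (congrFun h i) k)

lemma De.congr {A B : M2} (d : De κ A) (h : red 10 A = red 10 B) : De κ B := by
  have h1 := dvd_of_red h 0 1
  have h2 := dvd_of_red h 1 0
  have h3 := dvd_of_red h 0 0
  obtain ⟨d1, d2, d3⟩ := d
  refine ⟨?_, ?_, ?_⟩ <;> omega

variable {n : ℕ} {m : ℤ} {W1 W2 α β α' β' : M2} {τ1 τ2 : ℍ} {f f' : ℤ × ℤ × ℤ}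

/-- Bases for a pair of Heegner points. -/
def Bas (κ m : ℤ) (x : ℍ × ℍ) (f : ℤ × ℤ × ℤ) (α β : M2) : Prop :=
  ∃ W1 W2, XW m W1 x.1 ∧ De κ W1 ∧ XW m W2 x.2 ∧ De κ W2 ∧ RB W1 x.1 W2 x.2 f α β

/-- Heegner points with a sign. -/
def Sk (κ m e : ℤ) (τ : ℍ) : Prop := ∃ W, XW m W τ ∧ De κ W ∧ 0 < e * W 1 0

/-- Pairs of Heegner points of the same sign. -/
def PS (κ m : ℤ) : Set (ℍ × ℍ) := {x | ∃ e, Sk κ m e x.1 ∧ Sk κ m e x.2}

/-- Equivalence of pairs of points. -/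
def relP (x y : ℍ × ℍ) : Prop := relG 10 x.1 y.1 ∧ relG 10 x.2 y.2

/-- A choice of sign for matrices modulo ten. -/
def Pos (a : MN 10) : Prop := Fintype.equivFin (MN 10) a ≤ Fintype.equivFin (MN 10) (-a)

lemma pos_or (a : MN 10) : Pos a ∨ Pos (-a) := by
  unfold Pos
  rw [neg_neg]
  exact le_total _ _

lemma Pos.eq {a : MN 10} (h : Pos a) (h' : Pos (-a)) : a = -a := by
  unfold Pos at h h'
  rw [neg_neg] at h'
  exact (Fintype.equivFin (MN 10)).injective (le_antisymm h h')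

lemma relP_equiv (hF : FS) : Equivalence relP :=
  ⟨fun _ => ⟨(hF.relG_equiv 10).refl _, (hF.relG_equiv 10).refl _⟩,
    fun h => ⟨(hF.relG_equiv 10).symm h.1, (hF.relG_equiv 10).symm h.2⟩,
    fun h h' => ⟨(hF.relG_equiv 10).trans h.1 h'.1, (hF.relG_equiv 10).trans h.2 h'.2⟩⟩

variable {x y : ℍ × ℍ}

lemma Bas.conj (h : Bas κ m x f α β) {g1 g2 : SL2} (h1 : g1 ∈ Gam 10) (h2 : g2 ∈ Gam 10) :
    Bas κ m (g1 • x.1, g2 • x.2) f (g2 * α * (g1⁻¹ : SL2)) (g2 * β * (g1⁻¹ : SL2)) := by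
  obtain ⟨W1, W2, a1, d1, a2, d2, h⟩ := h
  exact ⟨_, _, a1.conj g1, d1.congr (red_conj h1 h1 W1).symm, a2.conj g2,
    d2.congr (red_conj h2 h2 W2).symm, h.conj g1 g2⟩

lemma Bas.rel (h : Bas κ m x f α β) (hr : relP x y) : ∃ α' β', Bas κ m y f α' β' := by
  obtain ⟨⟨g1, h1, e1⟩, g2, h2, e2⟩ := hr
  have k := h.conj h1 h2
  rw [e1, e2] at k
  exact ⟨_, _, k⟩

lemma Bas.ps (hm : 4 * m = n + 1) (hn : 0 < n) (h : Bas κ m x f α β) : x ∈ PS κ m := by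
  obtain ⟨W1, W2, a1, d1, a2, d2, h⟩ := h
  have k := mul_self_pos.2 (a1.ne hm hn)
  exact ⟨W1 1 0, ⟨W1, a1, d1, k⟩, W2, a2, d2, sign_eq (h.da ▸ h.pos) h.hom_a h.la a1.lin k⟩

lemma Bas.neg (h : Bas κ m x f α β) : Bas κ m x f (-α) (-β) := by
  obtain ⟨W1, W2, a1, d1, a2, d2, h⟩ := h
  have e : act f (-1) 0 0 (-1) = f := by simp [act]
  have k := h.comb a1.tr a2.tr (p := -1) (q := 0) (u := 0) (v := -1) (by norm_num)
    (by rw [e]; exact h.pos)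
  rw [e] at k
  exact ⟨W1, W2, a1, d1, a2, d2, by simpa using k⟩

lemma Bas.two (hs : Squarefree n) (hm : 4 * m = n + 1) (h : Bas κ m x f α β)
    (h' : Bas κ m x f' α' β') : ∃ p q u v : ℤ, p * v - q * u = 1 ∧
      α' = p • α + q • β ∧ β' = u • α + v • β ∧ act f p q u v = f' := by
  obtain ⟨W1, W2, a1, d1, a2, d2, h⟩ := h
  obtain ⟨W1', W2', a1', d1', a2', d2', h'⟩ := h'
  have hn := Nat.pos_of_ne_zero hs.ne_zero
  obtain rfl := uniq hm hn a1 a1' d1 d1'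
  obtain rfl := uniq hm hn a2 a2' d2 d2'
  exact h.two hs hm h' a1

lemma Bas.pos (h : Bas κ m x f α β) : 0 < f.1 := by
  obtain ⟨W1, W2, -, -, -, -, h⟩ := h
  exact h.pos

lemma Bas.disc (hm : 4 * m = n + 1) (h : Bas κ m x f α β) :
    (2 * f.2.1 + 1) ^ 2 + 4 * f.1 * (-f.2.2) = -n := by
  obtain ⟨W1, W2, a1, -, -, -, h⟩ := h
  linear_combination -4 * h.gram a1 - hm

lemma Bas.trans (hs : Squarefree n) (hm : 4 * m = n + 1) (h : Bas κ m x f α β)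
    (h' : Bas κ m x f' α' β') {a b : M2} (k : Bas κ m y f a b) : ∃ a' b', Bas κ m y f' a' b' := by
  obtain ⟨p, q, u, v, e, -, -, ef⟩ := h.two hs hm h'
  obtain ⟨W1, W2, a1, d1, a2, d2, k⟩ := k
  exact ⟨_, _, W1, W2, a1, d1, a2, d2, ef ▸ k.comb a1.tr a2.tr e (ef ▸ h'.pos)⟩

lemma Bas.ne_neg (hk : ¬5 ∣ 2 * κ + 1) (h : Bas κ m x f α β) : red 10 α ≠ -red 10 α := by
  obtain ⟨W1, W2, a1, d1, -, -, h⟩ := h
  intro e
  rw [← red_neg] at e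
  have k : ∀ i j, 5 ∣ α i j := fun i j => by
    have := dvd_of_red e i j
    rw [Matrix.neg_apply] at this
    omega
  have k0 := congrFun (congrFun h.l 0) 0
  have k1 := congrFun (congrFun h.l 1) 1
  simp [Matrix.adjugate_fin_two, Matrix.mul_apply, -zsmul_eq_mul, -zsmul_one] at k0 k1
  obtain ⟨a, ha⟩ := k 0 0
  obtain ⟨b, hb⟩ := k 0 1
  obtain ⟨c, hc⟩ := k 1 0
  obtain ⟨d, hd⟩ := k 1 1
  rw [hb, hd] at k0
  rw [ha, hc] at k1
  have e1 : 5 * (d * β 0 0 - b * β 1 0 + c * β 0 1 - a * β 1 1) = W1 0 0 - W1 1 1 := by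
    linear_combination k0 - k1
  have e2 := a1.tr
  have e3 := d1.2.2
  omega

lemma Bas.eq (hk : ¬5 ∣ 2 * κ + 1) (hs : Squarefree n) (hm : 4 * m = n + 1) (hn : 7 ≤ n) (h : Bas κ m x f α β)
    (h' : Bas κ m x f α' β') (p1 : Pos (red 10 α)) (p2 : Pos (red 10 α')) : α' = α ∧ β' = β := by
  obtain ⟨p, q, u, v, e, ea, eb, ef⟩ := h.two hs hm h'
  obtain ⟨rfl, rfl, ⟨rfl, rfl⟩ | ⟨rfl, rfl⟩⟩ := aut hs hn h.pos (h.disc hm) e ef
  · exact ⟨by simpa using ea, by simpa using eb⟩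
  · have e1 : α' = -α := by simpa using ea
    rw [e1, red_neg] at p2
    exact absurd (p1.eq p2) (h.ne_neg hk)

lemma Bas.pos' (hm : 4 * m = n + 1) (hn : 0 < n) (h : Bas κ m x f α β) : 0 < f.2.2 := by
  have h1 := h.disc hm
  have h2 : (0 : ℤ) < n := by exact_mod_cast hn
  have h3 : 0 < f.1 * f.2.2 := by nlinarith [sq_nonneg (2 * f.2.1 + 1)]
  exact (mul_pos_iff_of_pos_left h.pos).1 h3

lemma Bas.ofZ (hm : 4 * m = n + 1) (hn : 0 < n) (h : Bas κ m x f α β) {z : M2 × M2 × ℍ}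
    (hz : z ∈ ZSet f.2.2 (2 * f.2.1 + 1) f.1 (red 10 α) (red 10 β)) :
    Bas κ m (z.2.2, mob z.1 z.2.2) f z.1 z.2.1 := by
  have p2 := h.pos' hm hn
  obtain ⟨W1, W2, a1, d1, a2, d2, h⟩ := h
  obtain ⟨z1, z2, z3, z4, z5, z6⟩ := hz
  have la := (lin_iff (z1 ▸ h.pos) _ _).1 (rfl : mob z.1 z.2.2 = _)
  have lb := (lin_iff (z2 ▸ p2) _ _).1 z6.symm
  have g := h.gram a1
  refine ⟨_, _, xw_of z3 ?_ (la.adj.mul lb), d1.congr ?_,
    xw_of ((Matrix.trace_mul_comm _ _).trans z3) ?_ (lb.mul la.adj), d2.congr ?_,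
    h.pos, z1, z2, (sub_add_cancel _ _).symm, (sub_add_cancel _ _).symm, la, lb⟩
  · rw [Matrix.det_mul, Matrix.det_adjugate, z1, z2, ← g]
    simp
  · rw [← sub_eq_iff_eq_add.2 h.l, red_sub, red_sub, red_mul, red_mul, red_adj, red_adj, z4, z5]
  · rw [Matrix.det_mul, Matrix.det_adjugate, z1, z2, ← g, mul_comm]
    simp
  · rw [← sub_eq_iff_eq_add.2 h.r, red_sub, red_sub, red_mul, red_mul, red_adj, red_adj, z4, z5]

lemma Bas.mob_eq (hm : 4 * m = n + 1) (hn : 0 < n) (h : Bas κ m x f α β) :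
    mob α x.1 = x.2 ∧ mob β x.1 = x.2 := by
  have p2 := h.pos' hm hn
  obtain ⟨W1, W2, -, -, -, -, h⟩ := h
  exact ⟨(lin_iff (h.da ▸ h.pos) _ _).2 h.la, (lin_iff (h.db ▸ p2) _ _).2 h.lb⟩

lemma Bas.toZ (hm : 4 * m = n + 1) (hn : 0 < n) (h : Bas κ m x f α β) :
    (α, β, x.1) ∈ ZSet f.2.2 (2 * f.2.1 + 1) f.1 (red 10 α) (red 10 β) := by
  obtain ⟨e1, e2⟩ := h.mob_eq hm hn
  obtain ⟨W1, W2, a1, -, -, -, h⟩ := h
  refine ⟨h.da, h.db, ?_, rfl, rfl, e1.trans e2.symm⟩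
  rw [h.l, Matrix.trace_fin_two]
  simp [-zsmul_eq_mul, -zsmul_one]
  linear_combination a1.tr

lemma Bas.det_pos (h : Bas κ m x f α β) : 0 < α.det := by
  obtain ⟨W1, W2, -, -, -, -, h⟩ := h
  exact h.da ▸ h.pos

variable {V : Type} [AddCommGroup V] {s : ℍ → ℍ → V}

lemma conj_smul {g : SL2} (hg : g ∈ Gam 10) (γ : SL2) (τ : ℍ) :
    ∃ g' ∈ Gam 10, γ • g • τ = g' • γ • τ :=
  ⟨γ * g * γ⁻¹, (CongruenceSubgroup.Gamma_normal 10).conj_mem g hg γ, by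
    simp only [mul_smul, inv_smul_smul]⟩

lemma van_f (hk : ¬5 ∣ 2 * κ + 1) (hS : OS) (hF : FS) (hI : Inv10 s) (hZ : ZVan s) (hs : Squarefree n)
    (hm : 4 * m = n + 1) (hn : 7 ≤ n) (γ1 γ2 : SL2) (f : ℤ × ℤ × ℤ) :
    Van relP {x | ∃ α β, Bas κ m x f α β} fun x => s (γ1 • x.1) (γ2 • x.2) := by
  have n0 : 0 < n := by omega
  refine (hS.van_transport (r := relZ)
    (S := {z | Bas κ m (z.2.2, mob z.1 z.2.2) f z.1 z.2.1 ∧ Pos (red 10 z.1)})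
    (fun z => (z.2.2, mob z.1 z.2.2)) _ hF.relZ_equiv (relP_equiv hF) ?_ ?_ ?_ ?_).1 ?_
  · exact fun z hz => ⟨_, _, hz.1⟩
  · rintro y ⟨α, β, h⟩
    rcases pos_or (red 10 α) with p | p
    · have e : (y.1, mob α y.1) = y := Prod.ext rfl (h.mob_eq hm n0).1
      exact ⟨(α, β, y.1), ⟨e.symm ▸ h, p⟩, e.symm ▸ (relP_equiv hF).refl y⟩
    · have e : (y.1, mob (-α) y.1) = y := Prod.ext rfl (h.neg.mob_eq hm n0).1
      exact ⟨(-α, -β, y.1), ⟨e.symm ▸ h.neg, (red_neg α).symm ▸ p⟩, e.symm ▸ (relP_equiv hF).refl y⟩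
  · rintro z ⟨h, p⟩ z' ⟨h', p'⟩
    constructor
    · rintro ⟨g1, h1, g2, h2, e1, -, e3⟩
      refine ⟨⟨g1, h1, e3.symm⟩, g2, h2, ?_⟩
      dsimp only
      rw [e3, ← mob_SL, ← mob_SL, ← mob_mul (det_SL_pos g2) h.det_pos,
        ← mob_mul h'.det_pos (det_SL_pos g1), e1]
    · rintro ⟨⟨g1, h1, e1⟩, g2, h2, e2⟩
      have k := h.conj h1 h2
      rw [e1, e2] at k
      obtain ⟨k1, k2⟩ := k.eq hk hs hm hn h' ((red_conj h2 h1 _).symm ▸ p) p'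
      refine ⟨g1, h1, g2, h2, ?_, ?_, e1.symm⟩
      · rw [k1, Matrix.mul_assoc, coe_inv_mul, Matrix.mul_one]
      · rw [k2, Matrix.mul_assoc, coe_inv_mul, Matrix.mul_one]
  · rintro x - y - ⟨⟨g1, h1, e1⟩, g2, h2, e2⟩
    obtain ⟨g1', k1, e1'⟩ := conj_smul h1 γ1 x.1
    obtain ⟨g2', k2, e2'⟩ := conj_smul h2 γ2 x.2
    rw [← e1, ← e2, e1', e2', hI _ k1 _ k2]
  · refine hS.van_of_parts _ (fun z => (red 10 z.1, red 10 z.2.1)) ?_ fun i => ?_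
    · rintro z - z' - ⟨g1, h1, g2, h2, e1, e2, -⟩
      have k1 := congrArg (red 10) e1
      have k2 := congrArg (red 10) e2
      rw [red_mul, red_mul, red_gam h1, red_gam h2, one_mul, mul_one] at k1 k2
      rw [k1, k2]
    · by_cases h : ∃ z : M2 × M2 × ℍ, (Bas κ m (z.2.2, mob z.1 z.2.2) f z.1 z.2.1 ∧
          Pos (red 10 z.1)) ∧ (red 10 z.1, red 10 z.2.1) = i
      · obtain ⟨z0, ⟨h0, p0⟩, rfl⟩ := h
        have k := hZ f.2.2 (2 * f.2.1 + 1) f.1 (red 10 z0.1) (red 10 z0.2.1) γ1 γ2 h0.pos (by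
          have h1 := h0.disc hm
          have h2 : (0 : ℤ) < n := by exact_mod_cast n0
          linarith)
        convert k using 1
        ext z
        constructor
        · rintro ⟨⟨h1, -⟩, e⟩
          obtain ⟨e1, e2⟩ := Prod.mk.inj e
          exact e1 ▸ e2 ▸ h1.toZ hm n0
        · intro hz
          exact ⟨⟨h0.ofZ hm n0 hz, hz.2.2.2.1.symm ▸ p0⟩, Prod.ext hz.2.2.2.1 hz.2.2.2.2.1⟩
      · exact fun R hR => Finset.sum_eq_zero fun z hz => absurd ⟨z, hR.1 z hz⟩ h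

lemma van_ps (hk : ¬5 ∣ 2 * κ + 1) (hS : OS) (hF : FS) (hI : Inv10 s) (hZ : ZVan s) (hs : Squarefree n)
    (hm : 4 * m = n + 1) (hn : 7 ≤ n) (γ1 γ2 : SL2) :
    Van relP (PS κ m) fun x => s (γ1 • x.1) (γ2 • x.2) := by
  refine hS.van_of_parts _ (fun x => {f | ∃ α β, Bas κ m x f α β}) ?_ fun i => ?_
  · intro x _ y _ hr
    ext f
    exact ⟨fun ⟨_, _, h⟩ => h.rel hr, fun ⟨_, _, h⟩ => h.rel ((relP_equiv hF).symm hr)⟩
  · by_cases h : ∃ x, x ∈ PS κ m ∧ {f | ∃ α β, Bas κ m x f α β} = i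
    · obtain ⟨x0, ⟨e, ⟨W1, a1, d1, s1⟩, W2, a2, d2, s2⟩, rfl⟩ := h
      obtain ⟨f, α, β, h⟩ := exists_RB hs hm a1 a2 (same_sign s1 s2)
      have h0 : Bas κ m x0 f α β := ⟨W1, W2, a1, d1, a2, d2, h⟩
      convert van_f hk hS hF hI hZ hs hm hn γ1 γ2 f using 1
      ext x
      constructor
      · rintro ⟨-, e⟩
        exact (Set.ext_iff.1 e f).2 ⟨_, _, h0⟩
      · rintro ⟨a, b, k⟩
        refine ⟨k.ps hm (by omega), Set.ext fun f' => ⟨fun ⟨_, _, k'⟩ => k.trans hs hm k' h0,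
          fun ⟨_, _, k'⟩ => h0.trans hs hm k' k⟩⟩
    · exact fun R hR => Finset.sum_eq_zero fun z hz => absurd ⟨z, hR.1 z hz⟩ h

lemma Sk.same (hm : 4 * m = n + 1) (hn : 0 < n) {e e' : ℤ} {τ : ℍ} (h : Sk κ m e τ)
    (h' : Sk κ m e' τ) : 0 < e * e' := by
  obtain ⟨W, a, d, h⟩ := h
  obtain ⟨W', a', d', h'⟩ := h'
  obtain rfl := uniq hm hn a a' d d'
  exact same_sign (mul_comm e _ ▸ h) (mul_comm e' _ ▸ h')

lemma Sk.rel {e : ℤ} {τ σ : ℍ} (h : Sk κ m e τ) (hr : relG 10 τ σ) : Sk κ m e σ := by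
  obtain ⟨W, a, d, h⟩ := h
  obtain ⟨g, hg, rfl⟩ := hr
  exact ⟨_, a.conj g, d.congr (red_conj hg hg W).symm,
    sign_eq (det_SL_pos g) (conj_hom g W) (lin_SL g τ) a.lin h⟩

lemma sg_iff (hm : 4 * m = n + 1) (e : ℤ) (τ : ℍ) :
    Sg (m + κ + κ ^ 2) (2 * κ + 1) e τ ↔ Sk κ m e τ := by
  have hp : 0 < m + κ + κ ^ 2 := by
    have : (0 : ℤ) ≤ n := Int.natCast_nonneg n
    rcases le_or_gt 0 κ with h | h <;> nlinarith
  constructor
  · rintro ⟨W, h1, h2, h3, h4, h5, h6, h7⟩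
    exact ⟨_, xw_of h1 h2 ((lin_iff (h2 ▸ hp) _ _).1 h3),
      ⟨by simpa [-zsmul_eq_mul, -zsmul_one] using h5, by simpa [-zsmul_eq_mul, -zsmul_one] using h6,
        by simpa [-zsmul_eq_mul, -zsmul_one] using h4⟩,
      by simpa [-zsmul_eq_mul, -zsmul_one] using h7⟩
  · rintro ⟨W, a, d, h⟩
    have h2 : (W + κ • (1 : M2)).det = m + κ + κ ^ 2 := by
      have := a.det
      rw [Matrix.det_fin_two] at this ⊢
      simp [-zsmul_eq_mul, -zsmul_one]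
      linear_combination this + κ * a.tr
    refine ⟨W + κ • 1, ?_, h2, (lin_iff (h2 ▸ hp) _ _).2 ?_,
      by simpa [-zsmul_eq_mul, -zsmul_one] using d.2.2,
      by simpa [-zsmul_eq_mul, -zsmul_one] using d.1,
      by simpa [-zsmul_eq_mul, -zsmul_one] using d.2.1,
      by simpa [-zsmul_eq_mul, -zsmul_one] using h⟩
    · rw [Matrix.trace_fin_two]
      simp [-zsmul_eq_mul, -zsmul_one]
      linear_combination a.tr
    · simpa only [one_smul] using a.lin.comb (lin_one τ) 1 κ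

lemma Sk.sign {e : ℤ} {τ σ : ℍ} (h : Sk κ m e τ) (h' : Sk κ m e σ) :
    Sk κ m 1 τ ∧ Sk κ m 1 σ ∨ Sk κ m (-1) τ ∧ Sk κ m (-1) σ := by
  obtain ⟨W, a, d, h⟩ := h
  obtain ⟨W', a', d', h'⟩ := h'
  rcases lt_or_gt_of_ne (left_ne_zero_of_mul h.ne') with k | k
  · exact .inr ⟨⟨W, a, d, by nlinarith⟩, W', a', d', by nlinarith⟩
  · exact .inl ⟨⟨W, a, d, by nlinarith⟩, W', a', d', by nlinarith⟩

end Heeg

open Heeg in
theorem heeg (hS : OS) (hO : ORB) (hF : FS) : HeegStmt := by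
  intro V _ s hI hZ n m t R R' hs hn ht hc hR hR'
  have h2 : ¬2 ∣ t := fun h => by
    simpa using Int.isUnit_iff_natAbs_eq.1 (hc.isUnit_of_dvd' h (by norm_num))
  have h5 : ¬5 ∣ t := fun h => by
    simpa using Int.isUnit_iff_natAbs_eq.1 (hc.isUnit_of_dvd' h (by norm_num))
  obtain ⟨κ, rfl⟩ : ∃ κ, t = 2 * κ + 1 := ⟨t / 2, by omega⟩
  obtain ⟨m, rfl⟩ : ∃ m', m = m' + κ + κ ^ 2 := ⟨m - κ - κ ^ 2, by ring⟩
  have hm : 4 * m = n + 1 := by linear_combination -ht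
  have n0 : 0 < n := by omega
  simp only [sg_iff hm] at hR hR'
  have no : ∀ {τ σ}, Sk κ m 1 τ → Sk κ m (-1) σ → relG 10 τ σ → False := fun a b r => by
    simpa using (a.rel r).same hm n0 b
  have E := hF.relG_equiv 10
  have dj : Disjoint (R ×ˢ R) (R' ×ˢ R') := Finset.disjoint_left.2 fun x a b =>
    no (hR.1 _ (Finset.mem_product.1 a).1) (hR'.1 _ (Finset.mem_product.1 b).1) (E.refl _)
  have k := van_ps h5 hS hF hI hZ hs hm hn 1 1 (R ×ˢ R ∪ R' ×ˢ R') ⟨?_, ?_⟩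
  · rw [Finset.sum_union dj, Finset.sum_product, Finset.sum_product] at k
    simpa only [one_smul] using k
  · simp only [Finset.mem_union, Finset.mem_product]
    rintro x (⟨a, b⟩ | ⟨a, b⟩)
    exacts [⟨1, hR.1 _ a, hR.1 _ b⟩, ⟨-1, hR'.1 _ a, hR'.1 _ b⟩]
  · simp only [Finset.mem_union, Finset.mem_product]
    rintro y ⟨e, s1, s2⟩
    rcases s1.sign s2 with ⟨s1, s2⟩ | ⟨s1, s2⟩
    · obtain ⟨p, ⟨p1, p2⟩, p3⟩ := hR.2 _ s1
      obtain ⟨q, ⟨q1, q2⟩, q3⟩ := hR.2 _ s2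
      refine ⟨(p, q), ⟨.inl ⟨p1, q1⟩, p2, q2⟩, ?_⟩
      rintro z ⟨⟨a, b⟩ | ⟨a, b⟩, r1, r2⟩
      · exact Prod.ext (p3 _ ⟨a, r1⟩) (q3 _ ⟨b, r2⟩)
      · exact (no s1 (hR'.1 _ a) r1).elim
    · obtain ⟨p, ⟨p1, p2⟩, p3⟩ := hR'.2 _ s1
      obtain ⟨q, ⟨q1, q2⟩, q3⟩ := hR'.2 _ s2
      refine ⟨(p, q), ⟨.inr ⟨p1, q1⟩, p2, q2⟩, ?_⟩
      rintro z ⟨⟨a, b⟩ | ⟨a, b⟩, r1, r2⟩
      · exact (no (hR.1 _ a) s1 (E.symm r1)).elim
      · exact Prod.ext (p3 _ ⟨a, r1⟩) (q3 _ ⟨b, r2⟩)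

end Pool.Agent.MP_9207e0_ag.e3
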