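import Pool.Agent.MP_9207e0_ag.e3.SpecA
import Pool.Agent.MP_9207e0_ag.hg.E2A
import Pool.Agent.MP_9207e0_ag.hg.Inp

/-! The input induced from a function with one simple pole. -/

set_option linter.unusedSectionVars false
set_option linter.unusedVariables false

namespace Pool.Agent.MP_9207e0_ag.e3

open UpperHalfPlane Complex Filter Asymptotics Matrix Pool.Agent.MP_9207e0_ag.hg
open scoped Real MatrixGroups Manifold Classical Kronecker

namespace IndM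

lemma mul01 (g h : SL2) : ((g * h : SL2) : M2) 0 1 =
    (g : M2) 0 0 * (h : M2) 0 1 + (g : M2) 0 1 * (h : M2) 1 1 := by
  simp [Matrix.mul_apply, Fin.sum_univ_two]

lemma inv01 (g : SL2) : ((g⁻¹ : SL2) : M2) 0 1 = -(g : M2) 0 1 := by
  simp [Matrix.SpecialLinearGroup.SL2_inv_expl]

/-- The group `b ≡ 0 mod 10`. -/
def GG : Subgroup SL2 where
  carrier := {g | 10 ∣ (g : M2) 0 1}
  one_mem' := by simp
  mul_mem' := fun {g h} hg hh => by
    rw [Set.mem_ofPred_eq, mul01]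
    exact dvd_add (Dvd.dvd.mul_left hh _) (Dvd.dvd.mul_right hg _)
  inv_mem' := fun {g} hg => by
    rw [Set.mem_ofPred_eq, inv01]
    exact (dvd_neg).2 hg

lemma mem_GG {g : SL2} : g ∈ GG ↔ 10 ∣ (g : M2) 0 1 := Iff.rfl

lemma fin_GG : GG.FiniteIndex := by
  refine Subgroup.finiteIndex_of_le (H := Gam 10) fun g hg => ?_
  rw [CongruenceSubgroup.Gamma_mem] at hg
  exact (ZMod.intCast_zmod_eq_zero_iff_dvd _ 10).1 hg.2.1

lemma T01 (k : ℤ) : ((ModularGroup.T ^ k : SL2) : M2) 0 1 = k := by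
  rw [ModularGroup.coe_T_zpow]
  rfl

lemma T11 (k : ℤ) : ((ModularGroup.T ^ k : SL2) : M2) 1 1 = 1 := by
  rw [ModularGroup.coe_T_zpow]
  rfl

/-- The indicator of `a = 0`. -/
noncomputable def ev (x : MN 10) : ℂ := if x 0 0 = 0 then 1 else 0

lemma hat_ev (W : MN 10) :
    hatV ev W = if W 0 0 = 0 ∧ W 0 1 = 0 ∧ W 1 1 = 0 then 100 else 0 := by
  by_cases h : W 1 1 = 0
  · have := HatM.orth2 (W 0 0) (W 0 1)
    simp only [hatV, ev, h, and_true, Matrix.of_apply, Matrix.cons_val', Matrix.cons_val_zero,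
      Matrix.cons_val_fin_one, if_true, mul_one]
    simp only [mul_comm (W 0 0), mul_comm (W 0 1), this]
    norm_num
  · simp [hatV, ev, h]

lemma hat_weil (g : SL2) (φ : MN 10 → ℂ) (W : MN 10) :
    hatV (HatM.weil 10 g *ᵥ φ) W = hatV φ (red 10 ((g⁻¹ : SL2) : M2) * W) := by
  have e : HatM.weil 10 g *ᵥ φ = (HatM.hatE 10).symm (HatM.perm 10 g (HatM.hatE 10 φ)) :=
    LinearMap.toMatrix'_mulVec _ φ
  rw [e, ← HatM.hatE_apply, LinearEquiv.apply_symm_apply]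
  rfl

lemma weil_ev {g : SL2} (hg : g ∈ GG) : HatM.weil 10 g *ᵥ ev = ev := by
  refine HatM.hat_inj fun W => ?_
  rw [hat_weil, hat_ev, hat_ev]
  have h1 : red 10 ((g⁻¹ : SL2) : M2) 0 1 = 0 :=
    (ZMod.intCast_zmod_eq_zero_iff_dvd _ 10).2 (GG.inv_mem hg)
  have h2 := HatM.det_red (N := 10) g⁻¹
  generalize red 10 ((g⁻¹ : SL2) : M2) = h at h1 h2
  rw [Matrix.det_fin_two, h1, zero_mul, sub_zero] at h2
  refine if_congr ?_ rfl rfl
  simp only [Matrix.mul_apply, Fin.sum_univ_two, h1, zero_mul, add_zero]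
  constructor
  · rintro ⟨a, b, c⟩
    have b' : W 0 1 = 0 := by linear_combination h 1 1 * b - W 0 1 * h2
    refine ⟨by linear_combination h 1 1 * a - W 0 0 * h2, b', ?_⟩
    linear_combination h 0 0 * c - h 0 0 * h 1 0 * b' - W 1 1 * h2
  · rintro ⟨a, b, c⟩
    simp [a, b, c]

lemma weil_S : HatM.weil 10 ModularGroup.S = SX 10 := HatM.weil_eq _ _ HatM.hat_S

lemma weil_T : HatM.weil 10 ModularGroup.T = TX 10 := HatM.weil_eq _ _ HatM.hat_T

lemma weil_pow (k : ℕ) (φ : MN 10 → ℂ) (x : MN 10) :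
    (HatM.weil 10 (ModularGroup.T ^ (k : ℤ)) *ᵥ φ) x =
      ZMod.stdAddChar ((k : ZMod 10) * -x.det) * φ x := by
  rw [zpow_natCast, map_pow, weil_T, TX, Matrix.diagonal_pow, Matrix.mulVec_diagonal,
    Pi.pow_apply, ← AddChar.map_nsmul_eq_pow, nsmul_eq_mul]

/-- The summand. -/
noncomputable def tm (F : ℍ → ℂ) (g : SL2) (τ : ℍ) : MN 10 → ℂ :=
  F (g⁻¹ • τ) • (HatM.weil 10 g *ᵥ ev)

lemma tm_out {F : ℍ → ℂ} (hF : Pole F) (g : SL2) (τ : ℍ) :
    tm F (QuotientGroup.mk g : SL2 ⧸ GG).out τ = tm F g τ := by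
  obtain ⟨h, e⟩ := QuotientGroup.mk_out_eq_mul GG g
  rw [e, tm, tm, map_mul, ← Matrix.mulVec_mulVec, weil_ev h.2, _root_.mul_inv_rev, mul_smul,
    hF.2.1 _ (GG.inv_mem h.2)]

lemma tm_mul (F : ℍ → ℂ) (γ g : SL2) (τ : ℍ) :
    tm F (γ * g) (γ • τ) = HatM.weil 10 γ *ᵥ tm F g τ := by
  rw [tm, tm, map_mul, ← Matrix.mulVec_mulVec, Matrix.mulVec_smul, _root_.mul_inv_rev, mul_smul,
    inv_smul_smul]

/-- The induced function. -/
noncomputable def f0 [Fintype (SL2 ⧸ GG)] (F : ℍ → ℂ) (x : MN 10) (τ : ℍ) : ℂ :=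
  ∑ q : SL2 ⧸ GG, tm F q.out τ x

variable [Fintype (SL2 ⧸ GG)]

lemma f0_law {F : ℍ → ℂ} (hF : Pole F) (γ : SL2) (τ : ℍ) :
    (fun x => f0 F x (γ • τ)) = HatM.weil 10 γ *ᵥ fun x => f0 F x τ := by
  have e : ∀ σ, (fun x => f0 F x σ) = ∑ q : SL2 ⧸ GG, tm F q.out σ := fun σ => by
    ext x
    rw [Finset.sum_apply, f0]
  rw [e, e, Matrix.mulVec_sum, ← Equiv.sum_comp (MulAction.toPerm γ)]
  refine Finset.sum_congr rfl fun q _ => ?_
  rw [← tm_mul, ← tm_out hF (γ * q.out), MulAction.toPerm_apply, ← MulAction.Quotient.mk_smul_out,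
    smul_eq_mul]

lemma f0_hol {F : ℍ → ℂ} (hF : Pole F) (x : MN 10) : Hol (f0 F x) := by
  have e : f0 F x = ∑ q : SL2 ⧸ GG, fun τ => F (q.out⁻¹ • τ) * (HatM.weil 10 q.out *ᵥ ev) x := by
    ext τ
    rw [Finset.sum_apply, f0]
    rfl
  rw [e]
  refine Finset.sum_induction _ Hol (fun a b ha hb => ha.add hb) mdifferentiable_const fun q _ => ?_
  exact (hF.1.comp_SL _).mul mdifferentiable_const

lemma gr_T {w : ℍ → ℂ} (h : Gr 0 w) (k : ℤ) : Gr 0 fun τ => w (ModularGroup.T ^ k • τ) := by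
  have t : Tendsto (fun τ : ℍ => ModularGroup.T ^ k • τ) atImInfty atImInfty := by
    refine tendsto_comap_iff.2 ?_
    simpa only [Function.comp_def, ModularGroup.im_T_zpow_smul] using QAx.tendsto_im
  have := IsBigO.comp_tendsto h t
  simpa only [Gr, Function.comp_def, ModularGroup.im_T_zpow_smul] using this

lemma gr_sum {ι : Type} (s : Finset ι) (w : ι → ℍ → ℂ) (h : ∀ i ∈ s, Gr 0 (w i)) :
    Gr 0 fun τ => ∑ i ∈ s, w i τ :=
  (IsBigO.sum h).congr_left fun τ => Finset.sum_apply τ s w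

lemma gr_mul {w : ℍ → ℂ} (h : Gr 0 w) (z : ℂ) : Gr 0 fun τ => w τ * z :=
  (IsBigO.const_mul_left h z).congr_left fun τ => mul_comm _ _

/-- The cosets of the cusp with the pole. -/
def cs (k : ZMod 10) : SL2 ⧸ GG := QuotientGroup.mk (ModularGroup.T ^ (k.val : ℤ))

lemma cs_inj : Function.Injective cs := by
  intro a b h
  rw [cs, cs, QuotientGroup.eq, ← _root_.zpow_neg, ← _root_.zpow_add, mem_GG, T01] at h
  have := (ZMod.intCast_zmod_eq_zero_iff_dvd _ 10).2 h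
  push_cast at this
  rw [ZMod.natCast_zmod_val, ZMod.natCast_zmod_val] at this
  linear_combination -this

lemma exists_cs {q : SL2 ⧸ GG} {k : ℤ}
    (h : 10 ∣ ((q.out⁻¹ : SL2) : M2) 0 1 - k * ((q.out⁻¹ : SL2) : M2) 0 0) : ∃ a, cs a = q := by
  refine ⟨((-k : ℤ) : ZMod 10), ?_⟩
  rw [← q.out_eq', cs, eq_comm, QuotientGroup.eq, mem_GG, mul01, T01, T11, ZMod.val_intCast]
  have e : (10 : ℤ) ∣ -k % ((10 : ℕ) : ℤ) - -k := by
    push_cast
    omega
  have := dvd_add h (Dvd.dvd.mul_left e (((q.out⁻¹ : SL2) : M2) 0 0))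
  refine (dvd_iff_dvd_of_dvd_sub ?_).1 this
  ring_nf
  exact dvd_zero _

lemma f0_gr {F : ℍ → ℂ} (hF : Pole F) (x : MN 10) :
    Gr 0 fun τ => f0 F x τ -
      (if x 0 0 = 0 ∧ x.det = 1 then 10 else 0) * ee (-(τ : ℂ) / 10) := by
  have e : ∀ τ : ℍ, f0 F x τ - (if x 0 0 = 0 ∧ x.det = 1 then 10 else 0) * ee (-(τ : ℂ) / 10) =
      ∑ q ∈ (Finset.univ.image cs)ᶜ, F (q.out⁻¹ • τ) * (HatM.weil 10 q.out *ᵥ ev) x +
      ∑ k : ZMod 10, (F (ModularGroup.T ^ (-(k.val : ℤ)) • τ) -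
        ee (-((ModularGroup.T ^ (-(k.val : ℤ)) • τ : ℍ) : ℂ) / 10)) *
          (ZMod.stdAddChar (k * -x.det) * ev x) := by
    intro τ
    have e1 : ∀ k : ZMod 10, tm F (cs k).out τ x =
        F (ModularGroup.T ^ (-(k.val : ℤ)) • τ) * (ZMod.stdAddChar (k * -x.det) * ev x) := by
      intro k
      rw [cs, tm_out hF, tm, Pi.smul_apply, weil_pow, ZMod.natCast_zmod_val, _root_.zpow_neg,
        smul_eq_mul]
    have e2 : ∀ k : ZMod 10, ee (-((ModularGroup.T ^ (-(k.val : ℤ)) • τ : ℍ) : ℂ) / 10) *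
        (ZMod.stdAddChar (k * -x.det) * ev x) =
        ZMod.stdAddChar (k * (1 - x.det)) * (ev x * ee (-(τ : ℂ) / 10)) := by
      intro k
      have e3 : ZMod.stdAddChar k = ee (((k.val : ℤ) : ℂ) / 10) := by
        have := ZMod.stdAddChar_coe (N := 10) (k.val : ℤ)
        rw [Int.cast_natCast, ZMod.natCast_zmod_val] at this
        rw [this, ee, mul_div_assoc]
        norm_num
      rw [ModularGroup.coe_T_zpow_smul_eq, mul_sub, mul_one, sub_eq_add_neg, ← mul_neg,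
        AddChar.map_add_eq_mul, e3, show -((τ : ℂ) + ((-(k.val : ℤ) : ℤ) : ℂ)) / 10 =
          ((k.val : ℤ) : ℂ) / 10 + -(τ : ℂ) / 10 by push_cast; ring, QAx.ee_add]
      ring
    rw [f0, ← Finset.sum_compl_add_sum (Finset.univ.image cs),
      Finset.sum_image fun a _ b _ h => cs_inj h]
    simp only [e1, sub_mul, Finset.sum_sub_distrib, e2, ← Finset.sum_mul, HatM.orth, add_sub_assoc]
    congr 2
    by_cases h1 : x 0 0 = 0 <;> by_cases h2 : x.det = 1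
    · simp [ev, h1, h2]
    · simp [ev, h1, h2, sub_eq_zero, Ne.symm h2]
    · simp [ev, h1, h2]
    · simp [ev, h1, h2]
  simp only [e]
  refine Gr.add (gr_sum _ _ fun q hq => gr_mul (hF.2.2.2 _ ?_) _)
    (gr_sum _ _ fun k _ => gr_mul (gr_T hF.2.2.1 _) _)
  rintro ⟨k, hk⟩
  obtain ⟨a, ha⟩ := exists_cs hk
  exact Finset.mem_compl.1 hq (Finset.mem_image.2 ⟨a, Finset.mem_univ _, ha⟩)

end IndM

open IndM in
theorem ind (hA : QA) (hG : GEN) (hE : hg.EMB) : IndStmt := by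
  intro F hF
  have := fin_GG
  have : Fintype (SL2 ⧸ GG) := Fintype.ofFinite _
  have h0 : 0 < 96 * 10 := by norm_num
  set z : MN 10 → ℤ := fun x => if x 0 0 = 0 ∧ x.det = 1 then 10 else 0 with hz
  have hz' : ∀ x : MN 10, (z x : ℂ) = if x 0 0 = 0 ∧ x.det = 1 then 10 else 0 := fun x => by
    rw [hz]
    split_ifs with h <;> simp [h]
  have s1 : ∀ x, IsQ (96 * 10) (fun τ => (z x : ℂ) * ee (-(τ : ℂ) / 10))
      ((z x : ℂ) • HahnSeries.single (-96 : ℤ) (1 : ℂ)) := fun x => by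
    have e : (fun τ : ℍ => (z x : ℂ) * ee (-(τ : ℂ) / 10)) =
        (z x : ℂ) • fun τ : ℍ => ee (((-96 : ℤ) : ℂ) * τ / (96 * 10 : ℕ)) := by
      ext τ
      rw [Pi.smul_apply, smul_eq_mul]
      congr 2
      push_cast
      ring
    rw [e]
    exact hA.smul _ (hA.single _ _)
  have g1 : ∀ x, Gr 0 (f0 F x + -fun τ : ℍ => (z x : ℂ) * ee (-(τ : ℂ) / 10)) := fun x => by
    have := f0_gr hF x
    rw [← hz'] at this
    exact IsBigO.congr_left this fun τ => sub_eq_add_neg _ _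
  have lT : ∀ x τ, f0 F x (ModularGroup.T • τ) = ZMod.stdAddChar (-x.det) * f0 F x τ :=
    fun x τ => by
      have := congrFun (f0_law hF ModularGroup.T τ) x
      rwa [weil_T, TX, Matrix.mulVec_diagonal] at this
  have f3 : VV (96 * 10) (SX 10) (TX 10) (f0 F) := by
    refine ⟨fun x => hA.exists_q h0 (f0_hol hF x) (fun τ => ?_) ?_,
      fun τ => by rw [f0_law hF, weil_S], fun τ => by rw [f0_law hF, weil_T]⟩
    · rw [Inp.iter_T (lT x), ← AddChar.map_nsmul_eq_pow, nsmul_eq_mul,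
        show ((96 * 10 : ℕ) : ZMod 10) = 0 by decide, zero_mul, AddChar.map_zero_eq_one, one_mul]
    · have := ExpG.add ⟨0, g1 x⟩ (hA.expG h0 (s1 x))
      rwa [neg_add_cancel_right] at this
  obtain ⟨t, ht⟩ := (Algebra.linearMap ℚ ℂ).exists_leftInverse_of_injective
    (LinearMap.ker_eq_bot.mpr (algebraMap ℚ ℂ).injective)
  have ht' : ∀ k : ℤ, t k = k := fun k => by simpa using LinearMap.congr_fun ht (k : ℚ)
  obtain ⟨f, fv, fq⟩ := hG.rat t h0 ⟨40, by norm_num⟩ (hE.good 10) f3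
  choose c0 hc0 using f3.q
  choose c1 hc1 using fun x => hA.proj t (c0 x)
  choose c2 hc2 hc3 using Inp.level_down hA fv fun x => fq x _ _ (hc0 x) (hc1 x)
  have y : ∀ x, ∀ n < 0, (c0 x).coeff n =
      ((z x : ℂ) • HahnSeries.single (-96 : ℤ) (1 : ℂ)).coeff n := fun x n hn => by
    have := hA.coeff_of_gr 0 h0 (hA.add (hc0 x) (hA.neg (s1 x))) (g1 x) n (by
      rw [neg_zero, zero_mul]
      exact_mod_cast hn)
    rwa [HahnSeries.coeff_add, HahnSeries.coeff_neg, ← sub_eq_add_neg, sub_eq_zero] at this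
  refine ⟨f, c2, ⟨hc2, fun x => ⟨_, hc2 x⟩, fv.s, fv.t⟩, fun x n => ⟨_, by rw [hc3, hc1]⟩,
    fun x n hn => ?_, fun x => ?_⟩
  · rw [hc3, hc1, y x _ (by omega), HahnSeries.coeff_smul,
      HahnSeries.coeff_single_of_ne (by omega), smul_zero, map_zero, Rat.cast_zero]
  · rw [hc3, hc1, y x _ (by norm_num), HahnSeries.coeff_smul, show (96 : ℤ) * -1 = -96 by norm_num,
      HahnSeries.coeff_single_same, smul_eq_mul, mul_one, ht', ← hz', Rat.cast_intCast]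

end Pool.Agent.MP_9207e0_ag.e3
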