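import Pool.Agent.MP_9207e0_ag.e3.SpecA
import Pool.Agent.MP_9207e0_ag.hg.Inp

/-! The input form with prescribed leading terms, level ten. -/

set_option linter.unusedSectionVars false
set_option linter.unusedVariables false

namespace Pool.Agent.MP_9207e0_ag.e3

open UpperHalfPlane Complex Filter Asymptotics Matrix Pool.Agent.MP_9207e0_ag.hg
open scoped Real MatrixGroups Manifold Classical Kronecker

namespace Inp

lemma cls_surj10 (j : ℕ) (a : Cls j) : ∃ b c ρ, a = cls j b c ρ := by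
  obtain ⟨b, hb⟩ := ZMod.intCast_surjective a.1
  obtain ⟨c, hc⟩ := ZMod.intCast_surjective a.2.1
  obtain ⟨ρ, hρ⟩ := ZMod.intCast_surjective a.2.2
  exact ⟨b, c, ρ, by rw [cls, hb, hc, hρ]⟩

lemma neg_cls10 (j : ℕ) (b c ρ : ℤ) : -cls j b c ρ = cls j (-b) (-c) (-ρ) := by
  simp [cls]

end Inp

open hg.Inp in
open Inp in
theorem inp (hA : QA) (hB : QB) (hG : GEN) (hM : THM) (hH : HAT) (hE : hg.EMB) (hE' : EmbStmt)
    (hP : PoinStmt) : InpStmt := by
  intro j _ b₀ c₀ ρ₀ D₀ hD₀ hlt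
  have hN : 0 < 40 * j := NeZero.pos _
  have hj : 0 < j := by omega
  have : NeZero (20 * j) := ⟨by omega⟩
  have h0 : 0 < 96 * (40 * j) := by omega
  have h24 : 24 ∣ 96 * (40 * j) := ⟨4 * (40 * j), by ring⟩
  have h2k : 2 * (20 * j) ∣ 96 * (40 * j) := ⟨96, by ring⟩
  have hev : Even (20 * j) := ⟨10 * j, by ring⟩
  have hjc : (j : ℂ) ≠ 0 := by exact_mod_cast hj.ne'
  obtain ⟨ξ, hξ, hsum⟩ := hG.xi h0 ((hM.dualS (20 * j)).trans (one_eq _ _))
    ((hM.dualT (20 * j)).trans (one_eq _ _))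
    (hG.dual h0 ((hM.dualS _).trans (one_eq _ _)) ((hM.dualT _).trans (one_eq _ _))
      (hM.good _ _ hev h0 h24 h2k))
    (hM.vv _ _ hev h0 h24 h2k) fun τ => ⟨0, div_ne_zero (hM.ne _ τ) (hB.et_ne τ)⟩
  obtain ⟨E, S₀, T₀, E1, E2, E3, E4, uS, hSS, hT₀⟩ := hE' j
  obtain ⟨ρX, ρS, ρT⟩ := hH.rep (40 * j)
  have uT : ∀ v, nsq (T₀ *ᵥ v) = nsq v := fun v => by
    refine Finset.sum_congr rfl fun a _ => ?_
    obtain ⟨b, c, ρ, rfl⟩ := cls_surj10 j a
    have := norm_ee (((ρ ^ 2 + 4 * j * b * c : ℤ) : ℝ) / (40 * j) - 1 / 24)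
    rw [hT₀, norm_mul]
    push_cast at this ⊢
    rw [this, one_mul]
  have hinj : ∀ τ, Function.Injective (E.flip fun r => ξ r τ) := fun τ => by
    rw [injective_iff_map_eq_zero]
    intro v hv
    obtain ⟨r, -, hr⟩ := Finset.exists_ne_zero_of_sum_ne_zero
      (s := Finset.univ) (f := fun i => ξ i τ * (thm (20 * j) i τ / et τ))
      (by rw [hsum τ]; exact one_ne_zero)
    obtain ⟨r, rfl⟩ := ZMod.intCast_surjective r
    ext a
    obtain ⟨b, c, ρ, rfl⟩ := cls_surj10 j a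
    have := congrFun hv (red _ (xmat j b c ρ r))
    rw [LinearMap.flip_apply, E1] at this
    exact (mul_eq_zero.mp this).resolve_right (left_ne_zero_of_mul hr)
  obtain ⟨ρ, ρS₀, ρT₀, ρu⟩ := exists_rep ρX (fun τ => E.flip fun r => ξ r τ) hinj S₀ T₀
    (fun v τ => by simp only [LinearMap.flip_apply, ρS, E3, hξ.s])
    (fun v τ => by simp only [LinearMap.flip_apply, ρT, E4, hξ.t]) uS uT
  set vz : Cls j → ℤ := fun a => (if a = cls j b₀ c₀ ρ₀ then 1 else 0) +
    if a = -cls j b₀ c₀ ρ₀ then 1 else 0 with hvz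
  set μ : ℝ := 1 / 6 + D₀ / (40 * j) with hμ
  have hμc : (μ : ℂ) = 1 / 6 + D₀ / (40 * j : ℕ) := by rw [hμ]; push_cast; ring
  obtain ⟨F, Fh, Fl, Fg⟩ := hP ρ (fun a => (vz a : ℂ)) μ ρu (by
      have h1 : (0 : ℝ) < j := by exact_mod_cast hj
      have h2 : (3 * D₀ : ℝ) < -20 * j := by exact_mod_cast hlt
      have h3 : (D₀ : ℝ) / (40 * j) ≤ -(1 / 6) := by
        rw [div_le_iff₀ (by positivity)]
        linarith
      linarith) (by
      have h1 : (-1 : SL2) = ModularGroup.S * ModularGroup.S := by decide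
      rw [h1, map_mul, ρS₀, ← Matrix.mulVec_mulVec]
      ext a
      rw [hSS, hvz]
      simp only [neg_eq_iff_eq_neg, neg_neg, add_comm]) (by
      rw [ρT₀]
      ext a
      have h1 : (μ : ℂ) - 5 / 24 = (D₀ : ℂ) / (40 * j) - 1 / 24 := by rw [hμc]; push_cast; ring
      rw [Pi.smul_apply, smul_eq_mul, h1]
      by_cases h2 : a = cls j b₀ c₀ ρ₀
      · rw [h2, hT₀, hD₀]
      by_cases h3 : a = -cls j b₀ c₀ ρ₀
      · rw [h3, neg_cls10, hT₀, ← hD₀]
        congr 4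
        ring_nf
      obtain ⟨b, c, ρ', rfl⟩ := cls_surj10 j a
      rw [hT₀]
      simp [hvz, h2, h3])
  have hF : ∀ a, HasQ (96 * (40 * j)) (F a) ∧ ∃ w, IsQ (96 * (40 * j)) (fun τ => F a τ * et τ) w ∧
      Lead w (96 * D₀) (2 * (vz a : ℂ)) := fun a => by
    refine lead_etaF hA hB hN (Fh a) (fun τ => ?_) hμc (by push_cast; omega) (Fg a)
    obtain ⟨b, c, ρ', rfl⟩ := cls_surj10 j a
    have h1 : ∀ τ, F (cls j b c ρ') (ModularGroup.T • τ) =
        ee (((ρ' ^ 2 + 4 * j * b * c : ℤ) : ℂ) / (40 * j) - 1 / 24) * F (cls j b c ρ') τ :=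
      fun τ => by
        have := congrFun (Fl ModularGroup.T τ) (cls j b c ρ')
        rwa [ρT₀, hT₀] at this
    rw [iter_T h1, ee_pow]
    have h2 : ((96 * (40 * j) : ℕ) : ℂ) * (((ρ' ^ 2 + 4 * j * b * c : ℤ) : ℂ) / (40 * j) - 1 / 24) =
        ((96 * (ρ' ^ 2 + 4 * j * b * c) - 160 * j : ℤ) : ℂ) := by
      push_cast
      field_simp
      ring
    rw [h2, ee_int, one_mul]
  choose cF hcF using fun a => (hF a).1
  choose w hw hwl using fun a => (hF a).2
  choose cξ hcξ using hξ.q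
  set f₀ : MN (40 * j) → ℍ → ℂ := fun x τ => E (fun a => F a τ) (fun r => ξ r τ) x with hf₀
  have f1 : ∀ b c ρ' r, IsQ (96 * (40 * j)) (f₀ (red _ (xmat j b c ρ' r)))
      (cF (cls j b c ρ') * cξ (r : ZMod (20 * j))) := fun b c ρ' r => by
    convert hA.mul h0 (hcF (cls j b c ρ')) (hcξ (r : ZMod (20 * j))) using 1
    ext τ
    simp only [hf₀, E1, Pi.mul_apply]
  have f2 : ∀ x, (∀ b c ρ' r, x ≠ red _ (xmat j b c ρ' r)) → IsQ (96 * (40 * j)) (f₀ x) 0 :=
    fun x hx => by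
      convert isQ_zero hA _ using 1
      ext τ
      simp only [hf₀, E2 _ _ x hx]
  have f3 : VV (96 * (40 * j)) (SX (40 * j)) (TX (40 * j)) f₀ := by
    refine ⟨fun x => ?_, fun τ => ?_, fun τ => ?_⟩
    · by_cases hx : ∀ b c ρ' r, x ≠ red _ (xmat j b c ρ' r)
      · exact ⟨_, f2 x hx⟩
      · push Not at hx
        obtain ⟨b, c, ρ', r, rfl⟩ := hx
        exact ⟨_, f1 b c ρ' r⟩
    · simp only [hf₀, E3, hξ.s, Fl, ρS₀]
    · simp only [hf₀, E4, hξ.t, Fl, ρT₀]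
  obtain ⟨t, ht⟩ := (Algebra.linearMap ℚ ℂ).exists_leftInverse_of_injective
    (LinearMap.ker_eq_bot.mpr (algebraMap ℚ ℂ).injective)
  have ht' : ∀ k : ℤ, t k = k := fun k => by simpa using LinearMap.congr_fun ht (k : ℚ)
  obtain ⟨f, fv, fq⟩ := hG.rat t h0 h24 (hE.good (40 * j)) f3
  choose c0 hc0 using f3.q
  choose c1 hc1 using fun x => hA.proj t (c0 x)
  choose c2 hc2 hc3 using level_down hA fv fun x => fq x _ _ (hc0 x) (hc1 x)
  obtain ⟨A, hlow⟩ := exists_low c0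
  obtain ⟨d, hd, hint⟩ := exists_den (fun x n => t ((c0 x).coeff (96 * n))) (-|A|) fun x n hn => by
    rw [hlow x _ (by have := neg_abs_le A; have := abs_nonneg A; omega), map_zero]
  have hc : ∀ x n, (((d : ℂ) • c2 x).coeff n) = (((d : ℚ) * t ((c0 x).coeff (96 * n)) : ℚ) : ℂ) :=
    fun x n => by
      rw [HahnSeries.coeff_smul, hc3, hc1, smul_eq_mul]
      push_cast
      rfl
  refine ⟨fun x => (d : ℂ) • f x, fun x => (d : ℂ) • c2 x,
    fun D a => ((d : ℚ) * t ((w a).coeff (96 * D))).num, 2 * d,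
    ⟨fun x => hA.smul _ (hc2 x), fun x => ⟨_, hA.smul _ (hc2 x)⟩, fun τ => ?_, fun τ => ?_⟩,
    fun x n => ⟨_, hc x n⟩, fun x n hn => ?_, fun x hx => ?_, fun b c ρ' D hD hneg => ?_,
    fun D hD a => ?_, by omega, fun a => ?_⟩
  · change (d : ℂ) • (fun x => f x (ModularGroup.S • τ)) = _ *ᵥ ((d : ℂ) • fun x => f x τ)
    rw [fv.s, Matrix.mulVec_smul]
  · change (d : ℂ) • (fun x => f x (ModularGroup.T • τ)) = _ *ᵥ ((d : ℂ) • fun x => f x τ)
    rw [fv.t, Matrix.mulVec_smul]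
  · obtain ⟨k, hk⟩ := hint x n hn
    exact ⟨k, by rw [hc, hk]; simp⟩
  · ext n
    rw [hc, hA.unique h0 (hc0 x) (f2 x hx)]
    simp
  · choose θ hθ hθ0 hθ1 using hM.q (20 * j)
    choose θ' hθ' using fun r => hA.exists_sub 96 1 (θ r) (by norm_num)
    have t1 : ∀ r, IsQ (96 * (40 * j)) (thm (20 * j) r) (θ' r) := fun r => by
      have := (hA.level (by omega) (by norm_num) (hθ' r)).mpr (hθ r)
      rwa [show 2 * (20 * j) = 40 * j by ring] at this
    set a := cls j b c ρ' with ha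
    have t2 : w a = ∑ r, cF a * cξ r * θ' r := by
      refine hA.unique h0 (hw a) ?_
      convert hA.sum Finset.univ _ _ fun r _ => hA.mul h0 (hA.mul h0 (hcF a) (hcξ r)) (t1 r)
        using 1
      ext τ
      have := hsum τ
      simp only [← mul_div_assoc, ← Finset.sum_div] at this
      rw [div_eq_iff (hB.et_ne τ), one_mul] at this
      simp only [Finset.sum_apply, Pi.mul_apply, mul_assoc, ← Finset.mul_sum, this]
    have t3 : ∀ r : ℤ, c0 (red _ (xmat j b c ρ' r)) = cF a * cξ (r : ZMod (20 * j)) :=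
      fun r => hA.unique h0 (hc0 _) (f1 b c ρ' r)
    have t4 : ∀ r, ∀ n < A, (cF a * cξ r).coeff n = 0 := fun r n hn => by
      obtain ⟨r, rfl⟩ := ZMod.intCast_surjective r
      rw [← t3, hlow _ _ hn]
    set R : ℕ := A.natAbs + 1 with hR
    have t5 : -A < 96 * (R : ℤ) ^ 2 := by
      have : -A < (R : ℤ) := by omega
      nlinarith [sq_nonneg ((R : ℤ) - 1), Int.natCast_nonneg R]
    have t6 : (w a).coeff (96 * D) = ∑ r ∈ Finset.Icc (-R : ℤ) R,
        (c0 (red _ (xmat j b c ρ' r))).coeff (96 * (D - r ^ 2)) := by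
      rw [t2, HahnSeries.coeff_sum, ← Finset.sum_fiberwise (Finset.Icc (-R : ℤ) R)
        fun r : ℤ => (r : ZMod (20 * j))]
      refine Finset.sum_congr rfl fun r _ => ?_
      rw [coeff_mul_theta (R := R) (hθ1 r) (hθ' r) (t4 r) (by omega)]
      refine Finset.sum_congr rfl fun r' hr' => ?_
      rw [t3, (Finset.mem_filter.mp hr').2, mul_sub]
    choose k hk using fun r : ℤ => hint (red _ (xmat j b c ρ' r)) (D - r ^ 2)
      (by nlinarith [sq_nonneg r])
    have t7 : (d : ℚ) * t ((w a).coeff (96 * D)) = ((∑ r ∈ Finset.Icc (-R : ℤ) R, k r : ℤ) : ℚ) := by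
      rw [t6, map_sum, Finset.mul_sum]
      push_cast
      exact Finset.sum_congr rfl fun r _ => hk r
    rw [finsum_eq_sum_of_support_subset (s := Finset.Icc (-R : ℤ) R)]
    · simp only [t7, Rat.num_intCast, hc, hk]
      push_cast
      rfl
    · intro r hr
      by_contra h
      apply hr
      have h1 : (R : ℤ) ^ 2 ≤ r ^ 2 := by
        rw [Finset.coe_Icc, Set.mem_Icc, ← abs_le, not_le] at h
        rw [← sq_abs r]
        exact pow_le_pow_left₀ (Int.natCast_nonneg R) h.le 2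
      simp only [hc]
      rw [hlow _ _ (by omega)]
      simp
  · simp [(hwl a).2 (96 * D) (by omega)]
  · have h1 : (2 * (vz a : ℂ)) = ((2 * vz a : ℤ) : ℂ) := by push_cast; rfl
    have h2 : (d : ℚ) * ((2 * vz a : ℤ) : ℚ) = ((2 * d * vz a : ℤ) : ℚ) := by push_cast; ring
    simp only [(hwl a).1, h1, ht', h2, Rat.num_intCast]
    rfl

end Pool.Agent.MP_9207e0_ag.e3
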