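import Pool.Agent.MP_9207e0_ag.e3.SpecB

/-! The modular invariant as a rational function of the generator of level ten. -/

set_option linter.unusedSectionVars false
set_option linter.unusedVariables false

namespace Pool.Agent.MP_9207e0_ag.e3

open UpperHalfPlane Complex Filter Asymptotics Matrix Pool.Agent.MP_9207e0_ag.hg
open scoped Real MatrixGroups Manifold Classical Kronecker

namespace Jrel

/-- The difference of the two sides of the relation of level two. -/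
noncomputable def F : ℍ → ℂ := jf * t2 ^ 2 - (t2 + (256 : ℕ)) ^ 3

lemma F_apply (τ : ℍ) : F τ = jf τ * t2 τ ^ 2 - (t2 τ + 256) ^ 3 := by
  simp [F]

lemma hol (hB : QB) (h2 : ETA2) : Hol F := by
  have hj : Hol jf := hB.j_mod.1
  have ht : Hol t2 := h2.hols.2.2.2.2.2
  have hc : Hol ((256 : ℕ) : ℍ → ℂ) := mdifferentiable_const
  exact MDifferentiable.sub (hj.mul (ht.pow 2)) ((ht.add hc).pow 3)

lemma gr_inf (h0 : QX0) (h1 : QX1) : Gr (-(1 : ℕ)) F := by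
  refine h0.shift (k := 3) (l := 1) ?_
  have e : qq ^ 3 * F = qq * jf * (qq * t2) ^ 2 - (qq * t2 + (256 : ℕ) * qq) ^ 3 := by
    unfold F
    ring
  rw [e]
  refine h0.trans (h0.sub (h0.mul h1.j (h0.pow 2 h1.u))
    (h0.pow 3 (h0.add h1.u (h0.mul (h0.num 4 256) (h0.q 4))))) ?_
  have hn : ∀ n : ℕ, Gr 0 (n : ℍ → ℂ) := fun n => (h0.num 0 n).1
  have hm : ∀ n m : ℕ, Cg 0 ((n : ℍ → ℂ) * qq ^ m) ((n : ℍ → ℂ) * qq ^ m) := fun n m =>
    h0.mul (h0.num 0 n) (h0.pow m (h0.q 0))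
  have h00 : Gr 0 (0 : ℍ → ℂ) := by simpa using hn 0
  refine h0.of_eq h00 (h0.sub
    (h0.add (h0.add (hm 21239955456 1) (hm 3528324022272 3)) (hm 90159953477632 5))
    (h0.add (h0.add (hm 864288768 0) (hm 338519130112 2)) (hm 23476291239936 4))).1 ?_
  push_cast
  ring

lemma gr_other (hB : QB) (hC : CUSP) (h0 : QX0) (h1 : QX1) (γ : SL2)
    (hγ : ¬(2 : ℤ) ∣ (γ : M2) 1 0) : Gr 0 fun τ => F (γ • τ) := by
  have hj : Gr (1 : ℕ) jf := h0.grow (k := 1) (by simpa using h1.j.1)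
  have ht := hC.t2 γ hγ
  have ha : Gr 0 (jf * ((fun τ => t2 (γ • τ)) * fun τ => t2 (γ • τ))) :=
    (hj.mul (ht.mul ht)).mono (by norm_num)
  have hb : Gr 0 ((fun τ => t2 (γ • τ)) + fun _ => (256 : ℂ)) :=
    (ht.mono (by norm_num)).add (gr_const 256)
  have hc := (hb.mul (hb.mul hb)).mono (κ' := 0) (by norm_num)
  have hd := IsBigO.sub ha hc
  refine hd.congr_left fun τ => ?_
  simp only [F_apply, hB.j_inv, Pi.mul_apply, Pi.add_apply]
  ring

end Jrel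

theorem jrel (hB : QB) (h2 : ETA2) (hC : CUSP) (h0 : QX0) (h1 : QX1) (hS : STURM) (hH : H10) :
    JrelStmt := by
  have hF : Jrel.F = 0 := hS.gam0 2 Jrel.F (-(1 : ℕ)) (by norm_num) (Jrel.hol hB h2)
    (fun γ hγ τ => by rw [Jrel.F_apply, Jrel.F_apply, hB.j_inv, h2.t2 γ hγ])
    (fun γ hγ => Jrel.gr_other hB hC h0 h1 γ hγ) (by norm_num) (Jrel.gr_inf h0 h1)
  intro τ
  have e1 : jf τ * t2 τ ^ 2 = (t2 τ + 256) ^ 3 := by
    have := congrFun hF τ
    rw [Jrel.F_apply] at this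
    exact sub_eq_zero.1 this
  have e2 : t2 τ * kk τ ^ 5 = ll τ ^ 5 * hh τ := by
    have a1 := h2.ne 1 τ
    have a2 := h2.ne 2 τ
    have a10 := h2.ne 10 τ
    unfold t2 kk ll hh
    field_simp
  rw [hH.kk, hH.ll] at e2
  unfold X1
  rw [← e2]
  have e3 : (hh τ - 4) ^ 10 * hh τ ^ 2 = (t2 τ * (hh τ + 1) ^ 5) ^ 2 := by
    rw [e2]
    ring
  rw [e3]
  linear_combination (hh τ + 1) ^ 15 * e1

end Pool.Agent.MP_9207e0_ag.e3
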