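import Pool.Agent.MP_9207e0_ag.e3.SpecB

/-! Module LC1: the action of two generators on the first map. -/

set_option linter.unusedSectionVars false
set_option linter.unusedVariables false

namespace Pool.Agent.MP_9207e0_ag.e3

open UpperHalfPlane Complex Filter Asymptotics Matrix Pool.Agent.MP_9207e0_ag.hg
open scoped Real MatrixGroups Manifold Classical Kronecker

namespace Lc1

lemma dp (a b c d : ℤ) (h : 0 < a * d - b * c) : 0 < (!![a, b; c, d] : M2).det := by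
  rwa [Matrix.det_fin_two_of]

lemma mm (a b c d a' b' c' d' : ℤ) (τ : ℍ) (h : 0 < a * d - b * c) (h' : 0 < a' * d' - b' * c') :
    mob !![a, b; c, d] (mob !![a', b'; c', d'] τ) =
      mob !![a * a' + b * c', a * b' + b * d'; c * a' + d * c', c * b' + d * d'] τ := by
  rw [← mob_mul (dp _ _ _ _ h) (dp _ _ _ _ h'), Matrix.mul_fin_two]

lemma two (a b c d : ℤ) (τ : ℍ) (h : 0 < a * d - b * c) :
    mob !![2 * a, 2 * b; 2 * c, 2 * d] τ = mob !![a, b; c, d] τ := by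
  rw [← mob_smul (dp _ _ _ _ h) two_ne_zero]
  congr 1
  ext i j
  fin_cases i <;> fin_cases j <;> rfl

lemma inv (hH : H10) (a b c d : ℤ) (τ : ℍ) (h : a * d - b * c = 1) (h' : 10 ∣ c) :
    hh (mob !![a, b; c, d] τ) = hh τ := by
  let g : SL2 := ⟨!![a, b; c, d], by rwa [Matrix.det_fin_two_of]⟩
  exact (congrArg hh (mob_SL g τ)).trans (hH.inv g h' τ)

/-- `hh (τ / 2)`. -/
noncomputable def aa (τ : ℍ) : ℂ := hh (mob !![1, 0; 0, 2] τ)

/-- `hh ((τ + 1) / 2)`. -/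
noncomputable def ab (τ : ℍ) : ℂ := hh (mob !![1, 1; 0, 2] τ)

lemma shift (hH : H10) (k : ℤ) (τ : ℍ) : hh (mob !![1, 1 + 2 * k; 0, 2] τ) = ab τ := by
  rw [ab, ← inv hH 1 k 0 1 (mob !![1, 1; 0, 2] τ) (by simp) (by simp), mm _ _ _ _ _ _ _ _ _ (by simp)
    (by norm_num)]
  norm_num [mul_comm]

lemma root (hH : H10) (hE : E20Stmt) (k : ℤ) (τ : ℍ) :
    hh (mob !![1, k; 0, 2] τ) ^ 2 * hh τ - 2 * hh (mob !![1, k; 0, 2] τ) * hh τ -
      4 * hh (mob !![1, k; 0, 2] τ) = hh τ ^ 2 := by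
  have e : hh (mob (dg 2 1) (mob !![1, k; 0, 2] τ)) = hh τ := by
    rw [dg, mm _ _ _ _ _ _ _ _ _ (by norm_num) (by simp), ← inv hH 1 k 0 1 τ (by simp) (by simp),
      ← two 1 k 0 1 τ (by simp)]
    norm_num
  have := hE (mob !![1, k; 0, 2] τ)
  rwa [e] at this

lemma qq_half (τ : ℍ) : qq (mob !![2, 1; 0, 2] τ) = -qq τ := by
  rw [qq, qq, coe_mob (dp 2 1 0 2 (by norm_num)), ee, ee]
  have : 2 * π * Complex.I * ((((!![2, 1; 0, 2] : M2) 0 0 : ℤ) * (τ : ℂ) + ((!![2, 1; 0, 2] : M2) 0 1 : ℤ)) /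
      (((!![2, 1; 0, 2] : M2) 1 0 : ℤ) * (τ : ℂ) + ((!![2, 1; 0, 2] : M2) 1 1 : ℤ))) =
      2 * π * Complex.I * τ + π * Complex.I := by
    simp
    ring
  rw [this, Complex.exp_add_pi_mul_I]

lemma ne (hB : QB) (h0 : QX0) (h1 : QX1) : aa - ab ≠ 0 := by
  intro h
  have e : ∀ τ, hh (mob !![2, 1; 0, 2] τ) = hh τ := fun τ => by
    have := sub_eq_zero.1 (congrFun h (mob !![2, 0; 0, 1] τ))
    rw [aa, ab, mm _ _ _ _ _ _ _ _ _ (by norm_num) (by norm_num),
      mm _ _ _ _ _ _ _ _ _ (by norm_num) (by norm_num)] at this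
    have e2 := two 1 0 0 1 τ (by norm_num)
    rw [← Matrix.one_fin_two, mob_one] at e2
    norm_num at this e2
    rw [← this, e2]
  have t1 := h0.lim (by norm_num) h1.h.2.2
  have t2 := h0.lim (by norm_num) (hB.gr_upper (a := 2) (b := 1) (d := 2) two_pos two_pos h1.h.2.2)
  have t3 := h0.lim (by norm_num) (h0.of_eq (k := 1) (a := qq) (b := fun _ => 0) (r := fun _ => 1)
    (gr_const 0) (gr_const 1) (by ext τ; simp)).2.2
  have t4 : Tendsto qq atImInfty (nhds 0) := t3.congr fun τ => by simp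
  have t5 := (t1.add t2).add ((((t4.pow 2).const_mul 2).add ((t4.pow 4).const_mul 4)).sub
    ((t4.pow 6).const_mul 2))
  have t6 : Tendsto (fun _ : ℍ => (-2 : ℂ)) atImInfty _ := t5.congr fun τ => by
    simp only [Pi.sub_apply, Pi.add_apply, Pi.mul_apply, Pi.pow_apply, Pi.ofNat_apply,
      qq_half, e]
    ring
  have := tendsto_nhds_unique t6 tendsto_const_nhds
  norm_num at this

lemma sum (hB : QB) (h2 : ETA2) (h0 : QX0) (h1 : QX1) (hH : H10) (hE : E20Stmt) (τ : ℍ) :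
    hh τ * (aa τ + ab τ) = 2 * hh τ + 4 := by
  have ha : Hol aa := h2.hols.1.comp_mob (dp 1 0 0 2 (by norm_num))
  have hb : Hol ab := h2.hols.1.comp_mob (dp 1 1 0 2 (by norm_num))
  have c : ∀ z : ℂ, Hol fun _ => z := fun z => mdifferentiable_const
  have hc : Hol (hh * (aa + ab) - ((fun _ => 2) * hh + fun _ => 4)) :=
    (h2.hols.1.mul (ha.add hb)).sub (((c 2).mul h2.hols.1).add (c 4))
  by_contra n
  refine Hol.mul_ne_zero (ha.sub hb) hc (ne hB h0 h1) (fun z => n (sub_eq_zero.1 (congrFun z τ))) ?_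
  ext σ
  have r1 := root hH hE 0 σ
  have r2 := root hH hE 1 σ
  simp only [Pi.sub_apply, Pi.add_apply, Pi.mul_apply, Pi.zero_apply, aa, ab]
  linear_combination r1 - r2

end Lc1

open Lc1 in
theorem lc1 (hB : QB) (h2 : ETA2) (h0 : QX0) (h1 : QX1) (hH : H10) (hW : W2Stmt) (hE : E20Stmt) :
    LC1 := by
  have s := sum hB h2 h0 h1 hH hE
  have n := fun τ => (h2.nes τ).1
  have y : ∀ τ, Y1 τ = -(aa τ * hh τ) := fun _ => rfl
  have r : ∀ τ, aa τ ^ 2 * hh τ - 2 * aa τ * hh τ - 4 * aa τ = hh τ ^ 2 := root hH hE 0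
  have p : ∀ τ, aa τ * ab τ = -hh τ := fun τ => mul_left_cancel₀ (n τ) (by
    linear_combination aa τ * s τ - r τ)
  have w : ∀ τ, hh (mob !![1, 0; 5, 1] τ) * ab τ = -4 := fun τ => by
    have := hW (mob !![1, 1 + 2 * (-1); 0, 2] τ)
    rw [shift hH, mm _ _ _ _ _ _ _ _ _ (by norm_num) (by norm_num)] at this
    rw [← two 1 0 5 1 τ (by norm_num)]
    norm_num at this ⊢
    exact this
  have lx : ∀ τ, hh (mob !![1, 0; 5, 1] τ) * hh τ ^ 2 = 4 * (aa τ * hh τ) := fun τ => by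
    linear_combination (hh (mob !![1, 0; 5, 1] τ) * (hh τ - aa τ * ab τ) - 4 * aa τ) * p τ +
      aa τ ^ 2 * ab τ * w τ
  refine ⟨fun τ => ?_, fun τ => ⟨n τ, neg_ne_zero.2 (mul_ne_zero (n _) (n τ))⟩, fun τ => ?_,
    fun τ => ?_, fun τ => ?_, fun τ => ?_⟩
  · rw [y, X1]
    linear_combination hh τ * r τ
  · exact inv hH 1 5 0 1 τ (by norm_num) (by norm_num)
  · have e : aa (mob !![1, 5; 0, 1] τ) = ab τ := by
      rw [aa, mm _ _ _ _ _ _ _ _ _ (by norm_num) (by norm_num), ← shift hH 2]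
      norm_num
    rw [y, y, X1, e, inv hH 1 5 0 1 τ (by norm_num) (by norm_num)]
    linear_combination -s τ
  · rw [y, X1, X1, lx]
    ring
  · have e : aa (mob !![1, 0; 5, 1] τ) = aa τ := by
      rw [aa, aa, ← inv hH 1 0 10 1 (mob !![1, 0; 0, 2] τ) (by norm_num) (by norm_num),
        mm _ _ _ _ _ _ _ _ _ (by norm_num) (by norm_num),
        mm _ _ _ _ _ _ _ _ _ (by norm_num) (by norm_num)]
      norm_num
    rw [y, y, X1, e]
    linear_combination -(aa τ * hh τ) * lx τ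

end Pool.Agent.MP_9207e0_ag.e3
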