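import Pool.Agent.MP_9207e0_ag.e3.SpecB

/-! The action of `Γ(5)` on the second map. -/

set_option linter.unusedSectionVars false
set_option linter.unusedVariables false

namespace Pool.Agent.MP_9207e0_ag.e3

open UpperHalfPlane Complex Filter Asymptotics Matrix Pool.Agent.MP_9207e0_ag.hg
open scoped Real MatrixGroups Manifold Classical Kronecker

namespace Lc2

lemma tr (h5 : S25Stmt) {A B C Γ : M2} {k : ℤ} (hA : 0 < A.det) (hB : 0 < B.det) (hC : 0 < C.det)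
    (hk : k ≠ 0) (hΓ : Γ.det = 1) (h25 : 25 ∣ Γ 1 0) (e : A * B = k • (Γ * C)) (τ : ℍ) :
    ss (mob A (mob B τ)) = ss (mob C τ) := by
  have h1 : 0 < Γ.det := by rw [hΓ]; exact one_pos
  have h2 : 0 < (Γ * C).det := by rw [Matrix.det_mul]; exact mul_pos h1 hC
  rw [← mob_mul hA hB, e, mob_smul h2 hk, mob_mul h1 hC]
  have h3 := mob_SL ⟨Γ, hΓ⟩ (mob C τ)
  have h4 := h5 ⟨Γ, hΓ⟩ h25 (mob C τ)
  rw [← h3] at h4
  exact h4

lemma pos_dg {a d : ℤ} (h : 0 < a * d) : 0 < (dg a d).det := by rwa [det_dg]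

lemma pos3 : 0 < (!![1, 5; 0, 10] : M2).det := by simp [Matrix.det_fin_two]

lemma shape (g : SL2) (h1 : 5 ∣ (g : M2) 0 1) (h2 : 5 ∣ (g : M2) 1 0) :
    ∃ a b c d : ℤ, (g : M2) = !![a, 5 * b; 5 * c, d] ∧ a * d - 25 * b * c = 1 := by
  obtain ⟨b, hb⟩ := h1
  obtain ⟨c, hc⟩ := h2
  have h := det_SL g
  rw [Matrix.det_fin_two, hb, hc] at h
  refine ⟨(g : M2) 0 0, b, c, (g : M2) 1 1, ?_, by linear_combination h⟩
  rw [← hb, ← hc]
  exact Matrix.eta_fin_two _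

lemma cancel {u v : ℍ → ℂ} (hu : Hol u) (hv : Hol v) (h0 : u ≠ 0) (h : ∀ τ, u τ * v τ = 0)
    (τ : ℍ) : v τ = 0 := by
  by_contra hc
  exact hu.mul_ne_zero hv h0 (fun e => hc (by rw [e]; rfl)) (funext h)

lemma root1 (h5 : S25Stmt) (hE : E50Stmt) (τ : ℍ) :
    (s0 τ * s1 τ) ^ 2 + 5 * (s0 τ + s1 τ) * (s0 τ * s1 τ) + 5 * (s0 τ * s1 τ) =
      (s0 τ + s1 τ) ^ 3 := by
  have h := hE (mob (dg 1 5) τ)
  rwa [tr h5 (C := dg 2 5) (Γ := 1) (k := 1) (pos_dg (by norm_num)) (pos_dg (by norm_num))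
    (pos_dg (by norm_num)) one_ne_zero Matrix.det_one (by simp) (by simp [dg])] at h

lemma root2 (h5 : S25Stmt) (hE : E50Stmt) (τ : ℍ) :
    (s2 τ * s0 τ) ^ 2 + 5 * (s2 τ + s0 τ) * (s2 τ * s0 τ) + 5 * (s2 τ * s0 τ) =
      (s2 τ + s0 τ) ^ 3 := by
  have h := hE (mob (dg 1 10) τ)
  rwa [tr h5 (C := dg 1 5) (Γ := 1) (k := 2) (pos_dg (by norm_num)) (pos_dg (by norm_num))
    (pos_dg (by norm_num)) two_ne_zero Matrix.det_one (by simp) (by simp [dg])] at h

lemma root3 (h5 : S25Stmt) (hE : E50Stmt) (τ : ℍ) :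
    (s3 τ * s0 τ) ^ 2 + 5 * (s3 τ + s0 τ) * (s3 τ * s0 τ) + 5 * (s3 τ * s0 τ) =
      (s3 τ + s0 τ) ^ 3 := by
  have h := hE (mob !![1, 5; 0, 10] τ)
  rwa [tr h5 (C := dg 1 5) (Γ := !![1, 1; 0, 1]) (k := 2) (pos_dg (by norm_num)) pos3
    (pos_dg (by norm_num)) two_ne_zero (by simp [Matrix.det_fin_two]) (by simp)
    (by simp [dg])] at h

lemma gr_F (h0 : QX0) (h1 : QX1) : Gr (-1) (qq * ss - 1) := by
  have a1 : Gr 0 (1 : ℍ → ℂ) := gr_const 1
  have a2 : Gr 0 (-1 - qq + qq ^ 4 + qq ^ 6) := by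
    have := h0.poly (-1 - Polynomial.X + Polynomial.X ^ 4 + Polynomial.X ^ 6)
    simpa using this
  have a3 : Cg 1 (1 - qq - qq ^ 2 + qq ^ 5 + qq ^ 7) 1 := h0.of_eq a1 a2 (by ring)
  have a4 := (h0.trans (h0.mono (by norm_num) h1.s) a3).2.2
  simpa using a4

lemma lim_q (h0 : QX0) : Tendsto qq atImInfty (nhds 0) := by
  have a1 : Cg 1 qq 0 := h0.of_eq (gr_const 0) (gr_const 1) (by ext τ; simp)
  have a2 := a1.2.2
  rw [sub_zero] at a2
  exact h0.lim (by norm_num) a2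

lemma lim_up (hB : QB) (h0 : QX0) (h1 : QX1) {a b d : ℤ} (ha : 0 < a) (hd : 0 < d) :
    Tendsto (fun τ => qq (mob !![a, b; 0, d] τ) * ss (mob !![a, b; 0, d] τ)) atImInfty
      (nhds 1) := by
  have a1 := hB.gr_upper (b := b) ha hd (gr_F h0 h1)
  have a2 : (-1 : ℝ) * a / d < 0 := by
    have : (0 : ℝ) < a := by exact_mod_cast ha
    have : (0 : ℝ) < d := by exact_mod_cast hd
    exact div_neg_of_neg_of_pos (by linarith) (by assumption)
  have a3 := (h0.lim a2 a1).add_const 1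
  simpa using a3

lemma q_half (τ : ℍ) : qq (mob !![2, 1; 0, 2] τ) = -qq τ := by
  have h : 0 < (!![2, 1; 0, 2] : M2).det := by simp [Matrix.det_fin_two]
  unfold qq ee
  rw [coe_mob h]
  have e : 2 * (π : ℂ) * Complex.I * ((((!![2, 1; 0, 2] : M2) 0 0 : ℤ) * (τ : ℂ) +
      ((!![2, 1; 0, 2] : M2) 0 1 : ℤ)) / (((!![2, 1; 0, 2] : M2) 1 0 : ℤ) * (τ : ℂ) +
      ((!![2, 1; 0, 2] : M2) 1 1 : ℤ))) = 2 * π * Complex.I * τ + π * Complex.I := by
    simp only [Matrix.of_apply, Matrix.cons_val', Matrix.cons_val_zero, Matrix.cons_val_one,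
      Matrix.cons_val_fin_one]
    push_cast
    ring
  rw [e, Complex.exp_add, Complex.exp_pi_mul_I]
  ring

lemma lims (hB : QB) (h0 : QX0) (h1 : QX1) (h5 : S25Stmt) :
    Tendsto (fun τ => qq τ ^ 4 * s1 (mob (dg 10 1) τ)) atImInfty (nhds 1) ∧
    Tendsto (fun τ => qq τ * s2 (mob (dg 10 1) τ)) atImInfty (nhds 1) ∧
    Tendsto (fun τ => -qq τ * s3 (mob (dg 10 1) τ)) atImInfty (nhds 1) := by
  refine ⟨(lim_up hB h0 h1 (a := 4) (b := 0) (d := 1) (by norm_num) (by norm_num)).congr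
    fun τ => ?_, (lim_up hB h0 h1 (a := 1) (b := 0) (d := 1) (by norm_num) (by norm_num)).congr
    fun τ => ?_, (lim_up hB h0 h1 (a := 2) (b := 1) (d := 2) (by norm_num) (by norm_num)).congr
    fun τ => ?_⟩
  · have e1 : qq (mob !![4, 0; 0, 1] τ) = qq τ ^ 4 := h0.q_dg 4 τ (by norm_num)
    rw [e1, s1, tr h5 (C := !![4, 0; 0, 1]) (Γ := 1) (k := 5) (pos_dg (by norm_num))
      (pos_dg (by norm_num)) (by simp [Matrix.det_fin_two]) (by norm_num) Matrix.det_one (by simp)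
      (by simp [dg])]
  · have e1 : qq (mob !![1, 0; 0, 1] τ) = qq τ ^ 1 := h0.q_dg 1 τ (by norm_num)
    rw [e1, pow_one, s2, tr h5 (C := !![1, 0; 0, 1]) (Γ := 1) (k := 10) (pos_dg (by norm_num))
      (pos_dg (by norm_num)) (by simp [Matrix.det_fin_two]) (by norm_num) Matrix.det_one (by simp)
      (by simp [dg])]
  · rw [q_half, s3, tr h5 (C := !![2, 1; 0, 2]) (Γ := 1) (k := 5) pos3
      (pos_dg (by norm_num)) (by simp [Matrix.det_fin_two]) (by norm_num) Matrix.det_one (by simp)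
      (by simp [dg])]

lemma distinct (hB : QB) (h0 : QX0) (h1 : QX1) (h5 : S25Stmt) :
    s1 - s2 ≠ 0 ∧ s1 - s3 ≠ 0 ∧ s2 - s3 ≠ 0 := by
  obtain ⟨l1, l2, l3⟩ := lims hB h0 h1 h5
  have lq := (lim_q h0).pow 3
  refine ⟨fun e => ?_, fun e => ?_, fun e => ?_⟩
  · rw [sub_eq_zero.1 e] at l1
    have a := tendsto_nhds_unique l1 ((lq.mul l2).congr fun τ => by ring)
    norm_num at a
  · rw [sub_eq_zero.1 e] at l1
    have a := tendsto_nhds_unique l1 ((lq.mul l3).neg.congr fun τ => by ring)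
    norm_num at a
  · rw [sub_eq_zero.1 e] at l2
    have a := tendsto_nhds_unique l2 (l3.neg.congr fun τ => by ring)
    norm_num at a

lemma cubic (hB : QB) (h2 : ETA2) (h0 : QX0) (h1 : QX1) (h5 : S25Stmt) (hE : E50Stmt) (τ : ℍ)
    (Z : ℂ) : (s0 τ + Z) ^ 3 - (s0 τ * Z) ^ 2 - 5 * (s0 τ + Z) * (s0 τ * Z) -
    5 * (s0 τ * Z) = (Z - s1 τ) * (Z - s2 τ) * (Z - s3 τ) := by
  have hs : Hol ss := h2.hols.2.2.2.1
  have x0 : Hol s0 := hs.comp_mob (pos_dg (by norm_num))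
  have x1 : Hol s1 := hs.comp_mob (pos_dg (by norm_num))
  have x2 : Hol s2 := hs.comp_mob (pos_dg (by norm_num))
  have x3 : Hol s3 := hs.comp_mob pos3
  obtain ⟨d1, d2, d3⟩ := distinct hB h0 h1 h5
  have xA : Hol (s0 * s0 + s0 + s0) := ((x0.mul x0).add x0).add x0
  have xB : Hol (s0 * s0 + s0 * s0 + (s0 + s0 + s0 + s0 + s0)) :=
    ((x0.mul x0).add (x0.mul x0)).add ((((x0.add x0).add x0).add x0).add x0)
  have p12 := cancel (x1.sub x2) (((((x1.mul x1).add (x1.mul x2)).add (x2.mul x2)).sub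
    (xA.mul (x1.add x2))).sub xB) d1 fun σ => by
      simp only [Pi.add_apply, Pi.sub_apply, Pi.mul_apply]
      linear_combination root2 h5 hE σ - root1 h5 hE σ
  have p13 := cancel (x1.sub x3) (((((x1.mul x1).add (x1.mul x3)).add (x3.mul x3)).sub
    (xA.mul (x1.add x3))).sub xB) d2 fun σ => by
      simp only [Pi.add_apply, Pi.sub_apply, Pi.mul_apply]
      linear_combination root3 h5 hE σ - root1 h5 hE σ
  have p23 := cancel (x2.sub x3) (((x1.add x2).add x3).sub xA) d3 fun σ => by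
    have a := p12 σ
    have b := p13 σ
    simp only [Pi.add_apply, Pi.sub_apply, Pi.mul_apply] at a b ⊢
    linear_combination a - b
  have a := p12 τ
  have b := p23 τ
  simp only [Pi.add_apply, Pi.sub_apply, Pi.mul_apply] at a b
  linear_combination Z ^ 2 * b + (Z - s1 τ) * (a - (s1 τ + s2 τ) * b) - root1 h5 hE τ -
    s1 τ ^ 2 * b

end Lc2

open Lc2 in
theorem lc2 (hB : QB) (h2 : ETA2) (h0 : QX0) (h1 : QX1) (h5 : S25Stmt) (hE : E50Stmt) : LC2 where
  curve τ := root1 h5 hE τ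
  ne τ := mul_ne_zero (h2.nes _).2.2.2.1 (h2.nes _).2.2.2.1
  cubic := cubic hB h2 h0 h1 h5 hE
  inv g b1 b2 τ := by
    obtain ⟨a, b, c, d, hg, hd⟩ := shape g b1 b2
    rw [← mob_SL]
    refine tr h5 (Γ := !![a, b; 25 * c, d]) (k := 1) (pos_dg (by norm_num)) (det_SL_pos g)
      (pos_dg (by norm_num)) one_ne_zero ?_ (by simp) ?_ τ
    · rw [Matrix.det_fin_two_of]; linear_combination hd
    · rw [hg]
      ext i j
      fin_cases i <;> fin_cases j <;> simp [dg, Matrix.mul_apply, Fin.sum_univ_two] <;> ring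
  one g b1 b2 b3 τ := by
    obtain ⟨a, b, c, d, hg, hd⟩ := shape g b1 b2
    obtain ⟨e, rfl⟩ : ∃ e, c = 2 * e := by
      rw [hg] at b3
      have : (2 : ℤ) ∣ 5 * c := by simpa using b3
      exact ⟨c / 2, by omega⟩
    rw [← mob_SL]
    refine tr h5 (Γ := !![a, 2 * b; 25 * e, d]) (k := 1) (pos_dg (by norm_num)) (det_SL_pos g)
      (pos_dg (by norm_num)) one_ne_zero ?_ (by simp) ?_ τ
    · rw [Matrix.det_fin_two_of]; linear_combination hd
    · rw [hg]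
      ext i j
      fin_cases i <;> fin_cases j <;> simp [dg, Matrix.mul_apply, Fin.sum_univ_two] <;> ring
  two g b1 b2 b3 τ := by
    obtain ⟨a, b, c, d, hg, hd⟩ := shape g b1 b2
    obtain ⟨e, rfl⟩ : ∃ e, d = 2 * e := by
      rw [hg] at b3
      have : (2 : ℤ) ∣ d := by simpa using b3
      exact this
    rw [← mob_SL]
    refine tr h5 (Γ := !![2 * a, b; 25 * c, e]) (k := 1) (pos_dg (by norm_num)) (det_SL_pos g)
      (pos_dg (by norm_num)) one_ne_zero ?_ (by simp) ?_ τ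
    · rw [Matrix.det_fin_two_of]; linear_combination hd
    · rw [hg]
      ext i j
      fin_cases i <;> fin_cases j <;> simp [dg, Matrix.mul_apply, Fin.sum_univ_two] <;> ring
  three g b1 b2 b3 b4 τ := by
    obtain ⟨a, b, c, d, hg, hd⟩ := shape g b1 b2
    obtain ⟨e, rfl⟩ : ∃ e, d = 25 * c + 2 * e := by
      rw [hg] at b3 b4
      have c3 : ¬(2 : ℤ) ∣ 5 * c := fun h => b3 h
      have c4 : ¬(2 : ℤ) ∣ d := fun h => b4 h
      exact ⟨(d - 25 * c) / 2, by omega⟩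
    rw [← mob_SL]
    refine tr h5 (Γ := !![2 * a, b - a; 25 * c, e]) (k := 1) (pos_dg (by norm_num)) (det_SL_pos g)
      pos3 one_ne_zero ?_ (by simp) ?_ τ
    · rw [Matrix.det_fin_two_of]; linear_combination hd
    · rw [hg]
      ext i j
      fin_cases i <;> fin_cases j <;> simp [dg, Matrix.mul_apply, Fin.sum_univ_two] <;> ring
  w ω hω b1 b2 b3 b4 τ := by
    have hpos : 0 < ω.det := by rw [hω]; norm_num
    obtain ⟨a, ha⟩ := b1
    obtain ⟨d, hd⟩ := b2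
    obtain ⟨c, hc⟩ := b3
    obtain ⟨b, hb⟩ := b4
    have hg : ω = !![2 * a, 5 * b; 10 * c, 2 * d] := by
      rw [← ha, ← hb, ← hc, ← hd]; exact Matrix.eta_fin_two _
    have h : 2 * a * d - 25 * b * c = 1 := by
      rw [Matrix.det_fin_two, ha, hb, hc, hd] at hω
      linarith
    constructor
    · refine tr h5 (Γ := !![a, b; 25 * c, 2 * d]) (k := 1) (pos_dg (by norm_num)) hpos
        (pos_dg (by norm_num)) one_ne_zero ?_ (by simp) ?_ τ
      · rw [Matrix.det_fin_two_of]; linear_combination h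
      · rw [hg]
        ext i j
        fin_cases i <;> fin_cases j <;> simp [dg, Matrix.mul_apply, Fin.sum_univ_two] <;> ring
    · refine tr h5 (Γ := !![2 * a, b; 25 * c, d]) (k := 2) (pos_dg (by norm_num)) hpos
        (pos_dg (by norm_num)) two_ne_zero ?_ (by simp) ?_ τ
      · rw [Matrix.det_fin_two_of]; linear_combination h
      · rw [hg]
        ext i j
        fin_cases i <;> fin_cases j <;> simp [dg, Matrix.mul_apply, Fin.sum_univ_two] <;> ring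

end Pool.Agent.MP_9207e0_ag.e3
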