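import Pool.Agent.MP_9207e0_ag.e3.SpecB
import Pool.Agent.MP_9207e0_ag.hg.App

/-! The coordinates are modular functions of level ten with rational expansions. -/

set_option linter.unusedSectionVars false
set_option linter.unusedVariables false

namespace Pool.Agent.MP_9207e0_ag.e3

open UpperHalfPlane Complex Filter Asymptotics Matrix Pool.Agent.MP_9207e0_ag.hg
open scoped Real MatrixGroups Manifold Classical Kronecker

namespace Modb

lemma dg_pos {a d : ℤ} (ha : 0 < a) (hd : 0 < d) : 0 < (dg a d).det := by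
  rw [det_dg]
  exact mul_pos ha hd

lemma conj {a d : ℤ} (ha : 0 < a) (hd : 0 < d) (g : SL2) {b' c' : ℤ}
    (hb : b' * d = a * (g : M2) 0 1) (hc : c' * a = d * (g : M2) 1 0) :
    ∃ g' : SL2, (g' : M2) 1 0 = c' ∧ ∀ τ, mob (dg a d) (g • τ) = g' • mob (dg a d) τ := by
  have h1 := Orb.det2 g
  have h2 : (g : M2) 0 0 * (g : M2) 1 1 - b' * c' = 1 := by
    apply mul_left_cancel₀ (mul_pos ha hd).ne'
    linear_combination a * d * h1 - c' * a * hb - a * (g : M2) 0 1 * hc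
  refine ⟨Orb.sl _ _ _ _ h2, rfl, fun τ => ?_⟩
  rw [← mob_SL, ← mob_SL, ← mob_mul (dg_pos ha hd) (det_SL_pos _),
    ← mob_mul (det_SL_pos _) (dg_pos ha hd), Orb.coe_sl]
  congr 1
  refine Orb.ext2 ?_ ?_ ?_ ?_
  · simp [Orb.mul2, dg, mul_comm]
  · simp [Orb.mul2, dg, hb]
  · simp [Orb.mul2, dg, hc]
  · simp [Orb.mul2, dg, mul_comm]

lemma gam_dvd {N : ℕ} {g : SL2} (hg : g ∈ Gam N) :
    (N : ℤ) ∣ (g : M2) 0 1 ∧ (N : ℤ) ∣ (g : M2) 1 0 := by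
  rw [CongruenceSubgroup.Gamma_mem] at hg
  exact ⟨(ZMod.intCast_zmod_eq_zero_iff_dvd _ N).1 hg.2.1,
    (ZMod.intCast_zmod_eq_zero_iff_dvd _ N).1 hg.2.2.1⟩

/-- Invariance under the matrices that are diagonal modulo ten. -/
def Dv (w : ℍ → ℂ) : Prop :=
  ∀ g : SL2, 10 ∣ (g : M2) 0 1 → 10 ∣ (g : M2) 1 0 → ∀ τ, w (g • τ) = w τ

lemma md_of (hB : QB) {N : ℕ} {w : ℍ → ℂ} {A : M2} (hw : w ∈ Mod N) (hA : 0 < A.det)
    (hi : Dv fun τ => w (mob A τ)) : (fun τ => w (mob A τ)) ∈ Mod 10 :=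
  ⟨hw.1.comp_mob hA, fun g hg => hi g (gam_dvd hg).1 (gam_dvd hg).2, (hB.mod_mob hA hw).2.2⟩

lemma ratL_sub {k : ℕ} {c c' : LS} (h : IsSub k 1 c c') (hc : RatL c) : RatL c' := by
  intro m
  by_cases hm : (k : ℤ) ∣ m
  · obtain ⟨n, rfl⟩ := hm
    rw [h.1, _root_.one_zpow, one_mul]
    exact hc n
  · exact ⟨0, by rw [h.2 m hm]; simp⟩

lemma rq_dg (hA : QA) {h h' k : ℕ} {w : ℍ → ℂ} {a d : ℤ} (h1 : 0 < h) (h2 : 0 < h') (hk : 0 < k)
    (ha : 0 < a) (hd : 0 < d) (e : a * h' = k * (h * d)) (hw : RQ h w) :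
    RQ h' fun τ => w (mob (dg a d) τ) := by
  obtain ⟨c, hc, hr⟩ := hw
  obtain ⟨c', hs⟩ := hA.exists_sub k 1 c hk
  refine ⟨c', hA.comp (b := 0) h1 h2 ha hd e hc ?_, ratL_sub hs hr⟩
  simpa [ee] using hs

lemma rq_mul (hA : QA) {h : ℕ} {a b : ℍ → ℂ} (h0 : 0 < h) (ha : RQ h a) (hb : RQ h b) :
    RQ h (a * b) := by
  obtain ⟨K, hK⟩ := hA.ratL
  obtain ⟨c, h1, h2⟩ := ha
  obtain ⟨d, h3, h4⟩ := hb
  exact ⟨_, hA.mul h0 h1 h3, (hK _).1 (mul_mem ((hK _).2 h2) ((hK _).2 h4))⟩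

lemma rq_add (hA : QA) {h : ℕ} {a b : ℍ → ℂ} (ha : RQ h a) (hb : RQ h b) : RQ h (a + b) := by
  obtain ⟨K, hK⟩ := hA.ratL
  obtain ⟨c, h1, h2⟩ := ha
  obtain ⟨d, h3, h4⟩ := hb
  exact ⟨_, hA.add h1 h3, (hK _).1 (add_mem ((hK _).2 h2) ((hK _).2 h4))⟩

lemma rq_neg (hA : QA) {h : ℕ} {a : ℍ → ℂ} (ha : RQ h a) : RQ h (-a) := by
  obtain ⟨K, hK⟩ := hA.ratL
  obtain ⟨c, h1, h2⟩ := ha
  exact ⟨_, hA.neg h1, (hK _).1 (neg_mem ((hK _).2 h2))⟩

lemma rq_pow (hA : QA) {h : ℕ} {a : ℍ → ℂ} (h0 : 0 < h) (ha : RQ h a) (n : ℕ) : RQ h (a ^ n) := by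
  obtain ⟨K, hK⟩ := hA.ratL
  obtain ⟨c, h1, h2⟩ := ha
  exact ⟨_, hA.pow n h0 h1, (hK _).1 (pow_mem ((hK _).2 h2) n)⟩

lemma rq_quot (hA : QA) {h : ℕ} {a b g : ℍ → ℂ} (h0 : 0 < h) (ha : RQ h a) (hb : RQ h b)
    (hn : ∀ τ, b τ ≠ 0) (hg : Hol g) (e : ∀ τ, g τ = a τ / b τ) : RQ h g := by
  obtain ⟨K, hK⟩ := hA.ratL
  obtain ⟨c, h1, h2⟩ := ha
  obtain ⟨d, h3, h4⟩ := hb
  refine ⟨_, hA.quot h0 h1 h3 (fun h => hn UpperHalfPlane.I (congrFun h _)) hg ?_,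
    (hK _).1 (div_mem ((hK _).2 h2) ((hK _).2 h4))⟩
  ext τ
  rw [Pi.mul_apply, e, div_mul_cancel₀ _ (hn τ)]

lemma rq_down (hA : QA) {w : ℍ → ℂ} (hw : RQ 24 w) (hT : ∀ τ, w (ModularGroup.T • τ) = w τ) :
    RQ 1 w := by
  obtain ⟨c, h1, h2⟩ := hw
  obtain ⟨c1, h3⟩ := hA.exists_q (h := 1) one_pos (hA.hol (by norm_num) h1)
    (fun τ => by simpa using hT τ) (hA.expG (by norm_num) h1)
  obtain ⟨c2, h4⟩ := hA.exists_sub 24 1 c1 (by norm_num)
  have h5 := hA.unique (by norm_num) ((hA.level one_pos (by norm_num) h4).mpr h3) h1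
  refine ⟨c1, h3, fun n => ?_⟩
  have := h4.1 n
  rw [_root_.one_zpow, one_mul, h5] at this
  exact this ▸ h2 _

lemma rq_ed (hA : QA) (hB : QB) {d : ℕ} (hd : 0 < d) : RQ 24 (ed d) := by
  obtain ⟨c, h1, h2, -⟩ := hB.et_q
  exact rq_dg hA (k := d) (by norm_num) (by norm_num) hd (by exact_mod_cast hd) one_pos
    (by push_cast; ring) ⟨c, h1, h2⟩

lemma T10 : (ModularGroup.T : SL2).1 1 0 = 0 := rfl

lemma hh_gr (h0 : QX0) (h1 : QX1) : Gr 0 fun τ => hh τ - ee (-(τ : ℂ)) := by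
  have z : Cg 1 qq 0 := h0.of_eq (r := 1) (gr_const 0) (gr_const 1) (by simp)
  have one : Cg 1 1 1 := by simpa using h0.num 1 1
  have two : Cg 1 2 2 := by simpa using h0.num 1 2
  have p := h0.sub (h0.sub (h0.add (h0.add (h0.add (h0.add one z) (h0.pow 2 z))
    (h0.mul two (h0.pow 3 z))) (h0.mul two (h0.pow 4 z))) (h0.mul two (h0.pow 5 z))) (h0.pow 6 z)
  have p2 := h0.sub (h0.trans (h0.mono (by norm_num) h1.h) p) one
  have e : qq * hh - 1 = qq ^ 1 * fun τ => hh τ - ee (-(τ : ℂ)) := by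
    ext τ
    have : ee τ * ee (-(τ : ℂ)) = 1 := by
      rw [ee, ee, ← Complex.exp_add, mul_neg, add_neg_cancel, Complex.exp_zero]
    simp only [Pi.sub_apply, Pi.mul_apply, Pi.one_apply, pow_one, qq, mul_sub, this]
  rw [e] at p2
  have := h0.shift (k := 1) (l := 0) (a := fun τ => hh τ - ee (-(τ : ℂ))) (by simpa using p2)
  simpa using this

lemma pole (hB : QB) (h2 : ETA2) (hC : CUSP) (h0 : QX0) (h1 : QX1) (hH : H10) :
    Pole fun τ => hh (mob (dg 1 10) τ) := by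
  have hp : 0 < (dg 1 10).det := dg_pos one_pos (by norm_num)
  refine ⟨h2.hols.1.comp_mob hp, ?_, ?_, fun g hg => ?_⟩
  · rintro g ⟨β, hβ⟩ τ
    obtain ⟨g', e1, e2⟩ := conj one_pos (by norm_num : (0 : ℤ) < 10) g (b' := β)
      (c' := 10 * (g : M2) 1 0) (by rw [hβ]; ring) (by ring)
    simp only [e2]
    exact hH.inv g' ⟨_, e1⟩ _
  · have := hB.gr_upper (a := 1) (b := 0) (d := 10) one_pos (by norm_num) (hh_gr h0 h1)
    rw [zero_mul, zero_div] at this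
    refine IsBigO.congr_left this fun τ => ?_
    change hh (mob (dg 1 10) τ) - ee (-(mob (dg 1 10) τ : ℂ)) = _
    rw [coe_mob_dg (by norm_num)]
    congr 2
    push_cast
    ring
  · obtain ⟨B, ⟨hB1, γ, e⟩, -⟩ := orb.herm 10 (dg 1 10 * (g : M2)) (by norm_num)
      (by rw [Matrix.det_mul, det_dg, det_SL]; norm_num)
    obtain ⟨b1, b2, b3, b4, b5⟩ := (orb.mem_herm 10 B).1 hB1
    have b6 : 0 < B 1 1 := by omega
    have e00 := congrFun (congrFun e 0) 0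
    have e01 := congrFun (congrFun e 0) 1
    have e10 := congrFun (congrFun e 1) 0
    simp only [Orb.mul2, b1, dg, Matrix.of_apply, Matrix.cons_val', Matrix.cons_val_zero,
      Matrix.cons_val_one, Matrix.cons_val_fin_one, one_mul, zero_mul, mul_zero, add_zero,
      zero_add] at e00 e01 e10
    have hn : ¬10 ∣ (γ : M2) 1 0 := by
      rintro ⟨m, hm⟩
      have c1 : (g : M2) 1 0 = m * B 0 0 := by
        rw [hm] at e10
        linarith
      have c2 : B 0 0 ∣ 1 := ⟨(γ : M2) 0 0 * (g : M2) 1 1 - (g : M2) 0 1 * m, by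
        have := Orb.det2 g
        rw [c1, e00] at this
        linear_combination -this⟩
      have c3 : B 0 0 = 1 := Int.eq_one_of_dvd_one b2.le c2
      rw [c3, one_mul] at b5
      rw [c3, mul_one] at e00
      refine hg ⟨B 0 1, (γ : M2) 0 1, ?_⟩
      rw [e01, e00, b5]
      push_cast
      ring
    have := hB.gr_upper (a := B 0 0) (b := B 0 1) (d := B 1 1) b2 b6 (hC.hh γ hn)
    rw [zero_mul, zero_div] at this
    refine IsBigO.congr_left this fun τ => ?_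
    have eB : B = !![B 0 0, B 0 1; 0, B 1 1] := by
      rw [← b1]
      exact Matrix.eta_fin_two B
    have dB : 0 < B.det := by
      rw [Matrix.det_fin_two, b1, b5]
      norm_num
    rw [← eB, ← mob_SL, ← mob_SL, ← mob_mul (det_SL_pos _) dB, ← e, mob_mul hp (det_SL_pos _)]

end Modb

open Modb in
theorem modb (hA : QA) (hB : QB) (hJ : JC) (h2 : ETA2) (hC : CUSP) (h0 : QX0) (h1 : QX1)
    (hH : H10) (h5 : S25Stmt) : MODB := by
  have p24 : 0 < 24 := by norm_num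
  have p10 : 0 < 10 := by norm_num
  have mh : hh ∈ Mod 10 :=
    ⟨h2.hols.1, fun g hg => hH.inv g (gam_dvd hg).2, fun g => (hC.exp g).1⟩
  have ms : ss ∈ Mod 25 :=
    ⟨h2.hols.2.2.2.1, fun g hg => h5 g (gam_dvd hg).2, fun g => (hC.exp g).2⟩
  have qh : RQ 1 hh := rq_down hA (rq_quot hA p24
    (rq_mul hA p24 (rq_ed hA hB (d := 2) (by norm_num))
      (rq_pow hA p24 (rq_ed hA hB (d := 5) (by norm_num)) 5))
    (rq_mul hA p24 (rq_ed hA hB (d := 1) (by norm_num))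
      (rq_pow hA p24 (rq_ed hA hB (d := 10) (by norm_num)) 5))
    (fun τ => mul_ne_zero (h2.ne 1 τ) (pow_ne_zero 5 (h2.ne 10 τ))) h2.hols.1 fun τ => rfl)
    (hH.inv _ (by rw [T10]; exact dvd_zero _))
  have qs : RQ 1 ss := rq_down hA (rq_quot hA p24 (rq_ed hA hB (d := 1) (by norm_num))
    (rq_ed hA hB (d := 25) (by norm_num)) (h2.ne 25) h2.hols.2.2.2.1 fun τ => rfl)
    (h5 _ (by rw [T10]; exact dvd_zero _))
  have d0 : Dv hh := fun g _ hc => hH.inv g hc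
  have d1 : Dv fun τ => hh (mob (dg 1 2) τ) := by
    rintro g ⟨β, hβ⟩ ⟨γ, hγ⟩ τ
    obtain ⟨g', e1, e2⟩ := conj one_pos two_pos g (b' := 5 * β) (c' := 10 * (2 * γ))
      (by rw [hβ]; ring) (by rw [hγ]; ring)
    simp only [e2]
    exact hH.inv g' ⟨_, e1⟩ _
  have d2 : Dv fun τ => ss (mob (dg 1 5) τ) := by
    rintro g ⟨β, hβ⟩ ⟨γ, hγ⟩ τ
    obtain ⟨g', e1, e2⟩ := conj one_pos (by norm_num : (0 : ℤ) < 5) g (b' := 2 * β)
      (c' := 25 * (2 * γ)) (by rw [hβ]; ring) (by rw [hγ]; ring)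
    simp only [e2]
    exact h5 g' ⟨_, e1⟩ _
  have d3 : Dv fun τ => ss (mob (dg 2 5) τ) := by
    rintro g ⟨β, hβ⟩ ⟨γ, hγ⟩ τ
    obtain ⟨g', e1, e2⟩ := conj two_pos (by norm_num : (0 : ℤ) < 5) g (b' := 4 * β)
      (c' := 25 * γ) (by rw [hβ]; ring) (by rw [hγ]; ring)
    simp only [e2]
    exact h5 g' ⟨_, e1⟩ _
  have m1 := md_of hB mh (dg_pos one_pos two_pos) d1
  have m2 := md_of hB ms (dg_pos one_pos (by norm_num)) d2
  have m3 := md_of hB ms (dg_pos two_pos (by norm_num)) d3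
  have q0 : RQ 10 hh := hB.rq_level p10 (one_dvd _) qh
  have q1 : RQ 10 fun τ => hh (mob (dg 1 2) τ) :=
    rq_dg hA (k := 5) one_pos p10 (by norm_num) one_pos two_pos (by norm_num) qh
  have q2 : RQ 10 fun τ => ss (mob (dg 1 5) τ) :=
    rq_dg hA (k := 2) one_pos p10 (by norm_num) one_pos (by norm_num) (by norm_num) qs
  have q3 : RQ 10 fun τ => ss (mob (dg 2 5) τ) :=
    rq_dg hA (k := 4) one_pos p10 (by norm_num) two_pos (by norm_num) (by norm_num) qs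
  have fin : ∀ w, w ∈ Mod 10 → RQ 10 w → w ∈ Mod 10 ∧ IntJ w ∧ RQ 10 w :=
    fun w hw ⟨c, c1, c2⟩ => ⟨hw, hJ.intJ p10 hw c1 (JCm.algL_of_ratL c2), c, c1, c2⟩
  refine ⟨?_, ?_, pole hB h2 hC h0 h1 hH⟩
  · simp only [List.forall_mem_cons, List.not_mem_nil, false_imp_iff, implies_true, and_true]
    exact ⟨fin _ mh q0, fin _ (neg_mem (mul_mem m1 mh)) (rq_neg hA (rq_mul hA p10 q1 q0)),
      fin _ (add_mem m2 m3) (rq_add hA q2 q3), fin _ (mul_mem m2 m3) (rq_mul hA p10 q2 q3),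
      fin _ m2 q2⟩
  · simp only [List.forall_mem_cons, List.not_mem_nil, false_imp_iff, implies_true, and_true]
    refine ⟨d0, fun g hb hc τ => ?_, fun g hb hc τ => ?_, fun g hb hc τ => ?_⟩
    · exact congrArg Neg.neg (congrArg₂ (· * ·) (d1 g hb hc τ) (d0 g hb hc τ))
    · exact congrArg₂ (· + ·) (d2 g hb hc τ) (d3 g hb hc τ)
    · exact congrArg₂ (· * ·) (d2 g hb hc τ) (d3 g hb hc τ)

end Pool.Agent.MP_9207e0_ag.e3
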