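import Pool.Agent.MP_9207e0_ag.e3.SpecB

/-! Module QX0: calculus of congruences of bounded functions modulo powers of `q`. -/

set_option linter.unusedSectionVars false
set_option linter.unusedVariables false

namespace Pool.Agent.MP_9207e0_ag.e3

open UpperHalfPlane Complex Filter Asymptotics Matrix Pool.Agent.MP_9207e0_ag.hg
open scoped Real MatrixGroups Manifold Classical Kronecker

namespace Qx0

lemma norm_qq (τ : ℍ) : ‖qq τ‖ = Real.exp (2 * π * (-1) * τ.im) := by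
  rw [qq, ee, Complex.norm_exp]
  congr 1
  simp

lemma qq_ne (τ : ℍ) : qq τ ≠ 0 := Complex.exp_ne_zero _

lemma norm_qpow (k : ℕ) (τ : ℍ) : ‖qq τ ^ k‖ = Real.exp (2 * π * (-(k : ℝ)) * τ.im) := by
  rw [norm_pow, norm_qq, ← Real.exp_nat_mul]
  congr 1
  ring

lemma gr_qpow (k : ℕ) : Gr (-k) (qq ^ k) :=
  IsBigO.of_bound 1 (Eventually.of_forall fun τ => by
    rw [Pi.pow_apply, norm_qpow, one_mul, Real.norm_of_nonneg (Real.exp_pos _).le])

lemma gr_qinv (k : ℕ) : Gr k (qq ^ k)⁻¹ :=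
  IsBigO.of_bound 1 (Eventually.of_forall fun τ => by
    rw [Pi.inv_apply, Pi.pow_apply, norm_inv, norm_qpow, one_mul,
      Real.norm_of_nonneg (Real.exp_pos _).le, ← Real.exp_neg]
    exact le_of_eq (by congr 1; ring))

lemma gr_sub {κ : ℝ} {a b : ℍ → ℂ} (ha : Gr κ a) (hb : Gr κ b) : Gr κ (a - b) := IsBigO.sub ha hb

lemma gr_neg {κ : ℝ} {a : ℍ → ℂ} (ha : Gr κ a) : Gr κ (-a) := IsBigO.neg_left ha

lemma gr_zero (κ : ℝ) : Gr κ (0 : ℍ → ℂ) := isBigO_zero _ _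

lemma gr_mul_l {κ : ℝ} {a b : ℍ → ℂ} (ha : Gr κ a) (hb : Gr 0 b) : Gr κ (a * b) := by
  simpa only [add_zero] using ha.mul hb

lemma gr_mul_r {κ : ℝ} {a b : ℍ → ℂ} (ha : Gr 0 a) (hb : Gr κ b) : Gr κ (a * b) := by
  simpa only [zero_add] using ha.mul hb

lemma neg_le0 (k : ℕ) : (-(k : ℝ)) ≤ 0 := neg_nonpos.mpr (Nat.cast_nonneg k)

lemma gr0_qpow (k : ℕ) : Gr 0 (qq ^ k) := (gr_qpow k).mono (neg_le0 k)

lemma gr0_q : Gr 0 qq := by simpa only [pow_one] using gr0_qpow 1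

lemma refl (k : ℕ) {a : ℍ → ℂ} (h : Gr 0 a) : Cg k a a :=
  ⟨h, h, by rw [sub_self]; exact gr_zero _⟩

lemma symm {k : ℕ} {a b : ℍ → ℂ} (h : Cg k a b) : Cg k b a :=
  ⟨h.2.1, h.1, by rw [← neg_sub]; exact gr_neg h.2.2⟩

lemma trans {k : ℕ} {a b c : ℍ → ℂ} (h : Cg k a b) (h' : Cg k b c) : Cg k a c :=
  ⟨h.1, h'.2.1, by rw [← sub_add_sub_cancel a b c]; exact h.2.2.add h'.2.2⟩

lemma add {k : ℕ} {a b c d : ℍ → ℂ} (h : Cg k a b) (h' : Cg k c d) : Cg k (a + c) (b + d) :=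
  ⟨h.1.add h'.1, h.2.1.add h'.2.1, by rw [add_sub_add_comm]; exact h.2.2.add h'.2.2⟩

lemma sub {k : ℕ} {a b c d : ℍ → ℂ} (h : Cg k a b) (h' : Cg k c d) : Cg k (a - c) (b - d) :=
  ⟨gr_sub h.1 h'.1, gr_sub h.2.1 h'.2.1, by rw [sub_sub_sub_comm]; exact gr_sub h.2.2 h'.2.2⟩

lemma mul {k : ℕ} {a b c d : ℍ → ℂ} (h : Cg k a b) (h' : Cg k c d) : Cg k (a * c) (b * d) := by
  refine ⟨gr_mul_l h.1 h'.1, gr_mul_l h.2.1 h'.2.1, ?_⟩
  have e : a * c - b * d = (a - b) * c + b * (c - d) := by ring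
  rw [e]
  exact (gr_mul_l h.2.2 h'.1).add (gr_mul_r h.2.1 h'.2.2)

lemma gr_one : Gr 0 (1 : ℍ → ℂ) := gr_const 1

lemma pow {k : ℕ} {a b : ℍ → ℂ} (n : ℕ) (h : Cg k a b) : Cg k (a ^ n) (b ^ n) := by
  induction n with
  | zero => rw [pow_zero, pow_zero]; exact refl k gr_one
  | succ n ih => rw [pow_succ, pow_succ]; exact mul ih h

lemma mono {k l : ℕ} {a b : ℍ → ℂ} (hkl : k ≤ l) (h : Cg l a b) : Cg k a b :=
  ⟨h.1, h.2.1, h.2.2.mono (neg_le_neg (Nat.cast_le.mpr hkl))⟩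

lemma poly (p : Polynomial ℤ) : Gr 0 (Polynomial.aeval qq p) := by
  induction p using Polynomial.induction_on' with
  | add p q hp hq => rw [map_add]; exact hp.add hq
  | monomial n a =>
    rw [Polynomial.aeval_monomial]
    exact gr_mul_l (gr_const (a : ℂ)) (gr0_qpow n)

lemma of_eq {k : ℕ} {a b r : ℍ → ℂ} (hb : Gr 0 b) (hr : Gr 0 r) (e : a = b + qq ^ k * r) :
    Cg k a b := by
  refine ⟨e ▸ hb.add (gr_mul_l (gr0_qpow k) hr), hb, ?_⟩
  rw [e, add_sub_cancel_left]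
  exact gr_mul_l (gr_qpow k) hr

lemma div {k : ℕ} {a b p : ℍ → ℂ} (hp : Gr 0 p) (hb : Gr 0 b⁻¹) (h0 : ∀ τ, b τ ≠ 0)
    (h : Cg k a (p * b)) : Cg k (a / b) p := by
  refine ⟨by rw [div_eq_mul_inv]; exact gr_mul_l h.1 hb, hp, ?_⟩
  have e : a / b - p = (a - p * b) * b⁻¹ := by
    funext τ
    have := h0 τ
    simp only [Pi.sub_apply, Pi.div_apply, Pi.mul_apply, Pi.inv_apply]
    field_simp
  rw [e]
  exact gr_mul_l h.2.2 hb

lemma cancel (k : ℕ) (a : ℍ → ℂ) : a = (qq ^ k * a) * (qq ^ k)⁻¹ := by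
  funext τ
  have := qq_ne τ
  simp only [Pi.mul_apply, Pi.inv_apply, Pi.pow_apply]
  field_simp

lemma shift {k l : ℕ} {a : ℍ → ℂ} (h : Cg (k + l) (qq ^ k * a) 0) : Gr (-l) a := by
  have h1 := h.2.2
  rw [sub_zero] at h1
  have h2 := h1.mul (gr_qinv k)
  rw [← cancel] at h2
  exact h2.mono (le_of_eq (by push_cast; ring))

lemma grow {k : ℕ} {a : ℍ → ℂ} (h : Gr 0 (qq ^ k * a)) : Gr k a := by
  have h2 := gr_mul_r h (gr_qinv k)
  rwa [← cancel] at h2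

lemma coe_dg (d : ℕ) (τ : ℍ) (hd : 0 < d) : (mob (dg d 1) τ : ℂ) = d * τ := by
  rw [coe_mob_dg (by simpa using hd)]
  simp

lemma q_dg (d : ℕ) (τ : ℍ) (hd : 0 < d) : qq (mob (dg d 1) τ) = qq τ ^ d := by
  rw [qq, qq, ee, ee, coe_dg d τ hd, ← Complex.exp_nat_mul]
  congr 1
  ring

lemma comp_dg (hB : QB) {k : ℕ} {a b : ℍ → ℂ} (d : ℕ) (hd : 0 < d) (h : Cg k a b) :
    Cg (k * d) (fun τ => a (mob (dg d 1) τ)) fun τ => b (mob (dg d 1) τ) := by
  have hd' : (0 : ℤ) < d := by exact_mod_cast hd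
  refine ⟨(hB.gr_upper (b := 0) hd' one_pos h.1).mono (le_of_eq (by simp)),
    (hB.gr_upper (b := 0) hd' one_pos h.2.1).mono (le_of_eq (by simp)),
    (hB.gr_upper (b := 0) hd' one_pos h.2.2).mono (le_of_eq (by simp))⟩

lemma lim {κ : ℝ} {a : ℍ → ℂ} (hk : κ < 0) (h : Gr κ a) : Tendsto a atImInfty (nhds 0) := by
  refine IsBigO.trans_tendsto h (Real.tendsto_exp_atBot.comp ?_)
  have h1 : Tendsto (fun τ : ℍ => τ.im) atImInfty atTop := tendsto_comap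
  exact h1.const_mul_atTop_of_neg (mul_neg_of_pos_of_neg (by positivity) hk)

lemma ne {a : ℍ → ℂ} (c : ℂ) (hc : c ≠ 0) (h : Cg 1 a fun _ => c) : a ≠ 0 := by
  rintro rfl
  have h1 := lim (by norm_num) h.2.2
  have h2 : Tendsto ((0 : ℍ → ℂ) - fun _ => c) atImInfty (nhds (0 - c)) := tendsto_const_nhds
  exact hc (by simpa using tendsto_nhds_unique h2 h1)

/-! ### The Euler product -/

lemma mult_tail {q : ℂ} (hq : ‖q‖ < 1) (k : ℕ) :
    Multipliable fun n : ℕ => 1 - q ^ (n + k + 1) := by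
  apply multipliable_one_add_of_summable (f := fun n => -q ^ (n + k + 1))
  simpa only [norm_neg, norm_pow, add_assoc] using
    (summable_nat_add_iff (k + 1)).mpr (summable_geometric_of_lt_one (norm_nonneg _) hq)

lemma tail_le {q : ℂ} (hq : ‖q‖ ≤ 1 / 2) (k : ℕ) :
    ‖∏' n : ℕ, (1 - q ^ (n + k + 1)) - 1‖ ≤ 4 * ‖q ^ (k + 1)‖ := by
  have h0 := norm_nonneg q
  have h1 := (mult_tail (q := q) (by linarith) k).hasProd.tendsto_prod_nat
  refine le_of_tendsto' ((h1.sub_const 1).norm) fun N => ?_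
  have h2 := Finset.norm_prod_one_add_sub_one_le (Finset.range N) fun n => -q ^ (n + k + 1)
  have h3 : ∑ n ∈ Finset.range N, ‖-q ^ (n + k + 1)‖ ≤ 2 * ‖q ^ (k + 1)‖ := by
    refine le_trans ?_ (mul_le_mul_of_nonneg_right (sum_geometric_two_le N) (norm_nonneg _))
    rw [Finset.sum_mul]
    refine Finset.sum_le_sum fun n _ => ?_
    rw [norm_neg, add_assoc, pow_add, norm_mul, norm_pow q n]
    exact mul_le_mul_of_nonneg_right (pow_le_pow_left₀ h0 hq n) (norm_nonneg _)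
  have h4 : ‖q ^ (k + 1)‖ ≤ 1 / 2 := by
    rw [norm_pow, pow_succ]
    exact (mul_le_of_le_one_left h0 (pow_le_one₀ h0 (by linarith))).trans hq
  have h5 := norm_nonneg (q ^ (k + 1))
  have h6 := Real.abs_exp_sub_one_le (x := 2 * ‖q ^ (k + 1)‖)
    (by rw [abs_of_nonneg (by linarith)]; linarith)
  rw [abs_of_nonneg (by linarith : 0 ≤ 2 * ‖q ^ (k + 1)‖)] at h6
  have h7 := Real.exp_le_exp.mpr h3
  have h8 := le_abs_self (Real.exp (2 * ‖q ^ (k + 1)‖) - 1)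
  simp only [← sub_eq_add_neg] at h2
  linarith

/-- The tail of the Euler product. -/
noncomputable def tl (k : ℕ) (τ : ℍ) : ℂ := ∏' n : ℕ, (1 - qq τ ^ (n + k + 1))

lemma q_lim : Tendsto qq atImInfty (nhds 0) := by
  have := gr_qpow 1
  rw [pow_one] at this
  exact lim (by norm_num) this

lemma cg_tl (k : ℕ) : Cg (k + 1) (tl k) 1 := by
  have h1 : Gr (-((k + 1 : ℕ) : ℝ)) (tl k - 1) := by
    refine IsBigO.trans (IsBigO.of_bound 4 ?_) (gr_qpow (k + 1))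
    have h2 := q_lim.norm
    rw [norm_zero] at h2
    filter_upwards [h2.eventually (ge_mem_nhds (by norm_num : (0 : ℝ) < 1 / 2))] with τ hτ
    exact tail_le hτ k
  refine ⟨?_, gr_one, h1⟩
  rw [← sub_add_cancel (tl k) 1]
  exact (h1.mono (neg_le0 _)).add gr_one

lemma norm_lt (τ : ℍ) : ‖qq τ‖ < 1 := by
  rw [norm_qq, Real.exp_lt_one_iff]
  have := τ.im_pos
  have := Real.pi_pos
  nlinarith [mul_pos Real.pi_pos τ.im_pos]

lemma tl_split (k : ℕ) : tl 0 = (∏ n ∈ Finset.range k, (1 - qq ^ (n + 1))) * tl k := by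
  funext τ
  rw [Pi.mul_apply, Finset.prod_apply]
  exact (Multipliable.prod_mul_tprod_nat_mul' (f := fun n => 1 - qq τ ^ (n + 1))
    (mult_tail (norm_lt τ) k)).symm

open Polynomial in
lemma fin_prod : ∃ r : Polynomial ℤ, ∏ n ∈ Finset.range 11, (1 - X ^ (n + 1) : Polynomial ℤ) =
    1 - X - X ^ 2 + X ^ 5 + X ^ 7 + X ^ 12 * r := by
  refine ⟨
    0 - X ^ 2 - 2 * X ^ 3 - X ^ 4 + X ^ 7 + X ^ 8 + X ^ 9 + 2 * X ^ 10 + X ^ 11 + X ^ 12 + X
    ^ 14 - 2 * X ^ 15 - 2 * X ^ 16 - 2 * X ^ 17 - 2 * X ^ 18 - X ^ 19 - X ^ 20 + X ^ 22 + X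
    ^ 23 + 2 * X ^ 24 + 2 * X ^ 25 + 2 * X ^ 26 + 2 * X ^ 27 - X ^ 28 - X ^ 30 - X ^ 31 - 2
    * X ^ 32 - X ^ 33 - X ^ 34 - X ^ 35 + X ^ 38 + 2 * X ^ 39 + X ^ 40 - X ^ 47 - X ^ 49 + X
    ^ 52 + X ^ 53 - X ^ 54, ?_⟩
  simp only [Finset.prod_range_succ, Finset.prod_range_zero]
  ring

lemma cg_eul : Cg 12 (tl 0) (1 - qq - qq ^ 2 + qq ^ 5 + qq ^ 7) := by
  obtain ⟨r, hr⟩ := fin_prod
  have h1 := congrArg (Polynomial.aeval qq) hr
  simp only [map_prod, map_sub, map_add, map_mul, map_pow, map_one, Polynomial.aeval_X] at h1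
  have h2 : Gr 0 (1 - qq - qq ^ 2 + qq ^ 5 + qq ^ 7) :=
    ((gr_sub (gr_sub gr_one gr0_q) (gr0_qpow 2)).add (gr0_qpow 5)).add (gr0_qpow 7)
  have h3 := mul (of_eq h2 (poly r) h1) (cg_tl 11)
  rwa [← tl_split, mul_one] at h3

lemma pe_eq (d : ℕ) (hd : 0 < d) : pe d = fun τ => tl 0 (mob (dg d 1) τ) := by
  funext τ
  have h1 : ∀ σ : ℍ, et σ = ee (σ / 24) * tl 0 σ := by
    intro σ
    have h2 : Function.Periodic.qParam 1 (σ : ℂ) = qq σ := by
      rw [Function.Periodic.qParam, qq, ee]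
      simp
    rw [et, ModularForm.eta, tl]
    simp only [ModularForm.eta_q, h2, add_zero]
    rw [Function.Periodic.qParam, ee]
    congr 2
    push_cast
    ring
  rw [pe, ed, h1, coe_dg d τ hd, mul_right_comm, ee, ee, ← Complex.exp_add]
  have h3 : 2 * (π : ℂ) * Complex.I * (d * τ / 24) + 2 * π * Complex.I * (-(d * τ) / 24) = 0 := by
    ring
  rw [h3, Complex.exp_zero, one_mul]

lemma cg_pe (hB : QB) (d : ℕ) (hd : 0 < d) :
    Cg (12 * d) (pe d) (1 - qq ^ d - qq ^ (2 * d) + qq ^ (5 * d) + qq ^ (7 * d)) := by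
  have h := comp_dg hB d hd cg_eul
  rw [← pe_eq d hd] at h
  refine (congrArg (Cg (12 * d) (pe d)) (funext fun τ => ?_)).mp h
  simp only [Pi.add_apply, Pi.sub_apply, Pi.pow_apply, Pi.one_apply, q_dg d τ hd]
  ring

lemma pe_inv (hB : QB) (d : ℕ) (hd : 0 < d) : Gr 0 (pe d)⁻¹ := by
  have h := comp_dg hB d hd (cg_tl 0)
  rw [← pe_eq d hd] at h
  have hd' : (0 : ℝ) < d := by exact_mod_cast hd
  have h1 := (lim (by simpa using hd) h.2.2).add_const 1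
  have h2 : Tendsto (pe d) atImInfty (nhds 1) := by simpa using h1
  have h3 := (h2.inv₀ one_ne_zero).isBigO_one ℝ
  unfold Gr
  simpa using h3

/-! ### The Eisenstein series -/

lemma isQ_e4 : IsQ 1 ModularForm.E₄
    (HahnSeries.ofPowerSeries ℤ ℂ (qExpansion 1 ModularForm.E₄)) := by
  intro τ
  have h := ModularForm.hasSum_qExpansion ModularForm.E₄ one_pos one_mem_strictPeriods_SL τ
  rw [← (Nat.cast_injective (R := ℤ)).hasSum_iff]
  · refine (congrArg (fun u => HasSum u (ModularForm.E₄ τ)) (funext fun m => ?_)).mp h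
    simp only [Function.comp, HahnSeries.ofPowerSeries_apply_coeff, Function.Periodic.qParam, ee]
    rw [← Complex.exp_nat_mul]
    congr 2
    push_cast
    ring
  · intro n hn
    have h1 : n < 0 := by
      by_contra h2
      exact hn ⟨n.toNat, by simpa using h2⟩
    rw [PowerSeries.coeff_coe, if_pos h1, zero_mul]

lemma isQ_mono (hA : QA) (k : ℕ) (z : ℂ) :
    IsQ 1 (z • qq ^ k) (HahnSeries.single (k : ℤ) z) := by
  have h := hA.smul z (hA.single 1 k)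
  have e1 : (fun τ : ℍ => ee (((k : ℤ) : ℂ) * τ / (1 : ℕ))) = qq ^ k := by
    funext τ
    rw [Pi.pow_apply, qq, ee, ee, ← Complex.exp_nat_mul]
    congr 1
    push_cast
    ring
  have e2 : z • HahnSeries.single (k : ℤ) (1 : ℂ) = (HahnSeries.single (k : ℤ) z : LS) := by
    ext n
    simp [HahnSeries.coeff_single]
  rwa [e1, e2] at h

lemma e4_coeff (m : ℕ) : (qExpansion 1 ModularForm.E₄).coeff m =
    if m = 0 then 1 else 240 * (ArithmeticFunction.sigma 3 m : ℂ) := by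
  rw [EisensteinSeries.E_qExpansion_coeff _ ⟨2, rfl⟩]
  have h : bernoulli 4 = -1 / 30 := by
    rw [bernoulli_eq_bernoulli'_of_ne_one (by norm_num), bernoulli'_four]
  rw [h]
  norm_num

lemma cg_e4 (hA : QA) :
    Cg 4 ModularForm.E₄ (1 + 240 * qq + 2160 * qq ^ 2 + 6720 * qq ^ 3) := by
  have h1 := hA.add isQ_e4 (hA.neg (hA.add (hA.add (hA.add (isQ_mono hA 0 1) (isQ_mono hA 1 240))
    (isQ_mono hA 2 2160)) (isQ_mono hA 3 6720)))
  have e : (1 : ℂ) • qq ^ 0 + (240 : ℂ) • qq ^ 1 + (2160 : ℂ) • qq ^ 2 + (6720 : ℂ) • qq ^ 3 =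
      1 + 240 * qq + 2160 * qq ^ 2 + 6720 * qq ^ 3 := by
    funext τ
    simp
  rw [e, ← sub_eq_add_neg] at h1
  have s1 : ArithmeticFunction.sigma 3 1 = 1 := by decide
  have s2 : ArithmeticFunction.sigma 3 2 = 9 := by decide
  have s3 : ArithmeticFunction.sigma 3 3 = 28 := by decide
  have h2 := hA.gr_of_coeff (-((4 : ℕ) : ℝ)) one_pos h1 (by
    intro n hn
    have hn' : n < 4 := by
      have : (n : ℝ) < 4 := by simpa using hn
      exact_mod_cast this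
    simp only [HahnSeries.coeff_add, HahnSeries.coeff_neg, HahnSeries.coeff_single,
      PowerSeries.coeff_coe, e4_coeff]
    by_cases h0 : n < 0
    · rw [if_pos h0, if_neg (by omega), if_neg (by omega), if_neg (by omega), if_neg (by omega)]
      simp
    · obtain rfl | rfl | rfl | rfl : n = 0 ∨ n = 1 ∨ n = 2 ∨ n = 3 := by omega
      · simp
      · simp [s1]
      · simp [s2]
        norm_num
      · simp [s3]
        norm_num)
  have h3 : Gr 0 (1 + 240 * qq + 2160 * qq ^ 2 + 6720 * qq ^ 3) :=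
    ((gr_one.add (gr_mul_l (gr_const 240) gr0_q)).add
      (gr_mul_l (gr_const 2160) (gr0_qpow 2))).add (gr_mul_l (gr_const 6720) (gr0_qpow 3))
  refine ⟨?_, h3, h2⟩
  rw [← sub_add_cancel (ModularForm.E₄ : ℍ → ℂ) (1 + 240 * qq + 2160 * qq ^ 2 + 6720 * qq ^ 3)]
  exact (h2.mono (neg_le0 _)).add h3

end Qx0

theorem qx0 (hA : QA) (hB : QB) : QX0 where
  refl := Qx0.refl
  symm := Qx0.symm
  trans := Qx0.trans
  add := Qx0.add
  sub := Qx0.sub
  mul := Qx0.mul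
  pow := Qx0.pow
  mono := Qx0.mono
  num k n := Qx0.refl k (gr_const (n : ℂ))
  q k := Qx0.refl k Qx0.gr0_q
  poly := Qx0.poly
  of_eq := Qx0.of_eq
  div := Qx0.div
  shift := Qx0.shift
  grow := Qx0.grow
  q_dg := Qx0.q_dg
  dbl h := by
    rw [mul_comm]
    exact Qx0.comp_dg hB 2 two_pos h
  lim := Qx0.lim
  ne := Qx0.ne
  pe := Qx0.cg_pe hB
  pe_inv := Qx0.pe_inv hB
  e4 := Qx0.cg_e4 hA

end Pool.Agent.MP_9207e0_ag.e3
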