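import Pool.Agent.MP_9207e0_ag.e3.SpecB

/-! The generator of the function field of `X₀(25)` is invariant. -/

set_option linter.unusedSectionVars false
set_option linter.unusedVariables false

namespace Pool.Agent.MP_9207e0_ag.e3

open UpperHalfPlane Complex Filter Asymptotics Matrix Pool.Agent.MP_9207e0_ag.hg
open scoped Real MatrixGroups Manifold Classical Kronecker

namespace S25

/-- The even part of the relation, homogenised by `q`. -/
def fa {R : Type} [CommRing R] (q s t : R) : R :=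
  t - ((5 : ℕ) : R) * q * s ^ 4 - ((25 : ℕ) : R) * q ^ 3 * s ^ 2

/-- The cofactor of the odd part. -/
def fw {R : Type} [CommRing R] (q s : R) : R :=
  s ^ 4 + ((15 : ℕ) : R) * q ^ 2 * s ^ 2 + ((25 : ℕ) : R) * q ^ 4

theorem cg_a (h0 : QX0) {k : ℕ} {q q' s s' t t' : ℍ → ℂ} (a : Cg k q q') (b : Cg k s s')
    (c : Cg k t t') : Cg k (fa q s t) (fa q' s' t') :=
  h0.sub (h0.sub c (h0.mul (h0.mul (h0.num k 5) a) (h0.pow 4 b)))
    (h0.mul (h0.mul (h0.num k 25) (h0.pow 3 a)) (h0.pow 2 b))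

theorem cg_w (h0 : QX0) {k : ℕ} {q q' s s' : ℍ → ℂ} (a : Cg k q q') (b : Cg k s s') :
    Cg k (fw q s) (fw q' s') :=
  h0.add (h0.add (h0.pow 4 b) (h0.mul (h0.mul (h0.num k 15) (h0.pow 2 a)) (h0.pow 2 b)))
    (h0.mul (h0.num k 25) (h0.pow 4 a))

theorem one (h0 : QX0) (k : ℕ) : Cg k 1 1 := by simpa using h0.num k 1

theorem zero (h0 : QX0) (k : ℕ) : Cg k 0 0 := by simpa using h0.num k 0

open Polynomial in
theorem poly (h0 : QX0) :
    Cg 11 (fa qq (1 - qq - qq ^ 2 + qq ^ 5 + qq ^ 7) (1 - 6 * qq ^ 5 + 9 * qq ^ 10) -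
      (1 - qq - qq ^ 2 + qq ^ 5 + qq ^ 7) * fw qq (1 - qq - qq ^ 2 + qq ^ 5 + qq ^ 7)) 0 := by
  refine h0.of_eq (zero h0 0).1 (h0.poly (0 - 5 * X + 5 * X ^ 3 - 15 * X ^ 4 - 5 * X ^ 5 - 15 * X ^ 6
    + 5 * X ^ 7 + 5 * X ^ 8 + 5 * X ^ 9 + 5 * X ^ 10 - 15 * X ^ 11 - 15 * X ^ 12 - 10 * X ^ 13
    - 11 * X ^ 14 + 10 * X ^ 15 - 5 * X ^ 16 + 15 * X ^ 17 - 10 * X ^ 18 + 5 * X ^ 19 - 10 * X ^ 20
    - 5 * X ^ 22 - X ^ 24)) ?_
  simp only [map_add, map_sub, map_mul, map_pow, aeval_X, map_ofNat, map_zero, fa, fw,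
    Nat.cast_ofNat]
  generalize qq = q
  ring

theorem hol_n (n : ℕ) : Hol (n : ℍ → ℂ) := mdifferentiable_const (c := (n : ℂ))

theorem hol_1 : Hol 1 := mdifferentiable_const (c := (1 : ℂ))

theorem hol_a {s t : ℍ → ℂ} (a : Hol s) (b : Hol t) : Hol (fa 1 s t) :=
  (b.sub (((hol_n 5).mul hol_1).mul (a.pow 4))).sub (((hol_n 25).mul (hol_1.pow 3)).mul (a.pow 2))

theorem hol_w {s : ℍ → ℂ} (a : Hol s) : Hol (fw 1 s) :=
  ((a.pow 4).add (((hol_n 15).mul (hol_1.pow 2)).mul (a.pow 2))).add ((hol_n 25).mul (hol_1.pow 4))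

end S25

open S25 in
theorem s25 (h2 : ETA2) (hC : CUSP) (h0 : QX0) (h1 : QX1) (hS : STURM) : S25Stmt := by
  obtain ⟨-, -, -, hs, ht, -⟩ := h2.hols
  have c1 : Cg 11 (qq * ss) _ := h0.mono (by norm_num) h1.s
  have cA := cg_a h0 (h0.q 11) c1 h1.t
  have cB := h0.mul c1 (cg_w h0 (h0.q 11) c1)
  have cD := h0.trans (h0.sub cA cB) (poly h0)
  have eA : fa qq (qq * ss) (qq ^ 5 * t5) = qq ^ 5 * fa 1 ss t5 := by
    simp only [fa]; ring
  have eB : qq * ss * fw qq (qq * ss) = qq ^ 5 * (ss * fw 1 ss) := by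
    simp only [fw]; ring
  have ia : ∀ γ : SL2, 25 ∣ (γ : M2) 1 0 → ∀ τ, fa 1 ss t5 (γ • τ) = fa 1 ss t5 τ := fun γ h τ => by
    have e : ∀ τ, fa 1 ss t5 τ = t5 τ - 5 * (ss τ ^ 2) ^ 2 - 25 * ss τ ^ 2 := fun τ => by
      simp only [fa, Pi.sub_apply, Pi.mul_apply, Pi.pow_apply, Pi.natCast_apply, Pi.one_apply]
      push_cast
      ring
    rw [e, e, h2.ss γ h, h2.t5 γ h]
  have iw : ∀ γ : SL2, 25 ∣ (γ : M2) 1 0 → ∀ τ, fw 1 ss (γ • τ) = fw 1 ss τ := fun γ h τ => by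
    have e : ∀ τ, fw 1 ss τ = (ss τ ^ 2) ^ 2 + 15 * ss τ ^ 2 + 25 := fun τ => by
      simp only [fw, Pi.add_apply, Pi.mul_apply, Pi.pow_apply, Pi.natCast_apply, Pi.one_apply]
      push_cast
      ring
    rw [e, e, h2.ss γ h]
  have hA := hol_a hs ht
  have hW := hol_w hs
  have hB : Hol (ss * fw 1 ss) := hs.mul hW
  have F0 : (fa 1 ss t5 - ss * fw 1 ss) * (fa 1 ss t5 + ss * fw 1 ss) = 0 := by
    refine hS.gam0 25 _ (-(1 : ℕ)) (by norm_num) ((hA.sub hB).mul (hA.add hB)) (fun γ h τ => ?_)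
      (fun γ h => ?_) (by norm_num) (h0.shift (k := 10) ?_)
    · have e : ∀ τ, ((fa 1 ss t5 - ss * fw 1 ss) * (fa 1 ss t5 + ss * fw 1 ss)) τ =
          fa 1 ss t5 τ ^ 2 - ss τ ^ 2 * fw 1 ss τ ^ 2 := fun τ => by
        simp only [Pi.sub_apply, Pi.add_apply, Pi.mul_apply]
        ring
      rw [e, e, ia γ h, iw γ h, h2.ss γ h]
    · have a := h0.refl 0 (hC.ss γ h)
      have b := cg_a h0 (one h0 0) a (h0.refl 0 (hC.t5 γ h))
      have c := h0.mul a (cg_w h0 (one h0 0) a)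
      exact (h0.mul (h0.sub b c) (h0.add b c)).1
    · have := h0.mul cD (h0.refl 11 (h0.add cA cB).1)
      rw [zero_mul, eA, eB] at this
      convert this using 1
      ring
  have q0 : Cg 1 qq 0 := h0.of_eq (zero h0 0).1 (one h0 0).1 (by ring)
  have s1 : Cg 1 (qq * ss) 1 := by
    have a := h0.add (h0.add (h0.sub (h0.sub (one h0 1) q0) (h0.pow 2 q0)) (h0.pow 5 q0))
      (h0.pow 7 q0)
    refine h0.trans (h0.mono (by norm_num) c1) ?_
    convert a using 1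
    ring
  have b1 : Cg 1 (qq ^ 5 * (ss * fw 1 ss)) 1 := by
    have a := h0.mul s1 (cg_w h0 q0 s1)
    rw [eB] at a
    convert a using 1
    simp only [fw]
    ring
  have nB : fw 1 ss ≠ 0 := fun e => h0.ne 1 one_ne_zero b1 (by rw [e, mul_zero, mul_zero])
  have nS : fa 1 ss t5 + ss * fw 1 ss ≠ 0 := fun e => by
    have a := h0.add (h0.mono (by norm_num : 1 ≤ 11) cD) (h0.add b1 b1)
    rw [eA, eB] at a
    refine h0.ne (a := qq ^ 5 * (fa 1 ss t5 + ss * fw 1 ss)) (0 + (1 + 1)) (by norm_num) ?_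
      (by rw [e, mul_zero])
    convert a using 1
    · ring
    · rfl
  have E : fa 1 ss t5 = ss * fw 1 ss := by
    by_contra c
    exact Hol.mul_ne_zero (hA.sub hB) (hA.add hB) (sub_ne_zero.2 c) nS F0
  intro γ h
  by_contra c
  refine Hol.mul_ne_zero ((hs.comp_SL γ).sub hs) hW (fun e => c fun τ => sub_eq_zero.1 (congrFun e τ))
    nB (funext fun τ => ?_)
  have a := ia γ h τ
  rw [E, Pi.mul_apply, Pi.mul_apply, iw γ h] at a
  simp only [Pi.mul_apply, Pi.sub_apply, Pi.zero_apply]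
  linear_combination a

end Pool.Agent.MP_9207e0_ag.e3
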