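import Pool.Agent.MP_9207e0_ag.e3.SpecA

/-! Module SH: moving sets of representatives. -/

set_option linter.unusedSectionVars false
set_option linter.unusedVariables false

namespace Pool.Agent.MP_9207e0_ag.e3

open UpperHalfPlane Complex Filter Asymptotics Matrix Pool.Agent.MP_9207e0_ag.hg
open scoped Real MatrixGroups Manifold Classical Kronecker

namespace Sh

lemma rep_congr {X : Type} {r : X → X → Prop} {S : Set X} {R R' : Finset X}
    (h : ∀ x, x ∈ R ↔ x ∈ R') (hR : IsRep r S R) : IsRep r S R' := by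
  have e : R = R' := Finset.ext h
  rwa [← e]

lemma disc_eq (x : M2) :
    (x 1 1 - x 0 0) ^ 2 - 4 * x 1 0 * (-x 0 1) = x.trace ^ 2 - 4 * x.det := by
  rw [Matrix.trace_fin_two, Matrix.det_fin_two]
  ring

lemma fix_iff {x : M2} (hd : x.det = 1) (τ : ℍ) :
    x ∈ Fix τ ↔ mob x τ = τ ∧ x.trace ^ 2 < 4 := by
  have hp : 0 < x.det := by rw [hd]; exact one_pos
  have e := disc_eq x
  rw [hd] at e
  rw [mob_fix_iff hp]
  constructor
  · rintro ⟨h0, h⟩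
    refine ⟨h, ?_⟩
    have h' : (((x 1 0 : ℤ) : ℝ) : ℂ) * (τ : ℂ) ^ 2 + (((x 1 1 - x 0 0 : ℤ) : ℝ) : ℂ) * τ +
        (((-x 0 1 : ℤ) : ℝ) : ℂ) = 0 := by
      push_cast
      linear_combination h
    obtain ⟨e1, e2⟩ := quad_disc h'
    have ha : ((x 1 0 : ℤ) : ℝ) ≠ 0 := by exact_mod_cast h0
    have h3 : 0 < (((x 1 0 : ℤ) : ℝ) * τ.im) ^ 2 :=
      lt_of_le_of_ne (sq_nonneg _) (pow_ne_zero 2 (mul_ne_zero ha τ.im_pos.ne')).symm
    have h4 : (((x 1 1 - x 0 0 : ℤ) : ℝ)) ^ 2 - 4 * ((x 1 0 : ℤ) : ℝ) * ((-x 0 1 : ℤ) : ℝ) < 0 := by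
      rw [e1, e2]
      nlinarith
    have h5 : (x 1 1 - x 0 0) ^ 2 - 4 * x 1 0 * (-x 0 1) < 0 := by exact_mod_cast h4
    omega
  · rintro ⟨h, ht⟩
    refine ⟨fun h0 => ?_, h⟩
    rw [h0] at e
    nlinarith [sq_nonneg (x 1 1 - x 0 0)]

lemma mul_inv' (g : SL2) : (g : M2) * ((g⁻¹ : SL2) : M2) = 1 := by
  rw [← Matrix.SpecialLinearGroup.coe_mul, mul_inv_cancel, Matrix.SpecialLinearGroup.coe_one]

lemma inv_mul' (g : SL2) : ((g⁻¹ : SL2) : M2) * (g : M2) = 1 := by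
  rw [← Matrix.SpecialLinearGroup.coe_mul, inv_mul_cancel, Matrix.SpecialLinearGroup.coe_one]

lemma det_conj (g : SL2) (x : M2) : ((g : M2) * x * ((g⁻¹ : SL2) : M2)).det = x.det := by
  rw [Matrix.det_mul, Matrix.det_mul, det_SL, det_SL, one_mul, mul_one]

lemma trace_conj (g : SL2) (x : M2) : ((g : M2) * x * ((g⁻¹ : SL2) : M2)).trace = x.trace := by
  rw [Matrix.trace_mul_cycle, inv_mul', one_mul]

lemma mob_conj (g : SL2) {x : M2} (hx : 0 < x.det) (τ : ℍ) :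
    mob ((g : M2) * x * ((g⁻¹ : SL2) : M2)) (g • τ) = g • mob x τ := by
  have h1 : 0 < ((g : M2) * x).det := by rw [Matrix.det_mul, det_SL, one_mul]; exact hx
  rw [mob_mul h1 (det_SL_pos _), mob_mul (det_SL_pos _) hx, mob_SL, mob_SL, inv_smul_smul]

lemma red_mul (N : ℕ) (x y : M2) : red N (x * y) = red N x * red N y := by
  ext i k
  simp [red, Matrix.mul_apply]

lemma red_neg (N : ℕ) (x : M2) : red N (-x) = -red N x := by
  ext i k
  simp [red]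

lemma red_trace (N : ℕ) (x : M2) : (red N x).trace = (x.trace : ZMod N) := by
  simp [red, Matrix.trace_fin_two]

lemma red_gam {N : ℕ} {g : SL2} (hg : g ∈ Gam N) : red N (g : M2) = 1 := by
  obtain ⟨h1, h2, h3, h4⟩ := CongruenceSubgroup.Gamma_mem.mp hg
  ext i k
  fin_cases i <;> fin_cases k
  · simpa [red] using h1
  · simpa [red] using h2
  · simpa [red] using h3
  · simpa [red] using h4

lemma cact_mem (δ : SL2) {P P' : MN 10 → Prop} {p : M2 × ℍ} (hp : p ∈ ESet P)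
    (h : P (red 10 p.1) → P' (red 10 (δ : M2) * red 10 p.1 * red 10 ((δ⁻¹ : SL2) : M2))) :
    cact δ p ∈ ESet P' := by
  obtain ⟨hd, hf, hP⟩ := hp
  have hd' : ((δ : M2) * p.1 * ((δ⁻¹ : SL2) : M2)).det = 1 := by rw [det_conj, hd]
  obtain ⟨h1, h2⟩ := (fix_iff hd _).mp hf
  refine ⟨hd', (fix_iff hd' _).mpr ⟨?_, ?_⟩, ?_⟩
  · show mob ((δ : M2) * p.1 * ((δ⁻¹ : SL2) : M2)) (δ • p.2) = δ • p.2
    rw [mob_conj δ (by rw [hd]; exact one_pos), h1]
  · rw [trace_conj]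
    exact h2
  · show P' (red 10 ((δ : M2) * p.1 * ((δ⁻¹ : SL2) : M2)))
    rw [red_mul, red_mul]
    exact h hP

lemma inv (P : MN 10 → Prop) (g : SL2) (hg : g ∈ Gam 10) (p : M2 × ℍ) (hp : p ∈ ESet P) :
    cact g p ∈ ESet P := by
  apply cact_mem g hp
  rw [red_gam hg, red_gam (inv_mem hg), one_mul, mul_one]
  exact id

lemma tr (P : MN 10 → Prop) (p : M2 × ℍ) (hp : p ∈ ESet P) :
    p.1.trace = 0 ∨ p.1.trace = 1 ∨ p.1.trace = -1 := by
  have h := ((fix_iff hp.1 _).mp hp.2.1).2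
  have h1 : p.1.trace < 2 := by nlinarith
  have h2 : -2 < p.1.trace := by nlinarith
  omega

lemma gam_conj (g x : SL2) : x ∈ Gam 10 ↔ g * x * g⁻¹ ∈ Gam 10 := by
  constructor
  · exact fun h => (CongruenceSubgroup.Gamma_normal 10).conj_mem x h g
  · intro h
    have := (CongruenceSubgroup.Gamma_normal 10).conj_mem _ h g⁻¹
    have e : g⁻¹ * (g * x * g⁻¹) * g⁻¹⁻¹ = x := by group
    rwa [e] at this

lemma cact_inv (hF : FS) (g : SL2) (p : M2 × ℍ) : cact g (cact g⁻¹ p) = p := by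
  rw [← hF.cact_mul, mul_inv_cancel, hF.cact_one]

lemma inv_cact (hF : FS) (g : SL2) (p : M2 × ℍ) : cact g⁻¹ (cact g p) = p := by
  rw [← hF.cact_mul, inv_mul_cancel, hF.cact_one]

lemma img (hS : OS) (hF : FS) (L : Subgroup SL2) (S S' : Set (M2 × ℍ)) (g : SL2)
    (R : Finset (M2 × ℍ)) (hL : ∀ x, x ∈ L ↔ g * x * g⁻¹ ∈ L)
    (h : ∀ p, p ∈ S ↔ cact g p ∈ S') (hR : IsRep (relC L) S R) :
    IsRep (relC L) S' (R.image (cact g)) := by
  refine rep_congr (fun x => ?_) (hS.transport (cact g) (hF.relC_equiv L) (hF.relC_equiv L)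
    (fun x hx => (h x).mp hx) (fun y hy => ⟨cact g⁻¹ y, ?_, ?_⟩) (fun x _ x' _ => ⟨?_, ?_⟩) hR).1
  · simp only [Finset.mem_image]
  · rw [h, cact_inv hF]
    exact hy
  · rw [cact_inv hF]
    exact (hF.relC_equiv L).refl y
  · rintro ⟨l, hl, rfl⟩
    refine ⟨g * l * g⁻¹, (hL l).mp hl, ?_⟩
    rw [hF.cact_mul, hF.cact_mul, inv_cact hF]
  · rintro ⟨l, hl, e⟩
    refine ⟨g⁻¹ * l * g, (hL _).mpr ?_, ?_⟩
    · have e' : g * (g⁻¹ * l * g) * g⁻¹ = l := by group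
      rwa [e']
    · rw [hF.cact_mul, hF.cact_mul, e, inv_cact hF]

lemma s_inv {V : Type} [AddCommGroup V] {s : ℍ → ℍ → V} (hs : Inv10 s) (γ1 γ2 : SL2) {g : SL2}
    (hg : g ∈ Gam 10) (τ : ℍ) : s (γ1 • g • τ) (γ2 • g • τ) = s (γ1 • τ) (γ2 • τ) := by
  have e : ∀ γ : SL2, γ • g • τ = (γ * g * γ⁻¹) • γ • τ := by
    intro γ
    rw [mul_smul, mul_smul, inv_smul_smul]
  rw [e γ1, e γ2]
  exact hs _ ((gam_conj γ1 g).mp hg) _ ((gam_conj γ2 g).mp hg) _ _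

lemma cact_neg (g : SL2) (p : M2 × ℍ) :
    cact g (-p.1, p.2) = (-(cact g p).1, (cact g p).2) := by
  simp [cact]

lemma neg_mem {a : MN 10} {p : M2 × ℍ} (hp : p ∈ ESet (· = a)) :
    (-p.1, p.2) ∈ ESet (· = -a) := by
  obtain ⟨hd, ⟨h0, hf⟩, hP⟩ := hp
  refine ⟨?_, ⟨?_, ?_⟩, ?_⟩
  · show (-p.1).det = 1
    rw [Matrix.det_neg, hd]
    simp
  · show (-p.1) 1 0 ≠ 0
    simpa using h0
  · show (((-p.1) 1 0 : ℤ) : ℂ) * (p.2 : ℂ) ^ 2 +
      ((((-p.1) 1 1 : ℤ) : ℂ) - (((-p.1) 0 0 : ℤ) : ℂ)) * p.2 - (((-p.1) 0 1 : ℤ) : ℂ) = 0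
    simp only [Matrix.neg_apply]
    push_cast
    linear_combination -hf
  · show red 10 (-p.1) = -a
    rw [red_neg]
    exact congrArg Neg.neg hP

lemma neg (hS : OS) (hF : FS) (a : MN 10) (R : Finset (M2 × ℍ))
    (hR : IsRep (relC (Gam 10)) (ESet (· = a)) R) :
    IsRep (relC (Gam 10)) (ESet (· = -a)) (R.image fun p => (-p.1, p.2)) := by
  refine rep_congr (fun x => ?_) (hS.transport (fun p : M2 × ℍ => (-p.1, p.2))
    (hF.relC_equiv _) (hF.relC_equiv _) (fun x hx => neg_mem hx)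
    (fun y hy => ⟨(-y.1, y.2), ?_, ?_⟩) (fun x _ x' _ => ⟨?_, ?_⟩) hR).1
  · simp only [Finset.mem_image]
  · have := neg_mem hy
    rwa [neg_neg] at this
  · simp only [neg_neg]
    exact (hF.relC_equiv _).refl y
  · rintro ⟨l, hl, rfl⟩
    exact ⟨l, hl, cact_neg l x⟩
  · rintro ⟨l, hl, e⟩
    refine ⟨l, hl, ?_⟩
    rw [cact_neg] at e
    exact Prod.ext (neg_injective (Prod.mk.inj e).1) (Prod.mk.inj e).2

lemma fin (hS : OS) (hO : ORB) (hF : FS) (P : MN 10 → Prop) :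
    ∃ R, IsRep (relC (Gam 10)) (ESet P) R := by
  obtain ⟨T3, h3⟩ := hO.fin_cm 10 (-3) (by norm_num) (by norm_num)
  obtain ⟨T4, h4⟩ := hO.fin_cm 10 (-4) (by norm_num) (by norm_num)
  have hfin : (⋃ t ∈ ((T3 : Set ℍ) ∪ T4),
      (fun x : M2 => (x, t)) '' {x | x ∈ Fix t ∧ x.det ≤ 1}).Finite :=
    (T3.finite_toSet.union T4.finite_toSet).biUnion fun t _ => (hO.fin_fix t 1).image _
  refine hS.exists_rep (hF.relC_equiv _) hfin fun p hp => ?_
  have he : ((p.1 1 0 : ℤ) : ℂ) * (p.2 : ℂ) ^ 2 + ((p.1 1 1 - p.1 0 0 : ℤ) : ℂ) * p.2 +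
      ((-p.1 0 1 : ℤ) : ℂ) = 0 := by
    push_cast
    linear_combination hp.2.1.2
  have e := disc_eq p.1
  rw [hp.1] at e
  have key : ∃ g ∈ Gam 10, g • p.2 ∈ ((T3 : Set ℍ) ∪ T4) := by
    rcases tr P p hp with h | h | h
    · obtain ⟨g, hg, hm⟩ := h4 p.2 _ _ _ (by rw [e, h]; norm_num) he
      exact ⟨g, hg, Or.inr hm⟩
    · obtain ⟨g, hg, hm⟩ := h3 p.2 _ _ _ (by rw [e, h]; norm_num) he
      exact ⟨g, hg, Or.inl hm⟩
    · obtain ⟨g, hg, hm⟩ := h3 p.2 _ _ _ (by rw [e, h]; norm_num) he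
      exact ⟨g, hg, Or.inl hm⟩
  obtain ⟨g, hg, hm⟩ := key
  have hq := inv P g hg p hp
  refine ⟨cact g p, ?_, hq, g, hg, rfl⟩
  exact Set.mem_biUnion hm ⟨(cact g p).1, ⟨hq.2.1, hq.1.le⟩, rfl⟩

lemma gj_one : Gj 1 = Gam 10 := by
  refine inf_eq_left.mpr fun g hg => ?_
  rw [CongruenceSubgroup.Gamma0_mem]
  exact (CongruenceSubgroup.Gamma_mem.mp hg).2.2.1

lemma dg_one : dg ((1 : ℕ) : ℤ) 1 = 1 := by
  ext i k
  fin_cases i <;> fin_cases k <;> simp [dg]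

/-- From the element to the form. -/
def ph (r : ℤ) (p : M2 × ℍ) : M2 × ℍ := ((2 : ℤ) • p.1 - r • (1 : M2), p.2)

/-- From the form to the element. -/
def Wm (r b c ρ : ℤ) : M2 := !![(r - ρ) / 2, b; c, (r + ρ) / 2]

lemma cact_ph (r : ℤ) (g : SL2) (p : M2 × ℍ) : cact g (ph r p) = ph r (cact g p) := by
  refine Prod.ext ?_ rfl
  show (g : M2) * ((2 : ℤ) • p.1 - r • (1 : M2)) * ((g⁻¹ : SL2) : M2) =
    (2 : ℤ) • ((g : M2) * p.1 * ((g⁻¹ : SL2) : M2)) - r • (1 : M2)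
  rw [mul_sub, sub_mul, Matrix.mul_smul, Matrix.mul_smul, Matrix.smul_mul, Matrix.smul_mul,
    mul_one, mul_inv']

lemma ph_inj (r : ℤ) {p q : M2 × ℍ} (h : ph r p = ph r q) : p = q := by
  refine Prod.ext ?_ (Prod.mk.inj h).2
  have h1 : (2 : ℤ) • p.1 - r • (1 : M2) = (2 : ℤ) • q.1 - r • (1 : M2) := congrArg Prod.fst h
  have h2 := sub_left_injective h1
  ext i k
  have h3 := congrFun (congrFun h2 i) k
  simp only [Matrix.smul_apply, smul_eq_mul] at h3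
  omega

lemma ph_eq (r : ℤ) (p : M2 × ℍ) : (ph r p).1 =
    !![2 * p.1 0 0 - r, 2 * p.1 0 1; 2 * p.1 1 0, 2 * p.1 1 1 - r] := by
  ext i k
  show (2 : ℤ) * p.1 i k - r * (1 : M2) i k = _
  fin_cases i <;> fin_cases k <;> simp

lemma par {r b c ρ : ℤ} (h : ρ ^ 2 + 4 * ((1 : ℕ) : ℤ) * b * c = r ^ 2 - 4) :
    ∃ k : ℤ, r - ρ = 2 * k := by
  have h1 : Even ((r - ρ) * (r + ρ)) := ⟨2 * (b * c) + 2, by push_cast at h; linear_combination -h⟩
  rcases Int.even_mul.mp h1 with ⟨k, hk⟩ | ⟨k, hk⟩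
  · exact ⟨k, by omega⟩
  · exact ⟨k - ρ, by omega⟩

lemma cls_iff (b c ρ b' c' ρ' : ℤ) : cls 1 b c ρ = cls 1 b' c' ρ' ↔
    10 ∣ b' - b ∧ 10 ∣ c' - c ∧ 20 ∣ ρ' - ρ := by
  simp only [cls, Prod.mk.injEq, ZMod.intCast_eq_intCast_iff_dvd_sub]
  norm_num

lemma red_iff (x y : M2) : red 10 x = red 10 y ↔ ∀ i k, 10 ∣ y i k - x i k := by
  rw [← Matrix.ext_iff]
  simp only [red, Matrix.map_apply, ZMod.intCast_eq_intCast_iff_dvd_sub]
  norm_num

lemma avan (hS : OS) (hF : FS) {V : Type} [AddCommGroup V] (s : ℍ → ℍ → V) (γ1 γ2 : SL2)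
    (r : ℤ) (hs : Inv10 s) (hr : r ^ 2 < 4)
    (h : ∀ a : MN 10, a.trace = r → EVan s γ1 γ2 (· = a)) (v : Cls 1) :
    AVan s 1 γ1 γ2 (r ^ 2 - 4) v := by
  by_cases hne : ∃ p, p ∈ FSet 1 (r ^ 2 - 4) v
  swap
  · intro R hR
    exact Finset.sum_eq_zero fun x hx => absurd ⟨x, hR.1 x hx⟩ hne
  obtain ⟨p0, b0, c0, ρ0, -, hD0, rfl, -⟩ := hne
  obtain ⟨k0, hk0⟩ := par hD0
  have r1 : r < 2 := by nlinarith
  have r2 : -2 < r := by nlinarith
  have htr : (Wm r b0 c0 ρ0).trace = r := by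
    simp only [Wm, Matrix.trace_fin_two_of]
    omega
  have hE := h (red 10 (Wm r b0 c0 ρ0)) (by rw [red_trace, htr])
  refine (hS.van_transport (r := relC (Gam 10)) (S := ESet (· = red 10 (Wm r b0 c0 ρ0)))
    (ph r) _ (hF.relC_equiv _) (hF.relC_equiv _) (fun x hx => ?_) (fun y hy => ?_)
    (fun x _ x' _ => ?_) (fun x _ y _ => ?_)).mp ?_
  · have ht := tr _ x hx
    obtain ⟨hd, ⟨h0, hf⟩, hP⟩ := hx
    have hP' := (red_iff _ _).mp hP
    have a00 := hP' 0 0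
    have a01 := hP' 0 1
    have a10 := hP' 1 0
    have a11 := hP' 1 1
    simp only [Wm, Matrix.of_apply, Matrix.cons_val', Matrix.cons_val_zero, Matrix.cons_val_one,
      Matrix.cons_val_fin_one] at a00 a01 a10 a11
    have e := disc_eq x.1
    rw [hd] at e
    rw [Matrix.trace_fin_two] at ht e
    have hx : x.1 0 0 + x.1 1 1 = r := by omega
    refine ⟨x.1 0 1, x.1 1 0, x.1 1 1 - x.1 0 0, ?_, ?_, ?_, ?_⟩
    · rw [ph_eq]
      ext i k
      fin_cases i <;> fin_cases k <;> simp [ymat] <;> omega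
    · rw [← hx]
      push_cast
      linear_combination e
    · rw [cls_iff]
      omega
    · show (((1 : ℕ) : ℂ) * ((x.1 1 0 : ℤ) : ℂ)) * (x.2 : ℂ) ^ 2 +
        ((x.1 1 1 - x.1 0 0 : ℤ) : ℂ) * x.2 - ((x.1 0 1 : ℤ) : ℂ) = 0
      push_cast
      linear_combination hf
  · obtain ⟨b, c, ρ, hy1, hD, hc, hq⟩ := hy
    obtain ⟨k, hk⟩ := par hD
    rw [cls_iff] at hc
    have w1 : (r - ρ) / 2 = k := by omega
    have w2 : (r + ρ) / 2 = k + ρ := by omega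
    have hr' : r = 2 * k + ρ := by omega
    refine ⟨(Wm r b c ρ, y.2), ⟨?_, ⟨?_, ?_⟩, ?_⟩, ?_⟩
    · show (Wm r b c ρ).det = 1
      simp only [Wm, Matrix.det_fin_two_of, w1, w2]
      rw [hr'] at hD
      push_cast at hD
      nlinarith
    · show (Wm r b c ρ) 1 0 ≠ 0
      intro h0
      have : c = 0 := by simpa [Wm] using h0
      rw [this] at hD
      nlinarith [sq_nonneg ρ]
    · show (((Wm r b c ρ) 1 0 : ℤ) : ℂ) * (y.2 : ℂ) ^ 2 +
        ((((Wm r b c ρ) 1 1 : ℤ) : ℂ) - (((Wm r b c ρ) 0 0 : ℤ) : ℂ)) * y.2 -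
          (((Wm r b c ρ) 0 1 : ℤ) : ℂ) = 0
      simp only [Wm, Matrix.of_apply, Matrix.cons_val', Matrix.cons_val_zero, Matrix.cons_val_one,
        Matrix.cons_val_fin_one, w1, w2]
      push_cast at hq ⊢
      linear_combination hq
    · show red 10 (Wm r b c ρ) = red 10 (Wm r b0 c0 ρ0)
      rw [red_iff]
      intro i j
      fin_cases i <;> fin_cases j <;> simp [Wm] <;> omega
    · have e : ph r (Wm r b c ρ, y.2) = y := by
        refine Prod.ext ?_ rfl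
        rw [hy1, ph_eq]
        ext i j
        fin_cases i <;> fin_cases j <;> simp [Wm, ymat] <;> omega
      rw [e]
      exact (hF.relC_equiv _).refl y
  · rw [gj_one]
    constructor
    · rintro ⟨l, hl, rfl⟩
      exact ⟨l, hl, cact_ph r l x⟩
    · rintro ⟨l, hl, e⟩
      exact ⟨l, hl, ph_inj r (by rw [← cact_ph, e])⟩
  · rintro ⟨l, hl, rfl⟩
    rw [gj_one] at hl
    simp only [dg_one, mob_one]
    exact (s_inv hs γ1 γ2 hl x.2).symm
  · simp only [dg_one, mob_one]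
    exact hE

end Sh

theorem sh (hS : OS) (hO : ORB) (hF : FS) : SH where
  shift := by
    intro V _ L S g f R hL h hf hR
    have h1 := Sh.img hS hF L S S g R hL h hR
    have h2 := hS.sum_eq (f := f) (hF.relC_equiv L) h1 hR (by
      rintro x hx y _ ⟨l, hl, rfl⟩
      exact (hf l hl x hx).symm)
    rw [← h2, Finset.sum_image]
    intro x _ y _ e
    rw [← Sh.inv_cact hF g x, e, Sh.inv_cact hF]
  move := by
    intro δ P P' R h hR
    refine Sh.img hS hF _ _ _ δ R (Sh.gam_conj δ) (fun p => ⟨fun hp => ?_, fun hp => ?_⟩) hR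
    · exact Sh.cact_mem δ hp (h _).mp
    · rw [← Sh.inv_cact hF δ p]
      refine Sh.cact_mem δ⁻¹ hp fun hq => (h _).mpr ?_
      rw [inv_inv, ← Sh.red_mul, ← Sh.red_mul, ← Sh.red_mul, ← Sh.red_mul]
      have e : (δ : M2) * (((δ⁻¹ : SL2) : M2) * (cact δ p).1 * (δ : M2)) * ((δ⁻¹ : SL2) : M2) =
          (cact δ p).1 := by
        rw [← mul_assoc, ← mul_assoc, Sh.mul_inv', one_mul, mul_assoc, Sh.mul_inv', mul_one]
      rw [e]
      exact hq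
  val := by
    intro V _ s γ1 γ2 P R R' hs hR hR'
    refine hS.sum_eq (f := fun p : M2 × ℍ => s (γ1 • p.2) (γ2 • p.2)) (hF.relC_equiv _) hR hR' ?_
    rintro x _ y _ ⟨l, hl, rfl⟩
    exact (Sh.s_inv hs γ1 γ2 hl x.2).symm
  neg := Sh.neg hS hF
  inv := Sh.inv
  tr := Sh.tr
  fin := Sh.fin hS hO hF
  avan := by
    intro V _ s γ1 γ2 r hs hr h v
    exact Sh.avan hS hF s γ1 γ2 r hs hr h v

end Pool.Agent.MP_9207e0_ag.e3
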