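import Pool.Agent.MP_9207e0_ag.e3.SpecB

/-! A bounded modular function that vanishes at infinity is zero. -/

set_option linter.unusedSectionVars false
set_option linter.unusedVariables false

namespace Pool.Agent.MP_9207e0_ag.e3

open UpperHalfPlane Complex Filter Asymptotics Matrix Pool.Agent.MP_9207e0_ag.hg
open scoped Real MatrixGroups Manifold Classical Kronecker ModularForm

namespace SturmA

lemma slash_zero (F : ℍ → ℂ) (γ : SL2) : F ∣[(0 : ℤ)] γ = fun τ => F (γ • τ) := by
  rw [ModularForm.SL_slash_def]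
  simp

lemma const_zero {c : ℂ} {κ : ℝ} (hκ : κ < 0) (h : Gr κ fun _ => c) : c = 0 := by
  have h1 : Tendsto (fun τ : ℍ => 2 * π * κ * τ.im) atImInfty atBot :=
    Tendsto.const_mul_atTop_of_neg (mul_neg_of_pos_of_neg (by positivity) hκ) tendsto_comap
  exact tendsto_nhds_unique tendsto_const_nhds
    (IsBigO.trans_tendsto h (Real.tendsto_exp_atBot.comp h1))

lemma gam (N : ℕ) (F : ℍ → ℂ) (κ : ℝ) (hN : 0 < N) (hF : Hol F)
    (hi : ∀ γ ∈ Gam N, ∀ τ, F (γ • τ) = F τ) (hb : ∀ γ : SL2, Gr 0 fun τ => F (γ • τ))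
    (hκ : κ < 0) (hg : Gr κ F) : F = 0 := by
  have : NeZero N := ⟨hN.ne'⟩
  let f : ModularForm (Gam N) 0 :=
    { toFun := F
      slash_action_eq' := by
        rintro _ ⟨γ, hγ, rfl⟩
        exact (slash_zero F γ).trans (funext (hi γ hγ))
      holo' := hF
      bdd_at_cusps' := fun {c} hc => by
        rw [Subgroup.IsArithmetic.isCusp_iff_isCusp_SL2Z] at hc
        rw [OnePoint.isBoundedAt_iff_forall_SL2Z hc]
        intro γ _
        have h1 := hb γ
        simp only [Gr, mul_zero, zero_mul, Real.exp_zero] at h1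
        change IsBoundedAtImInfty (F ∣[(0 : ℤ)] γ)
        rw [slash_zero]
        exact h1 }
  obtain ⟨c, hc⟩ := ModularForm.eq_const_of_weight_zero f
  have e : F = fun _ => c := hc
  rw [e] at hg ⊢
  rw [const_zero hκ hg]
  rfl

end SturmA

theorem sturm : STURM where
  gam := SturmA.gam
  gam0 := fun N F κ hN hF hi hb hκ hg => by
    refine SturmA.gam N F κ hN hF (fun γ hγ => hi γ ?_) (fun γ => ?_) hκ hg
    · exact (ZMod.intCast_zmod_eq_zero_iff_dvd _ N).1 (CongruenceSubgroup.Gamma_mem.1 hγ).2.2.1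
    · by_cases h : (N : ℤ) ∣ (γ : M2) 1 0
      · rw [funext (hi γ h)]
        exact hg.mono hκ.le
      · exact hb γ h

end Pool.Agent.MP_9207e0_ag.e3
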