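import Pool.Agent.MP_9207e0_ag.e3.SpecB

/-! The Atkin-Lehner involution at two on the generator of level ten. -/

set_option linter.unusedSectionVars false
set_option linter.unusedVariables false

namespace Pool.Agent.MP_9207e0_ag.e3

open UpperHalfPlane Complex Filter Asymptotics Matrix Pool.Agent.MP_9207e0_ag.hg
open scoped Real MatrixGroups Manifold Classical Kronecker

namespace W2

lemma ee_add (a b : ℂ) : ee (a + b) = ee a * ee b := by
  rw [ee, ee, ee, mul_add, Complex.exp_add]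

lemma ee_ne (a : ℂ) : ee a ≠ 0 := Complex.exp_ne_zero _

lemma law (h1 : Eta1Stmt) {d e : ℕ} (hd : 0 < d) (he : 0 < e) {w γ : M2} {k : ℤ} (hw : 0 < w.det)
    (hk : k ≠ 0) (hγ : γ.det = 1) (h : dg d 1 * w = k • (γ * dg e 1)) (τ : ℍ) :
    ed d (mob w τ) ^ 2 = ee (x3 γ / 3 + -(x4 γ : ℂ) / 4) * ((γ 1 0 : ℂ) * (e * τ) + γ 1 1) *
      ed e τ ^ 2 := by
  have d1 : 0 < (dg d 1).det := by rw [det_dg]; positivity
  have d2 : 0 < (dg e 1).det := by rw [det_dg]; positivity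
  have d3 : 0 < γ.det := hγ ▸ one_pos
  obtain ⟨g, rfl⟩ : ∃ g : SL2, γ = g := ⟨⟨γ, hγ⟩, rfl⟩
  have h2 := h1 g (mob (dg e 1) τ)
  rw [← mob_SL, coe_mob_dg (by positivity)] at h2
  rw [ed, ← mob_mul d1 hw, h, mob_smul (by rw [det_mul]; positivity) hk, mob_mul d3 d2, ee_add, ed]
  simpa using h2

end W2

open W2 in
theorem w2 (h1 : Eta1Stmt) (h2 : ETA2) (hH : H10) : W2Stmt := by
  intro τ
  have hw : 0 < (!![2, 1; 10, 6] : M2).det := by simp [det_fin_two]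
  have e1 := law h1 (d := 1) (e := 2) (γ := !![1, 1; 5, 6]) (k := 1) one_pos two_pos hw
    one_ne_zero (by simp [det_fin_two]) (by simp [dg]) τ
  have e2 := law h1 (d := 2) (e := 1) (γ := !![2, 1; 5, 3]) (k := 2) two_pos one_pos hw
    two_ne_zero (by simp [det_fin_two]) (by simp [dg]) τ
  have e5 := law h1 (d := 5) (e := 10) (γ := !![1, 5; 1, 6]) (k := 1) (by norm_num) (by norm_num) hw
    one_ne_zero (by simp [det_fin_two]) (by simp [dg]) τ
  have e10 := law h1 (d := 10) (e := 5) (γ := !![2, 5; 1, 3]) (k := 2) (by norm_num) (by norm_num)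
    hw two_ne_zero (by simp [det_fin_two]) (by simp [dg]) τ
  have o5 : Odd (5 : ℤ) := by decide
  have c1 : ((x3 !![1, 1; 5, 6] : ℂ) / 3 + -(x4 !![1, 1; 5, 6] : ℂ) / 4) = -139 / 6 + -139 / 6 := by
    simp [x3, x4, o5]; norm_num
  have c2 : ((x3 !![2, 1; 5, 3] : ℂ) / 3 + -(x4 !![2, 1; 5, 3] : ℂ) / 4) = -139 / 6 := by
    simp [x3, x4, o5]; norm_num
  have c5 : ((x3 !![1, 5; 1, 6] : ℂ) / 3 + -(x4 !![1, 5; 1, 6] : ℂ) / 4) = 1 / 6 + 1 / 6 := by
    simp [x3, x4]; norm_num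
  have c10 : ((x3 !![2, 5; 1, 3] : ℂ) / 3 + -(x4 !![2, 5; 1, 3] : ℂ) / 4) = 1 / 6 := by
    simp [x3, x4]; norm_num
  rw [c1, ee_add] at e1
  rw [c2] at e2
  rw [c5, ee_add] at e5
  rw [c10] at e10
  have n : (5 : ℂ) * τ + 3 ≠ 0 := fun c => by
    have := den_ne (A := !![2, 1; 5, 3]) (by simp [det_fin_two]) τ
    exact this (by simpa using c)
  have f1 : ed 1 (mob !![2, 1; 10, 6] τ) ^ 2 =
      ee (-139 / 6) ^ 2 * (2 * (5 * τ + 3)) * ed 2 τ ^ 2 := by rw [e1]; simp; ring_nf; simp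
  have f2 : ed 2 (mob !![2, 1; 10, 6] τ) ^ 4 =
      (ee (-139 / 6) * (5 * τ + 3) * ed 1 τ ^ 2) ^ 2 := by
    refine (pow_mul _ 2 2).trans ?_
    rw [e2]; simp
  have f5 : ed 5 (mob !![2, 1; 10, 6] τ) ^ 2 =
      ee (1 / 6) ^ 2 * (2 * (5 * τ + 3)) * ed 10 τ ^ 2 := by rw [e5]; simp; ring_nf; simp
  have f10 : ed 10 (mob !![2, 1; 10, 6] τ) ^ 4 =
      (ee (1 / 6) * (5 * τ + 3) * ed 5 τ ^ 2) ^ 2 := by
    refine (pow_mul _ 2 2).trans ?_
    rw [e10]; simp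
  have key : kk (mob !![2, 1; 10, 6] τ) * hh τ = ll τ := by
    have n1 := h2.ne 1 τ
    have n2 := h2.ne 2 τ
    have n5 := h2.ne 5 τ
    have n10 := h2.ne 10 τ
    have na := ee_ne (-139 / 6)
    have nb := ee_ne (1 / 6)
    rw [kk, hh, ll, f1, f2, f5, f10]
    generalize (5 : ℂ) * τ + 3 = u at n ⊢
    generalize ee (-139 / 6) = a at na ⊢
    generalize ee (1 / 6) = b at nb ⊢
    field_simp
  rw [hH.kk, hH.ll] at key
  linear_combination key

end Pool.Agent.MP_9207e0_ag.e3
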