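import Pool.Agent.MP_9207e0_ag.e3.SpecA

/-! Module ZIND: all special zero-cycles of level ten die, by induction on the determinant. -/

set_option linter.unusedSectionVars false
set_option linter.unusedVariables false

namespace Pool.Agent.MP_9207e0_ag.e3

open UpperHalfPlane Complex Filter Asymptotics Matrix Pool.Agent.MP_9207e0_ag.hg
open scoped Real MatrixGroups Manifold Classical Kronecker

namespace Zind

/-- Pairs of matrices with a point. -/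
abbrev X3 : Type := M2 × M2 × ℍ

variable {V : Type} [AddCommGroup V] {s : ℍ → ℍ → V}

theorem van_zero {X : Type} {r : X → X → Prop} {S : Set X} {f : X → V} (h : ∀ x ∈ S, f x = 0) :
    Van r S f := fun _ hR => Finset.sum_eq_zero fun x hx => h x (hR.1 x hx)

theorem van_congr {X : Type} {r : X → X → Prop} {S : Set X} {f g : X → V} (hv : Van r S f)
    (h : ∀ x ∈ S, g x = f x) : Van r S g :=
  fun R hR => (Finset.sum_congr rfl fun x hx => h x (hR.1 x hx)).trans (hv R hR)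

theorem cmul (g h : SL2) : ((g * h : SL2) : M2) = (g : M2) * h := rfl

theorem cone : ((1 : SL2) : M2) = 1 := rfl

/-- The action of pairs of unimodular matrices. -/
noncomputable def mv (h1 h2 : SL2) (p : X3) : X3 :=
  ((h2 : M2) * p.1 * ((h1⁻¹ : SL2) : M2), (h2 : M2) * p.2.1 * ((h1⁻¹ : SL2) : M2), h1 • p.2.2)

/-- The summand. -/
noncomputable def fz (s : ℍ → ℍ → V) (γ1 γ2 : SL2) (p : X3) : V :=
  s (γ1 • p.2.2) (γ2 • mob p.1 p.2.2)

theorem mv_mul (h1 h2 g1 g2 : SL2) (p : X3) :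
    mv h1 h2 (mv g1 g2 p) = mv (h1 * g1) (h2 * g2) p := by
  simp only [mv, _root_.mul_inv_rev, cmul, mul_assoc, mul_smul]

theorem mv_one (p : X3) : mv 1 1 p = p := by
  simp only [mv, inv_one, cone, mul_one, one_mul, one_smul]

theorem mul_eq_iff (x y : M2) (g : SL2) : x * (g : M2) = y ↔ x = y * ((g⁻¹ : SL2) : M2) := by
  constructor
  · rintro rfl
    rw [mul_assoc, ← cmul, mul_inv_cancel, cone,
      mul_one]
  · rintro rfl
    rw [mul_assoc, ← cmul, inv_mul_cancel, cone,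
      mul_one]

theorem relZ_iff {p q : X3} : relZ p q ↔ ∃ g1 ∈ Gam 10, ∃ g2 ∈ Gam 10, q = mv g1 g2 p := by
  simp only [relZ, mul_eq_iff, mv, Prod.ext_iff]

theorem relZ_mv (h1 h2 : SL2) {p q : X3} (h : relZ p q) : relZ (mv h1 h2 p) (mv h1 h2 q) := by
  obtain ⟨g1, m1, g2, m2, rfl⟩ := relZ_iff.1 h
  refine relZ_iff.2 ⟨_, (CongruenceSubgroup.Gamma_normal 10).conj_mem g1 m1 h1, _,
    (CongruenceSubgroup.Gamma_normal 10).conj_mem g2 m2 h2, ?_⟩
  simp only [mv_mul, inv_mul_cancel_right]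

theorem det_mv (h1 h2 : SL2) (x : M2) : ((h2 : M2) * x * (h1 : M2)).det = x.det := by
  rw [det_mul, det_mul, det_SL, det_SL, one_mul, mul_one]

theorem mob_mv (h1 h2 : SL2) {x : M2} (hx : 0 < x.det) (τ : ℍ) :
    mob ((h2 : M2) * x * ((h1⁻¹ : SL2) : M2)) (h1 • τ) = h2 • mob x τ := by
  rw [mob_mul (by rwa [det_mul, det_SL, one_mul]) (det_SL_pos _), mob_SL, inv_smul_smul,
    mob_mul (det_SL_pos _) hx, mob_SL]

theorem fz_mv (γ1 γ2 h1 h2 : SL2) {p : X3} (hp : 0 < p.1.det) :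
    fz s γ1 γ2 (mv h1 h2 p) = fz s (γ1 * h1) (γ2 * h2) p := by
  simp only [fz, mv, mob_mv h1 h2 hp, mul_smul]

theorem fz_rel (hI : Inv10 s) (γ1 γ2 : SL2) {p q : X3} (hp : 0 < p.1.det) (h : relZ p q) :
    fz s γ1 γ2 p = fz s γ1 γ2 q := by
  obtain ⟨g1, m1, g2, m2, rfl⟩ := relZ_iff.1 h
  rw [fz_mv _ _ _ _ hp, fz, fz, ← hI _ ((CongruenceSubgroup.Gamma_normal 10).conj_mem g1 m1 γ1) _
    ((CongruenceSubgroup.Gamma_normal 10).conj_mem g2 m2 γ2)]
  simp only [mul_smul, inv_smul_smul]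

theorem red_mul (x y : M2) : red 10 (x * y) = red 10 x * red 10 y :=
  Matrix.map_mul (f := Int.castRingHom (ZMod 10))

theorem red_gam {g : SL2} (h : g ∈ Gam 10) : red 10 (g : M2) = 1 := by
  obtain ⟨h1, h2, h3, h4⟩ := CongruenceSubgroup.Gamma_mem.1 h
  ext i k
  fin_cases i <;> fin_cases k <;> simpa [red]

theorem red_inv (g : SL2) (a : MN 10) (h : SL2) :
    red 10 ((g⁻¹ : SL2) : M2) * (red 10 (g : M2) * a * red 10 ((h⁻¹ : SL2) : M2)) *
      red 10 ((h⁻¹⁻¹ : SL2) : M2) = a := by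
  have e : ∀ g : SL2, red 10 ((g⁻¹ : SL2) : M2) * red 10 (g : M2) = 1 := fun g => by
    rw [← red_mul, ← cmul, inv_mul_cancel, red_gam (one_mem _)]
  rw [inv_inv, mul_assoc, mul_assoc, e, mul_one, ← mul_assoc, e, one_mul]

theorem mv_zset {n r j : ℤ} {a b : MN 10} (hj : 0 < j) (hn : 0 < n) (h1 h2 : SL2) {p : X3}
    (hp : p ∈ ZSet n r j a b) :
    mv h1 h2 p ∈ ZSet n r j (red 10 (h2 : M2) * a * red 10 ((h1⁻¹ : SL2) : M2))
      (red 10 (h2 : M2) * b * red 10 ((h1⁻¹ : SL2) : M2)) := by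
  obtain ⟨e1, e2, e3, e4, e5, e6⟩ := hp
  refine ⟨(det_mv _ _ _).trans e1, (det_mv _ _ _).trans e2, ?_, ?_, ?_, ?_⟩
  · simp only [mv, adjugate_mul_distrib]
    rw [mul_assoc, trace_mul_comm, mul_assoc, mul_assoc, mul_assoc, mul_assoc, mul_adjugate,
      det_SL, one_smul, mul_one, ← mul_assoc (adjugate (h2 : M2)), adjugate_mul, det_SL, one_smul,
      one_mul, e3]
  · simp only [mv, red_mul, e4]
  · simp only [mv, red_mul, e5]
  · simp only [mv]
    rw [mob_mv _ _ (e1 ▸ hj), mob_mv _ _ (e2 ▸ hn), e6]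

/-- The primitive part. -/
def PSet (n r j : ℤ) (a b : MN 10) : Set X3 := {p | p ∈ ZSet n r j a b ∧ Prim p.1}

theorem pos_of {n r j : ℤ} (hj : 0 < j) (h : r ^ 2 < 4 * n * j) : 0 < n := by
  nlinarith [sq_nonneg r]

theorem van_mv (hS : OS) (hO : ORB) (hF : FS) (hI : Inv10 s) {n r j : ℤ} {a b : MN 10} (hj : 0 < j)
    (hn : 0 < n) (γ1 γ2 h1 h2 : SL2)
    (h : Van relZ (PSet n r j (red 10 (h2 : M2) * a * red 10 ((h1⁻¹ : SL2) : M2))
      (red 10 (h2 : M2) * b * red 10 ((h1⁻¹ : SL2) : M2))) (fz s γ1 γ2)) :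
    Van relZ (PSet n r j a b) (fz s (γ1 * h1) (γ2 * h2)) := by
  refine van_congr ((hS.van_transport (S := PSet n r j a b) (mv h1 h2) (fz s γ1 γ2) hF.relZ_equiv
    hF.relZ_equiv (fun p hp => ?_) (fun q hq => ?_) (fun p _ p' _ => ⟨relZ_mv h1 h2, fun k => ?_⟩)
    (fun p hp q _ => ?_)).2 h) fun p hp => (fz_mv _ _ _ _ (hp.1.1 ▸ hj)).symm
  · exact ⟨mv_zset hj hn h1 h2 hp.1, hO.prim_mul _ _ _ hp.2⟩
  · refine ⟨mv h1⁻¹ h2⁻¹ q, ⟨?_, hO.prim_mul _ _ _ hq.2⟩, ?_⟩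
    · simpa only [red_inv] using mv_zset hj hn h1⁻¹ h2⁻¹ hq.1
    · rw [mv_mul, mul_inv_cancel, mul_inv_cancel, mv_one]
      exact hF.relZ_equiv.refl q
  · simpa only [mv_mul, inv_mul_cancel, mv_one] using relZ_mv h1⁻¹ h2⁻¹ k
  · exact fz_rel hI _ _ (hp.1.1 ▸ hj)

theorem van_swap (hS : OS) (hF : FS) (hI : Inv10 s) {n r j : ℤ} {a b : MN 10} (hn : 0 < n)
    (γ1 γ2 : SL2) (h : Van relZ (ZSet j r n b a) (fz s γ1 γ2)) :
    Van relZ (ZSet n r j a b) (fz s γ1 γ2) := by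
  have k : ∀ {n j : ℤ} {a b : MN 10} {p : X3}, p ∈ ZSet n r j a b →
      (p.2.1, p.1, p.2.2) ∈ ZSet j r n b a := fun {n j a b p} ⟨e1, e2, e3, e4, e5, e6⟩ =>
    ⟨e2, e1, by
      rw [← e3]
      simp only [adjugate_fin_two, trace_fin_two, mul_apply, Fin.sum_univ_two, of_apply,
        cons_val', cons_val_zero, cons_val_one, cons_val_fin_one]
      ring, e5, e4, e6.symm⟩
  refine van_congr ((hS.van_transport (fun p : X3 => (p.2.1, p.1, p.2.2)) (fz s γ1 γ2)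
    hF.relZ_equiv hF.relZ_equiv (fun p hp => k hp)
    (fun q hq => ⟨_, k hq, hF.relZ_equiv.refl q⟩) (fun p _ p' _ => ?_)
    (fun p hp q _ => fz_rel hI _ _ (hp.1 ▸ hn))).2 h) fun p hp => ?_
  · exact ⟨fun ⟨g1, m1, g2, m2, e1, e2, e3⟩ => ⟨g1, m1, g2, m2, e2, e1, e3⟩,
      fun ⟨g1, m1, g2, m2, e1, e2, e3⟩ => ⟨g1, m1, g2, m2, e2, e1, e3⟩⟩
  · simp only [fz, hp.2.2.2.2.2]

/-- The second matrix of a pair in standard position. -/
def bm (j : ℕ) (r b c e : ℤ) : M2 := !![r - j * e, b; c, e]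

/-- The pair attached to a form. -/
def pr (j : ℕ) (r : ℤ) (p : M2 × ℍ) : X3 :=
  (dg j 1, bm j r (p.1 0 1 / 2) (p.1 1 0 / (2 * j)) ((r + p.1 1 1) / (2 * j)), p.2)

theorem pr_ymat {j : ℕ} (hj : 0 < j) (r b c e : ℤ) (τ : ℍ) :
    pr j r (ymat j b c (2 * j * e - r), τ) = (dg j 1, bm j r b c e, τ) := by
  have h : (2 * j : ℤ) ≠ 0 := by positivity
  simp [pr, ymat, Int.mul_ediv_cancel_left _ h]

theorem det_bm (j : ℕ) (r b c e : ℤ) :
    4 * (bm j r b c e).det * j = r ^ 2 - ((2 * j * e - r) ^ 2 + 4 * j * b * c) := by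
  simp only [bm, det_fin_two_of]
  ring

theorem ymat_eq (j : ℕ) (r b c e : ℤ) :
    ymat j b c (2 * j * e - r) = (2 : ℤ) • ((dg j 1).adjugate * bm j r b c e) - r • 1 := by
  rw [one_fin_two]
  ext i k
  fin_cases i <;> fin_cases k <;>
    simp [ymat, dg, bm, adjugate_fin_two, -zsmul_eq_mul] <;> ring

theorem mob_bm {j : ℕ} (hj : 0 < j) {r b c e : ℤ} (h : 0 < (bm j r b c e).det) (τ : ℍ) :
    mob (dg j 1) τ = mob (bm j r b c e) τ ↔
      ((j : ℂ) * c) * (τ : ℂ) ^ 2 + ((2 * j * e - r : ℤ) : ℂ) * τ - b = 0 := by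
  rw [eq_comm, mob_eq_iff h, coe_mob_dg (by positivity)]
  simp only [bm, of_apply, cons_val', cons_val_zero, cons_val_one, cons_val_fin_one]
  push_cast
  constructor <;> intro k <;> linear_combination -k

theorem eq_bm {j : ℕ} {r : ℤ} {y : M2} (h : ((dg j 1).adjugate * y).trace = r) :
    y = bm j r (y 0 1) (y 1 0) (y 1 1) := by
  rw [← h]
  ext i k
  fin_cases i <;> fin_cases k <;>
    simp [dg, bm, adjugate_fin_two, trace_fin_two, vecMul, dotProduct]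

theorem cls_iff {j : ℕ} (hj : 0 < j) (r b c e b' c' e' : ℤ) :
    cls j b c (2 * j * e - r) = cls j b' c' (2 * j * e' - r) ↔
      red 10 (bm j r b c e) = red 10 (bm j r b' c' e') := by
  have k : ((2 * j * e - r : ℤ) : ZMod (20 * j)) = ((2 * j * e' - r : ℤ) : ZMod (20 * j)) ↔
      (e : ZMod 10) = e' := by
    rw [ZMod.intCast_eq_intCast_iff_dvd_sub, ZMod.intCast_eq_intCast_iff_dvd_sub,
      show 2 * j * e' - r - (2 * j * e - r) = 2 * j * (e' - e) by ring,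
      show ((20 * j : ℕ) : ℤ) = 2 * j * (10 : ℕ) by push_cast; ring]
    exact mul_dvd_mul_iff_left (by positivity)
  simp only [cls, Prod.mk.injEq, k]
  constructor
  · rintro ⟨h1, h2, h3⟩
    ext i k
    fin_cases i <;> fin_cases k <;> simp [red, bm, h1, h2, h3]
  · intro h
    exact ⟨by simpa [red, bm] using congrFun (congrFun h 0) 1,
      by simpa [red, bm] using congrFun (congrFun h 1) 0,
      by simpa [red, bm] using congrFun (congrFun h 1) 1⟩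

theorem fset_form {j : ℕ} {D r b0 c0 e0 : ℤ} {p : M2 × ℍ}
    (hp : p ∈ FSet j D (cls j b0 c0 (2 * j * e0 - r))) :
    ∃ b c e : ℤ, p = (ymat j b c (2 * j * e - r), p.2) ∧
      (2 * j * e - r) ^ 2 + 4 * j * b * c = D ∧
      cls j b c (2 * j * e - r) = cls j b0 c0 (2 * j * e0 - r) ∧
      ((j : ℂ) * c) * (p.2 : ℂ) ^ 2 + ((2 * j * e - r : ℤ) : ℂ) * p.2 - b = 0 := by
  obtain ⟨b, c, ρ, h1, h2, h3, h4⟩ := hp
  obtain ⟨t, ht⟩ := (ZMod.intCast_eq_intCast_iff_dvd_sub _ _ _).1 (congrArg (·.2.2) h3)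
  obtain rfl : ρ = 2 * j * (e0 - 10 * t) - r := by
    push_cast at ht
    linear_combination -ht
  exact ⟨b, c, _, Prod.ext h1 rfl, h2, h3, h4⟩

theorem conj_iff {α β β' : M2} {g1 g2 : SL2} (hα : α.det ≠ 0) (h : α * (g1 : M2) = g2 * α)
    (r : ℤ) : β' * (g1 : M2) = g2 * β ↔
      (g1 : M2) * ((2 : ℤ) • (α.adjugate * β) - r • 1) * ((g1⁻¹ : SL2) : M2) =
        (2 : ℤ) • (α.adjugate * β') - r • 1 := by
  have k : α.adjugate * (g2 : M2) = g1 * α.adjugate := by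
    have := congrArg (fun x => α.adjugate * x * α.adjugate) h
    simp only [← mul_assoc, adjugate_mul, mul_assoc _ α, mul_adjugate, smul_mul_assoc, one_mul,
      mul_smul_comm, mul_one] at this
    exact (smul_right_injective _ hα this).symm
  rw [eq_comm (b := _ - _), ← mul_eq_iff, sub_mul, mul_sub, smul_mul_assoc, smul_mul_assoc,
    mul_smul_comm, mul_smul_comm, one_mul, mul_one, sub_left_inj, ← mul_assoc, ← k, mul_assoc,
    mul_assoc]
  refine ⟨fun e => by rw [e], fun e => ?_⟩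
  have := congrArg (α * ·) (smul_right_injective _ two_ne_zero e)
  simp only [← mul_assoc, mul_adjugate, smul_mul_assoc, one_mul] at this
  exact smul_right_injective _ hα this

theorem van_form (hS : OS) (hO : ORB) (hF : FS) (hI : Inv10 s) {j : ℕ} (hj : 0 < j)
    {n r b0 c0 e0 : ℤ} (hn : 0 < n) (γ1 γ2 : SL2) :
    AVan s j γ1 γ2 (r ^ 2 - 4 * n * j) (cls j b0 c0 (2 * j * e0 - r)) ↔
      Van relZ (PSet n r j (red 10 (dg j 1)) (red 10 (bm j r b0 c0 e0))) (fz s γ1 γ2) := by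
  have j0 : (0 : ℤ) < j := by exact_mod_cast hj
  have d0 : (dg j 1).det = j := by rw [det_dg, mul_one]
  refine hS.van_transport (pr j r) (fz s γ1 γ2) (hF.relC_equiv _) hF.relZ_equiv (fun p hp => ?_)
    (fun q hq => ?_) (fun p hp p' hp' => ?_) fun p hp q _ => fz_rel hI _ _ (hp.1.1 ▸ j0)
  · obtain ⟨b, c, e, h1, h2, h3, h4⟩ := fset_form hp
    have dn : (bm j r b c e).det = n := by
      have := det_bm j r b c e
      rw [h2] at this
      exact mul_left_cancel₀ (a := 4 * (j : ℤ)) (by positivity) (by linear_combination this)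
    rw [h1, pr_ymat hj]
    refine ⟨⟨d0, dn, ?_, rfl, (cls_iff hj ..).1 h3, (mob_bm hj (dn ▸ hn) _).2 h4⟩, fun d hd => ?_⟩
    · simp [dg, bm, adjugate_fin_two, trace_fin_two]
    · exact isUnit_of_dvd_one (by simpa [dg] using hd 1 1)
  · obtain ⟨g1, m1, g2, m2, e⟩ := hF.one_orbit j q.1 hj hq.1.1 hq.2 hq.1.2.2.2.1
    have k : relZ q (mv g1⁻¹ g2⁻¹ q) := relZ_iff.2 ⟨_, inv_mem m1, _, inv_mem m2, rfl⟩
    have e1 : (mv g1⁻¹ g2⁻¹ q).1 = dg j 1 := by
      simp only [mv, inv_inv]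
      rw [mul_assoc, e, ← mul_assoc, ← cmul, inv_mul_cancel,
        cone, one_mul]
    have z := hF.zset_inv _ _ _ _ _ j0 hn q hq.1 _ k
    generalize mv g1⁻¹ g2⁻¹ q = q' at k e1 z
    obtain ⟨α, β, τ⟩ := q'
    obtain ⟨-, z2, z3, -, z5, z6⟩ := z
    subst e1
    simp only at z2 z3 z5 z6
    rw [eq_bm z3] at z2 z5 z6 k
    refine ⟨(ymat j (β 0 1) (β 1 0) (2 * j * β 1 1 - r), τ), ⟨_, _, _, rfl, ?_,
      (cls_iff hj ..).2 z5, (mob_bm hj (z2 ▸ hn) _).1 z6⟩, by rwa [pr_ymat hj]⟩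
    rw [← z2, det_bm]
    ring
  · obtain ⟨b, c, e, h1, -⟩ := fset_form hp
    obtain ⟨b', c', e', h1', -⟩ := fset_form hp'
    rw [h1, h1', pr_ymat hj, pr_ymat hj, ymat_eq, ymat_eq]
    constructor
    · rintro ⟨g, hg, k⟩
      obtain ⟨g', m, k'⟩ := hF.gj_conj j hj g hg
      exact ⟨g, hg.1, g', m, k', (conj_iff (d0.trans_ne j0.ne') k' r).2 (congrArg (·.1) k),
        (congrArg (·.2) k).symm⟩
    · rintro ⟨g, m, g', m', k1, k2, k3⟩
      exact ⟨g, hF.gj_of_conj j hj g m g' m' k1,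
        Prod.ext ((conj_iff (d0.trans_ne j0.ne') k1 r).1 k2) k3.symm⟩

/-- The Heegner divisors on the curve of determinant `j` die. -/
def Aj (s : ℍ → ℍ → V) (j : ℕ) : Prop := ∀ γ1 γ2 D v, D < 0 → AVan s j γ1 γ2 D v

/-- The primitive cycles of determinant `j` die. -/
def Zp (s : ℍ → ℍ → V) (j : ℕ) : Prop :=
  ∀ (n r : ℤ) a b γ1 γ2, r ^ 2 < 4 * n * j → Van relZ (PSet n r j a b) (fz s γ1 γ2)

theorem zp_of (hS : OS) (hO : ORB) (hF : FS) (hI : Inv10 s) {j : ℕ} (hj : 0 < j) (h : Aj s j) :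
    Zp s j := by
  intro n r a b γ1 γ2 hr
  have j0 : (0 : ℤ) < j := by exact_mod_cast hj
  have hn := pos_of j0 hr
  rcases Set.eq_empty_or_nonempty (PSet n r j a b) with e | ⟨p, hp⟩
  · exact van_zero (by simp [e])
  obtain ⟨g1, g2, e⟩ := hO.smith j p.1 hj hp.1.1 hp.2
  have e1 : (mv g1⁻¹ g2⁻¹ p).1 = dg j 1 := by
    simp only [mv, inv_inv]
    rw [mul_assoc, e, ← mul_assoc, ← cmul, inv_mul_cancel,
      cone, one_mul]
  obtain ⟨-, -, z3, z4, z5, -⟩ := mv_zset j0 hn g1⁻¹ g2⁻¹ hp.1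
  rw [e1] at z3 z4
  rw [eq_bm z3] at z5
  have k := van_mv hS hO hF hI (r := r) (a := a) (b := b) j0 hn (γ1 * g1) (γ2 * g2) g1⁻¹ g2⁻¹ (by
    rw [← z4, ← z5]
    exact (van_form hS hO hF hI hj hn _ _).1 (h _ _ _ _ (by linarith)))
  rwa [mul_inv_cancel_right, mul_inv_cancel_right] at k

/-- Content and primitive part. -/
noncomputable def cp (x : M2) : ℕ × M2 :=
  Classical.epsilon fun p : ℕ × M2 => 0 < p.1 ∧ Prim p.2 ∧ x = (p.1 : ℤ) • p.2

theorem cp_spec (hO : ORB) {x : M2} (hx : 0 < x.det) :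
    0 < (cp x).1 ∧ Prim (cp x).2 ∧ x = ((cp x).1 : ℤ) • (cp x).2 :=
  Classical.epsilon_spec (hO.content x (by rintro rfl; simp at hx)).exists

theorem cp_eq (hO : ORB) {x y : M2} {k : ℕ} (hx : 0 < x.det) (hk : 0 < k) (hy : Prim y)
    (e : x = (k : ℤ) • y) : cp x = (k, y) :=
  (hO.content x (by rintro rfl; simp at hx)).unique (cp_spec hO hx) ⟨hk, hy, e⟩

theorem det_smul' (k : ℤ) (x : M2) : (k • x).det = k ^ 2 * x.det := by
  rw [det_smul, Fintype.card_fin]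

theorem tr_smul (k : ℤ) (x y : M2) :
    ((k • x).adjugate * y).trace = k * (x.adjugate * y).trace := by
  rw [adjugate_smul, smul_mul_assoc, trace_smul, Fintype.card_fin, smul_eq_mul]
  norm_num

theorem red_smul (k : ℤ) (x : M2) : red 10 (k • x) = k • red 10 x :=
  map_zsmul (Int.castRingHom (ZMod 10)).mapMatrix k x

theorem van_cont (hS : OS) (hO : ORB) (hF : FS) (hI : Inv10 s) {j : ℕ} (hj : 0 < j) (Q : ℕ → Prop)
    (h : ∀ k j' : ℕ, Q k → 0 < j' → j = k ^ 2 * j' → Zp s j') {n r : ℤ} (a b : MN 10) (γ1 γ2 : SL2)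
    (hr : r ^ 2 < 4 * n * j) :
    Van relZ {p | p ∈ ZSet n r j a b ∧ Q (cp p.1).1} (fz s γ1 γ2) := by
  have j0 : (0 : ℤ) < j := by exact_mod_cast hj
  refine hS.van_of_parts _ (fun p => ((cp p.1).1, red 10 (cp p.1).2)) (fun p hp q _ k => ?_) ?_
  · obtain ⟨g1, m1, g2, m2, rfl⟩ := relZ_iff.1 k
    have d : 0 < p.1.det := hp.1.1 ▸ j0
    obtain ⟨c1, c2, c3⟩ := cp_spec hO d
    rw [cp_eq hO (x := (mv g1 g2 p).1) ((det_mv _ _ _).symm ▸ d) c1
      (hO.prim_mul _ g2 g1⁻¹ c2) (by rw [← smul_mul_assoc, ← mul_smul_comm, ← c3]; rfl)]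
    simp only [red_mul, red_gam m2, red_gam (inv_mem m1), one_mul, mul_one]
  rintro ⟨k, a'⟩
  rcases Set.eq_empty_or_nonempty {x : X3 | x ∈ {p | p ∈ ZSet n r j a b ∧ Q (cp p.1).1} ∧
    ((cp x.1).1, red 10 (cp x.1).2) = (k, a')} with e | ⟨p0, ⟨z0, q0⟩, e0⟩
  · exact van_zero (by simp only [e]; simp)
  obtain ⟨c1, -, c3⟩ := cp_spec hO (z0.1 ▸ j0 : 0 < p0.1.det)
  obtain ⟨e1, e2⟩ := Prod.mk.inj e0
  rw [e1] at c1 c3 q0
  have k0 : (0 : ℤ) < k := by exact_mod_cast c1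
  have d1 : (j : ℤ) = k ^ 2 * (cp p0.1).2.det := by rw [← det_smul', ← c3, z0.1]
  have t1 : r = k * ((cp p0.1).2.adjugate * p0.2.1).trace := by rw [← tr_smul, ← c3, z0.2.2.1]
  have a1 : a = (k : ℤ) • a' := by rw [← e2, ← red_smul, ← c3, z0.2.2.2.1]
  generalize ((cp p0.1).2.adjugate * p0.2.1).trace = r' at t1
  obtain ⟨j', hj'⟩ := Int.eq_ofNat_of_zero_le (a := (cp p0.1).2.det)
    (le_of_lt ((mul_pos_iff_of_pos_left (pow_pos k0 2)).1 (d1 ▸ j0)))
  rw [hj'] at d1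
  have j1 : (0 : ℤ) < j' := (mul_pos_iff_of_pos_left (pow_pos k0 2)).1 (d1 ▸ j0)
  refine (hS.van_transport (S := PSet n r' j' a' b) (fun p : X3 => ((k : ℤ) • p.1, p.2))
    (fz s γ1 γ2) hF.relZ_equiv hF.relZ_equiv (fun p hp => ?_) (fun q hq => ?_)
    (fun p _ p' _ => ?_) fun p hp q _ => ?_).1
    (van_congr (h k j' q0 (by exact_mod_cast j1) (by exact_mod_cast d1) n r' a' b γ1 γ2 ?_)
      fun p hp => ?_)
  · obtain ⟨⟨z1, z2, z3, z4, z5, z6⟩, pp⟩ := hp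
    have d : ((k : ℤ) • p.1).det = j := by rw [det_smul', z1, d1]
    have c := cp_eq hO (d ▸ j0) c1 pp rfl
    refine ⟨⟨⟨d, z2, by rw [tr_smul, z3, t1], by rw [red_smul, z4, a1], z5, ?_⟩, ?_⟩, ?_⟩
    · rw [mob_smul (z1 ▸ j1) k0.ne', z6]
    · simpa only [c] using q0
    · simp only [c, z4]
  · obtain ⟨⟨⟨z1, z2, z3, z4, z5, z6⟩, -⟩, e⟩ := hq
    obtain ⟨-, c2, c4⟩ := cp_spec hO (z1 ▸ j0 : 0 < q.1.det)
    obtain ⟨e3, e4⟩ := Prod.mk.inj e
    rw [e3] at c4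
    have d : (cp q.1).2.det = j' :=
      mul_left_cancel₀ (pow_pos k0 2).ne' (by rw [← det_smul', ← c4, z1, d1])
    refine ⟨((cp q.1).2, q.2), ⟨⟨d, z2, mul_left_cancel₀ k0.ne' ?_, e4, z5, ?_⟩, c2⟩, ?_⟩
    · rw [← tr_smul, ← c4, z3, t1]
    · rw [← z6, ← mob_smul (d ▸ j1) k0.ne', ← c4]
    · simp only [← c4]
      exact hF.relZ_equiv.refl q
  · simp only [relZ, smul_mul_assoc, mul_smul_comm, (smul_right_injective M2 k0.ne').eq_iff]
  · exact fz_rel hI _ _ (hp.1.1.1 ▸ j0)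
  · rw [t1, d1] at hr
    exact lt_of_mul_lt_mul_left (a := (k : ℤ) ^ 2) (by linarith) (by positivity)
  · simp only [fz, mob_smul (hp.1.1 ▸ j1 : 0 < p.1.det) k0.ne']

theorem le_of_sq {j k j' : ℕ} (hj : 0 < j) (e : j = k ^ 2 * j') : j' ≤ j ∧ (k ≠ 1 → j' < j) := by
  have k0 : 0 < k := Nat.pos_of_ne_zero (by rintro rfl; simp at e; omega)
  have j0 : 0 < j' := Nat.pos_of_ne_zero (by rintro rfl; simp at e; omega)
  rw [e]
  exact ⟨Nat.le_mul_of_pos_left _ (by positivity),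
    fun h => lt_mul_of_one_lt_left j0 (by nlinarith [show 2 ≤ k by omega])⟩

theorem van_all (hS : OS) (hO : ORB) (hF : FS) (hI : Inv10 s) {j : ℕ} (hj : 0 < j)
    (h : ∀ j' ≤ j, 0 < j' → Aj s j') {n r : ℤ} (a b : MN 10) (γ1 γ2 : SL2)
    (hr : r ^ 2 < 4 * n * j) : Van relZ (ZSet n r j a b) (fz s γ1 γ2) := by
  simpa using van_cont hS hO hF hI hj (fun _ => True)
    (fun k j' _ p e => zp_of hS hO hF hI p (h j' (le_of_sq hj e).1 p)) a b γ1 γ2 hr

theorem exists_near {j : ℕ} (hj : 0 < j) (ρ : ℤ) :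
    ∃ r e : ℤ, ρ = 2 * j * e - r ∧ -(j : ℤ) < r ∧ r ≤ j := by
  have j0 : (0 : ℤ) < 2 * j := by positivity
  have h1 := Int.emod_nonneg (ρ + j) j0.ne'
  have h2 := Int.emod_lt_of_pos (ρ + j) j0
  have h3 := Int.mul_ediv_add_emod (ρ + j) (2 * j)
  exact ⟨j - (ρ + j) % (2 * j), (ρ + j) / (2 * j), by linarith, by linarith, by linarith⟩

theorem small_one (hB : Base s) (γ1 γ2 : SL2) {D : ℤ} (v : Cls 1) (h0 : D < 0)
    (h1 : -20 ≤ 3 * D) : AVan s 1 γ1 γ2 D v := by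
  rcases Set.eq_empty_or_nonempty (FSet 1 D v) with e | ⟨p, b, c, ρ, -, h2, -, -⟩
  · exact van_zero (by simp [e])
  have k : D = -3 ∨ D = -4 := by
    obtain ⟨t, rfl | rfl⟩ := Int.even_or_odd' ρ
    · have e : D = 4 * (t ^ 2 + b * c) := by rw [← h2]; push_cast; ring
      omega
    · have e : D = 4 * (t ^ 2 + t + b * c) + 1 := by rw [← h2]; push_cast; ring
      omega
  rcases k with rfl | rfl
  · exact (hB γ1 γ2).1 v
  · exact (hB γ1 γ2).2.1 v

theorem not_thirteen (γ1 γ2 : SL2) (v : Cls 2) : AVan s 2 γ1 γ2 (-13) v := by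
  refine van_zero ?_
  rintro p ⟨b, c, ρ, -, h2, -, -⟩
  obtain ⟨t, rfl | rfl⟩ := Int.even_or_odd' ρ
  · have e : (-13 : ℤ) = 4 * (t ^ 2 + 2 * (b * c)) := by rw [← h2]; push_cast; ring
    omega
  · obtain ⟨u, hu⟩ := Int.even_mul_succ_self t
    have e : (-13 : ℤ) = 8 * (u + b * c) + 1 := by
      push_cast at h2
      linear_combination -h2 + 4 * hu
    omega

theorem small (hS : OS) (hO : ORB) (hF : FS) (hI : Inv10 s) {j : ℕ} (hj : 2 ≤ j)
    (ih : ∀ j' < j, 0 < j' → Aj s j') (γ1 γ2 : SL2) {D : ℤ} (v : Cls j) (h0 : D < 0)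
    (h1 : -3 * (j : ℤ) ^ 2 < D) : AVan s j γ1 γ2 D v := by
  have jp : 0 < j := by omega
  have j2 : (2 : ℤ) ≤ j := by exact_mod_cast hj
  rcases Set.eq_empty_or_nonempty (FSet j D v) with e | ⟨p, b, c, ρ, -, h2, rfl, -⟩
  · exact van_zero (by simp [e])
  obtain ⟨r, e, rfl, r1, r2⟩ := exists_near jp ρ
  have d := det_bm j r b c e
  rw [h2] at d
  generalize (bm j r b c e).det = n at d
  have hr : r ^ 2 < 4 * n * j := by linarith
  have hn := pos_of (by linarith) hr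
  have hn' : n < j := by
    have : r ^ 2 ≤ (j : ℤ) ^ 2 := sq_le_sq' r1.le r2
    nlinarith
  obtain ⟨n, rfl⟩ := Int.eq_ofNat_of_zero_le hn.le
  rw [show D = r ^ 2 - 4 * n * j by linarith, van_form hS hO hF hI jp hn]
  have k := hS.van_diff (fz s γ1 γ2) hF.relZ_equiv (fun p hp => hp.1) ?_
    (hF.zset_fin n r j (red 10 (dg j 1)) (red 10 (bm j r b c e)) (by linarith) hr)
    (van_swap hS hF hI hn γ1 γ2 (van_all hS hO hF hI (by exact_mod_cast hn)
      (fun j' h => ih j' (by omega)) _ _ γ1 γ2 (by linarith)))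
    (van_cont hS hO hF hI jp (· ≠ 1) (fun k j' q p e =>
      zp_of hS hO hF hI p (ih j' ((le_of_sq jp e).2 q) p)) _ _ γ1 γ2 hr)
  · convert k using 1
    ext p
    refine ⟨fun hp => ⟨hp.1, fun hq => hq.2 ?_⟩, fun hp => ⟨hp.1, ?_⟩⟩
    · rw [cp_eq hO (k := 1) (by rw [hp.1.1]; linarith) one_pos hp.2 (by simp)]
    · obtain ⟨-, c2, c3⟩ := cp_spec hO (x := p.1) (by rw [hp.1.1]; linarith)
      have : (cp p.1).1 = 1 := by_contra fun h => hp.2 ⟨hp.1, h⟩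
      rw [this, Nat.cast_one, one_smul] at c3
      rwa [c3]
  · intro p hp q hq k
    obtain ⟨g1, -, g2, -, rfl⟩ := relZ_iff.1 k
    have d : 0 < p.1.det := by rw [hp.1.1]; linarith
    obtain ⟨c1, c2, c3⟩ := cp_spec hO d
    refine ⟨hq, ?_⟩
    rw [cp_eq hO (x := (mv g1 g2 p).1) ((det_mv _ _ _).symm ▸ d) c1
      (hO.prim_mul _ g2 g1⁻¹ c2) (by rw [← smul_mul_assoc, ← mul_smul_comm, ← c3]; rfl)]
    exact hp.2

theorem aj (hS : OS) (hO : ORB) (hF : FS) (hI : Inv10 s) (hR : Rel s) (hB : Base s) (j : ℕ) :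
    0 < j → Aj s j := by
  induction j using Nat.strong_induction_on with
  | _ j ih =>
    intro hj γ1 γ2
    have k : ∀ (m : ℕ) (D : ℤ) v, D < 0 → -D ≤ m → AVan s j γ1 γ2 D v := fun m => by
      induction m with
      | zero => exact fun D v h1 h2 => absurd h2 (by omega)
      | succ m ihm =>
        intro D v h1 h2
        rcases lt_or_ge (3 * D) (-20 * j) with c | c
        · exact hR j γ1 γ2 D v hj c fun D' v' d1 d2 => ihm D' v' d2 (by omega)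
        rcases (show j = 1 ∨ 2 ≤ j by omega) with rfl | j2
        · exact small_one hB γ1 γ2 v h1 (by simpa using c)
        rcases (show j = 2 ∨ 3 ≤ j by omega) with rfl | j3
        · have c' : -40 ≤ 3 * D := by simpa using c
          rcases (show D = -13 ∨ D = -12 ∨ -12 < D by omega) with rfl | rfl | d
          · exact not_thirteen γ1 γ2 v
          · exact (hB γ1 γ2).2.2 v
          · exact small hS hO hF hI j2 ih γ1 γ2 v h1 (by simpa using d)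
        · have j3' : (3 : ℤ) ≤ j := by exact_mod_cast j3
          exact small hS hO hF hI j2 ih γ1 γ2 v h1 (by nlinarith)
    exact fun D v h => k (-D).toNat D v h (by omega)

end Zind

theorem zind (hS : OS) (hO : ORB) (hF : FS) : ZindStmt := by
  intro V _ s hI hR hB n r j a b γ1 γ2 hj hr
  obtain ⟨j, rfl⟩ := Int.eq_ofNat_of_zero_le hj.le
  exact Zind.van_all hS hO hF hI (by exact_mod_cast hj)
    (fun j' _ => Zind.aj hS hO hF hI hR hB j') a b γ1 γ2 hr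

end Pool.Agent.MP_9207e0_ag.e3
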