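import Pool.Agent.MP_9207e0_ag.hg.All
import Pool.Agent.MP_9207e0_ag.e3.App
import Pool.Agent.MP_9207e0_ag.e3.B12a
import Pool.Agent.MP_9207e0_ag.e3.B12b
import Pool.Agent.MP_9207e0_ag.e3.B3
import Pool.Agent.MP_9207e0_ag.e3.B4
import Pool.Agent.MP_9207e0_ag.e3.Cusp
import Pool.Agent.MP_9207e0_ag.e3.E20
import Pool.Agent.MP_9207e0_ag.e3.E50
import Pool.Agent.MP_9207e0_ag.e3.Ell
import Pool.Agent.MP_9207e0_ag.e3.Emb
import Pool.Agent.MP_9207e0_ag.e3.Eta1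
import Pool.Agent.MP_9207e0_ag.e3.Eta2
import Pool.Agent.MP_9207e0_ag.e3.Fs
import Pool.Agent.MP_9207e0_ag.e3.H10
import Pool.Agent.MP_9207e0_ag.e3.Heeg
import Pool.Agent.MP_9207e0_ag.e3.Ind
import Pool.Agent.MP_9207e0_ag.e3.Inp
import Pool.Agent.MP_9207e0_ag.e3.Jrel
import Pool.Agent.MP_9207e0_ag.e3.Lc1
import Pool.Agent.MP_9207e0_ag.e3.Lc2
import Pool.Agent.MP_9207e0_ag.e3.Modb
import Pool.Agent.MP_9207e0_ag.e3.Qx0
import Pool.Agent.MP_9207e0_ag.e3.Qx1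
import Pool.Agent.MP_9207e0_ag.e3.S25
import Pool.Agent.MP_9207e0_ag.e3.Sh
import Pool.Agent.MP_9207e0_ag.e3.Sturm
import Pool.Agent.MP_9207e0_ag.e3.W2
import Pool.Agent.MP_9207e0_ag.e3.Zind

/-! The modules on special cycles and on eta quotients put together. -/

namespace Pool.Agent.MP_9207e0_ag.e3

open Pool.Agent.MP_9207e0_ag.hg

theorem a_fs : FS := fs os orb
theorem a_sh : SH := sh os orb a_fs
theorem a_finz : FinZ := all_rec.finz
theorem a_zind : ZindStmt := zind os orb a_fs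
theorem a_heeg : HeegStmt := heeg os orb a_fs
theorem a_inp : InpStmt := inp qa all_qb all_gen all_thm all_hat all_emb emb (poin all_qb)
theorem a_app : AppStmt := app all_qb all_jc os orb a_fs a_finz a_inp all_bor
theorem a_ell : EllStmt := ell all_qb os orb a_fs a_sh a_finz all_bor
theorem a_ind : IndStmt := ind qa all_gen all_emb
theorem a_b3 : B3Stmt := b3 a_fs a_sh
theorem a_b4 : B4Stmt := b4 os a_fs a_sh a_b3
theorem a_b12b : B12bStmt := b12b a_fs a_sh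
theorem a_b12a : B12aStmt := b12a os orb a_fs a_sh
theorem a_eta1 : Eta1Stmt := eta1 all_qb
theorem a_eta2 : ETA2 := eta2 all_qb a_eta1
theorem a_qx0 : QX0 := qx0 qa all_qb
theorem a_qx1 : QX1 := qx1 a_eta2 a_qx0
theorem a_cusp : CUSP := cusp all_qb orb a_eta2 a_qx0
theorem a_h10 : H10 := h10 a_eta2 a_cusp a_qx0 a_qx1 sturm
theorem a_w2 : W2Stmt := w2 a_eta1 a_eta2 a_h10
theorem a_e20 : E20Stmt := e20 a_eta2 a_cusp a_qx0 a_qx1 sturm a_h10
theorem a_s25 : S25Stmt := s25 a_eta2 a_cusp a_qx0 a_qx1 sturm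
theorem a_e50 : E50Stmt := e50 all_qb a_eta2 a_cusp a_qx0 a_qx1 sturm a_s25
theorem a_jrel : JrelStmt := jrel all_qb a_eta2 a_cusp a_qx0 a_qx1 sturm a_h10
theorem a_modb : MODB := modb qa all_qb all_jc a_eta2 a_cusp a_qx0 a_qx1 a_h10 a_s25
theorem a_lc1 : LC1 := lc1 all_qb a_eta2 a_qx0 a_qx1 a_h10 a_w2 a_e20
theorem a_lc2 : LC2 := lc2 all_qb a_eta2 a_qx0 a_qx1 a_s25 a_e50

/-- All special cycles die for a symbol with the law and the reciprocity property. -/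
theorem a_zvan {V : Type} [AddCommGroup V] (s : UpperHalfPlane → UpperHalfPlane → V) (hL : Law s)
    (hR : RecS s) : ZVan s := by
  have h0 := a_ell s hL.tf hL.inv hR (a_ind _ a_modb.pole)
  refine a_zind s hL.inv (a_app s hL.tf hL.inv hR) fun γ1 γ2 => ⟨?_, ?_, ?_⟩
  · exact a_sh.avan s γ1 γ2 1 hL.inv (by norm_num) fun a ha =>
      a_b3 s hL γ1 γ2 a (Or.inl (by simpa using ha))
  · exact a_sh.avan s γ1 γ2 0 hL.inv (by norm_num) fun a ha =>
      a_b4 s hL h0 γ1 γ2 a (by simpa using ha)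
  · rintro ⟨b, c, ρ⟩
    obtain ⟨b, rfl⟩ := ZMod.intCast_surjective b
    obtain ⟨c, rfl⟩ := ZMod.intCast_surjective c
    obtain ⟨ρ, rfl⟩ := ZMod.intCast_surjective ρ
    by_cases h : 2 ∣ c
    · exact a_b12b s hL γ1 γ2 b c ρ h
    · exact a_b12a s hL γ1 γ2 b c ρ h

end Pool.Agent.MP_9207e0_ag.e3
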