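import Pool.Agent.MP_9207e0_ag.e3.SpecB

/-! Module ETA1: the transformation law of the square of the eta function. -/

set_option linter.unusedSectionVars false
set_option linter.unusedVariables false

namespace Pool.Agent.MP_9207e0_ag.e3

open UpperHalfPlane Complex Filter Asymptotics Matrix Pool.Agent.MP_9207e0_ag.hg
open scoped Real MatrixGroups Manifold Classical Kronecker

namespace Eta1

lemma ee_add (a b : ℂ) : ee (a + b) = ee a * ee b := by
  rw [ee, ee, ee, ← Complex.exp_add, mul_add]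

lemma ee_int (b : ℤ) : ee b = 1 := by
  rw [ee, mul_comm, Complex.exp_int_mul_two_pi_mul_I]

lemma ee_zero : ee 0 = 1 := by
  rw [ee, mul_zero, Complex.exp_zero]

lemma ee_quarter : ee (-1 / 4) = -Complex.I := by
  rw [ee, ← Complex.exp_neg_pi_div_two_mul_I]
  congr 1
  ring

/-- The root of unity. -/
noncomputable def chi (g : M2) : ℂ := ee (x3 g / 3) * ee (-(x4 g : ℂ) / 4)

lemma chi_eq {g g' : M2} {u : ℤ} (h3 : ((x3 g' : ℤ) : ZMod 3) = (x3 g + u : ℤ))
    (h4 : ((x4 g' : ℤ) : ZMod 4) = (x4 g + 1 : ℤ)) :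
    chi g' = chi g * ee (u / 3 + -1 / 4) := by
  obtain ⟨k, hk⟩ := (ZMod.intCast_eq_intCast_iff_dvd_sub _ _ 3).1 h3
  obtain ⟨l, hl⟩ := (ZMod.intCast_eq_intCast_iff_dvd_sub _ _ 4).1 h4
  have e3 : ((x3 g' : ℤ) : ℂ) = x3 g + u - 3 * k := by
    exact_mod_cast (by push_cast at hk; linarith : x3 g' = x3 g + u - 3 * k)
  have e4 : ((x4 g' : ℤ) : ℂ) = x4 g + 1 - 4 * l := by
    exact_mod_cast (by push_cast at hl; linarith : x4 g' = x4 g + 1 - 4 * l)
  have e : ∀ z : ℂ, ee (z + (l - k : ℤ)) = ee z := fun z => by rw [ee_add, ee_int, mul_one]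
  rw [chi, chi, ← ee_add, ← ee_add, ← ee_add, e3, e4, ← e (_ + _ + _)]
  congr 1
  push_cast
  ring

/-- The exponent modulo four. -/
def z4 (a b c d : ZMod 4) : ZMod 4 := if 2 * c = 0 then a * c + b * d - d + 1 else c * (a + d + 1)

lemma x4_cast (g : M2) : ((x4 g : ℤ) : ZMod 4) = z4 (g 0 0) (g 0 1) (g 1 0) (g 1 1) := by
  have k : (2 * (g 1 0 : ZMod 4) = 0) ↔ ¬Odd (g 1 0) := by
    have : (2 * (g 1 0 : ZMod 4)) = ((2 * g 1 0 : ℤ) : ZMod 4) := by push_cast; rfl
    rw [this, ZMod.intCast_zmod_eq_zero_iff_dvd, Int.odd_iff]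
    push_cast
    omega
  rw [x4, z4]
  by_cases h : Odd (g 1 0)
  · rw [if_pos h, if_neg fun e => k.1 e h]
    push_cast
    rfl
  · rw [if_neg h, if_pos (k.2 h)]
    push_cast
    rfl

lemma z4_T : ∀ a b c d : ZMod 4, a * d - b * c = 1 →
    z4 a (a + b) c (c + d) = z4 a b c d + 1 := by decide

lemma z4_S : ∀ a b c d : ZMod 4, a * d - b * c = 1 →
    z4 b (-a) d (-c) = z4 a b c d + 1 := by decide

lemma z3_T : ∀ a b c d : ZMod 3, a * d - b * c = 1 →
    (a + (c + d)) * c - (a + b) * (c + d) * (c ^ 2 - 1) =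
      (a + d) * c - b * d * (c ^ 2 - 1) + 1 := by decide

lemma z3_S : ∀ a b c d : ZMod 3, a * d - b * c = 1 →
    (b + -c) * d - -a * -c * (d ^ 2 - 1) = (a + d) * c - b * d * (c ^ 2 - 1) := by decide

lemma det_cast (N : ℕ) (γ : SL2) : (((γ : M2) 0 0 : ℤ) : ZMod N) * ((γ : M2) 1 1 : ℤ) -
    ((γ : M2) 0 1 : ℤ) * ((γ : M2) 1 0 : ℤ) = 1 := by
  have h := det_SL γ
  rw [Matrix.det_fin_two] at h
  exact_mod_cast congrArg (Int.cast : ℤ → ZMod N) h

lemma mul_T (γ : SL2) : ((γ * ModularGroup.T : SL2) : M2) =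
    !![(γ : M2) 0 0, (γ : M2) 0 0 + (γ : M2) 0 1; (γ : M2) 1 0, (γ : M2) 1 0 + (γ : M2) 1 1] := by
  rw [Matrix.SpecialLinearGroup.coe_mul, ModularGroup.coe_T]
  ext i k
  fin_cases i <;> fin_cases k <;> simp [Matrix.mul_apply, Fin.sum_univ_two]

lemma mul_S (γ : SL2) : ((γ * ModularGroup.S : SL2) : M2) =
    !![(γ : M2) 0 1, -(γ : M2) 0 0; (γ : M2) 1 1, -(γ : M2) 1 0] := by
  rw [Matrix.SpecialLinearGroup.coe_mul, ModularGroup.coe_S]
  ext i k
  fin_cases i <;> fin_cases k <;> simp [Matrix.mul_apply, Fin.sum_univ_two]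

lemma chi_T (γ : SL2) :
    chi ((γ * ModularGroup.T : SL2) : M2) = chi γ * ee ((1 : ℤ) / 3 + -1 / 4) := by
  refine chi_eq ?_ ?_
  · rw [mul_T]
    simp only [x3, of_apply, cons_val', cons_val_zero, cons_val_one, cons_val_fin_one]
    push_cast
    exact z3_T _ _ _ _ (det_cast 3 γ)
  · rw [Int.cast_add, x4_cast, x4_cast, mul_T]
    simp only [of_apply, cons_val', cons_val_zero, cons_val_one, cons_val_fin_one]
    push_cast
    exact z4_T _ _ _ _ (det_cast 4 γ)

lemma chi_S (γ : SL2) :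
    chi ((γ * ModularGroup.S : SL2) : M2) = chi γ * ee ((0 : ℤ) / 3 + -1 / 4) := by
  refine chi_eq ?_ ?_
  · rw [mul_S, add_zero]
    simp only [x3, of_apply, cons_val', cons_val_zero, cons_val_one, cons_val_fin_one]
    push_cast
    exact z3_S _ _ _ _ (det_cast 3 γ)
  · rw [Int.cast_add, x4_cast, x4_cast, mul_S]
    simp only [of_apply, cons_val', cons_val_zero, cons_val_one, cons_val_fin_one]
    push_cast
    exact z4_S _ _ _ _ (det_cast 4 γ)

/-- The factor of automorphy. -/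
noncomputable def jj (γ : SL2) (τ : ℍ) : ℂ := ((γ : M2) 1 0 : ℂ) * τ + (γ : M2) 1 1

lemma jj_mul (γ δ : SL2) (τ : ℍ) : jj (γ * δ) τ = jj γ (δ • τ) * jj δ τ := by
  have h := (mob_eq_iff (det_SL_pos δ) _ _).1 (mob_SL δ τ)
  simp only [jj, Matrix.SpecialLinearGroup.coe_mul, Matrix.mul_apply, Fin.sum_univ_two]
  push_cast
  linear_combination ((γ : M2) 1 0 : ℂ) * h

/-- The law for one element. -/
def Lw (γ : SL2) : Prop := ∀ τ : ℍ, et (γ • τ) ^ 2 = chi γ * jj γ τ * et τ ^ 2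

lemma step {δ : SL2} {ε : ℂ} (h1 : ∀ γ : SL2, chi ((γ * δ : SL2) : M2) = chi γ * ε)
    (h2 : ∀ τ, et (δ • τ) ^ 2 = ε * jj δ τ * et τ ^ 2) (γ : SL2) : Lw (γ * δ) ↔ Lw γ := by
  constructor
  · intro h σ
    have k := h (δ⁻¹ • σ)
    have k' := h2 (δ⁻¹ • σ)
    rw [mul_smul, h1, jj_mul, smul_inv_smul] at k
    rw [smul_inv_smul] at k'
    rw [k, k']
    ring
  · intro h τ
    rw [mul_smul, h, h1, jj_mul, h2]
    ring

end Eta1

open Eta1 in
theorem eta1 (hB : QB) : Eta1Stmt := by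
  have hT := step chi_T fun τ => by
    have e : ee ((1 : ℤ) / 3 + -1 / 4) = ee (1 / 24) ^ 2 := by
      rw [sq, ← ee_add]
      congr 1
      push_cast
      ring
    rw [hB.et_T, e, jj, ModularGroup.coe_T]
    simp only [of_apply, cons_val', cons_val_zero, cons_val_one, cons_val_fin_one]
    push_cast
    ring
  have hS := step chi_S fun τ => by
    rw [hB.et_S, mul_pow, hB.sqr_sq, Int.cast_zero, zero_div, zero_add, ee_quarter, jj,
      ModularGroup.coe_S]
    simp only [of_apply, cons_val', cons_val_zero, cons_val_one, cons_val_fin_one]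
    push_cast
    ring
  have k : ∀ δ ∈ ({ModularGroup.S, ModularGroup.T} : Set SL2), ∀ γ, Lw (γ * δ) ↔ Lw γ := by
    rintro δ (rfl | rfl)
    · exact hS
    · exact hT
  intro γ
  have m : γ ∈ Subgroup.closure ({ModularGroup.S, ModularGroup.T} : Set SL2) := by
    rw [SpecialLinearGroup.SL2Z_generators]
    trivial
  refine Subgroup.closure_induction_right (p := fun γ _ => Lw γ) (fun τ => ?_)
    (fun x _ y hy h => (k y hy x).2 h) (fun x _ y hy h => ?_) m
  · have e3 : x3 ((1 : SL2) : M2) = 0 := by simp [x3]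
    have e4 : x4 ((1 : SL2) : M2) = 0 := by simp [x4]
    rw [one_smul, chi, e3, e4]
    simp [jj, ee_zero]
  · exact (k y hy _).1 (by rwa [inv_mul_cancel_right])

end Pool.Agent.MP_9207e0_ag.e3
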