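import Pool.Agent.MP_9207e0_ag.e3.SpecC
import Pool.Agent.MP_9207e0_ag.hg.Form
import Pool.Agent.MP_9207e0_ag.Main

/-! The symbol of a product of two Legendre curves and its reciprocity law. -/

set_option linter.unusedSectionVars false
set_option linter.unusedVariables false

namespace Pool.Agent.MP_9207e0_ag.e3

open UpperHalfPlane Complex Filter Asymptotics Matrix Pool.Agent.MP_9207e0_ag.hg
open NumberField IsDedekindDomain
open Pool.Agent.MP_a43263_nt (Pt ptMap ac WW GQ Tr)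
open scoped Real MatrixGroups Manifold Classical Kronecker

namespace Kuml

open WeierstrassCurve.Affine

variable {l m : Qbar}

lemma pl_some {x y : Qbar} (h : (legendre l).Nonsingular x y) : pl l x y = .some x y h :=
  dif_pos h

lemma exists_good (h0 : l ≠ 0) (h1 : l ≠ 1) (Z : Finset (legendre l).Point) :
    ∃ (p q : Qbar) (h : (legendre l).Nonsingular p q), IsOfFinAddOrder (Point.some p q h) ∧
      ∀ P ∈ Z, 2 • (P + Point.some p q h) ≠ 0 ∧ P ≠ Point.some p q h := by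
  have f1 : (⋃ P ∈ (Z : Set (legendre l).Point), {u | 2 • (u + P) = 0}).Finite :=
    Z.finite_toSet.biUnion fun P _ => (leg_nice h0 h1).fin_shift P
  obtain ⟨τ, t1, -, -, t4⟩ := leg_tors h0 h1
  obtain ⟨k, ht⟩ := (((f1.union Z.finite_toSet).insert 0).preimage t1.injOn).exists_notMem
  have hk : IsOfFinAddOrder (τ k) :=
    isOfFinAddOrder_iff_nsmul_eq_zero.2 ⟨_, by positivity, t4 k⟩
  rw [Set.mem_preimage] at ht
  generalize τ k = t at ht hk
  simp only [Set.mem_insert_iff, Set.mem_union, Set.mem_iUnion, Set.mem_ofPred_eq, not_or,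
    not_exists] at ht
  rcases t with _ | ⟨p, q, h⟩
  · exact absurd rfl ht.1
  refine ⟨p, q, h, hk, fun P hP => ⟨?_, ?_⟩⟩
  · rw [add_comm]; exact ht.2.1 P hP
  · rintro rfl
    exact ht.2.2 hP

variable {F : Type} [Field F] [Algebra Qbar F] {W : ValuationSubring F}

/-- The point `(x, y)` with coordinates in `F` has the value `P` at `W`. -/
def Red (W : ValuationSubring F) (x y : F) (P : (legendre l).Point) : Prop :=
  (x ∉ W ∧ P = 0) ∨ ∃ a b h, P = Point.some a b h ∧ Sp W x a ∧ Sp W y b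

lemma exists_red (h0 : l ≠ 0) (h1 : l ≠ 1) (hF : IsCurveField F) (hW : IsPlace W) {x y : F}
    (e : y ^ 2 = fl (algebraMap Qbar F l) x) : ∃ P : (legendre l).Point, Red W x y P := by
  by_cases hx : x ∈ W
  · obtain ⟨a, ha⟩ := Kum.exists_sp hF hW hx
    have k := Sp.fl hW (Sp.const W l) ha
    have k1 := k.val_le hW
    rw [← e, map_pow, pow_le_one_iff two_ne_zero, W.valuation_le_one_iff] at k1
    obtain ⟨b, hb⟩ := Kum.exists_sp hF hW k1
    rw [← e] at k
    exact ⟨_, Or.inr ⟨a, b, leg_ns h0 h1 ((hb.pow hW 2).unique hW k), rfl, ha, hb⟩⟩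
  · exact ⟨0, Or.inl ⟨hx, rfl⟩⟩

lemma Red.eq (hW : IsPlace W) {x y : F} {P : (legendre l).Point} (h : Red W x y P) {a b : Qbar}
    (ha : Sp W x a) (hb : Sp W y b) : P = pl l a b := by
  rcases h with ⟨h, -⟩ | ⟨a', b', h, rfl, ha', hb'⟩
  · exact absurd (ha.mem hW) h
  · obtain rfl := ha.unique hW ha'
    obtain rfl := hb.unique hW hb'
    exact (pl_some h).symm

lemma Red.tors (hW : IsPlace W) {x y : F} {P : (legendre l).Point} (h : Red W x y P)
    (h0 : x ∉ W ∨ ∃ u, Sp W x u ∧ ∀ v, IsOfFinAddOrder (pl l u v)) : IsOfFinAddOrder P := by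
  rcases h with ⟨-, rfl⟩ | ⟨a', b', h, rfl, ha', hb'⟩
  · exact IsOfFinAddOrder.zero
  · rcases h0 with h0 | ⟨u, hu, h0⟩
    · exact absurd (ha'.mem hW) h0
    · obtain rfl := hu.unique hW ha'
      exact pl_some h ▸ h0 b'

/-- First coordinate of the translate. -/
noncomputable def tX (l : Qbar) (x y : F) (p q : Qbar) : F :=
  sX (algebraMap Qbar F l) x (algebraMap Qbar F p)
    ((y - algebraMap Qbar F q) / (x - algebraMap Qbar F p))

/-- Second coordinate of the translate. -/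
noncomputable def tY (l : Qbar) (x y : F) (p q : Qbar) : F :=
  sY (algebraMap Qbar F l) x (algebraMap Qbar F p) y
    ((y - algebraMap Qbar F q) / (x - algebraMap Qbar F p))

lemma pole_id {K : Type} [Field K] {l s m p q : K} (hs : s ≠ 0) (hd : 1 - p * s ≠ 0)
    (e : m ^ 2 = s * (1 - s) * (1 - l * s)) (e' : q ^ 2 = fl l p) :
    sX l s⁻¹ p ((m / s ^ 2 - q) / (s⁻¹ - p)) =
      p + ((3 * p ^ 2 - 2 * (1 + l) * p + l) * s - 2 * q * m - (p ^ 3 - l * p) * s ^ 2) /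
        (1 - p * s) ^ 2 ∧
    sY l s⁻¹ p (m / s ^ 2) ((m / s ^ 2 - q) / (s⁻¹ - p)) =
      -q - ((3 * p ^ 2 - 2 * (1 + l) * p + l) * (m - q * s ^ 2) -
        2 * q * ((1 - s) * (1 - l * s)) + 2 * q ^ 2 * m * s -
        (p ^ 3 - l * p) * (m * s - q * s ^ 3)) / (1 - p * s) ^ 3 := by
  have hd' : 1 - s * p ≠ 0 := by rwa [mul_comm]
  rw [fl] at e'
  have hL : (m / s ^ 2 - q) / (s⁻¹ - p) = (m - q * s ^ 2) / (s * (1 - p * s)) := by
    have : s⁻¹ - p = (1 - p * s) / s := by field_simp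
    rw [this]
    field_simp
  have hX : sX l s⁻¹ p ((m / s ^ 2 - q) / (s⁻¹ - p)) =
      p + ((3 * p ^ 2 - 2 * (1 + l) * p + l) * s - 2 * q * m - (p ^ 3 - l * p) * s ^ 2) /
        (1 - p * s) ^ 2 := by
    rw [hL, sX]
    field_simp
    linear_combination e + s ^ 4 * e'
  refine ⟨hX, ?_⟩
  rw [sY, hX, hL]
  field_simp
  linear_combination (2 * q * s) * e

lemma red_add (hW : IsPlace W) {x y : F} (e : y ^ 2 = fl (algebraMap Qbar F l) x)
    {P : (legendre l).Point} (h : Red W x y P) {p q : Qbar} (hpq : (legendre l).Nonsingular p q)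
    (h1 : 2 • (P + Point.some p q hpq) ≠ 0) (h2 : P ≠ Point.some p q hpq) :
    x ≠ algebraMap Qbar F p ∧ ∃ A B hAB, P + Point.some p q hpq = Point.some A B hAB ∧ B ≠ 0 ∧
      Sp W (tX l x y p q) A ∧ Sp W (tY l x y p q) B := by
  rcases h with ⟨h, rfl⟩ | ⟨a, b, h, rfl, ha, hb⟩
  · refine ⟨fun hx => h (hx ▸ hW.2 p), p, q, hpq, zero_add _, fun h0 => h1 (by
      rw [zero_add]; exact (two_smul_some hpq).2 h0), ?_⟩
    have hx0 : x ≠ 0 := fun h0 => h (h0 ▸ W.zero_mem)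
    have hs : Sp W x⁻¹ 0 := by
      rw [Sp.zero_iff, map_inv₀]
      exact inv_lt_one_of_one_lt₀ (not_le.1 fun h' => h ((W.valuation_le_one_iff x).1 h'))
    have em : (y / x ^ 2) ^ 2 = x⁻¹ * (1 - x⁻¹) * (1 - algebraMap Qbar F l * x⁻¹) := by
      rw [div_pow, e, fl]; field_simp
    have hl := Sp.const W l
    have c0 := (Sp.one W).sub hs
    have c1 := (Sp.one W).sub (hl.mul hW hs)
    have hm : Sp W (y / x ^ 2) 0 := by
      have h3 := (hs.mul hW c0).mul hW c1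
      rw [← em, zero_mul, zero_mul, Sp.zero_iff, map_pow, pow_lt_one_iff two_ne_zero] at h3
      exact Sp.zero_iff.2 h3
    have hp := Sp.const W p
    have hq := Sp.const W q
    have hd := (Sp.one W).sub (hp.mul hW hs)
    have hd0 : (1 : Qbar) - p * 0 ≠ 0 := by simp
    have e' : algebraMap Qbar F q ^ 2 = fl (algebraMap Qbar F l) (algebraMap Qbar F p) := by
      rw [← map_pow, (leg_eq _ _).1 hpq.1, map_fl]
    obtain ⟨k1, k2⟩ := pole_id (inv_ne_zero hx0) (hd.ne_zero hW hd0) em e'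
    have ey : y / x ^ 2 / x⁻¹ ^ 2 = y := by field_simp
    rw [inv_inv, ey] at k1 k2
    have c2 := Sp.ofNat W 2
    have c3 := (((Sp.ofNat W 3).mul hW (hp.pow hW 2)).sub
      ((c2.mul hW ((Sp.one W).add hl)).mul hW hp)).add hl
    have c4 := (hp.pow hW 3).sub (hl.mul hW hp)
    rw [tX, tY, k1, k2]
    constructor
    · have := hp.add ((((c3.mul hW hs).sub ((c2.mul hW hq).mul hW hm)).sub
        (c4.mul hW (hs.pow hW 2))).div hW (hd.pow hW 2) (pow_ne_zero 2 hd0))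
      rwa [show ∀ a b c : Qbar, p + (a * 0 - b * 0 - c * 0 ^ 2) / (1 - p * 0) ^ 2 = p from
        fun _ _ _ => by simp] at this
    · have := hq.neg.sub (((((c3.mul hW (hm.sub (hq.mul hW (hs.pow hW 2)))).sub
        ((c2.mul hW hq).mul hW (c0.mul hW c1))).add
        (((c2.mul hW (hq.pow hW 2)).mul hW hm).mul hW hs)).sub
        (c4.mul hW ((hm.mul hW hs).sub (hq.mul hW (hs.pow hW 3))))).div hW (hd.pow hW 3)
        (pow_ne_zero 3 hd0))
      rwa [show ∀ a c : Qbar, -q - (a * (0 - q * 0 ^ 2) - 2 * q * ((1 - 0) * (1 - l * 0)) +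
        2 * q ^ 2 * 0 * 0 - c * (0 * 0 - q * 0 ^ 3)) / (1 - p * 0) ^ 3 = q from
        fun _ _ => by simp; ring] at this
  · have hap : a ≠ p := by
      intro hap
      rcases (Point.X_eq_iff (h₁ := h) (h₂ := hpq)).mp hap with h3 | h3
      · exact h2 h3
      · exact h1 (by rw [h3, neg_add_cancel, nsmul_zero])
    have hd := ha.sub (Sp.const W p)
    have hL := (hb.sub (Sp.const W q)).div hW hd (sub_ne_zero.2 hap)
    obtain ⟨h3, e3⟩ := add_X_ne h hpq hap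
    refine ⟨sub_ne_zero.1 (hd.ne_zero hW (sub_ne_zero.2 hap)), _, _, h3, e3, fun h0 => h1 (by
      rw [e3]; exact (two_smul_some h3).2 h0), ?_, ?_⟩
    · exact Sp.sX hW (Sp.const W _) ha (Sp.const W p) hL
    · exact Sp.sY hW (Sp.const W _) ha (Sp.const W p) hb hL

/-- A translate by a torsion point has good values at all places of `T`. -/
lemma translate (h0 : l ≠ 0) (h1 : l ≠ 1) (hF : IsCurveField F)
    {T : Finset (ValuationSubring F)} (hT : ∀ W ∈ T, IsPlace W) (hW : W ∈ T) {x y : F}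
    (e : y ^ 2 = fl (algebraMap Qbar F l) x) :
    ∃ (P : ValuationSubring F → (legendre l).Point) (X Y : F) (t : (legendre l).Point)
      (A B : ValuationSubring F → Qbar), Y ^ 2 = fl (algebraMap Qbar F l) X ∧
      IsOfFinAddOrder t ∧ ∀ W ∈ T, Red W x y (P W) ∧
        (∃ hAB, P W + t = Point.some (A W) (B W) hAB) ∧ B W ≠ 0 ∧
        Sp W X (A W) ∧ Sp W Y (B W) := by
  choose! P hP using fun W (hW : W ∈ T) => exists_red h0 h1 hF (hT W hW) e
  obtain ⟨p, q, hpq, hk, hg⟩ := exists_good h0 h1 (T.image P)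
  have k := fun W (hW : W ∈ T) => red_add (hT W hW) e (hP W hW) hpq
    (hg _ (Finset.mem_image_of_mem P hW)).1 (hg _ (Finset.mem_image_of_mem P hW)).2
  have : ∀ W ∈ T, ∃ A B : Qbar, (∃ hAB, P W + Point.some p q hpq = Point.some A B hAB) ∧ B ≠ 0 ∧
      Sp W (tX l x y p q) A ∧ Sp W (tY l x y p q) B := fun W hW => by
    obtain ⟨-, A, B, hAB, k1, k2⟩ := k W hW
    exact ⟨A, B, ⟨hAB, k1⟩, k2⟩
  choose! A B hAB using this
  exact ⟨P, tX l x y p q, tY l x y p q, _, A, B,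
    chord_eq e (by rw [← map_pow, (leg_eq _ _).1 hpq.1, map_fl]) (k W hW).1, hk,
    fun W hW => ⟨hP W hW, hAB W hW⟩⟩

variable {G : Type} [AddCommGroup G] {γ : Qbar → Qbar → Qbar → G} {κ : G}
  {β : (legendre l).Point →+ (legendre m).Point →+ G}

lemma rel_finset (hγ : CurveRel l m γ) (hF : IsCurveField F) {x u r h : F}
    (e : r ^ 2 = fl (algebraMap Qbar F l) x * fl (algebraMap Qbar F m) u) (hr : r ≠ 0)
    (hh : h ≠ 0) (S : Finset (ValuationSubring F)) (hS : ∀ W ∈ S, IsPlace W)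
    (hW : ∀ W, IsPlace W → W ∉ S → ordAt W h = 0) (a b c : ValuationSubring F → Qbar)
    (hs : ∀ W ∈ S, Sp W x (a W) ∧ Sp W u (b W) ∧ Sp W r (c W) ∧ c W ≠ 0) :
    ∑ W ∈ S, ordAt W h • γ (a W) (b W) (c W) = 0 := by
  let V : Fin S.card → ValuationSubring F := fun i => (S.equivFin.symm i).1
  have hV : ∀ i, V i ∈ S := fun i => (S.equivFin.symm i).2
  have key := hγ F hF x u r h e hr hh S.card V
    (Subtype.val_injective.comp S.equivFin.symm.injective) (fun i => hS _ (hV i))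
    (fun W h1 h2 => hW W h1 fun h3 => h2 ⟨S.equivFin ⟨W, h3⟩, by simp [V]⟩)
    (fun i => a (V i)) (fun i => b (V i)) (fun i => c (V i)) (fun i => (hs _ (hV i)).1)
    (fun i => (hs _ (hV i)).2.1) (fun i => (hs _ (hV i)).2.2.1) (fun i => (hs _ (hV i)).2.2.2)
  rw [← key, ← Finset.sum_coe_sort S]
  exact (Equiv.sum_comp S.equivFin.symm
    fun W : S => ordAt W.1 h • γ (a W.1) (b W.1) (c W.1)).symm

lemma tors {A : Type} [AddCommGroup A] (tf : TF G) (f : A →+ G) {P : A}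
    (h : IsOfFinAddOrder P) : f P = 0 := by
  obtain ⟨n, hn, h⟩ := isOfFinAddOrder_iff_nsmul_eq_zero.1 h
  refine tf (n : ℤ) _ (by positivity) ?_
  rw [natCast_zsmul, ← map_nsmul, h, map_zero]

lemma exists_diag (l m : Qbar) : ∃ t r : Qbar, r ^ 2 = fl l t * fl m t ∧ r ≠ 0 := by
  obtain ⟨t, ht⟩ := (Set.toFinite ({0, 1, l, m} : Set Qbar)).exists_notMem
  simp only [Set.mem_insert_iff, Set.mem_singleton_iff, not_or] at ht
  obtain ⟨r, hr⟩ := exists_sq (fl l t * fl m t)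
  refine ⟨t, r, hr, fun h => ?_⟩
  rw [h, zero_pow two_ne_zero, eq_comm, mul_eq_zero, fl_eq_zero, fl_eq_zero] at hr
  tauto

lemma recip (hl0 : l ≠ 0) (hl1 : l ≠ 1) (hm0 : m ≠ 0) (hm1 : m ≠ 1) (tf : TF G)
    (hγ : CurveRel l m γ)
    (hβ : ∀ (x y u v : Qbar) (h : (legendre l).Nonsingular x y)
      (h' : (legendre m).Nonsingular u v), y * v ≠ 0 →
      γ x u (y * v) = κ + β (Point.some x y h) (Point.some u v h'))
    (hκ : ∀ t r : Qbar, r ^ 2 = fl l t * fl m t → r ≠ 0 → γ t t r = κ) : RecL l m β := by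
  intro F _ _ hF x1 y1 x2 y2 h e1 e2 hh S a b a' b' hS hout
  rcases S.eq_empty_or_nonempty with rfl | ⟨W0, hW0⟩
  · simp
  let T : Finset (ValuationSubring F) := S ∪ (Kum.fin_supp hF hh).toFinset
  have hST : S ⊆ T := Finset.subset_union_left
  have hT : ∀ W ∈ T, IsPlace W := by
    intro W hW
    rcases Finset.mem_union.1 hW with h1 | h1
    · exact (hS W h1).1
    · exact ((Set.Finite.mem_toFinset _).1 h1).1
  have hT0 : ∀ W, IsPlace W → W ∉ T → ordAt W h = 0 := by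
    intro W h1 h2
    by_contra h3
    exact h2 (Finset.mem_union_right _ ((Set.Finite.mem_toFinset _).2 ⟨h1, h3⟩))
  obtain ⟨P, X1, Y1, t1, A1, B1, f1, z1, g1⟩ := translate hl0 hl1 hF hT (hST hW0) e1
  obtain ⟨Q, X2, Y2, t2, A2, B2, f2, z2, g2⟩ := translate hm0 hm1 hF hT (hST hW0) e2
  have hsp : ∀ W ∈ T, Sp W X1 (A1 W) ∧ Sp W X2 (A2 W) ∧ Sp W (Y1 * Y2) (B1 W * B2 W) ∧
      B1 W * B2 W ≠ 0 := fun W hW =>
    ⟨(g1 W hW).2.2.2.1, (g2 W hW).2.2.2.1, (g1 W hW).2.2.2.2.mul (hT W hW) (g2 W hW).2.2.2.2,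
      mul_ne_zero (g1 W hW).2.2.1 (g2 W hW).2.2.1⟩
  have r1 := rel_finset hγ hF (by rw [mul_pow, f1, f2])
    ((hsp W0 (hST hW0)).2.2.1.ne_zero (hT W0 (hST hW0)) (hsp W0 (hST hW0)).2.2.2) hh T hT hT0
    A1 A2 (fun W => B1 W * B2 W) hsp
  obtain ⟨t, r, er, r0⟩ := exists_diag l m
  have r2 := rel_finset hγ hF (x := algebraMap Qbar F t) (u := algebraMap Qbar F t)
    (r := algebraMap Qbar F r) (by rw [← map_pow, er, map_mul, map_fl, map_fl])
    (by rwa [map_ne_zero]) hh T hT hT0 (fun _ => t) (fun _ => t) (fun _ => r)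
    fun W _ => ⟨Sp.const W _, Sp.const W _, Sp.const W _, r0⟩
  rw [hκ t r er r0] at r2
  have tl : ∀ {P}, IsOfFinAddOrder P → ∀ Q, β P Q = 0 := fun h Q => tors tf (β.flip Q) h
  have r3 : ∑ W ∈ T, ordAt W h • β (P W) (Q W) = 0 := by
    rw [← sub_eq_zero.2 (r1.trans r2.symm), ← Finset.sum_sub_distrib]
    refine Finset.sum_congr rfl fun W hW => ?_
    obtain ⟨-, ⟨n1, p1⟩, q1, -⟩ := g1 W hW
    obtain ⟨-, ⟨n2, p2⟩, q2, -⟩ := g2 W hW
    rw [hβ _ _ _ _ n1 n2 (mul_ne_zero q1 q2), ← p1, ← p2, map_add (β (P W + t1)), tors tf _ z2,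
      add_zero, map_add, AddMonoidHom.add_apply, tl z1, add_zero, smul_add, add_sub_cancel_left]
  rw [← r3]
  refine Finset.sum_subset_zero_on_sdiff hST (fun W hW => ?_) fun W hW => ?_
  · rw [Finset.mem_sdiff] at hW
    by_cases h0 : ordAt W h = 0
    · rw [h0, zero_smul]
    · rw [tl ((g1 W hW.1).1.tors (hT W hW.1) (hout W (hT W hW.1) hW.2 h0)), smul_zero]
  · obtain ⟨c0, c1, c2, c3, c4⟩ := hS W hW
    rw [(g1 W (hST hW)).1.eq c0 c1 c2, (g2 W (hST hW)).1.eq c0 c3 c4]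

end Kuml

theorem kuml : KumlStmt := by
  intro l m hl0 hl1 hm0 hm1 G _ γ tf hγ
  obtain ⟨b0, rfl⟩ := exists_sq l
  obtain ⟨c0, rfl⟩ := exists_sq m
  obtain ⟨κ, β, h1, -, h2⟩ := exists_beta hl0 hl1 hm0 hm1 hγ
  exact ⟨κ, β, Kuml.recip hl0 hl1 hm0 hm1 tf hγ h1 h2, h1, h2⟩

end Pool.Agent.MP_9207e0_ag.e3
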