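import Pool.Agent.MP_9207e0_ag.e3.SpecB

/-! First terms of the expansions at infinity. -/

set_option linter.unusedSectionVars false
set_option linter.unusedVariables false

namespace Pool.Agent.MP_9207e0_ag.e3

open UpperHalfPlane Complex Filter Asymptotics Matrix Pool.Agent.MP_9207e0_ag.hg
open scoped Real MatrixGroups Manifold Classical Kronecker

namespace Qx1

/-- The polynomial in `q` with the given coefficients. -/
noncomputable def ev : List ℤ → ℍ → ℂ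
  | [] => 0
  | a :: l => (a : ℍ → ℂ) + qq * ev l

lemma bd (h0 : QX0) (l : List ℤ) : Gr 0 (ev l) := by
  induction l with
  | nil => exact gr_const 0
  | cons a l ih =>
    have h := (h0.q 0).1.mul ih
    rw [add_zero] at h
    exact (gr_const (a : ℂ)).add h

lemma red (h0 : QX0) {k : ℕ} {a a' b : ℍ → ℂ} (l r : List ℤ) (h : Cg k a a') (hb : b = ev l)
    (e : a' = b + qq ^ k * ev r) : Cg k a b :=
  h0.trans h (h0.of_eq (hb ▸ bd h0 l) (bd h0 r) e)

lemma key (h0 : QX0) {k : ℕ} {f a b A B p : ℍ → ℂ} (l r : List ℤ) (hf : f = a / b)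
    (ha : Cg k a A) (hb : Cg k b B) (hi : Gr 0 b⁻¹) (hn : ∀ τ, b τ ≠ 0) (hp : p = ev l)
    (e : A = p * B + qq ^ k * ev r) : Cg k f p := by
  have h1 : Gr 0 p := hp ▸ bd h0 l
  have h2 := h0.mul (h0.refl k h1) hb
  rw [hf]
  exact h0.div h1 hi hn (h0.trans (h0.trans ha (h0.of_eq h2.2.1 (bd h0 r) e)) (h0.symm h2))

lemma ipow (h0 : QX0) {a : ℍ → ℂ} (n : ℕ) (h : Gr 0 a⁻¹) : Gr 0 (a ^ n)⁻¹ := by
  rw [← inv_pow]; exact (h0.pow n (h0.refl 0 h)).1

lemma imul (h0 : QX0) {a b : ℍ → ℂ} (h : Gr 0 a⁻¹) (h' : Gr 0 b⁻¹) : Gr 0 (a * b)⁻¹ := by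
  rw [mul_inv]; exact (h0.mul (h0.refl 0 h) (h0.refl 0 h')).1

/-- `q ^ (-1 / 24)`. -/
noncomputable def ww (τ : ℍ) : ℂ := ee (-(τ : ℂ) / 24)

lemma ww_ne (τ : ℍ) : ww τ ≠ 0 := Complex.exp_ne_zero _

lemma pe_eq (d : ℕ) (τ : ℍ) : pe d τ = ed d τ * ww τ ^ d := by
  unfold pe ww ee
  rw [← Complex.exp_nat_mul]; congr 2; ring

lemma qq_eq (τ : ℍ) : qq τ = (ww τ ^ 24)⁻¹ := by
  unfold qq ww ee
  rw [← Complex.exp_nat_mul, ← Complex.exp_neg]; congr 1; push_cast; ring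

lemma pe_ne (h2 : ETA2) (d : ℕ) (τ : ℍ) : pe d τ ≠ 0 := by
  rw [pe_eq]; exact mul_ne_zero (h2.ne d τ) (pow_ne_zero _ (ww_ne τ))

lemma ed_one (τ : ℍ) : ed 1 τ = et τ := by
  unfold ed
  have : dg ((1 : ℕ) : ℤ) 1 = 1 := by
    ext i j; fin_cases i <;> fin_cases j <;> simp [dg]
  rw [this, mob_one]

lemma p1 (h0 : QX0) : Cg 12 (pe 1) (1 - qq - qq ^ 2 + qq ^ 5 + qq ^ 7) := by
  simpa using h0.pe 1 one_pos

lemma big (h0 : QX0) (d k : ℕ) (hd : 0 < d) (hk : k ≤ d) : Cg k (pe d) 1 := by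
  have h := h0.mono (show d ≤ 12 * d by omega) (h0.pe d hd)
  have hq := (h0.q 0).1
  have hp : ∀ n, Cg 0 (qq ^ n) (qq ^ n) := fun n => h0.pow n (h0.q 0)
  have h1 : Cg 0 (1 : ℍ → ℂ) 1 := h0.refl 0 (gr_const 1)
  refine h0.mono hk (h0.trans h (h0.of_eq (gr_const 1)
    (h0.sub (h0.sub (h0.add (hp (4 * d)) (hp (6 * d))) (hp d)) h1).1 ?_))
  ring

lemma p17 (h0 : QX0) : Cg 7 (pe 1) (1 - qq - qq ^ 2 + qq ^ 5) :=
  red h0 [1, -1, -1, 0, 0, 1] [1] (h0.mono (by norm_num) (p1 h0))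
    (by simp only [ev]; push_cast; ring) (by simp only [ev]; push_cast; ring)

lemma p14 (h0 : QX0) : Cg 4 (pe 1) (1 - qq - qq ^ 2) :=
  red h0 [1, -1, -1] [0, 1, 0, 1] (h0.mono (by norm_num) (p1 h0))
    (by simp only [ev]; push_cast; ring) (by simp only [ev]; push_cast; ring)

lemma p27 (h0 : QX0) : Cg 7 (pe 2) (1 - qq ^ 2 - qq ^ 4) :=
  red h0 [1, 0, -1, 0, -1] [0, 0, 0, 1, 0, 0, 0, 1] (h0.mono (by norm_num) (h0.pe 2 two_pos))
    (by simp only [ev]; push_cast; ring) (by simp only [ev]; push_cast; ring)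

lemma p24 (h0 : QX0) : Cg 4 (pe 2) (1 - qq ^ 2) :=
  red h0 [1, 0, -1] [-1] (h0.mono (by norm_num) (p27 h0))
    (by simp only [ev]; push_cast; ring) (by simp only [ev]; push_cast; ring)

lemma p511 (h0 : QX0) : Cg 11 (pe 5) (1 - qq ^ 5 - qq ^ 10) :=
  red h0 [1, 0, 0, 0, 0, -1, 0, 0, 0, 0, -1]
    [0, 0, 0, 0, 0, 0, 0, 0, 0, 0, 0, 0, 0, 0, 1, 0, 0, 0, 0, 0, 0, 0, 0, 0, 1]
    (h0.mono (by norm_num) (h0.pe 5 (by norm_num)))
    (by simp only [ev]; push_cast; ring) (by simp only [ev]; push_cast; ring)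

lemma p57 (h0 : QX0) : Cg 7 (pe 5) (1 - qq ^ 5) :=
  red h0 [1, 0, 0, 0, 0, -1] [0, 0, 0, -1] (h0.mono (by norm_num) (p511 h0))
    (by simp only [ev]; push_cast; ring) (by simp only [ev]; push_cast; ring)

lemma d1 (h0 : QX0) : Cg 4 (pe 1 ^ 24) (1 - 24 * qq + 252 * qq ^ 2 - 1472 * qq ^ 3) := by
  have h4 : Cg 4 (pe 1 ^ 4) (1 - 4 * qq + 2 * qq ^ 2 + 8 * qq ^ 3) :=
    red h0 [1, -4, 2, 8] [-5, -8, 2, 4, 1] (h0.pow 4 (p14 h0))
      (by simp only [ev]; push_cast; ring) (by simp only [ev]; push_cast; ring)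
  have h := h0.pow 6 h4
  rw [← pow_mul] at h
  exact red h0 [1, -24, 252, -1472]
    [4860, -6624, -12064, 64512, -71952, -120960, 364992, -58368, -701376, 493056, 752640,
      -704512, -540672, 393216, 262144] h
    (by simp only [ev]; push_cast; ring) (by simp only [ev]; push_cast; ring)

lemma d2 (h0 : QX0) : Cg 4 (pe 2 ^ 24) (1 - 24 * qq ^ 2) := by
  have h4 : Cg 4 (pe 2 ^ 4) (1 - 4 * qq ^ 2) :=
    red h0 [1, 0, -4] [6, 0, -4, 0, 1] (h0.pow 4 (p24 h0))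
      (by simp only [ev]; push_cast; ring) (by simp only [ev]; push_cast; ring)
  have h := h0.pow 6 h4
  rw [← pow_mul] at h
  exact red h0 [1, 0, -24] [240, 0, -1280, 0, 3840, 0, -6144, 0, 4096] h
    (by simp only [ev]; push_cast; ring) (by simp only [ev]; push_cast; ring)

end Qx1

open Qx1 in
theorem qx1 (h2 : ETA2) (h0 : QX0) : QX1 := by
  have i1 := h0.pe_inv 1 one_pos
  have i2 := h0.pe_inv 2 two_pos
  have i10 := h0.pe_inv 10 (by norm_num)
  have i25 := h0.pe_inv 25 (by norm_num)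
  have n := pe_ne h2
  refine ⟨?_, ?_, ?_, ?_, ?_, ?_, ?_⟩
  · refine key h0 [1, 1, 1, 2, 2, -2, -1]
      [1, -3, 3, 12, 1, -10, 0, -10, -10, 0, 10, 0, 10, 5, 0, -5, 0, -5, -1, 0, 1, 0, 1] ?_
      (h0.mul (p27 h0) (h0.pow 5 (p57 h0)))
      (h0.mul (p17 h0) (h0.pow 5 (big h0 10 7 (by norm_num) (by norm_num))))
      (imul h0 i1 (ipow h0 5 i10)) (fun τ => mul_ne_zero (n 1 τ) (pow_ne_zero 5 (n 10 τ)))
      (by simp only [ev]; push_cast; ring) (by simp only [ev]; push_cast; ring)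
    funext τ
    have := h2.ne 1 τ; have := h2.ne 10 τ; have := ww_ne τ
    simp only [Pi.mul_apply, Pi.div_apply, Pi.pow_apply, pe_eq, qq_eq, hh]
    field_simp
  · refine key h0 [1, 2, 1] [2, 2, -4, -5, 0, 1] ?_
      (h0.mul (h0.pow 4 (h0.mono (by norm_num) (p24 h0)))
        (h0.pow 2 (big h0 5 3 (by norm_num) (by norm_num))))
      (h0.mul (h0.pow 2 (h0.mono (by norm_num) (p14 h0)))
        (h0.pow 4 (big h0 10 3 (by norm_num) (by norm_num))))
      (imul h0 (ipow h0 2 i1) (ipow h0 4 i10))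
      (fun τ => mul_ne_zero (pow_ne_zero 2 (n 1 τ)) (pow_ne_zero 4 (n 10 τ)))
      (by simp only [ev]; push_cast; ring) (by simp only [ev]; push_cast; ring)
    funext τ
    have := h2.ne 1 τ; have := h2.ne 10 τ; have := ww_ne τ
    simp only [Pi.mul_apply, Pi.div_apply, Pi.pow_apply, pe_eq, qq_eq, kk]
    field_simp
  · refine key h0 [1, -3, 1] [2, 1, -3, -1] ?_
      (h0.mul (h0.pow 3 (h0.mono (by norm_num) (p14 h0)))
        (big h0 5 3 (by norm_num) (by norm_num)))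
      (h0.mul (h0.mono (by norm_num) (p24 h0))
        (h0.pow 3 (big h0 10 3 (by norm_num) (by norm_num))))
      (imul h0 i2 (ipow h0 3 i10)) (fun τ => mul_ne_zero (n 2 τ) (pow_ne_zero 3 (n 10 τ)))
      (by simp only [ev]; push_cast; ring) (by simp only [ev]; push_cast; ring)
    funext τ
    have := h2.ne 2 τ; have := h2.ne 10 τ; have := ww_ne τ
    simp only [Pi.mul_apply, Pi.div_apply, Pi.pow_apply, pe_eq, qq_eq, ll]
    field_simp
  · refine key h0 [1, -1, -1, 0, 0, 1, 0, 1] [] ?_ (p1 h0)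
      (big h0 25 12 (by norm_num) (by norm_num)) i25 (n 25)
      (by simp only [ev]; push_cast; ring) (by simp only [ev]; ring)
    funext τ
    have := h2.ne 25 τ; have := ww_ne τ
    simp only [Pi.mul_apply, Pi.div_apply, Pi.pow_apply, pe_eq, qq_eq, ss]
    field_simp
  · refine key h0 [1, 0, 0, 0, 0, -6, 0, 0, 0, 0, 9]
      [0, 0, 0, 0, 10, 0, 0, 0, 0, -30, 0, 0, 0, 0, -6, 0, 0, 0, 0, 41, 0, 0, 0, 0, 6, 0, 0, 0,
      0, -30, 0, 0, 0, 0, -10, 0, 0, 0, 0, 9, 0, 0, 0, 0, 6, 0, 0, 0, 0, 1] ?_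
      (h0.pow 6 (p511 h0)) (h0.pow 6 (big h0 25 11 (by norm_num) (by norm_num)))
      (ipow h0 6 i25) (fun τ => pow_ne_zero 6 (n 25 τ))
      (by simp only [ev]; push_cast; ring) (by simp only [ev]; push_cast; ring)
    funext τ
    have := h2.ne 25 τ; have := ww_ne τ
    simp only [Pi.mul_apply, Pi.div_apply, Pi.pow_apply, pe_eq, qq_eq, t5]
    field_simp
  · refine key h0 [1, -24, 276, -2048] [6624, -49152] ?_ (d1 h0) (d2 h0)
      (ipow h0 24 i2) (fun τ => pow_ne_zero 24 (n 2 τ))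
      (by simp only [ev]; push_cast; ring) (by simp only [ev]; push_cast; ring)
    funext τ
    have := h2.ne 2 τ; have := ww_ne τ
    simp only [Pi.mul_apply, Pi.div_apply, Pi.pow_apply, pe_eq, qq_eq, t2]
    field_simp
  · refine key h0 [1, 744, 196884, 21493760]
      [864252240, -519075072, 62753873920, 126572544000, 292626432000, 303464448000] ?_
      (h0.pow 3 h0.e4) (d1 h0) (ipow h0 24 i1) (fun τ => pow_ne_zero 24 (n 1 τ))
      (by simp only [ev]; push_cast; ring) (by simp only [ev]; push_cast; ring)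
    funext τ
    have h1 := h2.ne 1 τ; have := ww_ne τ
    have h3 : ModularForm.discriminant τ = ed 1 τ ^ 24 := by rw [ed_one]; rfl
    simp only [Pi.mul_apply, Pi.div_apply, Pi.pow_apply, pe_eq, qq_eq, jf, h3]
    field_simp

end Pool.Agent.MP_9207e0_ag.e3
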