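import Pool.Agent.MP_9207e0_ag.e3.SpecC

/-! Conjugates of values of rational modular functions. -/

set_option linter.unusedSectionVars false
set_option linter.unusedVariables false

namespace Pool.Agent.MP_9207e0_ag.e3

open UpperHalfPlane Complex Filter Asymptotics Matrix Pool.Agent.MP_9207e0_ag.hg
open scoped Real MatrixGroups Manifold Classical

namespace Spc

open Polynomial

lemma mem_range (ι : Qbar →+* ℂ) {z : ℂ} (hz : IsAlgebraic ℚ z) : ∃ x, ι x = z := by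
  obtain ⟨p, hp, hz⟩ := hz
  have e : (p.map (algebraMap ℚ Qbar)).map ι = p.map (algebraMap ℚ ℂ) := by
    rw [Polynomial.map_map]
    congr 1
    exact Subsingleton.elim _ _
  refine (IsAlgClosed.splits (p.map (algebraMap ℚ Qbar))).mem_range_of_isRoot
    (Polynomial.map_ne_zero hp) (i := ι) ?_
  rw [e, Polynomial.IsRoot.def, Polynomial.eval_map_algebraMap, hz]

lemma qv_map (ι : Qbar →+* ℂ) (x : Qbar) : qv ι (ι x) = x := by
  have h : ∃ y, ι y = ι x := ⟨x, rfl⟩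
  rw [qv, dif_pos h]
  exact ι.injective h.choose_spec

/-- Composition of functions as a ring homomorphism. -/
def cmp (s : ℍ → ℍ) : (ℍ → ℂ) →+* (ℍ → ℂ) := RingHom.pi fun τ => Pi.evalRingHom (fun _ => ℂ) (s τ)

/-- The translates of a modular function. -/
noncomputable def tr {N : ℕ} {w : ℍ → ℂ} (hw : w ∈ Mod N) (q : SL2 ⧸ Gam N) : Mod N :=
  ⟨fun τ => w (q.out⁻¹ • τ), comp_SL_mem_Mod hw _⟩

lemma tr_mk {N : ℕ} {w : ℍ → ℂ} (hw : w ∈ Mod N) (g : SL2) (τ : ℍ) :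
    (tr hw (g : SL2 ⧸ Gam N) : ℍ → ℂ) τ = w (g⁻¹ • τ) := by
  obtain ⟨h, e⟩ := QuotientGroup.mk_out_eq_mul (Gam N) g
  change w ((g : SL2 ⧸ Gam N).out⁻¹ • τ) = _
  rw [e, _root_.mul_inv_rev, mul_smul, hw.2.1 _ ((Gam N).inv_mem h.2)]

lemma tr_smul {N : ℕ} {w : ℍ → ℂ} (hw : w ∈ Mod N) (g : SL2) (q : SL2 ⧸ Gam N) :
    cmp (g • ·) (tr hw q) = tr hw (g⁻¹ • q) := by
  obtain ⟨a, rfl⟩ := QuotientGroup.mk_surjective q
  ext τ
  rw [MulAction.Quotient.smul_mk, tr_mk, smul_eq_mul, _root_.mul_inv_rev, inv_inv, mul_smul]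
  exact tr_mk hw a _

/-- The polynomial whose roots are the values of the translates. -/
lemma cp (hJ : JA) {N : ℕ} [Fintype (SL2 ⧸ Gam N)] {w : ℍ → ℂ} (hw : w ∈ Mod N) :
    ∃ (d D : ℕ) (a : Fin d × Fin D → ℂ), ∀ τ z,
      ∑ p, a p * (jf τ ^ (p.2 : ℕ) * z ^ (p.1 : ℕ)) =
        ∏ q : SL2 ⧸ Gam N, (z - w (q.out⁻¹ • τ)) := by
  let P' : (Mod N)[X] := ∏ q, (X - C (tr hw q))
  let P : (ℍ → ℂ)[X] := ∏ q, (X - C (tr hw q : ℍ → ℂ))
  have e1 : P'.map (Mod N).val.toRingHom = P := by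
    simp only [P, P', Polynomial.map_prod, Polynomial.map_sub, map_X, map_C]
    rfl
  have e2 : ∀ g : SL2, P.map (cmp (g • ·)) = P := fun g => by
    simp only [P, Polynomial.map_prod, Polynomial.map_sub, map_X, map_C, tr_smul]
    exact Fintype.prod_equiv (MulAction.toPerm g⁻¹) _ _ fun _ => rfl
  have hl : ∀ k, ∃ p : ℂ[X], ∀ τ, P.coeff k τ = p.eval (jf τ) := fun k => by
    have h1 : P.coeff k ∈ Mod N := by
      rw [← e1, coeff_map]
      exact (P'.coeff k).2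
    refine hJ.poly _ ⟨h1.1, fun γ _ τ => ?_, h1.2.2⟩
    have := congrFun (congrArg (·.coeff k) (e2 γ)) τ
    simp only [coeff_map] at this
    exact this
  choose p hp using hl
  refine ⟨P.natDegree + 1, (Finset.range (P.natDegree + 1)).sup (fun i => (p i).natDegree) + 1,
    fun u => (p u.1).coeff u.2, fun τ z => ?_⟩
  have e3 : ∏ q : SL2 ⧸ Gam N, (z - w (q.out⁻¹ • τ)) =
      (P.map (Pi.evalRingHom (fun _ => ℂ) τ)).eval z := by
    simp only [P, Polynomial.map_prod, Polynomial.map_sub, map_X, map_C, eval_prod, eval_sub,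
      eval_X, eval_C]
    rfl
  rw [e3, eval_eq_sum_range' (Nat.lt_succ_of_le natDegree_map_le), Finset.sum_range,
    Fintype.sum_prod_type]
  refine Finset.sum_congr rfl fun i _ => ?_
  rw [coeff_map, Pi.evalRingHom_apply, hp, eval_eq_sum_range' (Nat.lt_succ_of_le
    (Finset.le_sup (f := fun i => (p i).natDegree) (Finset.mem_range.2 i.2))), Finset.sum_range,
    Finset.sum_mul]
  exact Finset.sum_congr rfl fun k _ => (mul_assoc _ _ _).symm

/-- A complex vector is a combination of its rational projections. -/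
lemma of_proj {P : Type} [Fintype P] (a m : P → ℂ)
    (h : ∀ t : ℂ →ₗ[ℚ] ℚ, ∑ p, (t (a p) : ℂ) * m p = 0) : ∑ p, a p * m p = 0 := by
  let b := Module.Basis.ofVectorSpace ℚ ℂ
  let S := Finset.univ.biUnion fun p => (b.repr (a p)).support
  have e : ∀ p, a p = ∑ i ∈ S, b i * (b.coord i (a p) : ℂ) := fun p => by
    conv_lhs => rw [← b.linearCombination_repr (a p), Finsupp.linearCombination_apply,
      Finsupp.sum_of_support_subset _ (Finset.subset_biUnion_of_mem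
        (fun p => (b.repr (a p)).support) (Finset.mem_univ p)) (fun i r => r • b i)
        fun i _ => zero_smul _ _]
    exact Finset.sum_congr rfl fun i _ => by rw [Rat.smul_def, mul_comm]; rfl
  rw [Finset.sum_congr rfl fun p _ => by rw [e p, Finset.sum_mul], Finset.sum_comm]
  exact Finset.sum_eq_zero fun i _ => by
    simp only [mul_assoc, ← Finset.mul_sum, h, mul_zero]

lemma isQ_zero (h : ℕ) : IsQ h 0 0 := fun τ => by simp

/-- Relations between functions with rational expansions are defined over the rationals. -/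
lemma proj_rel (hA : QA) {N : ℕ} (hN : 0 < N) {P : Type} [Fintype P] (a : P → ℂ)
    (f : P → ℍ → ℂ) (hf : ∀ p, RQ N (f p)) (h : ∑ p, a p • f p = 0) (t : ℂ →ₗ[ℚ] ℚ) :
    ∑ p, (t (a p) : ℂ) • f p = 0 := by
  choose c hc hr using hf
  have hq : ∀ a : P → ℂ, IsQ N (∑ p, a p • f p) (∑ p, a p • c p) := fun a =>
    hA.sum _ _ _ fun p _ => hA.smul _ (hc p)
  have s0 : ∑ p, a p • c p = 0 := hA.unique hN (hq a) (h ▸ isQ_zero N)
  have s1 : ∑ p, (t (a p) : ℂ) • c p = 0 := by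
    ext n
    choose r hr using fun p => hr p n
    have e := congrArg (fun x => t (x.coeff n)) s0
    simp only [HahnSeries.coeff_sum, HahnSeries.coeff_smul, smul_eq_mul, HahnSeries.coeff_zero,
      map_sum, map_zero, hr] at e ⊢
    have e' : ∀ p, t (a p * r p) = t (a p) * r p := fun p => by
      rw [mul_comm, ← Rat.smul_def, map_smul, smul_eq_mul, mul_comm]
    simp only [e'] at e
    exact_mod_cast e
  have := hq fun p => t (a p)
  rw [s1] at this
  exact funext fun τ => (this τ).unique (isQ_zero N τ)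

/-- The rational modular functions. -/
def VV (hA : QA) (M : ℕ) : Submodule ℚ (ℍ → ℂ) where
  carrier := {w | w ∈ Mod M ∧ RQ M w}
  add_mem' := by
    rintro a b ⟨h1, c, h2, h3⟩ ⟨h4, d, h5, h6⟩
    refine ⟨add_mem h1 h4, c + d, hA.add h2 h5, fun n => ?_⟩
    obtain ⟨q, hq⟩ := h3 n
    obtain ⟨r, hr⟩ := h6 n
    exact ⟨q + r, by rw [HahnSeries.coeff_add, hq, hr, Rat.cast_add]⟩
  zero_mem' := ⟨zero_mem _, 0, isQ_zero M, fun n => ⟨0, by simp⟩⟩
  smul_mem' := by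
    rintro q a ⟨h1, c, h2, h3⟩
    have e : q • a = (q : ℂ) • a := funext fun τ => Rat.smul_def q (a τ)
    rw [e]
    refine ⟨(Mod M).smul_mem h1 _, (q : ℂ) • c, hA.smul _ h2, fun n => ?_⟩
    obtain ⟨r, hr⟩ := h3 n
    exact ⟨q * r, by rw [HahnSeries.coeff_smul, hr, Rat.cast_mul, smul_eq_mul]⟩

lemma one (hA : QA) (hB : QB) (hJ : JA) (ι : Qbar →+* ℂ) (σ : Qbar →+* Qbar) {M : ℕ}
    (hM : 0 < M) {τ τ₀ : ℍ} {x y : Qbar} {w : ℍ → ℂ} (hw : w ∈ Mod M) (hr : RQ M w)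
    (hx : ι x = w τ) (hy : ι y = jf τ) (h0 : jf τ₀ = ι (σ y)) :
    ∃ q : SL2 ⧸ Gam M, ι (σ x) = w (q.out⁻¹ • τ₀) := by
  have : NeZero M := ⟨hM.ne'⟩
  have : Fintype (SL2 ⧸ Gam M) := Fintype.ofFinite _
  obtain ⟨d, D, a, ha⟩ := cp hJ hw
  obtain ⟨K, hK⟩ := hA.ratL
  obtain ⟨J, hJq, hJr⟩ : RQ M jf := by
    obtain ⟨J, h1, h2, -⟩ := hB.j_q
    exact hB.rq_level hM (one_dvd M) ⟨J, h1, h2⟩
  obtain ⟨c, hc, hcr⟩ := hr
  have h1 := proj_rel hA hM a (fun p => jf ^ (p.2 : ℕ) * w ^ (p.1 : ℕ))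
    (fun p => ⟨_, hA.mul hM (hA.pow _ hM hJq) (hA.pow _ hM hc),
      (hK _).1 (mul_mem (pow_mem ((hK _).2 hJr) _) (pow_mem ((hK _).2 hcr) _))⟩)
    (funext fun ρ => by
      rw [Finset.sum_apply]
      refine (ha ρ (w ρ)).trans (Finset.prod_eq_zero (Finset.mem_univ ((1 : SL2) : SL2 ⧸ Gam M)) ?_)
      have := tr_mk hw 1 ρ
      rw [inv_one, one_smul] at this
      exact sub_eq_zero.2 this.symm)
  have h2 := ha τ₀ (ι (σ x))
  rw [of_proj a _ fun t => ?_] at h2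
  · obtain ⟨q, -, hq⟩ := Finset.prod_eq_zero_iff.1 h2.symm
    exact ⟨q, sub_eq_zero.1 hq⟩
  · have h3 := congrFun (h1 t) τ
    rw [Finset.sum_apply] at h3
    have h4 : ∑ p : Fin d × Fin D, (t (a p) : Qbar) * (y ^ (p.2 : ℕ) * x ^ (p.1 : ℕ)) = 0 := by
      apply ι.injective
      simp only [map_sum, map_mul, map_pow, map_ratCast, map_zero, hx, hy]
      exact h3
    have h5 := congrArg (fun z => ι (σ z)) h4
    simp only [map_sum, map_mul, map_pow, map_ratCast, map_zero] at h5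
    rw [h0]
    exact h5

end Spc

open Spc in
theorem spc (hA : QA) (hB : QB) (hJ : JA) (hC : JC) : SpecStmt := by
  intro ι σ M τ hM hτ
  have : NeZero M := ⟨hM.ne'⟩
  have alg : ∀ w ∈ Mod M, RQ M w → IsAlgebraic ℚ (w τ) := fun w hw ⟨c, h1, h2⟩ =>
    hC.alg_val (hC.intJ hM hw h1 fun n => by
      obtain ⟨q, hq⟩ := h2 n
      rw [hq]
      exact isAlgebraic_ratCast ℚ q) hτ
  obtain ⟨y, hy⟩ := mem_range ι hτ
  obtain ⟨τ₀, h0⟩ := hJ.surj (ι (σ y))
  let H : SL2 ⧸ Gam M → Submodule ℚ (VV hA M) := fun q =>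
    { carrier := {w | ∃ x, ι x = w.1 τ ∧ ι (σ x) = w.1 (q.out⁻¹ • τ₀)}
      add_mem' := by
        rintro a b ⟨x, h1, h2⟩ ⟨x', h3, h4⟩
        exact ⟨x + x', by rw [map_add, h1, h3]; rfl, by rw [map_add, map_add, h2, h4]; rfl⟩
      zero_mem' := ⟨0, map_zero ι, by rw [map_zero, map_zero]; rfl⟩
      smul_mem' := by
        rintro r a ⟨x, h1, h2⟩
        exact ⟨r * x, by rw [map_mul, map_ratCast, h1]; exact (Rat.smul_def _ _).symm, by
          rw [map_mul, map_mul, map_ratCast, map_ratCast, h2]; exact (Rat.smul_def _ _).symm⟩ }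
  obtain ⟨q, hq⟩ := Subspace.exists_eq_top_of_iUnion_eq_univ (p := H)
    (Set.eq_univ_of_forall fun w => by
      obtain ⟨x, hx⟩ := mem_range ι (alg _ w.2.1 w.2.2)
      obtain ⟨q, hq⟩ := one hA hB hJ ι σ hM w.2.1 w.2.2 hx hy h0
      exact Set.mem_iUnion.2 ⟨q, x, hx, hq⟩)
  refine ⟨q.out⁻¹ • τ₀, fun w hw hr => ⟨alg w hw hr, ?_⟩⟩
  obtain ⟨x, h1, h2⟩ : (⟨w, hw, hr⟩ : VV hA M) ∈ H q := hq ▸ Submodule.mem_top
  rw [show w τ = ι x from h1.symm, qv_map]
  exact h2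

end Pool.Agent.MP_9207e0_ag.e3
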