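import Pool.Agent.MP_9207e0_ag.hg.Spec

/-! Statements of the modules on special cycles of level ten. -/

set_option linter.unusedSectionVars false
set_option linter.unusedVariables false

namespace Pool.Agent.MP_9207e0_ag.e3

open UpperHalfPlane Complex Filter Asymptotics Matrix Pool.Agent.MP_9207e0_ag.hg
open scoped Real MatrixGroups Manifold Classical Kronecker

/-- Classes of forms. -/
abbrev Cls (j : ℕ) : Type := ZMod 10 × ZMod 10 × ZMod (20 * j)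

/-- The class of a form. -/
def cls (j : ℕ) (b c ρ : ℤ) : Cls j := ((b : ZMod 10), (c : ZMod 10), (ρ : ZMod (20 * j)))

/-- Forms of discriminant `D` in the class `v`, with their root. -/
def FSet (j : ℕ) (D : ℤ) (v : Cls j) : Set (M2 × ℍ) :=
  {p | ∃ b c ρ : ℤ, p.1 = ymat j b c ρ ∧ ρ ^ 2 + 4 * j * b * c = D ∧ cls j b c ρ = v ∧
    ((j : ℂ) * c) * (p.2 : ℂ) ^ 2 + ρ * p.2 - b = 0}

/-- The level group of the curve of determinant `j`. -/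
def Gj (j : ℕ) : Subgroup SL2 := Gam 10 ⊓ CongruenceSubgroup.Gamma0 (10 * j)

/-- Pairs of matrices with given Gram matrix and residues, with their common point. -/
def ZSet (n r j : ℤ) (a b : MN 10) : Set (M2 × M2 × ℍ) :=
  {p | p.1.det = j ∧ p.2.1.det = n ∧ (p.1.adjugate * p.2.1).trace = r ∧ red 10 p.1 = a ∧
    red 10 p.2.1 = b ∧ mob p.1 p.2.2 = mob p.2.1 p.2.2}

/-- Equivalence of pairs. -/
def relZ (p q : M2 × M2 × ℍ) : Prop :=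
  ∃ g1 ∈ Gam 10, ∃ g2 ∈ Gam 10, q.1 * (g1 : M2) = g2 * p.1 ∧ q.2.1 * (g1 : M2) = g2 * p.2.1 ∧
    q.2.2 = g1 • p.2.2

/-- Elliptic elements with their fixed point, with a condition on the residue. -/
def ESet (P : MN 10 → Prop) : Set (M2 × ℍ) := {p | p.1.det = 1 ∧ p.1 ∈ Fix p.2 ∧ P (red 10 p.1)}

/-- Heegner points of level ten with a sign. -/
def Sg (m t e : ℤ) (τ : ℍ) : Prop :=
  ∃ W : M2, W.trace = t ∧ W.det = m ∧ mob W τ = τ ∧ 10 ∣ W 0 0 ∧ 10 ∣ W 0 1 ∧ 10 ∣ W 1 0 ∧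
    0 < e * W 1 0

section Cyc

variable {V : Type} [AddCommGroup V]

/-- No torsion. -/
def TF (V : Type) [AddCommGroup V] : Prop := ∀ (k : ℤ) (v : V), k ≠ 0 → k • v = 0 → v = 0

/-- Invariance under `Γ(10) × Γ(10)`. -/
def Inv10 (s : ℍ → ℍ → V) : Prop :=
  ∀ g1 ∈ Gam 10, ∀ g2 ∈ Gam 10, ∀ τ σ, s (g1 • τ) (g2 • σ) = s τ σ

/-- The Heegner divisor of discriminant `D` and class `v` on the curve of determinant `j` dies. -/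
def AVan (s : ℍ → ℍ → V) (j : ℕ) (γ1 γ2 : SL2) (D : ℤ) (v : Cls j) : Prop :=
  Van (relC (Gj j)) (FSet j D v) fun p => s (γ1 • p.2) (γ2 • mob (dg j 1) p.2)

/-- The relations between Heegner divisors. -/
def Rel (s : ℍ → ℍ → V) : Prop :=
  ∀ (j : ℕ) (γ1 γ2 : SL2) (D₀ : ℤ) (v₀ : Cls j), 0 < j → 3 * D₀ < -20 * j →
    (∀ D v, D₀ < D → D < 0 → AVan s j γ1 γ2 D v) → AVan s j γ1 γ2 D₀ v₀

/-- The three cases that the relations do not reach. -/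
def Base (s : ℍ → ℍ → V) : Prop :=
  ∀ γ1 γ2 : SL2, (∀ v, AVan s 1 γ1 γ2 (-3) v) ∧ (∀ v, AVan s 1 γ1 γ2 (-4) v) ∧
    ∀ v, AVan s 2 γ1 γ2 (-12) v

/-- All special zero-cycles die. -/
def ZVan (s : ℍ → ℍ → V) : Prop :=
  ∀ (n r j : ℤ) (a b : MN 10) (γ1 γ2 : SL2), 0 < j → r ^ 2 < 4 * n * j →
    Van relZ (ZSet n r j a b) fun p => s (γ1 • p.2.2) (γ2 • mob p.1 p.2.2)

/-- Reciprocity on modular curves. -/
def RecS (s : ℍ → ℍ → V) : Prop :=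
  ∀ (N j : ℕ) (a : ℍ → ℂ) (γ : SL2) (B : M2), 0 < N → 0 < j → B.det = j → 10 * j ∣ N →
    a ∈ Mod N → IntJ a → a ≠ 0 →
    Van (relG N) {τ | a τ = 0} fun τ => (ord a τ : ℤ) • s (γ • τ) (mob B τ)

/-- The action of `Γ(5)` and of the involution at two on the symbol. -/
structure Law (s : ℍ → ℍ → V) : Prop where
  tf : TF V
  inv : Inv10 s
  even : ∀ g ∈ Gam 5, Odd (g : M2).trace → ∀ τ σ, s (g • τ) σ = s τ σ
  odd : ∀ g ∈ Gam 5, Even (g : M2).trace → ¬(2 ∣ (g : M2) 0 1 ∧ 2 ∣ (g : M2) 1 0) →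
    ∀ τ σ, s (g • τ) σ = -s τ σ
  tr3 : ∀ g ∈ Gam 5, Odd (g : M2).trace → ∀ τ σ, s τ σ + s τ (g • σ) + s τ (g • g • σ) = 0
  inv2 : ∀ g ∈ Gam 5, 2 ∣ (g : M2) 1 0 → ∀ τ σ, s τ (g • σ) = s τ σ
  w2 : ∀ ω : M2, ω.det = 2 → 2 ∣ ω 0 0 → 2 ∣ ω 1 1 → 10 ∣ ω 1 0 → 5 ∣ ω 0 1 →
    ∀ τ σ, s τ (mob ω σ) = s τ σ

/-- The cycle of elliptic points with a condition on the residue dies. -/
def EVan (s : ℍ → ℍ → V) (γ1 γ2 : SL2) (P : MN 10 → Prop) : Prop :=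
  Van (relC (Gam 10)) (ESet P) fun p => s (γ1 • p.2) (γ2 • p.2)

end Cyc

/-- Module FS: elementary facts on the sets of forms and pairs. -/
structure FS : Prop where
  cact_one : ∀ p, cact 1 p = p
  cact_mul : ∀ g g' p, cact (g * g') p = cact g (cact g' p)
  relC_equiv : ∀ L, Equivalence (relC L)
  relG_equiv : ∀ N, Equivalence (relG N)
  relZ_equiv : Equivalence relZ
  fset_inv : ∀ (j : ℕ) D v, 0 < j → ∀ g ∈ Gj j, ∀ p ∈ FSet j D v, cact g p ∈ FSet j D v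
  fset_fin : ∀ (j : ℕ) D v, 0 < j → D < 0 → ∃ R, IsRep (relC (Gj j)) (FSet j D v) R
  gj_conj : ∀ (j : ℕ), 0 < j → ∀ g ∈ Gj j, ∃ g' ∈ Gam 10, dg j 1 * (g : M2) = g' * dg j 1
  gj_of_conj : ∀ (j : ℕ), 0 < j → ∀ g ∈ Gam 10, ∀ g' ∈ Gam 10,
    dg j 1 * (g : M2) = g' * dg j 1 → g ∈ Gj j
  zset_inv : ∀ n r j a b, 0 < j → 0 < n → ∀ p ∈ ZSet n r j a b, ∀ q, relZ p q → q ∈ ZSet n r j a b
  zset_fin : ∀ n r j a b, 0 < j → r ^ 2 < 4 * n * j → ∃ R, IsRep relZ (ZSet n r j a b) R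
  fset_neg : ∀ (j : ℕ) D (v : Cls j) R, IsRep (relC (Gj j)) (FSet j D v) R →
    IsRep (relC (Gj j)) (FSet j D (-v)) (R.image fun p => (-p.1, p.2))
  one_orbit : ∀ (j : ℕ) (α : M2), 0 < j → α.det = j → Prim α → red 10 α = red 10 (dg j 1) →
    ∃ g1 ∈ Gam 10, ∃ g2 ∈ Gam 10, α * g1 = g2 * dg j 1

/-- Module SH: moving a set of representatives by an element of the normaliser. -/
structure SH : Prop where
  shift : ∀ {V : Type} [AddCommGroup V] (L : Subgroup SL2) (S : Set (M2 × ℍ)) (g : SL2)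
    (f : M2 × ℍ → V) (R : Finset (M2 × ℍ)), (∀ x, x ∈ L ↔ g * x * g⁻¹ ∈ L) →
    (∀ p, p ∈ S ↔ cact g p ∈ S) → (∀ x ∈ L, ∀ p ∈ S, f (cact x p) = f p) → IsRep (relC L) S R →
    ∑ p ∈ R, f (cact g p) = ∑ p ∈ R, f p
  move : ∀ (δ : SL2) (P P' : MN 10 → Prop) (R : Finset (M2 × ℍ)),
    (∀ a, P a ↔ P' (red 10 (δ : M2) * a * red 10 ((δ⁻¹ : SL2) : M2))) →
    IsRep (relC (Gam 10)) (ESet P) R → IsRep (relC (Gam 10)) (ESet P') (R.image (cact δ))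
  val : ∀ {V : Type} [AddCommGroup V] (s : ℍ → ℍ → V) (γ1 γ2 : SL2) (P : MN 10 → Prop)
    (R R' : Finset (M2 × ℍ)), Inv10 s → IsRep (relC (Gam 10)) (ESet P) R →
    IsRep (relC (Gam 10)) (ESet P) R' →
    ∑ p ∈ R, s (γ1 • p.2) (γ2 • p.2) = ∑ p ∈ R', s (γ1 • p.2) (γ2 • p.2)
  neg : ∀ (a : MN 10) (R : Finset (M2 × ℍ)), IsRep (relC (Gam 10)) (ESet (· = a)) R →
    IsRep (relC (Gam 10)) (ESet (· = -a)) (R.image fun p => (-p.1, p.2))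
  inv : ∀ (P : MN 10 → Prop), ∀ g ∈ Gam 10, ∀ p ∈ ESet P, cact g p ∈ ESet P
  tr : ∀ (P : MN 10 → Prop), ∀ p ∈ ESet P, p.1.trace = 0 ∨ p.1.trace = 1 ∨ p.1.trace = -1
  fin : ∀ P : MN 10 → Prop, ∃ R, IsRep (relC (Gam 10)) (ESet P) R
  avan : ∀ {V : Type} [AddCommGroup V] (s : ℍ → ℍ → V) (γ1 γ2 : SL2) (r : ℤ), Inv10 s →
    r ^ 2 < 4 → (∀ a : MN 10, a.trace = r → EVan s γ1 γ2 (· = a)) →
    ∀ v, AVan s 1 γ1 γ2 (r ^ 2 - 4) v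

/-- Module ZIND. -/
def ZindStmt : Prop :=
  ∀ {V : Type} [AddCommGroup V] (s : ℍ → ℍ → V), Inv10 s → Rel s → Base s → ZVan s

/-- Module HEEG. -/
def HeegStmt : Prop :=
  ∀ {V : Type} [AddCommGroup V] (s : ℍ → ℍ → V), Inv10 s → ZVan s →
    ∀ (n : ℕ) (m t : ℤ) (R R' : Finset ℍ), Squarefree n → 7 ≤ n → t ^ 2 - 4 * m = -n →
    IsCoprime t 10 → IsRep (relG 10) {τ | Sg m t 1 τ} R → IsRep (relG 10) {τ | Sg m t (-1) τ} R' →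
    ∑ τ ∈ R, ∑ σ ∈ R, s τ σ + ∑ τ ∈ R', ∑ σ ∈ R', s τ σ = 0

/-- Module EMB. -/
def EmbStmt : Prop :=
  ∀ (j : ℕ) [NeZero (20 * j)] [NeZero (40 * j)],
    ∃ (E : (Cls j → ℂ) →ₗ[ℂ] (ZMod (20 * j) → ℂ) →ₗ[ℂ] MN (40 * j) → ℂ)
      (S₀ T₀ : Matrix (Cls j) (Cls j) ℂ),
      (∀ v ξ b c ρ r, E v ξ (red _ (xmat j b c ρ r)) = v (cls j b c ρ) * ξ (r : ZMod (20 * j))) ∧
      (∀ v ξ (x : MN (40 * j)), (∀ b c ρ r, x ≠ red _ (xmat j b c ρ r)) → E v ξ x = 0) ∧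
      (∀ v ξ, SX (40 * j) *ᵥ E v ξ = E (S₀ *ᵥ v) (Sm (20 * j) (-1) *ᵥ ξ)) ∧
      (∀ v ξ, TX (40 * j) *ᵥ E v ξ = E (T₀ *ᵥ v) (Tm (20 * j) (-1) *ᵥ ξ)) ∧
      (∀ v, nsq (S₀ *ᵥ v) = nsq v) ∧ (∀ v a, (S₀ *ᵥ (S₀ *ᵥ v)) a = v (-a)) ∧
      ∀ v b c ρ, (T₀ *ᵥ v) (cls j b c ρ) =
        ee (((ρ ^ 2 + 4 * j * b * c : ℤ) : ℂ) / (40 * j) - 1 / 24) * v (cls j b c ρ)

/-- Module INP: the input with prescribed leading terms. -/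
def InpStmt : Prop :=
  ∀ (j : ℕ) [NeZero (40 * j)] (b₀ c₀ ρ₀ D₀ : ℤ), ρ₀ ^ 2 + 4 * j * b₀ * c₀ = D₀ →
    3 * D₀ < -20 * j →
    ∃ (f : MN (40 * j) → ℍ → ℂ) (c : MN (40 * j) → LS) (C : ℤ → Cls j → ℤ) (κ : ℤ),
      WH (40 * j) f c ∧ (∀ x, RatL (c x)) ∧ (∀ x, ∀ n < 0, ∃ k : ℤ, (c x).coeff n = k) ∧
      (∀ x, (∀ b c' ρ r, x ≠ red _ (xmat j b c' ρ r)) → c x = 0) ∧
      (∀ b c' ρ D : ℤ, ρ ^ 2 + 4 * j * b * c' = D → D < 0 →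
        ∑ᶠ r : ℤ, (c (red _ (xmat j b c' ρ r))).coeff (D - r ^ 2) = C D (cls j b c' ρ)) ∧
      (∀ D < D₀, ∀ v, C D v = 0) ∧ κ ≠ 0 ∧
      ∀ v, C D₀ v = κ * ((if v = cls j b₀ c₀ ρ₀ then 1 else 0) +
        if v = -cls j b₀ c₀ ρ₀ then 1 else 0)

/-- Zero sets of modular functions are finite modulo the level group. -/
def FinZ : Prop :=
  ∀ (N : ℕ) (a : ℍ → ℂ), 0 < N → a ∈ Mod N → a ≠ 0 → ∃ R, IsRep (relG N) {τ | a τ = 0} R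

/-- Module APP. -/
def AppStmt : Prop :=
  ∀ {V : Type} [AddCommGroup V] (s : ℍ → ℍ → V), TF V → Inv10 s → RecS s → Rel s

/-- A function for the group `b ≡ 0 mod 10` with one simple pole at the cusps. -/
def Pole (F : ℍ → ℂ) : Prop :=
  Hol F ∧ (∀ g : SL2, 10 ∣ (g : M2) 0 1 → ∀ τ, F (g • τ) = F τ) ∧
    (Gr 0 fun τ => F τ - ee (-(τ : ℂ) / 10)) ∧
    ∀ g : SL2, (¬∃ k : ℤ, 10 ∣ (g : M2) 0 1 - k * (g : M2) 0 0) → Gr 0 fun τ => F (g • τ)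

/-- The induced input. -/
def Ind : Prop :=
  ∃ (f : MN 10 → ℍ → ℂ) (c : MN 10 → LS), WH 10 f c ∧ (∀ x, RatL (c x)) ∧
    (∀ x, ∀ n < -1, (c x).coeff n = 0) ∧
    ∀ x, (c x).coeff (-1) = if x 0 0 = 0 ∧ x.det = 1 then 10 else 0

/-- Module IND. -/
def IndStmt : Prop := ∀ F, Pole F → Ind

/-- Module ELL: the relation between elliptic points. -/
def EllStmt : Prop :=
  ∀ {V : Type} [AddCommGroup V] (s : ℍ → ℍ → V), TF V → Inv10 s → RecS s → Ind →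
    ∀ γ1 γ2, EVan s γ1 γ2 fun a => a 0 0 = 0

/-- Module B3. -/
def B3Stmt : Prop :=
  ∀ {V : Type} [AddCommGroup V] (s : ℍ → ℍ → V), Law s → ∀ (γ1 γ2 : SL2) (a : MN 10),
    (a.trace = 1 ∨ a.trace = -1) → EVan s γ1 γ2 (· = a)

/-- Module B4. -/
def B4Stmt : Prop :=
  ∀ {V : Type} [AddCommGroup V] (s : ℍ → ℍ → V), Law s →
    (∀ γ1 γ2, EVan s γ1 γ2 fun a => a 0 0 = 0) → ∀ (γ1 γ2 : SL2) (a : MN 10),
    a.trace = 0 → EVan s γ1 γ2 (· = a)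

/-- Module B12, the second coordinate has discriminant `-3`. -/
def B12bStmt : Prop :=
  ∀ {V : Type} [AddCommGroup V] (s : ℍ → ℍ → V), Law s → ∀ (γ1 γ2 : SL2) (b c ρ : ℤ),
    2 ∣ c → AVan s 2 γ1 γ2 (-12) (cls 2 b c ρ)

/-- Module B12, the first coordinate has discriminant `-3`. -/
def B12aStmt : Prop :=
  ∀ {V : Type} [AddCommGroup V] (s : ℍ → ℍ → V), Law s → ∀ (γ1 γ2 : SL2) (b c ρ : ℤ),
    ¬2 ∣ c → AVan s 2 γ1 γ2 (-12) (cls 2 b c ρ)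

end Pool.Agent.MP_9207e0_ag.e3
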