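import Pool.Agent.MP_9207e0_ag.e3.SpecA

/-! Statements of the modules on eta quotients of level ten and twenty-five. -/

set_option linter.unusedSectionVars false
set_option linter.unusedVariables false

namespace Pool.Agent.MP_9207e0_ag.e3

open UpperHalfPlane Complex Filter Asymptotics Matrix Pool.Agent.MP_9207e0_ag.hg
open scoped Real MatrixGroups Manifold Classical Kronecker

/-- `η(d τ)`. -/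
noncomputable def ed (d : ℕ) (τ : ℍ) : ℂ := et (mob (dg d 1) τ)

/-- A generator of the function field of `X₀(10)`. -/
noncomputable def hh (τ : ℍ) : ℂ := ed 2 τ * ed 5 τ ^ 5 / (ed 1 τ * ed 10 τ ^ 5)

/-- The eta quotient equal to `hh + 1`. -/
noncomputable def kk (τ : ℍ) : ℂ := ed 2 τ ^ 4 * ed 5 τ ^ 2 / (ed 1 τ ^ 2 * ed 10 τ ^ 4)

/-- The eta quotient equal to `hh - 4`. -/
noncomputable def ll (τ : ℍ) : ℂ := ed 1 τ ^ 3 * ed 5 τ / (ed 2 τ * ed 10 τ ^ 3)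

/-- A generator of the function field of `X₀(25)`. -/
noncomputable def ss (τ : ℍ) : ℂ := ed 1 τ / ed 25 τ

/-- A function on `X₀(25)`. -/
noncomputable def t5 (τ : ℍ) : ℂ := (ed 5 τ / ed 25 τ) ^ 6

/-- A generator of the function field of `X₀(2)`. -/
noncomputable def t2 (τ : ℍ) : ℂ := (ed 1 τ / ed 2 τ) ^ 24

/-- First coordinate of the map to `y^2 + 2 x y + 4 y = x^3`. -/
noncomputable def X1 (τ : ℍ) : ℂ := hh τ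

/-- Second coordinate of the map to `y^2 + 2 x y + 4 y = x^3`. -/
noncomputable def Y1 (τ : ℍ) : ℂ := -(hh (mob (dg 1 2) τ) * hh τ)

/-- `ss (τ / 5)`. -/
noncomputable def s0 (τ : ℍ) : ℂ := ss (mob (dg 1 5) τ)

/-- `ss (2 τ / 5)`. -/
noncomputable def s1 (τ : ℍ) : ℂ := ss (mob (dg 2 5) τ)

/-- `ss (τ / 10)`. -/
noncomputable def s2 (τ : ℍ) : ℂ := ss (mob (dg 1 10) τ)

/-- `ss ((τ + 5) / 10)`. -/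
noncomputable def s3 (τ : ℍ) : ℂ := ss (mob !![1, 5; 0, 10] τ)

/-- First coordinate of the map to `y^2 + 5 x y + 5 y = x^3`. -/
noncomputable def X2 (τ : ℍ) : ℂ := s0 τ + s1 τ

/-- Second coordinate of the map to `y^2 + 5 x y + 5 y = x^3`. -/
noncomputable def Y2 (τ : ℍ) : ℂ := s0 τ * s1 τ

/-- The exponent of the cube root of unity. -/
def x3 (g : M2) : ℤ := (g 0 0 + g 1 1) * g 1 0 - g 0 1 * g 1 1 * (g 1 0 ^ 2 - 1)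

/-- The exponent of the fourth root of unity. -/
def x4 (g : M2) : ℤ :=
  if Odd (g 1 0) then g 1 0 * (g 0 0 + g 1 1 + 1) else g 0 0 * g 1 0 + g 0 1 * g 1 1 - g 1 1 + 1

/-- Module ETA1: the transformation law of the square of `η`. -/
def Eta1Stmt : Prop :=
  ∀ (γ : SL2) (τ : ℍ), et (γ • τ) ^ 2 = ee (x3 γ / 3) * ee (-(x4 γ : ℂ) / 4) *
    (((γ : M2) 1 0 : ℂ) * τ + (γ : M2) 1 1) * et τ ^ 2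

/-- Module ETA2: invariance of the squares. -/
structure ETA2 : Prop where
  hol : ∀ d : ℕ, 0 < d → Hol (ed d)
  ne : ∀ (d : ℕ) τ, ed d τ ≠ 0
  hols : Hol hh ∧ Hol kk ∧ Hol ll ∧ Hol ss ∧ Hol t5 ∧ Hol t2
  nes : ∀ τ, hh τ ≠ 0 ∧ kk τ ≠ 0 ∧ ll τ ≠ 0 ∧ ss τ ≠ 0 ∧ t5 τ ≠ 0 ∧ t2 τ ≠ 0
  conj : ∀ (d : ℤ) (γ : SL2), d ∣ (γ : M2) 1 0 → ∃ γ' : SL2, dg d 1 * (γ : M2) = γ' * dg d 1 ∧
    (γ' : M2) 0 0 = (γ : M2) 0 0 ∧ (γ' : M2) 0 1 = d * (γ : M2) 0 1 ∧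
    d * (γ' : M2) 1 0 = (γ : M2) 1 0 ∧ (γ' : M2) 1 1 = (γ : M2) 1 1
  kk : ∀ γ : SL2, 10 ∣ (γ : M2) 1 0 → ∀ τ, kk (γ • τ) = kk τ
  hh : ∀ γ : SL2, 10 ∣ (γ : M2) 1 0 → ∀ τ, hh (γ • τ) ^ 2 = hh τ ^ 2
  ll : ∀ γ : SL2, 10 ∣ (γ : M2) 1 0 → ∀ τ, ll (γ • τ) ^ 2 = ll τ ^ 2
  ss : ∀ γ : SL2, 25 ∣ (γ : M2) 1 0 → ∀ τ, ss (γ • τ) ^ 2 = ss τ ^ 2
  t5 : ∀ γ : SL2, 25 ∣ (γ : M2) 1 0 → ∀ τ, t5 (γ • τ) = t5 τ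
  t2 : ∀ γ : SL2, 2 ∣ (γ : M2) 1 0 → ∀ τ, t2 (γ • τ) = t2 τ
  d24 : ∀ (γ : SL2) (τ : ℍ),
    et (γ • τ) ^ 24 = (((γ : M2) 1 0 : ℂ) * τ + (γ : M2) 1 1) ^ 12 * et τ ^ 24
  y1 : ∀ τ, Y1 (mob (dg 10 1) τ) * (ed 5 τ * ed 100 τ ^ 5) = -(ed 20 τ * ed 25 τ ^ 5)
  y2 : ∀ τ, Y2 (mob (dg 10 1) τ) * (ed 50 τ * ed 100 τ) = ed 2 τ * ed 4 τ

/-- Module CUSP: growth at the cusps. -/
structure CUSP : Prop where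
  exp : ∀ γ : SL2, (ExpG fun τ => hh (γ • τ)) ∧ ExpG fun τ => ss (γ • τ)
  hh : ∀ γ : SL2, ¬10 ∣ (γ : M2) 1 0 → Gr 0 fun τ => hh (γ • τ)
  kk : ∀ γ : SL2, ¬10 ∣ (γ : M2) 1 0 → Gr 0 fun τ => kk (γ • τ)
  ll : ∀ γ : SL2, ¬10 ∣ (γ : M2) 1 0 → Gr 0 fun τ => ll (γ • τ)
  x20 : ∀ γ : SL2, ¬20 ∣ (γ : M2) 1 0 → Gr 0 fun τ => e3.hh (mob (dg 2 1) (γ • τ))
  y20 : ∀ γ : SL2, ¬20 ∣ (γ : M2) 1 0 →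
    Gr 0 fun τ => e3.hh (γ • τ) * e3.hh (mob (dg 2 1) (γ • τ))
  ss : ∀ γ : SL2, ¬25 ∣ (γ : M2) 1 0 → Gr 0 fun τ => ss (γ • τ)
  ss2 : ∀ γ : SL2, ¬25 ∣ (γ : M2) 1 0 → Gr 0 fun τ => e3.ss (mob (dg 2 1) (γ • τ))
  t5 : ∀ γ : SL2, ¬25 ∣ (γ : M2) 1 0 → Gr 0 fun τ => t5 (γ • τ)
  t2 : ∀ γ : SL2, ¬2 ∣ (γ : M2) 1 0 → Gr (-1 / 2) fun τ => t2 (γ • τ)

/-- The parameter at infinity. -/
noncomputable def qq (τ : ℍ) : ℂ := ee τ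

/-- The Euler product at `d τ`. -/
noncomputable def pe (d : ℕ) (τ : ℍ) : ℂ := ed d τ * ee (-(d * τ : ℂ) / 24)

/-- Congruence of bounded functions modulo `q ^ k`. -/
def Cg (k : ℕ) (a b : ℍ → ℂ) : Prop := Gr 0 a ∧ Gr 0 b ∧ Gr (-k) (a - b)

/-- Module QX0: calculus of congruences. -/
structure QX0 : Prop where
  refl : ∀ k {a}, Gr 0 a → Cg k a a
  symm : ∀ {k a b}, Cg k a b → Cg k b a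
  trans : ∀ {k a b c}, Cg k a b → Cg k b c → Cg k a c
  add : ∀ {k a b c d}, Cg k a b → Cg k c d → Cg k (a + c) (b + d)
  sub : ∀ {k a b c d}, Cg k a b → Cg k c d → Cg k (a - c) (b - d)
  mul : ∀ {k a b c d}, Cg k a b → Cg k c d → Cg k (a * c) (b * d)
  pow : ∀ {k a b} (n : ℕ), Cg k a b → Cg k (a ^ n) (b ^ n)
  mono : ∀ {k l a b}, k ≤ l → Cg l a b → Cg k a b
  num : ∀ k (n : ℕ), Cg k (n : ℍ → ℂ) (n : ℍ → ℂ)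
  q : ∀ k, Cg k qq qq
  poly : ∀ p : Polynomial ℤ, Gr 0 (Polynomial.aeval qq p)
  of_eq : ∀ {k a b r}, Gr 0 b → Gr 0 r → a = b + qq ^ k * r → Cg k a b
  div : ∀ {k a b p}, Gr 0 p → Gr 0 b⁻¹ → (∀ τ, b τ ≠ 0) → Cg k a (p * b) → Cg k (a / b) p
  shift : ∀ {k l : ℕ} {a}, Cg (k + l) (qq ^ k * a) 0 → Gr (-l) a
  grow : ∀ {k : ℕ} {a}, Gr 0 (qq ^ k * a) → Gr k a
  q_dg : ∀ (d : ℕ) τ, 0 < d → qq (mob (dg d 1) τ) = qq τ ^ d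
  dbl : ∀ {k a b}, Cg k a b →
    Cg (2 * k) (fun τ => a (mob (dg 2 1) τ)) fun τ => b (mob (dg 2 1) τ)
  lim : ∀ {κ : ℝ} {a}, κ < 0 → Gr κ a → Tendsto a atImInfty (nhds 0)
  ne : ∀ {a} (c : ℂ), c ≠ 0 → Cg 1 a (fun _ => c) → a ≠ 0
  pe : ∀ d : ℕ, 0 < d →
    Cg (12 * d) (pe d) (1 - qq ^ d - qq ^ (2 * d) + qq ^ (5 * d) + qq ^ (7 * d))
  pe_inv : ∀ d : ℕ, 0 < d → Gr 0 (e3.pe d)⁻¹
  e4 : Cg 4 ModularForm.E₄ (1 + 240 * qq + 2160 * qq ^ 2 + 6720 * qq ^ 3)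

/-- Module QX1: first terms of the expansions. -/
structure QX1 : Prop where
  h : Cg 7 (qq * hh) (1 + qq + qq ^ 2 + 2 * qq ^ 3 + 2 * qq ^ 4 - 2 * qq ^ 5 - qq ^ 6)
  k : Cg 3 (qq * kk) (1 + 2 * qq + qq ^ 2)
  l : Cg 3 (qq * ll) (1 - 3 * qq + qq ^ 2)
  s : Cg 12 (qq * ss) (1 - qq - qq ^ 2 + qq ^ 5 + qq ^ 7)
  t : Cg 11 (qq ^ 5 * t5) (1 - 6 * qq ^ 5 + 9 * qq ^ 10)
  u : Cg 4 (qq * t2) (1 - 24 * qq + 276 * qq ^ 2 - 2048 * qq ^ 3)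
  j : Cg 4 (qq * jf) (1 + 744 * qq + 196884 * qq ^ 2 + 21493760 * qq ^ 3)

/-- Module STURM: a bounded modular function that vanishes at infinity is zero. -/
structure STURM : Prop where
  gam : ∀ (N : ℕ) (F : ℍ → ℂ) (κ : ℝ), 0 < N → Hol F → (∀ γ ∈ Gam N, ∀ τ, F (γ • τ) = F τ) →
    (∀ γ : SL2, Gr 0 fun τ => F (γ • τ)) → κ < 0 → Gr κ F → F = 0
  gam0 : ∀ (N : ℕ) (F : ℍ → ℂ) (κ : ℝ), 0 < N → Hol F →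
    (∀ γ : SL2, (N : ℤ) ∣ (γ : M2) 1 0 → ∀ τ, F (γ • τ) = F τ) →
    (∀ γ : SL2, ¬(N : ℤ) ∣ (γ : M2) 1 0 → Gr 0 fun τ => F (γ • τ)) → κ < 0 → Gr κ F → F = 0

/-- Module H10. -/
structure H10 : Prop where
  kk : ∀ τ, kk τ = hh τ + 1
  ll : ∀ τ, ll τ = hh τ - 4
  inv : ∀ γ : SL2, 10 ∣ (γ : M2) 1 0 → ∀ τ, hh (γ • τ) = hh τ

/-- Module W2. -/
def W2Stmt : Prop := ∀ τ, hh (mob !![2, 1; 10, 6] τ) * hh τ = -4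

/-- Module E20. -/
def E20Stmt : Prop :=
  ∀ τ, hh τ ^ 2 * hh (mob (dg 2 1) τ) - 2 * hh τ * hh (mob (dg 2 1) τ) - 4 * hh τ =
    hh (mob (dg 2 1) τ) ^ 2

/-- Module S25. -/
def S25Stmt : Prop := ∀ γ : SL2, 25 ∣ (γ : M2) 1 0 → ∀ τ, ss (γ • τ) = ss τ

/-- Module E50. -/
def E50Stmt : Prop :=
  ∀ τ, (ss τ * ss (mob (dg 2 1) τ)) ^ 2 +
    5 * (ss τ + ss (mob (dg 2 1) τ)) * (ss τ * ss (mob (dg 2 1) τ)) +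
    5 * (ss τ * ss (mob (dg 2 1) τ)) = (ss τ + ss (mob (dg 2 1) τ)) ^ 3

/-- Module JREL. -/
def JrelStmt : Prop :=
  ∀ τ, jf τ * ((X1 τ - 4) ^ 10 * X1 τ ^ 2 * (X1 τ + 1) ^ 5) =
    ((X1 τ - 4) ^ 5 * X1 τ + 256 * (X1 τ + 1) ^ 5) ^ 3

/-- Module MODB. -/
structure MODB : Prop where
  md : ∀ w ∈ [X1, Y1, X2, Y2, s0], w ∈ Mod 10 ∧ IntJ w ∧ RQ 10 w
  inv : ∀ w ∈ [X1, Y1, X2, Y2], ∀ g : SL2, 10 ∣ (g : M2) 0 1 → 10 ∣ (g : M2) 1 0 →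
    ∀ τ, w (g • τ) = w τ
  pole : Pole fun τ => hh (mob (dg 1 10) τ)

/-- Module LC1: the action of `Γ(5)` on the first map. -/
structure LC1 : Prop where
  curve : ∀ τ, Y1 τ ^ 2 + 2 * X1 τ * Y1 τ + 4 * Y1 τ = X1 τ ^ 3
  ne : ∀ τ, X1 τ ≠ 0 ∧ Y1 τ ≠ 0
  tx : ∀ τ, X1 (mob !![1, 5; 0, 1] τ) = X1 τ
  ty : ∀ τ, Y1 (mob !![1, 5; 0, 1] τ) = -Y1 τ - 2 * X1 τ - 4
  lx : ∀ τ, X1 (mob !![1, 0; 5, 1] τ) * X1 τ ^ 2 = -4 * Y1 τ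
  ly : ∀ τ, Y1 (mob !![1, 0; 5, 1] τ) * X1 τ ^ 3 = -4 * Y1 τ ^ 2

/-- Module LC2: the action of `Γ(5)` on the second map. -/
structure LC2 : Prop where
  curve : ∀ τ, Y2 τ ^ 2 + 5 * X2 τ * Y2 τ + 5 * Y2 τ = X2 τ ^ 3
  ne : ∀ τ, Y2 τ ≠ 0
  cubic : ∀ (τ : ℍ) (Z : ℂ), (s0 τ + Z) ^ 3 - (s0 τ * Z) ^ 2 - 5 * (s0 τ + Z) * (s0 τ * Z) -
    5 * (s0 τ * Z) = (Z - s1 τ) * (Z - s2 τ) * (Z - s3 τ)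
  inv : ∀ g : SL2, 5 ∣ (g : M2) 0 1 → 5 ∣ (g : M2) 1 0 → ∀ τ, s0 (g • τ) = s0 τ
  one : ∀ g : SL2, 5 ∣ (g : M2) 0 1 → 5 ∣ (g : M2) 1 0 → 2 ∣ (g : M2) 1 0 →
    ∀ τ, s1 (g • τ) = s1 τ
  two : ∀ g : SL2, 5 ∣ (g : M2) 0 1 → 5 ∣ (g : M2) 1 0 → 2 ∣ (g : M2) 1 1 →
    ∀ τ, s1 (g • τ) = s2 τ
  three : ∀ g : SL2, 5 ∣ (g : M2) 0 1 → 5 ∣ (g : M2) 1 0 → ¬2 ∣ (g : M2) 1 0 →
    ¬2 ∣ (g : M2) 1 1 → ∀ τ, s1 (g • τ) = s3 τ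
  w : ∀ ω : M2, ω.det = 2 → 2 ∣ ω 0 0 → 2 ∣ ω 1 1 → 10 ∣ ω 1 0 → 5 ∣ ω 0 1 →
    ∀ τ, s0 (mob ω τ) = s1 τ ∧ s1 (mob ω τ) = s0 τ

end Pool.Agent.MP_9207e0_ag.e3
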