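import Pool.Agent.MP_9207e0_ag.e3.SpecB
import Pool.Agent.MP_a43263_nt.MW

/-! Statements of the modules on the symbol, on Heegner points and on the descent. -/

set_option linter.unusedSectionVars false
set_option linter.unusedVariables false

namespace Pool.Agent.MP_9207e0_ag.e3

open UpperHalfPlane Complex Filter Asymptotics Matrix Pool.Agent.MP_9207e0_ag.hg
open NumberField IsDedekindDomain
open Pool.Agent.MP_a43263_nt (Pt ptMap ac WW GQ Tr)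
open scoped Real MatrixGroups Manifold Classical Kronecker

/-! ### The symbol -/

/-- Geometric points of `y^2 + 3 a x y + b y = x^3`. -/
abbrev PW (a b : ℚ) : Type := Pt (WW a b) Qbar

/-- The point with given coordinates. -/
noncomputable def pw (a b : ℚ) (x y : Qbar) : PW a b :=
  if h : ((WW a b).baseChange Qbar).toAffine.Nonsingular x y then .some x y h else 0

/-- The point of the Legendre curve with given coordinates. -/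
noncomputable def pl (l x y : Qbar) : (legendre l).Point :=
  if h : (legendre l).Nonsingular x y then .some x y h else 0

/-- Reciprocity on an abstract curve, Legendre models. -/
def RecL (l m : Qbar) {V : Type} [AddCommGroup V]
    (β : (legendre l).Point →+ (legendre m).Point →+ V) : Prop :=
  ∀ (F : Type) [Field F] [Algebra Qbar F], IsCurveField F → ∀ x1 y1 x2 y2 h : F,
    y1 ^ 2 = fl (algebraMap Qbar F l) x1 → y2 ^ 2 = fl (algebraMap Qbar F m) x2 → h ≠ 0 →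
    ∀ (S : Finset (ValuationSubring F)) (c d c' d' : ValuationSubring F → Qbar),
      (∀ W ∈ S, IsPlace W ∧ Sp W x1 (c W) ∧ Sp W y1 (d W) ∧ Sp W x2 (c' W) ∧ Sp W y2 (d' W)) →
      (∀ W, IsPlace W → W ∉ S → ordAt W h ≠ 0 →
        x1 ∉ W ∨ ∃ u, Sp W x1 u ∧ ∀ v, IsOfFinAddOrder (pl l u v)) →
      ∑ W ∈ S, ordAt W h • β (pl l (c W) (d W)) (pl m (c' W) (d' W)) = 0

/-- Reciprocity on an abstract curve. -/
def RecW (a b a' b' : ℚ) {V : Type} [AddCommGroup V] (β : PW a b →+ PW a' b' →+ V) : Prop :=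
  ∀ (F : Type) [Field F] [Algebra Qbar F], IsCurveField F → ∀ x1 y1 x2 y2 h : F,
    y1 ^ 2 + 3 * a * x1 * y1 + b * y1 = x1 ^ 3 → y2 ^ 2 + 3 * a' * x2 * y2 + b' * y2 = x2 ^ 3 →
    h ≠ 0 → ∀ (S : Finset (ValuationSubring F)) (c d c' d' : ValuationSubring F → Qbar),
      (∀ W ∈ S, IsPlace W ∧ Sp W x1 (c W) ∧ Sp W y1 (d W) ∧ Sp W x2 (c' W) ∧ Sp W y2 (d' W)) →
      (∀ W, IsPlace W → W ∉ S → ordAt W h ≠ 0 →
        x1 ∉ W ∨ ∃ u, Sp W x1 u ∧ ∀ v, IsOfFinAddOrder (pw a b u v)) →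
      ∑ W ∈ S, ordAt W h • β (pw a b (c W) (d W)) (pw a' b' (c' W) (d' W)) = 0

/-- Module KUML. -/
def KumlStmt : Prop :=
  ∀ l m : Qbar, l ≠ 0 → l ≠ 1 → m ≠ 0 → m ≠ 1 →
    ∀ (G : Type) [AddCommGroup G] (γ : Qbar → Qbar → Qbar → G), TF G → CurveRel l m γ →
    ∃ (κ : G) (β : (legendre l).Point →+ (legendre m).Point →+ G), RecL l m β ∧
      (∀ (x y u w : Qbar) (h : (legendre l).Nonsingular x y) (h' : (legendre m).Nonsingular u w),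
        y * w ≠ 0 → γ x u (y * w) = κ + β (.some x y h) (.some u w h')) ∧
      ∀ t r : Qbar, r ^ 2 = fl l t * fl m t → r ≠ 0 → γ t t r = κ

/-- Module KUMW. -/
def KumwStmt : Prop :=
  ∀ a b a' b' : ℚ, b ≠ 0 → a ^ 3 - b ≠ 0 → b' ≠ 0 → a' ^ 3 - b' ≠ 0 →
    ∀ e1 e2 e3 f1 f2 f3 l m : Qbar,
    (∀ x : Qbar, 4 * x ^ 3 + (3 * a * x + b) ^ 2 = 4 * (x - e1) * (x - e2) * (x - e3)) →
    (∀ x : Qbar, 4 * x ^ 3 + (3 * a' * x + b') ^ 2 = 4 * (x - f1) * (x - f2) * (x - f3)) →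
    l = (e3 - e1) / (e2 - e1) → m = (f3 - f1) / (f2 - f1) →
    ∀ (G : Type) [AddCommGroup G] (γ : Qbar → Qbar → Qbar → G), TF G → CurveRel l m γ →
    ∃ (κ : G) (β : PW a b →+ PW a' b' →+ G), RecW a b a' b' β ∧
      (∀ (x y u w r : Qbar) (h : ((WW a b).baseChange Qbar).toAffine.Nonsingular x y)
        (h' : ((WW a' b').baseChange Qbar).toAffine.Nonsingular u w),
        r ^ 2 = fl l ((x - e1) / (e2 - e1)) * fl m ((u - f1) / (f2 - f1)) → r ≠ 0 →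
        β (.some x y h) (.some u w h') = 0 →
        γ ((x - e1) / (e2 - e1)) ((u - f1) / (f2 - f1)) r = κ) ∧
      ∀ t r : Qbar, r ^ 2 = fl l t * fl m t → r ≠ 0 → γ t t r = κ

/-- The first modular parametrisation at algebraic points. -/
noncomputable def U1 (ι : Qbar →+* ℂ) (τ : ℍ) : PW (2 / 3) 4 :=
  if IsAlgebraic ℚ (jf τ) then pw _ _ (qv ι (X1 τ)) (qv ι (Y1 τ)) else 0

/-- The second modular parametrisation at algebraic points. -/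
noncomputable def U2 (ι : Qbar →+* ℂ) (τ : ℍ) : PW (5 / 3) 5 :=
  if IsAlgebraic ℚ (jf τ) then pw _ _ (qv ι (X2 τ)) (qv ι (Y2 τ)) else 0

/-- Module RECS. -/
def RecsStmt : Prop :=
  ∀ (ι : Qbar →+* ℂ) {V : Type} [AddCommGroup V] (β : PW (2 / 3) 4 →+ PW (5 / 3) 5 →+ V),
    TF V → RecW (2 / 3) 4 (5 / 3) 5 β → RecS fun τ σ => β (U1 ι τ) (U2 ι σ)

/-- Module PT: the action of `Γ(5)` on the points. -/
structure PT : Prop where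
  qv_spec : ∀ (ι : Qbar →+* ℂ) (z : ℂ), IsAlgebraic ℚ z → ι (qv ι z) = z
  spec1 : ∀ (ι : Qbar →+* ℂ) τ, IsAlgebraic ℚ (jf τ) → ι (qv ι (X1 τ)) = X1 τ ∧
    ι (qv ι (Y1 τ)) = Y1 τ ∧
    ((WW (2 / 3) 4).baseChange Qbar).toAffine.Nonsingular (qv ι (X1 τ)) (qv ι (Y1 τ))
  spec2 : ∀ (ι : Qbar →+* ℂ) τ, IsAlgebraic ℚ (jf τ) → ι (qv ι (X2 τ)) = X2 τ ∧
    ι (qv ι (Y2 τ)) = Y2 τ ∧
    ((WW (5 / 3) 5).baseChange Qbar).toAffine.Nonsingular (qv ι (X2 τ)) (qv ι (Y2 τ))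
  alg : ∀ (A : M2) τ, 0 < A.det → (IsAlgebraic ℚ (jf (mob A τ)) ↔ IsAlgebraic ℚ (jf τ))
  inv1 : ∀ ι (g : SL2), 10 ∣ (g : M2) 0 1 → 10 ∣ (g : M2) 1 0 → ∀ τ, U1 ι (g • τ) = U1 ι τ
  inv2 : ∀ ι (g : SL2), 5 ∣ (g : M2) 0 1 → 10 ∣ (g : M2) 1 0 → ∀ τ, U2 ι (g • τ) = U2 ι τ
  up : ∀ ι τ, U1 ι (mob !![1, 5; 0, 1] τ) = -U1 ι τ
  low : ∀ ι τ, 3 • (U1 ι (mob !![1, 0; 5, 1] τ) + U1 ι τ) = (0 : PW (2 / 3) 4)
  tr3 : ∀ ι, ∀ g ∈ Gam 5, Odd (g : M2).trace → ∀ τ, U2 ι τ + U2 ι (g • τ) + U2 ι (g • g • τ) = 0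
  w2 : ∀ ι (ω : M2), ω.det = 2 → 2 ∣ ω 0 0 → 2 ∣ ω 1 1 → 10 ∣ ω 1 0 → 5 ∣ ω 0 1 →
    ∀ τ, U2 ι (mob ω τ) = U2 ι τ

/-- Module LAW. -/
def LawStmt : Prop :=
  ∀ (ι : Qbar →+* ℂ) {V : Type} [AddCommGroup V] (β : PW (2 / 3) 4 →+ PW (5 / 3) 5 →+ V),
    TF V → Law fun τ σ => β (U1 ι τ) (U2 ι σ)

/-! ### Heegner points -/

/-- The numerical data. -/
structure Dat (n : ℕ) (m t : ℤ) : Prop where
  sq : Squarefree n
  big : 7 ≤ n
  disc : t ^ 2 - 4 * m = -n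
  cop : IsCoprime t 10
  dvd : 100 ∣ m

/-- `W` has trace `t`, determinant `m`, fixes `τ`, and has the sign `e`. -/
def HF (m t e : ℤ) (W : M2) (τ : ℍ) : Prop :=
  W.trace = t ∧ W.det = m ∧ mob W τ = τ ∧ 0 < e * W 1 0

/-- Heegner points of level one hundred. -/
def HS (m t e : ℤ) (τ : ℍ) : Prop := ∃ W : M2, HF m t e W τ ∧ 100 ∣ W 0 0 ∧ 100 ∣ W 1 0

/-- Equivalence modulo `Γ₀(100)`. -/
def rel0 (τ σ : ℍ) : Prop := ∃ γ : SL2, 100 ∣ (γ : M2) 1 0 ∧ γ • τ = σ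

/-- Module HB. -/
structure HB : Prop where
  equiv : Equivalence rel0
  pos : ∀ {n m t}, Dat n m t → 0 < m
  uniq : ∀ {n m t e W W' τ}, Dat n m t → HF m t e W τ → HF m t e W' τ → W = W'
  conj : ∀ {n m t e W τ} (g : SL2), Dat n m t → HF m t e W τ →
    HF m t e ((g : M2) * W * ((g⁻¹ : SL2) : M2)) (g • τ)
  prim : ∀ {n m t} {W : M2}, Dat n m t → W.trace = t → W.det = m → Prim W
  stab : ∀ {n m t e W τ} (g : SL2), Dat n m t → HF m t e W τ → g • τ = τ → g = 1 ∨ g = -1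
  lift : ∀ {n m t e W τ}, Dat n m t → HF m t e W τ →
    ∃ g γ : SL2, HF m t e ((γ : M2) * dg m 1) (g • τ)
  inv : ∀ {n m t e τ σ}, Dat n m t → HS m t e τ → rel0 τ σ → HS m t e σ
  lemI : ∀ {n m t e τ} (g : SL2), Dat n m t → HS m t e τ → HS m t e (g • τ) → 100 ∣ (g : M2) 1 0
  eig : ∀ {n : ℕ} {m t e : ℤ} {W τ} (z : ℂ), Dat n m t → HF m t e W τ → z ^ 2 - t * z + m = 0 →
    0 < e * z.im → (W 1 0 : ℂ) * τ + W 1 1 = z
  of_eig : ∀ {n : ℕ} {m t e : ℤ} {W : M2} {τ : ℍ} (z : ℂ), Dat n m t → z ^ 2 - t * z + m = 0 →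
    0 < e * z.im → W.det = m → mob W τ = τ → (W 1 0 : ℂ) * τ + W 1 1 = z → HF m t e W τ
  fin : ∀ {n m t} (e : ℤ), Dat n m t → ∃ R, IsRep rel0 {τ | HS m t e τ} R
  alg : ∀ {n m t e W τ}, Dat n m t → HF m t e W τ → IsAlgebraic ℚ (jf τ)

/-- Module TWO: from level `Γ₀(100)` to level `Γ(10)`. -/
def TwoStmt : Prop :=
  ∀ (n : ℕ) (m t e : ℤ) (R : Finset ℍ), Dat n m t → IsRep rel0 {τ | HS m t e τ} R →
    ∃ R', IsRep (relG 10) {τ | Sg m t e τ} R' ∧ ∀ {V : Type} [AddCommGroup V] (f : ℍ → V),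
      (∀ g : SL2, 10 ∣ (g : M2) 0 1 → 10 ∣ (g : M2) 1 0 → ∀ τ, f (g • τ) = f τ) →
      ∑ τ ∈ R', f τ = 2 • ∑ τ ∈ R, f (mob (dg 10 1) τ)

/-- Module WT: a modular function that sees the eigenvalue. -/
structure WT : Prop where
  ex : ∀ m : ℕ, 0 < m → ∃ F ∈ Mod m, RQ m F ∧ ∀ (γ : SL2) (τ : ℍ), γ • mob (dg m 1) τ = τ →
    jf τ * (jf τ - 1728) = (((γ : M2) 1 0 : ℂ) * m * τ + (γ : M2) 1 1) ^ 2 * F τ
  ne : ∀ {n m t e W τ}, Dat n m t → HF m t e W τ → jf τ * (jf τ - 1728) ≠ 0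

/-- Module SPEC: conjugates of values of rational modular functions. -/
def SpecStmt : Prop :=
  ∀ (ι : Qbar →+* ℂ) (σ : Qbar →+* Qbar) (M : ℕ) (τ : ℍ), 0 < M → IsAlgebraic ℚ (jf τ) →
    ∃ τ', ∀ w ∈ Mod M, RQ M w → IsAlgebraic ℚ (w τ) ∧ ι (σ (qv ι (w τ))) = w τ'

/-- Module GAL. -/
def GalStmt : Prop :=
  ∀ (ι : Qbar →+* ℂ) (n : ℕ) (m t e : ℤ) (R : Finset ℍ), Dat n m t →
    IsRep rel0 {τ | HS m t e τ} R → ∀ σ : Qbar →+* Qbar, (∀ z : Qbar, z ^ 2 = -n → σ z = z) →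
    ∃ f : ℍ → ℍ, Set.BijOn f R R ∧ ∀ w ∈ [X1, Y1, X2, Y2], ∀ τ ∈ R,
      σ (qv ι (w (mob (dg 10 1) τ))) = qv ι (w (mob (dg 10 1) (f τ)))

/-! ### The quadratic field -/

/-- Minus the order of `x` at `v`. -/
noncomputable def lg {K : Type} [Field K] [NumberField K] (v : HeightOneSpectrum (𝓞 K)) (x : K) :
    ℤ := WithZero.log (v.valuation K x)

/-- The ring of integers is generated by a root of `X^2 - t X + m`. -/
structure QF (n : ℕ) (m t : ℤ) (K : Type) [Field K] [NumberField K] (lam : 𝓞 K) : Prop where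
  dat : Dat n m t
  eq : lam ^ 2 - t * lam + m = 0
  basis : ∀ z : 𝓞 K, ∃ a b : ℤ, z = a + b * lam

/-- The primes above two and five have prime residue field. -/
def Res (K : Type) [Field K] [NumberField K] : Prop :=
  ∀ p : ℕ, p = 2 ∨ p = 5 → ∀ v : HeightOneSpectrum (𝓞 K), (p : 𝓞 K) ∈ v.asIdeal →
    ∀ c : 𝓞 K, ∃ k : ℤ, c - k ∈ v.asIdeal

/-- Module RING: the ring of integers. -/
def RingStmt : Prop :=
  ∀ (n : ℕ) (K : IntermediateField ℚ Qbar) [NumberField K], Squarefree n →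
    n % 40 = 31 ∨ n % 40 = 39 → K = IntermediateField.adjoin ℚ {z : Qbar | z ^ 2 = -n} →
    ∃ (m t : ℤ) (lam : 𝓞 K), QF n m t K lam

/-- Module OK: units and primes. -/
structure OK : Prop where
  conj : ∀ {n m t} {K : Type} [Field K] [NumberField K] {lam : 𝓞 K}, QF n m t K lam →
    QF n m t K (t - lam)
  indep : ∀ {n m t} {K : Type} [Field K] [NumberField K] {lam : 𝓞 K}, QF n m t K lam →
    ∀ a b : ℤ, (a : 𝓞 K) + b * lam = 0 → a = 0 ∧ b = 0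
  im : ∀ {n m t} {K : Type} [Field K] [NumberField K] {lam : 𝓞 K}, QF n m t K lam →
    ∀ κ : K →+* ℂ, (κ (lam : K)).im ≠ 0
  units : ∀ {n m t} {K : Type} [Field K] [NumberField K] {lam : 𝓞 K}, QF n m t K lam →
    ∀ u : (𝓞 K)ˣ, u = 1 ∨ u = -1
  now : ∀ {n m t} {K : Type} [Field K] [NumberField K] {lam : 𝓞 K}, QF n m t K lam →
    ∀ w : K, w ^ 2 + w + 1 ≠ 0
  prime : ∀ {n m t} {K : Type} [Field K] [NumberField K] {lam : 𝓞 K}, QF n m t K lam →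
    ∀ p : ℕ, p = 2 ∨ p = 5 →
    ∃ v : HeightOneSpectrum (𝓞 K), (p : 𝓞 K) ∈ v.asIdeal ∧ lam ∈ v.asIdeal
  uniq : ∀ {n m t} {K : Type} [Field K] [NumberField K] {lam : 𝓞 K}, QF n m t K lam →
    ∀ p : ℕ, p = 2 ∨ p = 5 → ∀ v v' : HeightOneSpectrum (𝓞 K), (p : 𝓞 K) ∈ v.asIdeal →
    lam ∈ v.asIdeal → (p : 𝓞 K) ∈ v'.asIdeal → lam ∈ v'.asIdeal → v = v'
  dich : ∀ {n m t} {K : Type} [Field K] [NumberField K] {lam : 𝓞 K}, QF n m t K lam →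
    ∀ p : ℕ, p = 2 ∨ p = 5 → ∀ v : HeightOneSpectrum (𝓞 K), (p : 𝓞 K) ∈ v.asIdeal →
    (lam ∈ v.asIdeal ↔ t - lam ∉ v.asIdeal)
  val : ∀ {n m t} {K : Type} [Field K] [NumberField K] {lam : 𝓞 K}, QF n m t K lam →
    ∀ p : ℕ, p = 2 ∨ p = 5 → ∀ v : HeightOneSpectrum (𝓞 K), (p : 𝓞 K) ∈ v.asIdeal →
    lg v (p : K) = -1
  res : ∀ {n m t} {K : Type} [Field K] [NumberField K] {lam : 𝓞 K}, QF n m t K lam → Res K

/-- Module CLS. -/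
def ClsStmt : Prop :=
  ∀ (n : ℕ) (m t e : ℤ) (K : Type) [Field K] [NumberField K] (lam : 𝓞 K) (κ : K →+* ℂ)
    (R : Finset ℍ), QF n m t K lam → 0 < e * (κ (lam : K)).im → IsRep rel0 {τ | HS m t e τ} R →
    R.card = classNumber K

/-- Module PROD. -/
def ProdStmt : Prop :=
  ∀ (n : ℕ) (m t e : ℤ) (K : Type) [Field K] [NumberField K] (lam : 𝓞 K) (κ : K →+* ℂ)
    (R : Finset ℍ), QF n m t K lam → 0 < e * (κ (lam : K)).im → IsRep rel0 {τ | HS m t e τ} R →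
    ∀ d : ℕ, d ∣ 100 → ∃ Λ : K, Λ ≠ 0 ∧ ∏ τ ∈ R, ed d τ ^ 24 = κ Λ ^ 12 * ∏ τ ∈ R, et τ ^ 24 ∧
      ∀ p : ℕ, p = 2 ∨ p = 5 → ∀ v : HeightOneSpectrum (𝓞 K), (p : 𝓞 K) ∈ v.asIdeal →
        lg v Λ = if lam ∈ v.asIdeal then -R.card * lg v (d : K) else 0

/-- Module CUBE. -/
structure CUBE : Prop where
  mul : ∀ {K : Type} [Field K] [NumberField K] (v : HeightOneSpectrum (𝓞 K)) {x y : K},
    x ≠ 0 → y ≠ 0 → lg v (x * y) = lg v x + lg v y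
  pow : ∀ {K : Type} [Field K] [NumberField K] (v : HeightOneSpectrum (𝓞 K)) (x : K) (k : ℕ),
    lg v (x ^ k) = k * lg v x
  of_not_mem : ∀ {K : Type} [Field K] [NumberField K] (v : HeightOneSpectrum (𝓞 K)) (x : 𝓞 K),
    x ∉ v.asIdeal → lg v (x : K) = 0
  val : ∀ {K : Type} [Field K] [NumberField K] (β : K), ¬3 ∣ classNumber K → β ≠ 0 →
    (∀ v, 3 ∣ lg v β) → ∃ c : K, c ≠ 0 ∧ ∀ v, lg v β = 3 * lg v c
  unit : ∀ {K : Type} [Field K] [NumberField K] (β : K), β ≠ 0 → (∀ v, lg v β = 0) →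
    ∃ u : (𝓞 K)ˣ, β = ((u : 𝓞 K) : K)
  cube : ∀ {K : Type} [Field K] [NumberField K] (β : K), ¬3 ∣ classNumber K →
    (∀ u : (𝓞 K)ˣ, u = 1 ∨ u = -1) → β ≠ 0 → (∀ v, 3 ∣ lg v β) → ∃ c : K, c ^ 3 = β

/-- Module H94: a cyclic cubic extension is ramified. -/
def H94Stmt : Prop :=
  ∀ (K L : Type) [Field K] [NumberField K] [Field L] [NumberField L] [Algebra K L] [IsGalois K L],
    Module.finrank K L = 3 → (∀ u : (𝓞 K)ˣ, u = 1 ∨ u = -1) → ¬3 ∣ classNumber K →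
    ∃ w : HeightOneSpectrum (𝓞 L), ∀ c : K,
      w.valuation L (algebraMap K L c) ≠ WithZero.exp (-1)

/-- Total ramification at `w`. -/
structure Ram (K L : Type) [Field K] [NumberField K] [Field L] [NumberField L] [Algebra K L]
    (w : HeightOneSpectrum (𝓞 L)) : Prop where
  val : ∀ (σ : L ≃ₐ[K] L) (x : L), w.valuation L (σ x) = w.valuation L x
  triv : ∀ (σ : L ≃ₐ[K] L) (x : L), w.valuation L x ≤ 1 → w.valuation L (σ x - x) < 1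
  three : ∀ c : K, c ≠ 0 → 3 ∣ lg w (algebraMap K L c)
  res : ∀ x : L, w.valuation L x ≤ 1 →
    ∃ c : 𝓞 K, w.valuation L (x - algebraMap K L (c : K)) < 1

/-- Module RAM. -/
def RamStmt : Prop :=
  ∀ (K L : Type) [Field K] [NumberField K] [Field L] [NumberField L] [Algebra K L] [IsGalois K L],
    Module.finrank K L = 3 → ∀ w : HeightOneSpectrum (𝓞 L),
    (∀ c : K, w.valuation L (algebraMap K L c) ≠ WithZero.exp (-1)) → Ram K L w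

/-- No point over a cyclic cubic extension is translated by `(0, 0)` under the Galois group. -/
def NoCub (K : Type) [Field K] (a1 a3 : ℚ) : Prop :=
  ∀ (L : Type) [Field L] [NumberField L] [Algebra K L] [IsGalois K L], Module.finrank K L = 3 →
    ∀ (σ : L ≃ₐ[K] L) (x y : L), y ^ 2 + a1 * x * y + a3 * y = x ^ 3 → x ≠ 0 →
    σ x * x ^ 2 = -a3 * y → σ y * x ^ 3 = -a3 ^ 2 * y → False

/-- Module UNR. -/
def UnrStmt : Prop :=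
  ∀ (K : Type) [Field K] [NumberField K] (a1 a3 : ℚ), (a1 = 2 ∧ a3 = 4) ∨ (a1 = 5 ∧ a3 = 5) →
    Res K → (∀ (L : Type) [Field L] [NumberField L] [Algebra K L] [IsGalois K L],
      Module.finrank K L = 3 → ∃ w, Ram K L w) → NoCub K a1 a3

/-! ### The descent -/

/-- `σ` fixes `K`. -/
def Fx (K : IntermediateField ℚ Qbar) (σ : GQ) : Prop := ∀ x ∈ K, σ x = x

/-- Points over `K` as geometric points. -/
noncomputable def inK (a b : ℚ) (K : IntermediateField ℚ Qbar) : Pt (WW a b) K →+ PW a b :=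
  ptMap _ (algebraMap K Qbar)

/-- `β` is the image of `P` under the descent map over `K`. -/
def Gd (a b : ℚ) (K : IntermediateField ℚ Qbar) (β : Qbar) (P : PW a b) : Prop :=
  ∀ ρ : Qbar, ρ ^ 3 = β → ∃ R : PW a b, 3 • R = P ∧
    ∀ σ : GQ, Fx K σ → Tr (a : Qbar) b (ac _ σ R - R) (σ ρ / ρ)

/-- Module GD, for one curve and one field. -/
structure GD (a b : ℚ) (K : IntermediateField ℚ Qbar) : Prop where
  ns : ∀ x y : Qbar, ((WW a b).baseChange Qbar).toAffine.Nonsingular x y ↔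
    y ^ 2 + 3 * a * x * y + b * y = x ^ 3
  inj : Function.Injective (inK a b K)
  range : ∀ P : PW a b, (∃ Q, inK a b K Q = P) ↔ ∀ x y h, P = .some x y h → x ∈ K ∧ y ∈ K
  fixed : ∀ x : Qbar, (∀ σ, Fx K σ → σ x = x) → x ∈ K
  desc : ∀ P : PW a b, (∃ Q, inK a b K Q = P) ↔ ∀ σ, Fx K σ → ac _ σ P = P
  ac_pw : ∀ (σ : GQ) x y, ac _ σ (pw a b x y) = pw a b (σ x) (σ y)
  three : 3 • pw a b 0 0 = 0
  addT : ∀ x y : Qbar, y ^ 2 + 3 * a * x * y + b * y = x ^ 3 → x ≠ 0 →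
    pw a b x y + pw a b 0 0 = pw a b (-b * y / x ^ 2) (-b ^ 2 * y / x ^ 3)
  negT : -pw a b 0 0 = pw a b 0 (-b)
  mul : ∀ {β β' P P'}, β ≠ 0 → Gd a b K β P → Gd a b K β' P' → Gd a b K (β * β') (P + P')
  pt : ∀ x ∈ K, ∀ y ∈ K, y ^ 2 + 3 * a * x * y + b * y = x ^ 3 → y ≠ 0 →
    Gd a b K (y ^ 2) (pw a b x y)
  tee : Gd a b K b (pw a b 0 0)
  zero : ∀ γ ∈ K, γ ≠ 0 → Gd a b K (γ ^ 3) 0
  cube : ∀ {β} (Z : Pt (WW a b) K), β ≠ 0 → Gd a b K β (3 • inK a b K Z) → ∃ γ ∈ K, γ ^ 3 = β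
  sum : ∀ {I : Type} (R : Finset I) (x y : I → Qbar),
    (∀ i ∈ R, y i ≠ 0 ∧ y i ^ 2 + 3 * a * x i * y i + b * y i = x i ^ 3) →
    (∀ σ, Fx K σ → ∃ f : I → I, Set.BijOn f R R ∧
      ∀ i ∈ R, σ (x i) = x (f i) ∧ σ (y i) = y (f i)) →
    Gd a b K ((∏ i ∈ R, y i) ^ 2) (∑ i ∈ R, pw a b (x i) (y i))
  ker : ∀ {P}, Gd a b K 1 P → ∃ R : PW a b, 3 • R = P ∧ ∀ σ, Fx K σ →
    ac _ σ R = R ∨ ac _ σ R = R + pw a b 0 0 ∨ ac _ σ R = R - pw a b 0 0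
  tors : (∀ w : K, w ^ 2 + w + 1 ≠ 0) → ∀ S : Pt (WW a b) K, 3 • S = 0 →
    inK a b K S = 0 ∨ inK a b K S = pw a b 0 0 ∨ inK a b K S = -pw a b 0 0

/-- Module GD. -/
def GdStmt : Prop :=
  ∀ (a b : ℚ) (K : IntermediateField ℚ Qbar), b ≠ 0 → a ^ 3 - b ≠ 0 → GD a b K

/-- The two curves, with the prime that divides `b`. -/
def Cv (a b : ℚ) (p : ℕ) : Prop := (a = 2 / 3 ∧ b = 4 ∧ p = 2) ∨ (a = 5 / 3 ∧ b = 5 ∧ p = 5)

/-- Module DESC1. -/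
def Desc1Stmt : Prop :=
  ∀ (a b : ℚ) (p n : ℕ) (m t : ℤ) (K : IntermediateField ℚ Qbar) [NumberField K] (lam : 𝓞 K)
    (v v' : HeightOneSpectrum (𝓞 K)), Cv a b p → QF n m t K lam → ¬3 ∣ classNumber K →
    (p : 𝓞 K) ∈ v.asIdeal → lam ∈ v.asIdeal → (p : 𝓞 K) ∈ v'.asIdeal → t - lam ∈ v'.asIdeal →
    ∃ φ : Pt (WW a b) K →+ ZMod 3 × ZMod 3,
      (∀ P (β : K), β ≠ 0 → Gd a b K β (inK a b K P) →
        φ P = ((lg v β : ZMod 3), (lg v' β : ZMod 3))) ∧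
      ∀ P, φ P = 0 → Gd a b K 1 (inK a b K P)

/-- Module DESC2. -/
def Desc2Stmt : Prop :=
  ∀ (a b : ℚ) (K : IntermediateField ℚ Qbar) [NumberField K], GD a b K → NoCub K (3 * a) b →
    ∀ P : Pt (WW a b) K, Gd a b K 1 (inK a b K P) → ∃ Z, P = 3 • Z

/-- Module RANK. -/
def RankStmt : Prop :=
  ∀ (A : Type) [AddCommGroup A] (φ : A →+ ZMod 3 × ZMod 3) (T : A), AddGroup.FG A →
    (∀ P, φ P = 0 → ∃ Z, P = 3 • Z) → (∀ S : A, 3 • S = 0 → S = 0 ∨ S = T ∨ S = -T) →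
    φ T ≠ 0 → (φ T).1 = (φ T).2 → IsOfFinAddOrder T →
    (∀ P, IsOfFinAddOrder P → (φ P).1 = (φ P).2) ∧ ((∃ P, (φ P).1 ≠ (φ P).2) →
      Module.rank ℤ A = 1 ∧ ∃ g : A, ∀ P, ∃ k : ℤ, IsOfFinAddOrder (P - k • g))

/-- Module MW: the group of points over `K`. -/
def MwStmt : Prop :=
  ∀ (a b : ℚ) (p n : ℕ) (m t : ℤ) (K : IntermediateField ℚ Qbar) [NumberField K] (lam : 𝓞 K)
    (v v' : HeightOneSpectrum (𝓞 K)), Cv a b p → QF n m t K lam → ¬3 ∣ classNumber K →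
    (p : 𝓞 K) ∈ v.asIdeal → lam ∈ v.asIdeal → (p : 𝓞 K) ∈ v'.asIdeal → t - lam ∈ v'.asIdeal →
    ∃ ψ : Pt (WW a b) K →+ ZMod 3,
      (∀ P (β : K), β ≠ 0 → Gd a b K β (inK a b K P) → ψ P = (lg v β - lg v' β : ℤ)) ∧
      (∀ P, IsOfFinAddOrder P → ψ P = 0) ∧ ((∃ P, ψ P ≠ 0) →
        Module.rank ℤ (Pt (WW a b) K) = 1 ∧
          ∃ g : Pt (WW a b) K, ∀ P, ∃ k : ℤ, IsOfFinAddOrder (P - k • g))

/-- Module HK: the Heegner points over `K` and their images under the descent map. -/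
def HkStmt : Prop :=
  ∀ (ι : Qbar →+* ℂ) (n : ℕ) (m t e : ℤ) (K : IntermediateField ℚ Qbar) [NumberField K]
    (lam : 𝓞 K) (R : Finset ℍ), QF n m t K lam → 0 < e * (ι ((lam : K) : Qbar)).im →
    IsRep rel0 {τ | HS m t e τ} R →
    (∃ (P : Pt (WW (2 / 3) 4) K) (B : K),
      inK _ _ K P = ∑ τ ∈ R, U1 ι (mob (dg 10 1) τ) ∧ B ≠ 0 ∧
      Gd _ _ K ((B ^ 2 : K) : Qbar) (inK _ _ K P) ∧
      ∀ v : HeightOneSpectrum (𝓞 K), ((2 : ℕ) : 𝓞 K) ∈ v.asIdeal →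
        lg v B = if lam ∈ v.asIdeal then -4 * (R.card : ℤ) else 0) ∧
    ∃ (P : Pt (WW (5 / 3) 5) K) (B : K),
      inK _ _ K P = ∑ τ ∈ R, U2 ι (mob (dg 10 1) τ) ∧ B ≠ 0 ∧
      Gd _ _ K ((B ^ 2 : K) : Qbar) (inK _ _ K P) ∧
      ∀ v : HeightOneSpectrum (𝓞 K), ((5 : ℕ) : 𝓞 K) ∈ v.asIdeal →
        lg v B = if lam ∈ v.asIdeal then -2 * (R.card : ℤ) else 0

/-- Module EIS: the main statement for an abstract symbol. -/
def EisStmt : Prop :=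
  ∀ (n : ℕ) (K : IntermediateField ℚ Qbar) [NumberField K], Squarefree n →
    n % 40 = 31 ∨ n % 40 = 39 → K = IntermediateField.adjoin ℚ {z : Qbar | z ^ 2 = -n} →
    ¬3 ∣ classNumber K →
    Module.rank ℤ (Pt (WW (2 / 3) 4) K) = 1 ∧ Module.rank ℤ (Pt (WW (5 / 3) 5) K) = 1 ∧
      ∀ {V : Type} [AddCommGroup V] (β : PW (2 / 3) 4 →+ PW (5 / 3) 5 →+ V), TF V →
        RecW (2 / 3) 4 (5 / 3) 5 β → ∀ P Q, β (inK _ _ K P) (inK _ _ K Q) = 0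

end Pool.Agent.MP_9207e0_ag.e3
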